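import Pool.Agent.Work.MP_9fb703_hp.Interface

/-! # Block EXP: a geometric sum of phases within half a turn (helper87) -/

set_option autoImplicit false

namespace Pool.HPQ

open Finset

theorem p_EXP : Stmt_EXP := by
  intro T θ hθ
  have hpi : 0 < Real.pi := Real.pi_pos
  set z : ℂ := Complex.exp (Complex.I * ((2 * Real.pi * θ : ℝ) : ℂ)) with hz
  have hsum : ∑ j ∈ range T, Complex.exp (2 * Real.pi * Complex.I * (j * θ)) =
      ∑ j ∈ range T, z ^ j := by
    refine Finset.sum_congr rfl fun j _ => ?_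
    rw [hz, ← Complex.exp_nat_mul]
    congr 1
    push_cast
    ring
  rw [hsum]
  rcases eq_or_ne θ 0 with h0 | h0
  · have hz1 : z = 1 := by
      rw [hz, h0]
      simp
    rw [hz1]
    simp only [one_pow, sum_const, card_range, nsmul_eq_mul, mul_one, Complex.norm_natCast]
    rw [div_le_iff₀ hpi]
    have h3 : (2 : ℝ) ≤ Real.pi := Real.two_le_pi
    have hT : (0 : ℝ) ≤ T := Nat.cast_nonneg T
    nlinarith
  · have hab : 0 < |θ| := abs_pos.2 h0
    have hg : (∑ j ∈ range T, z ^ j) * (z - 1) = z ^ T - 1 := geom_sum_mul z T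
    have hzT : z ^ T = Complex.exp (Complex.I * ((2 * Real.pi * θ * T : ℝ) : ℂ)) := by
      rw [hz, ← Complex.exp_nat_mul]
      congr 1
      push_cast
      ring
    have h1 : ‖z - 1‖ ≤ 2 * Real.pi * |θ| := by
      refine (Real.norm_exp_I_mul_ofReal_sub_one_le).trans ?_
      rw [Real.norm_eq_abs, abs_mul, abs_of_pos (by positivity : 0 < 2 * Real.pi)]
    have h2 : 4 * T * |θ| ≤ ‖z ^ T - 1‖ := by
      rw [hzT, Complex.norm_exp_I_mul_ofReal_sub_one, Real.norm_eq_abs, abs_mul,
        abs_of_pos (by norm_num : (0 : ℝ) < 2)]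
      have e1 : |Real.sin (2 * Real.pi * θ * T / 2)| = Real.sin (Real.pi * (|θ| * T)) := by
        have e2 : 2 * Real.pi * θ * T / 2 = Real.pi * (θ * T) := by ring
        have e3 : 0 ≤ Real.sin (Real.pi * (|θ| * T)) := by
          apply Real.sin_nonneg_of_nonneg_of_le_pi
          · positivity
          · nlinarith
        rw [e2]
        rcases le_or_gt 0 θ with hs | hs
        · rw [abs_of_nonneg hs] at e3 ⊢
          exact abs_of_nonneg e3
        · rw [abs_of_neg hs] at e3 ⊢
          have e4 : Real.pi * (θ * T) = -(Real.pi * (-θ * T)) := by ring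
          rw [e4, Real.sin_neg, abs_neg]
          exact abs_of_nonneg e3
      rw [e1]
      have h5 := Real.mul_le_sin (x := Real.pi * (|θ| * T)) (by positivity) (by nlinarith)
      have h6 : 2 / Real.pi * (Real.pi * (|θ| * T)) = 2 * (|θ| * T) := by
        field_simp
      rw [h6] at h5
      nlinarith
    rw [← hg, norm_mul] at h2
    have h7 : 4 * T * |θ| ≤ ‖∑ j ∈ range T, z ^ j‖ * (2 * Real.pi * |θ|) :=
      h2.trans (mul_le_mul_of_nonneg_left h1 (norm_nonneg _))
    rw [div_le_iff₀ hpi]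
    have h8 : |θ| * (2 * T) ≤ |θ| * (‖∑ j ∈ range T, z ^ j‖ * Real.pi) := by nlinarith
    exact le_of_mul_le_mul_left h8 hab

end Pool.HPQ
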