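import Pool.Agent.Work.MP_9fb703_hp.Interface

/-! # Block FLB2: lower bound for the local weight (helper87) -/

set_option autoImplicit false

namespace Pool.HPQ

open Finset

theorem p_FLB2 (h1 : Stmt_EXP) : Stmt_FLB2 := by
  intro R H W m₀ _ n hm hW hR hWR hWn hn
  have hR0 : R ≠ 0 := NeZero.ne R
  have hH : 0 < H := by
    rcases Nat.eq_zero_or_pos H with h | h
    · rw [h, mul_zero] at hR
      exact absurd hR hR0
    · exact h
  have hmr : (0 : ℝ) < m₀ := by exact_mod_cast hm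
  have hHr : (0 : ℝ) < H := by exact_mod_cast hH
  have hWr : (0 : ℝ) < W := by exact_mod_cast hW
  have hRr : (R : ℝ) = 2 * m₀ * H := by exact_mod_cast hR
  have hR0r : (0 : ℝ) < R := by rw [hRr]; positivity
  have hnr : |(n : ℝ)| ≤ m₀ := by exact_mod_cast hn
  have hθ : |(n : ℝ) / R| * H ≤ 1 / 2 := by
    rw [abs_div, abs_of_pos hR0r, div_mul_eq_mul_div, div_le_iff₀ hR0r, hRr]
    nlinarith
  have h := h1 H ((n : ℝ) / R) hθ
  have e : ∑ j ∈ range H, Complex.exp (2 * Real.pi * Complex.I * (j * (((n : ℝ) / R : ℝ) : ℂ))) =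
      ∑ j ∈ range H, (ZMod.stdAddChar ((j : ZMod R) * (n : ZMod R)) : ℂ) := by
    apply Finset.sum_congr rfl
    intro j _
    have e1 : ((j : ZMod R) * (n : ZMod R)) = (((j : ℤ) * n : ℤ) : ZMod R) := by
      push_cast
      rfl
    rw [e1, ZMod.stdAddChar_coe]
    congr 1
    push_cast
    ring
  rw [e] at h
  have hz : ((R / W : ℕ) : ZMod R) * (n : ZMod R) = 0 := by
    obtain ⟨k, rfl⟩ := hWn
    obtain ⟨l, hl⟩ := hWR
    have e2 : R / W = l := by rw [hl]; exact Nat.mul_div_cancel_left l hW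
    have e3 : ((W : ZMod R) * (l : ZMod R)) = 0 := by
      have : ((W * l : ℕ) : ZMod R) = 0 := by
        rw [← hl]; exact ZMod.natCast_self R
      rw [← this]
      push_cast
      rfl
    rw [e2]
    push_cast
    calc (l : ZMod R) * ((W : ZMod R) * (k : ZMod R))
        = ((W : ZMod R) * (l : ZMod R)) * (k : ZMod R) := by ring
      _ = 0 := by rw [e3, zero_mul]
  unfold fl
  rw [if_pos hz]
  have hpi : 0 < Real.pi := Real.pi_pos
  have h2 : (2 * (H : ℝ) / Real.pi) ^ 2 ≤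
      ‖∑ j ∈ range H, (ZMod.stdAddChar ((j : ZMod R) * (n : ZMod R)) : ℂ)‖ ^ 2 :=
    pow_le_pow_left₀ (by positivity) h 2
  rw [le_div_iff₀ (by positivity), hRr]
  calc 2 * (W : ℝ) / (Real.pi ^ 2 * m₀) * (2 * m₀ * H * H)
      = W * (2 * (H : ℝ) / Real.pi) ^ 2 := by
        field_simp
    _ ≤ _ := mul_le_mul_of_nonneg_left h2 hWr.le

end Pool.HPQ
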