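import Pool.Agent.Work.MP_9fb703_hp.Interface

/-! # Block FW2: the local weight and its transform (helper57) -/

set_option autoImplicit false

namespace Pool.HPQ

open Finset

namespace FW2

open Classical in
/-- The geometric sum over the multiples of `R / W`. -/
theorem geom (R W : ℕ) [NeZero R] (hW : 0 < W) (hWR : W ∣ R) (m : ZMod R) :
    ∑ u ∈ range W, (ZMod.stdAddChar (((u * (R / W) : ℕ) : ZMod R) * m) : ℂ) =
      if ((R / W : ℕ) : ZMod R) * m = 0 then (W : ℂ) else 0 := by
  set ζ : ℂ := ZMod.stdAddChar (((R / W : ℕ) : ZMod R) * m) with hζ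
  have hterm : ∀ u : ℕ, (ZMod.stdAddChar (((u * (R / W) : ℕ) : ZMod R) * m) : ℂ) = ζ ^ u := by
    intro u
    rw [hζ, ← AddChar.map_nsmul_eq_pow]
    congr 1
    rw [nsmul_eq_mul]
    push_cast
    ring
  simp only [hterm]
  split_ifs with h
  · have h1 : ζ = 1 := by rw [hζ, h, AddChar.map_zero_eq_one]
    simp [h1]
  · have h1 : ζ ≠ 1 := by
      intro h2
      apply h
      apply ZMod.injective_stdAddChar
      rw [AddChar.map_zero_eq_one]
      exact h2
    have hW1 : ζ ^ W = 1 := by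
      rw [← hterm W, Nat.mul_div_cancel' hWR]
      simp
    have h2 := geom_sum_mul ζ W
    rw [hW1, sub_self] at h2
    exact (mul_eq_zero.1 h2).resolve_right (sub_ne_zero.2 h1)

/-- The square of the norm of an exponential sum as a double sum. -/
theorem sq (R H : ℕ) [NeZero R] (m : ZMod R) :
    ((‖∑ i ∈ range H, (ZMod.stdAddChar ((i : ZMod R) * m) : ℂ)‖ ^ 2 : ℝ) : ℂ) =
      ∑ i ∈ range H, ∑ j ∈ range H,
        (ZMod.stdAddChar (((i : ZMod R) - (j : ZMod R)) * m) : ℂ) := by
  have h1 : ∀ z : ℂ, ((‖z‖ ^ 2 : ℝ) : ℂ) = z * (starRingEnd ℂ) z := by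
    intro z
    rw [Complex.mul_conj, Complex.normSq_eq_norm_sq]
  rw [h1, map_sum, Finset.sum_mul_sum]
  refine Finset.sum_congr rfl fun i _ => Finset.sum_congr rfl fun j _ => ?_
  rw [← AddChar.map_neg_eq_conj, ← AddChar.map_add_eq_mul]
  congr 1
  ring

theorem inj (R H W : ℕ) [NeZero R] (hW : 0 < W) (hWR : W ∣ R) (h2 : 2 * H * W ≤ R)
    {i i' j u v : ℕ} (hi : i < H) (hi' : i' < H) (hu : u < W) (hv : v < W)
    (h : ((i : ℕ) : ZMod R) - ((j : ℕ) : ZMod R) + ((u * (R / W) : ℕ) : ZMod R) =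
      ((i' : ℕ) : ZMod R) - ((j : ℕ) : ZMod R) + ((v * (R / W) : ℕ) : ZMod R)) :
    i = i' ∧ u = v := by
  obtain ⟨N, hN⟩ := hWR
  have hdiv : R / W = N := by rw [hN]; exact Nat.mul_div_cancel_left N hW
  rw [hdiv] at h
  have hHN : 2 * H ≤ N := by
    rw [hN] at h2
    have : W * (2 * H) ≤ W * N := by linarith
    exact Nat.le_of_mul_le_mul_left this hW
  have hlt : ∀ a b : ℕ, a < H → b < W → a + b * N < R := by
    intro a b ha hb
    rw [hN]
    have : (b + 1) * N ≤ W * N := Nat.mul_le_mul_right N hb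
    nlinarith
  have h3 : ((i + u * N : ℕ) : ZMod R) = ((i' + v * N : ℕ) : ZMod R) := by
    push_cast at h ⊢
    linear_combination h
  rw [ZMod.natCast_eq_natCast_iff'] at h3
  rw [Nat.mod_eq_of_lt (hlt i u hi hu), Nat.mod_eq_of_lt (hlt i' v hi' hv)] at h3
  have hiN : i < N := by omega
  have hiN' : i' < N := by omega
  have hmod : (i + u * N) % N = (i' + v * N) % N := by rw [h3]
  rw [Nat.add_mul_mod_self_right, Nat.add_mul_mod_self_right, Nat.mod_eq_of_lt hiN,
    Nat.mod_eq_of_lt hiN'] at hmod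
  subst hmod
  refine ⟨rfl, ?_⟩
  have h4 : u * N = v * N := by omega
  exact Nat.eq_of_mul_eq_mul_right (by omega) h4

end FW2

open FW2 in
theorem p_FW2 : Stmt_FW2 := by
  classical
  intro R H W _ hH hW hWR h2
  have hHr : (0 : ℝ) < H := by exact_mod_cast hH
  refine ⟨fun k => ⟨by unfold Kw; positivity, ?_⟩, fun m => ?_⟩
  · unfold Kw
    rw [div_le_one hHr]
    have hcard := Finset.card_le_card_of_injOn (s := (range H ×ˢ range H ×ˢ range W).filter
      (fun q => ((q.1 : ℕ) : ZMod R) - ((q.2.1 : ℕ) : ZMod R) +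
        ((q.2.2 * (R / W) : ℕ) : ZMod R) = k)) (t := range H) (fun q => q.2.1)
      (by
        intro q hq
        have := (Finset.mem_filter.1 (Finset.mem_coe.1 hq)).1
        rw [Finset.mem_product, Finset.mem_product] at this
        exact Finset.mem_coe.2 this.2.1)
      (by
        rintro ⟨i, j, u⟩ hq ⟨i', j', v⟩ hq' hj
        have hq1 := Finset.mem_filter.1 (Finset.mem_coe.1 hq)
        have hq2 := Finset.mem_filter.1 (Finset.mem_coe.1 hq')
        simp only [Finset.mem_product, Finset.mem_range] at hq1 hq2 hj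
        subst hj
        obtain ⟨h3, h4⟩ := inj R H W hW hWR h2 hq1.1.1 hq2.1.1 hq1.1.2.2 hq2.1.2.2
          (hq1.2.trans hq2.2.symm)
        rw [h3, h4])
    rw [Finset.card_range] at hcard
    exact_mod_cast hcard
  · -- the transform
    have hsum : ∑ k : ZMod R, (Kw R H W k : ℂ) * ZMod.stdAddChar (k * m) =
        (1 / (H : ℂ)) * ∑ q ∈ range H ×ˢ range H ×ˢ range W,
          (ZMod.stdAddChar ((((q.1 : ℕ) : ZMod R) - ((q.2.1 : ℕ) : ZMod R) +
            ((q.2.2 * (R / W) : ℕ) : ZMod R)) * m) : ℂ) := by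
      have h3 : ∀ k : ZMod R, (Kw R H W k : ℂ) * ZMod.stdAddChar (k * m) =
          (1 / (H : ℂ)) * ∑ q ∈ range H ×ˢ range H ×ˢ range W,
            (if ((q.1 : ℕ) : ZMod R) - ((q.2.1 : ℕ) : ZMod R) +
              ((q.2.2 * (R / W) : ℕ) : ZMod R) = k then
                (ZMod.stdAddChar (k * m) : ℂ) else 0) := by
        intro k
        unfold Kw
        push_cast [Finset.card_filter]
        rw [div_mul_eq_mul_div, Finset.sum_mul, one_div, inv_mul_eq_div]
        congr 1
        refine Finset.sum_congr rfl fun q _ => ?_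
        split_ifs <;> simp
      simp only [h3]
      rw [← Finset.mul_sum, Finset.sum_comm]
      congr 1
      refine Finset.sum_congr rfl fun q _ => ?_
      rw [Finset.sum_ite_eq]
      simp
    have hprod : ∑ q ∈ range H ×ˢ range H ×ˢ range W,
          (ZMod.stdAddChar ((((q.1 : ℕ) : ZMod R) - ((q.2.1 : ℕ) : ZMod R) +
            ((q.2.2 * (R / W) : ℕ) : ZMod R)) * m) : ℂ) =
        ((‖∑ i ∈ range H, (ZMod.stdAddChar ((i : ZMod R) * m) : ℂ)‖ ^ 2 : ℝ) : ℂ) *
          (if ((R / W : ℕ) : ZMod R) * m = 0 then (W : ℂ) else 0) := by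
      rw [sq, ← geom R W hW hWR m, Finset.sum_product]
      rw [Finset.sum_mul]
      refine Finset.sum_congr rfl fun i _ => ?_
      rw [Finset.sum_product, Finset.sum_mul]
      refine Finset.sum_congr rfl fun j _ => ?_
      rw [Finset.mul_sum]
      refine Finset.sum_congr rfl fun u _ => ?_
      rw [← AddChar.map_add_eq_mul]
      congr 1
      ring
    rw [hsum, hprod]
    unfold fl
    have hR : (R : ℂ) ≠ 0 := by exact_mod_cast NeZero.ne R
    have hHc : (H : ℂ) ≠ 0 := by exact_mod_cast hH.ne'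
    split_ifs with h
    · push_cast
      field_simp
    · simp

end Pool.HPQ
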