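import Pool.Agent.Work.MP_9fb703_hp.Interface
import Pool.Agent.Work.MP_9fb703_hp.B_FW2

/-! # Block FW1: transform of the Fejer weight (helper12) -/

set_option autoImplicit false

namespace Pool.HPQ

open Finset

open Classical in
theorem FW1_orth (R : ℕ) [NeZero R] (b : ZMod R) :
    ∑ n : ZMod R, (ZMod.stdAddChar (b * n) : ℂ) = if b = 0 then (R : ℂ) else 0 := by
  have h := AddChar.sum_mulShift (R := ZMod R) (R' := ℂ) b (ZMod.isPrimitive_stdAddChar R)
  rw [ZMod.card] at h
  have h1 : ∑ n : ZMod R, (ZMod.stdAddChar (b * n) : ℂ) =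
      ∑ n : ZMod R, (ZMod.stdAddChar (n * b) : ℂ) :=
    Finset.sum_congr rfl fun n _ => by rw [mul_comm]
  rw [h1, h]
  split_ifs <;> simp

theorem p_FW1 : Stmt_FW1 := by
  classical
  intro R T _ c hT hTR
  have hT' : (0 : ℝ) < T := by exact_mod_cast hT
  have hTC : (T : ℂ) ≠ 0 := by exact_mod_cast hT.ne'
  have hRC : (R : ℂ) ≠ 0 := by exact_mod_cast (NeZero.ne R)
  refine ⟨?_, by unfold Lam; positivity, ?_, ?_⟩
  · have h1 : ∀ n : ZMod R, (Fw R T n : ℂ) * ZMod.stdAddChar (c * n) =
        (1 / ((R : ℂ) * T)) * ∑ q ∈ range T ×ˢ range T,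
          (ZMod.stdAddChar ((((q.1 : ℕ) : ZMod R) - ((q.2 : ℕ) : ZMod R) + c) * n) : ℂ) := by
      intro n
      have h2 : (Fw R T n : ℂ) = (1 / ((R : ℂ) * T)) * ∑ i ∈ range T, ∑ j ∈ range T,
          (ZMod.stdAddChar (((i : ZMod R) - (j : ZMod R)) * n) : ℂ) := by
        rw [← FW2.sq]
        unfold Fw
        push_cast
        ring
      rw [h2, mul_assoc, Finset.sum_product, Finset.sum_mul]
      congr 1
      apply Finset.sum_congr rfl
      intro i _
      rw [Finset.sum_mul]
      apply Finset.sum_congr rfl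
      intro j _
      rw [← AddChar.map_add_eq_mul]
      congr 1
      ring
    rw [Finset.sum_congr rfl fun n _ => h1 n, ← Finset.mul_sum, Finset.sum_comm]
    have h3 : ∑ q ∈ range T ×ˢ range T, ∑ n : ZMod R,
        (ZMod.stdAddChar ((((q.1 : ℕ) : ZMod R) - ((q.2 : ℕ) : ZMod R) + c) * n) : ℂ) =
        (((range T ×ˢ range T).filter fun q =>
          ((q.2 : ℕ) : ZMod R) - ((q.1 : ℕ) : ZMod R) = c).card : ℂ) * R := by
      rw [Finset.sum_congr rfl fun q _ => FW1_orth R _, ← Finset.sum_filter, Finset.sum_const,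
        nsmul_eq_mul]
      congr 3
      apply Finset.filter_congr
      intro q _
      constructor
      · intro h
        linear_combination -h
      · intro h
        linear_combination -h
    rw [h3]
    unfold Lam
    push_cast
    field_simp
  · unfold Lam
    rw [div_le_one hT']
    have hcard := Finset.card_le_card_of_injOn (s := (range T ×ˢ range T).filter
      (fun q => ((q.2 : ℕ) : ZMod R) - ((q.1 : ℕ) : ZMod R) = c)) (t := range T) (fun q => q.1)
      (by
        intro q hq
        have := (Finset.mem_filter.1 (Finset.mem_coe.1 hq)).1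
        rw [Finset.mem_product] at this
        exact Finset.mem_coe.2 this.1)
      (by
        rintro ⟨i, j⟩ hq ⟨i', j'⟩ hq' hi
        have hq1 := Finset.mem_filter.1 (Finset.mem_coe.1 hq)
        have hq2 := Finset.mem_filter.1 (Finset.mem_coe.1 hq')
        simp only [Finset.mem_product, Finset.mem_range] at hq1 hq2 hi
        subst hi
        have h4 : ((j : ℕ) : ZMod R) = ((j' : ℕ) : ZMod R) := by
          linear_combination hq1.2 - hq2.2
        rw [ZMod.natCast_eq_natCast_iff', Nat.mod_eq_of_lt (by omega),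
          Nat.mod_eq_of_lt (by omega)] at h4
        rw [h4])
    rw [Finset.card_range] at hcard
    exact_mod_cast hcard
  · intro hne
    have h5 : ((range T ×ˢ range T).filter fun q =>
        ((q.2 : ℕ) : ZMod R) - ((q.1 : ℕ) : ZMod R) = c).Nonempty := by
      rw [Finset.nonempty_iff_ne_empty]
      intro h6
      apply hne
      unfold Lam
      rw [h6]
      simp
    obtain ⟨q, hq⟩ := h5
    rw [mem_filter, mem_product, mem_range, mem_range] at hq
    refine ⟨(q.2 : ℤ) - (q.1 : ℤ), ?_, ?_⟩
    · rw [← hq.2]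
      push_cast
      rfl
    · rw [abs_lt]
      omega

end Pool.HPQ
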