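import Pool.Agent.Work.MP_9fb703_hp.Interface

set_option autoImplicit false

namespace Pool.HPQ

open Finset

/-- **Block KB.** -/
theorem p_KB : Stmt_KB := by
  intro R H W g _ k m d hH hg hgW hWR _ hk
  obtain ⟨w, hw⟩ := hgW
  obtain ⟨r, hr⟩ := hWR
  have hR : 0 < R := Nat.pos_of_ne_zero (NeZero.ne R)
  have hW : 0 < W := by
    rcases Nat.eq_zero_or_pos W with h | h
    · rw [h, zero_mul] at hr
      omega
    · exact h
  have hrW : R / W = r := by rw [hr]; exact Nat.mul_div_cancel_left r hW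
  have hWz : (W : ℤ) = g * w := by exact_mod_cast hw
  have hRz : (R : ℤ) = W * r := by exact_mod_cast hr
  obtain ⟨m', hm'⟩ : ∃ m' : ℤ, m' = k + w * r * d := ⟨_, rfl⟩
  have hm : m = g * m' := by
    have : m = g * k + R * d := by linarith
    rw [this, hRz, hWz, hm']
    ring
  have hWz0 : (0 : ℤ) < W := by exact_mod_cast hW
  obtain ⟨u, hu⟩ : ∃ u : ℕ, u = ((-(w * d : ℤ)) % W).toNat := ⟨_, rfl⟩
  have hu0 : 0 ≤ (-(w * d : ℤ)) % W := Int.emod_nonneg _ hWz0.ne'
  have hu1 : (-(w * d : ℤ)) % W < W := Int.emod_lt_of_pos _ hWz0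
  have huz : (u : ℤ) = (-(w * d : ℤ)) % W := by rw [hu, Int.toNat_of_nonneg hu0]
  have huW : u < W := by
    have : (u : ℤ) < W := by rw [huz]; exact hu1
    exact_mod_cast this
  have hudiv : (u : ℤ) = -(w * d : ℤ) - W * ((-(w * d : ℤ)) / W) := by
    rw [huz]
    have := Int.emod_add_mul_ediv (-(w * d : ℤ)) W
    linarith
  -- the count
  have hcard : H - m'.natAbs ≤ ((range H ×ˢ range H ×ˢ range W).filter fun q =>
      ((q.1 : ℕ) : ZMod R) - ((q.2.1 : ℕ) : ZMod R) + ((q.2.2 * (R / W) : ℕ) : ZMod R) =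
        (k : ZMod R)).card := by
    rw [← Finset.card_range (H - m'.natAbs)]
    apply Finset.card_le_card_of_injOn (fun j => (j + m'.toNat, j + (-m').toNat, u))
    · intro j hj
      rw [mem_coe, mem_range] at hj
      rw [mem_coe, mem_filter, mem_product, mem_product, mem_range, mem_range, mem_range]
      refine ⟨⟨by change j + m'.toNat < H; omega, by change j + (-m').toNat < H; omega, huW⟩, ?_⟩
      change ((j + m'.toNat : ℕ) : ZMod R) - ((j + (-m').toNat : ℕ) : ZMod R) +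
        ((u * (R / W) : ℕ) : ZMod R) = (k : ZMod R)
      rw [hrW]
      have e1 : ((j + m'.toNat : ℕ) : ZMod R) - ((j + (-m').toNat : ℕ) : ZMod R) +
          ((u * r : ℕ) : ZMod R) =
          ((((j + m'.toNat : ℕ) : ℤ) - ((j + (-m').toNat : ℕ) : ℤ) + ((u * r : ℕ) : ℤ) : ℤ) :
            ZMod R) := by
        push_cast
        ring
      have e2 : (((j + m'.toNat : ℕ) : ℤ) - ((j + (-m').toNat : ℕ) : ℤ) + ((u * r : ℕ) : ℤ) : ℤ) =
          m' + u * r := by
        have : (((j + m'.toNat : ℕ) : ℤ) - ((j + (-m').toNat : ℕ) : ℤ)) = m' := by omega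
        rw [this]
        push_cast
        ring
      rw [e1, e2, ZMod.intCast_eq_intCast_iff_dvd_sub]
      refine ⟨(-(w * d : ℤ)) / W, ?_⟩
      rw [hudiv, hRz, hm']
      ring
    · intro a _ b _ hab
      have : a + m'.toNat = b + m'.toNat := congrArg Prod.fst hab
      omega
  have hH0 : (0 : ℝ) < H := by exact_mod_cast hH
  have hg0 : (0 : ℝ) < g := by exact_mod_cast hg
  have hmr : |(m : ℝ)| / (g * H) = |(m' : ℝ)| / H := by
    rw [hm]
    push_cast
    rw [abs_mul, abs_of_pos hg0]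
    field_simp
  have habs : ((m'.natAbs : ℕ) : ℝ) = |(m' : ℝ)| := by
    rw [Nat.cast_natAbs, Int.cast_abs]
  rw [hmr]
  unfold Kw
  set c : ℕ := ((range H ×ˢ range H ×ˢ range W).filter fun q =>
      ((q.1 : ℕ) : ZMod R) - ((q.2.1 : ℕ) : ZMod R) + ((q.2.2 * (R / W) : ℕ) : ZMod R) =
        (k : ZMod R)).card with hc
  have hc1 : (H : ℝ) - |(m' : ℝ)| ≤ (c : ℝ) := by
    rw [← habs]
    have : H ≤ c + m'.natAbs := by omega
    have h2 : (H : ℝ) ≤ (c : ℝ) + ((m'.natAbs : ℕ) : ℝ) := by exact_mod_cast this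
    linarith
  have h3 : 1 - |(m' : ℝ)| / H ≤ (c : ℝ) / H := by
    rw [le_div_iff₀ hH0, sub_mul, one_mul, div_mul_cancel₀ _ hH0.ne']
    exact hc1
  have h4 : ∀ c' : ℕ, c' = c → 1 - (c' : ℝ) / H ≤ |(m' : ℝ)| / H := by
    intro c' h
    rw [h]
    linarith
  apply h4
  rw [hc]

end Pool.HPQ
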