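import Pool.Agent.Work.MP_9fb703_hp.Interface

set_option autoImplicit false

namespace Pool.HPQ

open Finset

/-- Number of integers in an open interval. -/
theorem LAT2_iv (F : Finset ℤ) (a b : ℝ) (hab : a ≤ b) (h : ∀ n ∈ F, a < n ∧ (n : ℝ) < b) :
    (F.card : ℝ) ≤ b - a + 1 := by
  rcases F.eq_empty_or_nonempty with hF | hF
  · subst hF
    simp
    linarith
  · have h1 : F ⊆ Finset.Icc (F.min' hF) (F.max' hF) := by
      intro n hn
      exact Finset.mem_Icc.2 ⟨Finset.min'_le F n hn, Finset.le_max' F n hn⟩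
    have h2 := Finset.card_le_card h1
    rw [Int.card_Icc] at h2
    have h3 := (h _ (Finset.min'_mem F hF)).1
    have h4 := (h _ (Finset.max'_mem F hF)).2
    have h5 : F.min' hF ≤ F.max' hF := Finset.min'_le_max' F hF
    have h6 : ((F.card : ℤ)) ≤ F.max' hF + 1 - F.min' hF := by
      have : ((F.max' hF + 1 - F.min' hF).toNat : ℤ) = F.max' hF + 1 - F.min' hF :=
        Int.toNat_of_nonneg (by omega)
      rw [← this]
      exact_mod_cast h2
    have h7 : (F.card : ℝ) ≤ (F.max' hF : ℝ) + 1 - (F.min' hF : ℝ) := by exact_mod_cast h6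
    linarith

/-- Fibre count. -/
theorem LAT2_fib (u v k : ℤ) (τ V : ℝ) (hV : 1 ≤ V) (hv : |(v : ℝ)| = V) (hτ : 0 ≤ τ) (F : Finset ℤ)
    (h : ∀ n ∈ F, |((u * k - v * n : ℤ) : ℝ)| < τ) : (F.card : ℝ) ≤ 2 * τ / V + 1 := by
  have hv0 : (v : ℝ) ≠ 0 := by
    intro h0
    rw [h0] at hv
    simp at hv
    linarith
  have hV0 : 0 < V := by linarith
  have h1 : ∀ n ∈ F, (u * k / v : ℝ) - τ / V < n ∧ (n : ℝ) < (u * k / v : ℝ) + τ / V := by
    intro n hn
    have h2 := h n hn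
    push_cast at h2
    have h3 : |(u * k / v : ℝ) - n| < τ / V := by
      have h4 : (u * k / v : ℝ) - n = (u * k - v * n) / v := by
        field_simp
      rw [h4, abs_div, hv]
      exact div_lt_div_of_pos_right h2 hV0
    rw [abs_lt] at h3
    constructor <;> linarith [h3.1, h3.2]
  have h2 := LAT2_iv F _ _ (by
    have : 0 ≤ τ / V := by positivity
    linarith) h1
  calc (F.card : ℝ) ≤ _ := h2
    _ = 2 * τ / V + 1 := by ring

theorem LAT2_main (u₁ v₁ u₂ v₂ : ℤ) (τ V : ℝ) (hd : u₁ * v₂ - u₂ * v₁ ≠ 0)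
    (hdt : |((u₁ * v₂ - u₂ * v₁ : ℤ) : ℝ)| ≤ τ) (hV : 1 ≤ V) (hVt : V ≤ τ)
    (hv1 : |(v₁ : ℝ)| ≤ V) (hv2 : |(v₂ : ℝ)| ≤ V) (u v : ℤ) (hv : |(v : ℝ)| = V)
    (S : Finset (ℤ × ℤ))
    (hS : ∀ p ∈ S, |((u₁ * p.1 - v₁ * p.2 : ℤ) : ℝ)| < τ ∧ |((u₂ * p.1 - v₂ * p.2 : ℤ) : ℝ)| < τ)
    (hS' : ∀ p ∈ S, |((u * p.1 - v * p.2 : ℤ) : ℝ)| < τ) :
    (S.card : ℝ) ≤ 15 * τ ^ 2 / |((u₁ * v₂ - u₂ * v₁ : ℤ) : ℝ)| := by
  set d : ℝ := |((u₁ * v₂ - u₂ * v₁ : ℤ) : ℝ)| with hd'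
  have hd1 : 1 ≤ d := by
    rw [hd']
    have : (1 : ℤ) ≤ |u₁ * v₂ - u₂ * v₁| := Int.one_le_abs hd
    rw [← Int.cast_abs]
    exact_mod_cast this
  have hd0 : 0 < d := by linarith
  have hV0 : 0 < V := by linarith
  have hτ0 : 0 < τ := by linarith
  -- the first coordinates
  have hI : (((S.image Prod.fst).card : ℕ) : ℝ) ≤ 4 * τ * V / d + 1 := by
    have h1 : ∀ k ∈ S.image Prod.fst, -(2 * τ * V / d) < k ∧ (k : ℝ) < 2 * τ * V / d := by
      intro k hk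
      rw [Finset.mem_image] at hk
      obtain ⟨p, hp, rfl⟩ := hk
      obtain ⟨h2, h3⟩ := hS p hp
      have h4 : d * |(p.1 : ℝ)| < 2 * τ * V := by
        have h5 : (((u₁ * v₂ - u₂ * v₁ : ℤ) : ℝ)) * (p.1 : ℝ) =
            v₂ * ((u₁ * p.1 - v₁ * p.2 : ℤ) : ℝ) - v₁ * ((u₂ * p.1 - v₂ * p.2 : ℤ) : ℝ) := by
          push_cast
          ring
        rw [hd', ← abs_mul, h5]
        calc |(v₂ : ℝ) * ((u₁ * p.1 - v₁ * p.2 : ℤ) : ℝ) - v₁ * ((u₂ * p.1 - v₂ * p.2 : ℤ) : ℝ)|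
            ≤ |(v₂ : ℝ) * ((u₁ * p.1 - v₁ * p.2 : ℤ) : ℝ)| +
              |(v₁ : ℝ) * ((u₂ * p.1 - v₂ * p.2 : ℤ) : ℝ)| := abs_sub _ _
          _ = |(v₂ : ℝ)| * |((u₁ * p.1 - v₁ * p.2 : ℤ) : ℝ)| +
              |(v₁ : ℝ)| * |((u₂ * p.1 - v₂ * p.2 : ℤ) : ℝ)| := by rw [abs_mul, abs_mul]
          _ ≤ V * |((u₁ * p.1 - v₁ * p.2 : ℤ) : ℝ)| +
              V * |((u₂ * p.1 - v₂ * p.2 : ℤ) : ℝ)| := by
              gcongr
          _ < V * τ + V * τ := by
              have := mul_lt_mul_of_pos_left h2 hV0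
              have := mul_lt_mul_of_pos_left h3 hV0
              linarith
          _ = 2 * τ * V := by ring
      have h6 : |(p.1 : ℝ)| < 2 * τ * V / d := by
        rw [lt_div_iff₀ hd0]
        linarith
      rw [abs_lt] at h6
      exact h6
    have h2 := LAT2_iv _ _ _ (by
      have : 0 ≤ 2 * τ * V / d := by positivity
      linarith) h1
    calc (((S.image Prod.fst).card : ℕ) : ℝ) ≤ _ := h2
      _ = 4 * τ * V / d + 1 := by ring
  -- the fibres
  have hF : ∀ k ∈ S.image Prod.fst, (((S.filter fun p => p.1 = k).card : ℕ) : ℝ) ≤ 2 * τ / V + 1 := by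
    intro k _
    have h1 : ((S.filter fun p => p.1 = k).image Prod.snd).card = (S.filter fun p => p.1 = k).card := by
      apply Finset.card_image_of_injOn
      intro p hp q hq hpq
      have hp' := (Finset.mem_filter.1 hp).2
      have hq' := (Finset.mem_filter.1 hq).2
      exact Prod.ext (by rw [hp', hq']) hpq
    rw [← h1]
    apply LAT2_fib u v k τ V hV hv hτ0.le
    intro n hn
    rw [Finset.mem_image] at hn
    obtain ⟨p, hp, rfl⟩ := hn
    obtain ⟨hp1, hp2⟩ := Finset.mem_filter.1 hp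
    have := hS' p hp1
    rw [hp2] at this
    exact this
  have hc : (S.card : ℝ) = ∑ k ∈ S.image Prod.fst, (((S.filter fun p => p.1 = k).card : ℕ) : ℝ) := by
    rw [Finset.card_eq_sum_card_image Prod.fst S]
    push_cast
    rfl
  rw [hc]
  have h1 : ∑ k ∈ S.image Prod.fst, (((S.filter fun p => p.1 = k).card : ℕ) : ℝ) ≤
      ∑ k ∈ S.image Prod.fst, (2 * τ / V + 1) := Finset.sum_le_sum hF
  refine h1.trans ?_
  rw [Finset.sum_const, nsmul_eq_mul]
  have h2 : 4 * τ * V / d + 1 ≤ 5 * τ * V / d := by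
    have : 1 ≤ τ * V / d := by
      rw [le_div_iff₀ hd0]
      nlinarith
    have h3 : 5 * τ * V / d = 4 * τ * V / d + τ * V / d := by ring
    rw [h3]
    linarith
  have h3 : 2 * τ / V + 1 ≤ 3 * τ / V := by
    have : 1 ≤ τ / V := by
      rw [le_div_iff₀ hV0]
      linarith
    have h4 : 3 * τ / V = 2 * τ / V + τ / V := by ring
    rw [h4]
    linarith
  calc (((S.image Prod.fst).card : ℕ) : ℝ) * (2 * τ / V + 1)
      ≤ (5 * τ * V / d) * (3 * τ / V) := by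
        apply mul_le_mul (hI.trans h2) h3
        · positivity
        · positivity
    _ = 15 * τ ^ 2 / d := by
        field_simp
        ring

theorem p_LAT2 : Stmt_LAT2 := by
  intro u₁ v₁ u₂ v₂ τ hd hdt hv1 hv2 S hS
  have hone : ∀ z : ℤ, z ≠ 0 → 1 ≤ |(z : ℝ)| := by
    intro z hz
    rw [← Int.cast_abs]
    exact_mod_cast Int.one_le_abs hz
  rcases le_total |(v₁ : ℝ)| |(v₂ : ℝ)| with h | h
  · have hz : v₂ ≠ 0 := by
      rintro rfl
      have h0 : (v₁ : ℝ) = 0 := by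
        simp at h
        exact_mod_cast h
      have h1 : v₁ = 0 := by exact_mod_cast h0
      apply hd
      rw [h1]
      ring
    exact LAT2_main u₁ v₁ u₂ v₂ τ |(v₂ : ℝ)| hd hdt (hone _ hz) hv2 h le_rfl u₂ v₂ rfl S hS
      (fun p hp => (hS p hp).2)
  · have hz : v₁ ≠ 0 := by
      rintro rfl
      have h0 : (v₂ : ℝ) = 0 := by
        simp at h
        exact_mod_cast h
      have h1 : v₂ = 0 := by exact_mod_cast h0
      apply hd
      rw [h1]
      ring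
    exact LAT2_main u₁ v₁ u₂ v₂ τ |(v₁ : ℝ)| hd hdt (hone _ hz) hv1 le_rfl h u₁ v₁ rfl S hS
      (fun p hp => (hS p hp).1)

end Pool.HPQ
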