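import Pool.Agent.Work.MP_9fb703_hp.Interface

/-! # Block BOXM: pairs in the box in given residue classes (note 2846, 6e) -/

set_option autoImplicit false

namespace Pool.HPQ

open Finset

theorem BOXM_card : Fintype.card Idx = 21 := by
  rw [Fintype.card_subtype]
  decide

theorem BOXM_one (N A : ℕ) (hN : 1 ≤ N) (c : ℤ) :
    (((Finset.Icc (-(A : ℤ)) A).filter fun n => n % (N : ℤ) = c).card : ℝ) * N ≤
      2 * A + 1 + N := by
  have hN0 : (0 : ℤ) < N := by exact_mod_cast hN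
  have hNR : (0 : ℝ) < N := by exact_mod_cast hN
  have hNQ : (0 : ℚ) < N := by exact_mod_cast hN
  have h1 : ((Finset.Icc (-(A : ℤ)) A).filter fun n => n % (N : ℤ) = c) ⊆
      (Finset.Ioc (-(A : ℤ) - 1) A).filter fun n => n ≡ c [ZMOD (N : ℤ)] := by
    intro n hn
    rw [Finset.mem_filter, Finset.mem_Icc] at hn
    rw [Finset.mem_filter, Finset.mem_Ioc]
    refine ⟨by omega, ?_⟩
    unfold Int.ModEq
    rw [← hn.2, Int.emod_emod_of_dvd _ (dvd_refl _)]
  have h2 := Finset.card_le_card h1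
  have h3 := Int.Ioc_filter_modEq_card (-(A : ℤ) - 1) A hN0 c
  have h4 : ((((Finset.Ioc (-(A : ℤ) - 1) A).filter fun n => n ≡ c [ZMOD (N : ℤ)]).card : ℕ) : ℚ) ≤
      (2 * A + 1) / N + 1 := by
    have h5 : ((((Finset.Ioc (-(A : ℤ) - 1) A).filter fun n => n ≡ c [ZMOD (N : ℤ)]).card : ℤ) : ℚ) =
      ((max (⌊((A : ℤ) - c : ℚ) / ((N : ℤ) : ℚ)⌋ - ⌊((-(A : ℤ) - 1 : ℤ) - c : ℚ) / ((N : ℤ) : ℚ)⌋) 0 : ℤ) : ℚ) := by
      rw [h3]
    rw [Int.cast_natCast] at h5
    rw [h5]
    push_cast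
    apply max_le
    · have e1 := Int.floor_le (((A : ℚ) - c) / (N : ℚ))
      have e2 := Int.lt_floor_add_one ((-(A : ℚ) - 1 - c) / (N : ℚ))
      have e3 : ((A : ℚ) - c) / N - (-(A : ℚ) - 1 - c) / N = (2 * A + 1) / N := by
        field_simp
        ring
      push_cast at e1 e2 ⊢
      linarith
    · positivity
  have h5 : ((((Finset.Icc (-(A : ℤ)) A).filter fun n => n % (N : ℤ) = c).card : ℕ) : ℚ) ≤
      (2 * A + 1) / N + 1 := by
    refine le_trans ?_ h4
    exact_mod_cast h2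
  have h6 : ((((Finset.Icc (-(A : ℤ)) A).filter fun n => n % (N : ℤ) = c).card : ℕ) : ℚ) * N ≤
      2 * A + 1 + N := by
    have h7 := mul_le_mul_of_nonneg_right h5 hNQ.le
    have h8 : ((2 * (A : ℚ) + 1) / N + 1) * N = 2 * A + 1 + N := by
      field_simp
    rw [h8] at h7
    exact h7
  exact_mod_cast h6

open Classical in
theorem BOXM_vec (N A : ℕ) (hN : 1 ≤ N) (s : Idx → ℤ) :
    (((Box A).filter fun a => (fun q => a q % (N : ℤ)) = s).card : ℝ) * (N : ℝ) ^ 21 ≤
      (2 * (A : ℝ) + 1 + N) ^ 21 := by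
  have h1 : ((Box A).filter fun a => (fun q => a q % (N : ℤ)) = s) =
      Fintype.piFinset fun q => (Finset.Icc (-(A : ℤ)) A).filter fun n => n % (N : ℤ) = s q := by
    ext a
    unfold Box
    rw [Finset.mem_filter, Fintype.mem_piFinset, Fintype.mem_piFinset]
    constructor
    · rintro ⟨h1, h2⟩ q
      rw [Finset.mem_filter]
      exact ⟨h1 q, congrFun h2 q⟩
    · intro h
      refine ⟨fun q => (Finset.mem_filter.1 (h q)).1, ?_⟩
      funext q
      exact (Finset.mem_filter.1 (h q)).2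
  rw [h1, Fintype.card_piFinset]
  push_cast
  have h2 : (N : ℝ) ^ 21 = ∏ _q : Idx, (N : ℝ) := by
    rw [Finset.prod_const, Finset.card_univ, BOXM_card]
  have h3 : (2 * (A : ℝ) + 1 + N) ^ 21 = ∏ _q : Idx, (2 * (A : ℝ) + 1 + N) := by
    rw [Finset.prod_const, Finset.card_univ, BOXM_card]
  rw [h2, h3, ← Finset.prod_mul_distrib]
  apply Finset.prod_le_prod
  · intro q _
    positivity
  · intro q _
    exact BOXM_one N A hN (s q)

open Classical in
theorem p_BOXM : Stmt_BOXM := by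
  intro N A S hN hNA _
  set P : (Idx → ℤ) × (Idx → ℤ) → (Idx → ℤ) × (Idx → ℤ) := fun z =>
    ((fun q => z.1 q % (N : ℤ)), (fun q => z.2 q % (N : ℤ))) with hP
  have h1 : (((Box A ×ˢ Box A).filter fun z => P z ∈ S).card : ℝ) =
      ∑ s ∈ S, (((Box A ×ˢ Box A).filter fun z => P z = s).card : ℝ) := by
    have h2 := Finset.card_eq_sum_card_fiberwise (f := P)
      (s := (Box A ×ˢ Box A).filter fun z => P z ∈ S) (t := S)
      (fun z hz => by
        rw [Finset.mem_coe, Finset.mem_filter] at hz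
        exact hz.2)
    rw [h2]
    push_cast
    apply Finset.sum_congr rfl
    intro s hs
    congr 2
    ext z
    rw [Finset.mem_filter, Finset.mem_filter, Finset.mem_filter]
    constructor
    · rintro ⟨⟨h3, -⟩, h4⟩
      exact ⟨h3, h4⟩
    · rintro ⟨h3, h4⟩
      exact ⟨⟨h3, h4 ▸ hs⟩, h4⟩
  have h2 : ∀ s ∈ S, (((Box A ×ˢ Box A).filter fun z => P z = s).card : ℝ) * (N : ℝ) ^ 42 ≤
      3 * (2 * (A : ℝ) + 1) ^ 42 := by
    intro s _
    have h3 : ((Box A ×ˢ Box A).filter fun z => P z = s) ⊆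
        ((Box A).filter fun a => (fun q => a q % (N : ℤ)) = s.1) ×ˢ
          ((Box A).filter fun a => (fun q => a q % (N : ℤ)) = s.2) := by
      intro z hz
      rw [Finset.mem_filter, Finset.mem_product] at hz
      rw [Finset.mem_product, Finset.mem_filter, Finset.mem_filter]
      obtain ⟨⟨h4, h5⟩, h6⟩ := hz
      rw [← h6]
      exact ⟨⟨h4, rfl⟩, ⟨h5, rfl⟩⟩
    have h4 := Finset.card_le_card h3
    rw [Finset.card_product] at h4
    have h5 : (((Box A ×ˢ Box A).filter fun z => P z = s).card : ℝ) ≤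
        (((Box A).filter fun a => (fun q => a q % (N : ℤ)) = s.1).card : ℝ) *
          (((Box A).filter fun a => (fun q => a q % (N : ℤ)) = s.2).card : ℝ) := by
      exact_mod_cast h4
    have e1 := BOXM_vec N A hN s.1
    have e2 := BOXM_vec N A hN s.2
    have h6 : (((Box A ×ˢ Box A).filter fun z => P z = s).card : ℝ) * (N : ℝ) ^ 42 ≤
        (2 * (A : ℝ) + 1 + N) ^ 42 := by
      calc (((Box A ×ˢ Box A).filter fun z => P z = s).card : ℝ) * (N : ℝ) ^ 42
          ≤ ((((Box A).filter fun a => (fun q => a q % (N : ℤ)) = s.1).card : ℝ) *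
          (((Box A).filter fun a => (fun q => a q % (N : ℤ)) = s.2).card : ℝ)) * (N : ℝ) ^ 42 :=
            mul_le_mul_of_nonneg_right h5 (by positivity)
        _ = ((((Box A).filter fun a => (fun q => a q % (N : ℤ)) = s.1).card : ℝ) * (N : ℝ) ^ 21) *
          ((((Box A).filter fun a => (fun q => a q % (N : ℤ)) = s.2).card : ℝ) * (N : ℝ) ^ 21) := by
            ring
        _ ≤ (2 * (A : ℝ) + 1 + N) ^ 21 * (2 * (A : ℝ) + 1 + N) ^ 21 :=
            mul_le_mul e1 e2 (by positivity) (by positivity)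
        _ = (2 * (A : ℝ) + 1 + N) ^ 42 := by rw [← pow_add]
    have h7 : (2 * (A : ℝ) + 1 + N) ≤ 85 / 84 * (2 * (A : ℝ) + 1) := by
      have h8 : (42 : ℝ) * N ≤ A := by exact_mod_cast hNA
      linarith
    have h8 : (2 * (A : ℝ) + 1 + N) ^ 42 ≤ (85 / 84 * (2 * (A : ℝ) + 1)) ^ 42 :=
      pow_le_pow_left₀ (by positivity) h7 42
    have h9 : (85 / 84 * (2 * (A : ℝ) + 1)) ^ 42 ≤ 3 * (2 * (A : ℝ) + 1) ^ 42 := by
      rw [mul_pow]
      apply mul_le_mul_of_nonneg_right _ (by positivity)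
      norm_num
    exact h6.trans (h8.trans h9)
  have h3 := Finset.sum_le_sum h2
  rw [← Finset.sum_mul, ← h1, Finset.sum_const, nsmul_eq_mul] at h3
  refine h3.trans (le_of_eq ?_)
  generalize (2 * (A : ℝ) + 1) ^ 42 = Y
  ring

end Pool.HPQ
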