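import Pool.Agent.Work.MP_9fb703_hp.Interface

set_option autoImplicit false

namespace Pool.HPQ

open Finset

lemma SIG2_transfer (N : ℕ) [NeZero N] {ι : Type} [Fintype ι] [DecidableEq ι]
    {M : Type*} [AddCommMonoid M] (F : (ι → ZMod N) → M) :
    ∑ a ∈ cs N ι, F (fun q => (a q : ZMod N)) = ∑ a : ι → ZMod N, F a := by
  refine Finset.sum_bij' (fun a _ => fun q => ((a q : ℤ) : ZMod N))
    (fun a _ => fun q => ((a q).val : ℤ)) ?_ ?_ ?_ ?_ ?_
  · intro a _; exact mem_univ _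
  · intro a _
    simp only [cs, Fintype.mem_piFinset, Finset.mem_Ico]
    intro i
    exact ⟨Int.natCast_nonneg _, by exact_mod_cast ZMod.val_lt (a i)⟩
  · intro a ha
    simp only [cs, Fintype.mem_piFinset, Finset.mem_Ico] at ha
    funext i
    have h := ha i
    rw [ZMod.val_intCast, Int.emod_eq_of_lt h.1 h.2]
  · intro a _
    funext i
    simp
  · intro a _; rfl

lemma SIG2_Qcast (N : ℕ) (a : Idx → ℤ) (x : Fin 6 → ℤ) :
    ((N : ℤ) ∣ Q a x) ↔ Q (fun q => (a q : ZMod N)) (fun i => (x i : ZMod N)) = 0 := by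
  rw [← ZMod.intCast_zmod_eq_zero_iff_dvd]
  simp [Q]

lemma SIG2_cardIdx : Fintype.card Idx = 21 := by decide

lemma SIG2_mapsum {N : ℕ} {ι : Type} (ψ : AddChar (ZMod N) ℂ) (s : Finset ι) (f : ι → ZMod N) :
    ψ (∑ i ∈ s, f i) = ∏ i ∈ s, ψ (f i) := by
  classical
  induction s using Finset.induction_on with
  | empty => simp
  | insert a s ha ih => rw [Finset.sum_insert ha, Finset.prod_insert ha, AddChar.map_add_eq_mul, ih]

open Classical in
lemma SIG2_count (N : ℕ) [NeZero N] (x y : Fin 6 → ZMod N) :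
    (((univ : Finset (Idx → ZMod N)).filter
        (fun a => Q a x = 0 ∧ Q a y = 0)).card : ℂ) * (N : ℂ) ^ 2 =
      (N : ℂ) ^ 21 * ((univ : Finset (ZMod N × ZMod N)).filter (fun k => ∀ q : Idx,
        k.1 * (x q.1.1 * x q.1.2) + k.2 * (y q.1.1 * y q.1.2) = 0)).card := by
  set ψ : AddChar (ZMod N) ℂ := ZMod.stdAddChar with hψ
  have hp : ψ.IsPrimitive := ZMod.isPrimitive_stdAddChar N
  have hs : ∀ b : ZMod N, ∑ t : ZMod N, ψ (t * b) = if b = 0 then (N : ℂ) else 0 := by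
    intro b
    rw [AddChar.sum_mulShift b hp, ZMod.card]
    split_ifs <;> simp
  have h1 : ∀ a : Idx → ZMod N,
      (∑ k : ZMod N, ψ (k * Q a x)) * (∑ k : ZMod N, ψ (k * Q a y)) =
        if (Q a x = 0 ∧ Q a y = 0) then (N : ℂ) ^ 2 else 0 := by
    intro a
    rw [hs, hs]
    by_cases h1 : Q a x = 0 <;> by_cases h2 : Q a y = 0 <;> simp [h1, h2, sq]
  have h2 : ∑ a : Idx → ZMod N, (∑ k : ZMod N, ψ (k * Q a x)) * (∑ k : ZMod N, ψ (k * Q a y)) =
      (((univ : Finset (Idx → ZMod N)).filter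
        (fun a => Q a x = 0 ∧ Q a y = 0)).card : ℂ) * (N : ℂ) ^ 2 := by
    rw [Finset.sum_congr rfl (fun a _ => h1 a), ← Finset.sum_filter, Finset.sum_const, nsmul_eq_mul]
  have h3 : ∑ a : Idx → ZMod N, (∑ k : ZMod N, ψ (k * Q a x)) * (∑ k : ZMod N, ψ (k * Q a y)) =
      ∑ k : ZMod N × ZMod N, ∑ a : Idx → ZMod N,
        ∏ q : Idx, ψ (a q * (k.1 * (x q.1.1 * x q.1.2) + k.2 * (y q.1.1 * y q.1.2))) := by
    rw [Finset.sum_comm' (t' := univ) (s' := fun _ => univ) (by simp)]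
    refine Finset.sum_congr rfl fun a _ => ?_
    rw [Finset.sum_mul_sum, ← Finset.sum_product', Finset.univ_product_univ]
    refine Finset.sum_congr rfl fun k _ => ?_
    rw [← AddChar.map_add_eq_mul, ← SIG2_mapsum]
    congr 1
    simp only [Q, Finset.mul_sum, ← Finset.sum_add_distrib]
    refine Finset.sum_congr rfl fun q _ => ?_
    ring
  have h4 : ∀ k : ZMod N × ZMod N, ∑ a : Idx → ZMod N,
        ∏ q : Idx, ψ (a q * (k.1 * (x q.1.1 * x q.1.2) + k.2 * (y q.1.1 * y q.1.2))) =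
        if (∀ q : Idx, k.1 * (x q.1.1 * x q.1.2) + k.2 * (y q.1.1 * y q.1.2) = 0) then
          (N : ℂ) ^ 21 else 0 := by
    intro k
    have := Finset.prod_univ_sum (fun _ : Idx => (univ : Finset (ZMod N)))
      (fun q t => ψ (t * (k.1 * (x q.1.1 * x q.1.2) + k.2 * (y q.1.1 * y q.1.2))))
    rw [Fintype.piFinset_univ] at this
    rw [← this]
    simp only [hs]
    split_ifs with h
    · rw [Finset.prod_congr rfl (fun q _ => if_pos (h q)), Finset.prod_const, Finset.card_univ,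
        SIG2_cardIdx]
    · push Not at h
      obtain ⟨q, hq⟩ := h
      exact Finset.prod_eq_zero (mem_univ q) (if_neg hq)
  rw [← h2, h3, Finset.sum_congr rfl (fun k _ => h4 k), ← Finset.sum_filter, Finset.sum_const,
    nsmul_eq_mul, mul_comm]


/-- The good residues. -/
noncomputable def SIG2_GD (N : ℕ) (r : Fin 6 → ℤ) : Finset (Fin 6 → ℤ) :=
  (cs N (Fin 6)).filter fun x => Int.gcd (Int.gcd (dt r x) (x 1)) N = 1

lemma SIG2_lin (N : ℕ) (r x : Fin 6 → ℤ) (h : Int.gcd (Int.gcd (dt r x) (x 1)) N = 1) :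
    ∃ l : Fin 6 → ℤ, (N : ℤ) ∣ ∑ i, l i * x i - 1 := by
  have h1 := Int.gcd_eq_gcd_ab (dt r x) (x 1)
  have h2 := Int.gcd_eq_gcd_ab ((Int.gcd (dt r x) (x 1) : ℕ) : ℤ) (N : ℤ)
  rw [h] at h2
  set g : ℤ := ((Int.gcd (dt r x) (x 1) : ℕ) : ℤ) with hg
  set u := Int.gcdA (dt r x) (x 1)
  set v := Int.gcdB (dt r x) (x 1)
  set s := Int.gcdA g (N : ℤ)
  set t := Int.gcdB g (N : ℤ)
  refine ⟨fun i => s * (u * r i + if i = 1 then v else 0), -t, ?_⟩
  have h3 : ∑ i, s * (u * r i + if i = 1 then v else 0) * x i = s * (u * dt r x + v * x 1) := by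
    simp only [mul_add, add_mul, Finset.sum_add_distrib, dt, Finset.mul_sum]
    congr 1
    · refine Finset.sum_congr rfl fun i _ => by ring
    · simp only [mul_ite, ite_mul, mul_zero, zero_mul, Finset.sum_ite_eq', Finset.mem_univ, if_true]
      ring
  rw [h3]
  have h4 : g = u * dt r x + v * x 1 := by rw [h1]; ring
  rw [← h4]
  push_cast at h2
  linarith

open Classical in
/-- Few `y` proportional to `x` modulo `c`. -/
lemma SIG2_prop (N c : ℕ) (hN : 1 ≤ N) (hc : c ∣ N) (x l : Fin 6 → ℤ)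
    (hl : (N : ℤ) ∣ ∑ i, l i * x i - 1) :
    ((cs N (Fin 6)).filter fun y => ∀ i j, (c : ℤ) ∣ om x y i j).card ≤ c * (N / c) ^ 6 := by
  have hc0 : 0 < c := Nat.pos_of_dvd_of_pos hc hN
  have hcz : (0 : ℤ) < c := by exact_mod_cast hc0
  have hNc : (c : ℤ) * ((N / c : ℕ) : ℤ) = N := by exact_mod_cast Nat.mul_div_cancel' hc
  have key : ∀ y : Fin 6 → ℤ, (∀ i j, (c : ℤ) ∣ om x y i j) → ∀ j,
      (c : ℤ) ∣ y j - (∑ i, l i * y i) * x j := by
    intro y hy j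
    have h1 : (c : ℤ) ∣ ∑ i, l i * om x y i j := Finset.dvd_sum fun i _ => (hy i j).mul_left _
    have h2 : (c : ℤ) ∣ (∑ i, l i * x i - 1) * y j :=
      ((Int.natCast_dvd_natCast.mpr hc).trans hl).mul_right _
    have h3 : ∑ i, l i * om x y i j = (∑ i, l i * x i) * y j - (∑ i, l i * y i) * x j := by
      rw [Finset.sum_mul, Finset.sum_mul, ← Finset.sum_sub_distrib]
      refine Finset.sum_congr rfl fun i _ => ?_
      unfold om; ring
    have h4 : y j - (∑ i, l i * y i) * x j = ∑ i, l i * om x y i j - (∑ i, l i * x i - 1) * y j := by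
      rw [h3]; ring
    rw [h4]; exact dvd_sub h1 h2
  have hinj : ((cs N (Fin 6)).filter fun y => ∀ i j, (c : ℤ) ∣ om x y i j).card ≤
      (Finset.Ico (0 : ℤ) c ×ˢ Fintype.piFinset fun _ : Fin 6 => Finset.Ico (0 : ℤ) ((N / c : ℕ) : ℤ)).card := by
    refine Finset.card_le_card_of_injOn (fun y => ((∑ i, l i * y i) % (c : ℤ), fun i => y i / (c : ℤ)))
      ?_ ?_
    · intro y hy
      simp only [Finset.coe_filter, Set.mem_ofPred_eq, cs, Fintype.mem_piFinset, Finset.mem_Ico] at hy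
      simp only [Finset.coe_product, Set.mem_prod, Finset.mem_coe, Finset.mem_Ico, Fintype.mem_piFinset]
      refine ⟨⟨Int.emod_nonneg _ hcz.ne', Int.emod_lt_of_pos _ hcz⟩, fun i => ⟨?_, ?_⟩⟩
      · exact Int.ediv_nonneg (hy.1 i).1 hcz.le
      · rw [Int.ediv_lt_iff_lt_mul hcz, mul_comm, hNc]; exact (hy.1 i).2
    · intro y hy y' hy' h
      simp only [Finset.coe_filter, Set.mem_ofPred_eq] at hy hy'
      simp only [Prod.mk.injEq] at h
      funext j
      have h1 := key y hy.2 j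
      have h2 := key y' hy'.2 j
      have h3 : (c : ℤ) ∣ (∑ i, l i * y i) - (∑ i, l i * y' i) :=
        Int.dvd_of_emod_eq_zero (Int.emod_eq_emod_iff_emod_sub_eq_zero.mp h.1)
      have h4 : (c : ℤ) ∣ y j - y' j := by
        have : y j - y' j = (y j - (∑ i, l i * y i) * x j) - (y' j - (∑ i, l i * y' i) * x j) +
          ((∑ i, l i * y i) - (∑ i, l i * y' i)) * x j := by ring
        rw [this]
        exact dvd_add (dvd_sub h1 h2) (h3.mul_right _)
      have h5 : y j / (c : ℤ) = y' j / (c : ℤ) := congrFun h.2 j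
      have h6 : y j % (c : ℤ) = y' j % (c : ℤ) :=
        Int.emod_eq_emod_iff_emod_sub_eq_zero.mpr (Int.emod_eq_zero_of_dvd h4)
      rw [← Int.mul_ediv_add_emod (y j) (c : ℤ), ← Int.mul_ediv_add_emod (y' j) (c : ℤ), h5, h6]
  refine hinj.trans (le_of_eq ?_)
  rw [Finset.card_product, Fintype.card_piFinset]
  simp only [Int.card_Ico, sub_zero, Int.toNat_natCast, Finset.prod_const, Finset.card_univ,
    Fintype.card_fin]

open Classical in
lemma SIG2_bad1 (N p : ℕ) (hp0 : 0 < p) (hp : p ∣ N) (r : Fin 6 → ℤ) (hr : r 0 = 1) :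
    ((cs N (Fin 6)).filter fun x => (p : ℤ) ∣ dt r x ∧ (p : ℤ) ∣ x 1).card ≤ (N / p) ^ 2 * N ^ 4 := by
  have hpz : (0 : ℤ) < p := by exact_mod_cast hp0
  have hNp : (p : ℤ) * ((N / p : ℕ) : ℤ) = N := by exact_mod_cast Nat.mul_div_cancel' hp
  have hinj : ((cs N (Fin 6)).filter fun x => (p : ℤ) ∣ dt r x ∧ (p : ℤ) ∣ x 1).card ≤
      (Fintype.piFinset fun i : Fin 6 => if i = 0 ∨ i = 1 then Finset.Ico (0 : ℤ) ((N / p : ℕ) : ℤ)
        else Finset.Ico (0 : ℤ) (N : ℤ)).card := by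
    refine Finset.card_le_card_of_injOn (fun x => fun i => if i = 0 ∨ i = 1 then x i / (p : ℤ) else x i)
      ?_ ?_
    · intro x hx
      simp only [Finset.coe_filter, Set.mem_ofPred_eq, cs, Fintype.mem_piFinset, Finset.mem_Ico] at hx
      simp only [Finset.mem_coe, Fintype.mem_piFinset]
      intro i
      split_ifs with h
      · simp only [Finset.mem_Ico]
        exact ⟨Int.ediv_nonneg (hx.1 i).1 hpz.le, by
          rw [Int.ediv_lt_iff_lt_mul hpz, mul_comm, hNp]; exact (hx.1 i).2⟩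
      · simp only [Finset.mem_Ico]; exact hx.1 i
    · intro x hx x' hx' h
      simp only [Finset.coe_filter, Set.mem_ofPred_eq] at hx hx'
      have hh : ∀ i, (if i = 0 ∨ i = 1 then x i / (p : ℤ) else x i) =
        (if i = 0 ∨ i = 1 then x' i / (p : ℤ) else x' i) := fun i => congrFun h i
      have e1 : x 1 = x' 1 := by
        have := hh 1
        simp only [or_true, if_true] at this
        rw [← Int.mul_ediv_cancel' hx.2.2, ← Int.mul_ediv_cancel' hx'.2.2, this]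
      have e2 : x 2 = x' 2 := by simpa using hh 2
      have e3 : x 3 = x' 3 := by simpa using hh 3
      have e4 : x 4 = x' 4 := by simpa using hh 4
      have e5 : x 5 = x' 5 := by simpa using hh 5
      have e0 : x 0 = x' 0 := by
        have h0 : x 0 / (p : ℤ) = x' 0 / (p : ℤ) := by simpa using hh 0
        have hd : (p : ℤ) ∣ x 0 - x' 0 := by
          have h1 := dvd_sub hx.2.1 hx'.2.1
          simp only [dt, Fin.sum_univ_six, hr, e1, e2, e3, e4, e5] at h1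
          have : x 0 - x' 0 = 1 * x 0 + r 1 * x' 1 + r 2 * x' 2 + r 3 * x' 3 + r 4 * x' 4 + r 5 * x' 5 -
            (1 * x' 0 + r 1 * x' 1 + r 2 * x' 2 + r 3 * x' 3 + r 4 * x' 4 + r 5 * x' 5) := by ring
          rw [this]; exact h1
        have h6 : x 0 % (p : ℤ) = x' 0 % (p : ℤ) :=
          Int.emod_eq_emod_iff_emod_sub_eq_zero.mpr (Int.emod_eq_zero_of_dvd hd)
        rw [← Int.mul_ediv_add_emod (x 0) (p : ℤ), ← Int.mul_ediv_add_emod (x' 0) (p : ℤ), h0, h6]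
      funext i
      fin_cases i
      · exact e0
      · exact e1
      · exact e2
      · exact e3
      · exact e4
      · exact e5
  refine hinj.trans (le_of_eq ?_)
  rw [Fintype.card_piFinset, Fin.prod_univ_six]
  have e2 : ¬ ((2 : Fin 6) = 0 ∨ (2 : Fin 6) = 1) := by decide
  have e3 : ¬ ((3 : Fin 6) = 0 ∨ (3 : Fin 6) = 1) := by decide
  have e4 : ¬ ((4 : Fin 6) = 0 ∨ (4 : Fin 6) = 1) := by decide
  have e5 : ¬ ((5 : Fin 6) = 0 ∨ (5 : Fin 6) = 1) := by decide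
  rw [if_pos (Or.inl rfl), if_pos (Or.inr rfl), if_neg e2, if_neg e3, if_neg e4, if_neg e5]
  simp only [Int.card_Ico, sub_zero, Int.toNat_natCast]
  ring

lemma SIG2_sum2 (w₀ N : ℕ) (hw : 1 ≤ w₀) (S : Finset ℕ) (hS : ∀ c ∈ S, w₀ < c ∧ c ≤ N) :
    ∑ c ∈ S, 1 / (c : ℝ) ^ 2 ≤ 1 / (w₀ : ℝ) := by
  have hwr : (0 : ℝ) < w₀ := by exact_mod_cast hw
  have h1 : S ⊆ Finset.Ioc w₀ N := fun c hc => Finset.mem_Ioc.mpr (hS c hc)
  have h2 : ∑ c ∈ S, 1 / (c : ℝ) ^ 2 ≤ ∑ c ∈ Finset.Ioc w₀ N, 1 / (c : ℝ) ^ 2 :=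
    Finset.sum_le_sum_of_subset_of_nonneg h1 fun _ _ _ => by positivity
  rcases le_or_gt w₀ N with h | h
  · have h3 := sum_Ioc_inv_sq_le_sub (α := ℝ) (by omega : w₀ ≠ 0) h
    simp only [one_div] at h2 ⊢
    have : (0 : ℝ) ≤ (N : ℝ)⁻¹ := by positivity
    linarith
  · rw [Finset.Ioc_eq_empty_of_le h.le] at h2
    simp only [Finset.sum_empty] at h2
    have : (0 : ℝ) ≤ 1 / (w₀ : ℝ) := by positivity
    linarith

lemma SIG2_divisor (w₀ N : ℕ) (hN : 1 ≤ N) (hw : ∀ p, p.Prime → p ∣ N → w₀ < p) (c : ℕ)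
    (hc : c ∣ N) (hc1 : c ≠ 1) : w₀ < c ∧ c ≤ N := by
  obtain ⟨p, hp, hpc⟩ := Nat.exists_prime_and_dvd hc1
  have hc0 : 0 < c := Nat.pos_of_dvd_of_pos hc hN
  exact ⟨(hw p hp (hpc.trans hc)).trans_le (Nat.le_of_dvd hc0 hpc), Nat.le_of_dvd hN hc⟩

lemma SIG2_GDcard (w₀ N : ℕ) (r : Fin 6 → ℤ) (hw0 : 1 ≤ w₀) (hN : 1 ≤ N)
    (hw : ∀ p, p.Prime → p ∣ N → w₀ < p) (hr : r 0 = 1) :
    (N : ℝ) ^ 6 * (1 - 1 / (w₀ : ℝ)) ≤ ((SIG2_GD N r).card : ℝ) := by
  classical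
  have hNr : (0 : ℝ) < N := by exact_mod_cast hN
  have hcs : (cs N (Fin 6)).card = N ^ 6 := by
    simp [cs, Fintype.card_piFinset]
  have h1 : (cs N (Fin 6)).card = (SIG2_GD N r).card +
      ((cs N (Fin 6)).filter fun x => ¬ Int.gcd (Int.gcd (dt r x) (x 1)) N = 1).card := by
    rw [SIG2_GD, Finset.card_filter_add_card_filter_not]
  have h2 : ((cs N (Fin 6)).filter fun x => ¬ Int.gcd (Int.gcd (dt r x) (x 1)) N = 1) ⊆
      N.primeFactors.biUnion fun p =>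
        ((cs N (Fin 6)).filter fun x => (p : ℤ) ∣ dt r x ∧ (p : ℤ) ∣ x 1) := by
    intro x hx
    rw [Finset.mem_filter] at hx
    obtain ⟨p, hp, hpd⟩ := Nat.exists_prime_and_dvd hx.2
    have hpd' : (p : ℤ) ∣ ((Int.gcd (Int.gcd (dt r x) (x 1)) N : ℕ) : ℤ) := Int.natCast_dvd_natCast.mpr hpd
    have ha : (p : ℤ) ∣ ((Int.gcd (dt r x) (x 1) : ℕ) : ℤ) := hpd'.trans (Int.gcd_dvd_left _ _)
    have hb : (p : ℤ) ∣ (N : ℤ) := hpd'.trans (Int.gcd_dvd_right _ _)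
    rw [Finset.mem_biUnion]
    refine ⟨p, ?_, ?_⟩
    · rw [Nat.mem_primeFactors]
      exact ⟨hp, Int.natCast_dvd_natCast.mp hb, by omega⟩
    · rw [Finset.mem_filter]
      exact ⟨hx.1, ha.trans (Int.gcd_dvd_left _ _), ha.trans (Int.gcd_dvd_right _ _)⟩
  have h3 : (((cs N (Fin 6)).filter fun x => ¬ Int.gcd (Int.gcd (dt r x) (x 1)) N = 1).card : ℝ) ≤
      ∑ p ∈ N.primeFactors, (N : ℝ) ^ 6 * (1 / (p : ℝ) ^ 2) := by
    refine (Nat.cast_le.mpr (Finset.card_le_card h2)).trans ?_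
    refine (Nat.cast_le.mpr Finset.card_biUnion_le).trans ?_
    push_cast
    refine Finset.sum_le_sum fun p hp => ?_
    have hpp := Nat.prime_of_mem_primeFactors hp
    have hpd := Nat.dvd_of_mem_primeFactors hp
    have h4 := SIG2_bad1 N p hpp.pos hpd r hr
    have h5 : ((((cs N (Fin 6)).filter fun x => (p : ℤ) ∣ dt r x ∧ (p : ℤ) ∣ x 1).card : ℕ) : ℝ) ≤
        ((N / p : ℕ) : ℝ) ^ 2 * (N : ℝ) ^ 4 := by exact_mod_cast h4
    refine h5.trans (le_of_eq ?_)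
    have hp0 : (p : ℝ) ≠ 0 := by exact_mod_cast hpp.ne_zero
    rw [Nat.cast_div hpd hp0]
    field_simp
  have h4 : ∑ p ∈ N.primeFactors, 1 / (p : ℝ) ^ 2 ≤ 1 / (w₀ : ℝ) :=
    SIG2_sum2 w₀ N hw0 _ fun p hp => SIG2_divisor w₀ N hN hw p (Nat.dvd_of_mem_primeFactors hp)
      (Nat.prime_of_mem_primeFactors hp).ne_one
  rw [← Finset.mul_sum] at h3
  have h5 : ((cs N (Fin 6)).card : ℝ) = (N : ℝ) ^ 6 := by rw [hcs]; push_cast; rfl
  have h6 : ((cs N (Fin 6)).card : ℝ) = ((SIG2_GD N r).card : ℝ) +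
      (((cs N (Fin 6)).filter fun x => ¬ Int.gcd (Int.gcd (dt r x) (x 1)) N = 1).card : ℝ) := by
    exact_mod_cast h1
  have h7 : (N : ℝ) ^ 6 * ∑ p ∈ N.primeFactors, 1 / (p : ℝ) ^ 2 ≤ (N : ℝ) ^ 6 * (1 / (w₀ : ℝ)) :=
    mul_le_mul_of_nonneg_left h4 (by positivity)
  nlinarith

lemma SIG2_mult (N c : ℕ) (hN : 1 ≤ N) (hc : c ∣ N) :
    ((Finset.range N).filter fun t => N ∣ t * c).card ≤ c := by
  have hc0 : 0 < c := Nat.pos_of_dvd_of_pos hc hN
  obtain ⟨d, hd⟩ := hc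
  have hd0 : 0 < d := by
    rcases Nat.eq_zero_or_pos d with h | h
    · subst h; omega
    · exact h
  have hdv : ∀ t, N ∣ t * c → d ∣ t := by
    intro t ht
    rw [hd, mul_comm c d] at ht
    exact Nat.dvd_of_mul_dvd_mul_right hc0 ht
  have h : ((Finset.range N).filter fun t => N ∣ t * c).card ≤ (Finset.range c).card := by
    refine Finset.card_le_card_of_injOn (fun t => t / d) ?_ ?_
    · intro t ht
      simp only [Finset.coe_filter, Set.mem_ofPred_eq, Finset.mem_range] at ht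
      simp only [Finset.coe_range, Set.mem_Iio]
      rw [Nat.div_lt_iff_lt_mul hd0, ← hd]; exact ht.1
    · intro t ht t' ht' h
      simp only [Finset.coe_filter, Set.mem_ofPred_eq, Finset.mem_range] at ht ht'
      simp only at h
      rw [← Nat.mul_div_cancel' (hdv t ht.2), ← Nat.mul_div_cancel' (hdv t' ht'.2), h]
  simpa using h

lemma SIG2_dbl {N : ℕ} (k : ZMod N) (m x : Fin 6 → ZMod N) :
    k * (∑ i, m i * x i) * (∑ j, m j * x j) = ∑ i, ∑ j, m i * m j * (k * (x i * x j)) := by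
  rw [mul_assoc, Finset.sum_mul_sum, Finset.mul_sum]
  refine Finset.sum_congr rfl fun i _ => ?_
  rw [Finset.mul_sum]
  exact Finset.sum_congr rfl fun j _ => by ring

open Classical in
lemma SIG2_ann (N : ℕ) [NeZero N] (x y l m : Fin 6 → ℤ)
    (hl : (N : ℤ) ∣ ∑ i, l i * x i - 1) (hm : (N : ℤ) ∣ ∑ i, m i * y i - 1) :
    ((univ : Finset (ZMod N × ZMod N)).filter (fun k => ∀ q : Idx,
        k.1 * ((x q.1.1 : ZMod N) * (x q.1.2 : ZMod N)) +
          k.2 * ((y q.1.1 : ZMod N) * (y q.1.2 : ZMod N)) = 0)).card ≤ Nat.gcd (ct x y) N := by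
  have hl' : ∑ i, (l i : ZMod N) * (x i : ZMod N) = 1 := by
    have h := (ZMod.intCast_zmod_eq_zero_iff_dvd _ N).mpr hl
    push_cast at h
    exact sub_eq_zero.mp h
  have hm' : ∑ i, (m i : ZMod N) * (y i : ZMod N) = 1 := by
    have h := (ZMod.intCast_zmod_eq_zero_iff_dvd _ N).mpr hm
    push_cast at h
    exact sub_eq_zero.mp h
  have hN1 : 1 ≤ N := Nat.one_le_iff_ne_zero.mpr (NeZero.ne N)
  have hall : ∀ k : ZMod N × ZMod N, (∀ q : Idx,
        k.1 * ((x q.1.1 : ZMod N) * (x q.1.2 : ZMod N)) +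
          k.2 * ((y q.1.1 : ZMod N) * (y q.1.2 : ZMod N)) = 0) → ∀ i j : Fin 6,
        k.1 * ((x i : ZMod N) * (x j : ZMod N)) = - (k.2 * ((y i : ZMod N) * (y j : ZMod N))) := by
    intro k hk i j
    rcases le_total i j with h | h
    · exact eq_neg_of_add_eq_zero_left (hk ⟨(i, j), h⟩)
    · have := eq_neg_of_add_eq_zero_left (hk ⟨(j, i), h⟩)
      simp only at this
      rw [mul_comm (x i : ZMod N), mul_comm (y i : ZMod N)]
      exact this
  refine le_trans ?_ (SIG2_mult N (Nat.gcd (ct x y) N) hN1 (Nat.gcd_dvd_right _ _))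
  refine Finset.card_le_card_of_injOn (fun k => k.1.val) ?_ ?_
  · intro k hk
    simp only [Finset.coe_filter, Set.mem_ofPred_eq, Finset.mem_univ, true_and] at hk
    have hk' := hall k hk
    simp only [Finset.coe_filter, Set.mem_ofPred_eq, Finset.mem_range]
    refine ⟨ZMod.val_lt _, ?_⟩
    have h1 : ∀ i : Fin 6, k.1 * (x i : ZMod N) =
        - (k.2 * (y i : ZMod N) * ∑ j, (l j : ZMod N) * (y j : ZMod N)) := by
      intro i
      calc k.1 * (x i : ZMod N) = ∑ j, (l j : ZMod N) * (k.1 * ((x i : ZMod N) * (x j : ZMod N))) := by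
            rw [← mul_one (k.1 * (x i : ZMod N)), ← hl', Finset.mul_sum]
            exact Finset.sum_congr rfl fun j _ => by ring
        _ = ∑ j, (l j : ZMod N) * (- (k.2 * ((y i : ZMod N) * (y j : ZMod N)))) :=
            Finset.sum_congr rfl fun j _ => by rw [hk' i j]
        _ = _ := by
            rw [Finset.mul_sum, ← Finset.sum_neg_distrib]
            exact Finset.sum_congr rfl fun j _ => by ring
    have h2 : ∀ i j : Fin 6, k.1 * ((om x y i j : ℤ) : ZMod N) = 0 := by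
      intro i j
      have e : k.1 * ((om x y i j : ℤ) : ZMod N) =
        (k.1 * (x i : ZMod N)) * (y j : ZMod N) - (k.1 * (x j : ZMod N)) * (y i : ZMod N) := by
        unfold om; push_cast; ring
      rw [e, h1 i, h1 j]; ring
    have h3 : ∀ i j : Fin 6, N ∣ k.1.val * (om x y i j).natAbs := by
      intro i j
      have h4 : (((k.1.val : ℤ) * om x y i j : ℤ) : ZMod N) = 0 := by
        push_cast
        rw [ZMod.natCast_val, ZMod.cast_id', id]
        exact h2 i j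
      rw [ZMod.intCast_zmod_eq_zero_iff_dvd] at h4
      have h5 := Int.natAbs_dvd_natAbs.mpr h4
      rwa [Int.natAbs_natCast, Int.natAbs_mul, Int.natAbs_natCast] at h5
    have h6 : N ∣ k.1.val * ct x y := by
      have := Finset.dvd_gcd (s := (univ : Finset (Fin 6 × Fin 6)))
        (f := fun q => k.1.val * (om x y q.1 q.2).natAbs) (a := N) (fun q _ => h3 q.1 q.2)
      rwa [Finset.gcd_mul_left, normalize_eq] at this
    rw [← Nat.gcd_mul_left]
    exact Nat.dvd_gcd h6 (Dvd.intro_left _ rfl)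
  · intro k hk k' hk' h
    simp only [Finset.coe_filter, Set.mem_ofPred_eq, Finset.mem_univ, true_and] at hk hk'
    simp only at h
    have e1 : k.1 = k'.1 := ZMod.val_injective N h
    have key : ∀ k : ZMod N × ZMod N, (∀ q : Idx,
        k.1 * ((x q.1.1 : ZMod N) * (x q.1.2 : ZMod N)) +
          k.2 * ((y q.1.1 : ZMod N) * (y q.1.2 : ZMod N)) = 0) →
        k.2 = - (k.1 * (∑ i, (m i : ZMod N) * (x i : ZMod N)) * (∑ i, (m i : ZMod N) * (x i : ZMod N))) := by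
      intro k hk
      have hk' := hall k hk
      calc k.2 = k.2 * (∑ i, (m i : ZMod N) * (y i : ZMod N)) * (∑ j, (m j : ZMod N) * (y j : ZMod N)) := by
            rw [hm']; ring
        _ = ∑ i, ∑ j, (m i : ZMod N) * (m j : ZMod N) * (k.2 * ((y i : ZMod N) * (y j : ZMod N))) :=
            SIG2_dbl _ _ _
        _ = ∑ i, ∑ j, (m i : ZMod N) * (m j : ZMod N) * (- (k.1 * ((x i : ZMod N) * (x j : ZMod N)))) := by
            refine Finset.sum_congr rfl fun i _ => Finset.sum_congr rfl fun j _ => ?_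
            rw [hk' i j, neg_neg]
        _ = _ := by
            rw [SIG2_dbl]
            simp only [mul_neg, Finset.sum_neg_distrib]
    have e2 : k.2 = k'.2 := by rw [key k hk, key k' hk', e1]
    exact Prod.ext e1 e2

/-- Indicator of `N ∣ Q_a(x)`. -/
noncomputable def SIG2_J (N : ℕ) (a : Idx → ℤ) (x : Fin 6 → ℤ) : ℝ :=
  open Classical in if (N : ℤ) ∣ Q a x then 1 else 0

open Classical in
lemma SIG2_JJ (N : ℕ) [NeZero N] (x y : Fin 6 → ℤ) :
    (∑ a ∈ cs N Idx, SIG2_J N a x * SIG2_J N a y) * (N : ℝ) ^ 2 =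
      (N : ℝ) ^ 21 * ((univ : Finset (ZMod N × ZMod N)).filter (fun k => ∀ q : Idx,
        k.1 * ((x q.1.1 : ZMod N) * (x q.1.2 : ZMod N)) +
          k.2 * ((y q.1.1 : ZMod N) * (y q.1.2 : ZMod N)) = 0)).card := by
  have h := SIG2_count N (fun i => (x i : ZMod N)) (fun i => (y i : ZMod N))
  have h1 : (∑ a ∈ cs N Idx, SIG2_J N a x * SIG2_J N a y) =
      (((univ : Finset (Idx → ZMod N)).filter
        (fun a => Q a (fun i => (x i : ZMod N)) = 0 ∧ Q a (fun i => (y i : ZMod N)) = 0)).card : ℝ) := by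
    have h2 := SIG2_transfer N (fun a : Idx → ZMod N =>
      if Q a (fun i => (x i : ZMod N)) = 0 ∧ Q a (fun i => (y i : ZMod N)) = 0 then (1 : ℝ) else 0)
    rw [← Finset.sum_boole, ← h2]
    refine Finset.sum_congr rfl fun a _ => ?_
    unfold SIG2_J
    have ex := SIG2_Qcast N a x
    have ey := SIG2_Qcast N a y
    simp only [← ex, ← ey]
    by_cases e1 : (N : ℤ) ∣ Q a x <;> by_cases e2 : (N : ℤ) ∣ Q a y <;> simp [e1, e2]
  rw [h1]
  exact_mod_cast h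

lemma SIG2_first (N : ℕ) (hN : 1 ≤ N) (x l : Fin 6 → ℤ)
    (hl : (N : ℤ) ∣ ∑ i, l i * x i - 1) :
    ∑ a ∈ cs N Idx, SIG2_J N a x = (N : ℝ) ^ 20 := by
  classical
  have : NeZero N := ⟨by omega⟩
  have hNr : (0 : ℝ) < N := by exact_mod_cast hN
  have hl' : ∑ i, (l i : ZMod N) * (x i : ZMod N) = 1 := by
    have h := (ZMod.intCast_zmod_eq_zero_iff_dvd _ N).mpr hl
    push_cast at h
    exact sub_eq_zero.mp h
  have h := SIG2_JJ N x (fun _ => 0)
  have h0 : ∀ a : Idx → ℤ, SIG2_J N a (fun _ => 0) = 1 := by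
    intro a; unfold SIG2_J; simp [Q]
  simp only [h0, mul_one] at h
  have h1 : (univ : Finset (ZMod N × ZMod N)).filter (fun k => ∀ q : Idx,
        k.1 * ((x q.1.1 : ZMod N) * (x q.1.2 : ZMod N)) +
          k.2 * (((0 : ℤ) : ZMod N) * ((0 : ℤ) : ZMod N)) = 0) =
      ({0} : Finset (ZMod N)) ×ˢ (univ : Finset (ZMod N)) := by
    ext k
    simp only [Finset.mem_filter, Finset.mem_univ, true_and, Finset.mem_product,
      Finset.mem_singleton, and_true, Int.cast_zero, mul_zero, add_zero]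
    constructor
    · intro hk
      have hk2 : ∀ i j : Fin 6, k.1 * ((x i : ZMod N) * (x j : ZMod N)) = 0 := by
        intro i j
        rcases le_total i j with h | h
        · exact hk ⟨(i, j), h⟩
        · have := hk ⟨(j, i), h⟩
          simp only at this
          rw [mul_comm (x i : ZMod N)]; exact this
      calc k.1 = k.1 * (∑ i, (l i : ZMod N) * (x i : ZMod N)) * (∑ j, (l j : ZMod N) * (x j : ZMod N)) := by
            rw [hl']; ring
        _ = ∑ i, ∑ j, (l i : ZMod N) * (l j : ZMod N) * (k.1 * ((x i : ZMod N) * (x j : ZMod N))) :=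
            SIG2_dbl _ _ _
        _ = 0 := by
            refine Finset.sum_eq_zero fun i _ => Finset.sum_eq_zero fun j _ => ?_
            rw [hk2 i j, mul_zero]
    · intro hk q
      rw [hk, zero_mul]
  rw [h1, Finset.card_product, Finset.card_singleton, one_mul, Finset.card_univ, ZMod.card] at h
  have h2 : (∑ a ∈ cs N Idx, SIG2_J N a x) * (N : ℝ) ^ 2 = (N : ℝ) ^ 20 * (N : ℝ) ^ 2 := by
    rw [h]; ring
  exact mul_right_cancel₀ (pow_ne_zero 2 hNr.ne') h2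

lemma SIG2_second (N : ℕ) (hN : 1 ≤ N) (x y l m : Fin 6 → ℤ)
    (hl : (N : ℤ) ∣ ∑ i, l i * x i - 1) (hm : (N : ℤ) ∣ ∑ i, m i * y i - 1) :
    ∑ a ∈ cs N Idx, SIG2_J N a x * SIG2_J N a y ≤ (N : ℝ) ^ 19 * (Nat.gcd (ct x y) N : ℝ) := by
  classical
  have : NeZero N := ⟨by omega⟩
  have hNr : (0 : ℝ) < N := by exact_mod_cast hN
  have h := SIG2_JJ N x y
  have h1 := SIG2_ann N x y l m hl hm
  have h2 : (((univ : Finset (ZMod N × ZMod N)).filter (fun k => ∀ q : Idx,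
        k.1 * ((x q.1.1 : ZMod N) * (x q.1.2 : ZMod N)) +
          k.2 * ((y q.1.1 : ZMod N) * (y q.1.2 : ZMod N)) = 0)).card : ℝ) ≤
      (Nat.gcd (ct x y) N : ℝ) := by exact_mod_cast h1
  have h3 : (∑ a ∈ cs N Idx, SIG2_J N a x * SIG2_J N a y) * (N : ℝ) ^ 2 ≤
      ((N : ℝ) ^ 19 * (Nat.gcd (ct x y) N : ℝ)) * (N : ℝ) ^ 2 := by
    rw [h]
    calc (N : ℝ) ^ 21 * _ ≤ (N : ℝ) ^ 21 * (Nat.gcd (ct x y) N : ℝ) :=
          mul_le_mul_of_nonneg_left h2 (by positivity)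
      _ = _ := by ring
  exact le_of_mul_le_mul_right h3 (by positivity)

lemma SIG2_sumc (w₀ N : ℕ) (hw0 : 1 ≤ w₀) (hN : 1 ≤ N)
    (hw : ∀ p, p.Prime → p ∣ N → w₀ < p) (x l : Fin 6 → ℤ)
    (hl : (N : ℤ) ∣ ∑ i, l i * x i - 1) (S : Finset (Fin 6 → ℤ)) (hS : S ⊆ cs N (Fin 6)) :
    ∑ y ∈ S, (Nat.gcd (ct x y) N : ℝ) ^ 2 ≤ (N : ℝ) ^ 6 * (1 + 1 / (w₀ : ℝ)) := by
  classical
  have hNr : (0 : ℝ) < N := by exact_mod_cast hN
  have h1 : ∀ y ∈ S, Nat.gcd (ct x y) N ∈ N.divisors := fun y _ => by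
    rw [Nat.mem_divisors]; exact ⟨Nat.gcd_dvd_right _ _, by omega⟩
  rw [← Finset.sum_fiberwise_of_maps_to h1]
  have h2 : ∀ c ∈ N.divisors, ∑ y ∈ S.filter (fun y => Nat.gcd (ct x y) N = c),
      (Nat.gcd (ct x y) N : ℝ) ^ 2 ≤ (N : ℝ) ^ 6 * (1 / (c : ℝ) ^ 3) := by
    intro c hc
    have hcd := Nat.dvd_of_mem_divisors hc
    have hc0 : 0 < c := Nat.pos_of_dvd_of_pos hcd hN
    have hcr : (c : ℝ) ≠ 0 := by exact_mod_cast hc0.ne'
    have h3 : ∑ y ∈ S.filter (fun y => Nat.gcd (ct x y) N = c), (Nat.gcd (ct x y) N : ℝ) ^ 2 =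
        ((S.filter (fun y => Nat.gcd (ct x y) N = c)).card : ℝ) * (c : ℝ) ^ 2 := by
      rw [Finset.sum_congr rfl (fun y hy => by rw [(Finset.mem_filter.mp hy).2]), Finset.sum_const,
        nsmul_eq_mul]
    have h4 : (S.filter (fun y => Nat.gcd (ct x y) N = c)).card ≤ c * (N / c) ^ 6 := by
      refine le_trans (Finset.card_le_card ?_) (SIG2_prop N c hN hcd x l hl)
      intro y hy
      rw [Finset.mem_filter] at hy ⊢
      refine ⟨hS hy.1, fun i j => ?_⟩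
      have h5 : c ∣ ct x y := hy.2 ▸ Nat.gcd_dvd_left _ _
      have h6 : ct x y ∣ (om x y i j).natAbs :=
        Finset.gcd_dvd (s := (univ : Finset (Fin 6 × Fin 6)))
          (f := fun q => (om x y q.1 q.2).natAbs) (Finset.mem_univ (i, j))
      exact Int.natCast_dvd.mpr (h5.trans h6)
    have h5 : ((S.filter (fun y => Nat.gcd (ct x y) N = c)).card : ℝ) ≤ (c : ℝ) * ((N : ℝ) / c) ^ 6 := by
      have : ((S.filter (fun y => Nat.gcd (ct x y) N = c)).card : ℝ) ≤ ((c * (N / c) ^ 6 : ℕ) : ℝ) := by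
        exact_mod_cast h4
      rwa [Nat.cast_mul, Nat.cast_pow, Nat.cast_div hcd hcr] at this
    rw [h3]
    calc _ ≤ (c : ℝ) * ((N : ℝ) / c) ^ 6 * (c : ℝ) ^ 2 := mul_le_mul_of_nonneg_right h5 (by positivity)
      _ = _ := by field_simp
  refine (Finset.sum_le_sum h2).trans ?_
  rw [← Finset.mul_sum]
  refine mul_le_mul_of_nonneg_left ?_ (by positivity)
  have h3 : (1 : ℕ) ∈ N.divisors := Nat.one_mem_divisors.mpr (by omega)
  rw [← Finset.add_sum_erase _ _ h3]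
  have h4 : ∑ c ∈ N.divisors.erase 1, 1 / (c : ℝ) ^ 3 ≤ ∑ c ∈ N.divisors.erase 1, 1 / (c : ℝ) ^ 2 := by
    refine Finset.sum_le_sum fun c hc => ?_
    have hcd := Nat.dvd_of_mem_divisors (Finset.mem_of_mem_erase hc)
    have hc0 : 1 ≤ c := Nat.pos_of_dvd_of_pos hcd hN
    have hcr : (1 : ℝ) ≤ c := by exact_mod_cast hc0
    exact one_div_le_one_div_of_le (by positivity) (pow_le_pow_right₀ hcr (by norm_num))
  have h5 : ∑ c ∈ N.divisors.erase 1, 1 / (c : ℝ) ^ 2 ≤ 1 / (w₀ : ℝ) :=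
    SIG2_sum2 w₀ N hw0 _ fun c hc => SIG2_divisor w₀ N hN hw c
      (Nat.dvd_of_mem_divisors (Finset.mem_of_mem_erase hc)) (Finset.ne_of_mem_erase hc)
  have h6 : (1 : ℝ) / ((1 : ℕ) : ℝ) ^ 3 = 1 := by norm_num
  rw [h6]
  linarith

lemma SIG2_gg (N : ℕ) (r : Fin 6 → ℤ) (a b : Idx → ℤ) :
    ((gg N r a b).card : ℝ) = ∑ x ∈ SIG2_GD N r, SIG2_J N a x * SIG2_J N b x := by
  classical
  have h : gg N r a b = (SIG2_GD N r).filter fun x => (N : ℤ) ∣ Q a x ∧ (N : ℤ) ∣ Q b x := by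
    ext x
    simp only [gg, SIG2_GD, Finset.mem_filter]
    tauto
  rw [h, Finset.card_filter]
  push_cast
  refine Finset.sum_congr rfl fun x _ => ?_
  unfold SIG2_J
  by_cases e1 : (N : ℤ) ∣ Q a x <;> by_cases e2 : (N : ℤ) ∣ Q b x <;> simp [e1, e2]

theorem p_SIG2 : Stmt_SIG2 := by
  classical
  intro w₀ N r hw0 hN hw hr
  have hNr : (0 : ℝ) < N := by exact_mod_cast hN
  have hwr : (0 : ℝ) < w₀ := by exact_mod_cast hw0
  set A := cs N Idx with hA
  set g : (Idx → ℤ) → (Idx → ℤ) → ℝ := fun a b => ((gg N r a b).card : ℝ) with hg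
  have hAc : (A.card : ℝ) = (N : ℝ) ^ 21 := by
    have : A.card = N ^ 21 := by
      rw [hA, cs, Fintype.card_piFinset]
      simp only [Int.card_Ico, sub_zero, Int.toNat_natCast, Finset.prod_const, Finset.card_univ,
        SIG2_cardIdx]
    rw [this]; push_cast; rfl
  choose! l hl using fun (x : Fin 6 → ℤ) (hx : Int.gcd (Int.gcd (dt r x) (x 1)) N = 1) =>
    SIG2_lin N r x hx
  have hGD : ∀ x ∈ SIG2_GD N r, (N : ℤ) ∣ ∑ i, l x i * x i - 1 := fun x hx =>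
    hl x (Finset.mem_filter.mp hx).2
  -- first moment
  have hF : ∑ a ∈ A, ∑ b ∈ A, g a b = (N : ℝ) ^ 40 * ((SIG2_GD N r).card : ℝ) := by
    calc ∑ a ∈ A, ∑ b ∈ A, g a b
        = ∑ a ∈ A, ∑ b ∈ A, ∑ x ∈ SIG2_GD N r, SIG2_J N a x * SIG2_J N b x := by
          refine Finset.sum_congr rfl fun a _ => Finset.sum_congr rfl fun b _ => SIG2_gg N r a b
      _ = ∑ x ∈ SIG2_GD N r, (∑ a ∈ A, SIG2_J N a x) * (∑ b ∈ A, SIG2_J N b x) := by
          rw [Finset.sum_congr rfl (fun a _ => Finset.sum_comm), Finset.sum_comm]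
          refine Finset.sum_congr rfl fun x _ => ?_
          rw [Finset.sum_mul_sum]
      _ = ∑ x ∈ SIG2_GD N r, (N : ℝ) ^ 40 := by
          refine Finset.sum_congr rfl fun x hx => ?_
          rw [SIG2_first N hN x (l x) (hGD x hx)]; ring
      _ = _ := by rw [Finset.sum_const, nsmul_eq_mul, mul_comm]
  -- second moment
  have hS : ∑ a ∈ A, ∑ b ∈ A, g a b ^ 2 ≤ (N : ℝ) ^ 50 * (1 + 1 / (w₀ : ℝ)) := by
    calc ∑ a ∈ A, ∑ b ∈ A, g a b ^ 2
        = ∑ a ∈ A, ∑ b ∈ A, ∑ x ∈ SIG2_GD N r, ∑ y ∈ SIG2_GD N r,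
            (SIG2_J N a x * SIG2_J N b x) * (SIG2_J N a y * SIG2_J N b y) := by
          refine Finset.sum_congr rfl fun a _ => Finset.sum_congr rfl fun b _ => ?_
          simp only [hg]
          rw [SIG2_gg N r a b, sq, Finset.sum_mul_sum]
      _ = ∑ x ∈ SIG2_GD N r, ∑ y ∈ SIG2_GD N r,
            (∑ a ∈ A, SIG2_J N a x * SIG2_J N a y) * (∑ b ∈ A, SIG2_J N b x * SIG2_J N b y) := by
          rw [Finset.sum_congr rfl (fun a _ => Finset.sum_comm), Finset.sum_comm]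
          refine Finset.sum_congr rfl fun x _ => ?_
          rw [Finset.sum_congr rfl (fun a _ => Finset.sum_comm), Finset.sum_comm]
          refine Finset.sum_congr rfl fun y _ => ?_
          rw [Finset.sum_mul_sum]
          refine Finset.sum_congr rfl fun a _ => Finset.sum_congr rfl fun b _ => ?_
          ring
      _ ≤ ∑ x ∈ SIG2_GD N r, ∑ y ∈ SIG2_GD N r, (N : ℝ) ^ 38 * (Nat.gcd (ct x y) N : ℝ) ^ 2 := by
          refine Finset.sum_le_sum fun x hx => Finset.sum_le_sum fun y hy => ?_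
          have h1 := SIG2_second N hN x y (l x) (l y) (hGD x hx) (hGD y hy)
          have h0 : 0 ≤ ∑ a ∈ A, SIG2_J N a x * SIG2_J N a y := by
            refine Finset.sum_nonneg fun a _ => ?_
            unfold SIG2_J
            split_ifs <;> norm_num
          calc _ ≤ ((N : ℝ) ^ 19 * (Nat.gcd (ct x y) N : ℝ)) * ((N : ℝ) ^ 19 * (Nat.gcd (ct x y) N : ℝ)) :=
                mul_le_mul h1 h1 h0 (h0.trans h1)
            _ = _ := by ring
      _ ≤ ∑ x ∈ SIG2_GD N r, (N : ℝ) ^ 38 * ((N : ℝ) ^ 6 * (1 + 1 / (w₀ : ℝ))) := by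
          refine Finset.sum_le_sum fun x hx => ?_
          rw [← Finset.mul_sum]
          exact mul_le_mul_of_nonneg_left (SIG2_sumc w₀ N hw0 hN hw x (l x) (hGD x hx) _
            (Finset.filter_subset _ _)) (by positivity)
      _ = ((SIG2_GD N r).card : ℝ) * ((N : ℝ) ^ 38 * ((N : ℝ) ^ 6 * (1 + 1 / (w₀ : ℝ)))) := by
          rw [Finset.sum_const, nsmul_eq_mul]
      _ ≤ (N : ℝ) ^ 6 * ((N : ℝ) ^ 38 * ((N : ℝ) ^ 6 * (1 + 1 / (w₀ : ℝ)))) := by
          refine mul_le_mul_of_nonneg_right ?_ (by positivity)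
          have h1 : (SIG2_GD N r).card ≤ (cs N (Fin 6)).card := Finset.card_le_card (Finset.filter_subset _ _)
          have h2 : (cs N (Fin 6)).card = N ^ 6 := by simp [cs, Fintype.card_piFinset]
          rw [h2] at h1
          exact_mod_cast h1
      _ = _ := by ring
  have hG := SIG2_GDcard w₀ N r hw0 hN hw hr
  -- Chebyshev
  have hC : (((A ×ˢ A).filter fun z => 2 * (gg N r z.1 z.2).card < N ^ 4).card : ℝ) * ((N : ℝ) ^ 8 / 4) ≤
      ∑ a ∈ A, ∑ b ∈ A, ((N : ℝ) ^ 4 - g a b) ^ 2 := by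
    rw [← Finset.sum_product', ← nsmul_eq_mul, ← Finset.sum_const]
    calc _ ≤ ∑ z ∈ (A ×ˢ A).filter (fun z => 2 * (gg N r z.1 z.2).card < N ^ 4),
          ((N : ℝ) ^ 4 - g z.1 z.2) ^ 2 := by
          refine Finset.sum_le_sum fun z hz => ?_
          have h1 := (Finset.mem_filter.mp hz).2
          have h2 : 2 * g z.1 z.2 ≤ (N : ℝ) ^ 4 := by
            have : (2 * (gg N r z.1 z.2).card : ℝ) < (N : ℝ) ^ 4 := by exact_mod_cast h1
            exact this.le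
          have h3 : (N : ℝ) ^ 4 / 2 ≤ (N : ℝ) ^ 4 - g z.1 z.2 := by linarith
          calc (N : ℝ) ^ 8 / 4 = ((N : ℝ) ^ 4 / 2) ^ 2 := by ring
            _ ≤ _ := pow_le_pow_left₀ (by positivity) h3 2
      _ ≤ _ := Finset.sum_le_sum_of_subset_of_nonneg (Finset.filter_subset _ _)
          fun _ _ _ => sq_nonneg _
  have hE : ∑ a ∈ A, ∑ b ∈ A, ((N : ℝ) ^ 4 - g a b) ^ 2 =
      (N : ℝ) ^ 50 - 2 * (N : ℝ) ^ 4 * (∑ a ∈ A, ∑ b ∈ A, g a b) + ∑ a ∈ A, ∑ b ∈ A, g a b ^ 2 := by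
    have e1 : ∀ a b, ((N : ℝ) ^ 4 - g a b) ^ 2 = (N : ℝ) ^ 8 - 2 * (N : ℝ) ^ 4 * g a b + g a b ^ 2 :=
      fun a b => by ring
    simp only [e1, Finset.sum_add_distrib, Finset.sum_sub_distrib, ← Finset.mul_sum, Finset.sum_const,
      nsmul_eq_mul, hAc]
    ring
  have h50 : (0 : ℝ) < (N : ℝ) ^ 50 := by positivity
  have hfin : ∑ a ∈ A, ∑ b ∈ A, ((N : ℝ) ^ 4 - g a b) ^ 2 ≤ (N : ℝ) ^ 50 * (4 / (w₀ : ℝ)) := by
    rw [hE, hF]
    have h1 : (N : ℝ) ^ 50 * (1 - 1 / (w₀ : ℝ)) ≤ (N : ℝ) ^ 44 * ((SIG2_GD N r).card : ℝ) := by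
      calc (N : ℝ) ^ 50 * (1 - 1 / (w₀ : ℝ)) = (N : ℝ) ^ 44 * ((N : ℝ) ^ 6 * (1 - 1 / (w₀ : ℝ))) := by ring
        _ ≤ _ := mul_le_mul_of_nonneg_left hG (by positivity)
    have h2 : (N : ℝ) ^ 50 * (1 / (w₀ : ℝ)) ≤ (N : ℝ) ^ 50 * (1 / (w₀ : ℝ)) := le_refl _
    have h3 : 0 ≤ (N : ℝ) ^ 50 * (1 / (w₀ : ℝ)) := by positivity
    have h4 : (N : ℝ) ^ 50 * (4 / (w₀ : ℝ)) = 4 * ((N : ℝ) ^ 50 * (1 / (w₀ : ℝ))) := by ring
    have h5 : 2 * (N : ℝ) ^ 4 * ((N : ℝ) ^ 40 * ((SIG2_GD N r).card : ℝ)) =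
      2 * ((N : ℝ) ^ 44 * ((SIG2_GD N r).card : ℝ)) := by ring
    rw [h4, h5]
    have h6 : (N : ℝ) ^ 50 * (1 - 1 / (w₀ : ℝ)) = (N : ℝ) ^ 50 - (N : ℝ) ^ 50 * (1 / (w₀ : ℝ)) := by ring
    have h7 : (N : ℝ) ^ 50 * (1 + 1 / (w₀ : ℝ)) = (N : ℝ) ^ 50 + (N : ℝ) ^ 50 * (1 / (w₀ : ℝ)) := by ring
    rw [h6] at h1
    rw [h7] at hS
    linarith
  have h8 : (0 : ℝ) < (N : ℝ) ^ 8 / 4 := by positivity
  refine le_of_mul_le_mul_right ((hC.trans hfin).trans (le_of_eq ?_)) h8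
  field_simp
  ring

end Pool.HPQ
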