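import Pool.Agent.Work.MP_9fb703_hp.B_FINS

/-! # The explicit form of the theorem (MP_9fb703, helper66) -/

set_option autoImplicit false

namespace Pool.HPQ

open Finset

theorem EXPL_Q {R : Type*} [CommRing R] (a : Idx → R) (c : R) (x : Fin 6 → R) :
    Q a (fun i => c * x i) = c ^ 2 * Q a x := by
  unfold Q
  rw [Finset.mul_sum]
  refine Finset.sum_congr rfl fun q _ => ?_
  ring

/-- Normalisation at the real place. -/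
theorem EXPL_real (a b : Idx → ℤ) (y : Fin 6 → ℝ) (hy : y ≠ 0)
    (ha : Q (fun q => (a q : ℝ)) y = 0) (hb : Q (fun q => (b q : ℝ)) y = 0) :
    RZ a b (fun i => ‖y‖⁻¹ * y i) := by
  have hn : 0 < ‖y‖ := norm_pos_iff.2 hy
  refine ⟨fun i => ?_, ?_, ?_, ?_⟩
  · rw [abs_mul, abs_of_pos (inv_pos.2 hn), inv_mul_le_iff₀ hn, mul_one]
    exact norm_le_pi_norm y i
  · obtain ⟨i, hi⟩ : ∃ i, ‖y i‖ = ‖y‖ := by
      obtain ⟨i, -, hi⟩ := Finset.exists_mem_eq_sup' (s := (Finset.univ : Finset (Fin 6)))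
        Finset.univ_nonempty (fun i => ‖y i‖₊)
      refine ⟨i, ?_⟩
      have h : ‖y‖₊ = ‖y i‖₊ := by
        rw [Pi.nnnorm_def, ← Finset.sup'_eq_sup Finset.univ_nonempty]
        exact hi
      rw [← coe_nnnorm, ← coe_nnnorm, h]
    refine ⟨i, ?_⟩
    rw [abs_mul, abs_of_pos (inv_pos.2 hn), ← Real.norm_eq_abs, hi, inv_mul_cancel₀ hn.ne']
  · rw [EXPL_Q, ha, mul_zero]
  · rw [EXPL_Q, hb, mul_zero]

/-- A primitive `p`-adic zero gives a nonzero one over `ℚ_p`. -/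
theorem EXPL_padic (p : ℕ) [hp : Fact p.Prime] (a b : Idx → ℤ) (M : Fin 6 → ℤ_[p])
    (h : PZ p a b M) : PadicSol p a b := by
  obtain ⟨⟨i, hi⟩, ha, hb⟩ := h
  have key : ∀ c : Idx → ℤ, Q (fun q => (c q : ℤ_[p])) M = 0 →
      Q (fun q => (c q : ℚ_[p])) (fun l => (M l : ℚ_[p])) = 0 := by
    intro c hc
    have h1 : ((Q (fun q => (c q : ℤ_[p])) M : ℤ_[p]) : ℚ_[p]) =
        Q (fun q => (c q : ℚ_[p])) (fun l => (M l : ℚ_[p])) := by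
      unfold Q
      push_cast
      rfl
    rw [← h1, hc]
    rfl
  refine ⟨fun l => (M l : ℚ_[p]), ?_, key a ha, key b hb⟩
  intro h0
  have h1 : (M i : ℚ_[p]) = 0 := congrFun h0 i
  rw [PadicInt.norm_def, h1, norm_zero] at hi
  exact zero_ne_one hi

/-- The explicit approximation property. -/
def EW (N L A : ℕ) (c : ℝ) (a b : Idx → ℤ) : Prop :=
  ∀ (y : Fin 6 → ℝ) (M : (p : ℕ) → [Fact p.Prime] → Fin 6 → ℤ_[p]),
    (y ≠ 0 ∧ ∑ q : Idx, (a q : ℝ) * (y q.1.1 * y q.1.2) = 0 ∧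
      ∑ q : Idx, (b q : ℝ) * (y q.1.1 * y q.1.2) = 0) →
    (∀ (p : ℕ) [Fact p.Prime], (∃ i, ‖M p i‖ = 1) ∧
      ∑ q : Idx, (a q : ℤ_[p]) * (M p q.1.1 * M p q.1.2) = 0 ∧
      ∑ q : Idx, (b q : ℤ_[p]) * (M p q.1.1 * M p q.1.2) = 0) →
    ∃ S : Finset (Fin 6 → ℤ), c * (L : ℝ) ^ 2 ≤ (S.card : ℝ) ∧ ∀ x ∈ S,
      ∑ q : Idx, a q * (x q.1.1 * x q.1.2) = 0 ∧ ∑ q : Idx, b q * (x q.1.1 * x q.1.2) = 0 ∧
      (∀ i, |x i| ≤ (L * A : ℤ)) ∧ (∀ d : ℤ, (∀ i, d ∣ x i) → IsUnit d) ∧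
      (∃ μ : ℝ, 0 < μ ∧ ∀ i, |μ * x i - y i| ≤ 1 / N * ‖y‖) ∧
      ∀ (p : ℕ) [Fact p.Prime], p ≤ N → ∀ i, ‖(x i : ℤ_[p]) - M p i‖ ≤ (p : ℝ) ^ (-(N : ℤ))

theorem EXPL_WS (N L A : ℕ) (c : ℝ) (a b : Idx → ℤ) (h : WS N L A c a b) : EW N L A c a b := by
  intro y M hy hM
  obtain ⟨S, hS, hS2⟩ := h _ (EXPL_real a b y hy.1 hy.2.1 hy.2.2) M hM
  have hn : 0 < ‖y‖ := norm_pos_iff.2 hy.1
  refine ⟨S, hS, fun x hx => ?_⟩
  obtain ⟨h1, h2, h3, h4, ⟨ν, hν0, hν⟩, h6⟩ := hS2 x hx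
  refine ⟨h1, h2, h3, h4, ⟨‖y‖ * ν, by positivity, fun i => ?_⟩, h6⟩
  have h7 : ‖y‖ * ν * x i - y i = ‖y‖ * (ν * x i - ‖y‖⁻¹ * y i) := by
    field_simp
  rw [h7, abs_mul, abs_of_pos hn, mul_comm]
  exact mul_le_mul_of_nonneg_right (hν i) hn.le

/-- From the failure of the explicit property to the failure of `WS`. -/
theorem EXPL_not (N L A : ℕ) (c : ℝ) (a b : Idx → ℤ) (h : ¬ EW N L A c a b) :
    (RealSol a b ∧ ∀ (p : ℕ) [Fact p.Prime], PadicSol p a b) ∧ ¬ WS N L A c a b := by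
  refine ⟨?_, fun hWS => h (EXPL_WS N L A c a b hWS)⟩
  by_contra hne
  apply h
  intro y M hy hM
  exfalso
  exact hne ⟨⟨y, hy⟩, fun p _ => EXPL_padic p a b (M p) (hM p)⟩

end Pool.HPQ
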