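import Pool.Agent.Work.MP_9fb703_hp.Interface

/-! # Block BIGP: few points have a large prime dividing `r · x` and `x₁` (MP_9fb703) -/

set_option autoImplicit false

namespace Pool.HPQ

open Finset

open Classical in
theorem BIGP_cls (p B : ℕ) (hp : 0 < p) (c : ℤ) :
    ((Finset.Icc (-(B : ℤ)) (B : ℤ)).filter fun z : ℤ => (p : ℤ) ∣ z + c).card ≤
      2 * B / p + 1 := by
  have hp' : (0 : ℤ) < p := by exact_mod_cast hp
  have h1 : ((Finset.Icc (-(B : ℤ)) (B : ℤ)).filter fun z : ℤ => (p : ℤ) ∣ z + c).card ≤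
      (range (2 * B / p + 1)).card := by
    apply Finset.card_le_card_of_injOn (fun z : ℤ => ((z + (B : ℤ)) / (p : ℤ)).toNat)
    · intro z hz
      have hz' := Finset.mem_Icc.1 (Finset.mem_filter.1 (Finset.mem_coe.1 hz)).1
      rw [Finset.mem_coe, Finset.mem_range]
      have h2 : (z + (B : ℤ)) / (p : ℤ) ≤ ((2 * B / p : ℕ) : ℤ) := by
        push_cast
        exact Int.ediv_le_ediv hp' (by omega)
      have h3 : 0 ≤ (z + (B : ℤ)) / (p : ℤ) := Int.ediv_nonneg (by omega) hp'.le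
      have h4 : ((((z + (B : ℤ)) / (p : ℤ)).toNat : ℕ) : ℤ) ≤ ((2 * B / p : ℕ) : ℤ) := by
        rw [Int.toNat_of_nonneg h3]
        exact h2
      have h5 : ((z + (B : ℤ)) / (p : ℤ)).toNat ≤ 2 * B / p := by exact_mod_cast h4
      exact Nat.lt_succ_of_le h5
    · intro z hz z' hz' hzz
      have a1 := Finset.mem_filter.1 (Finset.mem_coe.1 hz)
      have a2 := Finset.mem_filter.1 (Finset.mem_coe.1 hz')
      have b1 := Finset.mem_Icc.1 a1.1
      have b2 := Finset.mem_Icc.1 a2.1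
      have h3 : 0 ≤ (z + (B : ℤ)) / (p : ℤ) := Int.ediv_nonneg (by omega) hp'.le
      have h4 : 0 ≤ (z' + (B : ℤ)) / (p : ℤ) := Int.ediv_nonneg (by omega) hp'.le
      simp only at hzz
      have h5 : (z + (B : ℤ)) / (p : ℤ) = (z' + (B : ℤ)) / (p : ℤ) := by omega
      have h6 : (p : ℤ) ∣ (z' + B) - (z + B) := by
        have := dvd_sub a2.2 a1.2
        rw [add_sub_add_right_eq_sub] at this ⊢
        exact this
      have h7 : (z + (B : ℤ)) % (p : ℤ) = (z' + (B : ℤ)) % (p : ℤ) :=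
        (Int.modEq_iff_dvd.2 h6)
      have h8 := Int.emod_add_mul_ediv (z + B) p
      have h9 := Int.emod_add_mul_ediv (z' + B) p
      rw [h5, h7, h9] at h8
      omega
  rwa [Finset.card_range] at h1

/-- the box -/
noncomputable def BIGPbox (B n : ℕ) : Finset (Fin n → ℤ) :=
  Fintype.piFinset fun _ => Finset.Icc (-(B : ℤ)) (B : ℤ)

theorem BIGP_card_box (B n : ℕ) : (BIGPbox B n).card = (2 * B + 1) ^ n := by
  unfold BIGPbox
  rw [Fintype.card_piFinset]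
  simp only [Int.card_Icc, Finset.prod_const, Finset.card_univ, Fintype.card_fin]
  congr 1
  omega

theorem BIGP_tail {B n : ℕ} {x : Fin (n + 1) → ℤ} (hx : x ∈ BIGPbox B (n + 1)) :
    (fun i => x (Fin.succ i)) ∈ BIGPbox B n := by
  unfold BIGPbox at hx ⊢
  rw [Fintype.mem_piFinset] at hx ⊢
  exact fun i => hx _

open Classical in
/-- one step: the coordinate `0` is in a residue class determined by the others -/
theorem BIGP_step {B n : ℕ} (p : ℕ) (hp : 0 < p) (c : (Fin n → ℤ) → ℤ)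
    (E : (Fin n → ℤ) → Prop) (X : Finset (Fin (n + 1) → ℤ))
    (hX : ∀ x ∈ X, x ∈ BIGPbox B (n + 1) ∧ (p : ℤ) ∣ x 0 + c (fun i => x (Fin.succ i)) ∧
      E (fun i => x (Fin.succ i))) :
    X.card ≤ (2 * B / p + 1) * ((BIGPbox B n).filter E).card := by
  have h1 : ∀ y ∈ X.image (fun x => fun i => x (Fin.succ i)),
      (X.filter fun x => (fun i => x (Fin.succ i)) = y).card ≤ 2 * B / p + 1 := by
    intro y _
    refine le_trans ?_ (BIGP_cls p B hp (c y))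
    apply Finset.card_le_card_of_injOn (fun x => x 0)
    · intro x hx
      obtain ⟨hx1, hx2⟩ := Finset.mem_filter.1 (Finset.mem_coe.1 hx)
      obtain ⟨h3, h4, -⟩ := hX x hx1
      rw [Finset.mem_coe, Finset.mem_filter]
      unfold BIGPbox at h3
      rw [Fintype.mem_piFinset] at h3
      rw [hx2] at h4
      exact ⟨h3 0, h4⟩
    · intro x hx x' hx' h0
      obtain ⟨-, hx2⟩ := Finset.mem_filter.1 (Finset.mem_coe.1 hx)
      obtain ⟨-, hx2'⟩ := Finset.mem_filter.1 (Finset.mem_coe.1 hx')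
      funext i
      refine Fin.cases h0 (fun i => ?_) i
      have := congrFun (hx2.trans hx2'.symm) i
      exact this
  refine le_trans (Finset.card_le_mul_card_image X (2 * B / p + 1) h1) ?_
  apply Nat.mul_le_mul_left
  apply Finset.card_le_card
  intro y hy
  obtain ⟨x, hx, rfl⟩ := Finset.mem_image.1 hy
  obtain ⟨h3, -, h5⟩ := hX x hx
  exact Finset.mem_filter.2 ⟨BIGP_tail h3, h5⟩

open Classical in
theorem BIGP_one (r : Fin 6 → ℤ) (B p : ℕ) (hr : r 0 = 1) (hp : 0 < p) :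
    ((BIGPbox B 6).filter fun x => (p : ℤ) ∣ dt r x ∧ (p : ℤ) ∣ x 1).card ≤
      (2 * B / p + 1) * ((2 * B / p + 1) * (2 * B + 1) ^ 4) := by
  have hs : ∀ x : Fin 6 → ℤ, dt r x = x 0 + ∑ i : Fin 5, r (Fin.succ i) * x (Fin.succ i) := by
    intro x
    unfold dt
    rw [Fin.sum_univ_succ, hr, one_mul]
  refine le_trans (BIGP_step (B := B) (n := 5) p hp
    (fun y => ∑ i : Fin 5, r (Fin.succ i) * y i) (fun y => (p : ℤ) ∣ y 0) _ ?_) ?_
  · intro x hx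
    obtain ⟨h1, h2, h3⟩ := Finset.mem_filter.1 hx
    rw [hs] at h2
    exact ⟨h1, h2, h3⟩
  · apply Nat.mul_le_mul_left
    refine le_trans (BIGP_step (B := B) (n := 4) p hp (fun _ => 0) (fun _ => True) _ ?_) ?_
    · intro y hy
      simp only [Finset.mem_filter] at hy
      refine ⟨hy.1, ?_, trivial⟩
      simpa using hy.2
    · rw [Finset.filter_true, BIGP_card_box]

theorem BIGP_dt_le (r : Fin 6 → ℤ) (B : ℕ) (x : Fin 6 → ℤ) (hx : x ∈ BIGPbox B 6) :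
    dt r x ≤ (n1 r : ℤ) * B := by
  unfold dt n1
  push_cast
  rw [Finset.sum_mul]
  apply Finset.sum_le_sum
  intro i _
  unfold BIGPbox at hx
  rw [Fintype.mem_piFinset] at hx
  have h1 := Finset.mem_Icc.1 (hx i)
  have h2 : |x i| ≤ (B : ℤ) := abs_le.2 ⟨h1.1, h1.2⟩
  calc r i * x i ≤ |r i * x i| := le_abs_self _
    _ = |r i| * |x i| := abs_mul _ _
    _ ≤ |r i| * B := mul_le_mul_of_nonneg_left h2 (abs_nonneg _)

theorem p_BIGP : Stmt_BIGP := by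
  classical
  intro r B P₁ hr hB hP
  set X := ((Fintype.piFinset fun _ : Fin 6 => Finset.Icc (-(B : ℤ)) B).filter fun x =>
      0 < dt r x ∧ ∃ p : ℕ, p.Prime ∧ P₁ < p ∧ (p : ℤ) ∣ dt r x ∧ (p : ℤ) ∣ x 1) with hX
  have hsub : X ⊆ (Finset.Ioc P₁ (n1 r * B)).biUnion fun p =>
      (BIGPbox B 6).filter fun x => (p : ℤ) ∣ dt r x ∧ (p : ℤ) ∣ x 1 := by
    intro x hx
    rw [hX, Finset.mem_filter] at hx
    obtain ⟨h1, h2, p, hp, h3, h4, h5⟩ := hx
    have hxb : x ∈ BIGPbox B 6 := h1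
    rw [Finset.mem_biUnion]
    refine ⟨p, Finset.mem_Ioc.2 ⟨h3, ?_⟩, Finset.mem_filter.2 ⟨hxb, h4, h5⟩⟩
    have h6 : (p : ℤ) ≤ dt r x := Int.le_of_dvd h2 h4
    exact_mod_cast le_trans h6 (BIGP_dt_le r B x hxb)
  have hcard : (X.card : ℝ) ≤ ∑ p ∈ Finset.Ioc P₁ (n1 r * B),
      ((((BIGPbox B 6).filter fun x => (p : ℤ) ∣ dt r x ∧ (p : ℤ) ∣ x 1).card : ℕ) : ℝ) := by
    have := le_trans (Finset.card_le_card hsub) Finset.card_biUnion_le
    exact_mod_cast this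
  refine le_trans hcard ?_
  have hBr : (1 : ℝ) ≤ B := by exact_mod_cast hB
  have hPr : (0 : ℝ) < P₁ := by exact_mod_cast hP
  have h1 : ∀ p ∈ Finset.Ioc P₁ (n1 r * B),
      ((((BIGPbox B 6).filter fun x => (p : ℤ) ∣ dt r x ∧ (p : ℤ) ∣ x 1).card : ℕ) : ℝ) ≤
        81 * (2 + n1 r : ℝ) ^ 2 * (B : ℝ) ^ 6 * ((p : ℝ) ^ 2)⁻¹ := by
    intro p hp
    obtain ⟨hp1, hp2⟩ := Finset.mem_Ioc.1 hp
    have hp0 : 0 < p := by omega
    have hpr : (0 : ℝ) < p := by exact_mod_cast hp0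
    have h2 := BIGP_one r B p hr hp0
    have h3 : ((2 * B / p + 1 : ℕ) : ℝ) ≤ (2 + n1 r : ℝ) * B / p := by
      push_cast
      have h4 : ((2 * B / p : ℕ) : ℝ) ≤ ((2 * B : ℕ) : ℝ) / p := Nat.cast_div_le
      have h5 : (p : ℝ) ≤ n1 r * B := by exact_mod_cast hp2
      have h6 : (1 : ℝ) ≤ n1 r * B / p := by rwa [le_div_iff₀ hpr, one_mul]
      push_cast at h4
      calc ((2 * B / p : ℕ) : ℝ) + 1 ≤ 2 * B / p + n1 r * B / p := add_le_add h4 h6
        _ = (2 + n1 r : ℝ) * B / p := by ring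
    have h7 : ((2 * B + 1 : ℕ) : ℝ) ≤ 3 * B := by
      push_cast
      linarith
    have h30 : (0 : ℝ) ≤ ((2 * B / p + 1 : ℕ) : ℝ) := Nat.cast_nonneg _
    have h31 : (0 : ℝ) ≤ ((2 * B + 1 : ℕ) : ℝ) := Nat.cast_nonneg _
    calc ((((BIGPbox B 6).filter fun x => (p : ℤ) ∣ dt r x ∧ (p : ℤ) ∣ x 1).card : ℕ) : ℝ)
        ≤ (((2 * B / p + 1) * ((2 * B / p + 1) * (2 * B + 1) ^ 4) : ℕ) : ℝ) := by
          exact_mod_cast h2
      _ = ((2 * B / p + 1 : ℕ) : ℝ) ^ 2 * ((2 * B + 1 : ℕ) : ℝ) ^ 4 := by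
          rw [Nat.cast_mul, Nat.cast_mul, Nat.cast_pow]
          ring
      _ ≤ ((2 + n1 r : ℝ) * B / p) ^ 2 * (3 * (B : ℝ)) ^ 4 := by
          apply mul_le_mul (pow_le_pow_left₀ h30 h3 2) (pow_le_pow_left₀ h31 h7 4)
            (by positivity) (by positivity)
      _ = 81 * (2 + n1 r : ℝ) ^ 2 * (B : ℝ) ^ 6 * ((p : ℝ) ^ 2)⁻¹ := by
          rw [div_pow, mul_pow, mul_pow, div_eq_mul_inv]
          ring
  refine le_trans (Finset.sum_le_sum h1) ?_
  rw [← Finset.mul_sum]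
  have h8 : ∑ p ∈ Finset.Ioc P₁ (n1 r * B), ((p : ℝ) ^ 2)⁻¹ ≤ (P₁ : ℝ)⁻¹ := by
    by_cases h : P₁ ≤ n1 r * B
    · have := sum_Ioc_inv_sq_le_sub (α := ℝ) (by omega : P₁ ≠ 0) h
      have h9 : (0 : ℝ) ≤ ((n1 r * B : ℕ) : ℝ)⁻¹ := by positivity
      linarith
    · rw [Finset.Ioc_eq_empty (by omega), Finset.sum_empty]
      positivity
  calc 81 * (2 + n1 r : ℝ) ^ 2 * (B : ℝ) ^ 6 * ∑ p ∈ Finset.Ioc P₁ (n1 r * B), ((p : ℝ) ^ 2)⁻¹
      ≤ 81 * (2 + n1 r : ℝ) ^ 2 * (B : ℝ) ^ 6 * (P₁ : ℝ)⁻¹ :=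
        mul_le_mul_of_nonneg_left h8 (by positivity)
    _ = _ := by rw [div_eq_mul_inv]

end Pool.HPQ
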