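import Pool.Agent.Work.MP_9fb703_hp.Interface

/-! # BOXC: integer points in a region fibred over a cube, in a residue class (helper70) -/

set_option autoImplicit false

namespace Pool.HPQ

open Finset

/-- The integers within `r` of `c` congruent to `a` modulo `N`. -/
private noncomputable def boxcS (N : ℕ) (c r : ℝ) (a : ℤ) : Finset ℤ :=
  (Finset.Icc ⌈(c - a - r) / N⌉ ⌊(c - a + r) / N⌋).image fun m : ℤ => a + N * m

private theorem boxc_mem {N : ℕ} (hN : 1 ≤ N) (c r : ℝ) (a n : ℤ) :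
    n ∈ boxcS N c r a ↔ |(n : ℝ) - c| ≤ r ∧ (N : ℤ) ∣ n - a := by
  have hN0 : (0 : ℝ) < N := by exact_mod_cast hN
  unfold boxcS
  rw [Finset.mem_image]
  constructor
  · rintro ⟨m, hm, rfl⟩
    rw [Finset.mem_Icc, Int.ceil_le, Int.le_floor, div_le_iff₀ hN0, le_div_iff₀ hN0] at hm
    refine ⟨?_, ⟨m, by ring⟩⟩
    push_cast
    rw [abs_le]
    constructor <;> nlinarith [hm.1, hm.2]
  · rintro ⟨h1, m, hm⟩
    refine ⟨m, ?_, by linarith⟩
    have hn : n = a + N * m := by linarith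
    rw [Finset.mem_Icc, Int.ceil_le, Int.le_floor, div_le_iff₀ hN0, le_div_iff₀ hN0]
    rw [hn] at h1
    push_cast at h1
    rw [abs_le] at h1
    constructor <;> nlinarith [h1.1, h1.2]

private theorem boxc_card {N : ℕ} (hN : 1 ≤ N) (c r : ℝ) (a : ℤ) (hr : (N : ℝ) ≤ r) :
    r / N ≤ ((boxcS N c r a).card : ℝ) ∧ ((boxcS N c r a).card : ℝ) ≤ 3 * (r / N) := by
  have hN0 : (0 : ℝ) < N := by exact_mod_cast hN
  have hr1 : 1 ≤ r / N := by rw [le_div_iff₀ hN0]; linarith
  have hinj : Function.Injective fun m : ℤ => a + N * m := by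
    intro x y hxy
    have h0 : (N : ℤ) ≠ 0 := by omega
    have : (N : ℤ) * x = N * y := by simpa using hxy
    exact mul_left_cancel₀ h0 this
  unfold boxcS
  rw [Finset.card_image_of_injective _ hinj, Int.card_Icc]
  set A : ℝ := (c - a - r) / N with hA
  set B : ℝ := (c - a + r) / N with hB
  have hAB : B - A = 2 * (r / N) := by rw [hA, hB]; field_simp; ring
  have h1 : (B : ℝ) - 1 < ⌊B⌋ := Int.sub_one_lt_floor B
  have h2 : (⌊B⌋ : ℝ) ≤ B := Int.floor_le B
  have h3 : (A : ℝ) ≤ ⌈A⌉ := Int.le_ceil A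
  have h4 : (⌈A⌉ : ℝ) < A + 1 := Int.ceil_lt_add_one A
  have h5 : (0 : ℤ) ≤ ⌊B⌋ + 1 - ⌈A⌉ := by
    have : (0 : ℝ) ≤ ((⌊B⌋ + 1 - ⌈A⌉ : ℤ) : ℝ) := by push_cast; linarith
    exact_mod_cast this
  have h6 : (((⌊B⌋ + 1 - ⌈A⌉).toNat : ℕ) : ℝ) = (⌊B⌋ : ℝ) + 1 - ⌈A⌉ := by
    have : (((⌊B⌋ + 1 - ⌈A⌉).toNat : ℕ) : ℤ) = ⌊B⌋ + 1 - ⌈A⌉ := Int.toNat_of_nonneg h5
    have h7 : ((((⌊B⌋ + 1 - ⌈A⌉).toNat : ℕ) : ℤ) : ℝ) = ((⌊B⌋ + 1 - ⌈A⌉ : ℤ) : ℝ) := by rw [this]
    push_cast at h7
    exact_mod_cast h7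
  rw [h6]
  constructor <;> linarith

private theorem boxc_four : ∀ i j : Fin 6, i ≠ j →
    ((Finset.univ : Finset (Fin 6)).filter fun l => ¬ (l = i ∨ l = j)).card = 4 := by
  decide

open Classical in
theorem p_BOXC : Stmt_BOXC := by
  intro N i j ctr ψ ρ τ v X hN hij hρ hτ hψ hX
  have hN0 : (0 : ℝ) < N := by exact_mod_cast hN
  set F := X.filter fun x => ∀ l, (N : ℤ) ∣ x l - v l with hF
  let P : (Fin 6 → ℤ) → (Fin 6 → ℤ) := fun x l => if l = i ∨ l = j then 0 else x l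
  let Y : Finset (Fin 6 → ℤ) := Fintype.piFinset fun l =>
    if l = i ∨ l = j then {0} else boxcS N (ctr l) ρ (v l)
  have hmemF : ∀ x, x ∈ F ↔ ((∀ l, l ≠ i → l ≠ j → |(x l : ℝ) - ctr l| ≤ ρ) ∧
      |(x i : ℝ) - ψ x i| ≤ τ ∧ |(x j : ℝ) - ψ x j| ≤ τ) ∧ ∀ l, (N : ℤ) ∣ x l - v l := by
    intro x
    rw [hF, Finset.mem_filter, hX]
  have hmemY : ∀ y, y ∈ Y ↔ ∀ l, (l = i ∨ l = j → y l = 0) ∧
      (¬ (l = i ∨ l = j) → |(y l : ℝ) - ctr l| ≤ ρ ∧ (N : ℤ) ∣ y l - v l) := by
    intro y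
    rw [Fintype.mem_piFinset]
    refine forall_congr' fun l => ?_
    by_cases hl : l = i ∨ l = j
    · simp [hl]
    · simp [hl, boxc_mem hN]
  have hmaps : ∀ x ∈ F, P x ∈ Y := by
    intro x hx
    rw [hmemF] at hx
    rw [hmemY]
    intro l
    refine ⟨fun hl => by simp [P, hl], fun hl => ?_⟩
    have hP : P x l = x l := by simp [P, hl]
    rw [hP]
    exact ⟨hx.1.1 l (fun h => hl (Or.inl h)) (fun h => hl (Or.inr h)), hx.2 l⟩
  have hfib : ∀ y ∈ Y, (F.filter fun x => P x = y).card =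
      (boxcS N (ψ y i) τ (v i)).card * (boxcS N (ψ y j) τ (v j)).card := by
    intro y hy
    rw [hmemY] at hy
    rw [← Finset.card_product]
    refine Finset.card_bij' (fun x _ => (x i, x j))
      (fun ab _ => fun l => if l = i then ab.1 else if l = j then ab.2 else y l) ?_ ?_ ?_ ?_
    · intro x hx
      rw [Finset.mem_filter, hmemF] at hx
      obtain ⟨⟨⟨h1, h2, h3⟩, h4⟩, h5⟩ := hx
      have hxy : ψ x = ψ y := by
        apply hψ
        intro l hli hlj
        rw [← h5]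
        simp [P, hli, hlj]
      rw [hxy] at h2 h3
      rw [Finset.mem_product]
      exact ⟨(boxc_mem hN _ _ _ _).2 ⟨h2, h4 i⟩, (boxc_mem hN _ _ _ _).2 ⟨h3, h4 j⟩⟩
    · intro ab hab
      rw [Finset.mem_product] at hab
      have ha := (boxc_mem hN _ _ _ _).1 hab.1
      have hb := (boxc_mem hN _ _ _ _).1 hab.2
      set x : Fin 6 → ℤ := fun l => if l = i then ab.1 else if l = j then ab.2 else y l with hx
      have hxi : x i = ab.1 := by simp [hx]
      have hxj : x j = ab.2 := by simp [hx, hij.symm]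
      have hxl : ∀ l, l ≠ i → l ≠ j → x l = y l := by
        intro l h1 h2
        simp [hx, h1, h2]
      have hxy : ψ x = ψ y := hψ _ _ hxl
      rw [Finset.mem_filter, hmemF, hxy, hxi, hxj]
      refine ⟨⟨⟨?_, ha.1, hb.1⟩, ?_⟩, ?_⟩
      · intro l h1 h2
        rw [hxl l h1 h2]
        exact ((hy l).2 (by tauto)).1
      · intro l
        by_cases h1 : l = i
        · rw [h1, hxi]; exact ha.2
        · by_cases h2 : l = j
          · rw [h2, hxj]; exact hb.2
          · rw [hxl l h1 h2]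
            exact ((hy l).2 (by tauto)).2
      · funext l
        by_cases h1 : l = i ∨ l = j
        · rw [(hy l).1 h1]
          simp [P, h1]
        · have h2 : P x l = x l := by simp [P, h1]
          rw [h2]
          exact hxl l (fun h => h1 (Or.inl h)) (fun h => h1 (Or.inr h))
    · intro x hx
      rw [Finset.mem_filter] at hx
      funext l
      by_cases h1 : l = i
      · simp [h1]
      · by_cases h2 : l = j
        · simp [h2, hij.symm]
        · simp only [h1, h2, if_false]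
          rw [← hx.2]
          simp [P, h1, h2]
    · intro ab _
      simp [hij.symm]
  have hsum : (F.card : ℝ) = ∑ y ∈ Y, (((boxcS N (ψ y i) τ (v i)).card : ℝ) *
      ((boxcS N (ψ y j) τ (v j)).card : ℝ)) := by
    rw [Finset.card_eq_sum_card_fiberwise hmaps]
    push_cast
    refine Finset.sum_congr rfl fun y hy => ?_
    rw [hfib y hy]
    push_cast
    ring
  have hprod : ∀ q : ℝ, (∏ l : Fin 6, if l = i ∨ l = j then (1 : ℝ) else q) = q ^ 4 := by
    intro q
    rw [Finset.prod_ite, Finset.prod_const_one, Finset.prod_const, one_mul, boxc_four i j hij]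
  have hYc : (Y.card : ℝ) = ∏ l : Fin 6, if l = i ∨ l = j then (1 : ℝ) else
      ((boxcS N (ctr l) ρ (v l)).card : ℝ) := by
    rw [Fintype.card_piFinset]
    push_cast
    refine Finset.prod_congr rfl fun l _ => ?_
    by_cases hl : l = i ∨ l = j
    · simp [hl]
    · simp [hl]
  have hρ0 : 0 ≤ ρ / N := div_nonneg (hN0.le.trans hρ) hN0.le
  have hτ0 : 0 ≤ τ / N := div_nonneg (hN0.le.trans hτ) hN0.le
  have hYlo : (ρ / N) ^ 4 ≤ (Y.card : ℝ) := by
    rw [hYc, ← hprod]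
    refine Finset.prod_le_prod (fun l _ => ?_) fun l _ => ?_
    · split_ifs
      · exact zero_le_one
      · exact hρ0
    · split_ifs
      · exact le_refl _
      · exact (boxc_card hN _ _ _ hρ).1
  have hYhi : (Y.card : ℝ) ≤ (3 * (ρ / N)) ^ 4 := by
    rw [hYc, ← hprod]
    refine Finset.prod_le_prod (fun l _ => ?_) fun l _ => ?_
    · split_ifs
      · exact zero_le_one
      · exact Nat.cast_nonneg _
    · split_ifs
      · exact le_refl _
      · exact (boxc_card hN _ _ _ hρ).2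
  have hlo : (Y.card : ℝ) * (τ / N) ^ 2 ≤ F.card := by
    rw [hsum, ← nsmul_eq_mul]
    refine Finset.card_nsmul_le_sum _ _ _ fun y _ => ?_
    rw [sq]
    exact mul_le_mul (boxc_card hN _ _ _ hτ).1 (boxc_card hN _ _ _ hτ).1 hτ0
      (Nat.cast_nonneg _)
  have hhi : (F.card : ℝ) ≤ (Y.card : ℝ) * (3 * (τ / N)) ^ 2 := by
    rw [hsum, ← nsmul_eq_mul]
    refine Finset.sum_le_card_nsmul _ _ _ fun y _ => ?_
    rw [sq]
    exact mul_le_mul (boxc_card hN _ _ _ hτ).2 (boxc_card hN _ _ _ hτ).2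
      (Nat.cast_nonneg _) (by positivity)
  constructor
  · exact le_trans (mul_le_mul_of_nonneg_right hYlo (by positivity)) hlo
  · refine le_trans hhi (le_trans (mul_le_mul_of_nonneg_right hYhi (by positivity)) (le_of_eq ?_))
    ring

end Pool.HPQ
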