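import Pool.Agent.Work.MP_9fb703_hp.Interface

/-! # CHEB: the number of pairs without a zero in `X` but with a large local model (helper78) -/

set_option autoImplicit false

namespace Pool.HPQ

open Finset

private theorem cheb_card : Fintype.card Idx = 21 := by decide

/-- Reduction modulo a large `R` is injective on the box. -/
private theorem cheb_inj {R A : ℕ} (hR : 2 * A < R) {a b : Idx → ℤ} (ha : a ∈ Box A)
    (hb : b ∈ Box A) (h : rd R a = rd R b) : a = b := by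
  funext q
  have h1 : ((a q : ℤ) : ZMod R) = ((b q : ℤ) : ZMod R) := congrFun h q
  rw [ZMod.intCast_eq_intCast_iff_dvd_sub] at h1
  have ha1 : a q ∈ Finset.Icc (-(A : ℤ)) A := by
    unfold Box at ha
    exact (Fintype.mem_piFinset.1 ha) q
  have hb1 : b q ∈ Finset.Icc (-(A : ℤ)) A := by
    unfold Box at hb
    exact (Fintype.mem_piFinset.1 hb) q
  rw [Finset.mem_Icc] at ha1 hb1
  have h2 : b q - a q = 0 := by
    apply Int.eq_zero_of_abs_lt_dvd h1
    rw [abs_lt]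
    constructor <;> omega
  omega

private theorem cheb_Fw (R T : ℕ) [NeZero R] (n : ZMod R) : 0 ≤ Fw R T n := by
  unfold Fw
  positivity

theorem p_CHEB (hVAR : Stmt_VAR) (hFLB1 : Stmt_FLB1) : Stmt_CHEB := by
  classical
  intro R T H W A _ hA hR hT hH hW hWR hHW X L hL
  have hTR : T ≤ R := by
    rw [hR]
    nlinarith
  have hRA : 2 * A < R := by
    rw [hR]
    nlinarith
  have hV := hVAR R T H W (by omega) hTR hH hW hWR hHW X
  set V : ℝ := 2 * ∑ x ∈ X, ∑ y ∈ X, PP R T x y * PS R T H W x y with hVdef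
  set S := ((Box A) ×ˢ (Box A)).filter fun p => NN R X (rd R p.1) (rd R p.2) = 0 ∧
        L ≤ NL R H W X (rd R p.1) (rd R p.2) with hS
  set f : (Idx → ZMod R) × (Idx → ZMod R) → ℝ := fun z =>
    (∏ q, Fw R T (z.1 q)) * (∏ q, Fw R T (z.2 q)) * (NN R X z.1 z.2 - NL R H W X z.1 z.2) ^ 2
    with hf
  have hf0 : ∀ z, 0 ≤ f z := by
    intro z
    have h1 : 0 ≤ ∏ q, Fw R T (z.1 q) := Finset.prod_nonneg fun q _ => cheb_Fw R T _
    have h2 : 0 ≤ ∏ q, Fw R T (z.2 q) := Finset.prod_nonneg fun q _ => cheb_Fw R T _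
    exact mul_nonneg (mul_nonneg h1 h2) (sq_nonneg _)
  have hinj : Set.InjOn (fun p : (Idx → ℤ) × (Idx → ℤ) => (rd R p.1, rd R p.2)) S := by
    intro p hp q hq hpq
    rw [Finset.mem_coe, hS, Finset.mem_filter, Finset.mem_product] at hp hq
    simp only [Prod.mk.injEq] at hpq
    exact Prod.ext (cheb_inj hRA hp.1.1 hq.1.1 hpq.1) (cheb_inj hRA hp.1.2 hq.1.2 hpq.2)
  have h1 : ∑ p ∈ S, f (rd R p.1, rd R p.2) ≤ V := by
    calc ∑ p ∈ S, f (rd R p.1, rd R p.2) =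
        ∑ z ∈ S.image (fun p : (Idx → ℤ) × (Idx → ℤ) => (rd R p.1, rd R p.2)), f z :=
          (Finset.sum_image hinj).symm
      _ ≤ ∑ z : (Idx → ZMod R) × (Idx → ZMod R), f z :=
          Finset.sum_le_sum_of_subset_of_nonneg (Finset.subset_univ _) fun z _ _ => hf0 z
      _ = ∑ a : Idx → ZMod R, ∑ b : Idx → ZMod R, f (a, b) := Fintype.sum_prod_type _
      _ ≤ V := hV
  have hApos : (0 : ℝ) < A := by exact_mod_cast hA
  have hw0 : 0 ≤ 2 / (Real.pi ^ 2 * A) := by positivity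
  have hweight : ∀ a ∈ Box A, (2 / (Real.pi ^ 2 * A)) ^ 21 ≤ ∏ q, Fw R T (rd R a q) := by
    intro a ha
    calc (2 / (Real.pi ^ 2 * A)) ^ 21 = ∏ _q : Idx, 2 / (Real.pi ^ 2 * (A : ℝ)) := by
          rw [Finset.prod_const, Finset.card_univ, cheb_card]
      _ ≤ ∏ q, Fw R T (rd R a q) := by
          refine Finset.prod_le_prod (fun _ _ => hw0) fun q _ => ?_
          have ha1 : a q ∈ Finset.Icc (-(A : ℤ)) A := by
            unfold Box at ha
            exact (Fintype.mem_piFinset.1 ha) q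
          exact hFLB1 R T A (a q) hA hR (abs_le.2 (Finset.mem_Icc.1 ha1))
  have h2 : (S.card : ℝ) * ((2 / (Real.pi ^ 2 * A)) ^ 42 * L ^ 2) ≤
      ∑ p ∈ S, f (rd R p.1, rd R p.2) := by
    rw [← nsmul_eq_mul, ← Finset.sum_const]
    refine Finset.sum_le_sum fun p hp => ?_
    rw [hS, Finset.mem_filter, Finset.mem_product] at hp
    obtain ⟨⟨hp1, hp2⟩, hp3, hp4⟩ := hp
    have h3 := hweight p.1 hp1
    have h4 := hweight p.2 hp2
    have h5 : (2 / (Real.pi ^ 2 * (A : ℝ))) ^ 42 =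
        (2 / (Real.pi ^ 2 * (A : ℝ))) ^ 21 * (2 / (Real.pi ^ 2 * (A : ℝ))) ^ 21 := by
      rw [← pow_add]
    rw [hf, h5]
    simp only
    rw [hp3]
    refine mul_le_mul (mul_le_mul h3 h4 (pow_nonneg hw0 _)
      ((pow_nonneg hw0 _).trans h3)) ?_ (sq_nonneg _) ?_
    · nlinarith
    · exact mul_nonneg ((pow_nonneg hw0 _).trans h3) ((pow_nonneg hw0 _).trans h4)
  have h6 : (S.card : ℝ) * ((2 / (Real.pi ^ 2 * A)) ^ 42 * L ^ 2) ≤ V := h2.trans h1
  have h7 : (Real.pi ^ 2 * A / 2) ^ 42 * (2 / (Real.pi ^ 2 * (A : ℝ))) ^ 42 = 1 := by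
    rw [← mul_pow]
    have : Real.pi ^ 2 * (A : ℝ) / 2 * (2 / (Real.pi ^ 2 * A)) = 1 := by
      have := Real.pi_pos
      field_simp
    rw [this, one_pow]
  have h8 : 0 ≤ (Real.pi ^ 2 * A / 2) ^ 42 := by positivity
  calc (S.card : ℝ) * L ^ 2 = ((Real.pi ^ 2 * A / 2) ^ 42 * (2 / (Real.pi ^ 2 * (A : ℝ))) ^ 42) *
        ((S.card : ℝ) * L ^ 2) := by rw [h7, one_mul]
    _ = (Real.pi ^ 2 * A / 2) ^ 42 * ((S.card : ℝ) * ((2 / (Real.pi ^ 2 * A)) ^ 42 * L ^ 2)) := by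
        ring
    _ ≤ (Real.pi ^ 2 * A / 2) ^ 42 * V := mul_le_mul_of_nonneg_left h6 h8

end Pool.HPQ
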