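import Pool.Agent.Work.MP_9fb703_hp.Interface

/-! # Block CNT: the number of `y` with given content and given size of the minors -/

set_option autoImplicit false

namespace Pool.HPQ

open Finset

theorem CNT_int (T : Finset ℤ) (g : ℕ) (hg : 1 ≤ g) (s : ℤ) (c ρ : ℝ) (hρ : (g : ℝ) ≤ ρ)
    (h : ∀ z ∈ T, (g : ℤ) ∣ z - s ∧ |(z : ℝ) - c| ≤ ρ) : (T.card : ℝ) ≤ 3 * ρ / g := by
  classical
  have hg0 : (0 : ℝ) < g := by exact_mod_cast hg
  have hρ0 : 0 < ρ := lt_of_lt_of_le hg0 hρ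
  rcases T.eq_empty_or_nonempty with rfl | hne
  · simp only [card_empty, Nat.cast_zero]
    positivity
  set z0 := T.min' hne with hz0
  have hz0m : z0 ∈ T := T.min'_mem hne
  have hgz : (0 : ℤ) < g := by exact_mod_cast hg
  have hdvd : ∀ z ∈ T, (g : ℤ) ∣ z - z0 := by
    intro z hz
    have h1 := (h z hz).1
    have h2 := (h z0 hz0m).1
    have h3 := dvd_sub h1 h2
    rwa [sub_sub_sub_cancel_right] at h3
  have h1 : T.card ≤ (Finset.Icc (0 : ℤ) ⌊2 * ρ / g⌋).card := by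
    apply Finset.card_le_card_of_injOn (fun z => (z - z0) / (g : ℤ))
    · intro z hz
      have hz' : z ∈ T := hz
      have h2 : z0 ≤ z := T.min'_le z hz'
      obtain ⟨k, hk⟩ := hdvd z hz'
      have h3 : (z - z0) / (g : ℤ) = k := by
        rw [hk]
        exact Int.mul_ediv_cancel_left k hgz.ne'
      show (z - z0) / (g : ℤ) ∈ (Finset.Icc (0 : ℤ) ⌊2 * ρ / g⌋ : Finset ℤ)
      rw [h3, Finset.mem_Icc]
      constructor
      · by_contra hc
        push Not at hc
        have : (g : ℤ) * k < 0 := mul_neg_of_pos_of_neg hgz hc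
        linarith
      · rw [Int.le_floor, le_div_iff₀ hg0]
        have h4 := (abs_le.mp (h z hz').2).2
        have h5 := (abs_le.mp (h z0 hz0m).2).1
        have h6 : ((z - z0 : ℤ) : ℝ) = g * k := by
          rw [hk]
          push_cast
          ring
        push_cast at h6
        linarith
    · intro z hz z' hz' hzz
      have h2 := hdvd z hz
      have h3 := hdvd z' hz'
      have h4 := Int.ediv_mul_cancel h2
      have h5 := Int.ediv_mul_cancel h3
      have h6 : (z - z0) / (g : ℤ) = (z' - z0) / (g : ℤ) := hzz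
      rw [h6] at h4
      linarith
  rw [Int.card_Icc] at h1
  have hfl : 0 ≤ ⌊2 * ρ / g⌋ := Int.floor_nonneg.mpr (by positivity)
  have h2 : (((⌊2 * ρ / g⌋ + 1 - 0).toNat : ℕ) : ℝ) = (⌊2 * ρ / g⌋ : ℝ) + 1 := by
    have h3 : (((⌊2 * ρ / g⌋ + 1 - 0).toNat : ℕ) : ℤ) = ⌊2 * ρ / g⌋ + 1 := by
      rw [Int.toNat_of_nonneg (by omega)]
      ring
    have h4 : ((((⌊2 * ρ / g⌋ + 1 - 0).toNat : ℕ) : ℤ) : ℝ) = ((⌊2 * ρ / g⌋ + 1 : ℤ) : ℝ) := by
      rw [h3]
    push_cast at h4 ⊢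
    exact h4
  have h3 : (T.card : ℝ) ≤ (⌊2 * ρ / g⌋ : ℝ) + 1 := by
    rw [← h2]
    exact_mod_cast h1
  have h4 := Int.floor_le (2 * ρ / (g : ℝ))
  have h5 : 1 ≤ ρ / g := by rw [one_le_div hg0]; exact hρ
  have h6 : 3 * ρ / g = 2 * ρ / g + ρ / g := by ring
  linarith

theorem p_CNT : Stmt_CNT := by
  classical
  intro B ρ g x S hg hgB hgρ hco hx0 hS
  have hg0 : (0 : ℝ) < g := by exact_mod_cast hg
  have hgz : (0 : ℤ) < g := by exact_mod_cast hg
  have hx0r : (0 : ℝ) < x 0 := by exact_mod_cast hx0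
  obtain ⟨u, v, huv⟩ := hco
  set cc : Fin 6 → ℤ → ℝ := fun q y0 => (x q : ℝ) * y0 / x 0 with hcc
  set P : ℤ → ℤ → Fin 6 → Finset ℤ := fun t y0 q =>
    if q = 0 then {y0} else
      (Finset.Icc ⌈cc q y0 - ρ⌉ ⌊cc q y0 + ρ⌋).filter (fun z => (g : ℤ) ∣ z - t * x q) with hP
  set A : ℤ → Finset ℤ := fun t =>
    (Finset.Icc ⌈-B⌉ ⌊B⌋).filter (fun z => (g : ℤ) ∣ z - t * x 0) with hA
  have hsub : S ⊆ (Finset.Ico (0 : ℤ) g).biUnion
      (fun t => (A t).biUnion (fun y0 => Fintype.piFinset (P t y0))) := by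
    intro y hy
    obtain ⟨h1, h2, h3⟩ := hS y hy
    have hdvd : ∀ i j, (g : ℤ) ∣ om x y i j := by
      intro i j
      have h4 : ct x y ∣ (om x y i j).natAbs :=
        Finset.gcd_dvd (f := fun q : Fin 6 × Fin 6 => (om x y q.1 q.2).natAbs)
          (Finset.mem_univ (i, j))
      rw [h1] at h4
      exact Int.natCast_dvd.mpr h4
    set w := u * y 0 + v * y 1 with hw
    set t := w % (g : ℤ) with ht
    have h5 : ∀ j, (g : ℤ) ∣ y j - t * x j := by
      intro j
      have h6 : (g : ℤ) ∣ y j - w * x j := by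
        have h7 : y j - w * x j = u * om x y 0 j + v * om x y 1 j := by
          unfold om
          rw [hw]
          have : y j = (u * x 0 + v * x 1) * y j := by rw [huv, one_mul]
          linear_combination this
        rw [h7]
        exact dvd_add ((hdvd 0 j).mul_left _) ((hdvd 1 j).mul_left _)
      have h8 : (g : ℤ) ∣ w - t := Int.dvd_self_sub_emod
      have h9 := dvd_add h6 (h8.mul_right (x j))
      have h10 : y j - w * x j + (w - t) * x j = y j - t * x j := by ring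
      rwa [h10] at h9
    rw [Finset.mem_biUnion]
    refine ⟨t, Finset.mem_Ico.mpr ⟨Int.emod_nonneg _ hgz.ne', Int.emod_lt_of_pos _ hgz⟩, ?_⟩
    rw [Finset.mem_biUnion]
    refine ⟨y 0, ?_, ?_⟩
    · rw [hA]
      simp only [Finset.mem_filter, Finset.mem_Icc]
      have h6 := abs_le.mp h2
      exact ⟨⟨Int.ceil_le.mpr h6.1, Int.le_floor.mpr h6.2⟩, h5 0⟩
    · rw [Fintype.mem_piFinset]
      intro q
      rw [hP]
      show y q ∈ (if q = 0 then {y 0} else
        (Finset.Icc ⌈cc q (y 0) - ρ⌉ ⌊cc q (y 0) + ρ⌋).filter (fun z => (g : ℤ) ∣ z - t * x q))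
      by_cases hq : q = 0
      · rw [if_pos hq, hq]
        exact Finset.mem_singleton_self _
      · rw [if_neg hq, Finset.mem_filter, Finset.mem_Icc]
        have h6 := h3 q
        have h7 : (om x y 0 q : ℝ) = x 0 * ((y q : ℝ) - cc q (y 0)) := by
          rw [hcc]
          unfold om
          push_cast
          field_simp
        rw [h7, abs_mul, abs_of_pos hx0r, mul_comm ρ] at h6
        have h8 := abs_le.mp (le_of_mul_le_mul_left h6 hx0r)
        refine ⟨⟨Int.ceil_le.mpr (by linarith [h8.1]), Int.le_floor.mpr (by linarith [h8.2])⟩, h5 q⟩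
  have hcard := Finset.card_le_card hsub
  have hPc : ∀ t y0 : ℤ, ((Fintype.piFinset (P t y0)).card : ℝ) ≤ (3 * ρ / g) ^ 5 := by
    intro t y0
    rw [Fintype.card_piFinset, Fin.prod_univ_succ]
    push_cast
    have h1 : ((P t y0 0).card : ℝ) = 1 := by
      rw [hP]
      simp
    rw [h1, one_mul]
    have h2 : ∀ i : Fin 5, ((P t y0 i.succ).card : ℝ) ≤ 3 * ρ / g := by
      intro i
      apply CNT_int _ g hg (t * x i.succ) (cc i.succ y0) ρ hgρ
      intro z hz
      rw [hP] at hz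
      simp only [Fin.succ_ne_zero, if_false, Finset.mem_filter, Finset.mem_Icc] at hz
      refine ⟨hz.2, ?_⟩
      rw [abs_le]
      have h3 := Int.ceil_le.mp hz.1.1
      have h4 := Int.le_floor.mp hz.1.2
      constructor <;> linarith
    calc ∏ i : Fin 5, ((P t y0 i.succ).card : ℝ) ≤ ∏ _i : Fin 5, (3 * ρ / g) :=
          Finset.prod_le_prod (fun i _ => by positivity) (fun i _ => h2 i)
      _ = (3 * ρ / g) ^ 5 := by rw [Finset.prod_const, Finset.card_univ, Fintype.card_fin]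
  have hAc : ∀ t : ℤ, ((A t).card : ℝ) ≤ 3 * B / g := by
    intro t
    apply CNT_int _ g hg (t * x 0) 0 B hgB
    intro z hz
    rw [hA] at hz
    simp only [Finset.mem_filter, Finset.mem_Icc] at hz
    refine ⟨hz.2, ?_⟩
    rw [abs_le, sub_zero]
    exact ⟨Int.ceil_le.mp hz.1.1, Int.le_floor.mp hz.1.2⟩
  have hρ0 : 0 < ρ := lt_of_lt_of_le hg0 hgρ
  have h1 : (S.card : ℝ) ≤ ∑ t ∈ Finset.Ico (0 : ℤ) g, ∑ y0 ∈ A t, (3 * ρ / g) ^ 5 := by
    have h2 : S.card ≤ ∑ t ∈ Finset.Ico (0 : ℤ) g, ∑ y0 ∈ A t, (Fintype.piFinset (P t y0)).card :=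
      hcard.trans (Finset.card_biUnion_le.trans
        (Finset.sum_le_sum (fun t _ => Finset.card_biUnion_le)))
    have h3 : (S.card : ℝ) ≤ ∑ t ∈ Finset.Ico (0 : ℤ) g, ∑ y0 ∈ A t,
        ((Fintype.piFinset (P t y0)).card : ℝ) := by exact_mod_cast h2
    refine h3.trans (Finset.sum_le_sum (fun t _ => Finset.sum_le_sum (fun y0 _ => hPc t y0)))
  have h2 : ∑ t ∈ Finset.Ico (0 : ℤ) g, ∑ y0 ∈ A t, (3 * ρ / g) ^ 5 ≤
      ∑ t ∈ Finset.Ico (0 : ℤ) g, (3 * B / g) * (3 * ρ / g) ^ 5 := by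
    apply Finset.sum_le_sum
    intro t _
    rw [Finset.sum_const, nsmul_eq_mul]
    exact mul_le_mul_of_nonneg_right (hAc t) (by positivity)
  rw [Finset.sum_const, nsmul_eq_mul, Int.card_Ico] at h2
  have h3 : (((g : ℤ) - 0).toNat : ℝ) = g := by simp
  rw [h3] at h2
  refine h1.trans (h2.trans (le_of_eq ?_))
  field_simp
  ring

end Pool.HPQ
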