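import Pool.Agent.Work.MP_9fb703_hp.Interface

/-! # Block CONT (helper17): the structure of `ℤ x + ℤ y` in its saturation -/

set_option autoImplicit false

namespace Pool.HPQ

open Finset

theorem p_CONT : Stmt_CONT := by
  intro x y hcop hDe
  obtain ⟨u, v, huv⟩ := hcop
  -- the content is positive
  have hq : ∃ q, om x y 0 q ≠ 0 := by
    by_contra h
    have h0 : De x y = 0 := by
      unfold De
      apply le_antisymm _ (Nat.zero_le _)
      apply Finset.sup_le
      intro q _
      have h1 : om x y 0 q = 0 := by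
        by_contra h2
        exact h ⟨q, h2⟩
      rw [h1]
      simp
    omega
  have hg : 0 < ct x y := by
    obtain ⟨q, hq⟩ := hq
    rw [Nat.pos_iff_ne_zero]
    intro h0
    unfold ct at h0
    rw [Finset.gcd_eq_zero_iff] at h0
    have h1 := h0 (0, q) (mem_univ _)
    exact hq (Int.natAbs_eq_zero.1 h1)
  have hdvd : ∀ i j, (ct x y : ℤ) ∣ om x y i j := by
    intro i j
    rw [Int.natCast_dvd]
    exact Finset.gcd_dvd (f := fun q : Fin 6 × Fin 6 => (om x y q.1 q.2).natAbs)
      (mem_univ ((i, j) : Fin 6 × Fin 6))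
  refine ⟨hg, u * y 0 + v * y 1, ?_⟩
  have hd2 : ∀ i, ∃ w : ℤ, u * om x y 0 i + v * om x y 1 i = ct x y * w := fun i =>
    dvd_add ((hdvd 0 i).mul_left u) ((hdvd 1 i).mul_left v)
  choose w hw using hd2
  have hy : ∀ i, y i = (u * y 0 + v * y 1) * x i + ct x y * w i := by
    intro i
    rw [← hw i]
    unfold om
    linear_combination (-(y i)) * huv
  have hom : ∀ i j, om x y i j = ct x y * om x w i j := by
    intro i j
    unfold om
    rw [hy i, hy j]
    ring
  have hDD : De x y = ct x y * De x w := by
    apply le_antisymm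
    · unfold De
      apply Finset.sup_le
      intro q _
      rw [hom 0 q, Int.natAbs_mul, Int.natAbs_natCast]
      apply Nat.mul_le_mul_left
      exact Finset.le_sup (f := fun q => (om x w 0 q).natAbs) (mem_univ q)
    · obtain ⟨q, -, hq⟩ := Finset.exists_mem_eq_sup (univ : Finset (Fin 6)) ⟨0, mem_univ 0⟩
        (fun q => (om x w 0 q).natAbs)
      have h1 : De x w = (om x w 0 q).natAbs := hq
      rw [h1]
      have h2 : ct x y * (om x w 0 q).natAbs = (om x y 0 q).natAbs := by
        rw [hom 0 q, Int.natAbs_mul, Int.natAbs_natCast]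
      rw [h2]
      exact Finset.le_sup (f := fun q => (om x y 0 q).natAbs) (mem_univ q)
  have hgcd : (univ.gcd fun q : Fin 6 × Fin 6 => (om x w q.1 q.2).natAbs) = 1 := by
    have h1 : ct x y = univ.gcd fun q : Fin 6 × Fin 6 => ct x y * (om x w q.1 q.2).natAbs := by
      conv_lhs => unfold ct
      apply Finset.gcd_congr rfl
      intro q _
      rw [hom q.1 q.2, Int.natAbs_mul, Int.natAbs_natCast]
    rw [Finset.gcd_mul_left, normalize_eq] at h1
    have h2 : ct x y * 1 = ct x y * (univ.gcd fun q : Fin 6 × Fin 6 => (om x w q.1 q.2).natAbs) := by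
      rw [mul_one]
      exact h1
    exact (Nat.eq_of_mul_eq_mul_left hg h2).symm
  refine ⟨w, hy, hom, hDD, ?_, ?_⟩
  · rw [Nat.pos_iff_ne_zero]
    intro h0
    rw [h0, mul_zero] at hDD
    omega
  · intro n hn
    obtain ⟨c, a', b', hc, hn⟩ := hn
    have h1 : ∀ i j, c * om x n i j = b' * ct x y * om x w i j := by
      intro i j
      have h2 : c * om x n i j = b' * om x y i j := by
        unfold om
        linear_combination (x i) * hn j - (x j) * hn i
      rw [h2, hom i j]
      ring
    have h3 : c ∣ b' * ct x y := by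
      rw [← Int.natAbs_dvd_natAbs]
      have h4 : c.natAbs ∣ univ.gcd fun q : Fin 6 × Fin 6 =>
          (b' * ct x y : ℤ).natAbs * (om x w q.1 q.2).natAbs := by
        apply Finset.dvd_gcd
        intro q _
        rw [← Int.natAbs_mul, Int.natAbs_dvd_natAbs]
        exact ⟨om x n q.1 q.2, (h1 q.1 q.2).symm⟩
      rw [Finset.gcd_mul_left, normalize_eq, hgcd, mul_one] at h4
      exact h4
    obtain ⟨β, hβ⟩ := h3
    have h5 : ∀ i j, om x n i j = β * om x w i j := by
      intro i j
      have h6 : c * om x n i j = c * (β * om x w i j) := by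
        rw [h1 i j, hβ]
        ring
      exact mul_left_cancel₀ hc h6
    refine ⟨u * (n 0 - β * w 0) + v * (n 1 - β * w 1), β, ?_⟩
    intro i
    have h7 := h5 0 i
    have h8 := h5 1 i
    unfold om at h7 h8
    linear_combination (-(n i - β * w i)) * huv + u * h7 + v * h8

end Pool.HPQ
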