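import Pool.Agent.Work.MP_9fb703_hp.Interface

/-! # Block DIAG: the diagonal -/

set_option autoImplicit false

namespace Pool.HPQ

open Finset

/-- A small vector of minors is killed by the absence of small linear relations. -/
theorem DIAG_kill {K₀ : ℕ} {x : Fin 6 → ℤ}
    (hgen : ∀ l : Fin 6 → ℤ, l ≠ 0 → (∀ i, |l i| ≤ (K₀ : ℤ)) → ∑ i, l i * x i ≠ 0)
    {n : Fin 6 → ℤ} (hn : ∀ i j, |x i * n j - x j * n i| ≤ (K₀ : ℤ)) (i j : Fin 6) :
    x i * n j - x j * n i = 0 := by
  by_cases hij : i = j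
  · subst hij
    ring
  obtain ⟨m, hmi, hmj⟩ : ∃ m : Fin 6, m ≠ i ∧ m ≠ j := by
    revert i j
    decide
  by_contra hne
  set l : Fin 6 → ℤ := fun k => if k = m then x i * n j - x j * n i else
    if k = i then x j * n m - x m * n j else if k = j then x m * n i - x i * n m else 0 with hl
  have hl0 : l ≠ 0 := by
    intro h
    have h1 := congrFun h m
    rw [hl] at h1
    simp only [if_true, Pi.zero_apply] at h1
    exact hne h1
  have hlK : ∀ k, |l k| ≤ (K₀ : ℤ) := by
    intro k
    rw [hl]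
    show |(if k = m then x i * n j - x j * n i else
      if k = i then x j * n m - x m * n j else if k = j then x m * n i - x i * n m else 0)| ≤ _
    split_ifs
    · exact hn i j
    · exact hn j m
    · exact hn m i
    · rw [abs_zero]
      exact Int.natCast_nonneg _
  apply hgen l hl0 hlK
  have h1 : ∀ k, l k * x k = (if k = m then (x i * n j - x j * n i) * x m else 0) +
      (if k = i then (x j * n m - x m * n j) * x i else 0) +
      (if k = j then (x m * n i - x i * n m) * x j else 0) := by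
    intro k
    rw [hl]
    show (if k = m then x i * n j - x j * n i else
      if k = i then x j * n m - x m * n j else if k = j then x m * n i - x i * n m else 0) * x k = _
    by_cases h1 : k = m
    · subst h1
      simp [hmi, hmj]
    · by_cases h2 : k = i
      · subst h2
        simp [h1, hij]
      · by_cases h3 : k = j
        · subst h3
          simp [h1, h2]
        · simp [h1, h2, h3]
  rw [Finset.sum_congr rfl (fun k _ => h1 k), Finset.sum_add_distrib, Finset.sum_add_distrib]
  simp only [Finset.sum_ite_eq', Finset.mem_univ, if_true]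
  ring

theorem p_DIAG (h1 : Stmt_ROW) : Stmt_DIAG := by
  classical
  intro R T K₀ B c M x hc hc1 hB hR hTM hT hM hK hF
  have hR' : (0 : ℝ) < R := by exact_mod_cast hR
  have hRz : (0 : ℤ) < R := by exact_mod_cast hR
  have hB0 : 0 < B := by linarith
  have hT0 : (0 : ℝ) < T := lt_of_lt_of_le (by positivity) hT
  have hM0 : 0 < M := by
    by_contra h
    push Not at h
    have : (T : ℝ) * M ≤ 0 := mul_nonpos_of_nonneg_of_nonpos hT0.le h
    linarith
  have hx0 : (0 : ℝ) < x 0 := lt_of_lt_of_le (by positivity) hF.lo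
  obtain ⟨u, v, huv⟩ := hF.cop
  -- the structure of the solutions
  have key : ∀ s ∈ Sol R T x x, ∃ p : ℤ, |s.1 - s.2 - R * p| * (x 0) ^ 2 < (T : ℤ) := by
    intro s hs
    have hrow := h1 R T x x hR s hs
    set n : Fin 6 → Fin 6 → ℤ := fun i j => row R x x i s j with hn
    set κ : ℤ := s.1 - s.2 with hκ
    have he : ∀ i j, |κ * (x i * x j) - R * n i j| < (T : ℤ) := by
      intro i j
      have := (hrow i j).1
      rw [show s.1 * (x i * x j) - s.2 * (x i * x j) = κ * (x i * x j) by rw [hκ]; ring] at this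
      exact this
    have hsym : ∀ i j, n i j = n j i := fun i j => (hrow i j).2
    have hom : ∀ m i j, x i * n m j - x j * n m i = 0 := by
      intro m
      apply DIAG_kill hF.gen
      intro i j
      have h2 : (R : ℝ) * |((x i * n m j - x j * n m i : ℤ) : ℝ)| < R * (2 * B / M) := by
        have h3 : (R : ℝ) * |((x i * n m j - x j * n m i : ℤ) : ℝ)| =
            |(x j : ℝ) * ((κ * (x m * x i) - R * n m i : ℤ) : ℝ) -
              (x i : ℝ) * ((κ * (x m * x j) - R * n m j : ℤ) : ℝ)| := by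
          have h33 : (R : ℝ) * |((x i * n m j - x j * n m i : ℤ) : ℝ)| =
              |(R : ℝ) * ((x i * n m j - x j * n m i : ℤ) : ℝ)| := by
            rw [abs_mul, abs_of_pos hR']
          rw [h33]
          congr 1
          push_cast
          ring
        have h4 : |((κ * (x m * x i) - R * n m i : ℤ) : ℝ)| < T := by
          rw [← Int.cast_abs]
          exact_mod_cast he m i
        have h5 : |((κ * (x m * x j) - R * n m j : ℤ) : ℝ)| < T := by
          rw [← Int.cast_abs]
          exact_mod_cast he m j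
        rw [h3]
        calc |(x j : ℝ) * ((κ * (x m * x i) - R * n m i : ℤ) : ℝ) -
              (x i : ℝ) * ((κ * (x m * x j) - R * n m j : ℤ) : ℝ)|
            ≤ |(x j : ℝ) * ((κ * (x m * x i) - R * n m i : ℤ) : ℝ)| +
              |(x i : ℝ) * ((κ * (x m * x j) - R * n m j : ℤ) : ℝ)| := abs_sub _ _
          _ ≤ B * |((κ * (x m * x i) - R * n m i : ℤ) : ℝ)| +
              B * |((κ * (x m * x j) - R * n m j : ℤ) : ℝ)| := by
              rw [abs_mul, abs_mul]
              exact add_le_add (mul_le_mul_of_nonneg_right (hF.bd j) (abs_nonneg _))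
                (mul_le_mul_of_nonneg_right (hF.bd i) (abs_nonneg _))
          _ < B * T + B * T :=
              add_lt_add (mul_lt_mul_of_pos_left h4 hB0) (mul_lt_mul_of_pos_left h5 hB0)
          _ = R * (2 * B / M) := by
              rw [← hTM]
              field_simp
              ring
      have h3 := lt_of_mul_lt_mul_left h2 hR'.le
      have h4 : |((x i * n m j - x j * n m i : ℤ) : ℝ)| ≤ K₀ := h3.le.trans hK
      rw [← Int.cast_abs] at h4
      exact_mod_cast h4
    set p : ℤ := u * (u * n 0 0 + v * n 0 1) + v * (u * n 1 0 + v * n 1 1) with hp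
    refine ⟨p, ?_⟩
    have h00 : n 0 0 = p * (x 0) ^ 2 := by
      have e1 := hom 0 0 1
      have e2 := hom 1 0 1
      have e3 := hsym 0 1
      rw [hp]
      -- x₀ n₀₁ = x₁ n₀₀ and x₀ n₁₁ = x₁ n₁₀
      have f1 : x 0 * n 0 1 = x 1 * n 0 0 := by linarith
      have f2 : x 0 * n 1 1 = x 1 * n 1 0 := by linarith
      have f3 : n 1 0 = n 0 1 := e3.symm
      have g1 : (u * n 0 0 + v * n 0 1) * x 0 = n 0 0 := by
        have : (u * n 0 0 + v * n 0 1) * x 0 = n 0 0 * (u * x 0 + v * x 1) := by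
          linear_combination v * f1
        rw [this, huv, mul_one]
      have g2 : (u * n 1 0 + v * n 1 1) * x 0 = n 1 0 := by
        have : (u * n 1 0 + v * n 1 1) * x 0 = n 1 0 * (u * x 0 + v * x 1) := by
          linear_combination v * f2
        rw [this, huv, mul_one]
      have : (u * (u * n 0 0 + v * n 0 1) + v * (u * n 1 0 + v * n 1 1)) * x 0 ^ 2 =
          (u * ((u * n 0 0 + v * n 0 1) * x 0) + v * ((u * n 1 0 + v * n 1 1) * x 0)) * x 0 := by
        ring
      rw [this, g1, g2, f3, g1]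
    have h2 := he 0 0
    rw [h00] at h2
    have h3 : κ * (x 0 * x 0) - R * (p * (x 0) ^ 2) = (κ - R * p) * (x 0) ^ 2 := by ring
    rw [h3, abs_mul, abs_of_nonneg (sq_nonneg (x 0))] at h2
    exact h2
  choose! p hp using key
  -- counting
  set Dt : Finset ℤ := (Finset.Icc (-(T : ℤ)) T).filter (fun t => |t| * (x 0) ^ 2 < (T : ℤ)) with hDt
  have hinj : (Sol R T x x).card ≤ ((Finset.Ico (0 : ℤ) R) ×ˢ Dt).card := by
    apply Finset.card_le_card_of_injOn (fun s => (s.2, s.1 - s.2 - R * p s))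
    · intro s hs
      have hs' : s ∈ Sol R T x x := hs
      have h2 := hp s hs'
      have h3 : s ∈ Finset.Ico (0 : ℤ) R ×ˢ Finset.Ico (0 : ℤ) R := by
        unfold Sol at hs'
        exact (Finset.mem_filter.mp hs').1
      rw [Finset.mem_product] at h3
      show (s.2, s.1 - s.2 - R * p s) ∈ (((Finset.Ico (0 : ℤ) R) ×ˢ Dt : Finset (ℤ × ℤ)))
      rw [Finset.mem_product]
      refine ⟨h3.2, ?_⟩
      rw [hDt, Finset.mem_filter, Finset.mem_Icc, ← abs_le]
      refine ⟨?_, h2⟩
      have h4 : (1 : ℤ) ≤ (x 0) ^ 2 := by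
        have : 0 < x 0 := by exact_mod_cast hx0
        nlinarith
      have h5 : |s.1 - s.2 - R * p s| * 1 ≤ |s.1 - s.2 - R * p s| * (x 0) ^ 2 :=
        mul_le_mul_of_nonneg_left h4 (abs_nonneg _)
      linarith
    · intro s hs s' hs' heq
      have hs1 : s ∈ Sol R T x x := hs
      have hs2 : s' ∈ Sol R T x x := hs'
      have h3 : s ∈ Finset.Ico (0 : ℤ) R ×ˢ Finset.Ico (0 : ℤ) R := by
        unfold Sol at hs1
        exact (Finset.mem_filter.mp hs1).1
      have h4 : s' ∈ Finset.Ico (0 : ℤ) R ×ˢ Finset.Ico (0 : ℤ) R := by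
        unfold Sol at hs2
        exact (Finset.mem_filter.mp hs2).1
      rw [Finset.mem_product, Finset.mem_Ico, Finset.mem_Ico] at h3 h4
      have h5 : (s.2, s.1 - s.2 - R * p s) = (s'.2, s'.1 - s'.2 - R * p s') := heq
      rw [Prod.mk.injEq] at h5
      have h6 : (R : ℤ) ∣ s.1 - s'.1 := ⟨p s - p s', by linarith [h5.1, h5.2]⟩
      have h7 : |s.1 - s'.1| < (R : ℤ) := by
        rw [abs_lt]
        constructor <;> linarith [h3.1.1, h3.1.2, h4.1.1, h4.1.2]
      have h8 := Int.eq_zero_of_abs_lt_dvd h6 h7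
      apply Prod.ext
      · linarith
      · exact h5.1
  set τ : ℝ := T / (c ^ 2 * B ^ 2) with hτ
  have hτ1 : 1 ≤ τ := by
    rw [hτ, one_le_div (by positivity)]
    have h2 : c ^ 2 * B ^ 2 ≤ 1 * B ^ 2 := mul_le_mul_of_nonneg_right (by nlinarith) (by positivity)
    have h3 : B ^ 2 ≤ B ^ 4 := by
      have : (1 : ℝ) ≤ B ^ 2 := by nlinarith
      nlinarith
    have h4 : (0 : ℝ) ≤ B ^ 4 := by positivity
    linarith
  have hDc : (Dt.card : ℝ) ≤ 3 * τ := by
    have h2 : Dt ⊆ Finset.Icc (-⌊τ⌋) ⌊τ⌋ := by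
      intro t ht
      rw [hDt, Finset.mem_filter] at ht
      rw [Finset.mem_Icc, ← abs_le, Int.le_floor, hτ, le_div_iff₀ (by positivity)]
      have h3 : ((|t| * (x 0) ^ 2 : ℤ) : ℝ) < T := by exact_mod_cast ht.2
      push_cast at h3
      have h4 : c ^ 2 * B ^ 2 ≤ (x 0 : ℝ) ^ 2 := by
        have := hF.lo
        have h5 : 0 ≤ c * B := by positivity
        nlinarith
      have h5 : ((|t| : ℤ) : ℝ) * (c ^ 2 * B ^ 2) ≤ ((|t| : ℤ) : ℝ) * (x 0 : ℝ) ^ 2 :=
        mul_le_mul_of_nonneg_left h4 (by exact_mod_cast abs_nonneg t)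
      push_cast at h5 ⊢
      linarith
    have h3 := Finset.card_le_card h2
    rw [Int.card_Icc] at h3
    have hfl : 0 ≤ ⌊τ⌋ := Int.floor_nonneg.mpr (by linarith)
    have h4 : ((⌊τ⌋ + 1 - -⌊τ⌋).toNat : ℤ) = 2 * ⌊τ⌋ + 1 := by
      rw [Int.toNat_of_nonneg (by omega)]
      ring
    have h5 : (Dt.card : ℤ) ≤ 2 * ⌊τ⌋ + 1 := by
      rw [← h4]
      exact_mod_cast h3
    have h6 : (Dt.card : ℝ) ≤ 2 * (⌊τ⌋ : ℝ) + 1 := by exact_mod_cast h5
    have h7 := Int.floor_le τ
    linarith
  have hcard : ((Sol R T x x).card : ℝ) ≤ R * (3 * τ) := by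
    have h2 : ((Sol R T x x).card : ℝ) ≤ (((Finset.Ico (0 : ℤ) R) ×ˢ Dt).card : ℝ) := by
      exact_mod_cast hinj
    rw [Finset.card_product, Int.card_Ico] at h2
    push_cast at h2
    have h3 : (((R : ℤ) - 0).toNat : ℝ) = R := by simp
    rw [h3] at h2
    exact h2.trans (mul_le_mul_of_nonneg_left hDc hR'.le)
  unfold PP
  rw [div_le_div_iff₀ (by positivity) (by positivity)]
  calc ((Sol R T x x).card : ℝ) * (c ^ 2 * M * B ^ 2)
      ≤ R * (3 * τ) * (c ^ 2 * M * B ^ 2) := mul_le_mul_of_nonneg_right hcard (by positivity)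
    _ = 3 * (R * (T * M)) := by
        rw [hτ]
        field_simp
    _ = 3 * (R : ℝ) ^ 2 := by rw [hTM]; ring

end Pool.HPQ
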