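import Pool.Agent.Work.MP_9fb703_hp.Interface

set_option autoImplicit false

namespace Pool.HPQ

open Finset

/-- Counting by fibres. -/
theorem FIB_fb {α β : Type*} [DecidableEq β] (s : Finset α) (t : Finset β) (f : α → β)
    (H : ∀ a ∈ s, f a ∈ t) (K : ℝ) (hK : ∀ b ∈ t, ((s.filter fun a => f a = b).card : ℝ) ≤ K) :
    (s.card : ℝ) ≤ t.card * K := by
  have h : s.card = ∑ b ∈ t, (s.filter fun a => f a = b).card :=
    Finset.card_eq_sum_card_fiberwise H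
  rw [h]
  push_cast
  calc ∑ b ∈ t, ((s.filter fun a => f a = b).card : ℝ) ≤ ∑ _b ∈ t, K := sum_le_sum hK
    _ = t.card * K := by rw [sum_const, nsmul_eq_mul]

/-- A maximal minor. -/
theorem FIB_De (x y : Fin 6 → ℤ) : ∃ q : Fin 6, (De x y : ℤ) = |om x y 0 q| := by
  obtain ⟨q, -, hq⟩ := Finset.exists_mem_eq_sup (univ : Finset (Fin 6)) univ_nonempty
    (fun q => (om x y 0 q).natAbs)
  refine ⟨q, ?_⟩
  unfold De
  rw [hq, Int.natCast_natAbs]

theorem FIB_cop (a b p₀ p₁ : ℤ) (h : IsCoprime a b) (e : p₀ * b = p₁ * a) :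
    ∃ p : ℤ, p₀ = p * a ∧ p₁ = p * b := by
  obtain ⟨u, v, huv⟩ := h
  refine ⟨p₀ * u + p₁ * v, ?_, ?_⟩
  · have : p₀ = p₀ * (u * a + v * b) := by rw [huv, mul_one]
    have e2 : p₀ * (u * a + v * b) = (p₀ * u) * a + v * (p₀ * b) := by ring
    rw [e2, e] at this
    linear_combination this
  · have : p₁ = p₁ * (u * a + v * b) := by rw [huv, mul_one]
    have e2 : p₁ * (u * a + v * b) = u * (p₁ * a) + (p₁ * v) * b := by ring
    rw [e2, ← e] at this
    linear_combination this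

/-- Pairs with rows differing by a multiple of the products. -/
theorem FIB_fibre (h1 : Stmt_LAT2) (h2 : Stmt_ROW) (R T : ℕ) (B c M : ℝ) (x y : Fin 6 → ℤ)
    (hc : 0 < c) (hc1 : c ≤ 1) (hB : 1 ≤ B) (hM : 0 < M) (hR : 0 < R) (hTM : (T : ℝ) * M = R)
    (hT : 2 * B ^ 4 ≤ T) (hx : ∀ i, |(x i : ℝ)| ≤ B) (hy : ∀ i, |(y i : ℝ)| ≤ B)
    (hx0 : c * B ≤ (x 0 : ℝ)) (hy0 : c * B ≤ (y 0 : ℝ)) (hD : 0 < De x y)
    (S : Finset (ℤ × ℤ)) (hS : S ⊆ Sol R T x y)
    (hd : ∀ s ∈ S, ∀ s' ∈ S, ∃ p q : ℤ, ∀ j, row R x y 0 s j - row R x y 0 s' j =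
      p * (x 0 * x j) - q * (y 0 * y j)) :
    (S.card : ℝ) ≤ 60 * T ^ 2 / (c ^ 2 * B ^ 2 * De x y) := by
  classical
  have hB0 : 0 < B := by linarith
  have hcB : 0 < c * B := mul_pos hc hB0
  have hx0p : (0 : ℝ) < x 0 := by linarith
  have hy0p : (0 : ℝ) < y 0 := by linarith
  have hDr : (0 : ℝ) < De x y := by exact_mod_cast hD
  rcases S.eq_empty_or_nonempty with he | ⟨t, ht⟩
  · rw [he, card_empty, Nat.cast_zero]; positivity
  obtain ⟨q, hq⟩ := FIB_De x y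
  have hq' : (De x y : ℝ) = |(om x y 0 q : ℝ)| := by exact_mod_cast hq
  have hqne : om x y 0 q ≠ 0 := by
    intro h
    rw [h, abs_zero] at hq
    omega
  choose! P P' hP using fun s (hs : s ∈ S) => hd s hs t ht
  set φ : ℤ × ℤ → ℤ × ℤ := fun s => (s.1 - t.1 - R * P s, s.2 - t.2 - R * P' s) with hφ
  have hmem : ∀ s ∈ S, 0 ≤ s.1 ∧ s.1 < R ∧ 0 ≤ s.2 ∧ s.2 < R := by
    intro s hs
    have := (Finset.mem_filter.mp (hS hs)).1
    rw [Finset.mem_product, Finset.mem_Ico, Finset.mem_Ico] at this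
    exact ⟨this.1.1, this.1.2, this.2.1, this.2.2⟩
  have hinj : Set.InjOn φ S := by
    intro s hs s' hs' h
    simp only [hφ, Prod.mk.injEq] at h
    obtain ⟨a1, a2, a3, a4⟩ := hmem s hs
    obtain ⟨b1, b2, b3, b4⟩ := hmem s' hs'
    have key : ∀ a b m n : ℤ, 0 ≤ a → a < R → 0 ≤ b → b < R → a - R * m = b - R * n → a = b := by
      intro a b m n h1 h2 h3 h4 h5
      have h6 : a - b = R * (m - n) := by linear_combination h5
      have h7 : |a - b| < R := by rw [abs_lt]; constructor <;> linarith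
      have h8 : (R : ℤ) ∣ a - b := ⟨_, h6⟩
      have := Int.eq_zero_of_abs_lt_dvd h8 h7
      linarith
    have e1 := key s.1 s'.1 (P s) (P s') a1 a2 b1 b2 (by linarith [h.1])
    have e2 := key s.2 s'.2 (P' s) (P' s') a3 a4 b3 b4 (by linarith [h.2])
    exact Prod.ext e1 e2
  have hcardφ : (S.image φ).card = S.card := Finset.card_image_of_injOn hinj
  have hbound : ∀ s ∈ S, ∀ j, |(s.1 - t.1 - R * P s) * (x 0 * x j) -
      (s.2 - t.2 - R * P' s) * (y 0 * y j)| < 2 * (T : ℤ) := by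
    intro s hs j
    have e1 := (h2 R T x y hR s (hS hs) 0 j).1
    have e2 := (h2 R T x y hR t (hS ht) 0 j).1
    have e3 := hP s hs j
    have e4 : (s.1 - t.1 - R * P s) * (x 0 * x j) - (s.2 - t.2 - R * P' s) * (y 0 * y j) =
        (s.1 * (x 0 * x j) - s.2 * (y 0 * y j) - R * row R x y 0 s j) -
        (t.1 * (x 0 * x j) - t.2 * (y 0 * y j) - R * row R x y 0 t j) := by
      linear_combination (R : ℤ) * e3
    rw [e4]
    refine lt_of_le_of_lt (abs_sub _ _) ?_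
    linarith
  have hB4 : B ^ 2 ≤ B ^ 4 := pow_le_pow_right₀ hB (by norm_num)
  have hvb : ∀ j, |((y 0 * y j : ℤ) : ℝ)| ≤ 2 * T := by
    intro j
    push_cast
    rw [abs_mul]
    have : |(y 0 : ℝ)| * |(y j : ℝ)| ≤ B * B :=
      mul_le_mul (hy 0) (hy j) (abs_nonneg _) hB0.le
    nlinarith
  have hdet : x 0 * x 0 * (y 0 * y q) - x 0 * x q * (y 0 * y 0) = x 0 * y 0 * om x y 0 q := by
    unfold om; ring
  have hx0z : x 0 ≠ 0 := by
    intro h; rw [h] at hx0p; simp at hx0p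
  have hy0z : y 0 ≠ 0 := by
    intro h; rw [h] at hy0p; simp at hy0p
  have hdabs : |((x 0 * x 0 * (y 0 * y q) - x 0 * x q * (y 0 * y 0) : ℤ) : ℝ)| =
      x 0 * y 0 * De x y := by
    rw [hdet]
    push_cast
    rw [abs_mul, abs_mul, abs_of_pos hx0p, abs_of_pos hy0p, hq']
  have hDB : (De x y : ℝ) ≤ 2 * B ^ 2 := by
    rw [hq']
    unfold om
    push_cast
    refine (abs_sub _ _).trans ?_
    rw [abs_mul, abs_mul]
    have a1 : |(x 0 : ℝ)| * |(y q : ℝ)| ≤ B * B := mul_le_mul (hx 0) (hy q) (abs_nonneg _) hB0.le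
    have a2 : |(x q : ℝ)| * |(y 0 : ℝ)| ≤ B * B := mul_le_mul (hx q) (hy 0) (abs_nonneg _) hB0.le
    linarith
  have hx0B : (x 0 : ℝ) ≤ B := (le_abs_self _).trans (hx 0)
  have hy0B : (y 0 : ℝ) ≤ B := (le_abs_self _).trans (hy 0)
  have hxy : (x 0 : ℝ) * y 0 ≤ B * B := mul_le_mul hx0B hy0B hy0p.le hB0.le
  have hdle : (x 0 : ℝ) * y 0 * De x y ≤ 2 * T := by
    have : (x 0 : ℝ) * y 0 * De x y ≤ (B * B) * (2 * B ^ 2) :=
      mul_le_mul hxy hDB hDr.le (by positivity)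
    nlinarith
  have hL := h1 (x 0 * x 0) (y 0 * y 0) (x 0 * x q) (y 0 * y q) (2 * T)
    (by rw [hdet]; exact mul_ne_zero (mul_ne_zero hx0z hy0z) hqne)
    (by rw [hdabs]; exact hdle) (hvb 0) (hvb q) (S.image φ) (by
      intro p hp
      obtain ⟨s, hs, rfl⟩ := Finset.mem_image.mp hp
      constructor
      · have := hbound s hs 0
        simp only [hφ]
        have e : x 0 * x 0 * (s.1 - t.1 - R * P s) - y 0 * y 0 * (s.2 - t.2 - R * P' s) =
          (s.1 - t.1 - R * P s) * (x 0 * x 0) - (s.2 - t.2 - R * P' s) * (y 0 * y 0) := by ring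
        rw [e]
        exact_mod_cast this
      · have := hbound s hs q
        simp only [hφ]
        have e : x 0 * x q * (s.1 - t.1 - R * P s) - y 0 * y q * (s.2 - t.2 - R * P' s) =
          (s.1 - t.1 - R * P s) * (x 0 * x q) - (s.2 - t.2 - R * P' s) * (y 0 * y q) := by ring
        rw [e]
        exact_mod_cast this)
  rw [hcardφ, hdabs] at hL
  refine hL.trans ?_
  have e : 15 * (2 * (T : ℝ)) ^ 2 = 60 * T ^ 2 := by ring
  rw [e]
  have hcc : (c * B) * (c * B) ≤ (x 0 : ℝ) * y 0 := mul_le_mul hx0 hy0 hcB.le hx0p.le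
  refine div_le_div_of_nonneg_left (by positivity) (by positivity) ?_
  refine mul_le_mul_of_nonneg_right ?_ hDr.le
  calc c ^ 2 * B ^ 2 = (c * B) * (c * B) := by ring
    _ ≤ _ := hcc

/-- One class. -/
theorem FIB_class (h1 : Stmt_LAT2) (h2 : Stmt_ROW) (R T : ℕ) (B c M : ℝ) (x y : Fin 6 → ℤ)
    (hc : 0 < c) (hc1 : c ≤ 1) (hB : 1 ≤ B) (hM : 0 < M) (hR : 0 < R) (hTM : (T : ℝ) * M = R)
    (hT : 2 * B ^ 4 ≤ T) (hx : ∀ i, |(x i : ℝ)| ≤ B) (hy : ∀ i, |(y i : ℝ)| ≤ B)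
    (hx0 : c * B ≤ (x 0 : ℝ)) (hy0 : c * B ≤ (y 0 : ℝ))
    (hcx : IsCoprime (x 0) (x 1)) (hcy : IsCoprime (y 0) (y 1)) (hD : 0 < De x y)
    (S : Finset (ℤ × ℤ)) (hS : S ⊆ Sol R T x y)
    (hd : ∀ s ∈ S, ∀ s' ∈ S,
      (∃ p q : ℤ, ∀ j, row R x y 0 s j - row R x y 0 s' j = p * x j - q * y j) ∧
      (∃ p q : ℤ, ∀ j, row R x y 1 s j - row R x y 1 s' j = p * x j - q * y j)) :
    (S.card : ℝ) ≤ (1 + 16 * B ^ 2 / (M * De x y)) * (60 * T ^ 2 / (c ^ 2 * B ^ 2 * De x y)) := by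
  classical
  have hB0 : 0 < B := by linarith
  have hDr : (0 : ℝ) < De x y := by exact_mod_cast hD
  have hRr : (0 : ℝ) < R := by exact_mod_cast hR
  have hTr : (0 : ℝ) < T := by
    by_contra h
    have h0 : (T : ℝ) = 0 := le_antisymm (not_lt.mp h) (Nat.cast_nonneg _)
    rw [h0, zero_mul] at hTM
    linarith
  rcases S.eq_empty_or_nonempty with he | ⟨t, ht⟩
  · rw [he, card_empty, Nat.cast_zero]; positivity
  obtain ⟨q, hq⟩ := FIB_De x y
  have hq' : (De x y : ℝ) = |(om x y 0 q : ℝ)| := by exact_mod_cast hq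
  choose! P P' hP using fun s (hs : s ∈ S) => (hd s hs t ht).1
  choose! Q Q' hQ using fun s (hs : s ∈ S) => (hd s hs t ht).2
  set F : ℤ × ℤ → ℤ := fun s => P s * x 1 - Q s * x 0 with hF
  have hsym : ∀ s ∈ S, F s = P' s * y 1 - Q' s * y 0 := by
    intro s hs
    have e1 := hP s hs 1
    have e2 := hQ s hs 0
    have e3 := (h2 R T x y hR s (hS hs) 0 1).2
    have e4 := (h2 R T x y hR t (hS ht) 0 1).2
    simp only [hF]
    linear_combination -e1 + e2 + e3 - e4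
  -- the errors
  have herr : ∀ (i : Fin 6) (s : ℤ × ℤ) (p p' : ℤ), s ∈ S →
      (∀ j, row R x y i s j - row R x y i t j = p * x j - p' * y j) →
      |(((s.1 - t.1) * x i - R * p : ℤ) : ℝ)| * De x y ≤ 4 * B * T := by
    intro i s p p' hs hp
    have hb : ∀ j, |((s.1 - t.1) * x i - R * p) * x j - ((s.2 - t.2) * y i - R * p') * y j| <
        2 * (T : ℤ) := by
      intro j
      have e1 := (h2 R T x y hR s (hS hs) i j).1
      have e2 := (h2 R T x y hR t (hS ht) i j).1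
      have e3 := hp j
      have e4 : ((s.1 - t.1) * x i - R * p) * x j - ((s.2 - t.2) * y i - R * p') * y j =
          (s.1 * (x i * x j) - s.2 * (y i * y j) - R * row R x y i s j) -
          (t.1 * (x i * x j) - t.2 * (y i * y j) - R * row R x y i t j) := by
        linear_combination (R : ℤ) * e3
      rw [e4]
      refine lt_of_le_of_lt (abs_sub _ _) ?_
      linarith
    set e : ℤ := (s.1 - t.1) * x i - R * p with he
    set e' : ℤ := (s.2 - t.2) * y i - R * p' with he'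
    have b0 : |((e * x 0 - e' * y 0 : ℤ) : ℝ)| ≤ 2 * T := by exact_mod_cast (hb 0).le
    have bq : |((e * x q - e' * y q : ℤ) : ℝ)| ≤ 2 * T := by exact_mod_cast (hb q).le
    rw [hq', ← abs_mul]
    have e5 : (e : ℝ) * (om x y 0 q : ℝ) = ((e * x 0 - e' * y 0 : ℤ) : ℝ) * y q -
        ((e * x q - e' * y q : ℤ) : ℝ) * y 0 := by
      unfold om; push_cast; ring
    rw [e5]
    refine (abs_sub _ _).trans ?_
    rw [abs_mul, abs_mul]
    have a1 : |((e * x 0 - e' * y 0 : ℤ) : ℝ)| * |(y q : ℝ)| ≤ 2 * T * B :=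
      mul_le_mul b0 (hy q) (abs_nonneg _) (by positivity)
    have a2 : |((e * x q - e' * y q : ℤ) : ℝ)| * |(y 0 : ℝ)| ≤ 2 * T * B :=
      mul_le_mul bq (hy 0) (abs_nonneg _) (by positivity)
    linarith
  set Λ : ℝ := 8 * B ^ 2 / (M * De x y) with hΛ
  have hΛ0 : 0 ≤ Λ := by positivity
  have hFb : ∀ s ∈ S, |(F s : ℝ)| ≤ Λ := by
    intro s hs
    have a0 := herr 0 s (P s) (P' s) hs (hP s hs)
    have a1 := herr 1 s (Q s) (Q' s) hs (hQ s hs)
    rw [hΛ, le_div_iff₀ (by positivity)]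
    have e1 : (R : ℝ) * (F s : ℝ) = (((s.1 - t.1) * x 1 - R * Q s : ℤ) : ℝ) * x 0 -
        (((s.1 - t.1) * x 0 - R * P s : ℤ) : ℝ) * x 1 := by
      simp only [hF]; push_cast; ring
    have e2 : (R : ℝ) * |(F s : ℝ)| ≤ |(((s.1 - t.1) * x 1 - R * Q s : ℤ) : ℝ)| * B +
        |(((s.1 - t.1) * x 0 - R * P s : ℤ) : ℝ)| * B := by
      rw [← abs_of_pos hRr, ← abs_mul, e1]
      refine (abs_sub _ _).trans ?_
      rw [abs_mul, abs_mul]
      exact add_le_add (mul_le_mul_of_nonneg_left (hx 0) (abs_nonneg _))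
        (mul_le_mul_of_nonneg_left (hx 1) (abs_nonneg _))
    have e3 : (T : ℝ) * (|(F s : ℝ)| * (M * De x y)) ≤ T * (8 * B ^ 2) := by
      calc (T : ℝ) * (|(F s : ℝ)| * (M * De x y)) = (T * M) * |(F s : ℝ)| * De x y := by ring
        _ = (R * |(F s : ℝ)|) * De x y := by rw [hTM]
        _ ≤ (|(((s.1 - t.1) * x 1 - R * Q s : ℤ) : ℝ)| * B +
            |(((s.1 - t.1) * x 0 - R * P s : ℤ) : ℝ)| * B) * De x y :=
          mul_le_mul_of_nonneg_right e2 hDr.le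
        _ = B * (|(((s.1 - t.1) * x 1 - R * Q s : ℤ) : ℝ)| * De x y +
            |(((s.1 - t.1) * x 0 - R * P s : ℤ) : ℝ)| * De x y) := by ring
        _ ≤ B * (4 * B * T + 4 * B * T) :=
          mul_le_mul_of_nonneg_left (add_le_add a1 a0) hB0.le
        _ = T * (8 * B ^ 2) := by ring
    exact le_of_mul_le_mul_left e3 hTr
  have hmaps : ∀ s ∈ S, F s ∈ Finset.Icc (-(⌊Λ⌋₊ : ℤ)) ⌊Λ⌋₊ := by
    intro s hs
    rw [Finset.mem_Icc, ← abs_le, Int.abs_eq_natAbs]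
    have : ((F s).natAbs : ℝ) ≤ Λ := by
      rw [Nat.cast_natAbs, Int.cast_abs]; exact hFb s hs
    exact_mod_cast Nat.le_floor this
  have hmain := FIB_fb S (Finset.Icc (-(⌊Λ⌋₊ : ℤ)) ⌊Λ⌋₊) F hmaps
    (60 * T ^ 2 / (c ^ 2 * B ^ 2 * De x y)) (by
      intro b _
      refine FIB_fibre h1 h2 R T B c M x y hc hc1 hB hM hR hTM hT hx hy hx0 hy0 hD _
        ((Finset.filter_subset _ _).trans hS) ?_
      intro s hs s' hs'
      obtain ⟨hs, hsF⟩ := Finset.mem_filter.mp hs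
      obtain ⟨hs', hsF'⟩ := Finset.mem_filter.mp hs'
      have f1 : (P s - P s') * x 1 = (Q s - Q s') * x 0 := by
        have := hsF.trans hsF'.symm
        simp only [hF] at this
        linear_combination this
      have f2 : (P' s - P' s') * y 1 = (Q' s - Q' s') * y 0 := by
        have := (hsym s hs).symm.trans ((hsF.trans hsF'.symm).trans (hsym s' hs'))
        linear_combination this
      obtain ⟨p, hp, -⟩ := FIB_cop _ _ _ _ hcx f1
      obtain ⟨p', hp', -⟩ := FIB_cop _ _ _ _ hcy f2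
      refine ⟨p, p', fun j => ?_⟩
      have g1 := hP s hs j
      have g2 := hP s' hs' j
      linear_combination g1 - g2 + x j * hp - y j * hp')
  have hcard : ((Finset.Icc (-(⌊Λ⌋₊ : ℤ)) ⌊Λ⌋₊).card : ℝ) ≤ 1 + 16 * B ^ 2 / (M * De x y) := by
    have e1 : (Finset.Icc (-(⌊Λ⌋₊ : ℤ)) ⌊Λ⌋₊).card = 2 * ⌊Λ⌋₊ + 1 := by
      rw [Int.card_Icc]; omega
    rw [e1]
    push_cast
    have e2 := Nat.floor_le hΛ0
    have e3 : 16 * B ^ 2 / (M * De x y) = 2 * Λ := by rw [hΛ]; ring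
    rw [e3]
    linarith
  exact hmain.trans (mul_le_mul_of_nonneg_right hcard (by positivity))

theorem p_FIB (h1 : Stmt_LAT2) (h2 : Stmt_ROW) : Stmt_FIB := by
  classical
  intro R T B c M x y hc hc1 hB hM hR hTM hT hx hy hx0 hy0 hcx hcy hD Nc cl hcl hrow
  have h := FIB_fb (Sol R T x y) (Finset.range Nc) cl
    (fun s hs => Finset.mem_range.mpr (hcl s hs))
    ((1 + 16 * B ^ 2 / (M * De x y)) * (60 * T ^ 2 / (c ^ 2 * B ^ 2 * De x y))) (by
      intro b _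
      refine FIB_class h1 h2 R T B c M x y hc hc1 hB hM hR hTM hT hx hy hx0 hy0 hcx hcy hD _
        (Finset.filter_subset _ _) ?_
      intro s hs s' hs'
      obtain ⟨hs, e⟩ := Finset.mem_filter.mp hs
      obtain ⟨hs', e'⟩ := Finset.mem_filter.mp hs'
      exact hrow s hs s' hs' (e.trans e'.symm))
  rw [Finset.card_range] at h
  rw [mul_assoc]
  exact h

end Pool.HPQ
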