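import Pool.Agent.Work.MP_9fb703_hp.Interface

/-! # Block FIN: almost all pairs satisfy the Hasse principle, from the blocks -/

set_option autoImplicit false

namespace Pool.HPQ

open Finset

theorem fin_Q_rd (R : ℕ) (a : Idx → ℤ) (x : Fin 6 → ℤ) :
    Q (rd R a) (rd R x) = ((Q a x : ℤ) : ZMod R) := by
  simp [Q, rd]

theorem fin_Q_le (A : ℕ) (a : Idx → ℤ) (ha : a ∈ Box A) (x : Fin 6 → ℤ) (B : ℕ)
    (hx : ∀ i, |x i| ≤ (B : ℤ)) : |Q a x| ≤ 36 * A * B ^ 2 := by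
  unfold Q
  have hcard : Fintype.card Idx ≤ 36 := by
    refine (Fintype.card_subtype_le _).trans ?_
    simp
  have hcard' : (Fintype.card Idx : ℤ) ≤ 36 := by exact_mod_cast hcard
  have ha' : ∀ q, |a q| ≤ (A : ℤ) := by
    intro q
    unfold Box at ha
    rw [Fintype.mem_piFinset] at ha
    have := Finset.mem_Icc.mp (ha q)
    exact abs_le.mpr this
  have hA0 : (0 : ℤ) ≤ A := by positivity
  have hB0 : (0 : ℤ) ≤ B := by positivity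
  calc |∑ q : Idx, a q * (x q.1.1 * x q.1.2)|
      ≤ ∑ q : Idx, |a q * (x q.1.1 * x q.1.2)| := Finset.abs_sum_le_sum_abs _ _
    _ ≤ ∑ q : Idx, (A : ℤ) * (B * B) := by
        apply Finset.sum_le_sum
        intro q _
        rw [abs_mul, abs_mul]
        exact mul_le_mul (ha' q) (mul_le_mul (hx _) (hx _) (abs_nonneg _) hB0)
          (by positivity) hA0
    _ ≤ 36 * A * B ^ 2 := by
        rw [Finset.sum_const, Finset.card_univ, nsmul_eq_mul]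
        have : (0 : ℤ) ≤ (A : ℤ) * (B * B) := by positivity
        nlinarith

theorem fin_Ww_pos (w : ℕ) : 0 < Ww w := by
  unfold Ww
  apply Finset.prod_pos
  intro p hp
  exact pow_pos (Finset.mem_filter.mp hp).2.pos _

theorem fin_dvd_Ww (w g : ℕ) (h1 : 1 ≤ g) (h2 : g ≤ w) : g ∣ Ww w := by
  have hg : g ≠ 0 := by omega
  conv_lhs => rw [← Nat.prod_factorization_pow_eq_self hg]
  rw [Nat.prod_factorization_eq_prod_primeFactors]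
  refine (Finset.prod_dvd_prod_of_dvd (fun p => p ^ g.factorization p) (fun p => p ^ w) ?_).trans ?_
  · intro p hp
    apply pow_dvd_pow
    have : g.factorization p < g := Nat.factorization_lt p hg
    omega
  · unfold Ww
    apply Finset.prod_dvd_prod_of_subset
    intro p hp
    have hpp := Nat.prime_of_mem_primeFactors hp
    have := Nat.le_of_dvd (by omega) (Nat.dvd_of_mem_primeFactors hp)
    rw [Finset.mem_filter, Finset.mem_range]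
    exact ⟨by omega, hpp⟩

/-- The finite set of vectors `r`. -/
noncomputable def finRR (P₀ : ℕ) : Finset (Fin 6 → ℤ) :=
  (Fintype.piFinset fun _ => Finset.Icc (-(2 * P₀ : ℤ)) (2 * P₀)).filter fun r => r 0 = 1

theorem fin_rv_mem (P₀ : ℕ) (t : Fin 6 → ℤ) (s : Fin 6) (ht : Adm P₀ t) :
    rv P₀ t s ∈ finRR P₀ := by
  unfold finRR
  rw [Finset.mem_filter, Fintype.mem_piFinset]
  constructor
  · intro i
    rw [Finset.mem_Icc]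
    have := ht.2 i
    unfold rv
    split_ifs <;> constructor <;> omega
  · unfold rv
    rw [if_neg]
    · simp [ht.1]
    · rintro ⟨h1, h2⟩
      exact h1 h2.symm

theorem fin_n1 (P₀ : ℕ) (r : Fin 6 → ℤ) (hr : r ∈ finRR P₀) : n1 r ≤ 12 * P₀ := by
  unfold finRR at hr
  rw [Finset.mem_filter, Fintype.mem_piFinset] at hr
  unfold n1
  calc ∑ i, (r i).natAbs ≤ ∑ _i : Fin 6, 2 * P₀ := by
        apply Finset.sum_le_sum
        intro i _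
        have := Finset.mem_Icc.mp (hr.1 i)
        omega
    _ = 12 * P₀ := by
        simp
        omega

theorem fin_r0 (P₀ : ℕ) (r : Fin 6 → ℤ) (hr : r ∈ finRR P₀) : r 0 = 1 := by
  unfold finRR at hr
  exact (Finset.mem_filter.mp hr).2

theorem fin_NN (R A B K₀ : ℕ) (r : Fin 6 → ℤ) (c : ℝ) (hc : 0 < c) (hB : 0 < B)
    (hR : 36 * A * B ^ 2 < R) (a b : Idx → ℤ) (ha : a ∈ Box A) (hb : b ∈ Box A)
    (h : ¬ IntSol a b) : NN R (XX r c B K₀) (rd R a) (rd R b) = 0 := by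
  classical
  unfold NN
  apply Finset.sum_eq_zero
  intro x hx
  unfold XX at hx
  rw [Finset.mem_filter, Fintype.mem_piFinset] at hx
  obtain ⟨hx1, hx2, -⟩ := hx
  have hx3 : ∀ i, |x i| ≤ (B : ℤ) := fun i => abs_le.mpr (Finset.mem_Icc.mp (hx1 i))
  rw [if_neg]
  rintro ⟨h1, h2⟩
  rw [fin_Q_rd, ZMod.intCast_zmod_eq_zero_iff_dvd] at h1 h2
  have hR' : ((36 * A * B ^ 2 : ℕ) : ℤ) < (R : ℤ) := by exact_mod_cast hR
  push_cast at hR'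
  have e1 : Q a x = 0 :=
    Int.eq_zero_of_abs_lt_dvd h1 (lt_of_le_of_lt (fin_Q_le A a ha x B hx3) hR')
  have e2 : Q b x = 0 :=
    Int.eq_zero_of_abs_lt_dvd h2 (lt_of_le_of_lt (fin_Q_le A b hb x B hx3) hR')
  apply h
  refine ⟨x, ?_, e1, e2⟩
  rintro rfl
  have : (dt r 0 : ℤ) = 0 := by simp [dt]
  rw [this] at hx2
  have : (0 : ℝ) < c * B := by positivity
  simp at hx2
  linarith

theorem fin_fl_nonneg (R H W : ℕ) [NeZero R] (m : ZMod R) : 0 ≤ fl R H W m := by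
  unfold fl
  split_ifs
  · positivity
  · exact le_rfl

theorem fin_NL (hF : Stmt_FLB2) (R H W m₀ : ℕ) [NeZero R] (hm : 0 < m₀) (hW : 0 < W)
    (hR : R = 2 * m₀ * H) (hWR : W ∣ R) (X F : Finset (Fin 6 → ℤ)) (a b : Idx → ℤ) (hFX : F ⊆ X)
    (h : ∀ x ∈ F, (W : ℤ) ∣ Q a x ∧ (W : ℤ) ∣ Q b x ∧ |Q a x| ≤ (m₀ : ℤ) ∧ |Q b x| ≤ (m₀ : ℤ)) :
    (F.card : ℝ) * (2 * W / (Real.pi ^ 2 * m₀)) ^ 2 ≤ NL R H W X (rd R a) (rd R b) := by
  unfold NL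
  calc (F.card : ℝ) * (2 * W / (Real.pi ^ 2 * m₀)) ^ 2
      = ∑ _x ∈ F, (2 * W / (Real.pi ^ 2 * m₀)) ^ 2 := by rw [Finset.sum_const, nsmul_eq_mul]
    _ ≤ ∑ x ∈ F, fl R H W (Q (rd R a) (rd R x)) * fl R H W (Q (rd R b) (rd R x)) := by
        apply Finset.sum_le_sum
        intro x hx
        obtain ⟨h1, h2, h3, h4⟩ := h x hx
        rw [fin_Q_rd, fin_Q_rd, sq]
        have f1 := hF R H W m₀ (Q a x) hm hW hR hWR h1 h3
        have f2 := hF R H W m₀ (Q b x) hm hW hR hWR h2 h4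
        have : (0 : ℝ) ≤ 2 * W / (Real.pi ^ 2 * m₀) := by positivity
        exact mul_le_mul f1 f2 this (this.trans f1)
    _ ≤ ∑ x ∈ X, fl R H W (Q (rd R a) (rd R x)) * fl R H W (Q (rd R b) (rd R x)) :=
        Finset.sum_le_sum_of_subset_of_nonneg hFX fun x _ _ =>
          mul_nonneg (fin_fl_nonneg _ _ _ _) (fin_fl_nonneg _ _ _ _)

theorem fin_E (η l g μ K s : ℝ) (hη : 0 < η) (hl : 1 ≤ l) (h1 : 5 / η ≤ l) (hg : g ≤ η / 5)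
    (hμ : μ ≤ η / 5) (hK : 5 * l ^ 4 / η ≤ K) (hs : 5 * l ^ 4 / η ≤ s) :
    l ^ 2 + l ^ 4 * (g + μ) + l ^ 8 / K + l ^ 8 / s ≤ l ^ 4 * η := by
  have hl0 : 0 < l := by linarith
  have e1 : l ^ 2 ≤ l ^ 4 * (η / 5) := by
    rw [div_le_iff₀ hη] at h1
    have : 5 ≤ l ^ 2 * η := by nlinarith [mul_pos hl0 hη]
    nlinarith [sq_nonneg l]
  have hpos : 0 < 5 * l ^ 4 / η := by positivity
  have e2 : ∀ K : ℝ, 5 * l ^ 4 / η ≤ K → l ^ 8 / K ≤ l ^ 4 * (η / 5) := by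
    intro K hK
    have hK0 : 0 < K := lt_of_lt_of_le hpos hK
    rw [div_le_iff₀ hK0]
    rw [div_le_iff₀ hη] at hK
    have : l ^ 4 * (5 * l ^ 4) ≤ l ^ 4 * (K * η) := mul_le_mul_of_nonneg_left hK (by positivity)
    nlinarith
  have e3 : l ^ 4 * (g + μ) ≤ l ^ 4 * (η / 5 + η / 5) :=
    mul_le_mul_of_nonneg_left (by linarith) (by positivity)
  have := e2 K hK
  have := e2 s hs
  nlinarith

theorem fin_L (κl κp h lam A W m Fc g : ℝ) (h1 : 0 < κl) (h2 : 0 < κp) (h3 : 0 < h)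
    (h4 : 0 < lam) (h5 : 0 < A) (h6 : 0 < W) (h7 : 0 < m)
    (hm : m ≤ 2 * (h * A * (lam * A) ^ 2)) (hg : κp * W ^ 4 ≤ g)
    (hF : κl * h ^ 2 * g * (lam * A / W) ^ 6 ≤ Fc) :
    κl * κp / Real.pi ^ 4 * lam ^ 2 ≤ Fc * (2 * W / (Real.pi ^ 2 * m)) ^ 2 := by
  have hpi : 0 < Real.pi := Real.pi_pos
  have e1 : κl * h ^ 2 * (κp * W ^ 4) * (lam * A / W) ^ 6 ≤ Fc := by
    refine le_trans ?_ hF
    gcongr
  have e2 : κl * h ^ 2 * (κp * W ^ 4) * (lam * A / W) ^ 6 * (2 * W / (Real.pi ^ 2 * m)) ^ 2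
      = 4 * κl * κp * h ^ 2 * lam ^ 6 * A ^ 6 / (Real.pi ^ 4 * m ^ 2) := by
    field_simp
    ring
  have e3 : κl * κp / Real.pi ^ 4 * lam ^ 2 ≤
      4 * κl * κp * h ^ 2 * lam ^ 6 * A ^ 6 / (Real.pi ^ 4 * m ^ 2) := by
    rw [le_div_iff₀ (by positivity)]
    have e4 : κl * κp / Real.pi ^ 4 * lam ^ 2 * (Real.pi ^ 4 * m ^ 2) =
        κl * κp * lam ^ 2 * m ^ 2 := by
      field_simp
    rw [e4]
    have e5 : m ^ 2 ≤ (2 * (h * A * (lam * A) ^ 2)) ^ 2 := by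
      gcongr
    calc κl * κp * lam ^ 2 * m ^ 2 ≤ κl * κp * lam ^ 2 * (2 * (h * A * (lam * A) ^ 2)) ^ 2 := by
          gcongr
      _ = 4 * κl * κp * h ^ 2 * lam ^ 6 * A ^ 6 := by ring
  calc κl * κp / Real.pi ^ 4 * lam ^ 2 ≤ _ := e3
    _ = _ := e2.symm
    _ ≤ _ := by gcongr

theorem fin_card (S A κ lam Sg C n N c E η ε Nr : ℝ) (hA : 0 < A) (hκ : 0 < κ)
    (hlam : 0 < lam) (hC : 0 < C) (hn : 0 ≤ n) (hnN : n ≤ N) (hN : 0 < N) (hc : 0 < c)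
    (hη : η = ε * κ ^ 2 / (3 * Nr * ((Real.pi ^ 2 / 4) ^ 42 * 2 * (C * (N / c) ^ 10 * N ^ 24))))
    (hε : 0 < ε) (hNr : 0 < Nr)
    (h1 : S * (κ * lam ^ 2) ^ 2 ≤ (Real.pi ^ 2 * A / 2) ^ 42 * (2 * Sg))
    (h2 : Sg ≤ C * (n / c) ^ 10 * n ^ 24 * E) (h3 : E ≤ lam ^ 4 * η) :
    S ≤ ε / (3 * Nr) * (2 * A + 1) ^ 42 := by
  have hpi : 0 < Real.pi := Real.pi_pos
  have hη0 : 0 < η := by rw [hη]; positivity
  have h4 : Sg ≤ C * (N / c) ^ 10 * N ^ 24 * (lam ^ 4 * η) := by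
    refine h2.trans ?_
    calc C * (n / c) ^ 10 * n ^ 24 * E ≤ C * (n / c) ^ 10 * n ^ 24 * (lam ^ 4 * η) := by
          apply mul_le_mul_of_nonneg_left h3
          positivity
      _ ≤ _ := by gcongr
  have h5 : (Real.pi ^ 2 * A / 2) ^ 42 ≤ (Real.pi ^ 2 / 4) ^ 42 * (2 * A + 1) ^ 42 := by
    rw [← mul_pow]
    apply pow_le_pow_left₀ (by positivity)
    have : 0 < Real.pi ^ 2 := by positivity
    nlinarith
  have h6 : S * (κ * lam ^ 2) ^ 2 ≤ (Real.pi ^ 2 / 4) ^ 42 * (2 * A + 1) ^ 42 *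
      (2 * (C * (N / c) ^ 10 * N ^ 24 * (lam ^ 4 * η))) := by
    refine h1.trans ?_
    calc (Real.pi ^ 2 * A / 2) ^ 42 * (2 * Sg)
        ≤ (Real.pi ^ 2 * A / 2) ^ 42 * (2 * (C * (N / c) ^ 10 * N ^ 24 * (lam ^ 4 * η))) := by
          apply mul_le_mul_of_nonneg_left _ (by positivity)
          linarith
      _ ≤ _ := by
          apply mul_le_mul_of_nonneg_right h5
          positivity
  have h7 : (Real.pi ^ 2 / 4) ^ 42 * (2 * A + 1) ^ 42 *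
      (2 * (C * (N / c) ^ 10 * N ^ 24 * (lam ^ 4 * η))) =
      (ε / (3 * Nr) * (2 * A + 1) ^ 42) * (κ * lam ^ 2) ^ 2 := by
    rw [hη]
    have hD : (Real.pi ^ 2 / 4) ^ 42 ≠ 0 := by positivity
    generalize (Real.pi ^ 2 / 4) ^ 42 = D at hD ⊢
    generalize (2 * A + 1) ^ 42 = Y
    have hF : C * (N / c) ^ 10 * N ^ 24 ≠ 0 := by positivity
    generalize C * (N / c) ^ 10 * N ^ 24 = F at hF ⊢
    field_simp
  rw [h7] at h6
  exact le_of_mul_le_mul_right h6 (by positivity)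

theorem p_FIN (hC : Stmt_CHEB) (hT : Stmt_TWI) (hP : Stmt_PADIC) (hR : Stmt_RSNG)
    (hL : Stmt_LOWR) (hF : Stmt_FLB2) : Stmt_MAIN := by
  classical
  intro ε hε
  obtain ⟨C, hC1, hTW⟩ := hT
  obtain ⟨δ, A₁, hδ0, hδ1, hRS⟩ := hR (ε / 3) (by positivity)
  obtain ⟨P₀, κp, w₁, hP0, hκp, hPA⟩ := hP (ε / 3) (by positivity)
  obtain ⟨c, κl, w₂, hc0, hc1, hκl, hLO⟩ := hL P₀ δ hP0 hδ0 hδ1
  have hpi : 0 < Real.pi := Real.pi_pos
  have hC0 : 0 < C := by linarith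
  obtain ⟨N, hNdef⟩ : ∃ N : ℕ, N = 12 * P₀ := ⟨_, rfl⟩
  have hN0 : 0 < N := by omega
  obtain ⟨Nr, hNr⟩ : ∃ Nr : ℝ, Nr = (finRR P₀).card + 1 := ⟨_, rfl⟩
  have hNr0 : 0 < Nr := by rw [hNr]; positivity
  obtain ⟨κ, hκ⟩ : ∃ κ : ℝ, κ = κl * κp / Real.pi ^ 4 := ⟨_, rfl⟩
  have hκ0 : 0 < κ := by rw [hκ]; positivity
  obtain ⟨η, hη⟩ : ∃ η : ℝ, η = ε * κ ^ 2 / (3 * Nr * ((Real.pi ^ 2 / 4) ^ 42 * 2 *
    (C * ((N : ℝ) / c) ^ 10 * (N : ℝ) ^ 24))) := ⟨_, rfl⟩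
  have hη0 : 0 < η := by rw [hη]; positivity
  obtain ⟨w, hw⟩ : ∃ w : ℕ, w = w₁ + w₂ + ⌈5 / η⌉₊ + 1 := ⟨_, rfl⟩
  obtain ⟨h, hh⟩ : ∃ h : ℝ, h = min 1 (η / 10) := ⟨_, rfl⟩
  have hh0 : 0 < h := by rw [hh]; exact lt_min one_pos (by positivity)
  have hh1 : h ≤ 1 := by rw [hh]; exact min_le_left _ _
  have hh2 : h ≤ η / 10 := by rw [hh]; exact min_le_right _ _
  obtain ⟨lam, hlam⟩ : ∃ lam : ℕ, lam = ⌈5 / η⌉₊ + 2 := ⟨_, rfl⟩
  have hlam1 : 5 / η ≤ lam := by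
    have := Nat.le_ceil (5 / η)
    rw [hlam]
    push_cast
    linarith
  have hlam0 : (0 : ℝ) < lam := lt_of_lt_of_le (by positivity) hlam1
  have hlam2 : (1 : ℝ) ≤ lam := by
    have : 1 ≤ lam := by omega
    exact_mod_cast this
  obtain ⟨K₁, hK₁⟩ : ∃ K₁ : ℝ, K₁ = 1 + 5 * (lam : ℝ) ^ 4 / η := ⟨_, rfl⟩
  have hK₁0 : 0 ≤ 5 * (lam : ℝ) ^ 4 / η := by positivity
  obtain ⟨K₀, hK₀⟩ : ∃ K₀ : ℕ, K₀ = ⌈2 * K₁ * N / c⌉₊ + ⌈24 * ((N : ℝ) ^ 3 * lam / 2) ^ 2⌉₊ :=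
    ⟨_, rfl⟩
  obtain ⟨A₂, hPA2⟩ := hPA w (by omega)
  obtain ⟨A₃, hLO3⟩ := hLO w h lam K₀ (by omega) hh0 hh1 (by omega)
  refine ⟨A₁ + A₂ + A₃ + 1 + ⌈((Ww w : ℝ) + 1) / h⌉₊ + ⌈8 * (N : ℝ) ^ 3 / c⌉₊ +
    ⌈(5 * (lam : ℝ) ^ 4 / η) ^ 2⌉₊, ?_⟩
  intro A hA
  have hA0 : 0 < A := by omega
  have hA0' : (0 : ℝ) < A := by exact_mod_cast hA0
  have hA1 : (1 : ℝ) ≤ A := by exact_mod_cast hA0
  have hAa : ((Ww w : ℝ) + 1) / h ≤ A :=
    (Nat.le_ceil _).trans (by exact_mod_cast (by omega : ⌈((Ww w : ℝ) + 1) / h⌉₊ ≤ A))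
  have hAb : 8 * (N : ℝ) ^ 3 / c ≤ A :=
    (Nat.le_ceil _).trans (by exact_mod_cast (by omega : ⌈8 * (N : ℝ) ^ 3 / c⌉₊ ≤ A))
  have hAc : (5 * (lam : ℝ) ^ 4 / η) ^ 2 ≤ A :=
    (Nat.le_ceil _).trans (by exact_mod_cast (by omega : ⌈(5 * (lam : ℝ) ^ 4 / η) ^ 2⌉₊ ≤ A))
  obtain ⟨B, hB⟩ : ∃ B : ℕ, B = lam * A := ⟨_, rfl⟩
  have hBc : (B : ℝ) = lam * A := by rw [hB]; push_cast; ring
  have hB0 : 0 < B := by rw [hB]; exact Nat.mul_pos (by omega) hA0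
  have hAB : (A : ℝ) ≤ B := by rw [hBc]; nlinarith
  have hW0 : 0 < Ww w := fin_Ww_pos w
  obtain ⟨W, hW⟩ : ∃ W : ℕ, W = Ww w := ⟨_, rfl⟩
  rw [← hW] at hW0
  have hW0' : (0 : ℝ) < W := by exact_mod_cast hW0
  obtain ⟨m₀, hm₀⟩ : ∃ m₀ : ℕ, m₀ = ⌈h * A * ((lam : ℝ) * A) ^ 2⌉₊ := ⟨_, rfl⟩
  have hhA : (W : ℝ) + 1 ≤ h * A := by
    rw [div_le_iff₀ hh0] at hAa
    rw [hW]
    linarith
  have hhAB : (W : ℝ) + 1 ≤ h * A * ((lam : ℝ) * A) ^ 2 := by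
    have h1 : (1 : ℝ) ≤ (lam : ℝ) * A := by nlinarith
    have h2 : (1 : ℝ) ≤ ((lam : ℝ) * A) ^ 2 := one_le_pow₀ h1
    have h3 : 0 < h * A := by positivity
    nlinarith
  have hm1 : h * A * ((lam : ℝ) * A) ^ 2 ≤ m₀ := by rw [hm₀]; exact Nat.le_ceil _
  have hm2 : (m₀ : ℝ) ≤ 2 * (h * A * ((lam : ℝ) * A) ^ 2) := by
    have := Nat.ceil_lt_add_one (by positivity : (0 : ℝ) ≤ h * A * ((lam : ℝ) * A) ^ 2)
    rw [← hm₀] at this
    linarith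
  have hWm : W ≤ m₀ := by
    have : (W : ℝ) ≤ m₀ := by linarith
    exact_mod_cast this
  have hm0 : 0 < m₀ := by omega
  have hm0' : (0 : ℝ) < m₀ := by exact_mod_cast hm0
  obtain ⟨Z, hZ⟩ : ∃ Z : ℕ, Z = 36 * (N * B) ^ 4 := ⟨_, rfl⟩
  have hZ0 : 0 < Z := by rw [hZ]; positivity
  obtain ⟨T, hTd⟩ : ∃ T : ℕ, T = m₀ * W * Z := ⟨_, rfl⟩
  obtain ⟨H, hHd⟩ : ∃ H : ℕ, H = A * W * Z := ⟨_, rfl⟩
  obtain ⟨R, hRd⟩ : ∃ R : ℕ, R = 2 * A * T := ⟨_, rfl⟩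
  have hT0 : 0 < T := by rw [hTd]; positivity
  have hH0 : 0 < H := by rw [hHd]; positivity
  have hR0 : 0 < R := by rw [hRd]; positivity
  have : NeZero R := ⟨hR0.ne'⟩
  have hRH : R = 2 * m₀ * H := by rw [hRd, hTd, hHd]; ring
  have hWR : W ∣ R := by rw [hRd, hTd]; exact ⟨2 * A * (m₀ * Z), by ring⟩
  have hHW : 2 * H * W ≤ R := by
    rw [hRH]
    calc 2 * H * W ≤ 2 * H * m₀ := Nat.mul_le_mul_left _ hWm
      _ = 2 * m₀ * H := by ring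
  have hZT : Z ≤ T := by
    rw [hTd]
    exact Nat.le_mul_of_pos_left _ (by positivity)
  have hNB : 1 ≤ (N * B) ^ 4 := Nat.one_le_pow _ _ (by positivity)
  have hT2 : 2 ≤ T := by omega
  have hR36 : 36 * A * B ^ 2 < R := by
    have h1 : B ^ 2 ≤ (N * B) ^ 4 := by
      calc B ^ 2 ≤ (N * B) ^ 2 := Nat.pow_le_pow_left (Nat.le_mul_of_pos_left _ hN0) 2
        _ ≤ (N * B) ^ 4 := Nat.pow_le_pow_right (by positivity) (by norm_num)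
    calc 36 * A * B ^ 2 ≤ 36 * A * (N * B) ^ 4 := Nat.mul_le_mul_left _ h1
      _ = A * Z := by rw [hZ]; ring
      _ ≤ A * T := Nat.mul_le_mul_left _ hZT
      _ < R := by
        rw [hRd]
        have : 0 < A * T := by positivity
        linarith
  have hE : ((B : ℝ) / A) ^ 2 + ((B : ℝ) / A) ^ 4 * (1 / (w : ℝ) + m₀ / (A * (B : ℝ) ^ 2)) +
        ((B : ℝ) / A) ^ 8 / K₁ + ((B : ℝ) / A) ^ 8 / √B ≤ (lam : ℝ) ^ 4 * η := by
    have hBA : (B : ℝ) / A = lam := by rw [hBc]; field_simp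
    rw [hBA]
    refine fin_E η lam _ _ K₁ _ hη0 hlam2 hlam1 ?_ ?_ ?_ ?_
    · have hw' : 5 / η ≤ w := by
        have := Nat.le_ceil (5 / η)
        rw [hw]
        push_cast
        have : (0 : ℝ) ≤ w₁ := by positivity
        have : (0 : ℝ) ≤ w₂ := by positivity
        linarith
      have hw0 : (0 : ℝ) < w := lt_of_lt_of_le (by positivity) hw'
      rw [div_le_iff₀ hη0] at hw'
      rw [div_le_iff₀ hw0]
      linarith
    · rw [div_le_iff₀ (by rw [hBc]; positivity), hBc]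
      calc (m₀ : ℝ) ≤ 2 * (h * A * ((lam : ℝ) * A) ^ 2) := hm2
        _ ≤ 2 * (η / 10 * A * ((lam : ℝ) * A) ^ 2) := by gcongr
        _ = _ := by ring
    · rw [hK₁]
      linarith
    · apply Real.le_sqrt_of_sq_le
      linarith
  have hSr : ∀ r ∈ finRR P₀, ∃ S : Finset ((Idx → ℤ) × (Idx → ℤ)),
      (∀ z ∈ Box A ×ˢ Box A, NN R (XX r c B K₀) (rd R z.1) (rd R z.2) = 0 →
        κ * (lam : ℝ) ^ 2 ≤ NL R H W (XX r c B K₀) (rd R z.1) (rd R z.2) → z ∈ S) ∧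
      (S.card : ℝ) ≤ ε / (3 * Nr) * (2 * (A : ℝ) + 1) ^ 42 := by
    intro r hr
    have hr1 : (n1 r : ℝ) ≤ N := by
      rw [hNdef]
      exact_mod_cast fin_n1 P₀ r hr
    have hr1' : n1 r ≤ N := by exact_mod_cast hr1
    have hCr := hC R T H W A hA0 hRd hT2 hH0 hW0 hWR hHW (XX r c B K₀) (κ * (lam : ℝ) ^ 2)
      (by positivity)
    have key : ∀ S : Finset ((Idx → ℤ) × (Idx → ℤ)),
        (S.card : ℝ) * (κ * (lam : ℝ) ^ 2) ^ 2 ≤ (Real.pi ^ 2 * A / 2) ^ 42 *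
          (2 * ∑ x ∈ XX r c B K₀, ∑ y ∈ XX r c B K₀, PP R T x y * PS R T H W x y) →
        (S.card : ℝ) ≤ ε / (3 * Nr) * (2 * (A : ℝ) + 1) ^ 42 := by
      intro S hSS
      refine fin_card _ A κ lam _ C (n1 r) N c _ η ε Nr hA0' hκ0 hlam0 hC0 (Nat.cast_nonneg _) hr1
        (by exact_mod_cast hN0) hc0 hη hε hNr0 hSS
        (hTW R T H W m₀ K₀ w A B K₁ c r (fin_r0 P₀ r hr) hc0 hc1 hA0 ?_ hRd hRH hH0 hW0 hWR hHW
          (by omega) ?_ ?_ ?_ ?_ ?_ ?_) hE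
      · rw [hB]
        exact Nat.mul_le_mul_right _ (by omega)
      · intro g hg1 hg2
        rw [hW]
        exact fin_dvd_Ww w g hg1 hg2
      · refine le_trans ?_ hAb
        gcongr
      · calc 2 * (n1 r * B) ^ 4 ≤ 36 * (N * B) ^ 4 := by
              apply Nat.mul_le_mul (by norm_num)
              exact Nat.pow_le_pow_left (Nat.mul_le_mul_right _ hr1') 4
          _ = Z := hZ.symm
          _ ≤ T := hZT
      · rw [hK₁]; linarith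
      · have h1 : 2 * K₁ * N / c ≤ ⌈2 * K₁ * N / c⌉₊ := Nat.le_ceil _
        have h2 : 2 * K₁ * n1 r / c ≤ 2 * K₁ * N / c := by
          have : 0 ≤ K₁ := by rw [hK₁]; linarith
          gcongr
        rw [hK₀]
        push_cast
        have : (0 : ℝ) ≤ ⌈24 * ((N : ℝ) ^ 3 * lam / 2) ^ 2⌉₊ := Nat.cast_nonneg _
        linarith
      · have h1 : 24 * ((N : ℝ) ^ 3 * lam / 2) ^ 2 ≤ ⌈24 * ((N : ℝ) ^ 3 * lam / 2) ^ 2⌉₊ :=
          Nat.le_ceil _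
        have h2 : (n1 r : ℝ) ^ 3 * B / (2 * A) = (n1 r : ℝ) ^ 3 * lam / 2 := by
          rw [hBc]
          field_simp
        have h3 : 24 * ((n1 r : ℝ) ^ 3 * B / (2 * A)) ^ 2 ≤ 24 * ((N : ℝ) ^ 3 * lam / 2) ^ 2 := by
          rw [h2]
          gcongr
        rw [hK₀]
        push_cast
        have : (0 : ℝ) ≤ ⌈2 * K₁ * N / c⌉₊ := Nat.cast_nonneg _
        linarith
    refine ⟨_, ?_, key _ hCr⟩
    intro z hz h1 h2
    exact Finset.mem_filter.mpr ⟨hz, h1, h2⟩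
  choose! S hS hSc using hSr
  obtain ⟨t, ht, hPA3⟩ := hPA2 A (by omega)
  obtain ⟨S1, hS1, hS1c⟩ : ∃ S1 : Finset ((Idx → ℤ) × (Idx → ℤ)),
      (∀ z ∈ Box A ×ˢ Box A, RSing δ A z.1 z.2 → z ∈ S1) ∧
      (S1.card : ℝ) ≤ ε / 3 * (2 * (A : ℝ) + 1) ^ 42 :=
    ⟨_, fun z hz h => Finset.mem_filter.mpr ⟨hz, h⟩, hRS A (by omega)⟩
  obtain ⟨S2, hS2, hS2c⟩ : ∃ S2 : Finset ((Idx → ℤ) × (Idx → ℤ)),
      (∀ z ∈ Box A ×ˢ Box A, (∀ (p : ℕ) [Fact p.Prime], PadicSol p z.1 z.2) →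
        (∃ s : Fin 6, ((gg (Ww w) (rv P₀ (t z.1 z.2) s) z.1 z.2).card : ℝ) <
          κp * (Ww w : ℝ) ^ 4) → z ∈ S2) ∧
      (S2.card : ℝ) ≤ ε / 3 * (2 * (A : ℝ) + 1) ^ 42 :=
    ⟨_, fun z hz h1 h2 => Finset.mem_filter.mpr ⟨hz, h1, h2⟩, hPA3⟩
  refine (Nat.cast_le.mpr (Finset.card_le_card
    (t := S1 ∪ S2 ∪ (finRR P₀).biUnion S) ?_)).trans ?_
  · intro z hz
    rw [Finset.mem_filter] at hz
    obtain ⟨hzB, hz1, hz2, hz3⟩ := hz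
    obtain ⟨hza, hzb⟩ := Finset.mem_product.mp hzB
    rw [Finset.mem_union, Finset.mem_union, Finset.mem_biUnion]
    by_cases c1 : RSing δ A z.1 z.2
    · exact Or.inl (Or.inl (hS1 z hzB c1))
    by_cases c2 : ∃ s : Fin 6, ((gg (Ww w) (rv P₀ (t z.1 z.2) s) z.1 z.2).card : ℝ) <
          κp * (Ww w : ℝ) ^ 4
    · exact Or.inl (Or.inr (hS2 z hzB hz2 c2))
    right
    push Not at c2
    obtain ⟨s, hs⟩ := hLO3 A (by omega) z.1 hza z.2 hzb hz1 c1 (t z.1 z.2) (ht _ _)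
    have hr : rv P₀ (t z.1 z.2) s ∈ finRR P₀ := fin_rv_mem P₀ _ s (ht _ _)
    refine ⟨rv P₀ (t z.1 z.2) s, hr, hS _ hr z hzB ?_ ?_⟩
    · exact fin_NN R A B K₀ _ c hc0 hB0 hR36 z.1 z.2 hza hzb hz3
    · obtain ⟨F, hF1, hF2, hF3⟩ : ∃ F : Finset (Fin 6 → ℤ),
          F ⊆ XX (rv P₀ (t z.1 z.2) s) c (lam * A) K₀ ∧
          (∀ x ∈ F, ((Ww w : ℕ) : ℤ) ∣ Q z.1 x ∧ ((Ww w : ℕ) : ℤ) ∣ Q z.2 x ∧
            |((Q z.1 x : ℤ) : ℝ)| ≤ h * A * (lam * A : ℝ) ^ 2 ∧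
            |((Q z.2 x : ℤ) : ℝ)| ≤ h * A * (lam * A : ℝ) ^ 2) ∧
          κl * h ^ 2 * ((gg (Ww w) (rv P₀ (t z.1 z.2) s) z.1 z.2).card : ℝ) *
            ((lam * A : ℝ) / Ww w) ^ 6 ≤ (F.card : ℝ) :=
        ⟨_, Finset.filter_subset _ _, fun x hx => (Finset.mem_filter.mp hx).2, hs⟩
      have hcc := c2 s
      rw [← hB] at hF1
      rw [← hW] at hcc hF3 hF2
      refine le_trans ?_ (fin_NL hF R H W m₀ hm0 hW0 hRH hWR _ F z.1 z.2 hF1 ?_)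
      rotate_left
      · intro x hx
        obtain ⟨h1, h2, h3, h4⟩ := hF2 x hx
        refine ⟨h1, h2, ?_, ?_⟩
        · have := h3.trans hm1
          exact_mod_cast this
        · have := h4.trans hm1
          exact_mod_cast this
      · rw [hκ]
        exact fin_L κl κp h lam A W m₀ _ _ hκl hκp hh0 hlam0 hA0' hW0' hm0' hm2 hcc hF3
  · have hY : (0 : ℝ) < (2 * (A : ℝ) + 1) ^ 42 := by positivity
    generalize (2 * (A : ℝ) + 1) ^ 42 = Y at hS1c hS2c hSc hY ⊢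
    clear hPA3 hS1 hS2 hS hLO3 hPA2 hTW hLO hPA hC hP hR hL hF hRS hE hη hR36
    have h1 : (((S1 ∪ S2 ∪ (finRR P₀).biUnion S).card : ℕ) : ℝ) ≤
        (S1.card : ℝ) + (S2.card : ℝ) + ∑ r ∈ finRR P₀, ((S r).card : ℝ) := by
      have e1 := Finset.card_union_le (S1 ∪ S2) ((finRR P₀).biUnion S)
      have e2 := Finset.card_union_le S1 S2
      have e3 : ((finRR P₀).biUnion S).card ≤ ∑ r ∈ finRR P₀, (S r).card :=
        Finset.card_biUnion_le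
      have e4 : (S1 ∪ S2 ∪ (finRR P₀).biUnion S).card ≤
        S1.card + S2.card + ∑ r ∈ finRR P₀, (S r).card := by omega
      exact_mod_cast e4
    have h2 : ∑ r ∈ finRR P₀, ((S r).card : ℝ) ≤
        (finRR P₀).card * (ε / (3 * Nr) * Y) := by
      rw [← nsmul_eq_mul, ← Finset.sum_const]
      exact Finset.sum_le_sum hSc
    have h3 : ((finRR P₀).card : ℝ) * (ε / (3 * Nr) * Y) ≤ ε / 3 * Y := by
      have h4 : ((finRR P₀).card : ℝ) * (ε / (3 * Nr)) ≤ ε / 3 := by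
        rw [← mul_div_assoc, div_le_div_iff₀ (by positivity) (by norm_num), hNr]
        calc ((finRR P₀).card : ℝ) * ε * 3 = ε * (3 * ((finRR P₀).card : ℝ)) := by ring
          _ ≤ ε * (3 * (((finRR P₀).card : ℝ) + 1)) :=
            mul_le_mul_of_nonneg_left (by linarith) hε.le
      calc ((finRR P₀).card : ℝ) * (ε / (3 * Nr) * Y)
          = ((finRR P₀).card : ℝ) * (ε / (3 * Nr)) * Y := by ring
        _ ≤ _ := by gcongr
    have h5 : ε * Y = ε / 3 * Y + ε / 3 * Y + ε / 3 * Y := by ring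
    rw [h5]
    linarith

end Pool.HPQ
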