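import Pool.Agent.Work.MP_9fb703_hp.InterfaceW
import Pool.Agent.Work.MP_9fb703_hp.B_FIN

/-! # Block FINT: almost all pairs satisfy the Hasse principle and weak approximation, from the
blocks -/

set_option autoImplicit false

namespace Pool.HPQ

open Finset

/-- The residue class of a family of `p`-adic vectors. -/
theorem fint_crt (N : ℕ) (M : (p : ℕ) → [Fact p.Prime] → Fin 6 → ℤ_[p]) :
    ∃ τ ∈ cs (Ww N) (Fin 6), ∀ (p : ℕ) [Fact p.Prime], p ≤ N → ∀ l,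
      ‖(τ l : ℤ_[p]) - M p l‖ ≤ (p : ℝ) ^ (-(N : ℤ)) := by
  classical
  have hcop : Set.Pairwise (↑((range (N + 1)).filter Nat.Prime) : Set ℕ)
      (Function.onFun Nat.Coprime (fun p : ℕ => p ^ N)) := by
    intro p hp q hq hpq
    have hp' := (Finset.mem_filter.mp hp).2
    have hq' := (Finset.mem_filter.mp hq).2
    exact Nat.Coprime.pow _ _ ((Nat.coprime_primes hp' hq').mpr hpq)
  have hne : ∀ p ∈ (range (N + 1)).filter Nat.Prime, (fun p : ℕ => p ^ N) p ≠ 0 := by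
    intro p hp
    exact (pow_pos (Finset.mem_filter.mp hp).2.pos _).ne'
  have key : ∀ l : Fin 6, ∃ k : ℕ, ∀ (p : ℕ) (hp : p.Prime), p ≤ N →
      k ≡ (haveI := Fact.mk hp; (M p l).appr N) [MOD p ^ N] := by
    intro l
    obtain ⟨k, hk⟩ := Nat.chineseRemainderOfFinset
      (fun p => if hp : p.Prime then (haveI := Fact.mk hp; (M p l).appr N) else 0)
      (fun p : ℕ => p ^ N) ((range (N + 1)).filter Nat.Prime) hne hcop
    refine ⟨k, ?_⟩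
    intro p hp hpN
    have := hk p (Finset.mem_filter.mpr ⟨Finset.mem_range.mpr (by omega), hp⟩)
    simpa only [hp, dif_pos] using this
  choose k hk using key
  refine ⟨fun l => ((k l % Ww N : ℕ) : ℤ), ?_, ?_⟩
  · unfold cs
    rw [Fintype.mem_piFinset]
    intro l
    rw [Finset.mem_Ico]
    refine ⟨by positivity, ?_⟩
    exact_mod_cast Nat.mod_lt _ (fin_Ww_pos N)
  · intro p hp hpN l
    have hpp : p.Prime := hp.out
    have h1 := hk l p hpp hpN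
    have hdW : p ^ N ∣ Ww N := by
      unfold Ww
      exact Finset.dvd_prod_of_mem (fun p : ℕ => p ^ N)
        (Finset.mem_filter.mpr ⟨Finset.mem_range.mpr (by omega), hpp⟩)
    have h2 : (k l % Ww N) ≡ (M p l).appr N [MOD p ^ N] :=
      ((Nat.mod_modEq (k l) (Ww N)).of_dvd hdW).trans h1
    have h3 : ‖((((k l % Ww N : ℕ) : ℤ) - (((M p l).appr N : ℕ) : ℤ) : ℤ) : ℤ_[p])‖ ≤
        (p : ℝ) ^ (-(N : ℤ)) := by
      rw [PadicInt.norm_int_le_pow_iff_dvd]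
      have := (Nat.modEq_iff_dvd.mp h2.symm)
      exact_mod_cast this
    have h4 : ‖M p l - (((M p l).appr N : ℕ) : ℤ_[p])‖ ≤ (p : ℝ) ^ (-(N : ℤ)) :=
      (PadicInt.norm_le_pow_iff_mem_span_pow _ _).mpr (PadicInt.appr_spec N _)
    have h5 : ((((k l % Ww N : ℕ) : ℤ) : ℤ_[p])) - M p l =
        ((((k l % Ww N : ℕ) : ℤ) - (((M p l).appr N : ℕ) : ℤ) : ℤ) : ℤ_[p]) +
        -(M p l - (((M p l).appr N : ℕ) : ℤ_[p])) := by
      push_cast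
      ring
    rw [h5]
    refine (PadicInt.nonarchimedean _ _).trans (max_le h3 ?_)
    rw [norm_neg]
    exact h4

/-- Congruence of integers gives closeness. -/
theorem fint_dvd (N p : ℕ) [Fact p.Prime] (hp : p ≤ N) (x τ : ℤ) (m : ℤ_[p])
    (h : ((Ww N : ℕ) : ℤ) ∣ x - τ) (h2 : ‖(τ : ℤ_[p]) - m‖ ≤ (p : ℝ) ^ (-(N : ℤ))) :
    ‖(x : ℤ_[p]) - m‖ ≤ (p : ℝ) ^ (-(N : ℤ)) := by
  have hpp : p.Prime := Fact.out
  have hdW : p ^ N ∣ Ww N := by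
    unfold Ww
    exact Finset.dvd_prod_of_mem (fun p : ℕ => p ^ N)
      (Finset.mem_filter.mpr ⟨Finset.mem_range.mpr (by omega), hpp⟩)
  have h3 : ‖((x - τ : ℤ) : ℤ_[p])‖ ≤ (p : ℝ) ^ (-(N : ℤ)) := by
    rw [PadicInt.norm_int_le_pow_iff_dvd]
    exact (by exact_mod_cast hdW : ((p : ℤ) ^ N) ∣ ((Ww N : ℕ) : ℤ)).trans h
  have h5 : (x : ℤ_[p]) - m = ((x - τ : ℤ) : ℤ_[p]) + ((τ : ℤ_[p]) - m) := by
    push_cast
    ring
  rw [h5]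
  exact (PadicInt.nonarchimedean _ _).trans (max_le h3 h2)

/-- The grid. -/
noncomputable def fintG (N : ℕ) : Finset (Fin 6 → ℤ) :=
  Fintype.piFinset fun _ => Finset.Icc (-(8 * N : ℤ)) (8 * N)

theorem fint_grid (N : ℕ) (hN : 1 ≤ N) (z : Fin 6 → ℝ) (hz : ∀ i, |z i| ≤ 1) (σ : ℝ)
    (hσ : σ = 1 ∨ σ = -1) : ∃ k ∈ fintG N, ∀ l, |σ * z l - (k l : ℝ) / (8 * N)| ≤ 1 / (8 * N) := by
  have hN0 : (0 : ℝ) < N := by exact_mod_cast hN
  refine ⟨fun l => ⌊8 * N * (σ * z l)⌋, ?_, ?_⟩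
  · unfold fintG
    rw [Fintype.mem_piFinset]
    intro l
    have h1 : |σ * z l| ≤ 1 := by
      rw [abs_mul]
      rcases hσ with rfl | rfl <;> simpa using hz l
    obtain ⟨h2, h3⟩ := abs_le.mp h1
    rw [Finset.mem_Icc]
    constructor
    · rw [Int.le_floor]
      push_cast
      nlinarith
    · apply Int.floor_le_iff.mpr
      push_cast
      nlinarith
  · intro l
    have h1 := Int.floor_le (8 * N * (σ * z l))
    have h2 := Int.lt_floor_add_one (8 * N * (σ * z l))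
    have h3 : σ * z l - ((⌊8 * N * (σ * z l)⌋ : ℤ) : ℝ) / (8 * N) =
        (8 * N * (σ * z l) - ((⌊8 * N * (σ * z l)⌋ : ℤ) : ℝ)) / (8 * N) := by
      field_simp
    rw [h3, abs_of_nonneg (by apply div_nonneg <;> [linarith; positivity])]
    gcongr
    linarith

open Classical in
/-- The points near `ζ` and in the class of `τ`. -/
noncomputable def fintX (N : ℕ) (r : Fin 6 → ℤ) (c : ℝ) (B K₀ : ℕ) (τ k : Fin 6 → ℤ) :
    Finset (Fin 6 → ℤ) :=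
  (XX r c B K₀).filter fun x => (∀ l, ((Ww N : ℕ) : ℤ) ∣ x l - τ l) ∧
    ∀ l, |2 * x l / (B : ℝ) - (k l : ℝ) / (8 * N)| ≤ 3 / (8 * N)

theorem fint_ps (hW : Stmt_FW2) (R T H W : ℕ) [NeZero R] (hH : 0 < H) (hW0 : 0 < W) (hWR : W ∣ R)
    (hHW : 2 * H * W ≤ R) (x y : Fin 6 → ℤ) : 0 ≤ PP R T x y * PS R T H W x y := by
  obtain ⟨h1, -⟩ := hW R H W hH hW0 hWR hHW
  unfold PP PS
  apply mul_nonneg (by positivity)
  apply div_nonneg _ (by positivity)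
  apply Finset.sum_nonneg
  intro s _
  linarith [(h1 ((s.2 : ℤ) : ZMod R)).2]

theorem fint_sum (hW : Stmt_FW2) (R T H W : ℕ) [NeZero R] (hH : 0 < H) (hW0 : 0 < W)
    (hWR : W ∣ R) (hHW : 2 * H * W ≤ R) (X Y : Finset (Fin 6 → ℤ)) (hXY : X ⊆ Y) :
    ∑ x ∈ X, ∑ y ∈ X, PP R T x y * PS R T H W x y ≤
      ∑ x ∈ Y, ∑ y ∈ Y, PP R T x y * PS R T H W x y := by
  have hp := fint_ps hW R T H W hH hW0 hWR hHW
  calc ∑ x ∈ X, ∑ y ∈ X, PP R T x y * PS R T H W x y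
      ≤ ∑ x ∈ X, ∑ y ∈ Y, PP R T x y * PS R T H W x y := by
        apply Finset.sum_le_sum
        intro x _
        exact Finset.sum_le_sum_of_subset_of_nonneg hXY fun y _ _ => hp x y
    _ ≤ _ := Finset.sum_le_sum_of_subset_of_nonneg hXY fun x _ _ =>
        Finset.sum_nonneg fun y _ => hp x y

/-- No zero in the family if weak approximation fails at `(z, M)`. -/
theorem fint_NN (R A B K₀ N : ℕ) (hN : 1 ≤ N) (r : Fin 6 → ℤ) (c : ℝ) (hc : 0 < c) (hB : 0 < B)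
    (hR : 36 * A * B ^ 2 < R) (a b : Idx → ℤ) (ha : a ∈ Box A) (hb : b ∈ Box A)
    (z : Fin 6 → ℝ) (M : (p : ℕ) → [Fact p.Prime] → Fin 6 → ℤ_[p])
    (h : ¬ ∃ x : Fin 6 → ℤ, x ≠ 0 ∧ Q a x = 0 ∧ Q b x = 0 ∧
      (∃ μ : ℝ, ∀ i, |μ * x i - z i| ≤ 1 / N) ∧
      ∀ (p : ℕ) [Fact p.Prime], p ≤ N → ∀ i, ‖(x i : ℤ_[p]) - M p i‖ ≤ (p : ℝ) ^ (-(N : ℤ)))
    (τ k : Fin 6 → ℤ) (σ : ℝ) (hσ : σ = 1 ∨ σ = -1)
    (hτ : ∀ (p : ℕ) [Fact p.Prime], p ≤ N → ∀ l,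
      ‖(τ l : ℤ_[p]) - M p l‖ ≤ (p : ℝ) ^ (-(N : ℤ)))
    (hk : ∀ l, |σ * z l - (k l : ℝ) / (8 * N)| ≤ 1 / (8 * N)) :
    NN R (fintX N r c B K₀ τ k) (rd R a) (rd R b) = 0 := by
  classical
  unfold NN
  apply Finset.sum_eq_zero
  intro x hx
  unfold fintX at hx
  rw [Finset.mem_filter] at hx
  obtain ⟨hx0, hxτ, hxk⟩ := hx
  unfold XX at hx0
  rw [Finset.mem_filter, Fintype.mem_piFinset] at hx0
  obtain ⟨hx1, hx2, -⟩ := hx0
  have hx3 : ∀ i, |x i| ≤ (B : ℤ) := fun i => abs_le.mpr (Finset.mem_Icc.mp (hx1 i))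
  rw [if_neg]
  rintro ⟨h1, h2⟩
  rw [fin_Q_rd, ZMod.intCast_zmod_eq_zero_iff_dvd] at h1 h2
  have hR' : ((36 * A * B ^ 2 : ℕ) : ℤ) < (R : ℤ) := by exact_mod_cast hR
  push_cast at hR'
  have e1 : Q a x = 0 :=
    Int.eq_zero_of_abs_lt_dvd h1 (lt_of_le_of_lt (fin_Q_le A a ha x B hx3) hR')
  have e2 : Q b x = 0 :=
    Int.eq_zero_of_abs_lt_dvd h2 (lt_of_le_of_lt (fin_Q_le A b hb x B hx3) hR')
  have hN0 : (0 : ℝ) < N := by exact_mod_cast hN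
  apply h
  refine ⟨x, ?_, e1, e2, ⟨σ * (2 / B), ?_⟩, ?_⟩
  · rintro rfl
    have : (dt r 0 : ℤ) = 0 := by simp [dt]
    rw [this] at hx2
    have : (0 : ℝ) < c * B := by positivity
    simp at hx2
    linarith
  · intro i
    have h3 := hxk i
    have h4 := hk i
    have h5 : |2 * (x i : ℝ) / (B : ℝ) - σ * z i| ≤ 3 / (8 * N) + 1 / (8 * N) := by
      have e : 2 * (x i : ℝ) / (B : ℝ) - σ * z i = (2 * x i / (B : ℝ) - (k i : ℝ) / (8 * N)) -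
        (σ * z i - (k i : ℝ) / (8 * N)) := by ring
      rw [e]
      exact (abs_sub _ _).trans (add_le_add h3 h4)
    have h6 : (3 : ℝ) / (8 * N) + 1 / (8 * N) ≤ 1 / N := by
      rw [← add_div, div_le_div_iff₀ (by positivity) hN0]
      linarith
    have hσ2 : σ * σ = 1 := by rcases hσ with rfl | rfl <;> norm_num
    have hσ3 : |σ| = 1 := by rcases hσ with rfl | rfl <;> simp
    have h7 : σ * (2 / B) * x i - z i = σ * (2 * (x i : ℝ) / (B : ℝ) - σ * z i) := by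
      have h8 : σ * (2 * (x i : ℝ) / (B : ℝ) - σ * z i) =
          σ * (2 / B) * x i - (σ * σ) * z i := by ring
      rw [h8, hσ2, one_mul]
    rw [h7, abs_mul, hσ3, one_mul]
    exact h5.trans h6
  · intro p hp hpN i
    exact fint_dvd N p hpN _ _ _ (hxτ i) (hτ p hpN i)

theorem p_FINT (hC : Stmt_CHEB) (hT : Stmt_TWI) (hFW : Stmt_FW2) (hP : Stmt_PADT)
    (hR : Stmt_RSNG) (hL : Stmt_LOWT) (hF : Stmt_FLB2) (_hS : Stmt_SCL) : Stmt_MAINW := by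
  classical
  intro ε Nn hε hNn
  obtain ⟨C, hC1, hTW⟩ := hT
  obtain ⟨δ, A₁, hδ0, hδ1, hRS⟩ := hR (ε / 3) (by positivity)
  obtain ⟨P₀, κp, w₁, hP0, hκp, -, hPA⟩ := hP (ε / 3) Nn (by positivity) hNn
  obtain ⟨c, κl, w₂, hc0, hc1, hκl, -, hLO⟩ := hL P₀ Nn δ hP0 hNn hδ0 hδ1
  have hpi : 0 < Real.pi := Real.pi_pos
  have hC0 : 0 < C := by linarith
  obtain ⟨N, hNdef⟩ : ∃ N : ℕ, N = 12 * P₀ := ⟨_, rfl⟩
  have hN0 : 0 < N := by omega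
  obtain ⟨TR, hTR⟩ : ∃ TR : Finset ((Fin 6 → ℤ) × (Fin 6 → ℤ) × (Fin 6 → ℤ)),
    TR = finRR P₀ ×ˢ cs (Ww Nn) (Fin 6) ×ˢ fintG Nn := ⟨_, rfl⟩
  have hTRm : ∀ q ∈ TR, q.1 ∈ finRR P₀ := by
    intro q hq
    rw [hTR] at hq
    exact (Finset.mem_product.mp hq).1
  obtain ⟨Nr, hNr⟩ : ∃ Nr : ℝ, Nr = TR.card + 1 := ⟨_, rfl⟩
  have hNr0 : 0 < Nr := by rw [hNr]; positivity
  obtain ⟨κ, hκ⟩ : ∃ κ : ℝ, κ = κl * κp / Real.pi ^ 4 := ⟨_, rfl⟩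
  have hκ0 : 0 < κ := by rw [hκ]; positivity
  obtain ⟨η, hη⟩ : ∃ η : ℝ, η = ε * κ ^ 2 / (3 * Nr * ((Real.pi ^ 2 / 4) ^ 42 * 2 *
    (C * ((N : ℝ) / c) ^ 10 * (N : ℝ) ^ 24))) := ⟨_, rfl⟩
  have hη0 : 0 < η := by rw [hη]; positivity
  obtain ⟨w, hw⟩ : ∃ w : ℕ, w = w₁ + w₂ + ⌈5 / η⌉₊ + 1 := ⟨_, rfl⟩
  obtain ⟨h, hh⟩ : ∃ h : ℝ, h = min 1 (η / 10) := ⟨_, rfl⟩
  have hh0 : 0 < h := by rw [hh]; exact lt_min one_pos (by positivity)
  have hh1 : h ≤ 1 := by rw [hh]; exact min_le_left _ _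
  have hh2 : h ≤ η / 10 := by rw [hh]; exact min_le_right _ _
  obtain ⟨lam, hlam⟩ : ∃ lam : ℕ, lam = ⌈5 / η⌉₊ + 2 := ⟨_, rfl⟩
  have hlam1 : 5 / η ≤ lam := by
    have := Nat.le_ceil (5 / η)
    rw [hlam]
    push_cast
    linarith
  have hlam0 : (0 : ℝ) < lam := lt_of_lt_of_le (by positivity) hlam1
  have hlam2 : (1 : ℝ) ≤ lam := by
    have : 1 ≤ lam := by omega
    exact_mod_cast this
  obtain ⟨K₁, hK₁⟩ : ∃ K₁ : ℝ, K₁ = 1 + 5 * (lam : ℝ) ^ 4 / η := ⟨_, rfl⟩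
  have hK₁0 : 0 ≤ 5 * (lam : ℝ) ^ 4 / η := by positivity
  obtain ⟨K₀, hK₀⟩ : ∃ K₀ : ℕ, K₀ = ⌈2 * K₁ * N / c⌉₊ + ⌈24 * ((N : ℝ) ^ 3 * lam / 2) ^ 2⌉₊ :=
    ⟨_, rfl⟩
  obtain ⟨A₂, hPA2⟩ := hPA w (by omega)
  obtain ⟨A₃, hLO3⟩ := hLO w h lam K₀ (by omega) hh0 hh1 (by omega)
  refine ⟨A₁ + A₂ + A₃ + 1 + ⌈((Ww w : ℝ) + 1) / h⌉₊ + ⌈8 * (N : ℝ) ^ 3 / c⌉₊ +
    ⌈(5 * (lam : ℝ) ^ 4 / η) ^ 2⌉₊, ?_⟩
  intro A hA
  have hA0 : 0 < A := by omega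
  have hA0' : (0 : ℝ) < A := by exact_mod_cast hA0
  have hA1 : (1 : ℝ) ≤ A := by exact_mod_cast hA0
  have hAa : ((Ww w : ℝ) + 1) / h ≤ A :=
    (Nat.le_ceil _).trans (by exact_mod_cast (by omega : ⌈((Ww w : ℝ) + 1) / h⌉₊ ≤ A))
  have hAb : 8 * (N : ℝ) ^ 3 / c ≤ A :=
    (Nat.le_ceil _).trans (by exact_mod_cast (by omega : ⌈8 * (N : ℝ) ^ 3 / c⌉₊ ≤ A))
  have hAc : (5 * (lam : ℝ) ^ 4 / η) ^ 2 ≤ A :=
    (Nat.le_ceil _).trans (by exact_mod_cast (by omega : ⌈(5 * (lam : ℝ) ^ 4 / η) ^ 2⌉₊ ≤ A))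
  obtain ⟨B, hB⟩ : ∃ B : ℕ, B = lam * A := ⟨_, rfl⟩
  have hBc : (B : ℝ) = lam * A := by rw [hB]; push_cast; ring
  have hB0 : 0 < B := by rw [hB]; exact Nat.mul_pos (by omega) hA0
  have hAB : (A : ℝ) ≤ B := by rw [hBc]; nlinarith
  have hW0 : 0 < Ww w := fin_Ww_pos w
  obtain ⟨W, hW⟩ : ∃ W : ℕ, W = Ww w := ⟨_, rfl⟩
  rw [← hW] at hW0
  have hW0' : (0 : ℝ) < W := by exact_mod_cast hW0
  obtain ⟨m₀, hm₀⟩ : ∃ m₀ : ℕ, m₀ = ⌈h * A * ((lam : ℝ) * A) ^ 2⌉₊ := ⟨_, rfl⟩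
  have hhA : (W : ℝ) + 1 ≤ h * A := by
    rw [div_le_iff₀ hh0] at hAa
    rw [hW]
    linarith
  have hhAB : (W : ℝ) + 1 ≤ h * A * ((lam : ℝ) * A) ^ 2 := by
    have h1 : (1 : ℝ) ≤ (lam : ℝ) * A := by nlinarith
    have h2 : (1 : ℝ) ≤ ((lam : ℝ) * A) ^ 2 := one_le_pow₀ h1
    have h3 : 0 < h * A := by positivity
    nlinarith
  have hm1 : h * A * ((lam : ℝ) * A) ^ 2 ≤ m₀ := by rw [hm₀]; exact Nat.le_ceil _
  have hm2 : (m₀ : ℝ) ≤ 2 * (h * A * ((lam : ℝ) * A) ^ 2) := by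
    have := Nat.ceil_lt_add_one (by positivity : (0 : ℝ) ≤ h * A * ((lam : ℝ) * A) ^ 2)
    rw [← hm₀] at this
    linarith
  have hWm : W ≤ m₀ := by
    have : (W : ℝ) ≤ m₀ := by linarith
    exact_mod_cast this
  have hm0 : 0 < m₀ := by omega
  have hm0' : (0 : ℝ) < m₀ := by exact_mod_cast hm0
  obtain ⟨Z, hZ⟩ : ∃ Z : ℕ, Z = 36 * (N * B) ^ 4 := ⟨_, rfl⟩
  have hZ0 : 0 < Z := by rw [hZ]; positivity
  obtain ⟨T, hTd⟩ : ∃ T : ℕ, T = m₀ * W * Z := ⟨_, rfl⟩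
  obtain ⟨H, hHd⟩ : ∃ H : ℕ, H = A * W * Z := ⟨_, rfl⟩
  obtain ⟨R, hRd⟩ : ∃ R : ℕ, R = 2 * A * T := ⟨_, rfl⟩
  have hT0 : 0 < T := by rw [hTd]; positivity
  have hH0 : 0 < H := by rw [hHd]; positivity
  have hR0 : 0 < R := by rw [hRd]; positivity
  have : NeZero R := ⟨hR0.ne'⟩
  have hRH : R = 2 * m₀ * H := by rw [hRd, hTd, hHd]; ring
  have hWR : W ∣ R := by rw [hRd, hTd]; exact ⟨2 * A * (m₀ * Z), by ring⟩
  have hHW : 2 * H * W ≤ R := by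
    rw [hRH]
    calc 2 * H * W ≤ 2 * H * m₀ := Nat.mul_le_mul_left _ hWm
      _ = 2 * m₀ * H := by ring
  have hZT : Z ≤ T := by
    rw [hTd]
    exact Nat.le_mul_of_pos_left _ (by positivity)
  have hNB : 1 ≤ (N * B) ^ 4 := Nat.one_le_pow _ _ (by positivity)
  have hT2 : 2 ≤ T := by omega
  have hR36 : 36 * A * B ^ 2 < R := by
    have h1 : B ^ 2 ≤ (N * B) ^ 4 := by
      calc B ^ 2 ≤ (N * B) ^ 2 := Nat.pow_le_pow_left (Nat.le_mul_of_pos_left _ hN0) 2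
        _ ≤ (N * B) ^ 4 := Nat.pow_le_pow_right (by positivity) (by norm_num)
    calc 36 * A * B ^ 2 ≤ 36 * A * (N * B) ^ 4 := Nat.mul_le_mul_left _ h1
      _ = A * Z := by rw [hZ]; ring
      _ ≤ A * T := Nat.mul_le_mul_left _ hZT
      _ < R := by
        rw [hRd]
        have : 0 < A * T := by positivity
        linarith
  have hE : ((B : ℝ) / A) ^ 2 + ((B : ℝ) / A) ^ 4 * (1 / (w : ℝ) + m₀ / (A * (B : ℝ) ^ 2)) +
        ((B : ℝ) / A) ^ 8 / K₁ + ((B : ℝ) / A) ^ 8 / √B ≤ (lam : ℝ) ^ 4 * η := by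
    have hBA : (B : ℝ) / A = lam := by rw [hBc]; field_simp
    rw [hBA]
    refine fin_E η lam _ _ K₁ _ hη0 hlam2 hlam1 ?_ ?_ ?_ ?_
    · have hw' : 5 / η ≤ w := by
        have := Nat.le_ceil (5 / η)
        rw [hw]
        push_cast
        have : (0 : ℝ) ≤ w₁ := by positivity
        have : (0 : ℝ) ≤ w₂ := by positivity
        linarith
      have hw0 : (0 : ℝ) < w := lt_of_lt_of_le (by positivity) hw'
      rw [div_le_iff₀ hη0] at hw'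
      rw [div_le_iff₀ hw0]
      linarith
    · rw [div_le_iff₀ (by rw [hBc]; positivity), hBc]
      calc (m₀ : ℝ) ≤ 2 * (h * A * ((lam : ℝ) * A) ^ 2) := hm2
        _ ≤ 2 * (η / 10 * A * ((lam : ℝ) * A) ^ 2) := by gcongr
        _ = _ := by ring
    · rw [hK₁]
      linarith
    · apply Real.le_sqrt_of_sq_le
      linarith
  have hSr : ∀ q ∈ TR, ∃ S : Finset ((Idx → ℤ) × (Idx → ℤ)),
      (∀ z ∈ Box A ×ˢ Box A,
        NN R (fintX Nn q.1 c B K₀ q.2.1 q.2.2) (rd R z.1) (rd R z.2) = 0 →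
        κ * (lam : ℝ) ^ 2 ≤ NL R H W (fintX Nn q.1 c B K₀ q.2.1 q.2.2) (rd R z.1) (rd R z.2) →
          z ∈ S) ∧
      (S.card : ℝ) ≤ ε / (3 * Nr) * (2 * (A : ℝ) + 1) ^ 42 := by
    intro q hq
    have hr := hTRm q hq
    obtain ⟨r, hrd⟩ : ∃ r, r = q.1 := ⟨_, rfl⟩
    rw [← hrd] at hr ⊢
    have hr1 : (n1 r : ℝ) ≤ N := by
      rw [hNdef]
      exact_mod_cast fin_n1 P₀ r hr
    have hr1' : n1 r ≤ N := by exact_mod_cast hr1
    have hCr := hC R T H W A hA0 hRd hT2 hH0 hW0 hWR hHW (fintX Nn r c B K₀ q.2.1 q.2.2)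
      (κ * (lam : ℝ) ^ 2) (by positivity)
    have hsub := fint_sum hFW R T H W hH0 hW0 hWR hHW (fintX Nn r c B K₀ q.2.1 q.2.2)
      (XX r c B K₀) (Finset.filter_subset _ _)
    have key : ∀ S : Finset ((Idx → ℤ) × (Idx → ℤ)),
        (S.card : ℝ) * (κ * (lam : ℝ) ^ 2) ^ 2 ≤ (Real.pi ^ 2 * A / 2) ^ 42 *
          (2 * ∑ x ∈ XX r c B K₀, ∑ y ∈ XX r c B K₀, PP R T x y * PS R T H W x y) →
        (S.card : ℝ) ≤ ε / (3 * Nr) * (2 * (A : ℝ) + 1) ^ 42 := by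
      intro S hSS
      refine fin_card _ A κ lam _ C (n1 r) N c _ η ε Nr hA0' hκ0 hlam0 hC0 (Nat.cast_nonneg _) hr1
        (by exact_mod_cast hN0) hc0 hη hε hNr0 hSS
        (hTW R T H W m₀ K₀ w A B K₁ c r (fin_r0 P₀ r hr) hc0 hc1 hA0 ?_ hRd hRH hH0 hW0 hWR hHW
          (by omega) ?_ ?_ ?_ ?_ ?_ ?_) hE
      · rw [hB]
        exact Nat.mul_le_mul_right _ (by omega)
      · intro g hg1 hg2
        rw [hW]
        exact fin_dvd_Ww w g hg1 hg2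
      · refine le_trans ?_ hAb
        gcongr
      · calc 2 * (n1 r * B) ^ 4 ≤ 36 * (N * B) ^ 4 := by
              apply Nat.mul_le_mul (by norm_num)
              exact Nat.pow_le_pow_left (Nat.mul_le_mul_right _ hr1') 4
          _ = Z := hZ.symm
          _ ≤ T := hZT
      · rw [hK₁]; linarith
      · have h1 : 2 * K₁ * N / c ≤ ⌈2 * K₁ * N / c⌉₊ := Nat.le_ceil _
        have h2 : 2 * K₁ * n1 r / c ≤ 2 * K₁ * N / c := by
          have : 0 ≤ K₁ := by rw [hK₁]; linarith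
          gcongr
        rw [hK₀]
        push_cast
        have : (0 : ℝ) ≤ ⌈24 * ((N : ℝ) ^ 3 * lam / 2) ^ 2⌉₊ := Nat.cast_nonneg _
        linarith
      · have h1 : 24 * ((N : ℝ) ^ 3 * lam / 2) ^ 2 ≤ ⌈24 * ((N : ℝ) ^ 3 * lam / 2) ^ 2⌉₊ :=
          Nat.le_ceil _
        have h2 : (n1 r : ℝ) ^ 3 * B / (2 * A) = (n1 r : ℝ) ^ 3 * lam / 2 := by
          rw [hBc]
          field_simp
        have h3 : 24 * ((n1 r : ℝ) ^ 3 * B / (2 * A)) ^ 2 ≤ 24 * ((N : ℝ) ^ 3 * lam / 2) ^ 2 := by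
          rw [h2]
          gcongr
        rw [hK₀]
        push_cast
        have : (0 : ℝ) ≤ ⌈2 * K₁ * N / c⌉₊ := Nat.cast_nonneg _
        linarith
    refine ⟨_, ?_, key _ (hCr.trans ?_)⟩
    · intro z hz h1 h2
      exact Finset.mem_filter.mpr ⟨hz, h1, h2⟩
    · apply mul_le_mul_of_nonneg_left _ (by positivity)
      linarith only [hsub]
  choose! S hS hSc using hSr
  obtain ⟨t, ht, hPA3⟩ := hPA2 A (by omega)
  obtain ⟨S1, hS1, hS1c⟩ : ∃ S1 : Finset ((Idx → ℤ) × (Idx → ℤ)),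
      (∀ z ∈ Box A ×ˢ Box A, RSing δ A z.1 z.2 → z ∈ S1) ∧
      (S1.card : ℝ) ≤ ε / 3 * (2 * (A : ℝ) + 1) ^ 42 :=
    ⟨_, fun z hz h => Finset.mem_filter.mpr ⟨hz, h⟩, hRS A (by omega)⟩
  obtain ⟨S2, hS2, hS2c⟩ : ∃ S2 : Finset ((Idx → ℤ) × (Idx → ℤ)),
      (∀ z ∈ Box A ×ˢ Box A, (∀ (p : ℕ) [Fact p.Prime], PadicSol p z.1 z.2) →
        (∃ τ ∈ cs (Ww Nn) (Fin 6), LT Nn τ z.1 z.2 ∧
        ∃ s : Fin 6, ((gt (Ww Nn) (Ww w) τ (rv P₀ (t τ z.1 z.2) s) z.1 z.2).card : ℝ) <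
          κp * (Ww w : ℝ) ^ 4) → z ∈ S2) ∧
      (S2.card : ℝ) ≤ ε / 3 * (2 * (A : ℝ) + 1) ^ 42 :=
    ⟨_, fun z hz h1 h2 => Finset.mem_filter.mpr ⟨hz, h1, h2⟩, hPA3⟩
  refine (Nat.cast_le.mpr (Finset.card_le_card
    (t := S1 ∪ S2 ∪ TR.biUnion S) ?_)).trans ?_
  · intro z hz
    rw [Finset.mem_filter] at hz
    obtain ⟨hzB, ⟨-, hz2⟩, hz3⟩ := hz
    obtain ⟨hza, hzb⟩ := Finset.mem_product.mp hzB
    rw [Finset.mem_union, Finset.mem_union, Finset.mem_biUnion]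
    by_cases c1 : RSing δ A z.1 z.2
    · exact Or.inl (Or.inl (hS1 z hzB c1))
    by_cases c2 : ∃ τ ∈ cs (Ww Nn) (Fin 6), LT Nn τ z.1 z.2 ∧
        ∃ s : Fin 6, ((gt (Ww Nn) (Ww w) τ (rv P₀ (t τ z.1 z.2) s) z.1 z.2).card : ℝ) <
          κp * (Ww w : ℝ) ^ 4
    · exact Or.inl (Or.inr (hS2 z hzB hz2 c2))
    right
    push Not at c2
    unfold WA at hz3
    push Not at hz3
    obtain ⟨zr, hzr, M, hM, hno⟩ := hz3
    obtain ⟨τ, hτ1, hτ2⟩ := fint_crt Nn M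
    have hLT : LT Nn τ z.1 z.2 := fun p hp hpN => ⟨M p, hM p, hτ2 p hpN⟩
    obtain ⟨s, σ, hσ, hs⟩ := hLO3 A (by omega) z.1 hza z.2 hzb c1 zr hzr (t τ z.1 z.2) (ht _ _ _)
    obtain ⟨k, hk1, hk2⟩ := fint_grid Nn hNn zr hzr.1 σ hσ
    have hr : rv P₀ (t τ z.1 z.2) s ∈ finRR P₀ := fin_rv_mem P₀ _ s (ht _ _ _)
    have hq : (rv P₀ (t τ z.1 z.2) s, τ, k) ∈ TR := by
      rw [hTR, Finset.mem_product, Finset.mem_product]
      exact ⟨hr, hτ1, hk1⟩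
    refine ⟨(rv P₀ (t τ z.1 z.2) s, τ, k), hq, hS _ hq z hzB ?_ ?_⟩
    · refine fint_NN R A B K₀ Nn hNn _ c hc0 hB0 hR36 z.1 z.2 hza hzb zr M ?_ τ k σ hσ hτ2 hk2
      push Not
      exact hno
    · obtain ⟨F, hF1, hF2, hF3⟩ : ∃ F : Finset (Fin 6 → ℤ),
          F ⊆ fintX Nn (rv P₀ (t τ z.1 z.2) s) c B K₀ τ k ∧
          (∀ x ∈ F, ((Ww w : ℕ) : ℤ) ∣ Q z.1 x ∧ ((Ww w : ℕ) : ℤ) ∣ Q z.2 x ∧
            |((Q z.1 x : ℤ) : ℝ)| ≤ h * A * (lam * A : ℝ) ^ 2 ∧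
            |((Q z.2 x : ℤ) : ℝ)| ≤ h * A * (lam * A : ℝ) ^ 2) ∧
          κl * h ^ 2 * ((gt (Ww Nn) (Ww w) τ (rv P₀ (t τ z.1 z.2) s) z.1 z.2).card : ℝ) *
            ((lam * A : ℝ) / Ww w) ^ 6 ≤ (F.card : ℝ) := by
        refine ⟨_, ?_, fun x hx => ?_, hs τ⟩
        · intro x hx
          rw [Finset.mem_filter] at hx
          obtain ⟨g1, -, -, -, -, g6, g7⟩ := hx
          unfold fintX
          rw [Finset.mem_filter]
          rw [← hB] at g1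
          refine ⟨g1, g6, ?_⟩
          intro l
          have g8 := g7 l
          have g9 := hk2 l
          have hNn0 : (0 : ℝ) < Nn := by exact_mod_cast hNn
          have e : 2 * (x l : ℝ) / (B : ℝ) - (k l : ℝ) / (8 * Nn) =
              (2 * x l / (lam * A : ℝ) - σ * zr l) + (σ * zr l - (k l : ℝ) / (8 * Nn)) := by
            rw [hBc]
            ring
          rw [e]
          refine (abs_add_le _ _).trans ((add_le_add g8 g9).trans (le_of_eq ?_))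
          field_simp
          norm_num
        · obtain ⟨g1, g2, g3, g4, g5, -, -⟩ := Finset.mem_filter.mp hx
          exact ⟨g2, g3, g4, g5⟩
      have hcc := c2 τ hτ1 hLT s
      rw [← hW] at hcc hF3 hF2
      refine le_trans ?_ (fin_NL hF R H W m₀ hm0 hW0 hRH hWR _ F z.1 z.2 hF1 ?_)
      rotate_left
      · intro x hx
        obtain ⟨h1, h2, h3, h4⟩ := hF2 x hx
        refine ⟨h1, h2, ?_, ?_⟩
        · have := h3.trans hm1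
          exact_mod_cast this
        · have := h4.trans hm1
          exact_mod_cast this
      · rw [hκ]
        exact fin_L κl κp h lam A W m₀ _ _ hκl hκp hh0 hlam0 hA0' hW0' hm0' hm2 hcc hF3
  · have hY : (0 : ℝ) < (2 * (A : ℝ) + 1) ^ 42 := by positivity
    generalize (2 * (A : ℝ) + 1) ^ 42 = Y at hS1c hS2c hSc hY ⊢
    clear hPA3 hS1 hS2 hS hLO3 hPA2 hTW hLO hPA hC hP hR hL hF hRS hE hη hR36
    have h1 : (((S1 ∪ S2 ∪ TR.biUnion S).card : ℕ) : ℝ) ≤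
        (S1.card : ℝ) + (S2.card : ℝ) + ∑ r ∈ TR, ((S r).card : ℝ) := by
      have e1 := Finset.card_union_le (S1 ∪ S2) (TR.biUnion S)
      have e2 := Finset.card_union_le S1 S2
      have e3 : (TR.biUnion S).card ≤ ∑ r ∈ TR, (S r).card :=
        Finset.card_biUnion_le
      have e4 : (S1 ∪ S2 ∪ TR.biUnion S).card ≤
        S1.card + S2.card + ∑ r ∈ TR, (S r).card := by omega
      exact_mod_cast e4
    have h2 : ∑ r ∈ TR, ((S r).card : ℝ) ≤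
        TR.card * (ε / (3 * Nr) * Y) := by
      rw [← nsmul_eq_mul, ← Finset.sum_const]
      exact Finset.sum_le_sum hSc
    have h3 : (TR.card : ℝ) * (ε / (3 * Nr) * Y) ≤ ε / 3 * Y := by
      have h4 : (TR.card : ℝ) * (ε / (3 * Nr)) ≤ ε / 3 := by
        rw [← mul_div_assoc, div_le_div_iff₀ (by positivity) (by norm_num), hNr]
        calc (TR.card : ℝ) * ε * 3 = ε * (3 * (TR.card : ℝ)) := by ring
          _ ≤ ε * (3 * ((TR.card : ℝ) + 1)) :=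
            mul_le_mul_of_nonneg_left (by linarith) hε.le
      calc (TR.card : ℝ) * (ε / (3 * Nr) * Y)
          = (TR.card : ℝ) * (ε / (3 * Nr)) * Y := by ring
        _ ≤ _ := by gcongr
    have h5 : ε * Y = ε / 3 * Y + ε / 3 * Y + ε / 3 * Y := by ring
    rw [h5]
    linarith

end Pool.HPQ
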