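import Pool.Agent.Work.MP_9fb703_hp.InterfaceW

/-! # LOWT: the lower bound of the number of local points near a given real zero -/

set_option autoImplicit false

namespace Pool.HPQ

open Finset

/-- Scaling of forms. -/
theorem LOWT_Q (a : Idx → ℝ) (x : Fin 6 → ℝ) (A u : ℝ) :
    Q (fun q => a q / A) (fun i => u * x i) = u ^ 2 / A * Q a x := by
  unfold Q
  rw [Finset.mul_sum]
  apply Finset.sum_congr rfl
  intro q _
  ring

theorem LOWT_G (a : Idx → ℝ) (x : Fin 6 → ℝ) (A u : ℝ) (i : Fin 6) :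
    G (fun q => a q / A) (fun i => u * x i) i = u / A * G a x i := by
  unfold G
  rw [Finset.mul_sum]
  apply Finset.sum_congr rfl
  intro q _
  split_ifs <;> ring

theorem LOWT_mn (a b : Idx → ℝ) (x : Fin 6 → ℝ) (A u : ℝ) (i j : Fin 6) :
    mn (fun q => a q / A) (fun q => b q / A) (fun i => u * x i) i j =
      u ^ 2 / A ^ 2 * mn a b x i j := by
  unfold mn
  rw [LOWT_G, LOWT_G, LOWT_G, LOWT_G]
  ring

/-- Values at near points. -/
theorem LOWT_diff (α : Idx → ℝ) (u v : Fin 6 → ℝ) (τ : ℝ) (hα : ∀ q, |α q| ≤ 1)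
    (hu : ∀ l, |u l| ≤ 1) (hv : ∀ l, |v l| ≤ 1) (huv : ∀ l, |u l - v l| ≤ τ) :
    |Q α u - Q α v| ≤ 42 * τ := by
  have hτ : 0 ≤ τ := (abs_nonneg _).trans (huv 0)
  unfold Q
  rw [← Finset.sum_sub_distrib]
  refine (Finset.abs_sum_le_sum_abs _ _).trans ?_
  have h1 : ∀ q ∈ (univ : Finset Idx),
      |α q * (u q.1.1 * u q.1.2) - α q * (v q.1.1 * v q.1.2)| ≤ 2 * τ := by
    intro q _
    have e : α q * (u q.1.1 * u q.1.2) - α q * (v q.1.1 * v q.1.2) =
      α q * (u q.1.1 * (u q.1.2 - v q.1.2) + v q.1.2 * (u q.1.1 - v q.1.1)) := by ring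
    rw [e, abs_mul]
    have h2 : |u q.1.1 * (u q.1.2 - v q.1.2) + v q.1.2 * (u q.1.1 - v q.1.1)| ≤ 2 * τ := by
      refine (abs_add_le _ _).trans ?_
      rw [abs_mul, abs_mul]
      have h3 : |u q.1.1| * |u q.1.2 - v q.1.2| ≤ 1 * τ :=
        mul_le_mul (hu _) (huv _) (abs_nonneg _) zero_le_one
      have h4 : |v q.1.2| * |u q.1.1 - v q.1.1| ≤ 1 * τ :=
        mul_le_mul (hv _) (huv _) (abs_nonneg _) zero_le_one
      linarith
    calc |α q| * _ ≤ 1 * (2 * τ) := mul_le_mul (hα q) h2 (abs_nonneg _) zero_le_one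
      _ = 2 * τ := one_mul _
  refine (Finset.sum_le_card_nsmul _ _ _ h1).trans ?_
  have hc : (univ : Finset Idx).card = 21 := by decide
  rw [hc, nsmul_eq_mul]
  push_cast
  linarith

/-- The vectors `r`. -/
theorem LOWT_r (P₀ : ℕ) (t : Fin 6 → ℤ) (hP : 0 < P₀) (ht : Adm P₀ t) (s : Fin 6) :
    rv P₀ t s 0 = 1 ∧ n1 (rv P₀ t s) ≤ 7 * P₀ := by
  obtain ⟨h0, h1⟩ := ht
  constructor
  · unfold rv
    rw [h0, if_neg, add_zero]
    rintro ⟨h, h'⟩
    exact h h'.symm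
  · unfold n1 rv
    rw [Fin.sum_univ_six]
    have a0 := h1 0
    have a1 := h1 1
    have a2 := h1 2
    have a3 := h1 3
    have a4 := h1 4
    have a5 := h1 5
    fin_cases s <;> simp <;> omega

/-- Some vector is good. -/
theorem LOWT_s (P₀ : ℕ) (t : Fin 6 → ℤ) (hP : 0 < P₀) (ht : Adm P₀ t) (z : Fin 6 → ℝ)
    (hz : ∃ i, |z i| = 1) : ∃ s : Fin 6, 1 / 11 ≤ |∑ i, (rv P₀ t s i : ℝ) * z i| := by
  by_contra hcon
  push Not at hcon
  obtain ⟨h0, h1⟩ := ht
  have hP' : (1 : ℝ) ≤ P₀ := by exact_mod_cast hP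
  have hD0 : ∑ i, (rv P₀ t 0 i : ℝ) * z i = ∑ i, (t i : ℝ) * z i := by
    unfold rv
    simp
  have hD : ∀ s : Fin 6, s ≠ 0 →
      ∑ i, (rv P₀ t s i : ℝ) * z i = ∑ i, (t i : ℝ) * z i + P₀ * z s := by
    intro s hs
    unfold rv
    push_cast
    simp only [add_mul, Finset.sum_add_distrib]
    congr 1
    simp [hs]
  have h2 := hcon 0
  rw [hD0] at h2
  have h3 : ∀ s : Fin 6, s ≠ 0 → |P₀ * z s| < 2 / 11 := by
    intro s hs
    have h4 := hcon s
    rw [hD s hs] at h4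
    rw [abs_lt] at h2 h4 ⊢
    constructor <;> linarith [h2.1, h2.2, h4.1, h4.2]
  have h5 : ∀ s : Fin 6, s ≠ 0 → |z s| < 2 / 11 := by
    intro s hs
    have h6 := h3 s hs
    rw [abs_mul, abs_of_nonneg (by linarith : (0 : ℝ) ≤ P₀)] at h6
    nlinarith [abs_nonneg (z s)]
  have h7 : ∀ s : Fin 6, s ≠ 0 → |(t s : ℝ) * z s| < 2 / 11 := by
    intro s hs
    have h6 := h3 s hs
    rw [abs_mul, abs_of_nonneg (by linarith : (0 : ℝ) ≤ P₀)] at h6
    have h8 : (0 : ℝ) ≤ t s ∧ (t s : ℝ) ≤ P₀ := by exact_mod_cast h1 s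
    rw [abs_mul, abs_of_nonneg h8.1]
    nlinarith [abs_nonneg (z s), h8.2]
  have h9 : |z 0| < 1 := by
    rw [Fin.sum_univ_six, h0] at h2
    have g1 := h7 1 (by decide)
    have g2 := h7 2 (by decide)
    have g3 := h7 3 (by decide)
    have g4 := h7 4 (by decide)
    have g5 := h7 5 (by decide)
    rw [abs_lt] at h2 g1 g2 g3 g4 g5 ⊢
    push_cast at h2
    constructor <;> linarith [h2.1, h2.2, g1.1, g1.2, g2.1, g2.2, g3.1, g3.2, g4.1, g4.2, g5.1, g5.2]
  obtain ⟨i, hi⟩ := hz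
  by_cases hi0 : i = 0
  · rw [hi0] at hi
    linarith
  · have := h5 i hi0
    linarith

/-- `Ww` is monotone for divisibility. -/
theorem LOWT_Ww {N w : ℕ} (h : N ≤ w) : Ww N ∣ Ww w := by
  unfold Ww
  have h1 : ∏ p ∈ (range (N + 1)).filter Nat.Prime, p ^ N ∣
      ∏ p ∈ (range (N + 1)).filter Nat.Prime, p ^ w :=
    Finset.prod_dvd_prod_of_dvd _ _ fun p _ => pow_dvd_pow p h
  refine h1.trans (Finset.prod_dvd_prod_of_subset _ _ _ ?_)
  apply Finset.filter_subset_filter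
  intro x hx
  rw [Finset.mem_range] at hx ⊢
  omega

theorem LOWT_Wpos (w : ℕ) : 0 < Ww w := by
  unfold Ww
  apply Finset.prod_pos
  intro p hp
  exact pow_pos (Finset.mem_filter.1 hp).2.pos _

theorem LOWT_Wdvd {w : ℕ} (hw : 1 ≤ w) (p : ℕ) (hp : p.Prime) (hpw : p ≤ w) : p ∣ Ww w := by
  unfold Ww
  have h1 : p ∣ p ^ w := dvd_pow_self p (by omega)
  exact h1.trans (Finset.dvd_prod_of_mem (fun p => p ^ w)
    (Finset.mem_filter.2 ⟨Finset.mem_range.2 (by omega), hp⟩))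

/-- Values of integral forms at congruent points. -/
theorem LOWT_Qmod (W : ℤ) (a : Idx → ℤ) (x y : Fin 6 → ℤ) (h : ∀ l, W ∣ x l - y l)
    (hy : W ∣ Q a y) : W ∣ Q a x := by
  have h1 : W ∣ Q a x - Q a y := by
    unfold Q
    rw [← Finset.sum_sub_distrib]
    apply Finset.dvd_sum
    intro q _
    have e : a q * (x q.1.1 * x q.1.2) - a q * (y q.1.1 * y q.1.2) =
      a q * (x q.1.1 * (x q.1.2 - y q.1.2) + y q.1.2 * (x q.1.1 - y q.1.1)) := by ring
    rw [e]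
    exact Dvd.dvd.mul_left (dvd_add (Dvd.dvd.mul_left (h _) _) (Dvd.dvd.mul_left (h _) _)) _
  have h2 := dvd_add h1 hy
  rwa [sub_add_cancel] at h2

open Classical in
/-- **LOWT** -/
theorem p_LOWT (h1 : Stmt_IFT) (h2 : Stmt_SIEV) : Stmt_LOWT := by
  obtain ⟨w₀, hSIEV⟩ := h2
  intro P₀ N δ hP hN hδ hδ1
  have hPr : (1 : ℝ) ≤ P₀ := by exact_mod_cast hP
  have hNr : (1 : ℝ) ≤ N := by exact_mod_cast hN
  set η : ℝ := 1 / (616 * P₀ * N) with hη
  have hη0 : 0 < η := by positivity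
  have hηN : 616 * η * P₀ * N = 1 := by
    rw [hη]
    field_simp
  have hη616 : 616 * η ≤ 1 := by
    have : 616 * η ≤ 616 * η * P₀ * N := by
      have a1 : 616 * η * 1 ≤ 616 * η * P₀ := mul_le_mul_of_nonneg_left hPr (by positivity)
      have a2 : 616 * η * P₀ * 1 ≤ 616 * η * P₀ * N :=
        mul_le_mul_of_nonneg_left hNr (by positivity)
      linarith
    linarith
  have hηP : 616 * η * P₀ ≤ 1 := by
    have a2 : 616 * η * P₀ * 1 ≤ 616 * η * P₀ * N :=
      mul_le_mul_of_nonneg_left hNr (by positivity)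
    linarith
  have hηNN : 616 * η * N ≤ 1 := by
    have a2 : 616 * η * N * 1 ≤ 616 * η * N * P₀ :=
      mul_le_mul_of_nonneg_left hPr (by positivity)
    nlinarith
  obtain ⟨ρ, hρ0, hρη, hIFT⟩ := h1 (δ / 4) η (by linarith) hη0
  refine ⟨1 / 44, ρ ^ 4 * η ^ 2 / 4, max w₀ (max N 1), by norm_num, by norm_num, by positivity,
    (le_max_left _ _).trans (le_max_right _ _), ?_⟩
  intro w h lam K₀ hw hh0 hh1 hlam
  have hww₀ : w₀ ≤ w := (le_max_left _ _).trans hw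
  have hwN : N ≤ w := ((le_max_left _ _).trans (le_max_right _ _)).trans hw
  have hw1 : 1 ≤ w := ((le_max_right _ _).trans (le_max_right _ _)).trans hw
  have hWpos := LOWT_Wpos w
  obtain ⟨B₁, hB₁⟩ := hSIEV w (Ww w) (7 * P₀) K₀ ρ (η * h) hww₀ hWpos
    (fun p hp hpw => LOWT_Wdvd hw1 p hp hpw) hρ0 (by positivity)
  refine ⟨max B₁ 1, ?_⟩
  intro A hA a ha b hb hns z hz t ht
  have hA1 : 1 ≤ A := (le_max_right _ _).trans hA
  have hAr : (1 : ℝ) ≤ A := by exact_mod_cast hA1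
  have hBB₁ : B₁ ≤ lam * A := by
    have : A ≤ lam * A := Nat.le_mul_of_pos_left A hlam
    exact ((le_max_left _ _).trans hA).trans this
  have hBpos : 0 < lam * A := Nat.mul_pos hlam hA1
  set B : ℕ := lam * A with hB
  have hBr : (0 : ℝ) < B := by exact_mod_cast hBpos
  have hBcast : (lam : ℝ) * (A : ℝ) = B := by
    rw [hB]
    push_cast
    ring
  obtain ⟨hzle, hzone, hza, hzb⟩ := hz
  obtain ⟨s, hs⟩ := LOWT_s P₀ t hP ht z hzone
  obtain ⟨hr0, hrn⟩ := LOWT_r P₀ t hP ht s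
  set r := rv P₀ t s with hr
  -- the sign
  obtain ⟨σ, hσ, hσs⟩ : ∃ σ : ℝ, (σ = 1 ∨ σ = -1) ∧ 1 / 11 ≤ σ * ∑ i, (r i : ℝ) * z i := by
    rcases le_total 0 (∑ i, (r i : ℝ) * z i) with h0 | h0
    · refine ⟨1, Or.inl rfl, ?_⟩
      rw [abs_of_nonneg h0] at hs
      linarith
    · refine ⟨-1, Or.inr rfl, ?_⟩
      rw [abs_of_nonpos h0] at hs
      linarith
  have hσ2 : σ ^ 2 = 1 := by rcases hσ with h | h <;> rw [h] <;> norm_num
  have hσ1 : |σ| = 1 := by rcases hσ with h | h <;> rw [h] <;> norm_num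
  -- the scaled data
  set α : Idx → ℝ := fun q => (a q : ℝ) / A with hα
  set β : Idx → ℝ := fun q => (b q : ℝ) / A with hβ
  set zz : Fin 6 → ℝ := fun l => σ / 2 * z l with hzz
  have hbox : ∀ c ∈ Box A, ∀ q, |(c q : ℝ) / A| ≤ 1 := by
    intro c hc q
    have h3 := (Fintype.mem_piFinset.1 hc) q
    rw [Finset.mem_Icc] at h3
    rw [abs_div, abs_of_nonneg (by linarith : (0 : ℝ) ≤ A), div_le_one (by linarith), abs_le]
    exact ⟨by exact_mod_cast h3.1, by exact_mod_cast h3.2⟩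
  have hα1 : ∀ q, |α q| ≤ 1 := hbox a ha
  have hβ1 : ∀ q, |β q| ≤ 1 := hbox b hb
  have hzz2 : ∀ l, |zz l| ≤ 1 / 2 := by
    intro l
    rw [hzz]
    simp only
    rw [abs_mul, abs_div, hσ1]
    have := hzle l
    norm_num
    linarith
  have hzz1 : ∀ l, |zz l| ≤ 1 := fun l => (hzz2 l).trans (by norm_num)
  have hQα : Q α zz = 0 := by
    rw [hα, hzz, LOWT_Q, hza, mul_zero]
  have hQβ : Q β zz = 0 := by
    rw [hβ, hzz, LOWT_Q, hzb, mul_zero]
  -- the minor
  obtain ⟨i, j, hij⟩ : ∃ i j, δ * (A : ℝ) ^ 2 <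
      |mn (fun q => (a q : ℝ)) (fun q => (b q : ℝ)) z i j| := by
    by_contra hcon
    push Not at hcon
    exact hns ⟨z, hzle, hzone, hza, hzb, hcon⟩
  have hmn : δ / 4 ≤ |mn α β zz i j| := by
    rw [hα, hβ, hzz, LOWT_mn, abs_mul]
    have e1 : |(σ / 2) ^ 2 / (A : ℝ) ^ 2| = 1 / (4 * (A : ℝ) ^ 2) := by
      rw [div_pow, hσ2, abs_of_nonneg (by positivity)]
      field_simp
      norm_num
    rw [e1]
    have hA2 : (0 : ℝ) < (A : ℝ) ^ 2 := by positivity
    calc δ / 4 = 1 / (4 * (A : ℝ) ^ 2) * (δ * (A : ℝ) ^ 2) := by field_simp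
      _ ≤ _ := mul_le_mul_of_nonneg_left hij.le (by positivity)
  have hine : i ≠ j := by
    intro h
    rw [h] at hmn
    have : mn α β zz j j = 0 := by
      unfold mn
      ring
    rw [this, abs_zero] at hmn
    linarith
  have hI := hIFT α β zz i j hα1 hβ1 hzz1 hQα hQβ hmn
  have hY : ∀ x : Fin 6 → ℝ, ∃ y : Fin 6 → ℝ, |y i - zz i| ≤ η ∧ |y j - zz j| ≤ η ∧
      ((∀ l, l ≠ i → l ≠ j → |x l - zz l| ≤ ρ) →
        (∀ l, l ≠ i → l ≠ j → y l = x l) ∧ Q α y = 0 ∧ Q β y = 0) := by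
    intro x
    by_cases hx : ∀ l, l ≠ i → l ≠ j → |x l - zz l| ≤ ρ
    · obtain ⟨y, hy1, hy2, hy3, hy4, hy5⟩ := hI x hx
      exact ⟨y, hy2, hy3, fun _ => ⟨hy1, hy4, hy5⟩⟩
    · refine ⟨zz, ?_, ?_, fun h => absurd h hx⟩
      · rw [sub_self, abs_zero]
        exact hη0.le
      · rw [sub_self, abs_zero]
        exact hη0.le
  choose Y hY1 hY2 hY3 using hY
  set hat : (Fin 6 → ℤ) → Fin 6 → ℝ := fun x l => if l = i ∨ l = j then 0 else (x l : ℝ) / B
    with hhat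
  set ψ : (Fin 6 → ℤ) → Fin 6 → ℝ := fun x l => B * Y (hat x) l with hψ
  set X : Finset (Fin 6 → ℤ) := (Fintype.piFinset fun _ => Finset.Icc (-(B : ℤ)) B).filter
    (fun x => (∀ l, l ≠ i → l ≠ j → |(x l : ℝ) - B * zz l| ≤ ρ * B) ∧
      |(x i : ℝ) - ψ x i| ≤ η * h * B ∧ |(x j : ℝ) - ψ x j| ≤ η * h * B) with hX
  have hηh : η * h ≤ η := by nlinarith
  -- the points of the region
  have hreg : ∀ x : Fin 6 → ℤ, (∀ l, l ≠ i → l ≠ j → |(x l : ℝ) - B * zz l| ≤ ρ * B) →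
      |(x i : ℝ) - ψ x i| ≤ η * h * B → |(x j : ℝ) - ψ x j| ≤ η * h * B →
      (∀ l, |(x l : ℝ) / B - zz l| ≤ 2 * η) ∧
      |Q α (fun l => (x l : ℝ) / B)| ≤ h ∧ |Q β (fun l => (x l : ℝ) / B)| ≤ h := by
    intro x hx1 hx2 hx3
    have hx1' : ∀ l, l ≠ i → l ≠ j → |(x l : ℝ) / B - zz l| ≤ ρ := by
      intro l hli hlj
      have h3 := hx1 l hli hlj
      have e : (x l : ℝ) - B * zz l = B * ((x l : ℝ) / B - zz l) := by field_simp
      rw [e, abs_mul, abs_of_pos hBr] at h3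
      nlinarith
    have hx2' : |(x i : ℝ) / B - Y (hat x) i| ≤ η * h := by
      have e : (x i : ℝ) - ψ x i = B * ((x i : ℝ) / B - Y (hat x) i) := by
        rw [hψ]
        field_simp
      rw [e, abs_mul, abs_of_pos hBr] at hx2
      nlinarith
    have hx3' : |(x j : ℝ) / B - Y (hat x) j| ≤ η * h := by
      have e : (x j : ℝ) - ψ x j = B * ((x j : ℝ) / B - Y (hat x) j) := by
        rw [hψ]
        field_simp
      rw [e, abs_mul, abs_of_pos hBr] at hx3
      nlinarith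
    have hcond : ∀ l, l ≠ i → l ≠ j → |hat x l - zz l| ≤ ρ := by
      intro l hli hlj
      rw [hhat]
      simp only [hli, hlj, or_self, if_false]
      exact hx1' l hli hlj
    obtain ⟨hy1, hy2, hy3⟩ := hY3 (hat x) hcond
    have hyu : ∀ l, |(x l : ℝ) / B - Y (hat x) l| ≤ η * h := by
      intro l
      by_cases hli : l = i
      · rw [hli]; exact hx2'
      · by_cases hlj : l = j
        · rw [hlj]; exact hx3'
        · rw [hy1 l hli hlj, hhat]
          simp only [hli, hlj, or_self, if_false, sub_self, abs_zero]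
          positivity
    have hyz : ∀ l, |Y (hat x) l - zz l| ≤ η := by
      intro l
      by_cases hli : l = i
      · rw [hli]; exact hY1 _
      · by_cases hlj : l = j
        · rw [hlj]; exact hY2 _
        · rw [hy1 l hli hlj]
          exact (hcond l hli hlj).trans hρη
    have huz : ∀ l, |(x l : ℝ) / B - zz l| ≤ 2 * η := by
      intro l
      have e : (x l : ℝ) / B - zz l = ((x l : ℝ) / B - Y (hat x) l) + (Y (hat x) l - zz l) := by ring
      rw [e]
      refine (abs_add_le _ _).trans ?_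
      have := hyu l
      have := hyz l
      linarith
    have hu1 : ∀ l, |(x l : ℝ) / B| ≤ 1 := by
      intro l
      have e : (x l : ℝ) / B = ((x l : ℝ) / B - zz l) + zz l := by ring
      rw [e]
      refine (abs_add_le _ _).trans ?_
      have := huz l
      have := hzz2 l
      linarith
    have hy1' : ∀ l, |Y (hat x) l| ≤ 1 := by
      intro l
      have e : Y (hat x) l = (Y (hat x) l - zz l) + zz l := by ring
      rw [e]
      refine (abs_add_le _ _).trans ?_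
      have := hyz l
      have := hzz2 l
      linarith
    have h42 : 42 * (η * h) ≤ h := by nlinarith
    refine ⟨huz, ?_, ?_⟩
    · have h3 := LOWT_diff α (fun l => (x l : ℝ) / B) (Y (hat x)) (η * h) hα1 hu1 hy1' hyu
      rw [hy2, sub_zero] at h3
      linarith
    · have h3 := LOWT_diff β (fun l => (x l : ℝ) / B) (Y (hat x)) (η * h) hβ1 hu1 hy1' hyu
      rw [hy3, sub_zero] at h3
      linarith
  -- consequences
  have hxB : ∀ x : Fin 6 → ℤ, (∀ l, |(x l : ℝ) / B - zz l| ≤ 2 * η) → ∀ l, |x l| ≤ (B : ℤ) := by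
    intro x hx l
    have h3 : |(x l : ℝ) / B| ≤ 1 := by
      have e : (x l : ℝ) / B = ((x l : ℝ) / B - zz l) + zz l := by ring
      rw [e]
      refine (abs_add_le _ _).trans ?_
      have := hx l
      have := hzz2 l
      linarith
    rw [abs_div, abs_of_pos hBr, div_le_one hBr] at h3
    exact_mod_cast h3
  have hdt : ∀ x : Fin 6 → ℤ, (∀ l, |(x l : ℝ) / B - zz l| ≤ 2 * η) →
      1 / 44 * (B : ℝ) ≤ (dt r x : ℝ) := by
    intro x hx
    have e1 : (dt r x : ℝ) = B * (∑ l, (r l : ℝ) * ((x l : ℝ) / B - zz l) +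
        ∑ l, (r l : ℝ) * zz l) := by
      unfold dt
      rw [← Finset.sum_add_distrib, Finset.mul_sum]
      push_cast
      apply Finset.sum_congr rfl
      intro l _
      field_simp
      ring
    have e2 : ∑ l, (r l : ℝ) * zz l = 1 / 2 * (σ * ∑ l, (r l : ℝ) * z l) := by
      rw [hzz, Finset.mul_sum, Finset.mul_sum]
      apply Finset.sum_congr rfl
      intro l _
      ring
    have e3 : |∑ l, (r l : ℝ) * ((x l : ℝ) / B - zz l)| ≤ 7 * P₀ * (2 * η) := by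
      refine (Finset.abs_sum_le_sum_abs _ _).trans ?_
      calc ∑ l, |(r l : ℝ) * ((x l : ℝ) / B - zz l)| ≤ ∑ l, ((r l).natAbs : ℝ) * (2 * η) := by
            apply Finset.sum_le_sum
            intro l _
            rw [abs_mul]
            have : |(r l : ℝ)| = ((r l).natAbs : ℝ) := by
              rw [Nat.cast_natAbs, Int.cast_abs]
            rw [this]
            exact mul_le_mul_of_nonneg_left (hx l) (Nat.cast_nonneg _)
        _ = (n1 r : ℝ) * (2 * η) := by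
            unfold n1
            rw [← Finset.sum_mul]
            push_cast
            rfl
        _ ≤ 7 * P₀ * (2 * η) := by
            apply mul_le_mul_of_nonneg_right _ (by positivity)
            exact_mod_cast hrn
    rw [e1, e2]
    have e4 := abs_le.1 e3
    have e5 : 1 / 44 ≤ ∑ l, (r l : ℝ) * ((x l : ℝ) / B - zz l) +
        1 / 2 * (σ * ∑ l, (r l : ℝ) * z l) := by
      nlinarith [e4.1]
    nlinarith
  refine ⟨s, σ, hσ, ?_⟩
  intro τ
  set GS := gt (Ww N) (Ww w) τ r a b with hGS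
  have hGSmem : ∀ v ∈ GS, v ∈ cs (Ww w) (Fin 6) ∧ ((Ww w : ℕ) : ℤ) ∣ Q a v ∧
      ((Ww w : ℕ) : ℤ) ∣ Q b v ∧ Int.gcd (Int.gcd (dt r v) (v 1)) (Ww w) = 1 ∧
      ∀ l, ((Ww N : ℕ) : ℤ) ∣ v l - τ l := by
    intro v hv
    rw [hGS] at hv
    unfold gt gg at hv
    rw [Finset.mem_filter, Finset.mem_filter] at hv
    exact ⟨hv.1.1, hv.1.2.1, hv.1.2.2.1, hv.1.2.2.2, hv.2⟩
  have hmain := hB₁ B r GS i j (fun l => B * zz l) ψ X hBB₁ hr0 hrn
    (fun v hv => (hGSmem v hv).1) (fun v hv => (hGSmem v hv).2.2.2.1) hine ?_ ?_ ?_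
  · have hsub : (X.filter fun x => (fun l => x l % ((Ww w : ℕ) : ℤ)) ∈ GS ∧
        IsCoprime (dt r x) (x 1) ∧
        ∀ l : Fin 6 → ℤ, l ≠ 0 → (∀ i, |l i| ≤ (K₀ : ℤ)) → ∑ i, l i * tw r x i ≠ 0) ⊆
      ((XX r (1 / 44) B K₀).filter fun x => ((Ww w : ℕ) : ℤ) ∣ Q a x ∧
        ((Ww w : ℕ) : ℤ) ∣ Q b x ∧ |((Q a x : ℤ) : ℝ)| ≤ h * A * (lam * A : ℝ) ^ 2 ∧
        |((Q b x : ℤ) : ℝ)| ≤ h * A * (lam * A : ℝ) ^ 2 ∧ (∀ l, ((Ww N : ℕ) : ℤ) ∣ x l - τ l) ∧
        ∀ l, |2 * x l / (lam * A : ℝ) - σ * z l| ≤ 1 / (4 * N)) := by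
      intro x hx
      rw [Finset.mem_filter] at hx
      obtain ⟨hxX, hxGS, hxc, hxg⟩ := hx
      rw [hX, Finset.mem_filter] at hxX
      obtain ⟨hxpi, hx1, hx2, hx3⟩ := hxX
      obtain ⟨huz, hqa, hqb⟩ := hreg x hx1 hx2 hx3
      obtain ⟨-, hva, hvb, -, hvτ⟩ := hGSmem _ hxGS
      have hmod : ∀ l, ((Ww w : ℕ) : ℤ) ∣ x l - x l % ((Ww w : ℕ) : ℤ) := fun l =>
        Int.dvd_self_sub_emod
      have hQreal : ∀ c : Idx → ℤ, ((Q c x : ℤ) : ℝ) =
          A * (B : ℝ) ^ 2 * Q (fun q => (c q : ℝ) / A) (fun l => (x l : ℝ) / B) := by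
        intro c
        unfold Q
        rw [Finset.mul_sum]
        push_cast
        apply Finset.sum_congr rfl
        intro q _
        field_simp
      have hQbd : ∀ c : Idx → ℤ, |Q (fun q => (c q : ℝ) / A) (fun l => (x l : ℝ) / B)| ≤ h →
          |((Q c x : ℤ) : ℝ)| ≤ h * A * (lam * A : ℝ) ^ 2 := by
        intro c hc
        rw [hQreal c, hBcast, abs_mul, abs_of_nonneg (by positivity : (0 : ℝ) ≤ A * (B : ℝ) ^ 2)]
        calc A * (B : ℝ) ^ 2 * _ ≤ A * (B : ℝ) ^ 2 * h :=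
              mul_le_mul_of_nonneg_left hc (by positivity)
          _ = h * A * (B : ℝ) ^ 2 := by ring
      rw [Finset.mem_filter]
      refine ⟨?_, LOWT_Qmod _ a x _ hmod hva, LOWT_Qmod _ b x _ hmod hvb, hQbd a hqa, hQbd b hqb,
        ?_, ?_⟩
      · unfold XX
        rw [Finset.mem_filter]
        exact ⟨hxpi, hdt x huz, hxc, hxg⟩
      · intro l
        have h3 : ((Ww N : ℕ) : ℤ) ∣ x l - x l % ((Ww w : ℕ) : ℤ) :=
          (Int.natCast_dvd_natCast.2 (LOWT_Ww hwN)).trans (hmod l)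
        have h4 := dvd_add h3 (hvτ l)
        rwa [sub_add_sub_cancel] at h4
      · intro l
        have e : 2 * (x l : ℝ) / (lam * A : ℝ) - σ * z l = 2 * ((x l : ℝ) / B - zz l) := by
          rw [hBcast, hzz]
          ring
        rw [e, abs_mul, abs_of_pos (by norm_num : (0 : ℝ) < 2), le_div_iff₀ (by positivity)]
        have := huz l
        nlinarith
    have hcard := Finset.card_le_card hsub
    have hcard' : (((X.filter fun x => (fun l => x l % ((Ww w : ℕ) : ℤ)) ∈ GS ∧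
        IsCoprime (dt r x) (x 1) ∧
        ∀ l : Fin 6 → ℤ, l ≠ 0 → (∀ i, |l i| ≤ (K₀ : ℤ)) → ∑ i, l i * tw r x i ≠ 0).card : ℕ) : ℝ) ≤
        _ := Nat.cast_le.2 hcard
    refine le_trans (le_of_eq ?_) (hmain.trans hcard')
    rw [hBcast]
    ring
  · intro x x' hxx
    have : hat x = hat x' := by
      rw [hhat]
      funext l
      by_cases hl : l = i ∨ l = j
      · simp only [hl, if_true]
      · simp only [hl, if_false]
        push Not at hl
        rw [hxx l hl.1 hl.2]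
    rw [hψ]
    simp only
    rw [this]
  · intro x
    rw [hX, Finset.mem_filter]
    constructor
    · rintro ⟨-, h3⟩
      exact h3
    · rintro ⟨h3, h4, h5⟩
      refine ⟨?_, h3, h4, h5⟩
      rw [Fintype.mem_piFinset]
      intro l
      rw [Finset.mem_Icc]
      exact abs_le.1 (hxB x (hreg x h3 h4 h5).1 l)
  · intro x hx
    rw [hX, Finset.mem_filter] at hx
    obtain ⟨-, hx1, hx2, hx3⟩ := hx
    have huz := (hreg x hx1 hx2 hx3).1
    refine ⟨hxB x huz, ?_⟩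
    have h3 := hdt x huz
    have h4 : (0 : ℝ) < dt r x := by linarith
    exact_mod_cast h4

end Pool.HPQ
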