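import Pool.Agent.Work.MP_9fb703_hp.InterfaceW
import Pool.Agent.Work.MP_9fb703_hp.B_FINT
import Pool.Agent.Work.MP_9fb703_hp.B_LOWT

/-! # Block FINS: the strong form: many small primitive zeros in every direction and in every
class of the punctured affine cone (helper66, adapted from FINT by helper38 and CHEB by
helper78) -/

set_option autoImplicit false

namespace Pool.HPQ

open Finset

/-- There are at least `c L^2` primitive zeros with coordinates at most `L A`, close to the ray of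
any real zero and congruent to any primitive `p`-adic zeros. -/
def WS (N L A : ℕ) (c : ℝ) (a b : Idx → ℤ) : Prop :=
  ∀ z : Fin 6 → ℝ, RZ a b z →
    ∀ M : (p : ℕ) → [Fact p.Prime] → Fin 6 → ℤ_[p], (∀ (p : ℕ) [Fact p.Prime], PZ p a b (M p)) →
    ∃ S : Finset (Fin 6 → ℤ), c * (L : ℝ) ^ 2 ≤ (S.card : ℝ) ∧ ∀ x ∈ S,
      Q a x = 0 ∧ Q b x = 0 ∧ (∀ i, |x i| ≤ (L * A : ℤ)) ∧ (∀ d : ℤ, (∀ i, d ∣ x i) → IsUnit d) ∧
      (∃ μ : ℝ, 0 < μ ∧ ∀ i, |μ * x i - z i| ≤ 1 / N) ∧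
      ∀ (p : ℕ) [Fact p.Prime], p ≤ N → ∀ i, ‖(x i : ℤ_[p]) - M p i‖ ≤ (p : ℝ) ^ (-(N : ℤ))

open Classical in
/-- MAINS: the strong form. -/
def Stmt_MAINS : Prop :=
  ∀ (ε : ℝ) (N : ℕ), 0 < ε → 1 ≤ N → ∃ (c : ℝ) (L₀ : ℕ), 0 < c ∧ ∀ L, L₀ ≤ L → ∃ A₀ : ℕ,
    ∀ A, A₀ ≤ A →
    (((Box A ×ˢ Box A).filter fun z => (RealSol z.1 z.2 ∧
      (∀ (p : ℕ) [Fact p.Prime], PadicSol p z.1 z.2)) ∧ ¬ WS N L A c z.1 z.2).card : ℝ) ≤
      ε * (2 * (A : ℝ) + 1) ^ 42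

private theorem finsc_card : Fintype.card Idx = 21 := by decide

/-- Reduction modulo a large `R` is injective on the box. -/
private theorem finsc_inj {R A : ℕ} (hR : 2 * A < R) {a b : Idx → ℤ} (ha : a ∈ Box A)
    (hb : b ∈ Box A) (h : rd R a = rd R b) : a = b := by
  funext q
  have h1 : ((a q : ℤ) : ZMod R) = ((b q : ℤ) : ZMod R) := congrFun h q
  rw [ZMod.intCast_eq_intCast_iff_dvd_sub] at h1
  have ha1 : a q ∈ Finset.Icc (-(A : ℤ)) A := by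
    unfold Box at ha
    exact (Fintype.mem_piFinset.1 ha) q
  have hb1 : b q ∈ Finset.Icc (-(A : ℤ)) A := by
    unfold Box at hb
    exact (Fintype.mem_piFinset.1 hb) q
  rw [Finset.mem_Icc] at ha1 hb1
  have h2 : b q - a q = 0 := by
    apply Int.eq_zero_of_abs_lt_dvd h1
    rw [abs_lt]
    constructor <;> omega
  omega

private theorem finsc_Fw (R T : ℕ) [NeZero R] (n : ZMod R) : 0 ≤ Fw R T n := by
  unfold Fw
  positivity

open Classical in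
/-- The number of pairs with few zeros in `X` but with a large local model. -/
theorem fins_CHEB (hVAR : Stmt_VAR) (hFLB1 : Stmt_FLB1) :
    ∀ (R T H W A : ℕ) [NeZero R], 0 < A → R = 2 * A * T → 2 ≤ T → 0 < H → 0 < W → W ∣ R →
    2 * H * W ≤ R → ∀ (X : Finset (Fin 6 → ℤ)) (L : ℝ), 0 ≤ L →
    ((((Box A) ×ˢ (Box A)).filter fun p => NN R X (rd R p.1) (rd R p.2) ≤ L ∧
        2 * L ≤ NL R H W X (rd R p.1) (rd R p.2)).card : ℝ) * L ^ 2 ≤
      (Real.pi ^ 2 * A / 2) ^ 42 * (2 * ∑ x ∈ X, ∑ y ∈ X, PP R T x y * PS R T H W x y) := by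
  classical
  intro R T H W A _ hA hR hT hH hW hWR hHW X L hL
  have hTR : T ≤ R := by
    rw [hR]
    nlinarith
  have hRA : 2 * A < R := by
    rw [hR]
    nlinarith
  have hV := hVAR R T H W (by omega) hTR hH hW hWR hHW X
  set V : ℝ := 2 * ∑ x ∈ X, ∑ y ∈ X, PP R T x y * PS R T H W x y with hVdef
  set S := ((Box A) ×ˢ (Box A)).filter fun p => NN R X (rd R p.1) (rd R p.2) ≤ L ∧
        2 * L ≤ NL R H W X (rd R p.1) (rd R p.2) with hS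
  set f : (Idx → ZMod R) × (Idx → ZMod R) → ℝ := fun z =>
    (∏ q, Fw R T (z.1 q)) * (∏ q, Fw R T (z.2 q)) * (NN R X z.1 z.2 - NL R H W X z.1 z.2) ^ 2
    with hf
  have hf0 : ∀ z, 0 ≤ f z := by
    intro z
    have h1 : 0 ≤ ∏ q, Fw R T (z.1 q) := Finset.prod_nonneg fun q _ => finsc_Fw R T _
    have h2 : 0 ≤ ∏ q, Fw R T (z.2 q) := Finset.prod_nonneg fun q _ => finsc_Fw R T _
    exact mul_nonneg (mul_nonneg h1 h2) (sq_nonneg _)
  have hinj : Set.InjOn (fun p : (Idx → ℤ) × (Idx → ℤ) => (rd R p.1, rd R p.2)) S := by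
    intro p hp q hq hpq
    rw [Finset.mem_coe, hS, Finset.mem_filter, Finset.mem_product] at hp hq
    simp only [Prod.mk.injEq] at hpq
    exact Prod.ext (finsc_inj hRA hp.1.1 hq.1.1 hpq.1) (finsc_inj hRA hp.1.2 hq.1.2 hpq.2)
  have h1 : ∑ p ∈ S, f (rd R p.1, rd R p.2) ≤ V := by
    calc ∑ p ∈ S, f (rd R p.1, rd R p.2) =
        ∑ z ∈ S.image (fun p : (Idx → ℤ) × (Idx → ℤ) => (rd R p.1, rd R p.2)), f z :=
          (Finset.sum_image hinj).symm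
      _ ≤ ∑ z : (Idx → ZMod R) × (Idx → ZMod R), f z :=
          Finset.sum_le_sum_of_subset_of_nonneg (Finset.subset_univ _) fun z _ _ => hf0 z
      _ = ∑ a : Idx → ZMod R, ∑ b : Idx → ZMod R, f (a, b) := Fintype.sum_prod_type _
      _ ≤ V := hV
  have hApos : (0 : ℝ) < A := by exact_mod_cast hA
  have hw0 : 0 ≤ 2 / (Real.pi ^ 2 * A) := by positivity
  have hweight : ∀ a ∈ Box A, (2 / (Real.pi ^ 2 * A)) ^ 21 ≤ ∏ q, Fw R T (rd R a q) := by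
    intro a ha
    calc (2 / (Real.pi ^ 2 * A)) ^ 21 = ∏ _q : Idx, 2 / (Real.pi ^ 2 * (A : ℝ)) := by
          rw [Finset.prod_const, Finset.card_univ, finsc_card]
      _ ≤ ∏ q, Fw R T (rd R a q) := by
          refine Finset.prod_le_prod (fun _ _ => hw0) fun q _ => ?_
          have ha1 : a q ∈ Finset.Icc (-(A : ℤ)) A := by
            unfold Box at ha
            exact (Fintype.mem_piFinset.1 ha) q
          exact hFLB1 R T A (a q) hA hR (abs_le.2 (Finset.mem_Icc.1 ha1))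
  have h2 : (S.card : ℝ) * ((2 / (Real.pi ^ 2 * A)) ^ 42 * L ^ 2) ≤
      ∑ p ∈ S, f (rd R p.1, rd R p.2) := by
    rw [← nsmul_eq_mul, ← Finset.sum_const]
    refine Finset.sum_le_sum fun p hp => ?_
    rw [hS, Finset.mem_filter, Finset.mem_product] at hp
    obtain ⟨⟨hp1, hp2⟩, hp3, hp4⟩ := hp
    have h3 := hweight p.1 hp1
    have h4 := hweight p.2 hp2
    have h5 : (2 / (Real.pi ^ 2 * (A : ℝ))) ^ 42 =
        (2 / (Real.pi ^ 2 * (A : ℝ))) ^ 21 * (2 / (Real.pi ^ 2 * (A : ℝ))) ^ 21 := by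
      rw [← pow_add]
    rw [hf, h5]
    simp only
    refine mul_le_mul (mul_le_mul h3 h4 (pow_nonneg hw0 _)
      ((pow_nonneg hw0 _).trans h3)) ?_ (sq_nonneg _) ?_
    · nlinarith [mul_nonneg (by linarith : 0 ≤ NL R H W X (rd R p.1) (rd R p.2) -
        NN R X (rd R p.1) (rd R p.2) - L) (by linarith : 0 ≤ NL R H W X (rd R p.1) (rd R p.2) -
        NN R X (rd R p.1) (rd R p.2) + L)]
    · exact mul_nonneg ((pow_nonneg hw0 _).trans h3) ((pow_nonneg hw0 _).trans h4)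
  have h6 : (S.card : ℝ) * ((2 / (Real.pi ^ 2 * A)) ^ 42 * L ^ 2) ≤ V := h2.trans h1
  have h7 : (Real.pi ^ 2 * A / 2) ^ 42 * (2 / (Real.pi ^ 2 * (A : ℝ))) ^ 42 = 1 := by
    rw [← mul_pow]
    have : Real.pi ^ 2 * (A : ℝ) / 2 * (2 / (Real.pi ^ 2 * A)) = 1 := by
      have := Real.pi_pos
      field_simp
    rw [this, one_pow]
  have h8 : 0 ≤ (Real.pi ^ 2 * A / 2) ^ 42 := by positivity
  calc (S.card : ℝ) * L ^ 2 = ((Real.pi ^ 2 * A / 2) ^ 42 * (2 / (Real.pi ^ 2 * (A : ℝ))) ^ 42) *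
        ((S.card : ℝ) * L ^ 2) := by rw [h7, one_mul]
    _ = (Real.pi ^ 2 * A / 2) ^ 42 * ((S.card : ℝ) * ((2 / (Real.pi ^ 2 * A)) ^ 42 * L ^ 2)) := by
        ring
    _ ≤ (Real.pi ^ 2 * A / 2) ^ 42 * V := mul_le_mul_of_nonneg_left h6 h8


open Classical in
/-- The class of `-τ`. -/
theorem fins_neg (n m : ℕ) (τ τ' r : Fin 6 → ℤ) (a b : Idx → ℤ) (hm : 0 < m) (hn : n ∣ m)
    (h : ∀ l, (n : ℤ) ∣ τ' l + τ l) : (gt n m τ r a b).card ≤ (gt n m τ' r a b).card := by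
  have hm' : (0 : ℤ) < m := by exact_mod_cast hm
  have hn' : (n : ℤ) ∣ (m : ℤ) := by exact_mod_cast hn
  have key : ∀ x : Fin 6 → ℤ, ∀ l, (m : ℤ) ∣ (-x l) % (m : ℤ) + x l := by
    intro x l
    have := Int.emod_add_mul_ediv (-x l) (m : ℤ)
    exact ⟨-(-x l / m), by linarith⟩
  have hQ : ∀ (c : Idx → ℤ) (x y : Fin 6 → ℤ), (∀ l, (m : ℤ) ∣ y l + x l) →
      (m : ℤ) ∣ Q c y - Q c x := by
    intro c x y hxy
    unfold Q
    rw [← Finset.sum_sub_distrib]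
    apply Finset.dvd_sum
    intro q _
    obtain ⟨u, hu⟩ := hxy q.1.1
    obtain ⟨v, hv⟩ := hxy q.1.2
    have h1 : y q.1.1 = m * u - x q.1.1 := by linarith
    have h2 : y q.1.2 = m * v - x q.1.2 := by linarith
    rw [h1, h2]
    exact ⟨c q * (u * (m * v) - u * x q.1.2 - v * x q.1.1), by ring⟩
  have hgcd : ∀ (x y : Fin 6 → ℤ), (∀ l, (m : ℤ) ∣ y l + x l) →
      Int.gcd (Int.gcd (dt r x) (x 1)) m = 1 → Int.gcd (Int.gcd (dt r y) (y 1)) m = 1 := by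
    intro x y hxy hx
    have hd : (m : ℤ) ∣ dt r y + dt r x := by
      unfold dt
      rw [← Finset.sum_add_distrib]
      apply Finset.dvd_sum
      intro i _
      rw [← mul_add]
      exact Dvd.dvd.mul_left (hxy i) _
    by_contra hne
    obtain ⟨p, hp, hpd⟩ := Nat.exists_prime_and_dvd hne
    have hpm : (p : ℤ) ∣ (m : ℤ) := by
      exact_mod_cast Int.natCast_dvd_natCast.1 ((Int.natCast_dvd_natCast.2 hpd).trans
        (Int.gcd_dvd_right _ _))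
    have hp1 : (p : ℤ) ∣ (Int.gcd (dt r y) (y 1) : ℤ) :=
      (Int.natCast_dvd_natCast.2 hpd).trans (Int.gcd_dvd_left _ _)
    have hp2 : (p : ℤ) ∣ dt r y := hp1.trans (Int.gcd_dvd_left _ _)
    have hp3 : (p : ℤ) ∣ y 1 := hp1.trans (Int.gcd_dvd_right _ _)
    have hp4 : (p : ℤ) ∣ dt r x := by
      have := dvd_sub (hpm.trans hd) hp2
      rwa [add_sub_cancel_left] at this
    have hp5 : (p : ℤ) ∣ x 1 := by
      have := dvd_sub (hpm.trans (hxy 1)) hp3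
      rwa [add_sub_cancel_left] at this
    have hp6 : (p : ℤ) ∣ (Int.gcd (Int.gcd (dt r x) (x 1)) m : ℤ) :=
      Int.dvd_coe_gcd (Int.dvd_coe_gcd hp4 hp5) hpm
    rw [hx] at hp6
    have := Int.natCast_dvd_natCast.1 hp6
    exact hp.one_lt.ne' (Nat.dvd_one.1 this)
  refine Finset.card_le_card_of_injOn (fun x l => (-x l) % (m : ℤ)) ?_ ?_
  · intro x hx
    rw [Finset.mem_coe] at hx ⊢
    unfold gt gg at hx ⊢
    rw [Finset.mem_filter, Finset.mem_filter] at hx ⊢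
    obtain ⟨⟨hx1, hx2, hx3, hx4⟩, hx5⟩ := hx
    refine ⟨⟨?_, ?_, ?_, ?_⟩, ?_⟩
    · unfold cs
      rw [Fintype.mem_piFinset]
      intro l
      rw [Finset.mem_Ico]
      exact ⟨Int.emod_nonneg _ hm'.ne', Int.emod_lt_of_pos _ hm'⟩
    · have := dvd_add (hQ a x _ (key x)) hx2
      rwa [sub_add_cancel] at this
    · have := dvd_add (hQ b x _ (key x)) hx3
      rwa [sub_add_cancel] at this
    · exact hgcd x _ (key x) hx4
    · intro l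
      have h1 := hn'.trans (key x l)
      have h2 := dvd_sub (dvd_sub h1 (hx5 l)) (h l)
      have e : (-x l) % (m : ℤ) - τ' l = (-x l) % (m : ℤ) + x l - (x l - τ l) - (τ' l + τ l) := by
        ring
      show (n : ℤ) ∣ (-x l) % (m : ℤ) - τ' l
      rw [e]
      exact h2
  · intro x hx y hy hxy
    rw [Finset.mem_coe] at hx hy
    unfold gt gg cs at hx hy
    rw [Finset.mem_filter, Finset.mem_filter, Fintype.mem_piFinset] at hx hy
    funext l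
    have h1 := congrFun hxy l
    simp only at h1
    have h2 := key x l
    have h3 := key y l
    have hx1 := Finset.mem_Ico.1 (hx.1.1 l)
    have hy1 := Finset.mem_Ico.1 (hy.1.1 l)
    have h4 : (m : ℤ) ∣ x l - y l := by
      have := dvd_sub h2 h3
      rw [h1] at this
      have e : (-y l) % (m : ℤ) + x l - ((-y l) % (m : ℤ) + y l) = x l - y l := by ring
      rwa [e] at this
    have h5 : x l - y l = 0 := by
      apply Int.eq_zero_of_abs_lt_dvd h4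
      rw [abs_lt]
      constructor <;> omega
    omega

/-- Many zeros in the family give many zeros near `(z, M)`. -/
theorem fins_NN (R A B K₀ N : ℕ) (hN : 1 ≤ N) (r : Fin 6 → ℤ) (c : ℝ) (hB : 0 < B)
    (hR : 36 * A * B ^ 2 < R) (a b : Idx → ℤ) (ha : a ∈ Box A) (hb : b ∈ Box A)
    (z : Fin 6 → ℝ) (M : (p : ℕ) → [Fact p.Prime] → Fin 6 → ℤ_[p])
    (τ k : Fin 6 → ℤ) (σ : ℝ) (σi : ℤ) (hσi : (σi : ℝ) = σ) (hσ : σ = 1 ∨ σ = -1)
    (hτ : ∀ (p : ℕ) [Fact p.Prime], p ≤ N → ∀ l,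
      ‖(τ l : ℤ_[p]) - (σi : ℤ_[p]) * M p l‖ ≤ (p : ℝ) ^ (-(N : ℤ)))
    (hk : ∀ l, |σ * z l - (k l : ℝ) / (8 * N)| ≤ 1 / (8 * N)) (κ : ℝ)
    (h : κ ≤ NN R (fintX N r c B K₀ τ k) (rd R a) (rd R b)) :
    ∃ S : Finset (Fin 6 → ℤ), κ ≤ (S.card : ℝ) ∧ ∀ x ∈ S,
      Q a x = 0 ∧ Q b x = 0 ∧ (∀ i, |x i| ≤ (B : ℤ)) ∧ (∀ d : ℤ, (∀ i, d ∣ x i) → IsUnit d) ∧
      (∃ μ : ℝ, 0 < μ ∧ ∀ i, |μ * x i - z i| ≤ 1 / N) ∧
      ∀ (p : ℕ) [Fact p.Prime], p ≤ N → ∀ i, ‖(x i : ℤ_[p]) - M p i‖ ≤ (p : ℝ) ^ (-(N : ℤ)) := by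
  classical
  have hσii : σi * σi = 1 := by
    have : (σi : ℝ) * σi = 1 := by rw [hσi]; rcases hσ with rfl | rfl <;> norm_num
    exact_mod_cast this
  have hσ2 : σ * σ = 1 := by rcases hσ with rfl | rfl <;> norm_num
  have hσ3 : |σ| = 1 := by rcases hσ with rfl | rfl <;> simp
  have hσz : |σi| = 1 := by
    have : |(σi : ℝ)| = 1 := by rw [hσi]; exact hσ3
    exact_mod_cast this
  set F := (fintX N r c B K₀ τ k).filter fun x => Q (rd R a) (rd R x) = 0 ∧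
    Q (rd R b) (rd R x) = 0 with hF
  refine ⟨F.image fun x l => σi * x l, ?_, ?_⟩
  · rw [Finset.card_image_of_injOn]
    · refine h.trans (le_of_eq ?_)
      unfold NN
      rw [hF, Finset.card_filter]
      push_cast
      rfl
    · intro x _ y _ hxy
      funext l
      have h1 := congrFun hxy l
      simp only at h1
      calc x l = σi * σi * x l := by rw [hσii, one_mul]
        _ = σi * (σi * x l) := by ring
        _ = σi * (σi * y l) := by rw [h1]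
        _ = σi * σi * y l := by ring
        _ = y l := by rw [hσii, one_mul]
  · intro x' hx'
    obtain ⟨x, hx, rfl⟩ := Finset.mem_image.1 hx'
    rw [hF, Finset.mem_filter] at hx
    obtain ⟨hx, h1, h2⟩ := hx
    unfold fintX at hx
    rw [Finset.mem_filter] at hx
    obtain ⟨hx0, hxτ, hxk⟩ := hx
    unfold XX at hx0
    rw [Finset.mem_filter, Fintype.mem_piFinset] at hx0
    obtain ⟨hx1, hx2, hx4, -⟩ := hx0
    have hx3 : ∀ i, |x i| ≤ (B : ℤ) := fun i => abs_le.mpr (Finset.mem_Icc.mp (hx1 i))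
    rw [fin_Q_rd, ZMod.intCast_zmod_eq_zero_iff_dvd] at h1 h2
    have hR' : ((36 * A * B ^ 2 : ℕ) : ℤ) < (R : ℤ) := by exact_mod_cast hR
    push_cast at hR'
    have e1 : Q a x = 0 :=
      Int.eq_zero_of_abs_lt_dvd h1 (lt_of_le_of_lt (fin_Q_le A a ha x B hx3) hR')
    have e2 : Q b x = 0 :=
      Int.eq_zero_of_abs_lt_dvd h2 (lt_of_le_of_lt (fin_Q_le A b hb x B hx3) hR')
    have hN0 : (0 : ℝ) < N := by exact_mod_cast hN
    have hB0 : (0 : ℝ) < B := by exact_mod_cast hB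
    have hQσ : ∀ c : Idx → ℤ, Q c (fun l => σi * x l) = Q c x := by
      intro c
      unfold Q
      refine Finset.sum_congr rfl fun q _ => ?_
      calc c q * (σi * x q.1.1 * (σi * x q.1.2)) = (σi * σi) * (c q * (x q.1.1 * x q.1.2)) := by
            ring
        _ = _ := by rw [hσii, one_mul]
    refine ⟨by rw [hQσ, e1], by rw [hQσ, e2], ?_, ?_, ⟨2 / B, by positivity, ?_⟩, ?_⟩
    · intro i
      rw [abs_mul, hσz, one_mul]
      exact hx3 i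
    · intro d hd
      have hd2 : ∀ i, d ∣ x i := by
        intro i
        have h3 := (hd i).mul_left σi
        rwa [← mul_assoc, hσii, one_mul] at h3
      refine hx4.isUnit_of_dvd' ?_ (hd2 1)
      unfold dt
      exact Finset.dvd_sum fun i _ => (hd2 i).mul_left _
    · intro i
      have h3 := hxk i
      have h4 := hk i
      have h5 : |2 * (x i : ℝ) / (B : ℝ) - σ * z i| ≤ 3 / (8 * N) + 1 / (8 * N) := by
        have e : 2 * (x i : ℝ) / (B : ℝ) - σ * z i = (2 * x i / (B : ℝ) - (k i : ℝ) / (8 * N)) -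
          (σ * z i - (k i : ℝ) / (8 * N)) := by ring
        rw [e]
        exact (abs_sub _ _).trans (add_le_add h3 h4)
      have h6 : (3 : ℝ) / (8 * N) + 1 / (8 * N) ≤ 1 / N := by
        rw [← add_div, div_le_div_iff₀ (by positivity) hN0]
        linarith
      have h7 : 2 / (B : ℝ) * ((σi * x i : ℤ) : ℝ) - z i =
          σ * (2 * (x i : ℝ) / (B : ℝ) - σ * z i) := by
        have h8 : σ * (2 * (x i : ℝ) / (B : ℝ) - σ * z i) =
            2 / B * (σ * x i) - (σ * σ) * z i := by ring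
        rw [h8, hσ2, one_mul]
        push_cast
        rw [hσi]
      rw [h7, abs_mul, hσ3, one_mul]
      exact h5.trans h6
    · intro p hp hpN i
      have h3 := fint_dvd N p hpN (x i) (τ i) ((σi : ℤ_[p]) * M p i) (hxτ i) (hτ p hpN i)
      have hσp : (σi : ℤ_[p]) * (σi : ℤ_[p]) = 1 := by
        exact_mod_cast congrArg (fun n : ℤ => (n : ℤ_[p])) hσii
      have h4 : (((σi * x i : ℤ) : ℤ_[p])) - M p i =
          (σi : ℤ_[p]) * ((x i : ℤ_[p]) - (σi : ℤ_[p]) * M p i) := by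
        push_cast
        calc (σi : ℤ_[p]) * (x i : ℤ_[p]) - M p i =
            (σi : ℤ_[p]) * (x i : ℤ_[p]) - ((σi : ℤ_[p]) * (σi : ℤ_[p])) * M p i := by
              rw [hσp, one_mul]
          _ = _ := by ring
      rw [h4, norm_mul]
      calc ‖(σi : ℤ_[p])‖ * ‖(x i : ℤ_[p]) - (σi : ℤ_[p]) * M p i‖ ≤
          1 * ‖(x i : ℤ_[p]) - (σi : ℤ_[p]) * M p i‖ :=
            mul_le_mul_of_nonneg_right (PadicInt.norm_le_one _) (norm_nonneg _)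
        _ ≤ _ := by rw [one_mul]; exact h3

theorem p_FINS (hV : Stmt_VAR) (hF1 : Stmt_FLB1) (hT : Stmt_TWI) (hFW : Stmt_FW2)
    (hP : Stmt_PADT) (hR : Stmt_RSNG) (hL : Stmt_LOWT) (hF : Stmt_FLB2) : Stmt_MAINS := by
  classical
  have hC := fins_CHEB hV hF1
  intro ε Nn hε hNn
  obtain ⟨C, hC1, hTW⟩ := hT
  obtain ⟨δ, A₁, hδ0, hδ1, hRS⟩ := hR (ε / 3) (by positivity)
  obtain ⟨P₀, κp, w₁, hP0, hκp, hNw₁, hPA⟩ := hP (ε / 3) Nn (by positivity) hNn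
  obtain ⟨c, κl, w₂, hc0, hc1, hκl, -, hLO⟩ := hL P₀ Nn δ hP0 hNn hδ0 hδ1
  have hpi : 0 < Real.pi := Real.pi_pos
  have hC0 : 0 < C := by linarith
  obtain ⟨N, hNdef⟩ : ∃ N : ℕ, N = 12 * P₀ := ⟨_, rfl⟩
  have hN0 : 0 < N := by omega
  obtain ⟨TR, hTR⟩ : ∃ TR : Finset ((Fin 6 → ℤ) × (Fin 6 → ℤ) × (Fin 6 → ℤ)),
    TR = finRR P₀ ×ˢ cs (Ww Nn) (Fin 6) ×ˢ fintG Nn := ⟨_, rfl⟩
  have hTRm : ∀ q ∈ TR, q.1 ∈ finRR P₀ := by
    intro q hq
    rw [hTR] at hq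
    exact (Finset.mem_product.mp hq).1
  obtain ⟨Nr, hNr⟩ : ∃ Nr : ℝ, Nr = TR.card + 1 := ⟨_, rfl⟩
  have hNr0 : 0 < Nr := by rw [hNr]; positivity
  obtain ⟨κ, hκ⟩ : ∃ κ : ℝ, κ = κl * κp / Real.pi ^ 4 / 2 := ⟨_, rfl⟩
  have hκ0 : 0 < κ := by rw [hκ]; positivity
  obtain ⟨η, hη⟩ : ∃ η : ℝ, η = ε * κ ^ 2 / (3 * Nr * ((Real.pi ^ 2 / 4) ^ 42 * 2 *
    (C * ((N : ℝ) / c) ^ 10 * (N : ℝ) ^ 24))) := ⟨_, rfl⟩
  have hη0 : 0 < η := by rw [hη]; positivity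
  obtain ⟨w, hw⟩ : ∃ w : ℕ, w = w₁ + w₂ + ⌈5 / η⌉₊ + 1 := ⟨_, rfl⟩
  obtain ⟨h, hh⟩ : ∃ h : ℝ, h = min 1 (η / 10) := ⟨_, rfl⟩
  have hh0 : 0 < h := by rw [hh]; exact lt_min one_pos (by positivity)
  have hh1 : h ≤ 1 := by rw [hh]; exact min_le_left _ _
  have hh2 : h ≤ η / 10 := by rw [hh]; exact min_le_right _ _
  refine ⟨κ, ⌈5 / η⌉₊ + 2, hκ0, ?_⟩
  intro lam hlam
  have hlam1 : 5 / η ≤ lam := by
    have := Nat.le_ceil (5 / η)
    have h2 : ((⌈5 / η⌉₊ : ℕ) : ℝ) ≤ lam := by exact_mod_cast (by omega : ⌈5 / η⌉₊ ≤ lam)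
    linarith
  have hlam0 : (0 : ℝ) < lam := lt_of_lt_of_le (by positivity) hlam1
  have hlam2 : (1 : ℝ) ≤ lam := by
    have : 1 ≤ lam := by omega
    exact_mod_cast this
  obtain ⟨K₁, hK₁⟩ : ∃ K₁ : ℝ, K₁ = 1 + 5 * (lam : ℝ) ^ 4 / η := ⟨_, rfl⟩
  have hK₁0 : 0 ≤ 5 * (lam : ℝ) ^ 4 / η := by positivity
  obtain ⟨K₀, hK₀⟩ : ∃ K₀ : ℕ, K₀ = ⌈2 * K₁ * N / c⌉₊ + ⌈24 * ((N : ℝ) ^ 3 * lam / 2) ^ 2⌉₊ :=
    ⟨_, rfl⟩
  obtain ⟨A₂, hPA2⟩ := hPA w (by omega)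
  obtain ⟨A₃, hLO3⟩ := hLO w h lam K₀ (by omega) hh0 hh1 (by omega)
  refine ⟨A₁ + A₂ + A₃ + 1 + ⌈((Ww w : ℝ) + 1) / h⌉₊ + ⌈8 * (N : ℝ) ^ 3 / c⌉₊ +
    ⌈(5 * (lam : ℝ) ^ 4 / η) ^ 2⌉₊, ?_⟩
  intro A hA
  have hA0 : 0 < A := by omega
  have hA0' : (0 : ℝ) < A := by exact_mod_cast hA0
  have hA1 : (1 : ℝ) ≤ A := by exact_mod_cast hA0
  have hAa : ((Ww w : ℝ) + 1) / h ≤ A :=
    (Nat.le_ceil _).trans (by exact_mod_cast (by omega : ⌈((Ww w : ℝ) + 1) / h⌉₊ ≤ A))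
  have hAb : 8 * (N : ℝ) ^ 3 / c ≤ A :=
    (Nat.le_ceil _).trans (by exact_mod_cast (by omega : ⌈8 * (N : ℝ) ^ 3 / c⌉₊ ≤ A))
  have hAc : (5 * (lam : ℝ) ^ 4 / η) ^ 2 ≤ A :=
    (Nat.le_ceil _).trans (by exact_mod_cast (by omega : ⌈(5 * (lam : ℝ) ^ 4 / η) ^ 2⌉₊ ≤ A))
  obtain ⟨B, hB⟩ : ∃ B : ℕ, B = lam * A := ⟨_, rfl⟩
  have hBc : (B : ℝ) = lam * A := by rw [hB]; push_cast; ring
  have hB0 : 0 < B := by rw [hB]; exact Nat.mul_pos (by omega) hA0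
  have hAB : (A : ℝ) ≤ B := by rw [hBc]; nlinarith
  have hW0 : 0 < Ww w := fin_Ww_pos w
  obtain ⟨W, hW⟩ : ∃ W : ℕ, W = Ww w := ⟨_, rfl⟩
  rw [← hW] at hW0
  have hW0' : (0 : ℝ) < W := by exact_mod_cast hW0
  obtain ⟨m₀, hm₀⟩ : ∃ m₀ : ℕ, m₀ = ⌈h * A * ((lam : ℝ) * A) ^ 2⌉₊ := ⟨_, rfl⟩
  have hhA : (W : ℝ) + 1 ≤ h * A := by
    rw [div_le_iff₀ hh0] at hAa
    rw [hW]
    linarith
  have hhAB : (W : ℝ) + 1 ≤ h * A * ((lam : ℝ) * A) ^ 2 := by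
    have h1 : (1 : ℝ) ≤ (lam : ℝ) * A := by nlinarith
    have h2 : (1 : ℝ) ≤ ((lam : ℝ) * A) ^ 2 := one_le_pow₀ h1
    have h3 : 0 < h * A := by positivity
    nlinarith
  have hm1 : h * A * ((lam : ℝ) * A) ^ 2 ≤ m₀ := by rw [hm₀]; exact Nat.le_ceil _
  have hm2 : (m₀ : ℝ) ≤ 2 * (h * A * ((lam : ℝ) * A) ^ 2) := by
    have := Nat.ceil_lt_add_one (by positivity : (0 : ℝ) ≤ h * A * ((lam : ℝ) * A) ^ 2)
    rw [← hm₀] at this
    linarith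
  have hWm : W ≤ m₀ := by
    have : (W : ℝ) ≤ m₀ := by linarith
    exact_mod_cast this
  have hm0 : 0 < m₀ := by omega
  have hm0' : (0 : ℝ) < m₀ := by exact_mod_cast hm0
  obtain ⟨Z, hZ⟩ : ∃ Z : ℕ, Z = 36 * (N * B) ^ 4 := ⟨_, rfl⟩
  have hZ0 : 0 < Z := by rw [hZ]; positivity
  obtain ⟨T, hTd⟩ : ∃ T : ℕ, T = m₀ * W * Z := ⟨_, rfl⟩
  obtain ⟨H, hHd⟩ : ∃ H : ℕ, H = A * W * Z := ⟨_, rfl⟩
  obtain ⟨R, hRd⟩ : ∃ R : ℕ, R = 2 * A * T := ⟨_, rfl⟩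
  have hT0 : 0 < T := by rw [hTd]; positivity
  have hH0 : 0 < H := by rw [hHd]; positivity
  have hR0 : 0 < R := by rw [hRd]; positivity
  have : NeZero R := ⟨hR0.ne'⟩
  have hRH : R = 2 * m₀ * H := by rw [hRd, hTd, hHd]; ring
  have hWR : W ∣ R := by rw [hRd, hTd]; exact ⟨2 * A * (m₀ * Z), by ring⟩
  have hHW : 2 * H * W ≤ R := by
    rw [hRH]
    calc 2 * H * W ≤ 2 * H * m₀ := Nat.mul_le_mul_left _ hWm
      _ = 2 * m₀ * H := by ring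
  have hZT : Z ≤ T := by
    rw [hTd]
    exact Nat.le_mul_of_pos_left _ (by positivity)
  have hNB : 1 ≤ (N * B) ^ 4 := Nat.one_le_pow _ _ (by positivity)
  have hT2 : 2 ≤ T := by omega
  have hR36 : 36 * A * B ^ 2 < R := by
    have h1 : B ^ 2 ≤ (N * B) ^ 4 := by
      calc B ^ 2 ≤ (N * B) ^ 2 := Nat.pow_le_pow_left (Nat.le_mul_of_pos_left _ hN0) 2
        _ ≤ (N * B) ^ 4 := Nat.pow_le_pow_right (by positivity) (by norm_num)
    calc 36 * A * B ^ 2 ≤ 36 * A * (N * B) ^ 4 := Nat.mul_le_mul_left _ h1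
      _ = A * Z := by rw [hZ]; ring
      _ ≤ A * T := Nat.mul_le_mul_left _ hZT
      _ < R := by
        rw [hRd]
        have : 0 < A * T := by positivity
        linarith
  have hE : ((B : ℝ) / A) ^ 2 + ((B : ℝ) / A) ^ 4 * (1 / (w : ℝ) + m₀ / (A * (B : ℝ) ^ 2)) +
        ((B : ℝ) / A) ^ 8 / K₁ + ((B : ℝ) / A) ^ 8 / √B ≤ (lam : ℝ) ^ 4 * η := by
    have hBA : (B : ℝ) / A = lam := by rw [hBc]; field_simp
    rw [hBA]
    refine fin_E η lam _ _ K₁ _ hη0 hlam2 hlam1 ?_ ?_ ?_ ?_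
    · have hw' : 5 / η ≤ w := by
        have := Nat.le_ceil (5 / η)
        rw [hw]
        push_cast
        have : (0 : ℝ) ≤ w₁ := by positivity
        have : (0 : ℝ) ≤ w₂ := by positivity
        linarith
      have hw0 : (0 : ℝ) < w := lt_of_lt_of_le (by positivity) hw'
      rw [div_le_iff₀ hη0] at hw'
      rw [div_le_iff₀ hw0]
      linarith
    · rw [div_le_iff₀ (by rw [hBc]; positivity), hBc]
      calc (m₀ : ℝ) ≤ 2 * (h * A * ((lam : ℝ) * A) ^ 2) := hm2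
        _ ≤ 2 * (η / 10 * A * ((lam : ℝ) * A) ^ 2) := by gcongr
        _ = _ := by ring
    · rw [hK₁]
      linarith
    · apply Real.le_sqrt_of_sq_le
      linarith
  have hSr : ∀ q ∈ TR, ∃ S : Finset ((Idx → ℤ) × (Idx → ℤ)),
      (∀ z ∈ Box A ×ˢ Box A,
        NN R (fintX Nn q.1 c B K₀ q.2.1 q.2.2) (rd R z.1) (rd R z.2) ≤ κ * (lam : ℝ) ^ 2 →
        2 * (κ * (lam : ℝ) ^ 2) ≤
          NL R H W (fintX Nn q.1 c B K₀ q.2.1 q.2.2) (rd R z.1) (rd R z.2) →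
          z ∈ S) ∧
      (S.card : ℝ) ≤ ε / (3 * Nr) * (2 * (A : ℝ) + 1) ^ 42 := by
    intro q hq
    have hr := hTRm q hq
    obtain ⟨r, hrd⟩ : ∃ r, r = q.1 := ⟨_, rfl⟩
    rw [← hrd] at hr ⊢
    have hr1 : (n1 r : ℝ) ≤ N := by
      rw [hNdef]
      exact_mod_cast fin_n1 P₀ r hr
    have hr1' : n1 r ≤ N := by exact_mod_cast hr1
    have hCr := hC R T H W A hA0 hRd hT2 hH0 hW0 hWR hHW (fintX Nn r c B K₀ q.2.1 q.2.2)
      (κ * (lam : ℝ) ^ 2) (by positivity)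
    have hsub := fint_sum hFW R T H W hH0 hW0 hWR hHW (fintX Nn r c B K₀ q.2.1 q.2.2)
      (XX r c B K₀) (Finset.filter_subset _ _)
    have key : ∀ S : Finset ((Idx → ℤ) × (Idx → ℤ)),
        (S.card : ℝ) * (κ * (lam : ℝ) ^ 2) ^ 2 ≤ (Real.pi ^ 2 * A / 2) ^ 42 *
          (2 * ∑ x ∈ XX r c B K₀, ∑ y ∈ XX r c B K₀, PP R T x y * PS R T H W x y) →
        (S.card : ℝ) ≤ ε / (3 * Nr) * (2 * (A : ℝ) + 1) ^ 42 := by
      intro S hSS
      refine fin_card _ A κ lam _ C (n1 r) N c _ η ε Nr hA0' hκ0 hlam0 hC0 (Nat.cast_nonneg _) hr1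
        (by exact_mod_cast hN0) hc0 hη hε hNr0 hSS
        (hTW R T H W m₀ K₀ w A B K₁ c r (fin_r0 P₀ r hr) hc0 hc1 hA0 ?_ hRd hRH hH0 hW0 hWR hHW
          (by omega) ?_ ?_ ?_ ?_ ?_ ?_) hE
      · rw [hB]
        exact Nat.mul_le_mul_right _ (by omega)
      · intro g hg1 hg2
        rw [hW]
        exact fin_dvd_Ww w g hg1 hg2
      · refine le_trans ?_ hAb
        gcongr
      · calc 2 * (n1 r * B) ^ 4 ≤ 36 * (N * B) ^ 4 := by
              apply Nat.mul_le_mul (by norm_num)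
              exact Nat.pow_le_pow_left (Nat.mul_le_mul_right _ hr1') 4
          _ = Z := hZ.symm
          _ ≤ T := hZT
      · rw [hK₁]; linarith
      · have h1 : 2 * K₁ * N / c ≤ ⌈2 * K₁ * N / c⌉₊ := Nat.le_ceil _
        have h2 : 2 * K₁ * n1 r / c ≤ 2 * K₁ * N / c := by
          have : 0 ≤ K₁ := by rw [hK₁]; linarith
          gcongr
        rw [hK₀]
        push_cast
        have : (0 : ℝ) ≤ ⌈24 * ((N : ℝ) ^ 3 * lam / 2) ^ 2⌉₊ := Nat.cast_nonneg _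
        linarith
      · have h1 : 24 * ((N : ℝ) ^ 3 * lam / 2) ^ 2 ≤ ⌈24 * ((N : ℝ) ^ 3 * lam / 2) ^ 2⌉₊ :=
          Nat.le_ceil _
        have h2 : (n1 r : ℝ) ^ 3 * B / (2 * A) = (n1 r : ℝ) ^ 3 * lam / 2 := by
          rw [hBc]
          field_simp
        have h3 : 24 * ((n1 r : ℝ) ^ 3 * B / (2 * A)) ^ 2 ≤ 24 * ((N : ℝ) ^ 3 * lam / 2) ^ 2 := by
          rw [h2]
          gcongr
        rw [hK₀]
        push_cast
        have : (0 : ℝ) ≤ ⌈2 * K₁ * N / c⌉₊ := Nat.cast_nonneg _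
        linarith
    refine ⟨_, ?_, key _ (hCr.trans ?_)⟩
    · intro z hz h1 h2
      exact Finset.mem_filter.mpr ⟨hz, h1, h2⟩
    · apply mul_le_mul_of_nonneg_left _ (by positivity)
      linarith only [hsub]
  choose! S hS hSc using hSr
  obtain ⟨t, ht, hPA3⟩ := hPA2 A (by omega)
  obtain ⟨S1, hS1, hS1c⟩ : ∃ S1 : Finset ((Idx → ℤ) × (Idx → ℤ)),
      (∀ z ∈ Box A ×ˢ Box A, RSing δ A z.1 z.2 → z ∈ S1) ∧
      (S1.card : ℝ) ≤ ε / 3 * (2 * (A : ℝ) + 1) ^ 42 :=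
    ⟨_, fun z hz h => Finset.mem_filter.mpr ⟨hz, h⟩, hRS A (by omega)⟩
  obtain ⟨S2, hS2, hS2c⟩ : ∃ S2 : Finset ((Idx → ℤ) × (Idx → ℤ)),
      (∀ z ∈ Box A ×ˢ Box A, (∀ (p : ℕ) [Fact p.Prime], PadicSol p z.1 z.2) →
        (∃ τ ∈ cs (Ww Nn) (Fin 6), LT Nn τ z.1 z.2 ∧
        ∃ s : Fin 6, ((gt (Ww Nn) (Ww w) τ (rv P₀ (t τ z.1 z.2) s) z.1 z.2).card : ℝ) <
          κp * (Ww w : ℝ) ^ 4) → z ∈ S2) ∧
      (S2.card : ℝ) ≤ ε / 3 * (2 * (A : ℝ) + 1) ^ 42 :=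
    ⟨_, fun z hz h1 h2 => Finset.mem_filter.mpr ⟨hz, h1, h2⟩, hPA3⟩
  refine (Nat.cast_le.mpr (Finset.card_le_card
    (t := S1 ∪ S2 ∪ TR.biUnion S) ?_)).trans ?_
  · intro z hz
    rw [Finset.mem_filter] at hz
    obtain ⟨hzB, ⟨-, hz2⟩, hz3⟩ := hz
    obtain ⟨hza, hzb⟩ := Finset.mem_product.mp hzB
    rw [Finset.mem_union, Finset.mem_union, Finset.mem_biUnion]
    by_cases c1 : RSing δ A z.1 z.2
    · exact Or.inl (Or.inl (hS1 z hzB c1))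
    by_cases c2 : ∃ τ ∈ cs (Ww Nn) (Fin 6), LT Nn τ z.1 z.2 ∧
        ∃ s : Fin 6, ((gt (Ww Nn) (Ww w) τ (rv P₀ (t τ z.1 z.2) s) z.1 z.2).card : ℝ) <
          κp * (Ww w : ℝ) ^ 4
    · exact Or.inl (Or.inr (hS2 z hzB hz2 c2))
    right
    push Not at c2
    unfold WS at hz3
    rw [not_forall] at hz3
    obtain ⟨zr, hz4⟩ := hz3
    rw [Classical.not_imp, not_forall] at hz4
    obtain ⟨hzr, M, hz5⟩ := hz4
    rw [Classical.not_imp] at hz5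
    obtain ⟨hM, hno⟩ := hz5
    obtain ⟨τ₀, hτ1₀, hτ2₀⟩ := fint_crt Nn M
    have hLT₀ : LT Nn τ₀ z.1 z.2 := fun p hp hpN => ⟨M p, hM p, hτ2₀ p hpN⟩
    obtain ⟨s, σ, hσ, hs⟩ := hLO3 A (by omega) z.1 hza z.2 hzb c1 zr hzr (t τ₀ z.1 z.2) (ht _ _ _)
    obtain ⟨k, hk1, hk2⟩ := fint_grid Nn hNn zr hzr.1 σ hσ
    have hr : rv P₀ (t τ₀ z.1 z.2) s ∈ finRR P₀ := fin_rv_mem P₀ _ s (ht _ _ _)
    have hWN0 : (0 : ℤ) < (Ww Nn : ℤ) := by exact_mod_cast fin_Ww_pos Nn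
    have hNw : Ww Nn ∣ Ww w := LOWT_Ww (by omega)
    obtain ⟨σi, τ, hσi, hτ1, hττ, hcard⟩ : ∃ (σi : ℤ) (τ : Fin 6 → ℤ), (σi : ℝ) = σ ∧
        τ ∈ cs (Ww Nn) (Fin 6) ∧ (∀ l, ((Ww Nn : ℕ) : ℤ) ∣ τ l - σi * τ₀ l) ∧
        (gt (Ww Nn) (Ww w) τ₀ (rv P₀ (t τ₀ z.1 z.2) s) z.1 z.2).card ≤
          (gt (Ww Nn) (Ww w) τ (rv P₀ (t τ₀ z.1 z.2) s) z.1 z.2).card := by
      rcases hσ with hσ | hσ
      · exact ⟨1, τ₀, by rw [hσ]; norm_num, hτ1₀, fun l => by rw [one_mul, sub_self]; exact dvd_zero _,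
          le_rfl⟩
      · have hkey : ∀ l, ((Ww Nn : ℕ) : ℤ) ∣ (-τ₀ l) % (Ww Nn : ℤ) + τ₀ l := by
          intro l
          have := Int.emod_add_mul_ediv (-τ₀ l) (Ww Nn : ℤ)
          exact ⟨-(-τ₀ l / Ww Nn), by linarith⟩
        refine ⟨-1, fun l => (-τ₀ l) % (Ww Nn : ℤ), by rw [hσ]; norm_num, ?_, ?_, ?_⟩
        · unfold cs
          rw [Fintype.mem_piFinset]
          intro l
          rw [Finset.mem_Ico]
          exact ⟨Int.emod_nonneg _ hWN0.ne', Int.emod_lt_of_pos _ hWN0⟩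
        · intro l
          have e : (-τ₀ l) % (Ww Nn : ℤ) - -1 * τ₀ l = (-τ₀ l) % (Ww Nn : ℤ) + τ₀ l := by ring
          rw [e]
          exact hkey l
        · exact fins_neg _ _ _ _ _ _ _ (fin_Ww_pos w) hNw hkey
    have hτ2 : ∀ (p : ℕ) [Fact p.Prime], p ≤ Nn → ∀ l,
        ‖(τ l : ℤ_[p]) - (σi : ℤ_[p]) * M p l‖ ≤ (p : ℝ) ^ (-(Nn : ℤ)) := by
      intro p hp hpN l
      refine fint_dvd Nn p hpN (τ l) (σi * τ₀ l) _ (hττ l) ?_
      push_cast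
      rw [← mul_sub, norm_mul]
      calc ‖(σi : ℤ_[p])‖ * ‖(τ₀ l : ℤ_[p]) - M p l‖ ≤ 1 * ‖(τ₀ l : ℤ_[p]) - M p l‖ :=
            mul_le_mul_of_nonneg_right (PadicInt.norm_le_one _) (norm_nonneg _)
        _ ≤ _ := by rw [one_mul]; exact hτ2₀ p hpN l
    have hq : (rv P₀ (t τ₀ z.1 z.2) s, τ, k) ∈ TR := by
      rw [hTR, Finset.mem_product, Finset.mem_product]
      exact ⟨hr, hτ1, hk1⟩
    refine ⟨(rv P₀ (t τ₀ z.1 z.2) s, τ, k), hq, hS _ hq z hzB ?_ ?_⟩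
    · by_contra hcon
      push Not at hcon
      apply hno
      have := fins_NN R A B K₀ Nn hNn _ c hB0 hR36 z.1 z.2 hza hzb zr M τ k σ σi hσi hσ hτ2 hk2 _
        hcon.le
      rw [hB] at this
      push_cast at this
      exact this
    · obtain ⟨F, hF1, hF2, hF3⟩ : ∃ F : Finset (Fin 6 → ℤ),
          F ⊆ fintX Nn (rv P₀ (t τ₀ z.1 z.2) s) c B K₀ τ k ∧
          (∀ x ∈ F, ((Ww w : ℕ) : ℤ) ∣ Q z.1 x ∧ ((Ww w : ℕ) : ℤ) ∣ Q z.2 x ∧
            |((Q z.1 x : ℤ) : ℝ)| ≤ h * A * (lam * A : ℝ) ^ 2 ∧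
            |((Q z.2 x : ℤ) : ℝ)| ≤ h * A * (lam * A : ℝ) ^ 2) ∧
          κl * h ^ 2 * ((gt (Ww Nn) (Ww w) τ (rv P₀ (t τ₀ z.1 z.2) s) z.1 z.2).card : ℝ) *
            ((lam * A : ℝ) / Ww w) ^ 6 ≤ (F.card : ℝ) := by
        refine ⟨_, ?_, fun x hx => ?_, hs τ⟩
        · intro x hx
          rw [Finset.mem_filter] at hx
          obtain ⟨g1, -, -, -, -, g6, g7⟩ := hx
          unfold fintX
          rw [Finset.mem_filter]
          rw [← hB] at g1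
          refine ⟨g1, g6, ?_⟩
          intro l
          have g8 := g7 l
          have g9 := hk2 l
          have hNn0 : (0 : ℝ) < Nn := by exact_mod_cast hNn
          have e : 2 * (x l : ℝ) / (B : ℝ) - (k l : ℝ) / (8 * Nn) =
              (2 * x l / (lam * A : ℝ) - σ * zr l) + (σ * zr l - (k l : ℝ) / (8 * Nn)) := by
            rw [hBc]
            ring
          rw [e]
          refine (abs_add_le _ _).trans ((add_le_add g8 g9).trans (le_of_eq ?_))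
          field_simp
          norm_num
        · obtain ⟨g1, g2, g3, g4, g5, -, -⟩ := Finset.mem_filter.mp hx
          exact ⟨g2, g3, g4, g5⟩
      have hcc : κp * (Ww w : ℝ) ^ 4 ≤
          ((gt (Ww Nn) (Ww w) τ (rv P₀ (t τ₀ z.1 z.2) s) z.1 z.2).card : ℝ) :=
        (c2 τ₀ hτ1₀ hLT₀ s).trans (by exact_mod_cast hcard)
      rw [← hW] at hcc hF3 hF2
      refine le_trans ?_ (fin_NL hF R H W m₀ hm0 hW0 hRH hWR _ F z.1 z.2 hF1 ?_)
      rotate_left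
      · intro x hx
        obtain ⟨h1, h2, h3, h4⟩ := hF2 x hx
        refine ⟨h1, h2, ?_, ?_⟩
        · have := h3.trans hm1
          exact_mod_cast this
        · have := h4.trans hm1
          exact_mod_cast this
      · have e : 2 * (κ * (lam : ℝ) ^ 2) = κl * κp / Real.pi ^ 4 * (lam : ℝ) ^ 2 := by
          rw [hκ]
          ring
        rw [e]
        exact fin_L κl κp h lam A W m₀ _ _ hκl hκp hh0 hlam0 hA0' hW0' hm0' hm2 hcc hF3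
  · have hY : (0 : ℝ) < (2 * (A : ℝ) + 1) ^ 42 := by positivity
    generalize (2 * (A : ℝ) + 1) ^ 42 = Y at hS1c hS2c hSc hY ⊢
    clear hPA3 hS1 hS2 hS hLO3 hPA2 hTW hLO hPA hC hP hR hL hF hRS hE hη hR36
    have h1 : (((S1 ∪ S2 ∪ TR.biUnion S).card : ℕ) : ℝ) ≤
        (S1.card : ℝ) + (S2.card : ℝ) + ∑ r ∈ TR, ((S r).card : ℝ) := by
      have e1 := Finset.card_union_le (S1 ∪ S2) (TR.biUnion S)
      have e2 := Finset.card_union_le S1 S2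
      have e3 : (TR.biUnion S).card ≤ ∑ r ∈ TR, (S r).card :=
        Finset.card_biUnion_le
      have e4 : (S1 ∪ S2 ∪ TR.biUnion S).card ≤
        S1.card + S2.card + ∑ r ∈ TR, (S r).card := by omega
      exact_mod_cast e4
    have h2 : ∑ r ∈ TR, ((S r).card : ℝ) ≤
        TR.card * (ε / (3 * Nr) * Y) := by
      rw [← nsmul_eq_mul, ← Finset.sum_const]
      exact Finset.sum_le_sum hSc
    have h3 : (TR.card : ℝ) * (ε / (3 * Nr) * Y) ≤ ε / 3 * Y := by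
      have h4 : (TR.card : ℝ) * (ε / (3 * Nr)) ≤ ε / 3 := by
        rw [← mul_div_assoc, div_le_div_iff₀ (by positivity) (by norm_num), hNr]
        calc (TR.card : ℝ) * ε * 3 = ε * (3 * (TR.card : ℝ)) := by ring
          _ ≤ ε * (3 * ((TR.card : ℝ) + 1)) :=
            mul_le_mul_of_nonneg_left (by linarith) hε.le
      calc (TR.card : ℝ) * (ε / (3 * Nr) * Y)
          = (TR.card : ℝ) * (ε / (3 * Nr)) * Y := by ring
        _ ≤ _ := by gcongr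
    have h5 : ε * Y = ε / 3 * Y + ε / 3 * Y + ε / 3 * Y := by ring
    rw [h5]
    linarith

end Pool.HPQ
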