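import Pool.Agent.Work.MP_9fb703_hp.Interface

/-! # Block FLB1: lower bound for the Fejer weight (MP_9fb703) -/

set_option autoImplicit false

namespace Pool.HPQ

open Finset

theorem p_FLB1 (h1 : Stmt_EXP) : Stmt_FLB1 := by
  intro R T A _ n hA hR hn
  have hR0 : R ≠ 0 := NeZero.ne R
  have hT : 0 < T := by
    rcases Nat.eq_zero_or_pos T with h | h
    · rw [h, mul_zero] at hR
      exact absurd hR hR0
    · exact h
  have hAr : (0 : ℝ) < A := by exact_mod_cast hA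
  have hTr : (0 : ℝ) < T := by exact_mod_cast hT
  have hRr : (R : ℝ) = 2 * A * T := by exact_mod_cast hR
  have hR0r : (0 : ℝ) < R := by rw [hRr]; positivity
  have hnr : |(n : ℝ)| ≤ A := by exact_mod_cast hn
  have hθ : |(n : ℝ) / R| * T ≤ 1 / 2 := by
    rw [abs_div, abs_of_pos hR0r, div_mul_eq_mul_div, div_le_iff₀ hR0r, hRr]
    nlinarith
  have h := h1 T ((n : ℝ) / R) hθ
  have e : ∑ j ∈ range T, Complex.exp (2 * Real.pi * Complex.I * (j * (((n : ℝ) / R : ℝ) : ℂ))) =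
      ∑ j ∈ range T, (ZMod.stdAddChar ((j : ZMod R) * (n : ZMod R)) : ℂ) := by
    apply Finset.sum_congr rfl
    intro j _
    have e1 : ((j : ZMod R) * (n : ZMod R)) = (((j : ℤ) * n : ℤ) : ZMod R) := by
      push_cast
      rfl
    rw [e1, ZMod.stdAddChar_coe]
    congr 1
    push_cast
    ring
  rw [e] at h
  unfold Fw
  have hpi : 0 < Real.pi := Real.pi_pos
  have h2 : (2 * (T : ℝ) / Real.pi) ^ 2 ≤
      ‖∑ j ∈ range T, (ZMod.stdAddChar ((j : ZMod R) * (n : ZMod R)) : ℂ)‖ ^ 2 :=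
    pow_le_pow_left₀ (by positivity) h 2
  rw [le_div_iff₀ (by positivity), hRr]
  calc 2 / (Real.pi ^ 2 * A) * (2 * A * T * T) = (2 * (T : ℝ) / Real.pi) ^ 2 := by
        field_simp
    _ ≤ _ := h2

end Pool.HPQ
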