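import Pool.Agent.Work.MP_9fb703_hp.Interface

/-! # Block GENB: few points satisfy a small linear relation (note 2846, 6h) -/

set_option autoImplicit false

namespace Pool.HPQ

open Finset

open Classical in
theorem GENB_lin (B : ℕ) (c : Fin 6 → ℤ) (m : Fin 6) (hm : c m ≠ 0) :
    ((Fintype.piFinset fun _ : Fin 6 => Finset.Icc (-(B : ℤ)) B).filter fun x =>
      ∑ i, c i * x i = 0).card ≤ (2 * B + 1) ^ 5 := by
  have h1 : (Fintype.piFinset fun _ : Fin 5 => Finset.Icc (-(B : ℤ)) B).card = (2 * B + 1) ^ 5 := by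
    rw [Fintype.card_piFinset_const, Int.card_Icc]
    congr 1
    omega
  rw [← h1]
  apply Finset.card_le_card_of_injOn (fun x : Fin 6 → ℤ => fun j : Fin 5 => x (m.succAbove j))
  · intro x hx
    rw [Finset.mem_coe, Finset.mem_filter, Fintype.mem_piFinset] at hx
    rw [Finset.mem_coe, Fintype.mem_piFinset]
    intro j
    exact hx.1 _
  · intro x hx y hy hxy
    rw [Finset.mem_coe, Finset.mem_filter] at hx hy
    have h2 : ∀ j : Fin 5, x (m.succAbove j) = y (m.succAbove j) := fun j => congrFun hxy j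
    have h3 := hx.2
    have h4 := hy.2
    rw [Fin.sum_univ_succAbove _ m] at h3 h4
    have h5 : ∑ j : Fin 5, c (m.succAbove j) * x (m.succAbove j) =
        ∑ j : Fin 5, c (m.succAbove j) * y (m.succAbove j) := by
      apply Finset.sum_congr rfl
      intro j _
      rw [h2 j]
    have h6 : c m * x m = c m * y m := by linarith
    have h7 : x m = y m := mul_left_cancel₀ hm h6
    funext i
    rcases Fin.eq_self_or_eq_succAbove m i with h | ⟨j, h⟩
    · rw [h]
      exact h7
    · rw [h]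
      exact h2 j

/-- the coefficients of the linear form `x ↦ l · tw r x` -/
def GENB_c (l r : Fin 6 → ℤ) (i : Fin 6) : ℤ := if i = 0 then l 0 else l 0 * r i + l i

theorem GENB_sum (l r x : Fin 6 → ℤ) (hr : r 0 = 1) :
    ∑ i, l i * tw r x i = ∑ i, GENB_c l r i * x i := by
  have e : ∀ i : Fin 5, (i.succ : Fin 6) ≠ 0 := fun i => Fin.succ_ne_zero i
  rw [Fin.sum_univ_succ, Fin.sum_univ_succ (fun i => GENB_c l r i * x i)]
  have h0 : tw r x 0 = r 0 * x 0 + ∑ i : Fin 5, r i.succ * x i.succ := by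
    unfold tw dt
    rw [if_pos rfl, Fin.sum_univ_succ]
  have h1 : ∀ i : Fin 5, tw r x i.succ = x i.succ := by
    intro i
    unfold tw
    rw [if_neg (e i)]
  have h2 : GENB_c l r 0 = l 0 := by
    unfold GENB_c
    rw [if_pos rfl]
  have h3 : ∀ i : Fin 5, GENB_c l r i.succ = l 0 * r i.succ + l i.succ := by
    intro i
    unfold GENB_c
    rw [if_neg (e i)]
  rw [h0, h2, hr]
  have h4 : ∑ i : Fin 5, l i.succ * tw r x i.succ = ∑ i : Fin 5, l i.succ * x i.succ := by
    apply Finset.sum_congr rfl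
    intro i _
    rw [h1 i]
  have h5 : ∑ i : Fin 5, GENB_c l r i.succ * x i.succ =
      l 0 * ∑ i : Fin 5, r i.succ * x i.succ + ∑ i : Fin 5, l i.succ * x i.succ := by
    rw [Finset.mul_sum, ← Finset.sum_add_distrib]
    apply Finset.sum_congr rfl
    intro i _
    rw [h3 i]
    ring
  rw [h4, h5]
  ring

theorem GENB_ne (l r : Fin 6 → ℤ) (hl : l ≠ 0) : ∃ m, GENB_c l r m ≠ 0 := by
  by_contra h
  push Not at h
  apply hl
  have h0 : l 0 = 0 := by
    have := h 0
    unfold GENB_c at this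
    rwa [if_pos rfl] at this
  funext i
  by_cases hi : i = 0
  · rw [hi, h0]
    rfl
  · have := h i
    unfold GENB_c at this
    rw [if_neg hi, h0] at this
    simpa using this

open Classical in
theorem p_GENB : Stmt_GENB := by
  intro r B K₀ hr
  set LL : Finset (Fin 6 → ℤ) := Fintype.piFinset fun _ : Fin 6 => Finset.Icc (-(K₀ : ℤ)) K₀ with hLL
  have hLc : LL.card = (2 * K₀ + 1) ^ 6 := by
    rw [hLL, Fintype.card_piFinset_const, Int.card_Icc]
    congr 1
    omega
  have hsub : ((Fintype.piFinset fun _ : Fin 6 => Finset.Icc (-(B : ℤ)) B).filter fun x =>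
      ∃ l : Fin 6 → ℤ, l ≠ 0 ∧ (∀ i, |l i| ≤ (K₀ : ℤ)) ∧ ∑ i, l i * tw r x i = 0) ⊆
      LL.biUnion fun l => (Fintype.piFinset fun _ : Fin 6 => Finset.Icc (-(B : ℤ)) B).filter fun x =>
        l ≠ 0 ∧ ∑ i, GENB_c l r i * x i = 0 := by
    intro x hx
    rw [Finset.mem_filter] at hx
    obtain ⟨hxB, l, hl, hlK, hls⟩ := hx
    rw [Finset.mem_biUnion]
    refine ⟨l, ?_, ?_⟩
    · rw [hLL, Fintype.mem_piFinset]
      intro i
      rw [mem_Icc]
      exact abs_le.1 (hlK i)
    · rw [Finset.mem_filter]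
      refine ⟨hxB, hl, ?_⟩
      rw [← GENB_sum l r x hr]
      exact hls
  refine (Finset.card_le_card hsub).trans ?_
  rw [← hLc]
  apply Finset.card_biUnion_le_card_mul
  intro l _
  by_cases hl : l = 0
  · have : ((Fintype.piFinset fun _ : Fin 6 => Finset.Icc (-(B : ℤ)) B).filter fun x =>
        l ≠ 0 ∧ ∑ i, GENB_c l r i * x i = 0) = ∅ := by
      apply Finset.filter_eq_empty_iff.2
      intro x _ h
      exact h.1 hl
    rw [this]
    simp
  · obtain ⟨m, hm⟩ := GENB_ne l r hl
    refine (Finset.card_le_card ?_).trans (GENB_lin B (GENB_c l r) m hm)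
    intro x hx
    rw [Finset.mem_filter] at hx ⊢
    exact ⟨hx.1, hx.2.2⟩

end Pool.HPQ
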