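import Pool.Agent.Work.MP_9fb703_hp.Interface

/-! # Block GEO2 (helper1): reduced bases of rank two lattices in `ℤ⁶` -/

set_option autoImplicit false

namespace Pool.HPQ

open Finset

/-- Square of the Euclidean norm. -/
def GEO2_nm (x : Fin 6 → ℤ) : ℤ := ∑ i, x i ^ 2

/-- Scalar product. -/
def GEO2_dp (x y : Fin 6 → ℤ) : ℤ := ∑ i, x i * y i

theorem GEO2_le_sn (x : Fin 6 → ℤ) (i : Fin 6) : |x i| ≤ (sn x : ℤ) := by
  have h : (x i).natAbs ≤ sn x := Finset.le_sup (f := fun i => (x i).natAbs) (mem_univ i)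
  rw [Int.abs_eq_natAbs]
  exact_mod_cast h

theorem GEO2_sn_sq (x : Fin 6 → ℤ) : (sn x : ℤ) ^ 2 ≤ GEO2_nm x := by
  obtain ⟨i, _, hi⟩ := Finset.exists_mem_eq_sup (univ : Finset (Fin 6)) univ_nonempty
    (fun i => (x i).natAbs)
  have h1 : (sn x : ℤ) ^ 2 = x i ^ 2 := by
    have : sn x = (x i).natAbs := hi
    rw [this, ← Int.abs_eq_natAbs, sq_abs]
  rw [h1]
  exact Finset.single_le_sum (f := fun i => x i ^ 2) (fun j _ => sq_nonneg _) (mem_univ i)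

theorem GEO2_nm_le (x : Fin 6 → ℤ) : GEO2_nm x ≤ 6 * (sn x : ℤ) ^ 2 := by
  have h : ∀ i ∈ (univ : Finset (Fin 6)), x i ^ 2 ≤ (sn x : ℤ) ^ 2 := fun i _ =>
    sq_le_sq' (by linarith [(abs_le.mp (GEO2_le_sn x i)).1]) (abs_le.mp (GEO2_le_sn x i)).2
  have := Finset.sum_le_card_nsmul _ _ _ h
  simpa [GEO2_nm] using this

theorem GEO2_nm_nonneg (x : Fin 6 → ℤ) : 0 ≤ GEO2_nm x := sum_nonneg fun _ _ => sq_nonneg _

theorem GEO2_nm_pos {x : Fin 6 → ℤ} (h : x ≠ 0) : 0 < GEO2_nm x := by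
  obtain ⟨i, hi⟩ := Function.ne_iff.mp h
  refine sum_pos' (fun _ _ => sq_nonneg _) ⟨i, mem_univ i, ?_⟩
  have : x i ≠ 0 := hi
  positivity

theorem GEO2_lagrange (x y : Fin 6 → ℤ) :
    ∑ i, ∑ j, om x y i j ^ 2 = 2 * (GEO2_nm x * GEO2_nm y - GEO2_dp x y ^ 2) := by
  simp only [om, GEO2_nm, GEO2_dp, Fin.sum_univ_six]
  ring

theorem GEO2_comb (x y : Fin 6 → ℤ) (a b : ℤ) (n : Fin 6 → ℤ) (c : ℤ)
    (h : ∀ i, c * n i = a * x i + b * y i) :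
    c ^ 2 * GEO2_nm n = a ^ 2 * GEO2_nm x + 2 * a * b * GEO2_dp x y + b ^ 2 * GEO2_nm y := by
  have h1 : c ^ 2 * GEO2_nm n = ∑ i, (c * n i) ^ 2 := by
    simp only [GEO2_nm, mul_sum]
    exact sum_congr rfl fun i _ => by ring
  rw [h1]
  simp only [h, GEO2_nm, GEO2_dp, mul_sum]
  rw [← sum_add_distrib, ← sum_add_distrib]
  exact sum_congr rfl fun i _ => by ring

/-- `om` of combinations. -/
theorem GEO2_om (u v p q : Fin 6 → ℤ) (c c' a b a' b' : ℤ)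
    (hp : ∀ i, c * p i = a * u i + b * v i) (hq : ∀ i, c' * q i = a' * u i + b' * v i)
    (i j : Fin 6) : c * c' * om p q i j = (a * b' - a' * b) * om u v i j := by
  have h1 : c * c' * om p q i j = (c * p i) * (c' * q j) - (c * p j) * (c' * q i) := by
    simp only [om]; ring
  rw [h1, hp i, hp j, hq i, hq j]
  simp only [om]
  ring

theorem GEO2_min (P : (Fin 6 → ℤ) → Prop) (u : Fin 6 → ℤ) (hu : P u) :
    ∃ z, P z ∧ ∀ n, P n → GEO2_nm z ≤ GEO2_nm n := by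
  obtain ⟨z, hz, hmin⟩ := (measure fun n : Fin 6 → ℤ => (GEO2_nm n).toNat).wf.has_min
    {n | P n} ⟨u, hu⟩
  refine ⟨z, hz, fun n hn => ?_⟩
  have h := hmin n hn
  have h' : ¬ (GEO2_nm n).toNat < (GEO2_nm z).toNat := h
  have h1 := GEO2_nm_nonneg n
  have h2 := GEO2_nm_nonneg z
  omega

/-- rounding -/
theorem GEO2_round (c α : ℤ) (hc : c ≠ 0) : ∃ a : ℤ, |2 * (α - a * c)| ≤ |c| := by
  refine ⟨(2 * α + |c|) / (2 * |c|) * c.sign, ?_⟩
  have hc' : 0 < |c| := abs_pos.mpr hc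
  have h1 : c.sign * c = |c| := by rw [mul_comm]; exact Int.mul_sign_self c |>.trans (Int.abs_eq_natAbs c).symm
  have h2 : (2 * α + |c|) / (2 * |c|) * c.sign * c = (2 * α + |c|) / (2 * |c|) * |c| := by
    rw [mul_assoc, h1]
  rw [h2]
  have h3 := Int.emod_add_mul_ediv (2 * α + |c|) (2 * |c|)
  have h4 := Int.emod_nonneg (2 * α + |c|) (by positivity : 2 * |c| ≠ 0)
  have h5 := Int.emod_lt_of_pos (2 * α + |c|) (by positivity : 0 < 2 * |c|)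
  have h6 : 2 * (α - (2 * α + |c|) / (2 * |c|) * |c|) =
      (2 * α + |c|) % (2 * |c|) - |c| := by linarith
  rw [h6, abs_le]
  constructor <;> linarith

/-- The reduced basis. -/
theorem GEO2_basis (u v : Fin 6 → ℤ) (huv : ∃ i j, om u v i j ≠ 0) :
    ∃ z₁ z₂ : Fin 6 → ℤ, z₁ ≠ 0 ∧ z₂ ≠ 0 ∧ (∃ i j, om z₁ z₂ i j ≠ 0) ∧
      GEO2_nm z₁ ≤ max (GEO2_nm u) (GEO2_nm v) ∧ GEO2_nm z₂ ≤ max (GEO2_nm u) (GEO2_nm v) ∧
      GEO2_nm z₁ ≤ GEO2_nm z₂ ∧ |2 * GEO2_dp z₁ z₂| ≤ GEO2_nm z₁ ∧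
      In2 u v z₁ ∧ In2 u v z₂ ∧
      ∀ n, In2 u v n → ∃ a b : ℤ, ∀ i, n i = a * z₁ i + b * z₂ i := by
  obtain ⟨i₀, j₀, h0⟩ := huv
  have hu : In2 u v u := ⟨1, 1, 0, one_ne_zero, fun i => by ring⟩
  have hv : In2 u v v := ⟨1, 0, 1, one_ne_zero, fun i => by ring⟩
  have hu0 : u ≠ 0 := by
    rintro rfl
    apply h0
    simp [om]
  obtain ⟨z₁, ⟨hz1, hz10⟩, hmin1⟩ := GEO2_min (fun n => In2 u v n ∧ n ≠ 0) u ⟨hu, hu0⟩
  -- a vector outside the line of `z₁`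
  have hex : ∃ w, In2 u v w ∧ (∃ i j, om z₁ w i j ≠ 0) ∧
      GEO2_nm w ≤ max (GEO2_nm u) (GEO2_nm v) := by
    by_contra hcon
    push Not at hcon
    have h1 : ∀ i j, om z₁ u i j = 0 := by
      by_contra h
      push Not at h
      exact absurd (hcon u hu h) (not_lt.mpr (le_max_left _ _))
    have h2 : ∀ i j, om z₁ v i j = 0 := by
      by_contra h
      push Not at h
      exact absurd (hcon v hv h) (not_lt.mpr (le_max_right _ _))
    obtain ⟨c, a, b, hc, hh⟩ := hz1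
    have e1 := GEO2_om u v z₁ u c 1 a b 1 0 hh (fun i => by ring) i₀ j₀
    have e2 := GEO2_om u v z₁ v c 1 a b 0 1 hh (fun i => by ring) i₀ j₀
    rw [h1, mul_zero] at e1
    rw [h2, mul_zero] at e2
    have hb : b = 0 := by
      rcases mul_eq_zero.mp e1.symm with h | h
      · linarith
      · exact absurd h h0
    have ha : a = 0 := by
      rcases mul_eq_zero.mp e2.symm with h | h
      · linarith
      · exact absurd h h0
    apply hz10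
    funext i
    have := hh i
    rw [ha, hb] at this
    simp only [zero_mul, add_zero] at this
    exact (mul_eq_zero.mp this).resolve_left hc
  obtain ⟨w, hw, hwi, hwn⟩ := hex
  obtain ⟨z₂, ⟨hz2, hz2i⟩, hmin2⟩ := GEO2_min
    (fun n => In2 u v n ∧ ∃ i j, om z₁ n i j ≠ 0) w ⟨hw, hwi⟩
  have hz20 : z₂ ≠ 0 := by
    rintro rfl
    obtain ⟨i, j, h⟩ := hz2i
    apply h
    simp [om]
  have hN1 : 0 < GEO2_nm z₁ := GEO2_nm_pos hz10
  have hN2 : 0 < GEO2_nm z₂ := GEO2_nm_pos hz20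
  have hN12 : GEO2_nm z₁ ≤ GEO2_nm z₂ := hmin1 z₂ ⟨hz2, hz20⟩
  -- closure under subtraction of multiples
  have hsub : ∀ n n' : Fin 6 → ℤ, In2 u v n → In2 u v n' → ∀ k : ℤ,
      In2 u v (fun i => n i - k * n' i) := by
    rintro n n' ⟨c, a, b, hc, hh⟩ ⟨c', a', b', hc', hh'⟩ k
    refine ⟨c * c', a * c' - k * a' * c, b * c' - k * b' * c, mul_ne_zero hc hc', fun i => ?_⟩
    have e : c * c' * (n i - k * n' i) = c' * (c * n i) - k * c * (c' * n' i) := by ring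
    rw [e, hh i, hh' i]
    ring
  have hstep : ∀ k : ℤ, GEO2_nm z₂ ≤ GEO2_nm (fun i => z₂ i - k * z₁ i) := by
    intro k
    refine hmin2 _ ⟨hsub _ _ hz2 hz1 k, ?_⟩
    obtain ⟨i, j, h⟩ := hz2i
    refine ⟨i, j, ?_⟩
    have : om z₁ (fun i => z₂ i - k * z₁ i) i j = om z₁ z₂ i j := by
      simp only [om]; ring
    rw [this]
    exact h
  have hexp : ∀ k : ℤ, GEO2_nm (fun i => z₂ i - k * z₁ i) =
      GEO2_nm z₂ - 2 * k * GEO2_dp z₁ z₂ + k ^ 2 * GEO2_nm z₁ := by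
    intro k
    have := GEO2_comb z₁ z₂ (-k) 1 (fun i => z₂ i - k * z₁ i) 1 (fun i => by ring)
    rw [one_pow, one_mul] at this
    rw [this]
    ring
  have ht : |2 * GEO2_dp z₁ z₂| ≤ GEO2_nm z₁ := by
    have h1 := hstep 1
    have h2 := hstep (-1)
    rw [hexp] at h1 h2
    rw [abs_le]
    constructor <;> linarith
  refine ⟨z₁, z₂, hz10, hz20, hz2i, (hmin1 u ⟨hu, hu0⟩).trans (le_max_left _ _),
    (hmin2 w ⟨hw, hwi⟩).trans hwn, hN12, ht, hz1, hz2, fun n hn => ?_⟩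
  -- `n` is a rational combination
  obtain ⟨c₁, a₁, b₁, hc1, hh1⟩ := hz1
  obtain ⟨c₂, a₂, b₂, hc2, hh2⟩ := hz2
  obtain ⟨i₁, j₁, h1⟩ := hz2i
  have hdet := GEO2_om u v z₁ z₂ c₁ c₂ a₁ b₁ a₂ b₂ hh1 hh2 i₁ j₁
  set d := a₁ * b₂ - a₂ * b₁ with hd
  have hd0 : d ≠ 0 := by
    intro h
    rw [h, zero_mul] at hdet
    exact (mul_ne_zero (mul_ne_zero hc1 hc2) h1) hdet
  obtain ⟨c, a, b, hc, hh⟩ := hn
  have hn' : In2 u v n := ⟨c, a, b, hc, hh⟩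
  have hcomb : ∀ i, d * c * n i = ((a * b₂ - b * a₂) * c₁) * z₁ i +
      ((b * a₁ - a * b₁) * c₂) * z₂ i := by
    intro i
    have e : ((a * b₂ - b * a₂) * c₁) * z₁ i + ((b * a₁ - a * b₁) * c₂) * z₂ i =
        (a * b₂ - b * a₂) * (c₁ * z₁ i) + (b * a₁ - a * b₁) * (c₂ * z₂ i) := by ring
    rw [e, hh1 i, hh2 i, mul_assoc, hh i, hd]
    ring
  set C := d * c with hC
  have hC0 : C ≠ 0 := mul_ne_zero hd0 hc
  set α := (a * b₂ - b * a₂) * c₁ with hα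
  set β := (b * a₁ - a * b₁) * c₂ with hβ
  obtain ⟨ka, hka⟩ := GEO2_round C α hC0
  obtain ⟨kb, hkb⟩ := GEO2_round C β hC0
  set α' := α - ka * C with hα'
  set β' := β - kb * C with hβ'
  set m : Fin 6 → ℤ := fun i => (n i - ka * z₁ i) - kb * z₂ i with hm
  have hmE : In2 u v m := hsub _ _ (hsub _ _ hn' ⟨c₁, a₁, b₁, hc1, hh1⟩ ka)
    ⟨c₂, a₂, b₂, hc2, hh2⟩ kb
  have hmc : ∀ i, C * m i = α' * z₁ i + β' * z₂ i := by
    intro i
    have := hcomb i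
    simp only [hm, hα', hβ']
    linear_combination this
  have hnm := GEO2_comb z₁ z₂ α' β' m C hmc
  have hC2 : 0 < C ^ 2 := by positivity
  have hα2 : (2 * α') ^ 2 ≤ C ^ 2 := by
    rw [← sq_abs (2 * α'), ← sq_abs C]
    exact pow_le_pow_left₀ (abs_nonneg _) hka 2
  have hβ2 : (2 * β') ^ 2 ≤ C ^ 2 := by
    rw [← sq_abs (2 * β'), ← sq_abs C]
    exact pow_le_pow_left₀ (abs_nonneg _) hkb 2
  have hαβ : |(2 * α') * (2 * β')| ≤ C ^ 2 := by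
    rw [abs_mul, ← sq_abs C, sq]
    exact mul_le_mul hka hkb (abs_nonneg _) (abs_nonneg _)
  have hcross : 2 * ((2 * α') * (2 * β')) * GEO2_dp z₁ z₂ ≤ C ^ 2 * GEO2_nm z₁ := by
    have : 2 * ((2 * α') * (2 * β')) * GEO2_dp z₁ z₂ =
        ((2 * α') * (2 * β')) * (2 * GEO2_dp z₁ z₂) := by ring
    rw [this]
    refine (le_abs_self _).trans ?_
    rw [abs_mul]
    exact mul_le_mul hαβ ht (abs_nonneg _) hC2.le
  have h4 : 4 * GEO2_nm m ≤ 3 * GEO2_nm z₂ := by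
    have e : C ^ 2 * (4 * GEO2_nm m) ≤ C ^ 2 * (3 * GEO2_nm z₂) := by
      have e1 : C ^ 2 * (4 * GEO2_nm m) = (2 * α') ^ 2 * GEO2_nm z₁ +
          2 * ((2 * α') * (2 * β')) * GEO2_dp z₁ z₂ + (2 * β') ^ 2 * GEO2_nm z₂ := by
        linear_combination 4 * hnm
      rw [e1]
      have e2 := mul_le_mul_of_nonneg_right hα2 hN1.le
      have e3 := mul_le_mul_of_nonneg_right hβ2 hN2.le
      have e4 := mul_le_mul_of_nonneg_left hN12 hC2.le
      linarith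
    exact le_of_mul_le_mul_left e hC2
  have hom : ∀ i j, om z₁ m i j = 0 := by
    by_contra h
    push Not at h
    have := hmin2 m ⟨hmE, h⟩
    linarith
  have hβ0 : β' = 0 := by
    have e := GEO2_om z₁ z₂ z₁ m 1 C 1 0 α' β' (fun i => by ring) hmc i₁ j₁
    rw [hom, mul_zero] at e
    rcases mul_eq_zero.mp e.symm with h | h
    · linarith
    · exact absurd h h1
  have hm0 : m = 0 := by
    by_contra h
    have e1 := hmin1 m ⟨hmE, h⟩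
    rw [hβ0] at hnm
    have e2 : C ^ 2 * (4 * GEO2_nm m) ≤ C ^ 2 * GEO2_nm z₁ := by
      have e3 : C ^ 2 * (4 * GEO2_nm m) = (2 * α') ^ 2 * GEO2_nm z₁ := by
        linear_combination 4 * hnm
      rw [e3]
      exact mul_le_mul_of_nonneg_right hα2 hN1.le
    have e4 := le_of_mul_le_mul_left e2 hC2
    linarith
  refine ⟨ka, kb, fun i => ?_⟩
  have : m i = 0 := by rw [hm0]; rfl
  simp only [hm] at this
  linarith

/-- number of integers of bounded absolute value -/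
theorem GEO2_card (A : ℝ) (hA : 0 ≤ A) :
    ((Finset.Icc (-(⌊A⌋₊ : ℤ)) ⌊A⌋₊).card : ℝ) ≤ 2 * A + 1 := by
  rw [Int.card_Icc]
  have h1 : ((⌊A⌋₊ : ℤ) + 1 - -(⌊A⌋₊ : ℤ)).toNat = 2 * ⌊A⌋₊ + 1 := by omega
  rw [h1]
  have := Nat.floor_le hA
  push_cast
  linarith

theorem p_GEO2 : Stmt_GEO2 := by
  refine ⟨256, by norm_num, fun B u v hB hu hv huv => ?_⟩
  obtain ⟨z₁, z₂, hz1, hz2, hind, hb1, hb2, hN12, ht, hE1, hE2, hrep⟩ := GEO2_basis u v huv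
  have hN1 : 0 < GEO2_nm z₁ := GEO2_nm_pos hz1
  have hN2 : 0 < GEO2_nm z₂ := GEO2_nm_pos hz2
  have hB0 : 0 < B := by linarith
  have hbig : ∀ x : Fin 6 → ℤ, (sn x : ℝ) ≤ 3 * B → (GEO2_nm x : ℝ) ≤ 54 * B ^ 2 := by
    intro x hx
    have h1 : (GEO2_nm x : ℝ) ≤ 6 * (sn x : ℝ) ^ 2 := by exact_mod_cast GEO2_nm_le x
    have h2 : (sn x : ℝ) ^ 2 ≤ (3 * B) ^ 2 := pow_le_pow_left₀ (Nat.cast_nonneg _) hx 2
    nlinarith
  have hmax : ((max (GEO2_nm u) (GEO2_nm v) : ℤ) : ℝ) ≤ 54 * B ^ 2 := by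
    rcases max_choice (GEO2_nm u) (GEO2_nm v) with h | h
    · rw [h]; exact hbig u hu
    · rw [h]; exact hbig v hv
  have hM1 : (GEO2_nm z₁ : ℝ) ≤ 54 * B ^ 2 := le_trans (by exact_mod_cast hb1) hmax
  have hM2 : (GEO2_nm z₂ : ℝ) ≤ 54 * B ^ 2 := le_trans (by exact_mod_cast hb2) hmax
  have hsn : ∀ z : Fin 6 → ℤ, (GEO2_nm z : ℝ) ≤ 54 * B ^ 2 → (sn z : ℝ) ≤ 256 * B := by
    intro z hz
    have h1 : (sn z : ℝ) ^ 2 ≤ GEO2_nm z := by exact_mod_cast GEO2_sn_sq z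
    refine abs_le_of_sq_le_sq' ?_ (by positivity) |>.2
    nlinarith
  -- roots
  set r₁ := Real.sqrt (GEO2_nm z₁) with hr1
  set r₂ := Real.sqrt (GEO2_nm z₂) with hr2
  have hN1' : (0 : ℝ) < GEO2_nm z₁ := by exact_mod_cast hN1
  have hN2' : (0 : ℝ) < GEO2_nm z₂ := by exact_mod_cast hN2
  have hr1p : 0 < r₁ := Real.sqrt_pos.mpr hN1'
  have hr2p : 0 < r₂ := Real.sqrt_pos.mpr hN2'
  have hr1s : r₁ ^ 2 = GEO2_nm z₁ := Real.sq_sqrt hN1'.le
  have hr2s : r₂ ^ 2 = GEO2_nm z₂ := Real.sq_sqrt hN2'.le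
  have hs1 : (sn z₁ : ℝ) ≤ r₁ := Real.le_sqrt_of_sq_le (by exact_mod_cast GEO2_sn_sq z₁)
  have hs2 : (sn z₂ : ℝ) ≤ r₂ := Real.le_sqrt_of_sq_le (by exact_mod_cast GEO2_sn_sq z₂)
  have hone : ∀ r : ℝ, 0 < r → r ^ 2 ≤ 54 * B ^ 2 → 2 * (4 * B / r) + 1 ≤ 16 * B / r := by
    intro r hr h
    have h1 : r ≤ 8 * B := by
      refine abs_le_of_sq_le_sq' ?_ (by positivity) |>.2
      nlinarith
    rw [← sub_nonneg]
    have e : 16 * B / r - (2 * (4 * B / r) + 1) = (8 * B - r) / r := by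
      field_simp
      ring
    rw [e]
    exact div_nonneg (by linarith) hr.le
  have hIn : ∀ n, In2 z₁ z₂ n → In2 u v n := by
    rintro n ⟨c, a, b, hc, hh⟩
    obtain ⟨c₁, a₁, b₁, hc1, hh1⟩ := hE1
    obtain ⟨c₂, a₂, b₂, hc2, hh2⟩ := hE2
    refine ⟨c * (c₁ * c₂), a * c₂ * a₁ + b * c₁ * a₂, a * c₂ * b₁ + b * c₁ * b₂,
      mul_ne_zero hc (mul_ne_zero hc1 hc2), fun i => ?_⟩
    have e : c * (c₁ * c₂) * n i = c₁ * c₂ * (c * n i) := by ring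
    rw [e, hh i]
    have e' : c₁ * c₂ * (a * z₁ i + b * z₂ i) = a * c₂ * (c₁ * z₁ i) + b * c₁ * (c₂ * z₂ i) := by
      ring
    rw [e', hh1 i, hh2 i]
    ring
  refine ⟨z₁, z₂, hz1, hz2, hsn z₁ hM1, hsn z₂ hM2, ?_, ?_, ?_, ?_⟩
  · obtain ⟨a, b, h⟩ := hrep u ⟨1, 1, 0, one_ne_zero, fun i => by ring⟩
    exact ⟨1, a, b, one_ne_zero, fun i => by rw [one_mul]; exact h i⟩
  · obtain ⟨a, b, h⟩ := hrep v ⟨1, 0, 1, one_ne_zero, fun i => by ring⟩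
    exact ⟨1, a, b, one_ne_zero, fun i => by rw [one_mul]; exact h i⟩
  · -- counting
    intro S hS
    choose! fa fb hab using hrep
    have hcoef : ∀ n ∈ S, |(fa n : ℝ)| ≤ 4 * B / r₁ ∧ |(fb n : ℝ)| ≤ 4 * B / r₂ := by
      intro n hn
      obtain ⟨hn1, hn2⟩ := hS n hn
      have hnn := GEO2_comb z₁ z₂ (fa n) (fb n) n 1 fun i => by
        rw [one_mul]; exact hab n (hIn n hn2) i
      have ht' := abs_le.mp ht
      have h1 : fa n ^ 2 * GEO2_nm z₁ + fb n ^ 2 * GEO2_nm z₂ ≤ 2 * GEO2_nm n := by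
        have e1 := mul_nonneg (sq_nonneg (fa n + fb n))
          (by linarith : 0 ≤ GEO2_nm z₁ + 2 * GEO2_dp z₁ z₂)
        have e2 := mul_nonneg (sq_nonneg (fa n - fb n))
          (by linarith : 0 ≤ GEO2_nm z₁ - 2 * GEO2_dp z₁ z₂)
        have e3 := mul_nonneg (sq_nonneg (fb n)) (by linarith : 0 ≤ GEO2_nm z₂ - GEO2_nm z₁)
        rw [one_pow, one_mul] at hnn
        rw [hnn]
        linarith
      have h2 : (GEO2_nm n : ℝ) ≤ 6 * B ^ 2 := by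
        have e1 : (GEO2_nm n : ℝ) ≤ 6 * (sn n : ℝ) ^ 2 := by exact_mod_cast GEO2_nm_le n
        have e2 : (sn n : ℝ) ^ 2 ≤ B ^ 2 := pow_le_pow_left₀ (Nat.cast_nonneg _) hn1 2
        linarith
      have h3 : (fa n : ℝ) ^ 2 * GEO2_nm z₁ + (fb n : ℝ) ^ 2 * GEO2_nm z₂ ≤ 2 * GEO2_nm n := by
        exact_mod_cast h1
      have p1 : 0 ≤ (fa n : ℝ) ^ 2 * GEO2_nm z₁ := by positivity
      have p2 : 0 ≤ (fb n : ℝ) ^ 2 * GEO2_nm z₂ := by positivity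
      have hB2 : 0 < B ^ 2 := by positivity
      constructor
      · rw [le_div_iff₀ hr1p, ← abs_of_pos hr1p, ← abs_mul]
        refine abs_le_of_sq_le_sq ?_ (by positivity)
        rw [mul_pow, hr1s]
        nlinarith
      · rw [le_div_iff₀ hr2p, ← abs_of_pos hr2p, ← abs_mul]
        refine abs_le_of_sq_le_sq ?_ (by positivity)
        rw [mul_pow, hr2s]
        nlinarith
    set A₁ := 4 * B / r₁ with hA1
    set A₂ := 4 * B / r₂ with hA2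
    have hA1p : 0 ≤ A₁ := by positivity
    have hA2p : 0 ≤ A₂ := by positivity
    have hcard : S.card ≤ ((Finset.Icc (-(⌊A₁⌋₊ : ℤ)) ⌊A₁⌋₊) ×ˢ
        (Finset.Icc (-(⌊A₂⌋₊ : ℤ)) ⌊A₂⌋₊)).card := by
      refine Finset.card_le_card_of_injOn (fun n => (fa n, fb n)) (fun n hn => ?_) ?_
      · have hmem : ∀ (k : ℤ) (A : ℝ), |(k : ℝ)| ≤ A → k ∈ Finset.Icc (-(⌊A⌋₊ : ℤ)) ⌊A⌋₊ := by
          intro k A hk
          rw [Finset.mem_Icc, ← abs_le, Int.abs_eq_natAbs]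
          have : (k.natAbs : ℝ) ≤ A := by
            rw [Nat.cast_natAbs, Int.cast_abs]; exact hk
          exact_mod_cast Nat.le_floor this
        simp only [Finset.coe_product, Set.mem_prod, Finset.mem_coe]
        exact ⟨hmem _ _ (hcoef n hn).1, hmem _ _ (hcoef n hn).2⟩
      · intro n hn n' hn' he
        simp only [Prod.mk.injEq] at he
        funext i
        rw [hab n (hIn n (hS n hn).2) i, hab n' (hIn n' (hS n' hn').2) i, he.1, he.2]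
    rw [Finset.card_product] at hcard
    have hc1 := GEO2_card A₁ hA1p
    have hc2 := GEO2_card A₂ hA2p
    have hd1 := hone r₁ hr1p (by rw [hr1s]; exact hM1)
    have hd2 := hone r₂ hr2p (by rw [hr2s]; exact hM2)
    have hcS : (S.card : ℝ) ≤ (16 * B / r₁) * (16 * B / r₂) := by
      calc (S.card : ℝ) ≤ ((Finset.Icc (-(⌊A₁⌋₊ : ℤ)) ⌊A₁⌋₊).card : ℝ) *
            ((Finset.Icc (-(⌊A₂⌋₊ : ℤ)) ⌊A₂⌋₊).card : ℝ) := by exact_mod_cast hcard
        _ ≤ (16 * B / r₁) * (16 * B / r₂) :=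
          mul_le_mul (hc1.trans hd1) (hc2.trans hd2) (Nat.cast_nonneg _) (by positivity)
    have hss : (sn z₁ : ℝ) * sn z₂ ≤ r₁ * r₂ :=
      mul_le_mul hs1 hs2 (Nat.cast_nonneg _) hr1p.le
    calc (S.card : ℝ) * (sn z₁ * sn z₂) ≤ ((16 * B / r₁) * (16 * B / r₂)) * (r₁ * r₂) :=
          mul_le_mul hcS hss (by positivity) (by positivity)
      _ = 256 * B ^ 2 := by
        field_simp
        ring
  · -- the determinant
    intro p q hp hq hpq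
    obtain ⟨a, b, hab⟩ := hrep p (hIn p hp)
    obtain ⟨a', b', hab'⟩ := hrep q (hIn q hq)
    have hom : ∀ i j, om p q i j = (a * b' - a' * b) * om z₁ z₂ i j := by
      intro i j
      have := GEO2_om z₁ z₂ p q 1 1 a b a' b' (fun i => by rw [one_mul]; exact hab i)
        (fun i => by rw [one_mul]; exact hab' i) i j
      rw [one_mul, one_mul] at this
      exact this
    have hk : a * b' - a' * b ≠ 0 := by
      intro h
      obtain ⟨i, j, hij⟩ := hpq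
      apply hij
      rw [hom, h, zero_mul]
    have hk1 : (1 : ℤ) ≤ |a * b' - a' * b| := Int.one_le_abs hk
    by_contra hcon
    push Not at hcon
    have hss : ((sn z₁ : ℝ) * sn z₂) ^ 2 ≤ GEO2_nm z₁ * GEO2_nm z₂ := by
      rw [mul_pow]
      refine mul_le_mul ?_ ?_ (by positivity) hN1'.le
      · exact_mod_cast GEO2_sn_sq z₁
      · exact_mod_cast GEO2_sn_sq z₂
    have hterm : ∀ i j, 25 * (om z₁ z₂ i j : ℝ) ^ 2 ≤ GEO2_nm z₁ * GEO2_nm z₂ := by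
      intro i j
      have h1 := hcon i j
      have h2 : |(om z₁ z₂ i j : ℝ)| ≤ |(om p q i j : ℝ)| := by
        rw [hom]
        push_cast
        rw [abs_mul]
        have : (1 : ℝ) ≤ |(a : ℝ) * b' - a' * b| := by exact_mod_cast hk1
        exact le_mul_of_one_le_left (abs_nonneg _) this
      have h3 : 5 * |(om z₁ z₂ i j : ℝ)| ≤ (sn z₁ : ℝ) * sn z₂ := by
        have := abs_nonneg (om z₁ z₂ i j : ℝ)
        linarith
      have h4 : (5 * |(om z₁ z₂ i j : ℝ)|) ^ 2 ≤ ((sn z₁ : ℝ) * sn z₂) ^ 2 :=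
        pow_le_pow_left₀ (by positivity) h3 2
      rw [mul_pow, sq_abs] at h4
      linarith
    have hsum : ∑ i : Fin 6, ∑ j : Fin 6, (25 * (om z₁ z₂ i j : ℝ) ^ 2 : ℝ) ≤
        36 * ((GEO2_nm z₁ : ℝ) * GEO2_nm z₂) := by
      have : ∑ i : Fin 6, ∑ j : Fin 6, (25 * (om z₁ z₂ i j : ℝ) ^ 2 : ℝ) ≤
          ∑ _i : Fin 6, ∑ _j : Fin 6, ((GEO2_nm z₁ : ℝ) * GEO2_nm z₂) :=
        sum_le_sum fun i _ => sum_le_sum fun j _ => hterm i j
      refine this.trans (le_of_eq ?_)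
      simp only [sum_const, card_univ, Fintype.card_fin, nsmul_eq_mul]
      push_cast
      ring
    have hlag : ∑ i : Fin 6, ∑ j : Fin 6, (25 * (om z₁ z₂ i j : ℝ) ^ 2 : ℝ) =
        50 * ((GEO2_nm z₁ : ℝ) * GEO2_nm z₂ - (GEO2_dp z₁ z₂ : ℝ) ^ 2) := by
      have h := GEO2_lagrange z₁ z₂
      have h' : ∑ i : Fin 6, ∑ j : Fin 6, ((om z₁ z₂ i j : ℝ) ^ 2 : ℝ) =
          2 * ((GEO2_nm z₁ : ℝ) * GEO2_nm z₂ - (GEO2_dp z₁ z₂ : ℝ) ^ 2) := by exact_mod_cast h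
      simp only [← mul_sum]
      rw [h']
      ring
    have ht2 : 4 * (GEO2_dp z₁ z₂ : ℝ) ^ 2 ≤ GEO2_nm z₁ * GEO2_nm z₂ := by
      have e1 : (2 * GEO2_dp z₁ z₂) ^ 2 ≤ GEO2_nm z₁ ^ 2 := by
        rw [← sq_abs (2 * GEO2_dp z₁ z₂)]
        exact pow_le_pow_left₀ (abs_nonneg _) ht 2
      have e2 : (2 * (GEO2_dp z₁ z₂ : ℝ)) ^ 2 ≤ (GEO2_nm z₁ : ℝ) ^ 2 := by exact_mod_cast e1
      have e3 : (GEO2_nm z₁ : ℝ) ≤ GEO2_nm z₂ := by exact_mod_cast hN12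
      nlinarith
    have hprod : (0 : ℝ) < GEO2_nm z₁ * GEO2_nm z₂ := mul_pos hN1' hN2'
    rw [hlag] at hsum
    nlinarith

end Pool.HPQ
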