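import Pool.Agent.Work.MP_9fb703_hp.Interface

/-! # Block GEO3: a reduced basis of a saturated lattice of rank three (helper98)

Among the triples of elements of the saturation of `ℤ u + ℤ v + ℤ m` with nonzero minor at a
fixed place `(i, j, k)`, take those whose minor is smallest (these are the bases), and among these
one with the smallest sum of squares. The Gram determinant of such a basis is at least a quarter
of the product of the squares of the lengths. -/

set_option autoImplicit false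

namespace Pool.HPQ

open Finset

namespace GEO3h

/-- inner product -/
def ip (x y : Fin 6 → ℤ) : ℤ := ∑ i, x i * y i

/-- the combination `a x + b y + c z` -/
def cb (a b c : ℤ) (x y z : Fin 6 → ℤ) : Fin 6 → ℤ := fun i => a * x i + b * y i + c * z i

theorem sum3 (f g h : Fin 6 → ℤ) :
    ∑ i, ∑ j, ∑ k, f i * g j * h k = (∑ i, f i) * (∑ j, g j) * (∑ k, h k) := by
  rw [Finset.sum_mul_sum, Finset.sum_mul]
  refine Finset.sum_congr rfl fun i _ => ?_
  rw [Finset.sum_mul_sum]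

theorem gram_id (x y z : Fin 6 → ℤ) :
    ∑ i, ∑ j, ∑ k, x i * y j * z k * om3 x y z i j k =
      ip x x * ip y y * ip z z + 2 * ip x y * ip x z * ip y z - ip x x * ip y z ^ 2 -
        ip y y * ip x z ^ 2 - ip z z * ip x y ^ 2 := by
  have e : ∀ i j k, x i * y j * z k * om3 x y z i j k =
      (x i * x i) * (y j * y j) * (z k * z k) - (x i * x i) * (y j * z j) * (y k * z k) -
      (x i * y i) * (x j * y j) * (z k * z k) + (x i * z i) * (x j * y j) * (y k * z k) +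
      (x i * y i) * (y j * z j) * (x k * z k) - (x i * z i) * (y j * y j) * (x k * z k) := by
    intro i j k
    unfold om3
    ring
  simp only [e, Finset.sum_sub_distrib, Finset.sum_add_distrib]
  have s1 := sum3 (fun i => x i * x i) (fun j => y j * y j) (fun k => z k * z k)
  have s2 := sum3 (fun i => x i * x i) (fun j => y j * z j) (fun k => y k * z k)
  have s3 := sum3 (fun i => x i * y i) (fun j => x j * y j) (fun k => z k * z k)
  have s4 := sum3 (fun i => x i * z i) (fun j => x j * y j) (fun k => y k * z k)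
  have s5 := sum3 (fun i => x i * y i) (fun j => y j * z j) (fun k => x k * z k)
  have s6 := sum3 (fun i => x i * z i) (fun j => y j * y j) (fun k => x k * z k)
  simp only at s1 s2 s3 s4 s5 s6
  rw [s1, s2, s3, s4, s5, s6]
  unfold ip
  ring

/-- the Gram determinant, ordered case -/
theorem gram_ord (a b c r s t : ℝ) (ha : 0 ≤ a) (hab : a ≤ b) (hbc : b ≤ c) (hr : 2 * |r| ≤ a)
    (hs : 2 * |s| ≤ a) (ht : 2 * |t| ≤ b) (h : r * s * t < 0 → 2 * (|r| + |s| + |t|) ≤ a + b) :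
    a * b * c ≤ 4 * (a * b * c + 2 * r * s * t - a * t ^ 2 - b * s ^ 2 - c * r ^ 2) := by
  have hR0 := abs_nonneg r
  have hS0 := abs_nonneg s
  have hT0 := abs_nonneg t
  rw [← sq_abs r, ← sq_abs s, ← sq_abs t]
  have hb : 0 ≤ b := ha.trans hab
  have hc : 0 ≤ c := hb.trans hbc
  rcases lt_or_ge (r * s * t) 0 with hneg | hpos
  · have hsum := h hneg
    have habs : r * s * t = -(|r| * |s| * |t|) := by
      rw [← abs_mul, ← abs_mul, abs_of_neg hneg]
      ring
    have e1 : 2 * r * s * t = -(2 * (|r| * |s| * |t|)) := by linarith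
    rw [e1]
    generalize |r| = R at *
    generalize |s| = S at *
    generalize |t| = T at *
    have f1 : c * R ^ 2 ≤ c * a * R / 2 := by
      have : 0 ≤ c * R * (a - 2 * R) := mul_nonneg (mul_nonneg hc hR0) (by linarith)
      nlinarith
    have f2 : b * S ^ 2 ≤ c * a * S / 2 := by
      have g1 : 0 ≤ b * S * (a - 2 * S) := mul_nonneg (mul_nonneg hb hS0) (by linarith)
      have g2 : 0 ≤ (c - b) * (a * S) := mul_nonneg (by linarith) (mul_nonneg ha hS0)
      nlinarith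
    have f3 : a * T ^ 2 ≤ c * a * T / 2 := by
      have g1 : 0 ≤ a * T * (b - 2 * T) := mul_nonneg (mul_nonneg ha hT0) (by linarith)
      have g2 : 0 ≤ (c - b) * (a * T) := mul_nonneg (by linarith) (mul_nonneg ha hT0)
      nlinarith
    have f4 : c * a * (R + S + T) / 2 ≤ a * b * c / 2 := by
      have g1 : 0 ≤ c * a * (2 * b - 2 * (R + S + T)) :=
        mul_nonneg (mul_nonneg hc ha) (by linarith)
      nlinarith
    have f5 : R * S * T ≤ a * b * c / 8 := by
      have g1 : R * S ≤ (a / 2) * (a / 2) :=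
        mul_le_mul (by linarith) (by linarith) hS0 (by linarith)
      have g2 : R * S * T ≤ (a / 2) * (a / 2) * (b / 2) :=
        mul_le_mul g1 (by linarith) hT0 (by positivity)
      have g3 : 0 ≤ a * b * (c - a) := mul_nonneg (mul_nonneg ha hb) (by linarith)
      nlinarith
    nlinarith
  · have e1 : 0 ≤ 2 * r * s * t := by linarith
    generalize |r| = R at *
    generalize |s| = S at *
    generalize |t| = T at *
    have f1 : c * R ^ 2 ≤ a * b * c / 4 := by
      have g1 : R ^ 2 ≤ a * b / 4 := by nlinarith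
      have := mul_le_mul_of_nonneg_left g1 hc
      linarith
    have f2 : b * S ^ 2 ≤ a * b * c / 4 := by
      have g1 : S ^ 2 ≤ a * c / 4 := by nlinarith
      have := mul_le_mul_of_nonneg_left g1 hb
      linarith
    have f3 : a * T ^ 2 ≤ a * b * c / 4 := by
      have g1 : T ^ 2 ≤ b * c / 4 := by nlinarith
      have := mul_le_mul_of_nonneg_left g1 ha
      linarith
    linarith

/-- the Gram determinant, general case -/
theorem gram_gen (a b c r s t : ℝ) (ha : 0 ≤ a) (hb : 0 ≤ b) (hc : 0 ≤ c) (hra : 2 * |r| ≤ a)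
    (hrb : 2 * |r| ≤ b) (hsa : 2 * |s| ≤ a) (hsc : 2 * |s| ≤ c) (htb : 2 * |t| ≤ b)
    (htc : 2 * |t| ≤ c) (h1 : r * s * t < 0 → 2 * (|r| + |s| + |t|) ≤ a + b)
    (h2 : r * s * t < 0 → 2 * (|r| + |s| + |t|) ≤ a + c)
    (h3 : r * s * t < 0 → 2 * (|r| + |s| + |t|) ≤ b + c) :
    a * b * c ≤ 4 * (a * b * c + 2 * r * s * t - a * t ^ 2 - b * s ^ 2 - c * r ^ 2) := by
  rcases le_total a b with hab | hab
  · rcases le_total b c with hbc | hbc
    · exact gram_ord a b c r s t ha hab hbc hra hsa htb h1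
    · rcases le_total a c with hac | hac
      · have := gram_ord a c b s r t ha hac hbc hsa hra htc (fun h => by
          have := h2 (by linarith [mul_comm r s, h, mul_comm s r]); linarith)
        nlinarith [this]
      · have := gram_ord c a b s t r hc hac hab hsc htc hra (fun h => by
          have := h2 (by nlinarith); linarith)
        nlinarith [this]
  · rcases le_total a c with hac | hac
    · have := gram_ord b a c r t s hb hab hac hrb htb hsa (fun h => by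
        have := h1 (by nlinarith); linarith)
      nlinarith [this]
    · rcases le_total b c with hbc | hbc
      · have := gram_ord b c a t r s hb hbc hac htb hrb hsc (fun h => by
          have := h3 (by nlinarith); linarith)
        nlinarith [this]
      · have := gram_ord c b a t s r hc hbc hab htc hsc hrb (fun h => by
          have := h3 (by nlinarith); linarith)
        nlinarith [this]

/-- the consequences of minimality for one vector -/
theorem red1 (b c r s t : ℤ)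
    (h : ∀ x y : ℤ, 0 ≤ x ^ 2 * b + y ^ 2 * c + 2 * x * r + 2 * y * s + 2 * x * y * t) :
    2 * |r| ≤ b ∧ 2 * |s| ≤ c ∧ (r * s * t < 0 → 2 * (|r| + |s| + |t|) ≤ b + c) := by
  have a1 := h 1 0
  have a2 := h (-1) 0
  have a3 := h 0 1
  have a4 := h 0 (-1)
  have b1 := h 1 1
  have b2 := h 1 (-1)
  have b3 := h (-1) 1
  have b4 := h (-1) (-1)
  ring_nf at a1 a2 a3 a4 b1 b2 b3 b4
  refine ⟨?_, ?_, ?_⟩
  · rcases abs_cases r with ⟨h1, _⟩ | ⟨h1, _⟩ <;> rw [h1] <;> linarith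
  · rcases abs_cases s with ⟨h1, _⟩ | ⟨h1, _⟩ <;> rw [h1] <;> linarith
  · intro hneg
    rcases abs_cases r with ⟨h1, h1'⟩ | ⟨h1, h1'⟩ <;>
    rcases abs_cases s with ⟨h2, h2'⟩ | ⟨h2, h2'⟩ <;>
    rcases abs_cases t with ⟨h3, h3'⟩ | ⟨h3, h3'⟩ <;>
    rw [h1, h2, h3]
    · exact absurd hneg (not_lt.2 (mul_nonneg (mul_nonneg h1' h2') h3'))
    · linarith
    · linarith
    · exact absurd hneg (not_lt.2 (mul_nonneg_of_nonpos_of_nonpos
        (mul_nonpos_of_nonneg_of_nonpos h1' h2'.le) h3'.le))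
    · linarith
    · exact absurd hneg (not_lt.2 (mul_nonneg_of_nonpos_of_nonpos
        (mul_nonpos_of_nonpos_of_nonneg h1'.le h2') h3'.le))
    · exact absurd hneg (not_lt.2 (mul_nonneg
        (mul_nonneg_of_nonpos_of_nonpos h1'.le h2'.le) h3'))
    · linarith

theorem le_sn (x : Fin 6 → ℤ) (i : Fin 6) : |x i| ≤ (sn x : ℤ) := by
  have h : (x i).natAbs ≤ sn x := Finset.le_sup (f := fun i => (x i).natAbs) (mem_univ i)
  rw [Int.abs_eq_natAbs]
  exact_mod_cast h

theorem sn_sq_le (x : Fin 6 → ℤ) : ((sn x : ℤ)) ^ 2 ≤ ip x x := by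
  obtain ⟨i, _, hi⟩ := Finset.exists_mem_eq_sup (univ : Finset (Fin 6)) ⟨0, mem_univ 0⟩
    (fun i => (x i).natAbs)
  have h1 : (sn x : ℤ) = |x i| := by
    rw [Int.abs_eq_natAbs]
    unfold sn
    exact_mod_cast hi
  rw [h1, sq_abs, pow_two]
  unfold ip
  exact Finset.single_le_sum (f := fun i => x i * x i) (fun j _ => mul_self_nonneg (x j))
    (mem_univ i)

theorem ip_nonneg (x : Fin 6 → ℤ) : 0 ≤ ip x x :=
  Finset.sum_nonneg fun i _ => mul_self_nonneg (x i)

theorem ip_comm (x y : Fin 6 → ℤ) : ip x y = ip y x :=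
  Finset.sum_congr rfl fun i _ => mul_comm _ _

theorem ip_cb (x y z : Fin 6 → ℤ) (s t : ℤ) : ip (cb 1 s t x y z) (cb 1 s t x y z) =
    ip x x + (s ^ 2 * ip y y + t ^ 2 * ip z z + 2 * s * ip x y + 2 * t * ip x z +
      2 * s * t * ip y z) := by
  unfold ip cb
  simp only [Finset.mul_sum, ← Finset.sum_add_distrib]
  refine Finset.sum_congr rfl fun i _ => ?_
  ring

/-- a reduced basis has a large minor -/
theorem big_minor (x y z : Fin 6 → ℤ) (hx : 0 < sn x) (hy : 0 < sn y) (hz : 0 < sn z)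
    (h1 : ∀ s t : ℤ, ip x x ≤ ip (cb 1 s t x y z) (cb 1 s t x y z))
    (h2 : ∀ s t : ℤ, ip y y ≤ ip (cb 1 s t y x z) (cb 1 s t y x z))
    (h3 : ∀ s t : ℤ, ip z z ≤ ip (cb 1 s t z x y) (cb 1 s t z x y)) :
    ∃ i j k, (sn x : ℤ) * sn y * sn z ≤ 1000 * |om3 x y z i j k| := by
  by_contra hcon
  push Not at hcon
  obtain ⟨P, hP⟩ : ∃ P : ℤ, P = (sn x : ℤ) * sn y * sn z := ⟨_, rfl⟩
  rw [← hP] at hcon
  have hP0 : 0 < P := by
    rw [hP]
    have a1 : (0 : ℤ) < sn x := by exact_mod_cast hx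
    have a2 : (0 : ℤ) < sn y := by exact_mod_cast hy
    have a3 : (0 : ℤ) < sn z := by exact_mod_cast hz
    positivity
  have hr1 := red1 (ip y y) (ip z z) (ip x y) (ip x z) (ip y z) (fun s t => by
    have := h1 s t
    rw [ip_cb] at this
    linarith)
  have hr2 := red1 (ip x x) (ip z z) (ip y x) (ip y z) (ip x z) (fun s t => by
    have := h2 s t
    rw [ip_cb] at this
    linarith)
  have hr3 := red1 (ip x x) (ip y y) (ip z x) (ip z y) (ip x y) (fun s t => by
    have := h3 s t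
    rw [ip_cb] at this
    linarith)
  rw [ip_comm y x] at hr2
  rw [ip_comm z x, ip_comm z y] at hr3
  -- the Gram determinant
  have hgram : ip x x * ip y y * ip z z ≤ 4 * (ip x x * ip y y * ip z z +
      2 * ip x y * ip x z * ip y z - ip x x * ip y z ^ 2 - ip y y * ip x z ^ 2 -
      ip z z * ip x y ^ 2) := by
    obtain ⟨c1, c2, c3⟩ := hr1
    obtain ⟨d1, d2, d3⟩ := hr2
    obtain ⟨e1, e2, e3⟩ := hr3
    have key := gram_gen (ip x x) (ip y y) (ip z z) (ip x y) (ip x z) (ip y z)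
      (by exact_mod_cast ip_nonneg x) (by exact_mod_cast ip_nonneg y)
      (by exact_mod_cast ip_nonneg z) (by exact_mod_cast d1) (by exact_mod_cast c1)
      (by exact_mod_cast e1) (by exact_mod_cast c2) (by exact_mod_cast e2)
      (by exact_mod_cast d2)
      (by
        intro h
        have h' : ip x z * ip y z * ip x y < 0 := by
          have h4 : ip x y * ip x z * ip y z < 0 := by exact_mod_cast h
          linarith [mul_comm (ip x z * ip y z) (ip x y), mul_assoc (ip x y) (ip x z) (ip y z)]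
        have := e3 h'
        have h5 : 2 * (|ip x y| + |ip x z| + |ip y z|) ≤ ip x x + ip y y := by linarith
        exact_mod_cast h5)
      (by
        intro h
        have h' : ip x y * ip y z * ip x z < 0 := by
          have h4 : ip x y * ip x z * ip y z < 0 := by exact_mod_cast h
          linarith [mul_right_comm (ip x y) (ip y z) (ip x z)]
        have := d3 h'
        have h5 : 2 * (|ip x y| + |ip x z| + |ip y z|) ≤ ip x x + ip z z := by linarith
        exact_mod_cast h5)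
      (by
        intro h
        have h4 : ip x y * ip x z * ip y z < 0 := by exact_mod_cast h
        have := c3 h4
        exact_mod_cast this)
    exact_mod_cast key
  rw [← gram_id] at hgram
  have hsum : 1000 * ∑ i, ∑ j, ∑ k, x i * y j * z k * om3 x y z i j k ≤ 216 * P ^ 2 := by
    have h6 : ∀ i j k, 1000 * (x i * y j * z k * om3 x y z i j k) ≤ P * P := by
      intro i j k
      have g1 : |x i * y j * z k| ≤ P := by
        rw [abs_mul, abs_mul, hP]
        exact mul_le_mul (mul_le_mul (le_sn x i) (le_sn y j) (abs_nonneg _) (by positivity))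
          (le_sn z k) (abs_nonneg _) (by positivity)
      have g2 := (hcon i j k).le
      calc 1000 * (x i * y j * z k * om3 x y z i j k)
          ≤ |1000 * (x i * y j * z k * om3 x y z i j k)| := le_abs_self _
        _ = |x i * y j * z k| * (1000 * |om3 x y z i j k|) := by
            rw [abs_mul, abs_mul]
            norm_num
            ring
        _ ≤ P * P := mul_le_mul g1 g2 (by positivity) hP0.le
    calc 1000 * ∑ i, ∑ j, ∑ k, x i * y j * z k * om3 x y z i j k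
        = ∑ i, ∑ j, ∑ k, 1000 * (x i * y j * z k * om3 x y z i j k) := by
          simp only [Finset.mul_sum]
      _ ≤ ∑ _i : Fin 6, ∑ _j : Fin 6, ∑ _k : Fin 6, P * P :=
          Finset.sum_le_sum fun i _ => Finset.sum_le_sum fun j _ =>
            Finset.sum_le_sum fun k _ => h6 i j k
      _ = 216 * P ^ 2 := by
          simp only [Finset.sum_const, Finset.card_univ, Fintype.card_fin, nsmul_eq_mul]
          push_cast
          ring
  have hPsq : P ^ 2 ≤ ip x x * ip y y * ip z z := by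
    have g1 : P ^ 2 = (sn x : ℤ) ^ 2 * (sn y : ℤ) ^ 2 * (sn z : ℤ) ^ 2 := by
      rw [hP]
      ring
    rw [g1]
    exact mul_le_mul (mul_le_mul (sn_sq_le x) (sn_sq_le y) (by positivity) (ip_nonneg x))
      (sn_sq_le z) (by positivity) (mul_nonneg (ip_nonneg x) (ip_nonneg y))
  have hPP : 0 < P ^ 2 := by positivity
  linarith

/-- transitivity -/
theorem In3_cb {u v m x y z n : Fin 6 → ℤ} (hx : In3 u v m x) (hy : In3 u v m y)
    (hz : In3 u v m z) (c a b d : ℤ) (hc : c ≠ 0)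
    (h : ∀ i, c * n i = a * x i + b * y i + d * z i) : In3 u v m n := by
  obtain ⟨c₁, a₁, b₁, d₁, h₁, e₁⟩ := hx
  obtain ⟨c₂, a₂, b₂, d₂, h₂, e₂⟩ := hy
  obtain ⟨c₃, a₃, b₃, d₃, h₃, e₃⟩ := hz
  refine ⟨c * (c₁ * c₂ * c₃), a * c₂ * c₃ * a₁ + b * c₁ * c₃ * a₂ + d * c₁ * c₂ * a₃,
    a * c₂ * c₃ * b₁ + b * c₁ * c₃ * b₂ + d * c₁ * c₂ * b₃,
    a * c₂ * c₃ * d₁ + b * c₁ * c₃ * d₂ + d * c₁ * c₂ * d₃,
    mul_ne_zero hc (mul_ne_zero (mul_ne_zero h₁ h₂) h₃), ?_⟩
  intro i
  linear_combination (c₁ * c₂ * c₃) * h i + (a * c₂ * c₃) * e₁ i + (b * c₁ * c₃) * e₂ i +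
    (d * c₁ * c₂) * e₃ i

/-- the four by four determinant expanded along the last coordinate -/
def D4 (x y z n : Fin 6 → ℤ) (i j k l : Fin 6) : ℤ :=
  om3 x y z i j k * n l - om3 n y z i j k * x l - om3 x n z i j k * y l - om3 x y n i j k * z l

theorem D4_zero (u v m : Fin 6 → ℤ) (a₁ b₁ d₁ a₂ b₂ d₂ a₃ b₃ d₃ a₄ b₄ d₄ : ℤ)
    (i j k l : Fin 6) :
    D4 (cb a₁ b₁ d₁ u v m) (cb a₂ b₂ d₂ u v m) (cb a₃ b₃ d₃ u v m) (cb a₄ b₄ d₄ u v m)
      i j k l = 0 := by
  unfold D4 om3 cb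
  ring

theorem cramer {u v m x y z n : Fin 6 → ℤ} (hx : In3 u v m x) (hy : In3 u v m y)
    (hz : In3 u v m z) (hn : In3 u v m n) (i j k l : Fin 6) :
    om3 x y z i j k * n l =
      om3 n y z i j k * x l + om3 x n z i j k * y l + om3 x y n i j k * z l := by
  obtain ⟨c₁, a₁, b₁, d₁, h₁, e₁⟩ := hx
  obtain ⟨c₂, a₂, b₂, d₂, h₂, e₂⟩ := hy
  obtain ⟨c₃, a₃, b₃, d₃, h₃, e₃⟩ := hz
  obtain ⟨c₄, a₄, b₄, d₄, h₄, e₄⟩ := hn
  have f₁ : (fun i => c₁ * x i) = cb a₁ b₁ d₁ u v m := funext e₁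
  have f₂ : (fun i => c₂ * y i) = cb a₂ b₂ d₂ u v m := funext e₂
  have f₃ : (fun i => c₃ * z i) = cb a₃ b₃ d₃ u v m := funext e₃
  have f₄ : (fun i => c₄ * n i) = cb a₄ b₄ d₄ u v m := funext e₄
  have g := D4_zero u v m a₁ b₁ d₁ a₂ b₂ d₂ a₃ b₃ d₃ a₄ b₄ d₄ i j k l
  rw [← f₁, ← f₂, ← f₃, ← f₄] at g
  have g' : (c₁ * c₂ * c₃ * c₄) * D4 x y z n i j k l = 0 := by
    rw [← g]
    unfold D4 om3
    ring
  have g'' : D4 x y z n i j k l = 0 := by
    rcases mul_eq_zero.1 g' with h | h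
    · exact absurd h (mul_ne_zero (mul_ne_zero (mul_ne_zero h₁ h₂) h₃) h₄)
    · exact h
  unfold D4 at g''
  linarith

theorem exists_min {α : Type*} (P : α → Prop) (f : α → ℕ) (h : ∃ a, P a) :
    ∃ a, P a ∧ ∀ b, P b → f a ≤ f b := by
  classical
  obtain ⟨a₀, h₀⟩ := h
  have hex : ∃ n, ∃ a, P a ∧ f a = n := ⟨f a₀, a₀, h₀, rfl⟩
  obtain ⟨a, ha, hfa⟩ := Nat.find_spec hex
  refine ⟨a, ha, fun b hb => ?_⟩
  rw [hfa]
  exact Nat.find_min' hex ⟨b, hb, rfl⟩

/-- divisibility from minimality -/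
theorem dvd_of_min (D X : ℤ) (hD : D ≠ 0)
    (h : ∀ q : ℤ, X - q * D ≠ 0 → D.natAbs ≤ (X - q * D).natAbs) : D ∣ X := by
  by_contra hnd
  have h1 : X - (X / D) * D = X % D := by
    have := Int.emod_add_mul_ediv X D
    linarith [mul_comm D (X / D)]
  have h2 : X % D ≠ 0 := fun h3 => hnd (Int.dvd_of_emod_eq_zero h3)
  have h3 := h (X / D) (by rw [h1]; exact h2)
  rw [h1] at h3
  have h4 := Int.emod_nonneg X hD
  have h5 := Int.emod_lt_abs X hD
  have h6 : (D.natAbs : ℤ) ≤ ((X % D).natAbs : ℤ) := by exact_mod_cast h3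
  rw [← Int.abs_eq_natAbs, ← Int.abs_eq_natAbs, abs_of_nonneg h4] at h6
  linarith

theorem basis_exists (u v m : Fin 6 → ℤ) (i j k : Fin 6) (hne : om3 u v m i j k ≠ 0) :
    ∃ x y z : Fin 6 → ℤ, In3 u v m x ∧ In3 u v m y ∧ In3 u v m z ∧ om3 x y z i j k ≠ 0 ∧
      (∀ n, In3 u v m n → ∃ α β γ : ℤ, ∀ l, n l = α * x l + β * y l + γ * z l) ∧
      (∀ s t : ℤ, ip x x ≤ ip (cb 1 s t x y z) (cb 1 s t x y z)) ∧
      (∀ s t : ℤ, ip y y ≤ ip (cb 1 s t y x z) (cb 1 s t y x z)) ∧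
      (∀ s t : ℤ, ip z z ≤ ip (cb 1 s t z x y) (cb 1 s t z x y)) := by
  classical
  have hu : In3 u v m u := ⟨1, 1, 0, 0, one_ne_zero, fun i => by ring⟩
  have hv : In3 u v m v := ⟨1, 0, 1, 0, one_ne_zero, fun i => by ring⟩
  have hm : In3 u v m m := ⟨1, 0, 0, 1, one_ne_zero, fun i => by ring⟩
  obtain ⟨⟨x₀, y₀, z₀⟩, hP₀, hmin₀⟩ := exists_min
    (fun t : (Fin 6 → ℤ) × (Fin 6 → ℤ) × (Fin 6 → ℤ) =>
      In3 u v m t.1 ∧ In3 u v m t.2.1 ∧ In3 u v m t.2.2 ∧ om3 t.1 t.2.1 t.2.2 i j k ≠ 0)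
    (fun t => (om3 t.1 t.2.1 t.2.2 i j k).natAbs) ⟨(u, v, m), hu, hv, hm, hne⟩
  simp only at hP₀ hmin₀
  obtain ⟨⟨x, y, z⟩, ⟨hP, hd⟩, hmin⟩ := exists_min
    (fun t : (Fin 6 → ℤ) × (Fin 6 → ℤ) × (Fin 6 → ℤ) =>
      (In3 u v m t.1 ∧ In3 u v m t.2.1 ∧ In3 u v m t.2.2 ∧ om3 t.1 t.2.1 t.2.2 i j k ≠ 0) ∧
      (om3 t.1 t.2.1 t.2.2 i j k).natAbs = (om3 x₀ y₀ z₀ i j k).natAbs)
    (fun t => (ip t.1 t.1 + ip t.2.1 t.2.1 + ip t.2.2 t.2.2).toNat) ⟨(x₀, y₀, z₀), hP₀, rfl⟩
  simp only at hP hd hmin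
  obtain ⟨hx, hy, hz, hD⟩ := hP
  have hmin1 : ∀ x' y' z' : Fin 6 → ℤ, In3 u v m x' → In3 u v m y' → In3 u v m z' →
      om3 x' y' z' i j k ≠ 0 → (om3 x y z i j k).natAbs ≤ (om3 x' y' z' i j k).natAbs := by
    intro x' y' z' h1 h2 h3 h4
    rw [hd]
    exact hmin₀ (x', y', z') ⟨h1, h2, h3, h4⟩
  have hmin2 : ∀ x' y' z' : Fin 6 → ℤ, In3 u v m x' → In3 u v m y' → In3 u v m z' →
      om3 x' y' z' i j k = om3 x y z i j k →
      ip x x + ip y y + ip z z ≤ ip x' x' + ip y' y' + ip z' z' := by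
    intro x' y' z' h1 h2 h3 h4
    have h5 := hmin (x', y', z') ⟨⟨h1, h2, h3, by rw [h4]; exact hD⟩, by rw [h4]; exact hd⟩
    simp only at h5
    have h6 := Int.toNat_of_nonneg (add_nonneg (add_nonneg (ip_nonneg x) (ip_nonneg y))
      (ip_nonneg z))
    have h7 := Int.toNat_of_nonneg (add_nonneg (add_nonneg (ip_nonneg x') (ip_nonneg y'))
      (ip_nonneg z'))
    rw [← h6, ← h7]
    exact_mod_cast h5
  refine ⟨x, y, z, hx, hy, hz, hD, ?_, ?_, ?_, ?_⟩
  · intro n hn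
    have hX : om3 x y z i j k ∣ om3 n y z i j k := by
      refine dvd_of_min _ _ hD fun q hq => ?_
      have e : om3 (cb 1 (-q) 0 n x y) y z i j k = om3 n y z i j k - q * om3 x y z i j k := by
        unfold om3 cb
        ring
      rw [← e] at hq ⊢
      exact hmin1 _ _ _ (In3_cb hn hx hy 1 1 (-q) 0 one_ne_zero fun i => by
        simp only [cb]; ring) hy hz hq
    have hY : om3 x y z i j k ∣ om3 x n z i j k := by
      refine dvd_of_min _ _ hD fun q hq => ?_
      have e : om3 x (cb 1 (-q) 0 n y x) z i j k = om3 x n z i j k - q * om3 x y z i j k := by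
        unfold om3 cb
        ring
      rw [← e] at hq ⊢
      exact hmin1 _ _ _ hx (In3_cb hn hy hx 1 1 (-q) 0 one_ne_zero fun i => by
        simp only [cb]; ring) hz hq
    have hZ : om3 x y z i j k ∣ om3 x y n i j k := by
      refine dvd_of_min _ _ hD fun q hq => ?_
      have e : om3 x y (cb 1 (-q) 0 n z x) i j k = om3 x y n i j k - q * om3 x y z i j k := by
        unfold om3 cb
        ring
      rw [← e] at hq ⊢
      exact hmin1 _ _ _ hx hy (In3_cb hn hz hx 1 1 (-q) 0 one_ne_zero fun i => by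
        simp only [cb]; ring) hq
    obtain ⟨α, hα⟩ := hX
    obtain ⟨β, hβ⟩ := hY
    obtain ⟨γ, hγ⟩ := hZ
    refine ⟨α, β, γ, fun l => ?_⟩
    have e := cramer hx hy hz hn i j k l
    rw [hα, hβ, hγ] at e
    apply mul_left_cancel₀ hD
    linear_combination e
  · intro s t
    have h1 := hmin2 (cb 1 s t x y z) y z (In3_cb hx hy hz 1 1 s t one_ne_zero fun i => by
      simp only [cb]; ring) hy hz (by unfold om3 cb; ring)
    linarith
  · intro s t
    have h1 := hmin2 x (cb 1 s t y x z) z hx (In3_cb hy hx hz 1 1 s t one_ne_zero fun i => by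
      simp only [cb]; ring) hz (by unfold om3 cb; ring)
    linarith
  · intro s t
    have h1 := hmin2 x y (cb 1 s t z x y) hx hy (In3_cb hz hx hy 1 1 s t one_ne_zero fun i => by
      simp only [cb]; ring) (by unfold om3 cb; ring)
    linarith

/-- the minors of three vectors are bounded -/
theorem om3_le (x y z : Fin 6 → ℤ) (i j k : Fin 6) :
    |om3 x y z i j k| ≤ 6 * ((sn x : ℤ) * sn y * sn z) := by
  have hm : ∀ a b c : Fin 6, |x a * y b * z c| ≤ (sn x : ℤ) * sn y * sn z := by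
    intro a b c
    rw [abs_mul, abs_mul]
    exact mul_le_mul (mul_le_mul (le_sn x a) (le_sn y b) (abs_nonneg _) (by positivity))
      (le_sn z c) (abs_nonneg _) (by positivity)
  have h1 := abs_le.1 (hm i j k)
  have h2 := abs_le.1 (hm i k j)
  have h3 := abs_le.1 (hm j i k)
  have h4 := abs_le.1 (hm j k i)
  have h5 := abs_le.1 (hm k i j)
  have h6 := abs_le.1 (hm k j i)
  have e : om3 x y z i j k = x i * y j * z k - x i * y k * z j - x j * y i * z k +
      x j * y k * z i + x k * y i * z j - x k * y j * z i := by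
    unfold om3
    ring
  rw [e, abs_le]
  constructor <;> linarith [h1.1, h1.2, h2.1, h2.2, h3.1, h3.2, h4.1, h4.2, h5.1, h5.2, h6.1, h6.2]

/-- the coefficient of a vector on an element of a reduced basis -/
theorem coef_le (x y z n : Fin 6 → ℤ) (α β γ : ℤ) (hy : 0 < sn y) (hz : 0 < sn z) (i j k : Fin 6)
    (hbig : (sn x : ℤ) * sn y * sn z ≤ 1000 * |om3 x y z i j k|)
    (hn : ∀ l, n l = α * x l + β * y l + γ * z l) : |α| * sn x ≤ 6000 * sn n := by
  have e : om3 n y z i j k = α * om3 x y z i j k := by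
    unfold om3
    rw [hn i, hn j, hn k]
    ring
  have h1 := om3_le n y z i j k
  rw [e, abs_mul] at h1
  have h2 : |α| * ((sn x : ℤ) * sn y * sn z) ≤ |α| * (1000 * |om3 x y z i j k|) :=
    mul_le_mul_of_nonneg_left hbig (abs_nonneg _)
  have h3 : (0 : ℤ) < (sn y : ℤ) * sn z := by
    have a2 : (0 : ℤ) < sn y := by exact_mod_cast hy
    have a3 : (0 : ℤ) < sn z := by exact_mod_cast hz
    positivity
  have h4 : (|α| * sn x) * ((sn y : ℤ) * sn z) ≤ (6000 * sn n) * ((sn y : ℤ) * sn z) := by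
    nlinarith
  exact le_of_mul_le_mul_right h4 h3

/-- counting combinations with bounded coefficients -/
theorem count (S : Finset (Fin 6 → ℤ)) (x y z : Fin 6 → ℤ) (N₁ N₂ N₃ : ℕ)
    (h : ∀ n ∈ S, ∃ α β γ : ℤ, |α| ≤ N₁ ∧ |β| ≤ N₂ ∧ |γ| ≤ N₃ ∧
      ∀ l, n l = α * x l + β * y l + γ * z l) :
    S.card ≤ (2 * N₁ + 1) * ((2 * N₂ + 1) * (2 * N₃ + 1)) := by
  classical
  have hsub : S ⊆ (Finset.Icc (-(N₁ : ℤ)) N₁ ×ˢ (Finset.Icc (-(N₂ : ℤ)) N₂ ×ˢ
      Finset.Icc (-(N₃ : ℤ)) N₃)).image fun t => cb t.1 t.2.1 t.2.2 x y z := by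
    intro n hn
    obtain ⟨α, β, γ, h1, h2, h3, h4⟩ := h n hn
    rw [Finset.mem_image]
    refine ⟨(α, β, γ), ?_, ?_⟩
    · rw [Finset.mem_product, Finset.mem_product, Finset.mem_Icc, Finset.mem_Icc,
        Finset.mem_Icc]
      exact ⟨abs_le.1 h1, abs_le.1 h2, abs_le.1 h3⟩
    · funext l
      exact (h4 l).symm
  refine (Finset.card_le_card hsub).trans (Finset.card_image_le.trans (le_of_eq ?_))
  rw [Finset.card_product, Finset.card_product, Int.card_Icc, Int.card_Icc, Int.card_Icc]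
  congr 1
  · omega
  · congr 1 <;> omega

end GEO3h

open GEO3h in
theorem p_GEO3 : Stmt_GEO3 := by
  classical
  refine ⟨27 * 18000 ^ 3, by norm_num, ?_⟩
  intro B u v m hB hu hv hm ⟨i₀, j₀, k₀, hne⟩
  obtain ⟨x, y, z, hx, hy, hz, hD, hbas, r1, r2, r3⟩ := basis_exists u v m i₀ j₀ k₀ hne
  have hB0 : (0 : ℝ) < B := by linarith
  -- the basis vectors are nonzero
  have hsn : ∀ w : Fin 6 → ℤ, w ≠ 0 → 0 < sn w := by
    intro w hw
    by_contra h0
    apply hw
    funext i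
    have h1 := le_sn w i
    have h2 : sn w = 0 := by omega
    rw [h2] at h1
    simpa using h1
  have hx0 : x ≠ 0 := by
    intro h
    apply hD
    rw [h]
    simp [om3]
  have hy0 : y ≠ 0 := by
    intro h
    apply hD
    rw [h]
    simp [om3]
  have hz0 : z ≠ 0 := by
    intro h
    apply hD
    rw [h]
    simp [om3]
  have sx := hsn x hx0
  have sy := hsn y hy0
  have sz := hsn z hz0
  obtain ⟨i, j, k, hbig⟩ := big_minor x y z sx sy sz r1 r2 r3
  -- the coefficients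
  have hswap1 : ∀ i j k, |om3 y x z i j k| = |om3 x y z i j k| := by
    intro i j k
    rw [← abs_neg]
    congr 1
    unfold om3
    ring
  have hswap2 : ∀ i j k, |om3 z x y i j k| = |om3 x y z i j k| := by
    intro i j k
    congr 1
    unfold om3
    ring
  have hcoef : ∀ (n : Fin 6 → ℤ) (α β γ : ℤ), (∀ l, n l = α * x l + β * y l + γ * z l) →
      |α| * sn x ≤ 6000 * (sn n : ℤ) ∧ |β| * sn y ≤ 6000 * (sn n : ℤ) ∧
        |γ| * sn z ≤ 6000 * (sn n : ℤ) := by
    intro n α β γ hn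
    refine ⟨coef_le x y z n α β γ sy sz i j k hbig hn, ?_, ?_⟩
    · refine coef_le y x z n β α γ sx sz i j k ?_ (fun l => ?_)
      · rw [hswap1]
        linarith [mul_comm (sn x : ℤ) (sn y : ℤ)]
      · rw [hn l]
        ring
    · refine coef_le z x y n γ α β sx sy i j k ?_ (fun l => ?_)
      · rw [hswap2]
        linarith [mul_comm (sn z : ℤ) ((sn x : ℤ) * sn y), mul_assoc (sn z : ℤ) (sn x) (sn y)]
      · rw [hn l]
        ring
  have hInu : In3 u v m u := ⟨1, 1, 0, 0, one_ne_zero, fun i => by ring⟩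
  have hInv : In3 u v m v := ⟨1, 0, 1, 0, one_ne_zero, fun i => by ring⟩
  have hInm : In3 u v m m := ⟨1, 0, 0, 1, one_ne_zero, fun i => by ring⟩
  obtain ⟨α₁, β₁, γ₁, hu'⟩ := hbas u hInu
  obtain ⟨α₂, β₂, γ₂, hv'⟩ := hbas v hInv
  obtain ⟨α₃, β₃, γ₃, hm'⟩ := hbas m hInm
  have hdet : om3 u v m i₀ j₀ k₀ = (α₁ * (β₂ * γ₃ - β₃ * γ₂) - β₁ * (α₂ * γ₃ - α₃ * γ₂) +
      γ₁ * (α₂ * β₃ - α₃ * β₂)) * om3 x y z i₀ j₀ k₀ := by
    unfold om3
    rw [hu' i₀, hu' j₀, hu' k₀, hv' i₀, hv' j₀, hv' k₀, hm' i₀, hm' j₀, hm' k₀]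
    ring
  -- a nonzero coefficient bounds the basis vector
  have hbd : ∀ (w : Fin 6 → ℤ) (α : ℤ) (s : ℕ), α ≠ 0 → |α| * s ≤ 6000 * (sn w : ℤ) →
      (sn w : ℝ) ≤ 3 * B → (s : ℝ) ≤ 18000 * B := by
    intro w α s hα h1 h2
    have h3 : (s : ℤ) ≤ |α| * s := by
      have := Int.one_le_abs hα
      nlinarith [Int.natCast_nonneg s]
    have h4 : (s : ℤ) ≤ 6000 * (sn w : ℤ) := h3.trans h1
    have h5 : (s : ℝ) ≤ 6000 * (sn w : ℝ) := by exact_mod_cast h4
    linarith
  have hcu := hcoef u α₁ β₁ γ₁ hu'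
  have hcv := hcoef v α₂ β₂ γ₂ hv'
  have hcm := hcoef m α₃ β₃ γ₃ hm'
  have hXB : (sn x : ℝ) ≤ 18000 * B := by
    by_cases h1 : α₁ = 0
    · by_cases h2 : α₂ = 0
      · by_cases h3 : α₃ = 0
        · exfalso
          apply hne
          rw [hdet, h1, h2, h3]
          ring
        · exact hbd m α₃ _ h3 hcm.1 hm
      · exact hbd v α₂ _ h2 hcv.1 hv
    · exact hbd u α₁ _ h1 hcu.1 hu
  have hYB : (sn y : ℝ) ≤ 18000 * B := by
    by_cases h1 : β₁ = 0
    · by_cases h2 : β₂ = 0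
      · by_cases h3 : β₃ = 0
        · exfalso
          apply hne
          rw [hdet, h1, h2, h3]
          ring
        · exact hbd m β₃ _ h3 hcm.2.1 hm
      · exact hbd v β₂ _ h2 hcv.2.1 hv
    · exact hbd u β₁ _ h1 hcu.2.1 hu
  have hZB : (sn z : ℝ) ≤ 18000 * B := by
    by_cases h1 : γ₁ = 0
    · by_cases h2 : γ₂ = 0
      · by_cases h3 : γ₃ = 0
        · exfalso
          apply hne
          rw [hdet, h1, h2, h3]
          ring
        · exact hbd m γ₃ _ h3 hcm.2.2 hm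
      · exact hbd v γ₂ _ h2 hcv.2.2 hv
    · exact hbd u γ₁ _ h1 hcu.2.2 hu
  have hIn : ∀ n, In3 x y z n → ∃ α β γ : ℤ, ∀ l, n l = α * x l + β * y l + γ * z l := by
    intro n hn
    obtain ⟨c, a, b, d, hc, hcn⟩ := hn
    exact hbas n (In3_cb hx hy hz c a b d hc hcn)
  have hC : (18000 : ℝ) * B ≤ 27 * 18000 ^ 3 * B := by nlinarith
  refine ⟨x, y, z, hx0, hy0, hz0, hXB.trans hC, hYB.trans hC, hZB.trans hC,
    ⟨1, α₁, β₁, γ₁, one_ne_zero, fun l => by rw [hu' l]; ring⟩,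
    ⟨1, α₂, β₂, γ₂, one_ne_zero, fun l => by rw [hv' l]; ring⟩,
    ⟨1, α₃, β₃, γ₃, one_ne_zero, fun l => by rw [hm' l]; ring⟩, ?_, ?_⟩
  · -- counting
    intro S hS
    have hsx : (0 : ℝ) < sn x := by exact_mod_cast sx
    have hsy : (0 : ℝ) < sn y := by exact_mod_cast sy
    have hsz : (0 : ℝ) < sn z := by exact_mod_cast sz
    have hK : ∀ (s : ℝ), 0 < s → s ≤ 18000 * B →
        (2 * (⌊18000 * B / s⌋₊ : ℝ) + 1) * s ≤ 3 * (18000 * B) := by
      intro s hs hsB
      have h1 : (⌊18000 * B / s⌋₊ : ℝ) ≤ 18000 * B / s := Nat.floor_le (by positivity)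
      have h2 : (⌊18000 * B / s⌋₊ : ℝ) * s ≤ 18000 * B := by
        rw [le_div_iff₀ hs] at h1
        exact h1
      nlinarith
    have hcard : S.card ≤ (2 * ⌊18000 * B / sn x⌋₊ + 1) * ((2 * ⌊18000 * B / sn y⌋₊ + 1) *
        (2 * ⌊18000 * B / sn z⌋₊ + 1)) := by
      refine count S x y z _ _ _ fun n hn => ?_
      obtain ⟨hnB, hnIn⟩ := hS n hn
      obtain ⟨α, β, γ, hc⟩ := hIn n hnIn
      obtain ⟨c1, c2, c3⟩ := hcoef n α β γ hc
      have hone : ∀ (α : ℤ) (s : ℕ), 0 < s → |α| * (s : ℤ) ≤ 6000 * (sn n : ℤ) →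
          |α| ≤ (⌊18000 * B / (s : ℝ)⌋₊ : ℤ) := by
        intro α s hs h1
        have hs' : (0 : ℝ) < s := by exact_mod_cast hs
        have h2 : (α.natAbs : ℤ) * (s : ℤ) ≤ 6000 * (sn n : ℤ) := by
          rw [← Int.abs_eq_natAbs]
          exact h1
        have h3 : (α.natAbs : ℝ) * (s : ℝ) ≤ 6000 * (sn n : ℝ) := by exact_mod_cast h2
        have h4 : (α.natAbs : ℝ) ≤ 18000 * B / s := by
          rw [le_div_iff₀ hs']
          linarith
        have h5 : α.natAbs ≤ ⌊18000 * B / (s : ℝ)⌋₊ := Nat.le_floor h4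
        rw [Int.abs_eq_natAbs]
        exact_mod_cast h5
      exact ⟨α, β, γ, hone α _ sx c1, hone β _ sy c2, hone γ _ sz c3, hc⟩
    have hcard' : (S.card : ℝ) ≤ (2 * (⌊18000 * B / sn x⌋₊ : ℝ) + 1) *
        ((2 * (⌊18000 * B / sn y⌋₊ : ℝ) + 1) * (2 * (⌊18000 * B / sn z⌋₊ : ℝ) + 1)) := by
      exact_mod_cast hcard
    have k1 := hK (sn x) hsx hXB
    have k2 := hK (sn y) hsy hYB
    have k3 := hK (sn z) hsz hZB
    calc (S.card : ℝ) * ((sn x : ℝ) * sn y * sn z)
        ≤ ((2 * (⌊18000 * B / sn x⌋₊ : ℝ) + 1) * ((2 * (⌊18000 * B / sn y⌋₊ : ℝ) + 1) *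
            (2 * (⌊18000 * B / sn z⌋₊ : ℝ) + 1))) * ((sn x : ℝ) * sn y * sn z) :=
          mul_le_mul_of_nonneg_right hcard' (by positivity)
      _ = ((2 * (⌊18000 * B / sn x⌋₊ : ℝ) + 1) * sn x) *
            ((2 * (⌊18000 * B / sn y⌋₊ : ℝ) + 1) * sn y) *
            ((2 * (⌊18000 * B / sn z⌋₊ : ℝ) + 1) * sn z) := by ring
      _ ≤ (3 * (18000 * B)) * (3 * (18000 * B)) * (3 * (18000 * B)) :=
          mul_le_mul (mul_le_mul k1 k2 (by positivity) (by positivity)) k3 (by positivity)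
            (by positivity)
      _ = 27 * 18000 ^ 3 * B ^ 3 := by ring
  · -- minors
    intro p q r hp hq hr ⟨a, b, c, hpqr⟩
    obtain ⟨p₁, p₂, p₃, hp'⟩ := hIn p hp
    obtain ⟨q₁, q₂, q₃, hq'⟩ := hIn q hq
    obtain ⟨r₁, r₂, r₃, hr'⟩ := hIn r hr
    have hdet2 : ∀ a b c, om3 p q r a b c = (p₁ * (q₂ * r₃ - r₂ * q₃) - p₂ * (q₁ * r₃ - r₁ * q₃) +
        p₃ * (q₁ * r₂ - r₁ * q₂)) * om3 x y z a b c := by
      intro a b c
      unfold om3
      rw [hp' a, hp' b, hp' c, hq' a, hq' b, hq' c, hr' a, hr' b, hr' c]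
      ring
    generalize p₁ * (q₂ * r₃ - r₂ * q₃) - p₂ * (q₁ * r₃ - r₁ * q₃) +
        p₃ * (q₁ * r₂ - r₁ * q₂) = dd at hdet2
    have hdd : dd ≠ 0 := by
      intro h
      apply hpqr
      rw [hdet2, h, zero_mul]
    refine ⟨i, j, k, ?_⟩
    have h1 : |om3 x y z i j k| ≤ |om3 p q r i j k| := by
      rw [hdet2, abs_mul]
      have := Int.one_le_abs hdd
      nlinarith [abs_nonneg (om3 x y z i j k)]
    have h2 : (sn x : ℤ) * sn y * sn z ≤ 1000 * |om3 p q r i j k| := by linarith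
    have h3 : (sn x : ℝ) * sn y * sn z ≤ 1000 * |(om3 p q r i j k : ℝ)| := by
      exact_mod_cast h2
    have h4 : (0 : ℝ) ≤ |(om3 p q r i j k : ℝ)| := abs_nonneg _
    nlinarith

end Pool.HPQ
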