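import Pool.Agent.Work.MP_9fb703_hp.Interface

/-! # GEOM: the sum over all pairs (helper78) -/

set_option autoImplicit false

namespace Pool.HPQ

open Finset

private theorem geom_Kw (R H W : ℕ) (k : ZMod R) : 0 ≤ Kw R H W k := by
  unfold Kw
  positivity

private theorem geom_PP (R T : ℕ) (x y : Fin 6 → ℤ) : 0 ≤ PP R T x y := by
  unfold PP
  positivity

private theorem geom_PS (R T H W : ℕ) (x y : Fin 6 → ℤ) : PS R T H W x y ≤ PP R T x y := by
  unfold PS PP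
  refine div_le_div_of_nonneg_right ?_ (by positivity)
  calc ∑ s ∈ Sol R T x y, (1 - Kw R H W ((s.2 : ℤ) : ZMod R)) ≤ ∑ _s ∈ Sol R T x y, (1 : ℝ) := by
        refine Finset.sum_le_sum fun s _ => ?_
        have := geom_Kw R H W ((s.2 : ℤ) : ZMod R)
        linarith
    _ = ((Sol R T x y).card : ℝ) := by simp

/-- points with vanishing minors coincide -/
private theorem geom_eq {c B : ℝ} {K₀ : ℕ} {x y : Fin 6 → ℤ} (hc : 0 < c) (hB : 1 ≤ B)
    (hx : Fam c B K₀ x) (hy : Fam c B K₀ y) (h : De x y = 0) : x = y := by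
  have hx0 : 0 < x 0 := by
    have h1 : (0 : ℝ) < x 0 := lt_of_lt_of_le (by positivity) hx.lo
    exact_mod_cast h1
  have hy0 : 0 < y 0 := by
    have h1 : (0 : ℝ) < y 0 := lt_of_lt_of_le (by positivity) hy.lo
    exact_mod_cast h1
  have hom : ∀ q, x 0 * y q = x q * y 0 := by
    intro q
    have h1 : (om x y 0 q).natAbs ≤ De x y := by
      unfold De
      exact Finset.le_sup (f := fun q => (om x y 0 q).natAbs) (Finset.mem_univ q)
    have h2 : om x y 0 q = 0 := by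
      rw [← Int.natAbs_eq_zero]
      omega
    unfold om at h2
    linarith
  have h1 := hom 1
  have hd1 : x 0 ∣ y 0 := by
    have h2 : x 0 ∣ x 1 * y 0 := ⟨y 1, h1.symm⟩
    exact hx.cop.dvd_of_dvd_mul_left h2
  have hd2 : y 0 ∣ x 0 := by
    have h2 : y 0 ∣ y 1 * x 0 := ⟨x 1, by linarith⟩
    exact hy.cop.dvd_of_dvd_mul_left h2
  have h0 : x 0 = y 0 := le_antisymm (Int.le_of_dvd hy0 hd1) (Int.le_of_dvd hx0 hd2)
  funext q
  have h2 := hom q
  rw [← h0, mul_comm (x q)] at h2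
  exact (mul_left_cancel₀ hx0.ne' h2).symm

/-- the number of points -/
private theorem geom_card {c B : ℝ} {K₀ : ℕ} {X : Finset (Fin 6 → ℤ)} (hB : 1 ≤ B)
    (hX : ∀ x ∈ X, Fam c B K₀ x) : (X.card : ℝ) ≤ 729 * B ^ 6 := by
  have hn : (0 : ℤ) ≤ ⌊B⌋ := Int.floor_nonneg.2 (by linarith)
  have hsub : X ⊆ Fintype.piFinset fun _ : Fin 6 => Finset.Icc (-⌊B⌋) ⌊B⌋ := by
    intro x hx
    rw [Fintype.mem_piFinset]
    intro i
    have h1 := (hX x hx).bd i
    rw [abs_le] at h1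
    rw [Finset.mem_Icc]
    constructor
    · have h2 : -x i ≤ ⌊B⌋ := by
        rw [Int.le_floor]
        push_cast
        linarith
      linarith
    · rw [Int.le_floor]
      exact h1.2
  have h1 := Finset.card_le_card hsub
  rw [Fintype.card_piFinset, Finset.prod_const, Finset.card_univ, Fintype.card_fin,
    Int.card_Icc] at h1
  have h2 : ((⌊B⌋ + 1 - -⌊B⌋).toNat : ℝ) ≤ 3 * B := by
    have h3 : (((⌊B⌋ + 1 - -⌊B⌋).toNat : ℤ) : ℝ) = ((⌊B⌋ + 1 - -⌊B⌋ : ℤ) : ℝ) := by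
      rw [Int.toNat_of_nonneg (by omega)]
    have h4 : (((⌊B⌋ + 1 - -⌊B⌋).toNat : ℕ) : ℝ) = (((⌊B⌋ + 1 - -⌊B⌋).toNat : ℤ) : ℝ) := by
      push_cast
      rfl
    rw [h4, h3]
    push_cast
    have := Int.floor_le B
    linarith
  calc (X.card : ℝ) ≤ (((⌊B⌋ + 1 - -⌊B⌋).toNat ^ 6 : ℕ) : ℝ) := by exact_mod_cast h1
    _ = ((⌊B⌋ + 1 - -⌊B⌋).toNat : ℝ) ^ 6 := by push_cast; rfl
    _ ≤ (3 * B) ^ 6 := pow_le_pow_left₀ (by positivity) h2 6
    _ = 729 * B ^ 6 := by ring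

theorem p_GEOM (hDIAG : Stmt_DIAG) (hSU : Stmt_SU) (hSS : Stmt_SS) (hSM : Stmt_SM) :
    Stmt_GEOM := by
  classical
  obtain ⟨C₁, hC₁, h1⟩ := hSU
  obtain ⟨C₂, hC₂, h2⟩ := hSS
  obtain ⟨C₃, hC₃, h3⟩ := hSM
  refine ⟨6561 + C₁ + C₂ + C₃, by linarith, ?_⟩
  intro R T H W m₀ K₀ G₀ _ K₁ B c M X hc hc1 hM hMB hTM hBT hR hH hW hWR hHW hG₀ hg hK₁ hK₁' hK₀
    hX
  have hM16 : 16 ≤ M := by
    refine le_trans ?_ hM
    rw [le_div_iff₀ hc]
    linarith
  have hMpos : 0 < M := by linarith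
  have hB1 : 1 ≤ B := by linarith
  have hBpos : 0 < B := by linarith
  have hRpos : 0 < R := Nat.pos_of_ne_zero (NeZero.ne R)
  have hBM : 1 ≤ B / M := by
    rw [le_div_iff₀ hMpos]
    linarith
  have e1 := h1 R T K₀ B c M X hc hc1 hB1 hM16 hRpos hTM hBT hK₀ hX
  have e2 := h2 R T K₀ K₁ B c M X hc hc1 hB1 hMpos hRpos hTM hBT hK₁ hK₁' hX
  have e3 := h3 R T H W m₀ K₀ G₀ B c M X hc hc1 (by linarith) hMB hTM hBT hR hH hW hWR hHW hG₀ hg
    hX
  -- the diagonal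
  have e0 : ∑ p ∈ (X ×ˢ X).filter (fun p => De p.1 p.2 = 0), PP R T p.1 p.2 ^ 2 ≤
      6561 / c ^ 4 * (B / M) ^ 2 := by
    have hd : ∀ x ∈ X, PP R T x x ^ 2 ≤ (3 / (c ^ 2 * M * B ^ 2)) ^ 2 := by
      intro x hx
      refine pow_le_pow_left₀ (geom_PP R T x x) ?_ 2
      refine hDIAG R T K₀ B c M x hc hc1 hB1 hRpos hTM hBT ?_ ?_ (hX x hx)
      · refine le_trans ?_ hM
        exact div_le_div_of_nonneg_right (by norm_num) hc.le
      · refine le_trans ?_ hK₀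
        rw [mul_div_assoc]
        nlinarith
    calc ∑ p ∈ (X ×ˢ X).filter (fun p => De p.1 p.2 = 0), PP R T p.1 p.2 ^ 2 ≤
        ∑ p ∈ X.image (fun x => (x, x)), PP R T p.1 p.2 ^ 2 := by
          refine Finset.sum_le_sum_of_subset_of_nonneg ?_ fun _ _ _ => sq_nonneg _
          intro p hp
          rw [Finset.mem_filter, Finset.mem_product] at hp
          rw [Finset.mem_image]
          have h4 := geom_eq hc hB1 (hX _ hp.1.1) (hX _ hp.1.2) hp.2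
          exact ⟨p.1, hp.1.1, Prod.ext rfl h4⟩
      _ = ∑ x ∈ X, PP R T x x ^ 2 := by
          rw [Finset.sum_image]
          intro a _ b _ hab
          exact congrArg Prod.fst hab
      _ ≤ ∑ _x ∈ X, (3 / (c ^ 2 * M * B ^ 2)) ^ 2 := Finset.sum_le_sum hd
      _ = X.card * (3 / (c ^ 2 * M * B ^ 2)) ^ 2 := by rw [Finset.sum_const, nsmul_eq_mul]
      _ ≤ 729 * B ^ 6 * (3 / (c ^ 2 * M * B ^ 2)) ^ 2 :=
          mul_le_mul_of_nonneg_right (geom_card hB1 hX) (sq_nonneg _)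
      _ = 6561 / c ^ 4 * (B / M) ^ 2 := by
          field_simp
          norm_num
  -- the pointwise splitting
  have hsplit : ∑ x ∈ X, ∑ y ∈ X, PP R T x y * PS R T H W x y ≤
      ∑ p ∈ (X ×ˢ X).filter (fun p => De p.1 p.2 = 0), PP R T p.1 p.2 ^ 2 +
      ∑ p ∈ (X ×ˢ X).filter (fun p => 0 < De p.1 p.2 ∧ ¬ Bal R T p.1 p.2), PP R T p.1 p.2 ^ 2 +
      ∑ p ∈ (X ×ˢ X).filter (fun p => 0 < De p.1 p.2 ∧ Bal R T p.1 p.2 ∧
        M * Dd p.1 p.2 < 16 * B ^ 2), PP R T p.1 p.2 ^ 2 +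
      ∑ p ∈ (X ×ˢ X).filter (fun p => 0 < De p.1 p.2 ∧ Bal R T p.1 p.2 ∧
        16 * B ^ 2 ≤ M * Dd p.1 p.2), PP R T p.1 p.2 * PS R T H W p.1 p.2 := by
    rw [← Finset.sum_product' X X (fun x y => PP R T x y * PS R T H W x y), Finset.sum_filter,
      Finset.sum_filter, Finset.sum_filter, Finset.sum_filter, ← Finset.sum_add_distrib,
      ← Finset.sum_add_distrib, ← Finset.sum_add_distrib]
    refine Finset.sum_le_sum fun p _ => ?_
    have hPP := geom_PP R T p.1 p.2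
    have hPS := geom_PS R T H W p.1 p.2
    have hle : PP R T p.1 p.2 * PS R T H W p.1 p.2 ≤ PP R T p.1 p.2 ^ 2 := by
      rw [sq]
      exact mul_le_mul_of_nonneg_left hPS hPP
    have hsq := sq_nonneg (PP R T p.1 p.2)
    rcases Nat.eq_zero_or_pos (De p.1 p.2) with h4 | h4
    · rw [if_pos h4, if_neg (by omega), if_neg (by omega), if_neg (by omega)]
      linarith
    · rw [if_neg (by omega)]
      by_cases h5 : Bal R T p.1 p.2
      · rw [if_neg (by tauto)]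
        by_cases h6 : M * Dd p.1 p.2 < 16 * B ^ 2
        · rw [if_pos ⟨h4, h5, h6⟩, if_neg (by rintro ⟨_, _, h7⟩; linarith)]
          linarith
        · rw [if_neg (by tauto), if_pos ⟨h4, h5, not_lt.1 h6⟩]
          linarith
      · rw [if_pos ⟨h4, h5⟩, if_neg (by tauto), if_neg (by tauto)]
        linarith
  refine hsplit.trans ?_
  have hk : ∀ (j : ℕ) (K : ℝ), j ≤ 10 → 0 ≤ K → K ≤ 6561 + C₁ + C₂ + C₃ →
      K / c ^ j ≤ (6561 + C₁ + C₂ + C₃) / c ^ 10 := by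
    intro j K hj hK hKC
    have hcj : c ^ 10 ≤ c ^ j := pow_le_pow_of_le_one hc.le hc1 hj
    exact div_le_div₀ (by linarith) hKC (by positivity) hcj
  have hm₀ : (0 : ℝ) ≤ m₀ := Nat.cast_nonneg _
  have hG₀' : (0 : ℝ) ≤ 1 / G₀ + m₀ / (M * B ^ 2) := by positivity
  have f0 := mul_le_mul_of_nonneg_right (hk 4 6561 (by norm_num) (by norm_num) (by linarith))
    (by positivity : 0 ≤ (B / M) ^ 2)
  have f1 := mul_le_mul_of_nonneg_right (hk 8 C₁ (by norm_num) (by linarith) (by linarith))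
    (by positivity : 0 ≤ (B / M) ^ 8 / √B)
  have f2 := mul_le_mul_of_nonneg_right (hk 9 C₂ (by norm_num) (by linarith) (by linarith))
    (by positivity : 0 ≤ (B / M) ^ 8 / K₁)
  have f3 := mul_le_mul_of_nonneg_right (hk 10 C₃ (by norm_num) (by linarith) (by linarith))
    (mul_nonneg (by positivity : 0 ≤ (B / M) ^ 4) hG₀')
  have g1 : C₁ / c ^ 8 * (B / M) ^ 8 / √B = C₁ / c ^ 8 * ((B / M) ^ 8 / √B) := by ring
  have g2 : C₂ / c ^ 9 * (B / M) ^ 8 / K₁ = C₂ / c ^ 9 * ((B / M) ^ 8 / K₁) := by ring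
  have g3 : C₃ / c ^ 10 * (B / M) ^ 4 * (1 / G₀ + m₀ / (M * B ^ 2)) =
      C₃ / c ^ 10 * ((B / M) ^ 4 * (1 / G₀ + m₀ / (M * B ^ 2))) := by ring
  rw [g1] at e1
  rw [g2] at e2
  rw [g3] at e3
  rw [mul_add, mul_add, mul_add]
  linarith

end Pool.HPQ
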