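import Pool.Agent.Work.MP_9fb703_hp.Interface

/-! # Block GRED (helper84) -/

set_option autoImplicit false

namespace Pool.HPQ

open Finset

theorem GRED_Q (N : ℕ) (a a' : Idx → ℤ) (h : ∀ q, (N : ℤ) ∣ a q - a' q) (x : Fin 6 → ℤ) :
    (N : ℤ) ∣ Q a x ↔ (N : ℤ) ∣ Q a' x := by
  have h1 : (N : ℤ) ∣ Q a x - Q a' x := by
    unfold Q
    rw [← Finset.sum_sub_distrib]
    refine Finset.dvd_sum (fun q _ => ?_)
    rw [← sub_mul]
    exact (h q).mul_right _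
  exact (dvd_iff_dvd_of_dvd_sub h1)

theorem GRED_gcd (N : ℕ) (r r' x : Fin 6 → ℤ)
    (h : ∀ p : ℕ, p.Prime → p ∣ N → ∀ i, (p : ℤ) ∣ r i - r' i)
    (h1 : Int.gcd (Int.gcd (dt r x) (x 1)) N = 1) :
    Int.gcd (Int.gcd (dt r' x) (x 1)) N = 1 := by
  by_contra hc
  obtain ⟨p, hp, hd⟩ := Nat.exists_prime_and_dvd hc
  have hd' : (p : ℤ) ∣ (Int.gcd (Int.gcd (dt r' x) (x 1)) N : ℤ) := by exact_mod_cast hd
  have d1 : (p : ℤ) ∣ (Int.gcd (dt r' x) (x 1) : ℤ) := hd'.trans (Int.gcd_dvd_left _ _)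
  have d2 : (p : ℤ) ∣ (N : ℤ) := hd'.trans (Int.gcd_dvd_right _ _)
  have d3 : (p : ℤ) ∣ dt r' x := d1.trans (Int.gcd_dvd_left _ _)
  have d4 : (p : ℤ) ∣ x 1 := d1.trans (Int.gcd_dvd_right _ _)
  have d5 : p ∣ N := by exact_mod_cast d2
  have d6 : (p : ℤ) ∣ dt r x - dt r' x := by
    unfold dt
    rw [← Finset.sum_sub_distrib]
    refine Finset.dvd_sum (fun i _ => ?_)
    rw [← sub_mul]
    exact (h p hp d5 i).mul_right _
  have d7 : (p : ℤ) ∣ dt r x := (dvd_iff_dvd_of_dvd_sub d6).mpr d3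
  have d8 : (p : ℤ) ∣ (Int.gcd (dt r x) (x 1) : ℤ) := Int.dvd_coe_gcd d7 d4
  have d9 : (p : ℤ) ∣ (Int.gcd (Int.gcd (dt r x) (x 1)) N : ℤ) := Int.dvd_coe_gcd d8 d2
  rw [h1] at d9
  have d10 : p ∣ 1 := by exact_mod_cast d9
  exact hp.one_lt.ne' (Nat.dvd_one.mp d10)

theorem p_GRED : Stmt_GRED := by
  intro N r r' a b a' b' _ ha hb hr
  unfold gg
  refine Finset.filter_congr (fun x _ => ?_)
  rw [GRED_Q N a a' ha x, GRED_Q N b b' hb x]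
  refine and_congr_right (fun _ => and_congr_right (fun _ => ⟨?_, ?_⟩))
  · exact GRED_gcd N r r' x hr
  · refine GRED_gcd N r' r x (fun p hp hd i => ?_)
    have := hr p hp hd i
    rw [← neg_sub]
    exact (dvd_neg).mpr this

end Pool.HPQ
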