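import Pool.Agent.Work.MP_9fb703_hp.InterfaceW

/-! # Block GREDT -/

set_option autoImplicit false

namespace Pool.HPQ

theorem p_GREDT (h : Stmt_GRED) : Stmt_GREDT := by
  intro n m τ r r' a b a' b' hm ha hb hr
  unfold gt
  rw [h m r r' a b a' b' hm ha hb hr]

end Pool.HPQ
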