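import Pool.Agent.Work.MP_9fb703_hp.Interface

/-! # Block HENS: solutions modulo high powers of `p` (helper67) -/

set_option autoImplicit false

namespace Pool.HPQ

open Finset

theorem HENS_Q_map {R S : Type*} [CommRing R] [CommRing S] (f : R →+* S) (a : Idx → R)
    (x : Fin 6 → R) : f (Q a x) = Q (fun q => f (a q)) (fun l => f (x l)) := by
  simp only [Q, map_sum, map_mul]

theorem HENS_G_map {R S : Type*} [CommRing R] [CommRing S] (f : R →+* S) (a : Idx → R)
    (x : Fin 6 → R) (i : Fin 6) :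
    f (G a x i) = G (fun q => f (a q)) (fun l => f (x l)) i := by
  simp only [G, map_sum, map_mul, map_add]
  refine Finset.sum_congr rfl fun q _ => ?_
  congr 2 <;> split_ifs <;> simp

theorem HENS_mn_map {R S : Type*} [CommRing R] [CommRing S] (f : R →+* S) (a b : Idx → R)
    (x : Fin 6 → R) (i j : Fin 6) :
    f (mn a b x i j) = mn (fun q => f (a q)) (fun q => f (b q)) (fun l => f (x l)) i j := by
  simp only [mn, map_sub, map_mul, HENS_G_map]

/-- polarization -/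
theorem HENS_pol {R : Type*} [CommRing R] (a : Idx → R) (x w : Fin 6 → R) :
    Q a (fun l => x l + w l) = Q a x + ∑ l, w l * G a x l + Q a w := by
  have h : ∑ l, w l * G a x l =
      ∑ q : Idx, a q * (w q.1.1 * x q.1.2 + w q.1.2 * x q.1.1) := by
    simp only [G, Finset.mul_sum]
    rw [Finset.sum_comm]
    refine Finset.sum_congr rfl fun q _ => ?_
    have h1 : ∀ l, w l * (a q * ((if q.1.1 = l then x q.1.2 else 0) +
        (if q.1.2 = l then x q.1.1 else 0))) =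
        (if q.1.1 = l then a q * (w l * x q.1.2) else 0) +
          (if q.1.2 = l then a q * (w l * x q.1.1) else 0) := by
      intro l
      split_ifs <;> ring
    simp only [h1]
    rw [Finset.sum_add_distrib, Finset.sum_ite_eq, Finset.sum_ite_eq]
    simp only [Finset.mem_univ, if_true]
    ring
  rw [h]
  simp only [Q]
  rw [← Finset.sum_add_distrib, ← Finset.sum_add_distrib]
  refine Finset.sum_congr rfl fun q _ => ?_
  ring

/-- polarization in two coordinates -/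
theorem HENS_pol2 {R : Type*} [CommRing R] (a : Idx → R) (x : Fin 6 → R) {i j : Fin 6}
    (hij : i ≠ j) (u v : R) :
    Q a (fun l => x l + (if l = i then u else if l = j then v else 0)) =
      Q a x + (u * G a x i + v * G a x j) +
        Q a (fun l => if l = i then u else if l = j then v else 0) := by
  rw [HENS_pol]
  congr 2
  rw [Fintype.sum_eq_add i j hij]
  · simp [hij.symm]
  · rintro l ⟨h1, h2⟩
    simp [h1, h2]

theorem HENS_cong {n : ℕ} {x y : Fin 6 → ℤ} (h : ∀ l, (n : ℤ) ∣ x l - y l) (a b : Idx → ℤ) :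
    (n : ℤ) ∣ Q a x - Q a y ∧ ∀ i j, (n : ℤ) ∣ mn a b x i j - mn a b y i j := by
  have h1 : ∀ l, ((x l : ℤ) : ZMod n) = ((y l : ℤ) : ZMod n) := by
    intro l
    have := h l
    rw [← dvd_neg, neg_sub] at this
    exact (ZMod.intCast_eq_intCast_iff_dvd_sub _ _ _).2 this
  constructor
  · rw [← dvd_neg, neg_sub, ← ZMod.intCast_eq_intCast_iff_dvd_sub]
    have e1 := HENS_Q_map (Int.castRingHom (ZMod n)) a x
    have e2 := HENS_Q_map (Int.castRingHom (ZMod n)) a y
    simp only [Int.coe_castRingHom] at e1 e2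
    rw [e1, e2]
    congr 1
    funext l
    exact h1 l
  · intro i j
    rw [← dvd_neg, neg_sub, ← ZMod.intCast_eq_intCast_iff_dvd_sub]
    have e1 := HENS_mn_map (Int.castRingHom (ZMod n)) a b x i j
    have e2 := HENS_mn_map (Int.castRingHom (ZMod n)) a b y i j
    simp only [Int.coe_castRingHom] at e1 e2
    rw [e1, e2]
    congr 1
    funext l
    exact h1 l

theorem HENS_val (p : ℕ) (D : ℤ) : ∀ e : ℕ, ¬ ((p ^ e : ℕ) : ℤ) ∣ D →
    ∃ v < e, ∃ u : ℤ, D = (p : ℤ) ^ v * u ∧ ¬ (p : ℤ) ∣ u := by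
  intro e
  induction e with
  | zero => intro h; exact absurd (by simp) h
  | succ e ih =>
    intro h
    by_cases h1 : ((p ^ e : ℕ) : ℤ) ∣ D
    · obtain ⟨u, hu⟩ := h1
      refine ⟨e, Nat.lt_succ_self e, u, by rw [hu]; push_cast; ring, ?_⟩
      rintro ⟨w, hw⟩
      apply h
      refine ⟨w, ?_⟩
      rw [hu, hw]
      push_cast
      ring
    · obtain ⟨v, hv, u, hu, hn⟩ := ih h1
      exact ⟨v, by omega, u, hu, hn⟩

/-- divisibility of the value of a form at a divisible vector -/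
theorem HENS_Q_dvd (a : Idx → ℤ) (w : Fin 6 → ℤ) (d : ℤ) (h : ∀ l, d ∣ w l) :
    d * d ∣ Q a w := by
  unfold Q
  refine Finset.dvd_sum fun q _ => ?_
  exact Dvd.dvd.mul_left (mul_dvd_mul (h _) (h _)) _

theorem HENS_step {p e m : ℕ} (hp : p.Prime) (a b : Idx → ℤ) (y : Fin 6 → ℤ) {i j : Fin 6}
    (hij : i ≠ j) (hm : 2 * e ≤ m) (ha : ((p ^ m : ℕ) : ℤ) ∣ Q a y)
    (hb : ((p ^ m : ℕ) : ℤ) ∣ Q b y) (hD : ¬ ((p ^ e : ℕ) : ℤ) ∣ mn a b y i j) :
    ∃ y' : Fin 6 → ℤ, (∀ l, l ≠ i → l ≠ j → y' l = y l) ∧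
      (∀ l, ((p ^ e : ℕ) : ℤ) ∣ y' l - y l) ∧ ((p ^ (m + 1) : ℕ) : ℤ) ∣ Q a y' ∧
      ((p ^ (m + 1) : ℕ) : ℤ) ∣ Q b y' := by
  obtain ⟨v, hv, u, hu, hpu⟩ := HENS_val p _ e hD
  obtain ⟨α, hα⟩ := ha
  obtain ⟨β, hβ⟩ := hb
  have hcop : IsCoprime (p : ℤ) u :=
    ((Nat.prime_iff_prime_int.mp hp).irreducible.coprime_iff_not_dvd).2 hpu
  obtain ⟨s, u', hsu⟩ := hcop
  -- `s * p + u' * u = 1`
  set t : ℤ := (p : ℤ) ^ (m - v) * u' with ht
  set d1 : ℤ := -((G b y j * α - G a y j * β) * t) with hd1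
  set d2 : ℤ := -((G a y i * β - G b y i * α) * t) with hd2
  have hmn : G a y i * G b y j - G a y j * G b y i = (p : ℤ) ^ v * u := hu
  have hpv : (p : ℤ) ^ (m - v) * (p : ℤ) ^ v = (p : ℤ) ^ m := by
    rw [← pow_add]
    congr 1
    omega
  have hw : ∀ l : Fin 6, (p : ℤ) ^ (m - v) ∣ (if l = i then d1 else if l = j then d2 else 0) := by
    intro l
    have k1 : (p : ℤ) ^ (m - v) ∣ d1 := by
      rw [hd1, dvd_neg]
      exact Dvd.dvd.mul_left (by rw [ht]; exact dvd_mul_right _ _) _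
    have k2 : (p : ℤ) ^ (m - v) ∣ d2 := by
      rw [hd2, dvd_neg]
      exact Dvd.dvd.mul_left (by rw [ht]; exact dvd_mul_right _ _) _
    split_ifs
    · exact k1
    · exact k2
    · exact dvd_zero _
  have hQw : ∀ c : Idx → ℤ, (p : ℤ) ^ (m + 1) ∣
      Q c (fun l => if l = i then d1 else if l = j then d2 else 0) := by
    intro c
    refine dvd_trans ?_ (HENS_Q_dvd c _ _ hw)
    rw [← pow_add]
    exact pow_dvd_pow _ (by omega)
  refine ⟨fun l => y l + (if l = i then d1 else if l = j then d2 else 0), ?_, ?_, ?_, ?_⟩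
  · intro l h1 h2
    simp [h1, h2]
  · intro l
    rw [add_sub_cancel_left]
    refine dvd_trans ?_ (hw l)
    push_cast
    exact pow_dvd_pow _ (by omega)
  · rw [HENS_pol2 a y hij]
    push_cast
    refine dvd_add ?_ (hQw a)
    have : Q a y + (d1 * G a y i + d2 * G a y j) = (p : ℤ) ^ (m + 1) * (α * s) := by
      rw [hα]
      push_cast
      have e1 : d1 * G a y i + d2 * G a y j = -(α * u' * ((p : ℤ) ^ (m - v) *
          (G a y i * G b y j - G a y j * G b y i))) := by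
        rw [hd1, hd2, ht]
        ring
      rw [e1, hmn]
      have e2 : (p : ℤ) ^ (m - v) * ((p : ℤ) ^ v * u) = (p : ℤ) ^ m * u := by
        rw [← mul_assoc, hpv]
      rw [e2]
      have e3 : (p : ℤ) ^ m * α + -(α * u' * ((p : ℤ) ^ m * u)) =
          (p : ℤ) ^ m * α * (1 - u' * u) := by ring
      rw [e3, ← hsu]
      ring
    rw [this]
    exact dvd_mul_right _ _
  · rw [HENS_pol2 b y hij]
    push_cast
    refine dvd_add ?_ (hQw b)
    have : Q b y + (d1 * G b y i + d2 * G b y j) = (p : ℤ) ^ (m + 1) * (β * s) := by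
      rw [hβ]
      push_cast
      have e1 : d1 * G b y i + d2 * G b y j = -(β * u' * ((p : ℤ) ^ (m - v) *
          (G a y i * G b y j - G a y j * G b y i))) := by
        rw [hd1, hd2, ht]
        ring
      rw [e1, hmn]
      have e2 : (p : ℤ) ^ (m - v) * ((p : ℤ) ^ v * u) = (p : ℤ) ^ m * u := by
        rw [← mul_assoc, hpv]
      rw [e2]
      have e3 : (p : ℤ) ^ m * β + -(β * u' * ((p : ℤ) ^ m * u)) =
          (p : ℤ) ^ m * β * (1 - u' * u) := by ring
      rw [e3, ← hsu]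
      ring
    rw [this]
    exact dvd_mul_right _ _

/-- lifting to the modulus `p ^ k` -/
theorem HENS_lift {p e : ℕ} (hp : p.Prime) (a b : Idx → ℤ) (X : Fin 6 → ℤ) {i j : Fin 6}
    (hij : i ≠ j) (hD : ¬ ((p ^ e : ℕ) : ℤ) ∣ mn a b X i j) (y₀ : Fin 6 → ℤ)
    (hy : ∀ l, ((p ^ (2 * e) : ℕ) : ℤ) ∣ y₀ l - X l)
    (ha : ((p ^ (2 * e) : ℕ) : ℤ) ∣ Q a X) (hb : ((p ^ (2 * e) : ℕ) : ℤ) ∣ Q b X) :
    ∀ n : ℕ, ∃ y : Fin 6 → ℤ, (∀ l, l ≠ i → l ≠ j → y l = y₀ l) ∧
      (∀ l, ((p ^ e : ℕ) : ℤ) ∣ y l - X l) ∧ ((p ^ (2 * e + n) : ℕ) : ℤ) ∣ Q a y ∧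
      ((p ^ (2 * e + n) : ℕ) : ℤ) ∣ Q b y := by
  intro n
  induction n with
  | zero =>
    refine ⟨y₀, fun _ _ _ => rfl, fun l => ?_, ?_, ?_⟩
    · refine dvd_trans ?_ (hy l)
      exact_mod_cast pow_dvd_pow p (by omega : e ≤ 2 * e)
    · have := (HENS_cong hy a a).1
      rw [add_zero]
      exact (dvd_sub_comm.1 this |> fun h => (dvd_sub_right ha).1 h)
    · have := (HENS_cong hy b b).1
      rw [add_zero]
      exact (dvd_sub_comm.1 this |> fun h => (dvd_sub_right hb).1 h)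
  | succ n ih =>
    obtain ⟨y, h1, h2, h3, h4⟩ := ih
    have hD' : ¬ ((p ^ e : ℕ) : ℤ) ∣ mn a b y i j := by
      intro h
      apply hD
      have := (HENS_cong h2 a b).2 i j
      exact (dvd_sub_right h).1 this
    obtain ⟨y', g1, g2, g3, g4⟩ := HENS_step hp a b y hij (by omega) h3 h4 hD'
    refine ⟨y', fun l hi hj => (g1 l hi hj).trans (h1 l hi hj), fun l => ?_, g3, g4⟩
    have := dvd_add (g2 l) (h2 l)
    rwa [sub_add_sub_cancel] at this

/-- from a `p`-adic solution to an integral vector -/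
theorem HENS_start {p : ℕ} [Fact p.Prime] {a b : Idx → ℤ} (h : PadicSol p a b) (n : ℕ)
    (hn : 1 ≤ n) :
    ∃ (X : Fin 6 → ℤ) (i₀ : Fin 6), (∀ l, 0 ≤ X l ∧ X l < ((p ^ n : ℕ) : ℤ)) ∧
      ¬ (p : ℤ) ∣ X i₀ ∧ ((p ^ n : ℕ) : ℤ) ∣ Q a X ∧ ((p ^ n : ℕ) : ℤ) ∣ Q b X := by
  obtain ⟨x, hx, hQa, hQb⟩ := h
  obtain ⟨i₀, -, hmax⟩ := Finset.exists_max_image (Finset.univ : Finset (Fin 6))
    (fun l => ‖x l‖) ⟨0, Finset.mem_univ _⟩
  have hx0 : x i₀ ≠ 0 := by
    intro h0
    apply hx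
    funext l
    have := hmax l (Finset.mem_univ _)
    rw [h0, norm_zero] at this
    exact norm_le_zero_iff.1 this
  have hle : ∀ l, ‖x l / x i₀‖ ≤ 1 := by
    intro l
    rw [norm_div, div_le_one (norm_pos_iff.2 hx0)]
    exact hmax l (Finset.mem_univ _)
  let z : Fin 6 → ℤ_[p] := fun l => ⟨x l / x i₀, hle l⟩
  have hz0 : z i₀ = 1 := by
    apply Subtype.ext
    exact div_self hx0
  have hzQ : ∀ c : Idx → ℤ, Q (fun q => (c q : ℚ_[p])) x = 0 →
      Q (fun q => (c q : ℤ_[p])) z = 0 := by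
    intro c hc
    have e1 : ((Q (fun q => (c q : ℤ_[p])) z : ℤ_[p]) : ℚ_[p]) =
        Q (fun q => (c q : ℚ_[p])) (fun l => x l / x i₀) := by
      have := HENS_Q_map (PadicInt.Coe.ringHom (p := p)) (fun q => (c q : ℤ_[p])) z
      simp only [PadicInt.Coe.ringHom_apply, PadicInt.coe_intCast] at this
      exact this
    have e2 : Q (fun q => (c q : ℚ_[p])) (fun l => x l / x i₀) = 0 := by
      have : Q (fun q => (c q : ℚ_[p])) (fun l => x l / x i₀) =
          (1 / (x i₀) ^ 2) * Q (fun q => (c q : ℚ_[p])) x := by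
        unfold Q
        rw [Finset.mul_sum]
        refine Finset.sum_congr rfl fun q _ => ?_
        field_simp
      rw [this, hc, mul_zero]
    rw [e2] at e1
    exact Subtype.ext e1
  have hpn : NeZero (p ^ n) := ⟨pow_ne_zero _ (Fact.out : p.Prime).ne_zero⟩
  let f : ℤ_[p] →+* ZMod (p ^ n) := PadicInt.toZModPow n
  let X : Fin 6 → ℤ := fun l => ((f (z l)).val : ℤ)
  have hXf : ∀ l, ((X l : ℤ) : ZMod (p ^ n)) = f (z l) := by
    intro l
    simp [X]
  have hXQ : ∀ c : Idx → ℤ, Q (fun q => (c q : ℚ_[p])) x = 0 → ((p ^ n : ℕ) : ℤ) ∣ Q c X := by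
    intro c hc
    rw [← ZMod.intCast_zmod_eq_zero_iff_dvd]
    have e1 := HENS_Q_map (Int.castRingHom (ZMod (p ^ n))) c X
    have e2 := HENS_Q_map f (fun q => (c q : ℤ_[p])) z
    rw [hzQ c hc, map_zero] at e2
    simp only [Int.coe_castRingHom, hXf] at e1
    rw [e1, e2]
    congr 1
    funext q
    simp
  refine ⟨X, i₀, fun l => ⟨Int.natCast_nonneg _, ?_⟩, ?_, hXQ a hQa, hXQ b hQb⟩
  · change (((f (z l)).val : ℕ) : ℤ) < ((p ^ n : ℕ) : ℤ)
    exact_mod_cast ZMod.val_lt (f (z l))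
  · intro hd
    have h1 : ((X i₀ : ℤ) : ZMod (p ^ n)) = ((1 : ℤ) : ZMod (p ^ n)) := by
      rw [hXf, hz0, map_one]
      simp
    rw [ZMod.intCast_eq_intCast_iff_dvd_sub] at h1
    have h2 : (p : ℤ) ∣ 1 - X i₀ := by
      refine dvd_trans ?_ h1
      exact_mod_cast dvd_pow_self p (by omega : n ≠ 0)
    have h3 : (p : ℤ) ∣ 1 := (dvd_sub_left hd).1 h2
    have h4 : p ∣ 1 := by exact_mod_cast h3
    exact (Fact.out : p.Prime).one_lt.ne' (Nat.dvd_one.1 h4)

theorem HENS_card4 : ∀ i j : Fin 6, i ≠ j →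
    (Finset.univ.filter fun l : Fin 6 => ¬ (l = i ∨ l = j)).card = 4 := by decide

theorem p_HENS : Stmt_HENS := by
  classical
  intro p e k hpF a b he hk hsol hns
  have hp : p.Prime := hpF.out
  obtain ⟨X, i₀, hX1, hX2, hXa, hXb⟩ := HENS_start hsol (2 * e) (by omega)
  have hdvde : ((p ^ e : ℕ) : ℤ) ∣ ((p ^ (2 * e) : ℕ) : ℤ) := by
    exact_mod_cast pow_dvd_pow p (by omega : e ≤ 2 * e)
  have hex : ∃ i j, ¬ ((p ^ e : ℕ) : ℤ) ∣ mn a b X i j := by
    by_contra hcon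
    push Not at hcon
    exact hns ⟨X, ⟨i₀, hX2⟩, hdvde.trans hXa, hdvde.trans hXb, hcon⟩
  obtain ⟨i, j, hD⟩ := hex
  have hij : i ≠ j := by
    rintro rfl
    apply hD
    have : mn a b X i i = 0 := by unfold mn; ring
    rw [this]
    exact dvd_zero _
  -- the linear form
  obtain ⟨m, hm⟩ : ∃ m : Fin 6, ¬ (p : ℤ) ∣ X 0 + (if m = 0 then 0 else X m) := by
    by_cases h0 : (p : ℤ) ∣ X 0
    · refine ⟨i₀, fun h => hX2 ?_⟩
      by_cases hi : i₀ = 0
      · rw [hi]; exact h0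
      · rw [if_neg hi] at h
        exact (dvd_add_right h0).1 h
    · refine ⟨0, ?_⟩
      simpa using h0
  refine ⟨m, ?_⟩
  have hpk : (0 : ℤ) < ((p ^ k : ℕ) : ℤ) := by exact_mod_cast pow_pos hp.pos k
  have hp2e : (0 : ℤ) < ((p ^ (2 * e) : ℕ) : ℤ) := by exact_mod_cast pow_pos hp.pos _
  have hsplit : ((p ^ k : ℕ) : ℤ) = ((p ^ (2 * e) : ℕ) : ℤ) * ((p ^ (k - 2 * e) : ℕ) : ℤ) := by
    rw [← Nat.cast_mul, ← pow_add]
    congr 3
    omega
  have hpe1 : (p : ℤ) ∣ ((p ^ e : ℕ) : ℤ) := by exact_mod_cast dvd_pow_self p (by omega : e ≠ 0)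
  have hpk1 : (p : ℤ) ∣ ((p ^ k : ℕ) : ℤ) := by exact_mod_cast dvd_pow_self p (by omega : k ≠ 0)
  -- the solution attached to a choice
  have hlift : ∀ c : Fin 6 → ℤ, (∀ l, 0 ≤ c l ∧ c l < ((p ^ (k - 2 * e) : ℕ) : ℤ)) →
      ∃ y : Fin 6 → ℤ, (∀ l, l ≠ i → l ≠ j → y l = X l + ((p ^ (2 * e) : ℕ) : ℤ) * c l) ∧
        y ∈ (cs (p ^ k) (Fin 6)).filter fun x => ((p ^ k : ℕ) : ℤ) ∣ Q a x ∧
          ((p ^ k : ℕ) : ℤ) ∣ Q b x ∧ ¬ (p : ℤ) ∣ x 0 + (if m = 0 then 0 else x m) := by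
    intro c hc
    obtain ⟨y, h1, h2, h3, h4⟩ := HENS_lift hp a b X hij hD
      (fun l => X l + ((p ^ (2 * e) : ℕ) : ℤ) * c l)
      (fun l => by rw [add_sub_cancel_left]; exact dvd_mul_right _ _) hXa hXb (k - 2 * e)
    rw [show 2 * e + (k - 2 * e) = k by omega] at h3 h4
    have hred : ∀ l, ((p ^ k : ℕ) : ℤ) ∣ y l % ((p ^ k : ℕ) : ℤ) - y l := by
      intro l
      rw [dvd_sub_comm]
      exact Int.dvd_self_sub_emod
    refine ⟨fun l => y l % ((p ^ k : ℕ) : ℤ), ?_, ?_⟩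
    · intro l hi hj
      simp only
      rw [h1 l hi hj]
      apply Int.emod_eq_of_lt
      · have := (hX1 l).1
        have := (hc l).1
        positivity
      · rw [hsplit]
        have g1 := (hX1 l).2
        have g2 := (hc l).2
        nlinarith
    · rw [Finset.mem_filter]
      refine ⟨?_, ?_, ?_, ?_⟩
      · unfold cs
        rw [Fintype.mem_piFinset]
        intro l
        rw [Finset.mem_Ico]
        exact ⟨Int.emod_nonneg _ hpk.ne', Int.emod_lt_of_pos _ hpk⟩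
      · have := (HENS_cong hred a a).1
        exact (dvd_sub_left h3).1 this
      · have := (HENS_cong hred b b).1
        exact (dvd_sub_left h4).1 this
      · intro hcon
        apply hm
        have hmod : ∀ l, (p : ℤ) ∣ y l % ((p ^ k : ℕ) : ℤ) - X l := by
          intro l
          have := dvd_add (hpk1.trans (hred l)) (hpe1.trans (h2 l))
          rwa [sub_add_sub_cancel] at this
        have hdiff : (p : ℤ) ∣ (y 0 % ((p ^ k : ℕ) : ℤ) +
            (if m = 0 then 0 else y m % ((p ^ k : ℕ) : ℤ))) -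
            (X 0 + (if m = 0 then 0 else X m)) := by
          split_ifs
          · simpa using hmod 0
          · have := dvd_add (hmod 0) (hmod m)
            rwa [← add_sub_add_comm] at this
        exact (dvd_sub_right hcon).1 hdiff
  -- the choices
  set Cs : Finset (Fin 6 → ℤ) := Fintype.piFinset fun l : Fin 6 =>
    if l = i ∨ l = j then ({0} : Finset ℤ) else Finset.Ico (0 : ℤ) ((p ^ (k - 2 * e) : ℕ) : ℤ)
    with hCs
  have hpke : (0 : ℤ) < ((p ^ (k - 2 * e) : ℕ) : ℤ) := by exact_mod_cast pow_pos hp.pos _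
  have hCm : ∀ c ∈ Cs, (∀ l, 0 ≤ c l ∧ c l < ((p ^ (k - 2 * e) : ℕ) : ℤ)) ∧
      c i = 0 ∧ c j = 0 := by
    intro c hc
    rw [hCs, Fintype.mem_piFinset] at hc
    refine ⟨fun l => ?_, ?_, ?_⟩
    · have := hc l
      split_ifs at this with h
      · rw [Finset.mem_singleton] at this
        rw [this]
        exact ⟨le_rfl, hpke⟩
      · exact Finset.mem_Ico.1 this
    · have := hc i
      rw [if_pos (Or.inl rfl)] at this
      exact Finset.mem_singleton.1 this
    · have := hc j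
      rw [if_pos (Or.inr rfl)] at this
      exact Finset.mem_singleton.1 this
  have hcard : Cs.card = p ^ (4 * (k - 2 * e)) := by
    rw [hCs, Fintype.card_piFinset]
    have h1 : ∀ l : Fin 6, (if l = i ∨ l = j then ({0} : Finset ℤ) else
        Finset.Ico (0 : ℤ) ((p ^ (k - 2 * e) : ℕ) : ℤ)).card =
        if ¬ (l = i ∨ l = j) then p ^ (k - 2 * e) else 1 := by
      intro l
      by_cases h : l = i ∨ l = j
      · rw [if_pos h, if_neg (not_not.2 h), Finset.card_singleton]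
      · rw [if_neg h, if_pos h, Int.card_Ico, sub_zero, Int.toNat_natCast]
    simp only [h1]
    rw [Finset.prod_ite]
    simp only [Finset.prod_const]
    rw [HENS_card4 i j hij, ← pow_mul, one_pow, mul_one, mul_comm 4]
  choose! g hg1 hg2 using hlift
  rw [← hcard]
  refine Finset.card_le_card_of_injOn g (fun c hc => hg2 c (hCm c hc).1) ?_
  intro c hc c' hc' heq
  have hc1 := hCm c hc
  have hc2 := hCm c' hc'
  funext l
  by_cases hi : l = i
  · rw [hi, hc1.2.1, hc2.2.1]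
  by_cases hj : l = j
  · rw [hj, hc1.2.2, hc2.2.2]
  have e1 := hg1 c hc1.1 l hi hj
  have e2 := hg1 c' hc2.1 l hi hj
  rw [heq, e2] at e1
  have e3 : ((p ^ (2 * e) : ℕ) : ℤ) * c' l = ((p ^ (2 * e) : ℕ) : ℤ) * c l := by linarith
  exact (mul_left_cancel₀ hp2e.ne' e3).symm

end Pool.HPQ
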