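import Pool.Agent.Work.MP_9fb703_hp.InterfaceW
import Pool.Agent.Work.MP_9fb703_hp.B_HENS

/-! # Block HENT: solutions modulo high powers of `p` near a zero (helper84, after B_HENS) -/

set_option autoImplicit false

namespace Pool.HPQ

open Finset

theorem HENT_step {p e m : ℕ} (hp : p.Prime) (a b : Idx → ℤ) (y : Fin 6 → ℤ) {i j : Fin 6}
    (hij : i ≠ j) (hm : 2 * e ≤ m) (ha : ((p ^ m : ℕ) : ℤ) ∣ Q a y)
    (hb : ((p ^ m : ℕ) : ℤ) ∣ Q b y) (hD : ¬ ((p ^ e : ℕ) : ℤ) ∣ mn a b y i j) :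
    ∃ y' : Fin 6 → ℤ, (∀ l, l ≠ i → l ≠ j → y' l = y l) ∧
      (∀ l, ((p ^ (m - e) : ℕ) : ℤ) ∣ y' l - y l) ∧ ((p ^ (m + 1) : ℕ) : ℤ) ∣ Q a y' ∧
      ((p ^ (m + 1) : ℕ) : ℤ) ∣ Q b y' := by
  obtain ⟨v, hv, u, hu, hpu⟩ := HENS_val p _ e hD
  obtain ⟨α, hα⟩ := ha
  obtain ⟨β, hβ⟩ := hb
  have hcop : IsCoprime (p : ℤ) u :=
    ((Nat.prime_iff_prime_int.mp hp).irreducible.coprime_iff_not_dvd).2 hpu
  obtain ⟨s, u', hsu⟩ := hcop
  set t : ℤ := (p : ℤ) ^ (m - v) * u' with ht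
  set d1 : ℤ := -((G b y j * α - G a y j * β) * t) with hd1
  set d2 : ℤ := -((G a y i * β - G b y i * α) * t) with hd2
  have hmn : G a y i * G b y j - G a y j * G b y i = (p : ℤ) ^ v * u := hu
  have hpv : (p : ℤ) ^ (m - v) * (p : ℤ) ^ v = (p : ℤ) ^ m := by
    rw [← pow_add]
    congr 1
    omega
  have hw : ∀ l : Fin 6, (p : ℤ) ^ (m - v) ∣ (if l = i then d1 else if l = j then d2 else 0) := by
    intro l
    have k1 : (p : ℤ) ^ (m - v) ∣ d1 := by
      rw [hd1, dvd_neg]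
      exact Dvd.dvd.mul_left (by rw [ht]; exact dvd_mul_right _ _) _
    have k2 : (p : ℤ) ^ (m - v) ∣ d2 := by
      rw [hd2, dvd_neg]
      exact Dvd.dvd.mul_left (by rw [ht]; exact dvd_mul_right _ _) _
    split_ifs
    · exact k1
    · exact k2
    · exact dvd_zero _
  have hQw : ∀ c : Idx → ℤ, (p : ℤ) ^ (m + 1) ∣
      Q c (fun l => if l = i then d1 else if l = j then d2 else 0) := by
    intro c
    refine dvd_trans ?_ (HENS_Q_dvd c _ _ hw)
    rw [← pow_add]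
    exact pow_dvd_pow _ (by omega)
  refine ⟨fun l => y l + (if l = i then d1 else if l = j then d2 else 0), ?_, ?_, ?_, ?_⟩
  · intro l h1 h2
    simp [h1, h2]
  · intro l
    rw [add_sub_cancel_left]
    refine dvd_trans ?_ (hw l)
    push_cast
    exact pow_dvd_pow _ (by omega)
  · rw [HENS_pol2 a y hij]
    push_cast
    refine dvd_add ?_ (hQw a)
    have : Q a y + (d1 * G a y i + d2 * G a y j) = (p : ℤ) ^ (m + 1) * (α * s) := by
      rw [hα]
      push_cast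
      have e1 : d1 * G a y i + d2 * G a y j = -(α * u' * ((p : ℤ) ^ (m - v) *
          (G a y i * G b y j - G a y j * G b y i))) := by
        rw [hd1, hd2, ht]
        ring
      rw [e1, hmn]
      have e2 : (p : ℤ) ^ (m - v) * ((p : ℤ) ^ v * u) = (p : ℤ) ^ m * u := by
        rw [← mul_assoc, hpv]
      rw [e2]
      have e3 : (p : ℤ) ^ m * α + -(α * u' * ((p : ℤ) ^ m * u)) =
          (p : ℤ) ^ m * α * (1 - u' * u) := by ring
      rw [e3, ← hsu]
      ring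
    rw [this]
    exact dvd_mul_right _ _
  · rw [HENS_pol2 b y hij]
    push_cast
    refine dvd_add ?_ (hQw b)
    have : Q b y + (d1 * G b y i + d2 * G b y j) = (p : ℤ) ^ (m + 1) * (β * s) := by
      rw [hβ]
      push_cast
      have e1 : d1 * G b y i + d2 * G b y j = -(β * u' * ((p : ℤ) ^ (m - v) *
          (G a y i * G b y j - G a y j * G b y i))) := by
        rw [hd1, hd2, ht]
        ring
      rw [e1, hmn]
      have e2 : (p : ℤ) ^ (m - v) * ((p : ℤ) ^ v * u) = (p : ℤ) ^ m * u := by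
        rw [← mul_assoc, hpv]
      rw [e2]
      have e3 : (p : ℤ) ^ m * β + -(β * u' * ((p : ℤ) ^ m * u)) =
          (p : ℤ) ^ m * β * (1 - u' * u) := by ring
      rw [e3, ← hsu]
      ring
    rw [this]
    exact dvd_mul_right _ _

/-- lifting to the modulus `p ^ k` -/
theorem HENT_lift {p e f : ℕ} (hp : p.Prime) (a b : Idx → ℤ) (X : Fin 6 → ℤ) {i j : Fin 6}
    (hij : i ≠ j) (hD : ¬ ((p ^ e : ℕ) : ℤ) ∣ mn a b X i j) (y₀ : Fin 6 → ℤ)
    (hy : ∀ l, ((p ^ (2 * e + f) : ℕ) : ℤ) ∣ y₀ l - X l)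
    (ha : ((p ^ (2 * e + f) : ℕ) : ℤ) ∣ Q a X) (hb : ((p ^ (2 * e + f) : ℕ) : ℤ) ∣ Q b X) :
    ∀ n : ℕ, ∃ y : Fin 6 → ℤ, (∀ l, l ≠ i → l ≠ j → y l = y₀ l) ∧
      (∀ l, ((p ^ (e + f) : ℕ) : ℤ) ∣ y l - X l) ∧ ((p ^ (2 * e + f + n) : ℕ) : ℤ) ∣ Q a y ∧
      ((p ^ (2 * e + f + n) : ℕ) : ℤ) ∣ Q b y := by
  intro n
  induction n with
  | zero =>
    refine ⟨y₀, fun _ _ _ => rfl, fun l => ?_, ?_, ?_⟩
    · refine dvd_trans ?_ (hy l)
      exact_mod_cast pow_dvd_pow p (by omega : e + f ≤ 2 * e + f)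
    · have := (HENS_cong hy a a).1
      rw [add_zero]
      exact (dvd_sub_comm.1 this |> fun h => (dvd_sub_right ha).1 h)
    · have := (HENS_cong hy b b).1
      rw [add_zero]
      exact (dvd_sub_comm.1 this |> fun h => (dvd_sub_right hb).1 h)
  | succ n ih =>
    obtain ⟨y, h1, h2, h3, h4⟩ := ih
    have h2' : ∀ l, ((p ^ e : ℕ) : ℤ) ∣ y l - X l := by
      intro l
      refine dvd_trans ?_ (h2 l)
      exact_mod_cast pow_dvd_pow p (by omega : e ≤ e + f)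
    have hD' : ¬ ((p ^ e : ℕ) : ℤ) ∣ mn a b y i j := by
      intro h
      apply hD
      have := (HENS_cong h2' a b).2 i j
      exact (dvd_sub_right h).1 this
    obtain ⟨y', g1, g2, g3, g4⟩ := HENT_step hp a b y hij (by omega) h3 h4 hD'
    refine ⟨y', fun l hi hj => (g1 l hi hj).trans (h1 l hi hj), fun l => ?_, g3, g4⟩
    have g2' : ((p ^ (e + f) : ℕ) : ℤ) ∣ y' l - y l := by
      refine dvd_trans ?_ (g2 l)
      exact_mod_cast pow_dvd_pow p (by omega : e + f ≤ 2 * e + f + n - e)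
    have := dvd_add g2' (h2 l)
    rwa [sub_add_sub_cancel] at this

/-- the residues of a zero -/
theorem HENT_start {p : ℕ} [Fact p.Prime] {a b : Idx → ℤ} {M : Fin 6 → ℤ_[p]}
    (h : PZ p a b M) (n : ℕ) (hn : 1 ≤ n) :
    ∃ (X : Fin 6 → ℤ) (i₀ : Fin 6), (∀ l, 0 ≤ X l ∧ X l < ((p ^ n : ℕ) : ℤ)) ∧
      ¬ (p : ℤ) ∣ X i₀ ∧ ((p ^ n : ℕ) : ℤ) ∣ Q a X ∧ ((p ^ n : ℕ) : ℤ) ∣ Q b X ∧
      ∀ l, ‖(X l : ℤ_[p]) - M l‖ ≤ (p : ℝ) ^ (-(n : ℤ)) := by
  obtain ⟨⟨i₀, hi₀⟩, hQa, hQb⟩ := h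
  have hpn : NeZero (p ^ n) := ⟨pow_ne_zero _ (Fact.out : p.Prime).ne_zero⟩
  let f : ℤ_[p] →+* ZMod (p ^ n) := PadicInt.toZModPow n
  let X : Fin 6 → ℤ := fun l => ((f (M l)).val : ℤ)
  have hXf : ∀ l, ((X l : ℤ) : ZMod (p ^ n)) = f (M l) := by
    intro l
    simp [X]
  have hXQ : ∀ c : Idx → ℤ, Q (fun q => (c q : ℤ_[p])) M = 0 → ((p ^ n : ℕ) : ℤ) ∣ Q c X := by
    intro c hc
    rw [← ZMod.intCast_zmod_eq_zero_iff_dvd]
    have e1 := HENS_Q_map (Int.castRingHom (ZMod (p ^ n))) c X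
    have e2 := HENS_Q_map f (fun q => (c q : ℤ_[p])) M
    rw [hc, map_zero] at e2
    simp only [Int.coe_castRingHom, hXf] at e1
    rw [e1, e2]
    congr 1
    funext q
    simp
  have hcl : ∀ l, ‖(X l : ℤ_[p]) - M l‖ ≤ (p : ℝ) ^ (-(n : ℤ)) := by
    intro l
    rw [PadicInt.norm_le_pow_iff_mem_span_pow, ← PadicInt.ker_toZModPow, RingHom.mem_ker,
      map_sub, sub_eq_zero, map_intCast]
    exact hXf l
  refine ⟨X, i₀, fun l => ⟨Int.natCast_nonneg _, ?_⟩, ?_, hXQ a hQa, hXQ b hQb, hcl⟩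
  · change (((f (M l)).val : ℕ) : ℤ) < ((p ^ n : ℕ) : ℤ)
    exact_mod_cast ZMod.val_lt (f (M l))
  · intro hd
    have h1 : ‖(X i₀ : ℤ_[p])‖ < 1 := (PadicInt.norm_int_lt_one_iff_dvd _).2 hd
    have h2 : ‖(X i₀ : ℤ_[p]) - M i₀‖ < 1 := by
      refine lt_of_le_of_lt (hcl i₀) ?_
      have hp1 : (1 : ℝ) < p := by exact_mod_cast (Fact.out : p.Prime).one_lt
      exact zpow_lt_one_of_neg₀ hp1 (by omega)
    have h3 : ‖M i₀‖ < 1 := by
      have e : M i₀ = (X i₀ : ℤ_[p]) + -((X i₀ : ℤ_[p]) - M i₀) := by ring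
      rw [e]
      refine lt_of_le_of_lt (PadicInt.nonarchimedean _ _) ?_
      rw [norm_neg]
      exact max_lt h1 h2
    rw [hi₀] at h3
    exact lt_irrefl _ h3

theorem HENT_norm {p : ℕ} [Fact p.Prime] {f n : ℕ} (hfn : f ≤ n) {z : ℤ}
    (h : ((p ^ n : ℕ) : ℤ) ∣ z) : ‖(z : ℤ_[p])‖ ≤ (p : ℝ) ^ (-(f : ℤ)) := by
  rw [PadicInt.norm_int_le_pow_iff_dvd]
  refine dvd_trans ?_ h
  exact_mod_cast pow_dvd_pow p hfn

theorem p_HENT : Stmt_HENT := by
  classical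
  intro p e f k hpF a b M he hf hk hsol hns
  have hp : p.Prime := hpF.out
  obtain ⟨X, i₀, hX1, hX2, hXa, hXb, hXM⟩ := HENT_start hsol (2 * e + f) (by omega)
  have hdvde : ((p ^ e : ℕ) : ℤ) ∣ ((p ^ (2 * e + f) : ℕ) : ℤ) := by
    exact_mod_cast pow_dvd_pow p (by omega : e ≤ 2 * e + f)
  have hex : ∃ i j, ¬ ((p ^ e : ℕ) : ℤ) ∣ mn a b X i j := by
    by_contra hcon
    push Not at hcon
    exact hns ⟨X, ⟨i₀, hX2⟩, hdvde.trans hXa, hdvde.trans hXb, hcon⟩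
  obtain ⟨i, j, hD⟩ := hex
  have hij : i ≠ j := by
    rintro rfl
    apply hD
    have : mn a b X i i = 0 := by unfold mn; ring
    rw [this]
    exact dvd_zero _
  have hpk : (0 : ℤ) < ((p ^ k : ℕ) : ℤ) := by exact_mod_cast pow_pos hp.pos k
  have hp2e : (0 : ℤ) < ((p ^ (2 * e + f) : ℕ) : ℤ) := by exact_mod_cast pow_pos hp.pos _
  have hsplit : ((p ^ k : ℕ) : ℤ) =
      ((p ^ (2 * e + f) : ℕ) : ℤ) * ((p ^ (k - (2 * e + f)) : ℕ) : ℤ) := by
    rw [← Nat.cast_mul, ← pow_add]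
    congr 3
    omega
  -- the solution attached to a choice
  have hlift : ∀ c : Fin 6 → ℤ, (∀ l, 0 ≤ c l ∧ c l < ((p ^ (k - (2 * e + f)) : ℕ) : ℤ)) →
      ∃ y : Fin 6 → ℤ, (∀ l, l ≠ i → l ≠ j → y l = X l + ((p ^ (2 * e + f) : ℕ) : ℤ) * c l) ∧
        y ∈ (cs (p ^ k) (Fin 6)).filter fun x => ((p ^ k : ℕ) : ℤ) ∣ Q a x ∧
          ((p ^ k : ℕ) : ℤ) ∣ Q b x ∧ ∀ l, ‖(x l : ℤ_[p]) - M l‖ ≤ (p : ℝ) ^ (-(f : ℤ)) := by
    intro c hc
    obtain ⟨y, h1, h2, h3, h4⟩ := HENT_lift (f := f) hp a b X hij hD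
      (fun l => X l + ((p ^ (2 * e + f) : ℕ) : ℤ) * c l)
      (fun l => by rw [add_sub_cancel_left]; exact dvd_mul_right _ _) hXa hXb
      (k - (2 * e + f))
    rw [show 2 * e + f + (k - (2 * e + f)) = k by omega] at h3 h4
    have hred : ∀ l, ((p ^ k : ℕ) : ℤ) ∣ y l % ((p ^ k : ℕ) : ℤ) - y l := by
      intro l
      rw [dvd_sub_comm]
      exact Int.dvd_self_sub_emod
    refine ⟨fun l => y l % ((p ^ k : ℕ) : ℤ), ?_, ?_⟩
    · intro l hi hj
      simp only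
      rw [h1 l hi hj]
      apply Int.emod_eq_of_lt
      · have := (hX1 l).1
        have := (hc l).1
        positivity
      · rw [hsplit]
        have g1 := (hX1 l).2
        have g2 := (hc l).2
        nlinarith
    · rw [Finset.mem_filter]
      refine ⟨?_, ?_, ?_, ?_⟩
      · unfold cs
        rw [Fintype.mem_piFinset]
        intro l
        rw [Finset.mem_Ico]
        exact ⟨Int.emod_nonneg _ hpk.ne', Int.emod_lt_of_pos _ hpk⟩
      · have := (HENS_cong hred a a).1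
        exact (dvd_sub_left h3).1 this
      · have := (HENS_cong hred b b).1
        exact (dvd_sub_left h4).1 this
      · intro l
        have k1 := HENT_norm (p := p) (by omega : f ≤ k) (hred l)
        have k2 := HENT_norm (p := p) (by omega : f ≤ e + f) (h2 l)
        have k3 : ‖(X l : ℤ_[p]) - M l‖ ≤ (p : ℝ) ^ (-(f : ℤ)) := by
          refine (hXM l).trans ?_
          have hp1 : (1 : ℝ) ≤ p := by exact_mod_cast hp.one_lt.le
          exact zpow_le_zpow_right₀ hp1 (by push_cast; omega)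
        have e1 : ((y l % ((p ^ k : ℕ) : ℤ) : ℤ) : ℤ_[p]) - M l =
            ((y l % ((p ^ k : ℕ) : ℤ) - y l : ℤ) : ℤ_[p]) +
              (((y l - X l : ℤ) : ℤ_[p]) + ((X l : ℤ_[p]) - M l)) := by
          push_cast
          ring
        simp only
        rw [e1]
        refine (PadicInt.nonarchimedean _ _).trans (max_le k1 ?_)
        exact (PadicInt.nonarchimedean _ _).trans (max_le k2 k3)
  -- the choices
  set Cs : Finset (Fin 6 → ℤ) := Fintype.piFinset fun l : Fin 6 =>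
    if l = i ∨ l = j then ({0} : Finset ℤ) else
      Finset.Ico (0 : ℤ) ((p ^ (k - (2 * e + f)) : ℕ) : ℤ)
    with hCs
  have hpke : (0 : ℤ) < ((p ^ (k - (2 * e + f)) : ℕ) : ℤ) := by exact_mod_cast pow_pos hp.pos _
  have hCm : ∀ c ∈ Cs, (∀ l, 0 ≤ c l ∧ c l < ((p ^ (k - (2 * e + f)) : ℕ) : ℤ)) ∧
      c i = 0 ∧ c j = 0 := by
    intro c hc
    rw [hCs, Fintype.mem_piFinset] at hc
    refine ⟨fun l => ?_, ?_, ?_⟩
    · have := hc l
      split_ifs at this with h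
      · rw [Finset.mem_singleton] at this
        rw [this]
        exact ⟨le_rfl, hpke⟩
      · exact Finset.mem_Ico.1 this
    · have := hc i
      rw [if_pos (Or.inl rfl)] at this
      exact Finset.mem_singleton.1 this
    · have := hc j
      rw [if_pos (Or.inr rfl)] at this
      exact Finset.mem_singleton.1 this
  have hcard : Cs.card = p ^ (4 * (k - (2 * e + f))) := by
    rw [hCs, Fintype.card_piFinset]
    have h1 : ∀ l : Fin 6, (if l = i ∨ l = j then ({0} : Finset ℤ) else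
        Finset.Ico (0 : ℤ) ((p ^ (k - (2 * e + f)) : ℕ) : ℤ)).card =
        if ¬ (l = i ∨ l = j) then p ^ (k - (2 * e + f)) else 1 := by
      intro l
      by_cases h : l = i ∨ l = j
      · rw [if_pos h, if_neg (not_not.2 h), Finset.card_singleton]
      · rw [if_neg h, if_pos h, Int.card_Ico, sub_zero, Int.toNat_natCast]
    simp only [h1]
    rw [Finset.prod_ite]
    simp only [Finset.prod_const]
    rw [HENS_card4 i j hij, ← pow_mul, one_pow, mul_one, mul_comm 4]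
  choose! g hg1 hg2 using hlift
  rw [← hcard]
  refine Finset.card_le_card_of_injOn g (fun c hc => hg2 c (hCm c hc).1) ?_
  intro c hc c' hc' heq
  have hc1 := hCm c hc
  have hc2 := hCm c' hc'
  funext l
  by_cases hi : l = i
  · rw [hi, hc1.2.1, hc2.2.1]
  by_cases hj : l = j
  · rw [hj, hc1.2.2, hc2.2.2]
  have e1 := hg1 c hc1.1 l hi hj
  have e2 := hg1 c' hc2.1 l hi hj
  rw [heq, e2] at e1
  have e3 : ((p ^ (2 * e + f) : ℕ) : ℤ) * c' l = ((p ^ (2 * e + f) : ℕ) : ℤ) * c l := by linarith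
  exact (mul_left_cancel₀ hp2e.ne' e3).symm

end Pool.HPQ
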