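import Pool.Agent.Work.MP_9fb703_hp.Interface

/-! # Block IFT: real zeros near a nonsingular zero (helper67) -/

set_option autoImplicit false

namespace Pool.HPQ

open Finset

/-- a quantitative implicit function theorem in two variables -/
theorem IFT_abs (F₁ F₂ : ℝ → ℝ → ℝ) (A B C D K d c ε : ℝ) (hd : 0 < d) (hK : 0 < K)
    (hdet : d ≤ |A * D - B * C|) (hA : |A| ≤ K) (hB : |B| ≤ K) (hC : |C| ≤ K) (hD : |D| ≤ K)
    (hc : 0 ≤ c) (hcd : c ≤ d / (4 * K)) (hε : 0 ≤ ε)
    (h1 : ∀ u v u' v', |u| ≤ ε → |v| ≤ ε → |u'| ≤ ε → |v'| ≤ ε →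
      |F₁ u v - F₁ u' v' - (A * (u - u') + B * (v - v'))| ≤ c * max |u - u'| |v - v'|)
    (h2 : ∀ u v u' v', |u| ≤ ε → |v| ≤ ε → |u'| ≤ ε → |v'| ≤ ε →
      |F₂ u v - F₂ u' v' - (C * (u - u') + D * (v - v'))| ≤ c * max |u - u'| |v - v'|)
    (h01 : |F₁ 0 0| ≤ d / (4 * K) * ε) (h02 : |F₂ 0 0| ≤ d / (4 * K) * ε) :
    ∃ u v : ℝ, |u| ≤ ε ∧ |v| ≤ ε ∧ F₁ u v = 0 ∧ F₂ u v = 0 := by
  have hdet0 : A * D - B * C ≠ 0 := by
    intro h
    rw [h, abs_zero] at hdet
    linarith
  have hdp : 0 < |A * D - B * C| := abs_pos.2 hdet0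
  let f : ℝ × ℝ → ℝ × ℝ := fun w => (F₁ w.1 w.2, F₂ w.1 w.2)
  let f' : ℝ × ℝ →L[ℝ] ℝ × ℝ :=
    (A • ContinuousLinearMap.fst ℝ ℝ ℝ + B • ContinuousLinearMap.snd ℝ ℝ ℝ).prod
      (C • ContinuousLinearMap.fst ℝ ℝ ℝ + D • ContinuousLinearMap.snd ℝ ℝ ℝ)
  have hf' : ∀ w : ℝ × ℝ, f' w = (A * w.1 + B * w.2, C * w.1 + D * w.2) := fun w => rfl
  have hN : 0 ≤ 2 * K / d := by positivity
  have key : ∀ a b s t : ℝ, |a| ≤ K → |b| ≤ K →
      |(a * s - b * t) / (A * D - B * C)| ≤ 2 * K / d * max |s| |t| := by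
    intro a b s t ha hb
    rw [abs_div, div_le_iff₀ hdp]
    have e1 : |a * s - b * t| ≤ 2 * K * max |s| |t| := by
      calc |a * s - b * t| ≤ |a * s| + |b * t| := abs_sub _ _
        _ = |a| * |s| + |b| * |t| := by rw [abs_mul, abs_mul]
        _ ≤ K * max |s| |t| + K * max |s| |t| :=
            add_le_add (mul_le_mul ha (le_max_left _ _) (abs_nonneg _) hK.le)
              (mul_le_mul hb (le_max_right _ _) (abs_nonneg _) hK.le)
        _ = 2 * K * max |s| |t| := by ring
    have e2 : 2 * K * max |s| |t| = 2 * K / d * max |s| |t| * d := by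
      field_simp
    have hM : 0 ≤ 2 * K / d * max |s| |t| :=
      mul_nonneg hN (le_trans (abs_nonneg _) (le_max_left _ _))
    calc |a * s - b * t| ≤ 2 * K / d * max |s| |t| * d := by rw [← e2]; exact e1
      _ ≤ 2 * K / d * max |s| |t| * |A * D - B * C| := mul_le_mul_of_nonneg_left hdet hM
  let g : f'.NonlinearRightInverse :=
    { toFun := fun y => ((D * y.1 - B * y.2) / (A * D - B * C),
        (A * y.2 - C * y.1) / (A * D - B * C))
      nnnorm := ⟨2 * K / d, hN⟩
      bound' := by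
        intro y
        rw [Prod.norm_def, Prod.norm_def]
        refine max_le ?_ ?_
        · exact key D B y.1 y.2 hD hB
        · have := key A C y.2 y.1 hA hC
          rw [max_comm] at this
          exact this
      right_inv' := by
        intro y
        rw [hf']
        ext
        · simp only
          rw [mul_div_assoc', mul_div_assoc', ← add_div, div_eq_iff hdet0]
          ring
        · simp only
          rw [mul_div_assoc', mul_div_assoc', ← add_div, div_eq_iff hdet0]
          ring }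
  have happ : ApproximatesLinearOn f f' (Metric.closedBall 0 ε) ⟨c, hc⟩ := by
    intro x hx y hy
    rw [mem_closedBall_zero_iff, Prod.norm_def, max_le_iff, Real.norm_eq_abs,
      Real.norm_eq_abs] at hx hy
    rw [Prod.norm_def, Prod.norm_def, hf']
    refine max_le ?_ ?_
    · exact h1 x.1 x.2 y.1 y.2 hx.1 hx.2 hy.1 hy.2
    · exact h2 x.1 x.2 y.1 y.2 hx.1 hx.2 hy.1 hy.2
  have hsurj := happ.surjOn_closedBall_of_nonlinearRightInverse g hε le_rfl
  have hrad : d / (4 * K) * ε ≤ (((g.nnnorm : ℝ))⁻¹ - ((⟨c, hc⟩ : NNReal) : ℝ)) * ε := by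
    refine mul_le_mul_of_nonneg_right ?_ hε
    change d / (4 * K) ≤ (2 * K / d)⁻¹ - c
    rw [inv_div]
    have : d / (2 * K) = d / (4 * K) + d / (4 * K) := by
      field_simp
      norm_num
    rw [this]
    linarith
  have h0 : (0 : ℝ × ℝ) ∈ Metric.closedBall (f 0)
      ((((g.nnnorm : ℝ))⁻¹ - ((⟨c, hc⟩ : NNReal) : ℝ)) * ε) := by
    rw [Metric.mem_closedBall, dist_comm, dist_zero_right]
    refine le_trans ?_ hrad
    rw [Prod.norm_def]
    exact max_le h01 h02
  obtain ⟨w, hw, hfw⟩ := hsurj h0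
  rw [mem_closedBall_zero_iff, Prod.norm_def, max_le_iff, Real.norm_eq_abs,
    Real.norm_eq_abs] at hw
  exact ⟨w.1, w.2, hw.1, hw.2, congrArg Prod.fst hfw, congrArg Prod.snd hfw⟩

theorem IFT_card : Fintype.card Idx = 21 := by decide

theorem IFT_sum {f : Idx → ℝ} {t : ℝ} (h : ∀ q, |f q| ≤ t) : |∑ q, f q| ≤ 21 * t := by
  refine (Finset.abs_sum_le_sum_abs _ _).trans ?_
  calc ∑ q, |f q| ≤ ∑ q : Idx, t := Finset.sum_le_sum fun q _ => h q
    _ = 21 * t := by
      rw [Finset.sum_const, Finset.card_univ, IFT_card, nsmul_eq_mul]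
      norm_num

/-- the form is Lipschitz -/
theorem IFT_Q {a : Idx → ℝ} (ha : ∀ q, |a q| ≤ 1) {x z : Fin 6 → ℝ} {s t : ℝ} (hs : 0 ≤ s)
    (ht : 0 ≤ t) (hx : ∀ l, |x l| ≤ s) (hz : ∀ l, |z l| ≤ s) (hd : ∀ l, |x l - z l| ≤ t) :
    |Q a x - Q a z| ≤ 42 * (s * t) := by
  unfold Q
  rw [← Finset.sum_sub_distrib]
  refine (IFT_sum (t := 2 * (s * t)) fun q => ?_).trans (le_of_eq (by ring))
  have e : a q * (x q.1.1 * x q.1.2) - a q * (z q.1.1 * z q.1.2) =
      a q * ((x q.1.1 - z q.1.1) * x q.1.2 + z q.1.1 * (x q.1.2 - z q.1.2)) := by ring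
  rw [e, abs_mul]
  have e1 : |(x q.1.1 - z q.1.1) * x q.1.2 + z q.1.1 * (x q.1.2 - z q.1.2)| ≤ 2 * (s * t) := by
    refine (abs_add_le _ _).trans ?_
    rw [abs_mul, abs_mul]
    have k1 : |x q.1.1 - z q.1.1| * |x q.1.2| ≤ t * s :=
      mul_le_mul (hd _) (hx _) (abs_nonneg _) ht
    have k2 : |z q.1.1| * |x q.1.2 - z q.1.2| ≤ s * t :=
      mul_le_mul (hz _) (hd _) (abs_nonneg _) hs
    linarith
  calc |a q| * |(x q.1.1 - z q.1.1) * x q.1.2 + z q.1.1 * (x q.1.2 - z q.1.2)|
      ≤ 1 * (2 * (s * t)) := mul_le_mul (ha q) e1 (abs_nonneg _) zero_le_one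
    _ = 2 * (s * t) := one_mul _

/-- bound for the partial derivatives -/
theorem IFT_G {a : Idx → ℝ} (ha : ∀ q, |a q| ≤ 1) {x : Fin 6 → ℝ} {t : ℝ} (ht : 0 ≤ t)
    (hx : ∀ l, |x l| ≤ t) (i : Fin 6) : |G a x i| ≤ 42 * t := by
  unfold G
  refine (IFT_sum (t := 2 * t) fun q => ?_).trans (le_of_eq (by ring))
  rw [abs_mul]
  have e1 : |(if q.1.1 = i then x q.1.2 else 0) + (if q.1.2 = i then x q.1.1 else 0)| ≤
      2 * t := by
    refine (abs_add_le _ _).trans ?_
    have k1 : |if q.1.1 = i then x q.1.2 else 0| ≤ t := by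
      split_ifs
      · exact hx _
      · rw [abs_zero]; exact ht
    have k2 : |if q.1.2 = i then x q.1.1 else 0| ≤ t := by
      split_ifs
      · exact hx _
      · rw [abs_zero]; exact ht
    linarith
  calc |a q| * |(if q.1.1 = i then x q.1.2 else 0) + (if q.1.2 = i then x q.1.1 else 0)|
      ≤ 1 * (2 * t) := mul_le_mul (ha q) e1 (abs_nonneg _) zero_le_one
    _ = 2 * t := one_mul _

theorem IFT_G_sub (a : Idx → ℝ) (x z : Fin 6 → ℝ) (i : Fin 6) :
    G a x i - G a z i = G a (fun l => x l - z l) i := by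
  unfold G
  rw [← Finset.sum_sub_distrib]
  refine Finset.sum_congr rfl fun q _ => ?_
  split_ifs <;> ring

/-- polarization in two coordinates -/
theorem IFT_pol (a : Idx → ℝ) (x : Fin 6 → ℝ) {i j : Fin 6} (hij : i ≠ j) (u v : ℝ) :
    Q a (fun l => x l + (if l = i then u else if l = j then v else 0)) =
      Q a x + (u * G a x i + v * G a x j) +
        Q a (fun l => if l = i then u else if l = j then v else 0) := by
  set w : Fin 6 → ℝ := fun l => if l = i then u else if l = j then v else 0 with hw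
  have h0 : Q a (fun l => x l + w l) = Q a x + ∑ l, w l * G a x l + Q a w := by
    have h : ∑ l, w l * G a x l =
        ∑ q : Idx, a q * (w q.1.1 * x q.1.2 + w q.1.2 * x q.1.1) := by
      simp only [G, Finset.mul_sum]
      rw [Finset.sum_comm]
      refine Finset.sum_congr rfl fun q _ => ?_
      have h1 : ∀ l, w l * (a q * ((if q.1.1 = l then x q.1.2 else 0) +
          (if q.1.2 = l then x q.1.1 else 0))) =
          (if q.1.1 = l then a q * (w l * x q.1.2) else 0) +
            (if q.1.2 = l then a q * (w l * x q.1.1) else 0) := by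
        intro l
        split_ifs <;> ring
      simp only [h1]
      rw [Finset.sum_add_distrib, Finset.sum_ite_eq, Finset.sum_ite_eq]
      simp only [Finset.mem_univ, if_true]
      ring
    rw [h]
    simp only [Q]
    rw [← Finset.sum_add_distrib, ← Finset.sum_add_distrib]
    refine Finset.sum_congr rfl fun q _ => ?_
    ring
  have h2 : ∑ l, w l * G a x l = u * G a x i + v * G a x j := by
    rw [Fintype.sum_eq_add i j hij]
    · simp [hw, hij.symm]
    · rintro l ⟨g1, g2⟩
      simp [hw, g1, g2]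
  rw [← h2]
  exact h0

theorem p_IFT : Stmt_IFT := by
  classical
  intro δ₀ η₀ hδ₀ hη₀
  obtain ⟨δ, hδ, hδ1, hδle⟩ : ∃ δ : ℝ, 0 < δ ∧ δ ≤ 1 ∧ δ ≤ δ₀ :=
    ⟨min δ₀ 1, lt_min hδ₀ one_pos, min_le_right _ _, min_le_left _ _⟩
  set ε : ℝ := min (min η₀ 1) (δ / (168 * 84)) with hε
  have hε0 : 0 < ε := lt_min (lt_min hη₀ one_pos) (by positivity)
  have hεη : ε ≤ η₀ := (min_le_left _ _).trans (min_le_left _ _)
  have hε1 : ε ≤ 1 := (min_le_left _ _).trans (min_le_right _ _)
  have hεd : ε ≤ δ / (168 * 84) := min_le_right _ _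
  set ρ : ℝ := δ * ε / (168 * 168) with hρ
  have hρ0 : 0 < ρ := by positivity
  have hρε : ρ ≤ ε := by
    rw [hρ, div_le_iff₀ (by norm_num)]
    nlinarith
  have hρd : ρ ≤ δ / (168 * 168) := by
    rw [hρ]
    apply div_le_div_of_nonneg_right _ (by norm_num)
    nlinarith
  refine ⟨ρ, hρ0, hρε.trans hεη, ?_⟩
  intro α β z i j hα hβ hz hQα hQβ hmn x hx
  have hij : i ≠ j := by
    rintro rfl
    have : mn α β z i i = 0 := by unfold mn; ring
    rw [this, abs_zero] at hmn
    linarith
  set x' : Fin 6 → ℝ := fun l => if l = i ∨ l = j then z l else x l with hx'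
  have hxz : ∀ l, |x' l - z l| ≤ ρ := by
    intro l
    by_cases h : l = i ∨ l = j
    · simp only [hx', if_pos h, sub_self, abs_zero]
      exact hρ0.le
    · push Not at h
      have h' : ¬ (l = i ∨ l = j) := by
        push Not
        exact h
      simp only [hx', if_neg h']
      exact hx l h.1 h.2
  have hx'2 : ∀ l, |x' l| ≤ 2 := by
    intro l
    have h1 := abs_add_le (x' l - z l) (z l)
    rw [sub_add_cancel] at h1
    have h2 := hxz l
    have h3 := hz l
    linarith
  have hQ0 : ∀ γ : Idx → ℝ, (∀ q, |γ q| ≤ 1) → Q γ z = 0 → |Q γ x'| ≤ δ / (4 * 42) * ε := by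
    intro γ hγ hQ
    have h1 := IFT_Q hγ (s := 2) (t := ρ) (by norm_num) hρ0.le hx'2
      (fun l => (hz l).trans (by norm_num)) hxz
    rw [hQ, sub_zero] at h1
    refine h1.trans ?_
    rw [hρ]
    have : 42 * (2 * (δ * ε / (168 * 168))) = (δ * ε) * (84 / (168 * 168)) := by ring
    rw [this]
    have h2 : δ / (4 * 42) * ε = (δ * ε) * (1 / 168) := by ring
    rw [h2]
    exact mul_le_mul_of_nonneg_left (by norm_num) (by positivity)
  have hlip : ∀ γ : Idx → ℝ, (∀ q, |γ q| ≤ 1) → ∀ u v u' v' : ℝ, |u| ≤ ε → |v| ≤ ε →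
      |u'| ≤ ε → |v'| ≤ ε →
      |Q γ (fun l => x' l + (if l = i then u else if l = j then v else 0)) -
        Q γ (fun l => x' l + (if l = i then u' else if l = j then v' else 0)) -
        (G γ z i * (u - u') + G γ z j * (v - v'))| ≤
      δ / (4 * 42) * max |u - u'| |v - v'| := by
    intro γ hγ u v u' v' hu hv hu' hv'
    rw [IFT_pol γ x' hij u v, IFT_pol γ x' hij u' v']
    have hM0 : 0 ≤ max |u - u'| |v - v'| := (abs_nonneg _).trans (le_max_left _ _)
    have hg1 : |G γ x' i - G γ z i| ≤ 42 * ρ := by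
      rw [IFT_G_sub]
      exact IFT_G hγ hρ0.le hxz i
    have hg2 : |G γ x' j - G γ z j| ≤ 42 * ρ := by
      rw [IFT_G_sub]
      exact IFT_G hγ hρ0.le hxz j
    have hb : ∀ s t : ℝ, |s| ≤ ε → |t| ≤ ε → ∀ l : Fin 6,
        |if l = i then s else if l = j then t else 0| ≤ ε := by
      intro s t hs ht l
      split_ifs
      · exact hs
      · exact ht
      · rw [abs_zero]; exact hε0.le
    have hq : |Q γ (fun l => if l = i then u else if l = j then v else 0) -
        Q γ (fun l => if l = i then u' else if l = j then v' else 0)| ≤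
        42 * (ε * max |u - u'| |v - v'|) := by
      refine IFT_Q hγ hε0.le hM0 (hb u v hu hv) (hb u' v' hu' hv') ?_
      intro l
      by_cases h1 : l = i
      · simp only [if_pos h1]
        exact le_max_left _ _
      · by_cases h2 : l = j
        · simp only [if_neg h1, if_pos h2]
          exact le_max_right _ _
        · simp only [if_neg h1, if_neg h2, sub_self, abs_zero]
          exact hM0
    have e : Q γ x' + (u * G γ x' i + v * G γ x' j) +
        Q γ (fun l => if l = i then u else if l = j then v else 0) -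
        (Q γ x' + (u' * G γ x' i + v' * G γ x' j) +
        Q γ (fun l => if l = i then u' else if l = j then v' else 0)) -
        (G γ z i * (u - u') + G γ z j * (v - v')) =
        (u - u') * (G γ x' i - G γ z i) + (v - v') * (G γ x' j - G γ z j) +
        (Q γ (fun l => if l = i then u else if l = j then v else 0) -
        Q γ (fun l => if l = i then u' else if l = j then v' else 0)) := by ring
    rw [e]
    have k1 : |(u - u') * (G γ x' i - G γ z i)| ≤ max |u - u'| |v - v'| * (42 * ρ) := by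
      rw [abs_mul]
      exact mul_le_mul (le_max_left _ _) hg1 (abs_nonneg _) hM0
    have k2 : |(v - v') * (G γ x' j - G γ z j)| ≤ max |u - u'| |v - v'| * (42 * ρ) := by
      rw [abs_mul]
      exact mul_le_mul (le_max_right _ _) hg2 (abs_nonneg _) hM0
    have k3 := abs_add_le ((u - u') * (G γ x' i - G γ z i) + (v - v') * (G γ x' j - G γ z j))
      (Q γ (fun l => if l = i then u else if l = j then v else 0) -
        Q γ (fun l => if l = i then u' else if l = j then v' else 0))
    have k4 := abs_add_le ((u - u') * (G γ x' i - G γ z i)) ((v - v') * (G γ x' j - G γ z j))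
    have k5 : max |u - u'| |v - v'| * (42 * ρ) + max |u - u'| |v - v'| * (42 * ρ) +
        42 * (ε * max |u - u'| |v - v'|) =
        (84 * ρ + 42 * ε) * max |u - u'| |v - v'| := by ring
    have k6 : (84 * ρ + 42 * ε) * max |u - u'| |v - v'| ≤
        δ / (4 * 42) * max |u - u'| |v - v'| := by
      refine mul_le_mul_of_nonneg_right ?_ hM0
      have : δ / (4 * 42) = 84 * (δ / (168 * 168)) + 42 * (δ / (168 * 84)) := by ring
      rw [this]
      linarith
    linarith
  obtain ⟨u, v, hu, hv, h1, h2⟩ := IFT_abs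
    (fun u v => Q α (fun l => x' l + (if l = i then u else if l = j then v else 0)))
    (fun u v => Q β (fun l => x' l + (if l = i then u else if l = j then v else 0)))
    (G α z i) (G α z j) (G β z i) (G β z j) 42 δ (δ / (4 * 42)) ε hδ (by norm_num)
    (hδle.trans hmn)
    ((IFT_G hα zero_le_one hz i).trans (by norm_num))
    ((IFT_G hα zero_le_one hz j).trans (by norm_num))
    ((IFT_G hβ zero_le_one hz i).trans (by norm_num))
    ((IFT_G hβ zero_le_one hz j).trans (by norm_num)) (by positivity) le_rfl hε0.le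
    (hlip α hα) (hlip β hβ) (by simpa using hQ0 α hα hQα) (by simpa using hQ0 β hβ hQβ)
  refine ⟨fun l => x' l + (if l = i then u else if l = j then v else 0), ?_, ?_, ?_, h1, h2⟩
  · intro l hi hj
    simp [hx', hi, hj]
  · simp only [hx', if_true, true_or]
    rw [add_sub_cancel_left]
    exact hu.trans hεη
  · simp only [hx', if_neg hij.symm, if_true, or_true]
    rw [add_sub_cancel_left]
    exact hv.trans hεη

end Pool.HPQ
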