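import Pool.Agent.Work.MP_9fb703_hp.Interface

/-! # Block MIN5 (helper34): pairs of shifted integer vectors with small minors -/

set_option autoImplicit false

namespace Pool.HPQ

open Finset

/-- counting by fibres -/
theorem MIN5_fib {α β : Type*} [DecidableEq β] (S : Finset α) (f : α → β) (M N : ℝ) (hM : 0 ≤ M)
    (h1 : ((S.image f).card : ℝ) ≤ N)
    (h2 : ∀ b ∈ S.image f, ((S.filter fun a => f a = b).card : ℝ) ≤ M) :
    (S.card : ℝ) ≤ N * M := by
  have h3 : S.card = ∑ b ∈ S.image f, (S.filter fun a => f a = b).card :=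
    Finset.card_eq_sum_card_image f S
  rw [h3, Nat.cast_sum]
  calc ∑ b ∈ S.image f, ((S.filter fun a => f a = b).card : ℝ)
      ≤ ∑ b ∈ S.image f, M := Finset.sum_le_sum h2
    _ = (S.image f).card * M := by rw [Finset.sum_const, nsmul_eq_mul]
    _ ≤ N * M := mul_le_mul_of_nonneg_right h1 hM

/-- integers in an interval -/
theorem MIN5_int (c ρ : ℝ) (hρ : 0 ≤ ρ) :
    ((Finset.Icc ⌈c - ρ⌉ ⌊c + ρ⌋).card : ℝ) ≤ 2 * ρ + 1 := by
  rw [Int.card_Icc]
  have h1 : c - ρ ≤ ⌈c - ρ⌉ := Int.le_ceil _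
  have h2 : (⌊c + ρ⌋ : ℝ) ≤ c + ρ := Int.floor_le _
  have h3 : (((⌊c + ρ⌋ + 1 - ⌈c - ρ⌉).toNat : ℤ) : ℝ) ≤ 2 * ρ + 1 := by
    rw [Int.toNat_eq_max]
    rw [Int.cast_max]
    refine max_le ?_ ?_
    · push_cast
      linarith
    · push_cast
      linarith
  exact_mod_cast h3

/-- integer vectors in a box -/
theorem MIN5_vec (c ρ : Fin 5 → ℝ) (hρ : ∀ j, 0 ≤ ρ j) (T : Finset (Fin 5 → ℤ))
    (hT : ∀ z ∈ T, ∀ j, |(z j : ℝ) - c j| ≤ ρ j) : (T.card : ℝ) ≤ ∏ j, (2 * ρ j + 1) := by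
  have h1 : T ⊆ Fintype.piFinset fun j => Finset.Icc ⌈c j - ρ j⌉ ⌊c j + ρ j⌋ := by
    intro z hz
    rw [Fintype.mem_piFinset]
    intro j
    have := abs_le.mp (hT z hz j)
    rw [Finset.mem_Icc]
    exact ⟨Int.ceil_le.mpr (by linarith [this.1]), Int.le_floor.mpr (by linarith [this.2])⟩
  have h2 := Finset.card_le_card h1
  rw [Fintype.card_piFinset] at h2
  calc (T.card : ℝ) ≤ ((∏ j, (Finset.Icc ⌈c j - ρ j⌉ ⌊c j + ρ j⌋).card : ℕ) : ℝ) := by
        exact_mod_cast h2
    _ = ∏ j, ((Finset.Icc ⌈c j - ρ j⌉ ⌊c j + ρ j⌋).card : ℝ) := by push_cast; rfl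
    _ ≤ ∏ j, (2 * ρ j + 1) :=
        Finset.prod_le_prod (fun j _ => by positivity) fun j _ => MIN5_int _ _ (hρ j)

theorem MIN5_prod (i : Fin 5) (r : ℝ) :
    ∏ j : Fin 5, (2 * (if j = i then 0 else r) + 1) = (2 * r + 1) ^ 4 := by
  fin_cases i <;> simp [Fin.prod_univ_five] <;> ring

theorem p_MIN5 : Stmt_MIN5 := by
  classical
  intro κ hκ
  refine ⟨5 * 15 * 81 * 15 * (2 * κ + 7) ^ 4 + 1, by
    have : 0 ≤ 5 * 15 * 81 * 15 * (2 * κ + 7) ^ 4 := by positivity
    linarith, ?_⟩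
  intro δ hδ hδ1
  obtain ⟨A₁, hA₁⟩ := exists_nat_ge (max (1 / δ) (3 ^ 5 * 15 ^ 5 / δ ^ 4))
  refine ⟨A₁ + 1, ?_⟩
  intro A hA θ θ' S hS
  have hA1 : (1 : ℝ) ≤ A := by
    have : 1 ≤ A := by omega
    exact_mod_cast this
  have hAA : (A₁ : ℝ) ≤ A := by
    have : A₁ ≤ A := by omega
    exact_mod_cast this
  have hA0 : (0 : ℝ) < A := by linarith
  have hδA : 1 ≤ δ * A := by
    have h1 : 1 / δ ≤ A := (le_max_left _ _).trans (hA₁.trans hAA)
    rw [div_le_iff₀ hδ] at h1
    linarith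
  have hAbig : 3 ^ 5 * 15 ^ 5 ≤ δ ^ 4 * (A : ℝ) := by
    have h1 : 3 ^ 5 * 15 ^ 5 / δ ^ 4 ≤ A := (le_max_right _ _).trans (hA₁.trans hAA)
    rw [div_le_iff₀ (by positivity)] at h1
    linarith
  -- vectors `z.2` (all coordinates bounded)
  have hall : ∀ (ϑ : Fin 5 → ℝ) (T : Finset (Fin 5 → ℤ)),
      (∀ z ∈ T, ∀ j, |(z j : ℝ) + ϑ j| ≤ 7 * A) → (T.card : ℝ) ≤ (15 * A) ^ 5 := by
    intro ϑ T hT
    refine (MIN5_vec (fun j => - ϑ j) (fun _ => 7 * A) (fun _ => by positivity) T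
      (fun z hz j => by simpa using hT z hz j)).trans ?_
    rw [Finset.prod_const, Finset.card_univ, Fintype.card_fin]
    exact pow_le_pow_left₀ (by positivity) (by linarith) 5
  set K : ℝ := 15 * A * ((2 * κ + 7) * δ * A ^ 2) ^ 4 with hK
  have hK0 : 0 ≤ K := by positivity
  -- the part with large entry `i`
  have hpart : ∀ i : Fin 5, (((S.filter fun z => 1 ≤ |(z.1 i : ℝ) + θ i| ∧
      ∀ j, |(z.1 j : ℝ) + θ j| ≤ |(z.1 i : ℝ) + θ i|).card : ℝ)) ≤ 15 * A * (81 * K) := by
    intro i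
    refine MIN5_fib _ (fun z => z.1 i) (81 * K) (15 * A) (by positivity) ?_ ?_
    · -- values of `z.1 i`
      have hsub : ((S.filter fun z => 1 ≤ |(z.1 i : ℝ) + θ i| ∧
          ∀ j, |(z.1 j : ℝ) + θ j| ≤ |(z.1 i : ℝ) + θ i|).image fun z => z.1 i) ⊆
          Finset.Icc ⌈-θ i - 7 * A⌉ ⌊-θ i + 7 * A⌋ := by
        intro k hk
        obtain ⟨z, hz, rfl⟩ := Finset.mem_image.mp hk
        have := abs_le.mp ((hS z (Finset.mem_filter.mp hz).1).1 i)
        rw [Finset.mem_Icc]
        exact ⟨Int.ceil_le.mpr (by linarith [this.1]), Int.le_floor.mpr (by linarith [this.2])⟩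
      calc (((S.filter fun z => 1 ≤ |(z.1 i : ℝ) + θ i| ∧
          ∀ j, |(z.1 j : ℝ) + θ j| ≤ |(z.1 i : ℝ) + θ i|).image fun z => z.1 i).card : ℝ)
          ≤ ((Finset.Icc ⌈-θ i - 7 * A⌉ ⌊-θ i + 7 * A⌋).card : ℝ) := by
            exact_mod_cast Finset.card_le_card hsub
        _ ≤ 2 * (7 * A) + 1 := MIN5_int _ _ (by positivity)
        _ ≤ 15 * A := by linarith
    · intro k hk
      obtain ⟨z₀, hz₀, hk₀⟩ := Finset.mem_image.mp hk
      set r : ℝ := |(k : ℝ) + θ i| with hr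
      have hr1 : 1 ≤ r := by
        have := (Finset.mem_filter.mp hz₀).2.1
        rw [hr, ← hk₀]
        exact this
      have hr0 : 0 < r := by linarith
      have hr7 : r ≤ 7 * A := by
        have := (hS z₀ (Finset.mem_filter.mp hz₀).1).1 i
        rw [hr, ← hk₀]
        exact this
      set S' := (S.filter fun z => 1 ≤ |(z.1 i : ℝ) + θ i| ∧
          ∀ j, |(z.1 j : ℝ) + θ j| ≤ |(z.1 i : ℝ) + θ i|).filter fun z => z.1 i = k with hS'
      have hS'm : ∀ z ∈ S', z ∈ S ∧ z.1 i = k ∧ ∀ j, |(z.1 j : ℝ) + θ j| ≤ r := by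
        intro z hz
        rw [hS', Finset.mem_filter, Finset.mem_filter] at hz
        refine ⟨hz.1.1, hz.2, fun j => ?_⟩
        have := hz.1.2.2 j
        rw [hz.2] at this
        exact this
      have hL0 : 0 ≤ (2 * κ + 7) * δ * (A : ℝ) ^ 2 / r := by positivity
      -- fibre over `z.1`, then over `z.2 i`
      have h3 : (S'.card : ℝ) ≤ (3 * r) ^ 4 * (15 * A * ((2 * κ + 7) * δ * A ^ 2 / r) ^ 4) := by
        refine MIN5_fib S' Prod.fst _ _ (by positivity) ?_ ?_
        · refine (MIN5_vec (fun j => if j = i then (k : ℝ) else - θ j)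
            (fun j => if j = i then 0 else r) (fun j => by split_ifs <;> linarith)
            (S'.image Prod.fst) ?_).trans ?_
          · intro z hz j
            obtain ⟨w, hw, rfl⟩ := Finset.mem_image.mp hz
            obtain ⟨-, hw1, hw2⟩ := hS'm w hw
            by_cases hji : j = i
            · subst hji
              simp [hw1]
            · simpa [hji] using hw2 j
          · rw [MIN5_prod]
            exact pow_le_pow_left₀ (by positivity) (by linarith) 4
        · intro u hu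
          obtain ⟨w₀, hw₀, hu₀⟩ := Finset.mem_image.mp hu
          refine MIN5_fib _ (fun z => z.2 i) _ _ (by positivity) ?_ ?_
          · have hsub : ((S'.filter fun z => z.1 = u).image fun z => z.2 i) ⊆
                Finset.Icc ⌈-θ' i - 7 * A⌉ ⌊-θ' i + 7 * A⌋ := by
              intro l hl
              obtain ⟨z, hz, rfl⟩ := Finset.mem_image.mp hl
              have := abs_le.mp ((hS z (hS'm z (Finset.mem_filter.mp hz).1).1).2.1 i)
              rw [Finset.mem_Icc]
              exact ⟨Int.ceil_le.mpr (by linarith [this.1]),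
                Int.le_floor.mpr (by linarith [this.2])⟩
            calc ((((S'.filter fun z => z.1 = u).image fun z => z.2 i)).card : ℝ)
                ≤ ((Finset.Icc ⌈-θ' i - 7 * A⌉ ⌊-θ' i + 7 * A⌋).card : ℝ) := by
                  exact_mod_cast Finset.card_le_card hsub
              _ ≤ 2 * (7 * A) + 1 := MIN5_int _ _ (by positivity)
              _ ≤ 15 * A := by linarith
          · intro l hl
            set S'' := (S'.filter fun z => z.1 = u).filter fun z => z.2 i = l with hS''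
            have hm : ∀ z ∈ S'', z ∈ S' ∧ z.1 = u ∧ z.2 i = l := by
              intro z hz
              rw [hS'', Finset.mem_filter, Finset.mem_filter] at hz
              exact ⟨hz.1.1, hz.1.2, hz.2⟩
            have hcard : S''.card = (S''.image Prod.snd).card := by
              rw [Finset.card_image_of_injOn]
              intro z hz z' hz' h
              exact Prod.ext (((hm z hz).2.1).trans ((hm z' hz').2.1).symm) h
            rw [hcard]
            refine (MIN5_vec (fun j => if j = i then (l : ℝ) else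
                (u j + θ j) * (l + θ' i) / (k + θ i) - θ' j)
              (fun j => if j = i then 0 else κ * δ * A ^ 2 / r)
              (fun j => by split_ifs <;> positivity) (S''.image Prod.snd) ?_).trans ?_
            · intro v hv j
              obtain ⟨z, hz, rfl⟩ := Finset.mem_image.mp hv
              obtain ⟨hz1, hz2, hz3⟩ := hm z hz
              obtain ⟨hz4, hz5, hz6⟩ := hS'm z hz1
              by_cases hji : j = i
              · subst hji
                simp [hz3]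
              · simp only [hji, if_false]
                have h6 := (hS z hz4).2.2 i j
                rw [hz5, hz3, hz2] at h6
                have hne : (k : ℝ) + θ i ≠ 0 := by
                  intro h0
                  rw [h0, abs_zero] at hr
                  linarith
                have h7 : (z.2 j : ℝ) - ((u j + θ j) * (l + θ' i) / (k + θ i) - θ' j) =
                    ((k + θ i) * (z.2 j + θ' j) - (u j + θ j) * (l + θ' i)) / (k + θ i) := by
                  field_simp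
                  ring
                rw [h7, abs_div, ← hr]
                exact div_le_div_of_nonneg_right h6 hr0.le
            · rw [MIN5_prod]
              refine pow_le_pow_left₀ (by positivity) ?_ 4
              have h8 : (1 : ℝ) ≤ 7 * δ * A ^ 2 / r := by
                rw [le_div_iff₀ hr0]
                nlinarith
              have h9 : (2 * κ + 7) * δ * (A : ℝ) ^ 2 / r =
                  2 * (κ * δ * A ^ 2 / r) + 7 * δ * A ^ 2 / r := by ring
              rw [h9]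
              linarith
      refine h3.trans (le_of_eq ?_)
      rw [hK]
      field_simp
      ring
  -- the part with all entries small
  have hsmall : (((S.filter fun z => ∀ j, |(z.1 j : ℝ) + θ j| ≤ 1).card : ℝ)) ≤
      3 ^ 5 * (15 * A) ^ 5 := by
    refine MIN5_fib _ Prod.fst _ _ (by positivity) ?_ ?_
    · refine (MIN5_vec (fun j => - θ j) (fun _ => 1) (fun _ => by norm_num) _ ?_).trans ?_
      · intro u hu j
        obtain ⟨z, hz, rfl⟩ := Finset.mem_image.mp hu
        simpa using (Finset.mem_filter.mp hz).2 j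
      · rw [Finset.prod_const, Finset.card_univ, Fintype.card_fin]
        norm_num
    · intro u hu
      have hcard : ((S.filter fun z => ∀ j, |(z.1 j : ℝ) + θ j| ≤ 1).filter
          fun z => z.1 = u).card = (((S.filter fun z => ∀ j, |(z.1 j : ℝ) + θ j| ≤ 1).filter
          fun z => z.1 = u).image Prod.snd).card := by
        rw [Finset.card_image_of_injOn]
        intro z hz z' hz' h
        have h1 := (Finset.mem_filter.mp hz).2
        have h2 := (Finset.mem_filter.mp hz').2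
        exact Prod.ext (h1.trans h2.symm) h
      rw [hcard]
      refine hall θ' _ ?_
      intro v hv j
      obtain ⟨z, hz, rfl⟩ := Finset.mem_image.mp hv
      exact (hS z (Finset.mem_filter.mp (Finset.mem_filter.mp hz).1).1).2.1 j
  -- the union
  have hcov : S ⊆ (Finset.univ.biUnion fun i : Fin 5 =>
      S.filter fun z => 1 ≤ |(z.1 i : ℝ) + θ i| ∧
        ∀ j, |(z.1 j : ℝ) + θ j| ≤ |(z.1 i : ℝ) + θ i|) ∪
      (S.filter fun z => ∀ j, |(z.1 j : ℝ) + θ j| ≤ 1) := by
    intro z hz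
    obtain ⟨i, -, hi⟩ := Finset.exists_max_image (Finset.univ : Finset (Fin 5))
      (fun j => |(z.1 j : ℝ) + θ j|) Finset.univ_nonempty
    rw [Finset.mem_union]
    by_cases h1 : 1 ≤ |(z.1 i : ℝ) + θ i|
    · left
      rw [Finset.mem_biUnion]
      exact ⟨i, Finset.mem_univ _, Finset.mem_filter.mpr ⟨hz, h1, fun j => hi j (Finset.mem_univ _)⟩⟩
    · right
      exact Finset.mem_filter.mpr ⟨hz, fun j => (hi j (Finset.mem_univ _)).trans (not_le.mp h1).le⟩
  have hc1 := (Finset.card_le_card hcov).trans (Finset.card_union_le _ _)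
  have hc2 : ((Finset.univ.biUnion fun i : Fin 5 =>
      S.filter fun z => 1 ≤ |(z.1 i : ℝ) + θ i| ∧
        ∀ j, |(z.1 j : ℝ) + θ j| ≤ |(z.1 i : ℝ) + θ i|).card : ℝ) ≤ 5 * (15 * A * (81 * K)) := by
    have h1 := Finset.card_biUnion_le (s := (Finset.univ : Finset (Fin 5)))
      (t := fun i : Fin 5 => S.filter fun z => 1 ≤ |(z.1 i : ℝ) + θ i| ∧
        ∀ j, |(z.1 j : ℝ) + θ j| ≤ |(z.1 i : ℝ) + θ i|)
    calc ((Finset.univ.biUnion fun i : Fin 5 =>
      S.filter fun z => 1 ≤ |(z.1 i : ℝ) + θ i| ∧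
        ∀ j, |(z.1 j : ℝ) + θ j| ≤ |(z.1 i : ℝ) + θ i|).card : ℝ)
        ≤ ((∑ i : Fin 5, (S.filter fun z => 1 ≤ |(z.1 i : ℝ) + θ i| ∧
        ∀ j, |(z.1 j : ℝ) + θ j| ≤ |(z.1 i : ℝ) + θ i|).card : ℕ) : ℝ) := by exact_mod_cast h1
      _ = ∑ i : Fin 5, ((S.filter fun z => 1 ≤ |(z.1 i : ℝ) + θ i| ∧
        ∀ j, |(z.1 j : ℝ) + θ j| ≤ |(z.1 i : ℝ) + θ i|).card : ℝ) := by push_cast; rfl
      _ ≤ ∑ _i : Fin 5, (15 * A * (81 * K)) := Finset.sum_le_sum fun i _ => hpart i
      _ = 5 * (15 * A * (81 * K)) := by simp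
  have hc3 : (S.card : ℝ) ≤ 5 * (15 * A * (81 * K)) + 3 ^ 5 * (15 * A) ^ 5 := by
    have h1 : (S.card : ℝ) ≤ ((Finset.univ.biUnion fun i : Fin 5 =>
      S.filter fun z => 1 ≤ |(z.1 i : ℝ) + θ i| ∧
        ∀ j, |(z.1 j : ℝ) + θ j| ≤ |(z.1 i : ℝ) + θ i|).card : ℝ) +
        ((S.filter fun z => ∀ j, |(z.1 j : ℝ) + θ j| ≤ 1).card : ℝ) := by exact_mod_cast hc1
    linarith
  refine hc3.trans ?_
  have h4 : 3 ^ 5 * (15 * (A : ℝ)) ^ 5 ≤ δ ^ 4 * A ^ 10 := by
    have h5 : (A : ℝ) ^ 6 ≤ A ^ 10 := pow_le_pow_right₀ hA1 (by norm_num)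
    calc 3 ^ 5 * (15 * (A : ℝ)) ^ 5 = (3 ^ 5 * 15 ^ 5) * A ^ 5 := by ring
      _ ≤ (δ ^ 4 * A) * A ^ 5 := mul_le_mul_of_nonneg_right hAbig (by positivity)
      _ = δ ^ 4 * A ^ 6 := by ring
      _ ≤ δ ^ 4 * A ^ 10 := mul_le_mul_of_nonneg_left h5 (by positivity)
  have h6 : 5 * (15 * A * (81 * K)) =
      5 * 15 * 81 * 15 * (2 * κ + 7) ^ 4 * δ ^ 4 * (A : ℝ) ^ 10 := by
    rw [hK]
    ring
  rw [h6]
  calc 5 * 15 * 81 * 15 * (2 * κ + 7) ^ 4 * δ ^ 4 * (A : ℝ) ^ 10 + 3 ^ 5 * (15 * (A : ℝ)) ^ 5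
      ≤ 5 * 15 * 81 * 15 * (2 * κ + 7) ^ 4 * δ ^ 4 * (A : ℝ) ^ 10 + δ ^ 4 * A ^ 10 := by linarith
    _ = (5 * 15 * 81 * 15 * (2 * κ + 7) ^ 4 + 1) * δ ^ 4 * (A : ℝ) ^ 10 := by ring

end Pool.HPQ
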