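import Pool.Agent.Work.MP_9fb703_hp.Interface

/-! # Block MULT: multiplicativity of the number of good solutions -/

set_option autoImplicit false

namespace Pool.HPQ

open Finset

theorem MULT_Q_cast {N : ℕ} (a : Idx → ℤ) (x : Fin 6 → ℤ) :
    ((Q a x : ℤ) : ZMod N) = Q (fun q => (a q : ZMod N)) (fun i => (x i : ZMod N)) := by
  unfold Q
  push_cast
  rfl

theorem MULT_dvd_Q {N : ℕ} (a : Idx → ℤ) {x y : Fin 6 → ℤ} (h : ∀ i, (N : ℤ) ∣ x i - y i) :
    (N : ℤ) ∣ Q a x ↔ (N : ℤ) ∣ Q a y := by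
  rw [← ZMod.intCast_zmod_eq_zero_iff_dvd, ← ZMod.intCast_zmod_eq_zero_iff_dvd, MULT_Q_cast,
    MULT_Q_cast]
  have h1 : (fun i => (x i : ZMod N)) = (fun i => (y i : ZMod N)) := by
    funext i
    have h2 := (ZMod.intCast_zmod_eq_zero_iff_dvd (x i - y i) N).mpr (h i)
    push_cast at h2
    exact sub_eq_zero.mp h2
  rw [h1]

theorem MULT_gcd (u v : ℤ) (N : ℕ) : Int.gcd (Int.gcd u v) N = 1 ↔
    ∀ p : ℕ, p.Prime → p ∣ N → ¬ ((p : ℤ) ∣ u ∧ (p : ℤ) ∣ v) := by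
  rw [Int.gcd_natCast_natCast]
  constructor
  · intro h p hp hpN hc
    have h1 : p ∣ Int.gcd u v := Int.dvd_gcd hc.1 hc.2
    have h2 : p ∣ Nat.gcd (Int.gcd u v) N := Nat.dvd_gcd h1 hpN
    rw [h] at h2
    exact hp.one_lt.ne' (Nat.dvd_one.mp h2)
  · intro h
    by_contra hc
    obtain ⟨p, hp, hpd⟩ := Nat.exists_prime_and_dvd hc
    have h1 : p ∣ Int.gcd u v := hpd.trans (Nat.gcd_dvd_left _ _)
    have h2 : p ∣ N := hpd.trans (Nat.gcd_dvd_right _ _)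
    apply h p hp h2
    have h3 : ((p : ℕ) : ℤ) ∣ (Int.gcd u v : ℤ) := Int.natCast_dvd_natCast.mpr h1
    exact ⟨h3.trans (Int.gcd_dvd_left _ _), h3.trans (Int.gcd_dvd_right _ _)⟩

theorem MULT_dt {N : ℤ} (r : Fin 6 → ℤ) {x y : Fin 6 → ℤ} (h : ∀ i, N ∣ x i - y i) :
    N ∣ dt r x ↔ N ∣ dt r y := by
  have h1 : N ∣ dt r x - dt r y := by
    unfold dt
    rw [← Finset.sum_sub_distrib]
    apply Finset.dvd_sum
    intro i _
    rw [← mul_sub]
    exact (h i).mul_left _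
  constructor
  · intro h2
    have := dvd_sub h2 h1
    rwa [sub_sub_cancel] at this
  · intro h2
    have := dvd_add h1 h2
    rwa [sub_add_cancel] at this

theorem MULT_cond (r : Fin 6 → ℤ) {N : ℕ} {x y : Fin 6 → ℤ} (h : ∀ i, (N : ℤ) ∣ x i - y i) :
    Int.gcd (Int.gcd (dt r x) (x 1)) N = 1 ↔ Int.gcd (Int.gcd (dt r y) (y 1)) N = 1 := by
  rw [MULT_gcd, MULT_gcd]
  apply forall_congr'
  intro p
  apply forall_congr'
  intro hp
  apply forall_congr'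
  intro hpN
  have h1 : ∀ i, (p : ℤ) ∣ x i - y i := fun i => (Int.natCast_dvd_natCast.mpr hpN).trans (h i)
  rw [MULT_dt r h1]
  have h2 : (p : ℤ) ∣ x 1 ↔ (p : ℤ) ∣ y 1 := by
    constructor
    · intro h2
      have := dvd_sub h2 (h1 1)
      rwa [sub_sub_cancel] at this
    · intro h2
      have := dvd_add (h1 1) h2
      rwa [sub_add_cancel] at this
  rw [h2]

theorem MULT_mem {N : ℕ} {r : Fin 6 → ℤ} {a b : Idx → ℤ} {x : Fin 6 → ℤ} :
    x ∈ gg N r a b ↔ (∀ i, 0 ≤ x i ∧ x i < N) ∧ (N : ℤ) ∣ Q a x ∧ (N : ℤ) ∣ Q b x ∧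
      Int.gcd (Int.gcd (dt r x) (x 1)) N = 1 := by
  unfold gg cs
  rw [Finset.mem_filter, Fintype.mem_piFinset]
  simp only [Finset.mem_Ico]

theorem p_MULT : Stmt_MULT := by
  classical
  intro m n r a b hm hn hco
  rw [← Finset.card_product]
  have hm' : (0 : ℤ) < m := by exact_mod_cast hm
  have hn' : (0 : ℤ) < n := by exact_mod_cast hn
  have hcoZ : IsCoprime (m : ℤ) (n : ℤ) := Nat.isCoprime_iff_coprime.mpr hco
  -- membership
  have key : ∀ (x y z : Fin 6 → ℤ), (∀ i, (m : ℤ) ∣ x i - y i) → (∀ i, (n : ℤ) ∣ x i - z i) →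
      ((((m * n : ℕ) : ℤ) ∣ Q a x ∧ ((m * n : ℕ) : ℤ) ∣ Q b x ∧
        Int.gcd (Int.gcd (dt r x) (x 1)) ((m * n : ℕ) : ℤ) = 1) ↔
      (((m : ℤ) ∣ Q a y ∧ (m : ℤ) ∣ Q b y ∧ Int.gcd (Int.gcd (dt r y) (y 1)) m = 1) ∧
        ((n : ℤ) ∣ Q a z ∧ (n : ℤ) ∣ Q b z ∧ Int.gcd (Int.gcd (dt r z) (z 1)) n = 1))) := by
    intro x y z h1 h2
    have hd : ∀ t : ℤ, ((m * n : ℕ) : ℤ) ∣ t ↔ (m : ℤ) ∣ t ∧ (n : ℤ) ∣ t := by
      intro t
      push_cast
      constructor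
      · intro h
        exact ⟨(dvd_mul_right _ _).trans h, (dvd_mul_left _ _).trans h⟩
      · rintro ⟨h3, h4⟩
        exact hcoZ.mul_dvd h3 h4
    have hg : Int.gcd (Int.gcd (dt r x) (x 1)) ((m * n : ℕ) : ℤ) = 1 ↔
        Int.gcd (Int.gcd (dt r x) (x 1)) m = 1 ∧ Int.gcd (Int.gcd (dt r x) (x 1)) n = 1 := by
      rw [MULT_gcd, MULT_gcd, MULT_gcd]
      constructor
      · intro h
        exact ⟨fun p hp hd => h p hp (hd.mul_right _), fun p hp hd => h p hp (hd.mul_left _)⟩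
      · rintro ⟨h3, h4⟩ p hp hd
        rcases (Nat.Prime.dvd_mul hp).mp hd with h | h
        · exact h3 p hp h
        · exact h4 p hp h
    rw [hd, hd, hg, MULT_dvd_Q a h1, MULT_dvd_Q a h2, MULT_dvd_Q b h1, MULT_dvd_Q b h2,
      MULT_cond r h1, MULT_cond r h2]
    tauto
  refine Finset.card_bij (fun x _ => ((fun i => x i % (m : ℤ)), (fun i => x i % (n : ℤ)))) ?_ ?_ ?_
  · intro x hx
    rw [MULT_mem] at hx
    rw [Finset.mem_product, MULT_mem, MULT_mem]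
    have h1 : ∀ i, (m : ℤ) ∣ x i - x i % (m : ℤ) := fun i => Int.dvd_self_sub_emod
    have h2 : ∀ i, (n : ℤ) ∣ x i - x i % (n : ℤ) := fun i => Int.dvd_self_sub_emod
    have h3 := (key x _ _ h1 h2).mp hx.2
    exact ⟨⟨fun i => ⟨Int.emod_nonneg _ hm'.ne', Int.emod_lt_of_pos _ hm'⟩, h3.1⟩,
      ⟨fun i => ⟨Int.emod_nonneg _ hn'.ne', Int.emod_lt_of_pos _ hn'⟩, h3.2⟩⟩
  · intro x hx y hy hxy
    rw [MULT_mem] at hx hy
    rw [Prod.mk.injEq] at hxy
    funext i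
    have h1 : x i % (m : ℤ) = y i % (m : ℤ) := congrFun hxy.1 i
    have h2 : x i % (n : ℤ) = y i % (n : ℤ) := congrFun hxy.2 i
    have h3 : (m : ℤ) ∣ x i - y i := Int.ModEq.dvd (show y i ≡ x i [ZMOD m] from h1.symm)
    have h4 : (n : ℤ) ∣ x i - y i := Int.ModEq.dvd (show y i ≡ x i [ZMOD n] from h2.symm)
    have h5 : (m : ℤ) * n ∣ x i - y i := hcoZ.mul_dvd h3 h4
    have h6 := hx.1 i
    have h7 := hy.1 i
    push_cast at h6 h7
    have h8 : |x i - y i| < (m : ℤ) * n := by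
      rw [abs_lt]
      constructor
      · linarith [h6.1, h7.2]
      · linarith [h6.2, h7.1]
    have h9 := Int.eq_zero_of_abs_lt_dvd h5 h8
    linarith
  · rintro ⟨y, z⟩ hyz
    rw [Finset.mem_product, MULT_mem, MULT_mem] at hyz
    obtain ⟨⟨hy, hy2⟩, ⟨hz, hz2⟩⟩ := hyz
    obtain ⟨u, v, huv⟩ := hcoZ
    set x : Fin 6 → ℤ := fun i => (y i * (v * n) + z i * (u * m)) % ((m * n : ℕ) : ℤ) with hx
    have hmn : (0 : ℤ) < ((m * n : ℕ) : ℤ) := by
      push_cast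
      positivity
    have h0 : ∀ i, ((m * n : ℕ) : ℤ) ∣ (y i * (v * n) + z i * (u * m)) - x i :=
      fun i => Int.dvd_self_sub_emod
    have h1 : ∀ i, (m : ℤ) ∣ x i - y i := by
      intro i
      have h2 : (m : ℤ) ∣ (y i * (v * n) + z i * (u * m)) - x i :=
        (by push_cast; exact dvd_mul_right _ _ : (m : ℤ) ∣ ((m * n : ℕ) : ℤ)).trans (h0 i)
      have h3 : (m : ℤ) ∣ (y i * (v * n) + z i * (u * m)) - y i := by
        refine ⟨z i * u - y i * u, ?_⟩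
        have : v * n = 1 - u * m := by linarith
        rw [this]
        ring
      have h4 := dvd_sub h3 h2
      rwa [sub_sub_sub_cancel_left] at h4
    have h2 : ∀ i, (n : ℤ) ∣ x i - z i := by
      intro i
      have h2 : (n : ℤ) ∣ (y i * (v * n) + z i * (u * m)) - x i :=
        (by push_cast; exact dvd_mul_left _ _ : (n : ℤ) ∣ ((m * n : ℕ) : ℤ)).trans (h0 i)
      have h3 : (n : ℤ) ∣ (y i * (v * n) + z i * (u * m)) - z i := by
        refine ⟨y i * v - z i * v, ?_⟩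
        have : u * m = 1 - v * n := by linarith
        rw [this]
        ring
      have h4 := dvd_sub h3 h2
      rwa [sub_sub_sub_cancel_left] at h4
    refine ⟨x, ?_, ?_⟩
    · rw [MULT_mem]
      exact ⟨fun i => ⟨Int.emod_nonneg _ hmn.ne', Int.emod_lt_of_pos _ hmn⟩,
        (key x y z h1 h2).mpr ⟨hy2, hz2⟩⟩
    · have hu : ∀ (N : ℤ) (s t : ℤ), N ∣ s - t → 0 ≤ t → t < N → s % N = t := by
        intro N s t h3 h4 h5
        have h6 : s % N = t % N := Int.ModEq.symm (Int.modEq_iff_dvd.mpr h3)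
        rw [h6, Int.emod_eq_of_lt h4 h5]
      rw [Prod.mk.injEq]
      constructor
      · funext i
        exact hu _ _ _ (h1 i) (hy i).1 (hy i).2
      · funext i
        exact hu _ _ _ (h2 i) (hz i).1 (hz i).2

end Pool.HPQ
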