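import Pool.Agent.Work.MP_9fb703_hp.InterfaceW
import Pool.Agent.Work.MP_9fb703_hp.B_MULT

/-! # Block MULTT: multiplicativity of the number of good solutions in a class -/

set_option autoImplicit false

namespace Pool.HPQ

open Finset

theorem MULTT_mem {n N : ℕ} {τ r : Fin 6 → ℤ} {a b : Idx → ℤ} {x : Fin 6 → ℤ} :
    x ∈ gt n N τ r a b ↔ ((∀ i, 0 ≤ x i ∧ x i < N) ∧ (N : ℤ) ∣ Q a x ∧ (N : ℤ) ∣ Q b x ∧
      Int.gcd (Int.gcd (dt r x) (x 1)) N = 1) ∧ ∀ l, (n : ℤ) ∣ x l - τ l := by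
  unfold gt
  rw [Finset.mem_filter, MULT_mem]

theorem p_MULTT : Stmt_MULTT := by
  classical
  intro d m n τ r a b hm hn hdm hco
  rw [← Finset.card_product]
  have hm' : (0 : ℤ) < m := by exact_mod_cast hm
  have hn' : (0 : ℤ) < n := by exact_mod_cast hn
  have hdm' : (d : ℤ) ∣ (m : ℤ) := Int.natCast_dvd_natCast.mpr hdm
  have hcoZ : IsCoprime (m : ℤ) (n : ℤ) := Nat.isCoprime_iff_coprime.mpr hco
  -- membership
  have key : ∀ (x y z : Fin 6 → ℤ), (∀ i, (m : ℤ) ∣ x i - y i) → (∀ i, (n : ℤ) ∣ x i - z i) →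
      ((((m * n : ℕ) : ℤ) ∣ Q a x ∧ ((m * n : ℕ) : ℤ) ∣ Q b x ∧
        Int.gcd (Int.gcd (dt r x) (x 1)) ((m * n : ℕ) : ℤ) = 1) ↔
      (((m : ℤ) ∣ Q a y ∧ (m : ℤ) ∣ Q b y ∧ Int.gcd (Int.gcd (dt r y) (y 1)) m = 1) ∧
        ((n : ℤ) ∣ Q a z ∧ (n : ℤ) ∣ Q b z ∧ Int.gcd (Int.gcd (dt r z) (z 1)) n = 1))) := by
    intro x y z h1 h2
    have hd : ∀ t : ℤ, ((m * n : ℕ) : ℤ) ∣ t ↔ (m : ℤ) ∣ t ∧ (n : ℤ) ∣ t := by
      intro t
      push_cast
      constructor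
      · intro h
        exact ⟨(dvd_mul_right _ _).trans h, (dvd_mul_left _ _).trans h⟩
      · rintro ⟨h3, h4⟩
        exact hcoZ.mul_dvd h3 h4
    have hg : Int.gcd (Int.gcd (dt r x) (x 1)) ((m * n : ℕ) : ℤ) = 1 ↔
        Int.gcd (Int.gcd (dt r x) (x 1)) m = 1 ∧ Int.gcd (Int.gcd (dt r x) (x 1)) n = 1 := by
      rw [MULT_gcd, MULT_gcd, MULT_gcd]
      constructor
      · intro h
        exact ⟨fun p hp hd => h p hp (hd.mul_right _), fun p hp hd => h p hp (hd.mul_left _)⟩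
      · rintro ⟨h3, h4⟩ p hp hd
        rcases (Nat.Prime.dvd_mul hp).mp hd with h | h
        · exact h3 p hp h
        · exact h4 p hp h
    rw [hd, hd, hg, MULT_dvd_Q a h1, MULT_dvd_Q a h2, MULT_dvd_Q b h1, MULT_dvd_Q b h2,
      MULT_cond r h1, MULT_cond r h2]
    tauto
  have hcl : ∀ (x y : Fin 6 → ℤ), (∀ i, (m : ℤ) ∣ x i - y i) →
      ((∀ l, (d : ℤ) ∣ x l - τ l) ↔ ∀ l, (d : ℤ) ∣ y l - τ l) := by
    intro x y h
    refine forall_congr' fun l => ?_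
    have h1 : (d : ℤ) ∣ x l - y l := hdm'.trans (h l)
    constructor
    · intro h2
      have h3 := dvd_sub h2 h1
      have h4 : x l - τ l - (x l - y l) = y l - τ l := by ring
      rwa [h4] at h3
    · intro h2
      have h3 := dvd_add h1 h2
      have h4 : x l - y l + (y l - τ l) = x l - τ l := by ring
      rwa [h4] at h3
  refine Finset.card_bij (fun x _ => ((fun i => x i % (m : ℤ)), (fun i => x i % (n : ℤ)))) ?_ ?_ ?_
  · intro x hx
    rw [MULTT_mem] at hx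
    rw [Finset.mem_product, MULTT_mem, MULT_mem]
    have h1 : ∀ i, (m : ℤ) ∣ x i - x i % (m : ℤ) := fun i => Int.dvd_self_sub_emod
    have h2 : ∀ i, (n : ℤ) ∣ x i - x i % (n : ℤ) := fun i => Int.dvd_self_sub_emod
    have h3 := (key x _ _ h1 h2).mp hx.1.2
    exact ⟨⟨⟨fun i => ⟨Int.emod_nonneg _ hm'.ne', Int.emod_lt_of_pos _ hm'⟩, h3.1⟩,
      (hcl x _ h1).mp hx.2⟩,
      ⟨fun i => ⟨Int.emod_nonneg _ hn'.ne', Int.emod_lt_of_pos _ hn'⟩, h3.2⟩⟩
  · intro x hx y hy hxy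
    rw [MULTT_mem] at hx hy
    rw [Prod.mk.injEq] at hxy
    funext i
    have h1 : x i % (m : ℤ) = y i % (m : ℤ) := congrFun hxy.1 i
    have h2 : x i % (n : ℤ) = y i % (n : ℤ) := congrFun hxy.2 i
    have h3 : (m : ℤ) ∣ x i - y i := Int.ModEq.dvd (show y i ≡ x i [ZMOD m] from h1.symm)
    have h4 : (n : ℤ) ∣ x i - y i := Int.ModEq.dvd (show y i ≡ x i [ZMOD n] from h2.symm)
    have h5 : (m : ℤ) * n ∣ x i - y i := hcoZ.mul_dvd h3 h4
    have h6 := hx.1.1 i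
    have h7 := hy.1.1 i
    push_cast at h6 h7
    have h8 : |x i - y i| < (m : ℤ) * n := by
      rw [abs_lt]
      constructor
      · linarith [h6.1, h7.2]
      · linarith [h6.2, h7.1]
    have h9 := Int.eq_zero_of_abs_lt_dvd h5 h8
    linarith
  · rintro ⟨y, z⟩ hyz
    rw [Finset.mem_product, MULTT_mem, MULT_mem] at hyz
    obtain ⟨⟨⟨hy, hy2⟩, hy3⟩, ⟨hz, hz2⟩⟩ := hyz
    obtain ⟨u, v, huv⟩ := hcoZ
    set x : Fin 6 → ℤ := fun i => (y i * (v * n) + z i * (u * m)) % ((m * n : ℕ) : ℤ) with hx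
    have hmn : (0 : ℤ) < ((m * n : ℕ) : ℤ) := by
      push_cast
      positivity
    have h0 : ∀ i, ((m * n : ℕ) : ℤ) ∣ (y i * (v * n) + z i * (u * m)) - x i :=
      fun i => Int.dvd_self_sub_emod
    have h1 : ∀ i, (m : ℤ) ∣ x i - y i := by
      intro i
      have h2 : (m : ℤ) ∣ (y i * (v * n) + z i * (u * m)) - x i :=
        (by push_cast; exact dvd_mul_right _ _ : (m : ℤ) ∣ ((m * n : ℕ) : ℤ)).trans (h0 i)
      have h3 : (m : ℤ) ∣ (y i * (v * n) + z i * (u * m)) - y i := by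
        refine ⟨z i * u - y i * u, ?_⟩
        have : v * n = 1 - u * m := by linarith
        rw [this]
        ring
      have h4 := dvd_sub h3 h2
      rwa [sub_sub_sub_cancel_left] at h4
    have h2 : ∀ i, (n : ℤ) ∣ x i - z i := by
      intro i
      have h2 : (n : ℤ) ∣ (y i * (v * n) + z i * (u * m)) - x i :=
        (by push_cast; exact dvd_mul_left _ _ : (n : ℤ) ∣ ((m * n : ℕ) : ℤ)).trans (h0 i)
      have h3 : (n : ℤ) ∣ (y i * (v * n) + z i * (u * m)) - z i := by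
        refine ⟨y i * v - z i * v, ?_⟩
        have : u * m = 1 - v * n := by linarith
        rw [this]
        ring
      have h4 := dvd_sub h3 h2
      rwa [sub_sub_sub_cancel_left] at h4
    refine ⟨x, ?_, ?_⟩
    · rw [MULTT_mem]
      exact ⟨⟨fun i => ⟨Int.emod_nonneg _ hmn.ne', Int.emod_lt_of_pos _ hmn⟩,
        (key x y z h1 h2).mpr ⟨hy2, hz2⟩⟩, (hcl x y h1).mpr hy3⟩
    · have hu : ∀ (N : ℤ) (s t : ℤ), N ∣ s - t → 0 ≤ t → t < N → s % N = t := by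
        intro N s t h3 h4 h5
        have h6 : s % N = t % N := Int.ModEq.symm (Int.modEq_iff_dvd.mpr h3)
        rw [h6, Int.emod_eq_of_lt h4 h5]
      rw [Prod.mk.injEq]
      constructor
      · funext i
        exact hu _ _ _ (h1 i) (hy i).1 (hy i).2
      · funext i
        exact hu _ _ _ (h2 i) (hz i).1 (hz i).2

end Pool.HPQ
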