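import Pool.Agent.Work.MP_9fb703_hp.Interface

/-! # Block P31 (helper53): balanced pairs -/

set_option autoImplicit false

namespace Pool.HPQ

open Finset

/-- the largest minor is attained -/
theorem P31_sup (x w : Fin 6 → ℤ) : ∃ q : Fin 6, (om x w 0 q).natAbs = De x w := by
  unfold De
  obtain ⟨q, -, hq⟩ := Finset.exists_mem_eq_sup (univ : Finset (Fin 6)) univ_nonempty
    (fun q => (om x w 0 q).natAbs)
  exact ⟨q, hq.symm⟩

/-- the basic estimate for the coefficient `β` of a row -/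
theorem P31_beta (x y w n : Fin 6 → ℤ) (a k k' α β yi xi g R : ℤ) (B T D : ℝ)
    (hD : 0 < D) (q : Fin 6) (hq : |((om x w 0 q : ℤ) : ℝ)| = D)
    (hy : ∀ i, y i = a * x i + g * w i) (hn : ∀ i, n i = α * x i + β * w i)
    (hx : ∀ i, |(x i : ℝ)| ≤ B)
    (h : ∀ j, |((k * (xi * x j) - k' * (yi * y j) - R * n j : ℤ) : ℝ)| ≤ T) :
    |((g * k' * yi + R * β : ℤ) : ℝ)| ≤ 2 * B * T / D := by
  have hT : 0 ≤ T := (abs_nonneg _).trans (h 0)
  have e : ((g * k' * yi + R * β : ℤ) : ℝ) * ((om x w 0 q : ℤ) : ℝ) =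
      ((k * (xi * x 0) - k' * (yi * y 0) - R * n 0 : ℤ) : ℝ) * (x q : ℝ) -
      ((k * (xi * x q) - k' * (yi * y q) - R * n q : ℤ) : ℝ) * (x 0 : ℝ) := by
    have : (g * k' * yi + R * β) * om x w 0 q =
      (k * (xi * x 0) - k' * (yi * y 0) - R * n 0) * x q -
      (k * (xi * x q) - k' * (yi * y q) - R * n q) * x 0 := by
      unfold om
      rw [hn 0, hn q, hy 0, hy q]
      ring
    exact_mod_cast this
  rw [le_div_iff₀ hD, ← hq, ← abs_mul, e]
  refine (abs_sub _ _).trans ?_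
  rw [abs_mul, abs_mul]
  have h1 := mul_le_mul (h 0) (hx q) (abs_nonneg _) hT
  have h2 := mul_le_mul (h q) (hx 0) (abs_nonneg _) hT
  linarith

theorem p_P31 (hF : Stmt_FIB) (hC : Stmt_CONT) (hR : Stmt_ROW) : Stmt_P31 := by
  classical
  intro R T B c M x y hc hc1 hB hM hR0 hTM hBT hx hy hx0 hy0 hcx hcy hDe hbal
  obtain ⟨hg, a, w, hyw, -, hDe2, hDw, hIn⟩ := hC x y hcx hDe
  set g : ℕ := ct x y with hgdef
  set D : ℝ := (De x w : ℝ) with hD
  have hgR : (0 : ℝ) < g := by exact_mod_cast hg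
  have hg1 : (1 : ℝ) ≤ g := by exact_mod_cast hg
  have hD0 : 0 < D := by rw [hD]; exact_mod_cast hDw
  have hB0 : 0 < B := by linarith
  have hDeR : (De x y : ℝ) = g * D := by rw [hD]; exact_mod_cast hDe2
  have hDd : Dd x y = D := by
    unfold Dd
    rw [hDeR, ← hgdef]
    field_simp
  have hRR : (0 : ℝ) < R := by exact_mod_cast hR0
  have hT0 : (0 : ℝ) < T := by
    have : (0 : ℝ) < 2 * B ^ 4 := by positivity
    linarith
  obtain ⟨q, hq⟩ := P31_sup x w
  have hqR : |((om x w 0 q : ℤ) : ℝ)| = D := by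
    rw [hD, ← hq, Nat.cast_natAbs]
    push_cast
    rfl
  -- coefficients of the rows
  have hcoef : ∀ s : ℤ × ℤ, ∃ z : (ℤ × ℤ) × (ℤ × ℤ), s ∈ Sol R T x y →
      (∀ j, row R x y 0 s j = z.1.1 * x j + z.1.2 * w j) ∧
      (∀ j, row R x y 1 s j = z.2.1 * x j + z.2.2 * w j) := by
    intro s
    by_cases hs : s ∈ Sol R T x y
    · obtain ⟨h1, h2⟩ := hbal s hs
      obtain ⟨α, β, h3⟩ := hIn _ h1
      obtain ⟨α', β', h4⟩ := hIn _ h2
      exact ⟨((α, β), (α', β')), fun _ => ⟨h3, h4⟩⟩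
    · exact ⟨((0, 0), (0, 0)), fun h => absurd h hs⟩
  choose z hz using hcoef
  set b0 : ℤ × ℤ → ℤ := fun s => (z s).1.2 with hb0
  set b1 : ℤ × ℤ → ℤ := fun s => (z s).2.2 with hb1
  set f2 : ℤ × ℤ → ℤ := fun s => b0 s * y 1 - b1 s * y 0 with hf2
  have hTle : ∀ s ∈ Sol R T x y, ∀ i j : Fin 6,
      |((s.1 * (x i * x j) - s.2 * (y i * y j) - R * row R x y i s j : ℤ) : ℝ)| ≤ T := by
    intro s hs i j
    have h := (hR R T x y hR0 s hs i j).1.le
    have h' : ((|s.1 * (x i * x j) - s.2 * (y i * y j) - R * row R x y i s j| : ℤ) : ℝ) ≤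
        ((T : ℤ) : ℝ) := Int.cast_le.2 h
    rw [Int.cast_abs] at h'
    simpa using h'
  have hbnd : ∀ s ∈ Sol R T x y,
      |((g * s.2 * y 0 + R * b0 s : ℤ) : ℝ)| ≤ 2 * B * T / D ∧
      |((g * s.2 * y 1 + R * b1 s : ℤ) : ℝ)| ≤ 2 * B * T / D := by
    intro s hs
    obtain ⟨h1, h2⟩ := hz s hs
    exact ⟨P31_beta x y w (row R x y 0 s) a s.1 s.2 _ _ (y 0) (x 0) g R B T D hD0 q hqR hyw h1 hx
        (fun j => hTle s hs 0 j),
      P31_beta x y w (row R x y 1 s) a s.1 s.2 _ _ (y 1) (x 1) g R B T D hD0 q hqR hyw h2 hx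
        (fun j => hTle s hs 1 j)⟩
  have hf2b : ∀ s ∈ Sol R T x y, |(f2 s : ℝ)| ≤ 4 * B ^ 2 / (M * D) := by
    intro s hs
    obtain ⟨h1, h2⟩ := hbnd s hs
    have e : (R : ℝ) * (f2 s : ℝ) = ((g * s.2 * y 0 + R * b0 s : ℤ) : ℝ) * y 1 -
        ((g * s.2 * y 1 + R * b1 s : ℤ) : ℝ) * y 0 := by
      have : (R : ℤ) * f2 s = (g * s.2 * y 0 + R * b0 s) * y 1 -
        (g * s.2 * y 1 + R * b1 s) * y 0 := by
        rw [hf2]; ring
      exact_mod_cast this
    have h3 : |(R : ℝ) * (f2 s : ℝ)| ≤ 4 * B ^ 2 * T / D := by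
      rw [e]
      refine (abs_sub _ _).trans ?_
      rw [abs_mul, abs_mul]
      have h4 := mul_le_mul h1 (hy 1) (abs_nonneg _) (by positivity)
      have h5 := mul_le_mul h2 (hy 0) (abs_nonneg _) (by positivity)
      have h6 : 4 * B ^ 2 * T / D = 2 * B * T / D * B + 2 * B * T / D * B := by ring
      rw [h6]
      linarith
    rw [abs_mul, abs_of_pos hRR, ← hTM] at h3
    have h7 : |(f2 s : ℝ)| * (T * M) ≤ 4 * B ^ 2 / (M * D) * (T * M) := by
      calc |(f2 s : ℝ)| * (T * M) = T * M * |(f2 s : ℝ)| := by ring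
        _ ≤ 4 * B ^ 2 * T / D := h3
        _ = 4 * B ^ 2 / (M * D) * (T * M) := by field_simp
    exact le_of_mul_le_mul_right h7 (by positivity)
  set F : ℕ := ⌊4 * B ^ 2 / (M * D)⌋₊ with hFdef
  have hf2F : ∀ s ∈ Sol R T x y, |f2 s| ≤ (F : ℤ) := by
    intro s hs
    have h1 := hf2b s hs
    have h2 : ((f2 s).natAbs : ℝ) ≤ 4 * B ^ 2 / (M * D) := by
      rw [Nat.cast_natAbs]
      push_cast
      exact h1
    have h3 := Nat.le_floor h2
    have h4 : ((f2 s).natAbs : ℤ) ≤ (F : ℤ) := by exact_mod_cast h3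
    rwa [Int.natCast_natAbs] at h4
  obtain ⟨u, v, huv⟩ := hcy
  set ee : ℤ × ℤ → ℤ := fun s => (u * b0 s + v * b1 s) % (g : ℤ) with hee
  have hee0 : ∀ s, 0 ≤ ee s ∧ ee s < g := fun s =>
    ⟨Int.emod_nonneg _ (by positivity), Int.emod_lt_of_pos _ (by positivity)⟩
  set cl : ℤ × ℤ → ℕ := fun s => (f2 s + F).toNat * g + (ee s).toNat with hcl
  have hclN : ∀ s ∈ Sol R T x y, cl s < (2 * F + 1) * g := by
    intro s hs
    have h1 := abs_le.1 (hf2F s hs)
    have h2 := hee0 s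
    have h3 : (f2 s + F).toNat ≤ 2 * F := by omega
    have h4 : (ee s).toNat < g := by omega
    calc cl s = (f2 s + F).toNat * g + (ee s).toNat := rfl
      _ < (f2 s + F).toNat * g + g := by omega
      _ = ((f2 s + F).toNat + 1) * g := by ring
      _ ≤ (2 * F + 1) * g := Nat.mul_le_mul_right _ (by omega)
  have hclass : ∀ s ∈ Sol R T x y, ∀ s' ∈ Sol R T x y, cl s = cl s' →
      (∃ p q : ℤ, ∀ j, row R x y 0 s j - row R x y 0 s' j = p * x j - q * y j) ∧
      (∃ p q : ℤ, ∀ j, row R x y 1 s j - row R x y 1 s' j = p * x j - q * y j) := by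
    intro s hs s' hs' hss
    have h1 := abs_le.1 (hf2F s hs)
    have h1' := abs_le.1 (hf2F s' hs')
    have h2 := hee0 s
    have h2' := hee0 s'
    have h3 : (ee s).toNat < g := by omega
    have h3' : (ee s').toNat < g := by omega
    have h4 : (f2 s + F).toNat = (f2 s' + F).toNat := by
      have e1 : cl s / g = (f2 s + F).toNat := by
        rw [hcl]
        show ((f2 s + F).toNat * g + (ee s).toNat) / g = _
        rw [mul_comm, Nat.mul_add_div hg, Nat.div_eq_of_lt h3, add_zero]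
      have e2 : cl s' / g = (f2 s' + F).toNat := by
        rw [hcl]
        show ((f2 s' + F).toNat * g + (ee s').toNat) / g = _
        rw [mul_comm, Nat.mul_add_div hg, Nat.div_eq_of_lt h3', add_zero]
      rw [← e1, ← e2, hss]
    have h5 : (ee s).toNat = (ee s').toNat := by
      have e1 : cl s = (f2 s + F).toNat * g + (ee s).toNat := rfl
      have e2 : cl s' = (f2 s' + F).toNat * g + (ee s').toNat := rfl
      rw [e1, e2, h4] at hss
      omega
    have h6 : f2 s = f2 s' := by omega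
    have h7 : ee s = ee s' := by omega
    have h8 : (g : ℤ) ∣ (u * b0 s + v * b1 s) - (u * b0 s' + v * b1 s') := by
      have : (u * b0 s + v * b1 s) % (g : ℤ) = (u * b0 s' + v * b1 s') % (g : ℤ) := h7
      exact Int.dvd_of_emod_eq_zero (Int.emod_eq_emod_iff_emod_sub_eq_zero.1 this)
    obtain ⟨d, hd⟩ := h8
    have hf : (b0 s - b0 s') * y 1 = (b1 s - b1 s') * y 0 := by
      have : b0 s * y 1 - b1 s * y 0 = b0 s' * y 1 - b1 s' * y 0 := h6
      linarith
    have hb0' : b0 s - b0 s' = g * d * y 0 := by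
      rw [← hd]
      calc b0 s - b0 s' = (b0 s - b0 s') * (u * y 0 + v * y 1) := by rw [huv, mul_one]
        _ = u * (b0 s - b0 s') * y 0 + v * ((b0 s - b0 s') * y 1) := by ring
        _ = (u * b0 s + v * b1 s - (u * b0 s' + v * b1 s')) * y 0 := by rw [hf]; ring
    have hb1' : b1 s - b1 s' = g * d * y 1 := by
      rw [← hd]
      calc b1 s - b1 s' = (b1 s - b1 s') * (u * y 0 + v * y 1) := by rw [huv, mul_one]
        _ = v * (b1 s - b1 s') * y 1 + u * ((b1 s - b1 s') * y 0) := by ring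
        _ = (u * b0 s + v * b1 s - (u * b0 s' + v * b1 s')) * y 1 := by rw [← hf]; ring
    obtain ⟨k1, k2⟩ := hz s hs
    obtain ⟨k1', k2'⟩ := hz s' hs'
    refine ⟨⟨(z s).1.1 - (z s').1.1 - d * y 0 * a, -(d * y 0), fun j => ?_⟩,
      ⟨(z s).2.1 - (z s').2.1 - d * y 1 * a, -(d * y 1), fun j => ?_⟩⟩
    · rw [k1 j, k1' j]
      have e : (z s).1.2 = (z s').1.2 + g * d * y 0 := by
        have : (z s).1.2 - (z s').1.2 = g * d * y 0 := hb0'
        linarith
      have e2 : (g : ℤ) * w j = y j - a * x j := by rw [hyw j]; ring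
      rw [e]
      calc (z s).1.1 * x j + ((z s').1.2 + g * d * y 0) * w j -
            ((z s').1.1 * x j + (z s').1.2 * w j)
          = ((z s).1.1 - (z s').1.1) * x j + d * y 0 * (g * w j) := by ring
        _ = ((z s).1.1 - (z s').1.1 - d * y 0 * a) * x j - -(d * y 0) * y j := by
            rw [e2]; ring
    · rw [k2 j, k2' j]
      have e : (z s).2.2 = (z s').2.2 + g * d * y 1 := by
        have : (z s).2.2 - (z s').2.2 = g * d * y 1 := hb1'
        linarith
      have e2 : (g : ℤ) * w j = y j - a * x j := by rw [hyw j]; ring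
      rw [e]
      calc (z s).2.1 * x j + ((z s').2.2 + g * d * y 1) * w j -
            ((z s').2.1 * x j + (z s').2.2 * w j)
          = ((z s).2.1 - (z s').2.1) * x j + d * y 1 * (g * w j) := by ring
        _ = ((z s).2.1 - (z s').2.1 - d * y 1 * a) * x j - -(d * y 1) * y j := by
            rw [e2]; ring
  have hmain := hF R T B c M x y hc hc1 hB hM hR0 hTM hBT hx hy hx0 hy0 hcx ⟨u, v, huv⟩ hDe
    ((2 * F + 1) * g) cl hclN hclass
  have hFle : (F : ℝ) ≤ 4 * B ^ 2 / (M * D) := Nat.floor_le (by positivity)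
  set K : ℝ := 1 + 16 * B ^ 2 / (M * D) with hK
  have hK0 : 0 < K := by positivity
  have h1 : (((2 * F + 1) * g : ℕ) : ℝ) ≤ K * g := by
    push_cast
    have : 2 * (F : ℝ) + 1 ≤ K := by
      have e : 16 * B ^ 2 / (M * D) = 4 * (4 * B ^ 2 / (M * D)) := by ring
      have h0 : 0 ≤ 4 * B ^ 2 / (M * D) := by positivity
      rw [hK, e]
      linarith
    gcongr
  have h2 : 1 + 16 * B ^ 2 / (M * (De x y : ℝ)) ≤ K := by
    rw [hDeR, hK]
    have : M * D ≤ M * (g * D) := by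
      have : D ≤ g * D := by nlinarith
      gcongr
    gcongr
  unfold PP
  rw [hDd]
  calc ((Sol R T x y).card : ℝ) / (R : ℝ) ^ 2
      ≤ (((2 * F + 1) * g : ℕ) : ℝ) * (1 + 16 * B ^ 2 / (M * (De x y : ℝ))) *
        (60 * T ^ 2 / (c ^ 2 * B ^ 2 * (De x y : ℝ))) / (R : ℝ) ^ 2 := by
        gcongr
    _ ≤ (K * g) * K * (60 * T ^ 2 / (c ^ 2 * B ^ 2 * (g * D))) / (R : ℝ) ^ 2 := by
        rw [← hDeR]
        have : 0 ≤ 60 * (T : ℝ) ^ 2 / (c ^ 2 * B ^ 2 * (De x y : ℝ)) := by positivity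
        gcongr
    _ = 60 * K ^ 2 / (c ^ 2 * M ^ 2 * B ^ 2 * D) := by
        rw [← hTM]
        field_simp

end Pool.HPQ
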