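import Pool.Agent.Work.MP_9fb703_hp.Interface

/-! # Block P32: balanced pairs with large `D` (note 2846, 3.2) -/

set_option autoImplicit false

namespace Pool.HPQ

open Finset

theorem P32_key {R T : ℕ} {B : ℝ} {x y w : Fin 6 → ℤ} {s : ℤ × ℤ} {a α β : ℤ} {g : ℕ} {i q : Fin 6}
    (hx : ∀ i, |(x i : ℝ)| ≤ B) (hyw : ∀ i, y i = a * x i + g * w i)
    (h0 : |s.1 * (x i * x 0) - s.2 * (y i * y 0) - R * (α * x 0 + β * w 0)| < (T : ℤ))
    (hq : |s.1 * (x i * x q) - s.2 * (y i * y q) - R * (α * x q + β * w q)| < (T : ℤ)) :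
    |((g * s.2 * y i + R * β : ℤ) : ℝ)| * |((om x w 0 q : ℤ) : ℝ)| ≤ 2 * B * T := by
  set E0 : ℤ := s.1 * (x i * x 0) - s.2 * (y i * y 0) - R * (α * x 0 + β * w 0) with hE0
  set Eq : ℤ := s.1 * (x i * x q) - s.2 * (y i * y q) - R * (α * x q + β * w q) with hEq
  have hid : (g * s.2 * y i + R * β) * om x w 0 q = x q * E0 - x 0 * Eq := by
    unfold om
    rw [hE0, hEq]
    linear_combination (x q * s.2 * y i) * hyw 0 - (x 0 * s.2 * y i) * hyw q
  have h0R : |(E0 : ℝ)| ≤ T := by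
    have : |E0| ≤ (T : ℤ) := h0.le
    exact_mod_cast this
  have hqR : |(Eq : ℝ)| ≤ T := by
    have : |Eq| ≤ (T : ℤ) := hq.le
    exact_mod_cast this
  rw [← abs_mul]
  have hidR : ((g * s.2 * y i + R * β : ℤ) : ℝ) * ((om x w 0 q : ℤ) : ℝ) =
      x q * E0 - x 0 * Eq := by
    exact_mod_cast hid
  rw [hidR]
  have hB : 0 ≤ B := (abs_nonneg _).trans (hx 0)
  have hT : (0 : ℝ) ≤ T := Nat.cast_nonneg T
  calc |(x q : ℝ) * E0 - x 0 * Eq| ≤ |(x q : ℝ) * E0| + |(x 0 : ℝ) * Eq| := abs_sub _ _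
    _ = |(x q : ℝ)| * |(E0 : ℝ)| + |(x 0 : ℝ)| * |(Eq : ℝ)| := by rw [abs_mul, abs_mul]
    _ ≤ B * T + B * T := by
      apply add_le_add
      · exact mul_le_mul (hx q) h0R (abs_nonneg _) hB
      · exact mul_le_mul (hx 0) hqR (abs_nonneg _) hB
    _ = 2 * B * T := by ring

theorem p_P32 (h1 : Stmt_CONT) (h2 : Stmt_ROW) : Stmt_P32 := by
  intro R T B c M x y hc hc1 hB hM hR hTM hx hy hx0 hy0 hcx hcy hDe hBal hbig s hs
  obtain ⟨hg, a, w, hyw, hom, hDe2, hDw, hIn⟩ := h1 x y hcx hDe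
  obtain ⟨hI0, hI1⟩ := hBal s hs
  obtain ⟨α₀, β₀, hn0⟩ := hIn _ hI0
  obtain ⟨α₁, β₁, hn1⟩ := hIn _ hI1
  have hgR : (0 : ℝ) < ct x y := by exact_mod_cast hg
  have hD : Dd x y = De x w := by
    unfold Dd
    rw [hDe2]
    push_cast
    field_simp
  rw [hD] at hbig ⊢
  obtain ⟨q, -, hq⟩ := Finset.exists_mem_eq_sup (univ : Finset (Fin 6)) ⟨0, mem_univ _⟩
    (fun q => (om x w 0 q).natAbs)
  have hq' : |((om x w 0 q : ℤ) : ℝ)| = De x w := by
    have h3 : De x w = (om x w 0 q).natAbs := hq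
    rw [h3, ← Int.cast_abs, Int.abs_eq_natAbs]
    norm_num
  have hDR : (0 : ℝ) < De x w := by exact_mod_cast hDw
  have hRR : (0 : ℝ) < R := by exact_mod_cast hR
  have k0 := P32_key (T := T) (R := R) (B := B) (s := s) (α := α₀) (β := β₀) (i := 0) (q := q) hx hyw
    (by
      have h3 := (h2 R T x y hR s hs 0 0).1
      rwa [hn0 0] at h3)
    (by
      have h3 := (h2 R T x y hR s hs 0 q).1
      rwa [hn0 q] at h3)
  have k1 := P32_key (T := T) (R := R) (B := B) (s := s) (α := α₁) (β := β₁) (i := 1) (q := q) hx hyw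
    (by
      have h3 := (h2 R T x y hR s hs 1 0).1
      rwa [hn1 0] at h3)
    (by
      have h3 := (h2 R T x y hR s hs 1 q).1
      rwa [hn1 q] at h3)
  rw [hq'] at k0 k1
  set f0 : ℤ := ct x y * s.2 * y 0 + R * β₀ with hf0
  set f1 : ℤ := ct x y * s.2 * y 1 + R * β₁ with hf1
  have hT : (0 : ℝ) ≤ T := Nat.cast_nonneg T
  -- the minor of the betas vanishes
  have hf2 : β₀ * y 1 - β₁ * y 0 = 0 := by
    by_contra hne
    have h3 : (1 : ℝ) ≤ |((β₀ * y 1 - β₁ * y 0 : ℤ) : ℝ)| := by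
      exact_mod_cast Int.one_le_abs hne
    have h4 : (R : ℝ) * ((β₀ * y 1 - β₁ * y 0 : ℤ) : ℝ) = f0 * y 1 - f1 * y 0 := by
      rw [hf0, hf1]
      push_cast
      ring
    have h5 : (R : ℝ) * |((β₀ * y 1 - β₁ * y 0 : ℤ) : ℝ)| ≤ |(f0 : ℝ)| * B + |(f1 : ℝ)| * B := by
      have h6 : |(R : ℝ) * ((β₀ * y 1 - β₁ * y 0 : ℤ) : ℝ)| = R * |((β₀ * y 1 - β₁ * y 0 : ℤ) : ℝ)| := by
        rw [abs_mul, abs_of_pos hRR]
      rw [← h6, h4]
      refine (abs_sub _ _).trans ?_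
      rw [abs_mul, abs_mul]
      apply add_le_add
      · exact mul_le_mul_of_nonneg_left (hy 1) (abs_nonneg _)
      · exact mul_le_mul_of_nonneg_left (hy 0) (abs_nonneg _)
    have h6 : (R : ℝ) ≤ |(f0 : ℝ)| * B + |(f1 : ℝ)| * B := by nlinarith
    have h7 : (R : ℝ) * De x w ≤ 4 * B ^ 2 * T := by
      have h8 := mul_le_mul_of_nonneg_right h6 hDR.le
      have h9 := mul_le_mul_of_nonneg_right k0 (by linarith : (0 : ℝ) ≤ B)
      have h10 := mul_le_mul_of_nonneg_right k1 (by linarith : (0 : ℝ) ≤ B)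
      nlinarith
    rw [← hTM] at h7
    have hTpos : (0 : ℝ) < T := by
      rcases eq_or_lt_of_le hT with h | h
      · rw [← h] at hTM
        linarith
      · exact h
    have h11 : (T : ℝ) * (M * De x w) ≤ T * (4 * B ^ 2) := by linarith
    have h12 := le_of_mul_le_mul_left h11 hTpos
    linarith
  -- so the betas are multiples of the coordinates
  have hy0pos : (0 : ℝ) < y 0 := lt_of_lt_of_le (by positivity) hy0
  have hy0Z : y 0 ≠ 0 := by
    intro h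
    rw [h] at hy0pos
    simp at hy0pos
  have hdvd : y 0 ∣ β₀ := by
    have h3 : y 0 ∣ β₀ * y 1 := ⟨β₁, by linarith⟩
    exact hcy.dvd_of_dvd_mul_right h3
  obtain ⟨d, hd⟩ := hdvd
  refine ⟨ct x y * s.2 + R * d, d, by ring, ?_⟩
  have h3 : f0 = y 0 * (ct x y * s.2 + R * d) := by
    rw [hf0, hd]
    ring
  have h4 : |(f0 : ℝ)| = y 0 * |((ct x y * s.2 + R * d : ℤ) : ℝ)| := by
    rw [h3]
    push_cast
    rw [abs_mul, abs_of_pos hy0pos]
  rw [h4] at k0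
  rw [le_div_iff₀ (by positivity)]
  have h5 : c * B * (|((ct x y * s.2 + R * d : ℤ) : ℝ)| * De x w) ≤ 2 * B * T := by
    have h6 : c * B * (|((ct x y * s.2 + R * d : ℤ) : ℝ)| * De x w) ≤
        y 0 * (|((ct x y * s.2 + R * d : ℤ) : ℝ)| * De x w) :=
      mul_le_mul_of_nonneg_right hy0 (by positivity)
    linarith
  have hBpos : 0 < B := by linarith
  have h7 : B * (|((ct x y * s.2 + R * d : ℤ) : ℝ)| * (c * De x w)) ≤ B * (2 * T) := by
    linarith
  exact le_of_mul_le_mul_left h7 hBpos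

end Pool.HPQ
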