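import Pool.Agent.Work.MP_9fb703_hp.Interface

/-! # Block PADIC (helper17): the finite places -/

set_option autoImplicit false

namespace Pool.HPQ

open Finset

namespace PADICaux

/-- reduction modulo `N` -/
def md (N : ℕ) (a : Idx → ℤ) : Idx → ℤ := fun q => a q % (N : ℤ)

theorem md_mem (N : ℕ) (hN : 0 < N) (a : Idx → ℤ) : md N a ∈ cs N Idx := by
  unfold cs
  rw [Fintype.mem_piFinset]
  intro q
  rw [mem_Ico]
  have h : (0 : ℤ) < N := by exact_mod_cast hN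
  exact ⟨Int.emod_nonneg _ h.ne', Int.emod_lt_of_pos _ h⟩

theorem md_dvd (N : ℕ) (a : Idx → ℤ) (q : Idx) : (N : ℤ) ∣ a q - md N a q := by
  unfold md
  rw [Int.emod_def]
  exact ⟨a q / N, by ring⟩

theorem md_md (M N : ℕ) (h : M ∣ N) (a : Idx → ℤ) : md M (md N a) = md M a := by
  funext q
  unfold md
  exact Int.emod_emod_of_dvd _ (by exact_mod_cast h)

theorem card_cs (N : ℕ) : (cs N Idx).card = N ^ 21 := by
  unfold cs
  rw [Fintype.card_piFinset]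
  have h : Fintype.card Idx = 21 := by decide
  simp [h]

theorem Q_dvd (N : ℤ) (a a' : Idx → ℤ) (h : ∀ q, N ∣ a q - a' q) (x : Fin 6 → ℤ) :
    N ∣ Q a x - Q a' x := by
  unfold Q
  rw [← Finset.sum_sub_distrib]
  apply Finset.dvd_sum
  intro q _
  rw [← sub_mul]
  exact (h q).mul_right _

theorem G_dvd (N : ℤ) (a a' : Idx → ℤ) (h : ∀ q, N ∣ a q - a' q) (x : Fin 6 → ℤ) (i : Fin 6) :
    N ∣ G a x i - G a' x i := by
  unfold G
  rw [← Finset.sum_sub_distrib]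
  apply Finset.dvd_sum
  intro q _
  rw [← sub_mul]
  exact (h q).mul_right _

theorem mn_dvd (N : ℤ) (a a' b b' : Idx → ℤ) (ha : ∀ q, N ∣ a q - a' q)
    (hb : ∀ q, N ∣ b q - b' q) (x : Fin 6 → ℤ) (i j : Fin 6) :
    N ∣ mn a b x i j - mn a' b' x i j := by
  unfold mn
  have h1 := G_dvd N a a' ha x i
  have h2 := G_dvd N a a' ha x j
  have h3 := G_dvd N b b' hb x i
  have h4 := G_dvd N b b' hb x j
  have e : G a x i * G b x j - G a x j * G b x i - (G a' x i * G b' x j - G a' x j * G b' x i) =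
      (G a x i - G a' x i) * G b x j + G a' x i * (G b x j - G b' x j) -
      ((G a x j - G a' x j) * G b x i + G a' x j * (G b x i - G b' x i)) := by ring
  rw [e]
  exact dvd_sub (dvd_add (h1.mul_right _) (h4.mul_left _)) (dvd_add (h2.mul_right _) (h3.mul_left _))

theorem sing_md (p e : ℕ) (a b : Idx → ℤ) (h : SingP p e a b) :
    SingP p e (md (p ^ e) a) (md (p ^ e) b) := by
  obtain ⟨x, h1, h2, h3, h4⟩ := h
  refine ⟨x, h1, ?_, ?_, ?_⟩
  · have h5 := Q_dvd ((p ^ e : ℕ) : ℤ) a (md (p ^ e) a) (md_dvd _ a) x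
    exact (dvd_sub_right h2).1 h5
  · have h5 := Q_dvd ((p ^ e : ℕ) : ℤ) b (md (p ^ e) b) (md_dvd _ b) x
    exact (dvd_sub_right h3).1 h5
  · intro i j
    have h5 := mn_dvd ((p ^ e : ℕ) : ℤ) a (md (p ^ e) a) b (md (p ^ e) b) (md_dvd _ a)
      (md_dvd _ b) x i j
    exact (dvd_sub_right (h4 i j)).1 h5

theorem boxm (h : Stmt_BOXM) (N A : ℕ) (S T : Finset ((Idx → ℤ) × (Idx → ℤ))) (hN : 1 ≤ N)
    (hA : 42 * N ≤ A) (hS : S ⊆ cs N Idx ×ˢ cs N Idx) (hT : T ⊆ Box A ×ˢ Box A)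
    (hTS : ∀ z ∈ T, (md N z.1, md N z.2) ∈ S) :
    (T.card : ℝ) * (N : ℝ) ^ 42 ≤ 3 * S.card * (2 * (A : ℝ) + 1) ^ 42 := by
  have h1 := h N A S hN hA hS
  refine le_trans (mul_le_mul_of_nonneg_right (Nat.cast_le.2 (Finset.card_le_card ?_))
    (by positivity)) h1
  intro z hz
  rw [mem_filter]
  exact ⟨hT hz, hTS z hz⟩

open Classical in
theorem sing_count (h1 : Stmt_SNGP) (h2 : Stmt_BOXM) (p e A : ℕ) (hp : p.Prime) (he : 1 ≤ e)
    (hA : 42 * p ^ e ≤ A) :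
    (((Box A ×ˢ Box A).filter fun z => SingP p e z.1 z.2).card : ℝ) ≤
      36 / (p : ℝ) ^ e * (2 * (A : ℝ) + 1) ^ 42 := by
  have hp0 : 0 < (p : ℝ) := by exact_mod_cast hp.pos
  have hN : 1 ≤ p ^ e := Nat.one_le_pow _ _ hp.pos
  have h3 := boxm h2 (p ^ e) A ((cs (p ^ e) Idx ×ˢ cs (p ^ e) Idx).filter fun z =>
    SingP p e z.1 z.2) ((Box A ×ˢ Box A).filter fun z => SingP p e z.1 z.2) hN hA
    (Finset.filter_subset _ _) (Finset.filter_subset _ _) (by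
      intro z hz
      rw [mem_filter] at hz ⊢
      exact ⟨mem_product.2 ⟨md_mem _ hN _, md_mem _ hN _⟩, sing_md p e _ _ hz.2⟩)
  have h4 := h1 p e hp he
  set X := (2 * (A : ℝ) + 1) ^ 42 with hX
  have hX0 : 0 ≤ X := by positivity
  have h5 : ((p ^ e : ℕ) : ℝ) = (p : ℝ) ^ e := by push_cast; rfl
  rw [h5] at h3
  have hq : 0 < ((p : ℝ) ^ e) ^ 42 := by positivity
  have h6 : (((Box A ×ˢ Box A).filter fun z => SingP p e z.1 z.2).card : ℝ) *
      ((p : ℝ) ^ e) ^ 42 ≤ (36 / (p : ℝ) ^ e * X) * ((p : ℝ) ^ e) ^ 42 := by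
    refine h3.trans ?_
    calc 3 * (((cs (p ^ e) Idx ×ˢ cs (p ^ e) Idx).filter fun z => SingP p e z.1 z.2).card : ℝ) * X
        ≤ 3 * (12 / (p : ℝ) ^ e * ((p : ℝ) ^ e) ^ 42) * X := by
          apply mul_le_mul_of_nonneg_right _ hX0
          exact mul_le_mul_of_nonneg_left h4 (by norm_num)
      _ = (36 / (p : ℝ) ^ e * X) * ((p : ℝ) ^ e) ^ 42 := by ring
  exact le_of_mul_le_mul_right h6 hq

/-- counting over two coprime moduli -/
theorem crt_count (h : Stmt_SIG2) (hG : Stmt_GRED) (w₀ P₀ W₀ W₁ : ℕ)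
    (T₀ : (Idx → ℤ) → (Idx → ℤ) → Fin 6 → ℤ) (hT : ∀ α β, T₀ α β 0 = 1) (s : Fin 6)
    (hw : 1 ≤ w₀) (h0 : 0 < W₀) (h1 : 0 < W₁) (hc : W₀.Coprime W₁)
    (hp : ∀ p, p.Prime → p ∣ W₁ → w₀ < p) (S : Finset ((Idx → ℤ) × (Idx → ℤ)))
    (hS : S ⊆ cs (W₀ * W₁) Idx ×ˢ cs (W₀ * W₁) Idx)
    (hS2 : ∀ z ∈ S, 2 * (gg W₁ (rv P₀ (T₀ (md W₀ z.1) (md W₀ z.2)) s) z.1 z.2).card < W₁ ^ 4) :
    (S.card : ℝ) ≤ 16 / w₀ * ((W₀ * W₁ : ℕ) : ℝ) ^ 42 := by
  classical
  set U : Finset (((Idx → ℤ) × (Idx → ℤ)) × ((Idx → ℤ) × (Idx → ℤ))) :=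
    ((cs W₀ Idx ×ˢ cs W₀ Idx) ×ˢ (cs W₁ Idx ×ˢ cs W₁ Idx)).filter fun u =>
      2 * (gg W₁ (rv P₀ (T₀ u.1.1 u.1.2) s) u.2.1 u.2.2).card < W₁ ^ 4 with hU
  have hcard : S.card ≤ U.card := by
    apply Finset.card_le_card_of_injOn
      (fun z => ((md W₀ z.1, md W₀ z.2), (md W₁ z.1, md W₁ z.2)))
    · intro z hz
      have hz := Finset.mem_coe.1 hz
      rw [Finset.mem_coe, hU, mem_filter]
      refine ⟨mem_product.2 ⟨mem_product.2 ⟨md_mem _ h0 _, md_mem _ h0 _⟩,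
        mem_product.2 ⟨md_mem _ h1 _, md_mem _ h1 _⟩⟩, ?_⟩
      have h2 := hS2 z hz
      have h3 := hG W₁ (rv P₀ (T₀ (md W₀ z.1) (md W₀ z.2)) s)
        (rv P₀ (T₀ (md W₀ z.1) (md W₀ z.2)) s) z.1 z.2 (md W₁ z.1) (md W₁ z.2) h1
        (md_dvd _ _) (md_dvd _ _) (fun p _ _ i => by simp)
      rw [h3] at h2
      exact h2
    · have key : ∀ u v : Idx → ℤ, u ∈ cs (W₀ * W₁) Idx → v ∈ cs (W₀ * W₁) Idx →
          md W₀ u = md W₀ v → md W₁ u = md W₁ v → u = v := by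
        intro u v hu hv e0 e1
        funext q
        unfold cs at hu hv
        have hu1 := mem_Ico.1 (Fintype.mem_piFinset.1 hu q)
        have hv1 := mem_Ico.1 (Fintype.mem_piFinset.1 hv q)
        have d0 : (W₀ : ℤ) ∣ u q - v q := by
          have h2 := congrFun e0 q
          have h3 := dvd_sub (md_dvd W₀ u q) (md_dvd W₀ v q)
          rw [h2] at h3
          have h4 : u q - md W₀ v q - (v q - md W₀ v q) = u q - v q := by ring
          rw [h4] at h3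
          exact h3
        have d1 : (W₁ : ℤ) ∣ u q - v q := by
          have h2 := congrFun e1 q
          have h3 := dvd_sub (md_dvd W₁ u q) (md_dvd W₁ v q)
          rw [h2] at h3
          have h4 : u q - md W₁ v q - (v q - md W₁ v q) = u q - v q := by ring
          rw [h4] at h3
          exact h3
        have hco : IsCoprime (W₀ : ℤ) (W₁ : ℤ) := Nat.isCoprime_iff_coprime.2 hc
        have d2 : ((W₀ * W₁ : ℕ) : ℤ) ∣ u q - v q := by
          push_cast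
          exact hco.mul_dvd d0 d1
        have h5 : u q - v q = 0 := by
          apply Int.eq_zero_of_abs_lt_dvd d2
          rw [abs_lt]
          constructor <;> linarith [hu1.1, hu1.2, hv1.1, hv1.2]
        linarith
      intro z hz z' hz' he
      have hz1 := mem_product.1 (hS (Finset.mem_coe.1 hz))
      have hz2 := mem_product.1 (hS (Finset.mem_coe.1 hz'))
      simp only [Prod.mk.injEq] at he
      exact Prod.ext (key _ _ hz1.1 hz2.1 he.1.1 he.2.1) (key _ _ hz1.2 hz2.2 he.1.2 he.2.2)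
  have hU2 : (U.card : ℝ) ≤ ∑ u ∈ cs W₀ Idx ×ˢ cs W₀ Idx, 16 / (w₀ : ℝ) * (W₁ : ℝ) ^ 42 := by
    rw [hU, Finset.card_filter, Finset.sum_product]
    push_cast
    apply Finset.sum_le_sum
    intro u _
    have h2 := h w₀ W₁ (rv P₀ (T₀ u.1 u.2) s) hw h1 hp (by
      unfold rv
      rw [hT]
      by_cases hs : s ≠ 0 ∧ (0 : Fin 6) = s
      · exact absurd hs.2.symm hs.1
      · rw [if_neg hs, add_zero])
    rw [Finset.card_filter] at h2
    push_cast at h2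
    refine le_trans (le_of_eq ?_) h2
    apply Finset.sum_congr rfl
    intro v _
    by_cases hv : 2 * (gg W₁ (rv P₀ (T₀ u.1 u.2) s) v.1 v.2).card < W₁ ^ 4
    · simp only [if_pos hv]
    · simp only [if_neg hv]
  have hc0 : ((cs W₀ Idx ×ˢ cs W₀ Idx).card : ℝ) = (W₀ : ℝ) ^ 42 := by
    rw [Finset.card_product, card_cs]
    push_cast
    ring
  rw [Finset.sum_const, nsmul_eq_mul, hc0] at hU2
  calc (S.card : ℝ) ≤ U.card := by exact_mod_cast hcard
    _ ≤ (W₀ : ℝ) ^ 42 * (16 / (w₀ : ℝ) * (W₁ : ℝ) ^ 42) := hU2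
    _ = 16 / w₀ * ((W₀ * W₁ : ℕ) : ℝ) ^ 42 := by
      push_cast
      ring

theorem fin_step (c a b u v : ℝ) (hc : 0 < c) (ha : 0 < a) (hg : a ^ 4 ≤ c * u)
    (h : u * v < 1 / (2 * c) * (a * b) ^ 4) : 2 * v < b ^ 4 := by
  have ha4 : 0 < a ^ 4 := by positivity
  have hcu : 0 < c * u := lt_of_lt_of_le ha4 hg
  have h1 : 2 * c * (u * v) < a ^ 4 * b ^ 4 := by
    have h8 : 1 / (2 * c) * (a * b) ^ 4 = (a ^ 4 * b ^ 4) / (2 * c) := by
      field_simp
    rw [h8, lt_div_iff₀ (by positivity)] at h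
    linarith
  have h9 : a ^ 4 * b ^ 4 ≤ c * u * b ^ 4 := mul_le_mul_of_nonneg_right hg (by positivity)
  have h10 : (c * u) * (2 * v) < (c * u) * b ^ 4 := by linarith
  exact lt_of_mul_lt_mul_left h10 hcu.le

end PADICaux

open PADICaux in
theorem p_PADIC (h1 : Stmt_PAD1) (h2 : Stmt_SNGP) (h3 : Stmt_SIG2) (h4 : Stmt_MULT)
    (h5 : Stmt_GRED) (h6 : Stmt_BOXM) : Stmt_PADIC := by
  classical
  intro ε hε
  obtain ⟨w₀, hw₀⟩ := exists_nat_gt (576 / ε)
  have hw₀pos : 0 < (w₀ : ℝ) := lt_trans (by positivity) hw₀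
  have hw1 : 1 ≤ w₀ := by exact_mod_cast hw₀pos
  obtain ⟨e, he⟩ := exists_nat_gt (72 * w₀ / ε)
  have hepos : 0 < (e : ℝ) := lt_trans (by positivity) he
  have he1 : 1 ≤ e := by exact_mod_cast hepos
  set P := (range (w₀ + 1)).filter Nat.Prime with hP
  set P₀ := ∏ p ∈ P, p with hP₀
  set P8 := ∏ p ∈ P, p ^ (8 * e) with hP8
  have hPpr : ∀ p ∈ P, p.Prime := fun p hp => (mem_filter.1 hp).2
  have hP₀pos : 0 < P₀ := Finset.prod_pos fun p hp => (hPpr p hp).pos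
  have hP8pos : 0 < P8 := Finset.prod_pos fun p hp => pow_pos (hPpr p hp).pos _
  have hP8r : (0 : ℝ) < P8 := by exact_mod_cast hP8pos
  refine ⟨P₀, 1 / (2 * P8), max w₀ (2 * e), hP₀pos, by positivity, ?_⟩
  intro w hw
  have hww₀ : w₀ ≤ w := le_trans (le_max_left _ _) hw
  have hwe : 2 * e ≤ w := le_trans (le_max_right _ _) hw
  set R := ((range (w + 1)).filter Nat.Prime).filter fun p => w₀ < p with hR
  set W₀ := ∏ p ∈ P, p ^ w with hW₀
  set W₁ := ∏ p ∈ R, p ^ w with hW₁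
  have hRpr : ∀ p ∈ R, p.Prime ∧ w₀ < p := fun p hp =>
    ⟨(mem_filter.1 (mem_filter.1 hp).1).2, (mem_filter.1 hp).2⟩
  have hW : Ww w = W₀ * W₁ := by
    unfold Ww
    rw [← Finset.prod_filter_not_mul_prod_filter _ (fun p => w₀ < p)]
    congr 1
    rw [hW₀]
    apply Finset.prod_congr _ fun _ _ => rfl
    rw [hP]
    ext p
    simp only [mem_filter, mem_range, not_lt]
    constructor
    · rintro ⟨⟨h7, h8⟩, h9⟩
      exact ⟨by omega, h8⟩
    · rintro ⟨h7, h8⟩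
      exact ⟨⟨by omega, h8⟩, by omega⟩
  have hW₀pos : 0 < W₀ := Finset.prod_pos fun p hp => pow_pos (hPpr p hp).pos _
  have hW₁pos : 0 < W₁ := Finset.prod_pos fun p hp => pow_pos (hRpr p hp).1.pos _
  have hcop : W₀.Coprime W₁ := by
    apply Nat.Coprime.prod_left
    intro p hp
    apply Nat.Coprime.prod_right
    intro q hq
    apply Nat.Coprime.pow
    rw [Nat.coprime_primes (hPpr p hp) (hRpr q hq).1]
    have h7 := mem_range.1 (mem_filter.1 hp).1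
    have h8 := (hRpr q hq).2
    omega
  have hpW₁ : ∀ p, p.Prime → p ∣ W₁ → w₀ < p := by
    intro p hp hd
    obtain ⟨q, hq, hpq⟩ := (Prime.dvd_finsetProd_iff hp.prime _).1 hd
    have h7 := hp.dvd_of_dvd_pow hpq
    rw [(Nat.prime_dvd_prime_iff_eq hp (hRpr q hq).1).1 h7]
    exact (hRpr q hq).2
  have hpW₀ : ∀ p, p.Prime → p ∣ W₀ → p ∣ P₀ := by
    intro p hp hd
    obtain ⟨q, hq, hpq⟩ := (Prime.dvd_finsetProd_iff hp.prime _).1 hd
    have h7 := hp.dvd_of_dvd_pow hpq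
    rw [(Nat.prime_dvd_prime_iff_eq hp (hPpr q hq)).1 h7]
    exact Finset.dvd_prod_of_mem _ hq
  -- the choice of `t`
  set T₀ : (Idx → ℤ) → (Idx → ℤ) → Fin 6 → ℤ := fun α β =>
    if h : ∃ t, Adm P₀ t ∧ W₀ ^ 4 ≤ P8 * (gg W₀ t α β).card then h.choose
    else fun i => if i = 0 then 1 else 0 with hT₀
  have hT₀adm : ∀ α β, Adm P₀ (T₀ α β) := by
    intro α β
    by_cases h : ∃ t, Adm P₀ t ∧ W₀ ^ 4 ≤ P8 * (gg W₀ t α β).card
    · have h7 : T₀ α β = h.choose := by rw [hT₀]; exact dif_pos h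
      rw [h7]
      exact h.choose_spec.1
    · have h7 : T₀ α β = fun i => if i = 0 then 1 else 0 := by rw [hT₀]; exact dif_neg h
      rw [h7]
      refine ⟨rfl, fun i => ?_⟩
      have h8 : (1 : ℤ) ≤ P₀ := by exact_mod_cast hP₀pos
      by_cases hi : i = 0
      · simp only [hi, if_true]
        exact ⟨by norm_num, h8⟩
      · simp only [hi, if_false]
        exact ⟨le_rfl, by linarith⟩
  refine ⟨42 * Ww w, ?_⟩
  intro A hA
  refine ⟨fun a b => T₀ (md W₀ a) (md W₀ b), fun a b => hT₀adm _ _, ?_⟩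
  set X := (2 * (A : ℝ) + 1) ^ 42 with hX
  have hX0 : 0 ≤ X := by positivity
  -- the two kinds of exceptional sets
  set SS : ℕ → Finset ((Idx → ℤ) × (Idx → ℤ)) := fun p =>
    (Box A ×ˢ Box A).filter fun z => SingP p e z.1 z.2 with hSS
  set SR : Fin 6 → Finset ((Idx → ℤ) × (Idx → ℤ)) := fun s =>
    (cs (W₀ * W₁) Idx ×ˢ cs (W₀ * W₁) Idx).filter fun z =>
      2 * (gg W₁ (rv P₀ (T₀ (md W₀ z.1) (md W₀ z.2)) s) z.1 z.2).card < W₁ ^ 4 with hSR
  set TT : Fin 6 → Finset ((Idx → ℤ) × (Idx → ℤ)) := fun s =>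
    (Box A ×ˢ Box A).filter fun z => (md (W₀ * W₁) z.1, md (W₀ * W₁) z.2) ∈ SR s with hTT
  have hsub : ((Box A ×ˢ Box A).filter fun z => (∀ (p : ℕ) [Fact p.Prime], PadicSol p z.1 z.2) ∧
        ∃ s : Fin 6, ((gg (Ww w) (rv P₀ (T₀ (md W₀ z.1) (md W₀ z.2)) s) z.1 z.2).card : ℝ) <
          1 / (2 * P8) * (Ww w : ℝ) ^ 4) ⊆ (P.biUnion SS) ∪ (univ.biUnion TT) := by
    intro z hz
    obtain ⟨hz1, hz2, s, hs⟩ := mem_filter.1 hz
    by_cases hsing : ∃ p ∈ P, SingP p e z.1 z.2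
    · obtain ⟨p, hp, hps⟩ := hsing
      exact mem_union_left _ (mem_biUnion.2 ⟨p, hp, mem_filter.2 ⟨hz1, hps⟩⟩)
    · apply mem_union_right
      refine mem_biUnion.2 ⟨s, mem_univ s, mem_filter.2 ⟨hz1, ?_⟩⟩
      rw [hSR]
      rw [mem_filter]
      have hWpos : 0 < W₀ * W₁ := Nat.mul_pos hW₀pos hW₁pos
      refine ⟨mem_product.2 ⟨md_mem _ hWpos _, md_mem _ hWpos _⟩, ?_⟩
      simp only
      rw [md_md W₀ (W₀ * W₁) (Dvd.intro _ rfl), md_md W₀ (W₀ * W₁) (Dvd.intro _ rfl)]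
      set t := T₀ (md W₀ z.1) (md W₀ z.2) with ht
      have hd1 : ∀ (a : Idx → ℤ) (q : Idx), (W₁ : ℤ) ∣ a q - md (W₀ * W₁) a q := by
        intro a q
        refine dvd_trans ?_ (md_dvd (W₀ * W₁) a q)
        push_cast
        exact Dvd.intro_left _ rfl
      rw [← h5 W₁ (rv P₀ t s) (rv P₀ t s) z.1 z.2 (md (W₀ * W₁) z.1) (md (W₀ * W₁) z.2) hW₁pos
        (hd1 _) (hd1 _) (fun p _ _ i => by simp)]
      -- the small primes
      have hgood : W₀ ^ 4 ≤ P8 * (gg W₀ t (md W₀ z.1) (md W₀ z.2)).card := by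
        have hex : ∃ t, Adm P₀ t ∧ W₀ ^ 4 ≤ P8 * (gg W₀ t (md W₀ z.1) (md W₀ z.2)).card := by
          obtain ⟨t', ht', hb⟩ := h1 w₀ e w z.1 z.2 he1 hwe (by
            intro p hp hpw
            refine ⟨hz2 p, fun hsg => hsing ⟨p, ?_, hsg⟩⟩
            exact mem_filter.2 ⟨mem_range.2 (by omega), hp.out⟩)
          refine ⟨t', ht', ?_⟩
          rw [← h5 W₀ t' t' z.1 z.2 (md W₀ z.1) (md W₀ z.2) hW₀pos (md_dvd _ _) (md_dvd _ _)
            (fun p _ _ i => by simp)]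
          exact hb
        have h7 : t = hex.choose := by rw [ht, hT₀]; exact dif_pos hex
        rw [h7]
        exact hex.choose_spec.2
      have hg0 : gg W₀ (rv P₀ t s) z.1 z.2 = gg W₀ t (md W₀ z.1) (md W₀ z.2) := by
        apply h5 W₀ (rv P₀ t s) t z.1 z.2 (md W₀ z.1) (md W₀ z.2) hW₀pos (md_dvd _ _) (md_dvd _ _)
        intro p hp hd i
        have h7 : (p : ℤ) ∣ (P₀ : ℤ) := by exact_mod_cast hpW₀ p hp hd
        unfold rv
        by_cases hi : s ≠ 0 ∧ i = s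
        · rw [if_pos hi, add_sub_cancel_left]
          exact h7
        · rw [if_neg hi, add_zero, sub_self]
          exact dvd_zero _
      have hmul := h4 W₀ W₁ (rv P₀ t s) z.1 z.2 hW₀pos hW₁pos hcop
      rw [hg0] at hmul
      rw [hW, hmul] at hs
      push_cast at hs
      have hgood' : (W₀ : ℝ) ^ 4 ≤ (P8 : ℝ) * ((gg W₀ t (md W₀ z.1) (md W₀ z.2)).card : ℝ) := by
        exact_mod_cast hgood
      have hW0r : (0 : ℝ) < (W₀ : ℝ) := by exact_mod_cast hW₀pos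
      have hfin := fin_step (P8 : ℝ) (W₀ : ℝ) (W₁ : ℝ)
        ((gg W₀ t (md W₀ z.1) (md W₀ z.2)).card : ℝ) ((gg W₁ (rv P₀ t s) z.1 z.2).card : ℝ)
        hP8r hW0r hgood' hs
      exact_mod_cast hfin
  -- the count
  have hWnat : 1 ≤ W₀ * W₁ := Nat.mul_pos hW₀pos hW₁pos
  have hSScard : ∀ p ∈ P, ((SS p).card : ℝ) ≤ 36 / (2 : ℝ) ^ e * X := by
    intro p hp
    have hpp := hPpr p hp
    have hple : p ^ e ≤ W₀ * W₁ := by
      apply Nat.le_of_dvd (by omega)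
      apply dvd_mul_of_dvd_left
      refine dvd_trans (pow_dvd_pow p (by omega : e ≤ w)) ?_
      exact Finset.dvd_prod_of_mem (fun p => p ^ w) hp
    have h7 := sing_count h2 h6 p e A hpp he1 (by rw [hW] at hA; omega)
    refine h7.trans ?_
    apply mul_le_mul_of_nonneg_right _ hX0
    apply div_le_div_of_nonneg_left (by norm_num) (by positivity)
    exact pow_le_pow_left₀ (by norm_num) (by exact_mod_cast hpp.two_le) e
  have hTTcard : ∀ s : Fin 6, ((TT s).card : ℝ) ≤ 48 / w₀ * X := by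
    intro s
    have h7 := boxm h6 (W₀ * W₁) A (SR s) (TT s) hWnat (by rw [hW] at hA; omega)
      (Finset.filter_subset _ _) (Finset.filter_subset _ _) (fun z hz => (mem_filter.1 hz).2)
    have h8 := crt_count h3 h5 w₀ P₀ W₀ W₁ T₀ (fun α β => (hT₀adm α β).1) s hw1 hW₀pos hW₁pos hcop
      hpW₁ (SR s) (Finset.filter_subset _ _) (fun z hz => (mem_filter.1 hz).2)
    have hWr : (0 : ℝ) < ((W₀ * W₁ : ℕ) : ℝ) ^ 42 := by
      have : (0 : ℝ) < ((W₀ * W₁ : ℕ) : ℝ) := by exact_mod_cast hWnat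
      positivity
    have h9 : ((TT s).card : ℝ) * ((W₀ * W₁ : ℕ) : ℝ) ^ 42 ≤
        (48 / w₀ * X) * ((W₀ * W₁ : ℕ) : ℝ) ^ 42 := by
      refine h7.trans ?_
      calc 3 * ((SR s).card : ℝ) * X ≤ 3 * (16 / w₀ * ((W₀ * W₁ : ℕ) : ℝ) ^ 42) * X := by
            apply mul_le_mul_of_nonneg_right _ hX0
            exact mul_le_mul_of_nonneg_left h8 (by norm_num)
        _ = (48 / w₀ * X) * ((W₀ * W₁ : ℕ) : ℝ) ^ 42 := by ring
    exact le_of_mul_le_mul_right h9 hWr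
  have hPcard : (P.card : ℝ) ≤ w₀ := by
    have h7 : P ⊆ Icc 1 w₀ := by
      intro p hp
      have h8 := mem_range.1 (mem_filter.1 hp).1
      have h9 := (hPpr p hp).one_le
      exact mem_Icc.2 ⟨h9, by omega⟩
    have h8 := Finset.card_le_card h7
    rw [Nat.card_Icc] at h8
    exact_mod_cast (by omega : P.card ≤ w₀)
  have htot : ((((Box A ×ˢ Box A).filter fun z => (∀ (p : ℕ) [Fact p.Prime],
        PadicSol p z.1 z.2) ∧
        ∃ s : Fin 6, ((gg (Ww w) (rv P₀ (T₀ (md W₀ z.1) (md W₀ z.2)) s) z.1 z.2).card : ℝ) <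
          1 / (2 * P8) * (Ww w : ℝ) ^ 4).card : ℕ) : ℝ) ≤
      ∑ p ∈ P, ((SS p).card : ℝ) + ∑ s : Fin 6, ((TT s).card : ℝ) := by
    have h7 := (Finset.card_le_card hsub).trans (Finset.card_union_le _ _)
    have h8 := Finset.card_biUnion_le (s := P) (t := SS)
    have h9 := Finset.card_biUnion_le (s := (univ : Finset (Fin 6))) (t := TT)
    exact_mod_cast h7.trans (add_le_add h8 h9)
  refine le_trans htot ?_
  have hs1 : ∑ p ∈ P, ((SS p).card : ℝ) ≤ ε / 2 * X := by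
    calc ∑ p ∈ P, ((SS p).card : ℝ) ≤ ∑ p ∈ P, 36 / (2 : ℝ) ^ e * X := Finset.sum_le_sum hSScard
      _ = P.card * (36 / (2 : ℝ) ^ e * X) := by rw [Finset.sum_const, nsmul_eq_mul]
      _ ≤ w₀ * (36 / (2 : ℝ) ^ e * X) := mul_le_mul_of_nonneg_right hPcard (by positivity)
      _ = (36 * w₀ / (2 : ℝ) ^ e) * X := by ring
      _ ≤ ε / 2 * X := by
        apply mul_le_mul_of_nonneg_right _ hX0
        rw [div_le_iff₀ (by positivity)]
        have h7 : (e : ℝ) ≤ (2 : ℝ) ^ e := by exact_mod_cast (Nat.lt_two_pow_self (n := e)).le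
        rw [div_lt_iff₀ hε] at he
        nlinarith
  have hs2 : ∑ s : Fin 6, ((TT s).card : ℝ) ≤ ε / 2 * X := by
    calc ∑ s : Fin 6, ((TT s).card : ℝ) ≤ ∑ s : Fin 6, 48 / (w₀ : ℝ) * X :=
          Finset.sum_le_sum fun s _ => hTTcard s
      _ = (288 / w₀) * X := by
          rw [Finset.sum_const, nsmul_eq_mul, Finset.card_univ, Fintype.card_fin]
          push_cast
          ring
      _ ≤ ε / 2 * X := by
        apply mul_le_mul_of_nonneg_right _ hX0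
        rw [div_le_iff₀ hw₀pos]
        rw [div_lt_iff₀ hε] at hw₀
        linarith
  linarith

end Pool.HPQ
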