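import Pool.Agent.Work.MP_9fb703_hp.InterfaceW
import Pool.Agent.Work.MP_9fb703_hp.B_PADIC

/-! # Block PADT (helper17): the finite places, with approximation -/

set_option autoImplicit false

namespace Pool.HPQ

open Finset

theorem PADT_gred (h : Stmt_GREDT) : Stmt_GRED := by
  intro N r r' a b a' b' hN ha hb hr
  have h1 := h 1 N 0 r r' a b a' b' hN ha hb hr
  have key : ∀ (r : Fin 6 → ℤ) (a b : Idx → ℤ), gt 1 N 0 r a b = gg N r a b := by
    intro r a b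
    unfold gt
    rw [Finset.filter_true_of_mem]
    intro x _ l
    simp
  rw [key, key] at h1
  exact h1

open PADICaux in
theorem p_PADT (h1 : Stmt_PADT1) (h2 : Stmt_SNGP) (h3 : Stmt_SIG2) (h4 : Stmt_MULTT)
    (h5T : Stmt_GREDT) (h6 : Stmt_BOXM) : Stmt_PADT := by
  classical
  intro ε N hε hN1
  have h5 : Stmt_GRED := PADT_gred h5T
  set MM : ℕ := (cs (Ww N) (Fin 6)).card with hMM
  obtain ⟨w₂, hw₂⟩ := exists_nat_gt (576 * (MM : ℝ) / ε)
  set w₀ := max N w₂ with hw₀def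
  have hNw₀ : N ≤ w₀ := le_max_left _ _
  have hw₀ : 576 * (MM : ℝ) / ε < (w₀ : ℝ) :=
    lt_of_lt_of_le hw₂ (by exact_mod_cast le_max_right N w₂)
  have hw₀pos : 0 < (w₀ : ℝ) := by
    have : (1 : ℝ) ≤ (w₀ : ℝ) := by exact_mod_cast hN1.trans hNw₀
    linarith
  clear_value w₀
  have hw1 : 1 ≤ w₀ := by exact_mod_cast hw₀pos
  obtain ⟨e, he⟩ := exists_nat_gt (72 * w₀ / ε)
  have hepos : 0 < (e : ℝ) := lt_trans (by positivity) he
  have he1 : 1 ≤ e := by exact_mod_cast hepos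
  set P := (range (w₀ + 1)).filter Nat.Prime with hP
  set P₀ := ∏ p ∈ P, p with hP₀
  set P8 := ∏ p ∈ P, p ^ (4 * (2 * e + N)) with hP8
  have hPpr : ∀ p ∈ P, p.Prime := fun p hp => (mem_filter.1 hp).2
  have hP₀pos : 0 < P₀ := Finset.prod_pos fun p hp => (hPpr p hp).pos
  have hP8pos : 0 < P8 := Finset.prod_pos fun p hp => pow_pos (hPpr p hp).pos _
  have hP8r : (0 : ℝ) < P8 := by exact_mod_cast hP8pos
  refine ⟨P₀, 1 / (2 * P8), max w₀ (2 * e + N), hP₀pos, by positivity,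
    hNw₀.trans (le_max_left _ _), ?_⟩
  intro w hw
  have hww₀ : w₀ ≤ w := le_trans (le_max_left _ _) hw
  have hwe : 2 * e + N ≤ w := le_trans (le_max_right _ _) hw
  set R := ((range (w + 1)).filter Nat.Prime).filter fun p => w₀ < p with hR
  set W₀ := ∏ p ∈ P, p ^ w with hW₀
  set W₁ := ∏ p ∈ R, p ^ w with hW₁
  have hRpr : ∀ p ∈ R, p.Prime ∧ w₀ < p := fun p hp =>
    ⟨(mem_filter.1 (mem_filter.1 hp).1).2, (mem_filter.1 hp).2⟩
  have hW : Ww w = W₀ * W₁ := by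
    unfold Ww
    rw [← Finset.prod_filter_not_mul_prod_filter _ (fun p => w₀ < p)]
    congr 1
    rw [hW₀]
    apply Finset.prod_congr _ fun _ _ => rfl
    rw [hP]
    ext p
    simp only [mem_filter, mem_range, not_lt]
    constructor
    · rintro ⟨⟨h7, h8⟩, h9⟩
      exact ⟨by omega, h8⟩
    · rintro ⟨h7, h8⟩
      exact ⟨⟨by omega, h8⟩, by omega⟩
  have hND : Ww N ∣ W₀ := by
    have h7 : (range (N + 1)).filter Nat.Prime ⊆ P := by
      intro p hp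
      have h8 := mem_filter.1 hp
      have h9 := mem_range.1 h8.1
      exact mem_filter.2 ⟨mem_range.2 (by omega), h8.2⟩
    have h8 : Ww N ∣ ∏ p ∈ (range (N + 1)).filter Nat.Prime, p ^ w := by
      unfold Ww
      exact Finset.prod_dvd_prod_of_dvd _ _ fun p _ => pow_dvd_pow p (by omega : N ≤ w)
    exact h8.trans (Finset.prod_dvd_prod_of_subset _ _ _ h7)
  have hW₀pos : 0 < W₀ := Finset.prod_pos fun p hp => pow_pos (hPpr p hp).pos _
  have hW₁pos : 0 < W₁ := Finset.prod_pos fun p hp => pow_pos (hRpr p hp).1.pos _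
  have hcop : W₀.Coprime W₁ := by
    apply Nat.Coprime.prod_left
    intro p hp
    apply Nat.Coprime.prod_right
    intro q hq
    apply Nat.Coprime.pow
    rw [Nat.coprime_primes (hPpr p hp) (hRpr q hq).1]
    have h7 := mem_range.1 (mem_filter.1 hp).1
    have h8 := (hRpr q hq).2
    omega
  have hpW₁ : ∀ p, p.Prime → p ∣ W₁ → w₀ < p := by
    intro p hp hd
    obtain ⟨q, hq, hpq⟩ := (Prime.dvd_finsetProd_iff hp.prime _).1 hd
    have h7 := hp.dvd_of_dvd_pow hpq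
    rw [(Nat.prime_dvd_prime_iff_eq hp (hRpr q hq).1).1 h7]
    exact (hRpr q hq).2
  have hpW₀ : ∀ p, p.Prime → p ∣ W₀ → p ∣ P₀ := by
    intro p hp hd
    obtain ⟨q, hq, hpq⟩ := (Prime.dvd_finsetProd_iff hp.prime _).1 hd
    have h7 := hp.dvd_of_dvd_pow hpq
    rw [(Nat.prime_dvd_prime_iff_eq hp (hPpr q hq)).1 h7]
    exact Finset.dvd_prod_of_mem _ hq
  -- the choice of `t`
  set T₀ : (Fin 6 → ℤ) → (Idx → ℤ) → (Idx → ℤ) → Fin 6 → ℤ := fun τ α β =>
    if h : ∃ t, Adm P₀ t ∧ W₀ ^ 4 ≤ P8 * (gt (Ww N) W₀ τ t α β).card then h.choose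
    else fun i => if i = 0 then 1 else 0 with hT₀
  have hT₀adm : ∀ τ α β, Adm P₀ (T₀ τ α β) := by
    intro τ α β
    by_cases h : ∃ t, Adm P₀ t ∧ W₀ ^ 4 ≤ P8 * (gt (Ww N) W₀ τ t α β).card
    · have h7 : T₀ τ α β = h.choose := by rw [hT₀]; exact dif_pos h
      rw [h7]
      exact h.choose_spec.1
    · have h7 : T₀ τ α β = fun i => if i = 0 then 1 else 0 := by rw [hT₀]; exact dif_neg h
      rw [h7]
      refine ⟨rfl, fun i => ?_⟩
      have h8 : (1 : ℤ) ≤ P₀ := by exact_mod_cast hP₀pos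
      by_cases hi : i = 0
      · simp only [hi, if_true]
        exact ⟨by norm_num, h8⟩
      · simp only [hi, if_false]
        exact ⟨le_rfl, by linarith⟩
  refine ⟨42 * Ww w, ?_⟩
  intro A hA
  refine ⟨fun τ a b => T₀ τ (md W₀ a) (md W₀ b), fun τ a b => hT₀adm _ _ _, ?_⟩
  set X := (2 * (A : ℝ) + 1) ^ 42 with hX
  have hX0 : 0 ≤ X := by positivity
  -- the two kinds of exceptional sets
  set SS : ℕ → Finset ((Idx → ℤ) × (Idx → ℤ)) := fun p =>
    (Box A ×ˢ Box A).filter fun z => SingP p e z.1 z.2 with hSS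
  set SR : (Fin 6 → ℤ) × Fin 6 → Finset ((Idx → ℤ) × (Idx → ℤ)) := fun v =>
    (cs (W₀ * W₁) Idx ×ˢ cs (W₀ * W₁) Idx).filter fun z =>
      2 * (gg W₁ (rv P₀ (T₀ v.1 (md W₀ z.1) (md W₀ z.2)) v.2) z.1 z.2).card < W₁ ^ 4 with hSR
  set TT : (Fin 6 → ℤ) × Fin 6 → Finset ((Idx → ℤ) × (Idx → ℤ)) := fun v =>
    (Box A ×ˢ Box A).filter fun z => (md (W₀ * W₁) z.1, md (W₀ * W₁) z.2) ∈ SR v with hTT
  have hsub : ((Box A ×ˢ Box A).filter fun z => (∀ (p : ℕ) [Fact p.Prime], PadicSol p z.1 z.2) ∧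
        ∃ τ ∈ cs (Ww N) (Fin 6), LT N τ z.1 z.2 ∧
        ∃ s : Fin 6, ((gt (Ww N) (Ww w) τ (rv P₀ (T₀ τ (md W₀ z.1) (md W₀ z.2)) s)
          z.1 z.2).card : ℝ) < 1 / (2 * P8) * (Ww w : ℝ) ^ 4) ⊆
      (P.biUnion SS) ∪ ((cs (Ww N) (Fin 6) ×ˢ univ).biUnion TT) := by
    intro z hz
    obtain ⟨hz1, hz2, τ, hτ, hLT, s, hs⟩ := mem_filter.1 hz
    by_cases hsing : ∃ p ∈ P, SingP p e z.1 z.2
    · obtain ⟨p, hp, hps⟩ := hsing
      exact mem_union_left _ (mem_biUnion.2 ⟨p, hp, mem_filter.2 ⟨hz1, hps⟩⟩)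
    · apply mem_union_right
      refine mem_biUnion.2 ⟨(τ, s), mem_product.2 ⟨hτ, mem_univ s⟩, mem_filter.2 ⟨hz1, ?_⟩⟩
      rw [hSR]
      rw [mem_filter]
      have hWpos : 0 < W₀ * W₁ := Nat.mul_pos hW₀pos hW₁pos
      refine ⟨mem_product.2 ⟨md_mem _ hWpos _, md_mem _ hWpos _⟩, ?_⟩
      simp only
      rw [md_md W₀ (W₀ * W₁) (Dvd.intro _ rfl), md_md W₀ (W₀ * W₁) (Dvd.intro _ rfl)]
      set t := T₀ τ (md W₀ z.1) (md W₀ z.2) with ht
      have hd1 : ∀ (a : Idx → ℤ) (q : Idx), (W₁ : ℤ) ∣ a q - md (W₀ * W₁) a q := by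
        intro a q
        refine dvd_trans ?_ (md_dvd (W₀ * W₁) a q)
        push_cast
        exact Dvd.intro_left _ rfl
      rw [← h5 W₁ (rv P₀ t s) (rv P₀ t s) z.1 z.2 (md (W₀ * W₁) z.1) (md (W₀ * W₁) z.2) hW₁pos
        (hd1 _) (hd1 _) (fun p _ _ i => by simp)]
      -- the small primes
      have hgood : W₀ ^ 4 ≤ P8 * (gt (Ww N) W₀ τ t (md W₀ z.1) (md W₀ z.2)).card := by
        have hex : ∃ t, Adm P₀ t ∧
            W₀ ^ 4 ≤ P8 * (gt (Ww N) W₀ τ t (md W₀ z.1) (md W₀ z.2)).card := by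
          obtain ⟨t', ht', hb⟩ := h1 N w₀ e w τ z.1 z.2 hN1 hNw₀ he1 hwe (by
            intro p hp hpw
            refine ⟨hz2 p, fun hsg => hsing ⟨p, ?_, hsg⟩⟩
            exact mem_filter.2 ⟨mem_range.2 (by omega), hp.out⟩) hLT
          refine ⟨t', ht', ?_⟩
          rw [← h5T (Ww N) W₀ τ t' t' z.1 z.2 (md W₀ z.1) (md W₀ z.2) hW₀pos (md_dvd _ _)
            (md_dvd _ _) (fun p _ _ i => by simp)]
          exact hb
        have h7 : t = hex.choose := by rw [ht, hT₀]; exact dif_pos hex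
        rw [h7]
        exact hex.choose_spec.2
      have hg0 : gt (Ww N) W₀ τ (rv P₀ t s) z.1 z.2 =
          gt (Ww N) W₀ τ t (md W₀ z.1) (md W₀ z.2) := by
        apply h5T (Ww N) W₀ τ (rv P₀ t s) t z.1 z.2 (md W₀ z.1) (md W₀ z.2) hW₀pos (md_dvd _ _)
          (md_dvd _ _)
        intro p hp hd i
        have h7 : (p : ℤ) ∣ (P₀ : ℤ) := by exact_mod_cast hpW₀ p hp hd
        unfold rv
        by_cases hi : s ≠ 0 ∧ i = s
        · rw [if_pos hi, add_sub_cancel_left]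
          exact h7
        · rw [if_neg hi, add_zero, sub_self]
          exact dvd_zero _
      have hmul := h4 (Ww N) W₀ W₁ τ (rv P₀ t s) z.1 z.2 hW₀pos hW₁pos hND hcop
      rw [hg0] at hmul
      rw [hW, hmul] at hs
      push_cast at hs
      have hgood' : (W₀ : ℝ) ^ 4 ≤
          (P8 : ℝ) * ((gt (Ww N) W₀ τ t (md W₀ z.1) (md W₀ z.2)).card : ℝ) := by
        exact_mod_cast hgood
      have hW0r : (0 : ℝ) < (W₀ : ℝ) := by exact_mod_cast hW₀pos
      have hfin := fin_step (P8 : ℝ) (W₀ : ℝ) (W₁ : ℝ)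
        ((gt (Ww N) W₀ τ t (md W₀ z.1) (md W₀ z.2)).card : ℝ)
        ((gg W₁ (rv P₀ t s) z.1 z.2).card : ℝ)
        hP8r hW0r hgood' hs
      exact_mod_cast hfin
  -- the count
  have hWnat : 1 ≤ W₀ * W₁ := Nat.mul_pos hW₀pos hW₁pos
  have hSScard : ∀ p ∈ P, ((SS p).card : ℝ) ≤ 36 / (2 : ℝ) ^ e * X := by
    intro p hp
    have hpp := hPpr p hp
    have hple : p ^ e ≤ W₀ * W₁ := by
      apply Nat.le_of_dvd (by omega)
      apply dvd_mul_of_dvd_left
      refine dvd_trans (pow_dvd_pow p (by omega : e ≤ w)) ?_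
      exact Finset.dvd_prod_of_mem (fun p => p ^ w) hp
    have h7 := sing_count h2 h6 p e A hpp he1 (by rw [hW] at hA; omega)
    refine h7.trans ?_
    apply mul_le_mul_of_nonneg_right _ hX0
    apply div_le_div_of_nonneg_left (by norm_num) (by positivity)
    exact pow_le_pow_left₀ (by norm_num) (by exact_mod_cast hpp.two_le) e
  have hTTcard : ∀ v : (Fin 6 → ℤ) × Fin 6, ((TT v).card : ℝ) ≤ 48 / w₀ * X := by
    intro s
    have h7 := boxm h6 (W₀ * W₁) A (SR s) (TT s) hWnat (by rw [hW] at hA; omega)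
      (Finset.filter_subset _ _) (Finset.filter_subset _ _) (fun z hz => (mem_filter.1 hz).2)
    have h8 := crt_count h3 h5 w₀ P₀ W₀ W₁ (T₀ s.1) (fun α β => (hT₀adm s.1 α β).1) s.2 hw1 hW₀pos
      hW₁pos hcop hpW₁ (SR s) (Finset.filter_subset _ _) (fun z hz => (mem_filter.1 hz).2)
    have hWr : (0 : ℝ) < ((W₀ * W₁ : ℕ) : ℝ) ^ 42 := by
      have : (0 : ℝ) < ((W₀ * W₁ : ℕ) : ℝ) := by exact_mod_cast hWnat
      positivity
    have h9 : ((TT s).card : ℝ) * ((W₀ * W₁ : ℕ) : ℝ) ^ 42 ≤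
        (48 / w₀ * X) * ((W₀ * W₁ : ℕ) : ℝ) ^ 42 := by
      refine h7.trans ?_
      calc 3 * ((SR s).card : ℝ) * X ≤ 3 * (16 / w₀ * ((W₀ * W₁ : ℕ) : ℝ) ^ 42) * X := by
            apply mul_le_mul_of_nonneg_right _ hX0
            exact mul_le_mul_of_nonneg_left h8 (by norm_num)
        _ = (48 / w₀ * X) * ((W₀ * W₁ : ℕ) : ℝ) ^ 42 := by ring
    exact le_of_mul_le_mul_right h9 hWr
  have hPcard : (P.card : ℝ) ≤ w₀ := by
    have h7 : P ⊆ Icc 1 w₀ := by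
      intro p hp
      have h8 := mem_range.1 (mem_filter.1 hp).1
      have h9 := (hPpr p hp).one_le
      exact mem_Icc.2 ⟨h9, by omega⟩
    have h8 := Finset.card_le_card h7
    rw [Nat.card_Icc] at h8
    exact_mod_cast (by omega : P.card ≤ w₀)
  have htot : ((((Box A ×ˢ Box A).filter fun z => (∀ (p : ℕ) [Fact p.Prime],
        PadicSol p z.1 z.2) ∧
        ∃ τ ∈ cs (Ww N) (Fin 6), LT N τ z.1 z.2 ∧
        ∃ s : Fin 6, ((gt (Ww N) (Ww w) τ (rv P₀ (T₀ τ (md W₀ z.1) (md W₀ z.2)) s)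
          z.1 z.2).card : ℝ) < 1 / (2 * P8) * (Ww w : ℝ) ^ 4).card : ℕ) : ℝ) ≤
      ∑ p ∈ P, ((SS p).card : ℝ) +
        ∑ v ∈ cs (Ww N) (Fin 6) ×ˢ (univ : Finset (Fin 6)), ((TT v).card : ℝ) := by
    have h7 := (Finset.card_le_card hsub).trans (Finset.card_union_le _ _)
    have h8 := Finset.card_biUnion_le (s := P) (t := SS)
    have h9 := Finset.card_biUnion_le (s := cs (Ww N) (Fin 6) ×ˢ (univ : Finset (Fin 6))) (t := TT)
    exact_mod_cast h7.trans (add_le_add h8 h9)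
  refine le_trans htot ?_
  have hs1 : ∑ p ∈ P, ((SS p).card : ℝ) ≤ ε / 2 * X := by
    calc ∑ p ∈ P, ((SS p).card : ℝ) ≤ ∑ p ∈ P, 36 / (2 : ℝ) ^ e * X := Finset.sum_le_sum hSScard
      _ = P.card * (36 / (2 : ℝ) ^ e * X) := by rw [Finset.sum_const, nsmul_eq_mul]
      _ ≤ w₀ * (36 / (2 : ℝ) ^ e * X) := mul_le_mul_of_nonneg_right hPcard (by positivity)
      _ = (36 * w₀ / (2 : ℝ) ^ e) * X := by ring
      _ ≤ ε / 2 * X := by
        apply mul_le_mul_of_nonneg_right _ hX0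
        rw [div_le_iff₀ (by positivity)]
        have h7 : (e : ℝ) ≤ (2 : ℝ) ^ e := by exact_mod_cast (Nat.lt_two_pow_self (n := e)).le
        rw [div_lt_iff₀ hε] at he
        nlinarith
  have hs2 : ∑ v ∈ cs (Ww N) (Fin 6) ×ˢ (univ : Finset (Fin 6)), ((TT v).card : ℝ) ≤
      ε / 2 * X := by
    calc ∑ v ∈ cs (Ww N) (Fin 6) ×ˢ (univ : Finset (Fin 6)), ((TT v).card : ℝ)
        ≤ ∑ v ∈ cs (Ww N) (Fin 6) ×ˢ (univ : Finset (Fin 6)), 48 / (w₀ : ℝ) * X :=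
          Finset.sum_le_sum fun s _ => hTTcard s
      _ = (288 * MM / w₀) * X := by
          rw [Finset.sum_const, nsmul_eq_mul, Finset.card_product, Finset.card_univ,
            Fintype.card_fin, ← hMM]
          push_cast
          ring
      _ ≤ ε / 2 * X := by
          apply mul_le_mul_of_nonneg_right _ hX0
          rw [div_le_iff₀ hw₀pos]
          rw [div_lt_iff₀ hε] at hw₀
          nlinarith
  have hfinal : ε * X = ε / 2 * X + ε / 2 * X := by ring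
  rw [hfinal]
  exact add_le_add hs1 hs2

end Pool.HPQ
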