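import Pool.Agent.Work.MP_9fb703_hp.Interface

/-! # Block PAD1 (helper33): the small primes -/

set_option autoImplicit false

namespace Pool.HPQ

open Finset

/-- the vector `e₀ + e_m` (`e₀` for `m = 0`) -/
def PAD1_t (m : Fin 6) : Fin 6 → ℤ := fun i =>
  if i = 0 then 1 else if i = m then 1 else 0

theorem PAD1_dt (m : Fin 6) (x : Fin 6 → ℤ) :
    dt (PAD1_t m) x = x 0 + (if m = 0 then 0 else x m) := by
  unfold dt PAD1_t
  fin_cases m <;> simp [Fin.sum_univ_succ]

open Classical in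
theorem PAD1_sub {p k : ℕ} (hp : p.Prime) (m : Fin 6) (a b : Idx → ℤ) :
    ((cs (p ^ k) (Fin 6)).filter fun x => ((p ^ k : ℕ) : ℤ) ∣ Q a x ∧ ((p ^ k : ℕ) : ℤ) ∣ Q b x ∧
        ¬ (p : ℤ) ∣ x 0 + (if m = 0 then 0 else x m)) ⊆ gg (p ^ k) (PAD1_t m) a b := by
  intro x hx
  rw [Finset.mem_filter] at hx
  unfold gg
  rw [Finset.mem_filter]
  refine ⟨hx.1, hx.2.1, hx.2.2.1, ?_⟩
  rw [PAD1_dt]
  have h1 := hx.2.2.2
  set z := x 0 + (if m = 0 then 0 else x m) with hz
  have h2 : ¬ p ∣ Int.gcd z (x 1) := by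
    intro h
    apply h1
    have h3 : (p : ℤ) ∣ (Int.gcd z (x 1) : ℤ) := by exact_mod_cast h
    exact h3.trans (Int.gcd_dvd_left _ _)
  have h3 : Nat.Coprime (Int.gcd z (x 1)) (p ^ k) :=
    Nat.Coprime.pow_right k ((Nat.Prime.coprime_iff_not_dvd hp).2 h2).symm
  rw [Int.gcd_natCast_natCast]
  exact h3

open Classical in
theorem PAD1_one (t : Fin 6 → ℤ) (a b : Idx → ℤ) : (gg 1 t a b).card = 1 := by
  have : gg 1 t a b = {fun _ => 0} := by
    ext x
    unfold gg cs
    rw [Finset.mem_filter, Finset.mem_singleton, Fintype.mem_piFinset]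
    constructor
    · rintro ⟨h, -⟩
      funext i
      have := h i
      rw [Finset.mem_Ico] at this
      push_cast at this
      omega
    · rintro rfl
      simp
  rw [this, Finset.card_singleton]

theorem PAD1_prod (hM : Stmt_MULT) (k : ℕ) (t : Fin 6 → ℤ) (a b : Idx → ℤ) (s : Finset ℕ)
    (hs : ∀ p ∈ s, p.Prime) :
    (gg (∏ p ∈ s, p ^ k) t a b).card = ∏ p ∈ s, (gg (p ^ k) t a b).card := by
  classical
  induction s using Finset.induction_on with
  | empty => rw [Finset.prod_empty, Finset.prod_empty, PAD1_one]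
  | insert q s hq ih =>
    have hqp : q.Prime := hs q (Finset.mem_insert_self _ _)
    have hs' : ∀ p ∈ s, p.Prime := fun p hp => hs p (Finset.mem_insert_of_mem hp)
    rw [Finset.prod_insert hq, Finset.prod_insert hq, ← ih hs']
    refine hM _ _ t a b (pow_pos hqp.pos _) (Finset.prod_pos fun p hp => pow_pos (hs' p hp).pos _)
      (Nat.Coprime.prod_right fun p hp => ?_)
    exact Nat.Coprime.pow _ _ ((Nat.coprime_primes hqp (hs' p hp)).2
      (by rintro rfl; exact hq hp))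

/-- the vector `t` -/
theorem PAD1_crt (s : Finset ℕ) (hs : ∀ p ∈ s, p.Prime) (m : ℕ → Fin 6) :
    ∃ t : Fin 6 → ℤ, Adm (∏ p ∈ s, p) t ∧
      ∀ p ∈ s, ∀ i, (p : ℤ) ∣ t i - PAD1_t (m p) i := by
  classical
  have hne : ∀ i ∈ s, (fun p : ℕ => p) i ≠ 0 := fun p hp => (hs p hp).ne_zero
  have hco : Set.Pairwise (↑s : Set ℕ) (Function.onFun Nat.Coprime fun p : ℕ => p) := by
    intro p hp q hq hpq
    exact (Nat.coprime_primes (hs p hp) (hs q hq)).2 hpq
  let f : Fin 6 → ℕ → ℕ := fun i p => if i = m p then 1 else 0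
  have hpos : 1 ≤ ∏ p ∈ s, p := Nat.succ_le_of_lt (Finset.prod_pos fun p hp => (hs p hp).pos)
  refine ⟨fun i => if i = 0 then 1 else
    ((Nat.chineseRemainderOfFinset (f i) (fun p => p) s hne hco : ℕ) : ℤ),
    ⟨by simp, fun i => ?_⟩, fun p hp i => ?_⟩
  · by_cases hi : i = 0
    · simp only [hi, if_true]
      exact ⟨by norm_num, by exact_mod_cast hpos⟩
    · simp only [hi, if_false]
      refine ⟨Int.natCast_nonneg _, ?_⟩
      have := Nat.chineseRemainderOfFinset_lt_prod (f i) (fun p => p) hne hco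
      exact_mod_cast this.le
  · by_cases hi : i = 0
    · simp [hi, PAD1_t]
    · simp only [hi, if_false, PAD1_t]
      have h1 := (Nat.chineseRemainderOfFinset (f i) (fun p => p) s hne hco).2 p hp
      have h2 : (p : ℤ) ∣ ((Nat.chineseRemainderOfFinset (f i) (fun p => p) s hne hco : ℕ) : ℤ) -
          ((f i p : ℕ) : ℤ) := by
        have := (Nat.modEq_iff_dvd.1 h1.symm)
        exact this
      have h3 : ((f i p : ℕ) : ℤ) = if i = m p then 1 else 0 := by
        simp only [f]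
        split_ifs <;> simp
      rwa [h3] at h2

theorem p_PAD1 (hH : Stmt_HENS) (hM : Stmt_MULT) (hG : Stmt_GRED) : Stmt_PAD1 := by
  classical
  intro w₀ e k a b he hk h
  set s := (range (w₀ + 1)).filter Nat.Prime with hs
  have hsp : ∀ p ∈ s, p.Prime := fun p hp => (Finset.mem_filter.1 hp).2
  have hsw : ∀ p ∈ s, p ≤ w₀ := fun p hp => by
    have := (Finset.mem_filter.1 hp).1
    rw [Finset.mem_range] at this
    omega
  have h1 : ∀ p : ℕ, ∃ m : Fin 6, p ∈ s → p ^ (4 * (k - 2 * e)) ≤ (gg (p ^ k) (PAD1_t m) a b).card := by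
    intro p
    by_cases hp : p ∈ s
    · haveI : Fact p.Prime := ⟨hsp p hp⟩
      obtain ⟨h2, h3⟩ := h p (hsw p hp)
      obtain ⟨m, hm⟩ := hH p e k a b he hk h2 h3
      exact ⟨m, fun _ => hm.trans (Finset.card_le_card (PAD1_sub (hsp p hp) m a b))⟩
    · exact ⟨0, fun h => absurd h hp⟩
  choose m hm using h1
  obtain ⟨t, ht, htm⟩ := PAD1_crt s hsp m
  refine ⟨t, ht, ?_⟩
  rw [PAD1_prod hM k t a b s hsp, ← Finset.prod_pow, ← Finset.prod_mul_distrib]
  refine Finset.prod_le_prod' fun p hp => ?_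
  have hpp := hsp p hp
  have h2 : gg (p ^ k) t a b = gg (p ^ k) (PAD1_t (m p)) a b := by
    refine hG (p ^ k) t (PAD1_t (m p)) a b a b (pow_pos hpp.pos _) (fun q => by simp)
      (fun q => by simp) fun q hq hqp i => ?_
    have : q = p := (Nat.prime_dvd_prime_iff_eq hq hpp).1 (hq.dvd_of_dvd_pow hqp)
    subst this
    exact htm q hp i
  rw [h2]
  calc (p ^ k) ^ 4 = p ^ (8 * e) * p ^ (4 * (k - 2 * e)) := by
        rw [← pow_mul, ← pow_add]
        congr 1
        omega
    _ ≤ p ^ (8 * e) * (gg (p ^ k) (PAD1_t (m p)) a b).card := Nat.mul_le_mul_left _ (hm p hp)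

end Pool.HPQ
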