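import Pool.Agent.Work.MP_9fb703_hp.InterfaceW
import Pool.Agent.Work.MP_9fb703_hp.B_MULT
import Pool.Agent.Work.MP_9fb703_hp.B_PAD1

/-! # Block PADT1 (helper29): the small primes, in a class -/

set_option autoImplicit false

namespace Pool.HPQ

open Finset

theorem PADT1_mem {n m : ℕ} {τ r : Fin 6 → ℤ} {a b : Idx → ℤ} {x : Fin 6 → ℤ} :
    x ∈ gt n m τ r a b ↔ x ∈ gg m r a b ∧ ∀ l, (n : ℤ) ∣ x l - τ l := by
  unfold gt
  rw [Finset.mem_filter]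

/-- multiplicativity of `gt` in both moduli -/
theorem PADT1_mul (u v m n : ℕ) (τ r : Fin 6 → ℤ) (a b : Idx → ℤ) (hm : 0 < m) (hn : 0 < n)
    (hu : u ∣ m) (hv : v ∣ n) (hco : m.Coprime n) :
    (gt (u * v) (m * n) τ r a b).card = (gt u m τ r a b).card * (gt v n τ r a b).card := by
  classical
  rw [← Finset.card_product]
  have hm' : (0 : ℤ) < m := by exact_mod_cast hm
  have hn' : (0 : ℤ) < n := by exact_mod_cast hn
  have hcoZ : IsCoprime (m : ℤ) (n : ℤ) := Nat.isCoprime_iff_coprime.mpr hco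
  have huZ : (u : ℤ) ∣ (m : ℤ) := Int.natCast_dvd_natCast.mpr hu
  have hvZ : (v : ℤ) ∣ (n : ℤ) := Int.natCast_dvd_natCast.mpr hv
  have hcoU : IsCoprime (u : ℤ) (v : ℤ) :=
    (hcoZ.of_isCoprime_of_dvd_left huZ).of_isCoprime_of_dvd_right hvZ
  -- the class condition
  have keyc : ∀ (x y z : Fin 6 → ℤ), (∀ i, (m : ℤ) ∣ x i - y i) → (∀ i, (n : ℤ) ∣ x i - z i) →
      ((∀ l, ((u * v : ℕ) : ℤ) ∣ x l - τ l) ↔
        (∀ l, (u : ℤ) ∣ y l - τ l) ∧ (∀ l, (v : ℤ) ∣ z l - τ l)) := by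
    intro x y z h1 h2
    have e1 : ∀ l, (u : ℤ) ∣ x l - τ l ↔ (u : ℤ) ∣ y l - τ l := fun l =>
      dvd_iff_dvd_of_dvd_sub (by
        have : x l - τ l - (y l - τ l) = x l - y l := by ring
        rw [this]; exact huZ.trans (h1 l))
    have e2 : ∀ l, (v : ℤ) ∣ x l - τ l ↔ (v : ℤ) ∣ z l - τ l := fun l =>
      dvd_iff_dvd_of_dvd_sub (by
        have : x l - τ l - (z l - τ l) = x l - z l := by ring
        rw [this]; exact hvZ.trans (h2 l))
    constructor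
    · intro h
      refine ⟨fun l => (e1 l).1 (dvd_trans ?_ (h l)), fun l => (e2 l).1 (dvd_trans ?_ (h l))⟩
      · push_cast; exact dvd_mul_right _ _
      · push_cast; exact dvd_mul_left _ _
    · rintro ⟨h3, h4⟩ l
      push_cast
      exact hcoU.mul_dvd ((e1 l).2 (h3 l)) ((e2 l).2 (h4 l))
  -- membership
  have key : ∀ (x y z : Fin 6 → ℤ), (∀ i, (m : ℤ) ∣ x i - y i) → (∀ i, (n : ℤ) ∣ x i - z i) →
      ((((m * n : ℕ) : ℤ) ∣ Q a x ∧ ((m * n : ℕ) : ℤ) ∣ Q b x ∧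
        Int.gcd (Int.gcd (dt r x) (x 1)) ((m * n : ℕ) : ℤ) = 1) ↔
      (((m : ℤ) ∣ Q a y ∧ (m : ℤ) ∣ Q b y ∧ Int.gcd (Int.gcd (dt r y) (y 1)) m = 1) ∧
        ((n : ℤ) ∣ Q a z ∧ (n : ℤ) ∣ Q b z ∧ Int.gcd (Int.gcd (dt r z) (z 1)) n = 1))) := by
    intro x y z h1 h2
    have hd : ∀ t : ℤ, ((m * n : ℕ) : ℤ) ∣ t ↔ (m : ℤ) ∣ t ∧ (n : ℤ) ∣ t := by
      intro t
      push_cast
      constructor
      · intro h
        exact ⟨(dvd_mul_right _ _).trans h, (dvd_mul_left _ _).trans h⟩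
      · rintro ⟨h3, h4⟩
        exact hcoZ.mul_dvd h3 h4
    have hg : Int.gcd (Int.gcd (dt r x) (x 1)) ((m * n : ℕ) : ℤ) = 1 ↔
        Int.gcd (Int.gcd (dt r x) (x 1)) m = 1 ∧ Int.gcd (Int.gcd (dt r x) (x 1)) n = 1 := by
      rw [MULT_gcd, MULT_gcd, MULT_gcd]
      constructor
      · intro h
        exact ⟨fun p hp hd => h p hp (hd.mul_right _), fun p hp hd => h p hp (hd.mul_left _)⟩
      · rintro ⟨h3, h4⟩ p hp hd
        rcases (Nat.Prime.dvd_mul hp).mp hd with h | h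
        · exact h3 p hp h
        · exact h4 p hp h
    rw [hd, hd, hg, MULT_dvd_Q a h1, MULT_dvd_Q a h2, MULT_dvd_Q b h1, MULT_dvd_Q b h2,
      MULT_cond r h1, MULT_cond r h2]
    tauto
  refine Finset.card_bij (fun x _ => ((fun i => x i % (m : ℤ)), (fun i => x i % (n : ℤ)))) ?_ ?_ ?_
  · intro x hx
    rw [PADT1_mem, MULT_mem] at hx
    rw [Finset.mem_product, PADT1_mem, PADT1_mem, MULT_mem, MULT_mem]
    have h1 : ∀ i, (m : ℤ) ∣ x i - x i % (m : ℤ) := fun i => Int.dvd_self_sub_emod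
    have h2 : ∀ i, (n : ℤ) ∣ x i - x i % (n : ℤ) := fun i => Int.dvd_self_sub_emod
    have h3 := (key x _ _ h1 h2).mp hx.1.2
    have h4 := (keyc x _ _ h1 h2).mp hx.2
    exact ⟨⟨⟨fun i => ⟨Int.emod_nonneg _ hm'.ne', Int.emod_lt_of_pos _ hm'⟩, h3.1⟩, h4.1⟩,
      ⟨⟨fun i => ⟨Int.emod_nonneg _ hn'.ne', Int.emod_lt_of_pos _ hn'⟩, h3.2⟩, h4.2⟩⟩
  · intro x hx y hy hxy
    rw [PADT1_mem, MULT_mem] at hx hy
    rw [Prod.mk.injEq] at hxy
    funext i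
    have h1 : x i % (m : ℤ) = y i % (m : ℤ) := congrFun hxy.1 i
    have h2 : x i % (n : ℤ) = y i % (n : ℤ) := congrFun hxy.2 i
    have h3 : (m : ℤ) ∣ x i - y i := Int.ModEq.dvd (show y i ≡ x i [ZMOD m] from h1.symm)
    have h4 : (n : ℤ) ∣ x i - y i := Int.ModEq.dvd (show y i ≡ x i [ZMOD n] from h2.symm)
    have h5 : (m : ℤ) * n ∣ x i - y i := hcoZ.mul_dvd h3 h4
    have h6 := hx.1.1 i
    have h7 := hy.1.1 i
    push_cast at h6 h7
    have h8 : |x i - y i| < (m : ℤ) * n := by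
      rw [abs_lt]
      constructor
      · linarith [h6.1, h7.2]
      · linarith [h6.2, h7.1]
    have h9 := Int.eq_zero_of_abs_lt_dvd h5 h8
    linarith
  · rintro ⟨y, z⟩ hyz
    rw [Finset.mem_product, PADT1_mem, PADT1_mem, MULT_mem, MULT_mem] at hyz
    obtain ⟨⟨⟨hy, hy2⟩, hy3⟩, ⟨⟨hz, hz2⟩, hz3⟩⟩ := hyz
    obtain ⟨c, d, hcd⟩ := hcoZ
    set x : Fin 6 → ℤ := fun i => (y i * (d * n) + z i * (c * m)) % ((m * n : ℕ) : ℤ) with hx
    have hmn : (0 : ℤ) < ((m * n : ℕ) : ℤ) := by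
      push_cast
      positivity
    have h0 : ∀ i, ((m * n : ℕ) : ℤ) ∣ (y i * (d * n) + z i * (c * m)) - x i :=
      fun i => Int.dvd_self_sub_emod
    have h1 : ∀ i, (m : ℤ) ∣ x i - y i := by
      intro i
      have h2 : (m : ℤ) ∣ (y i * (d * n) + z i * (c * m)) - x i :=
        (by push_cast; exact dvd_mul_right _ _ : (m : ℤ) ∣ ((m * n : ℕ) : ℤ)).trans (h0 i)
      have h3 : (m : ℤ) ∣ (y i * (d * n) + z i * (c * m)) - y i := by
        refine ⟨z i * c - y i * c, ?_⟩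
        have : d * n = 1 - c * m := by linarith
        rw [this]
        ring
      have h4 := dvd_sub h3 h2
      rwa [sub_sub_sub_cancel_left] at h4
    have h2 : ∀ i, (n : ℤ) ∣ x i - z i := by
      intro i
      have h2 : (n : ℤ) ∣ (y i * (d * n) + z i * (c * m)) - x i :=
        (by push_cast; exact dvd_mul_left _ _ : (n : ℤ) ∣ ((m * n : ℕ) : ℤ)).trans (h0 i)
      have h3 : (n : ℤ) ∣ (y i * (d * n) + z i * (c * m)) - z i := by
        refine ⟨y i * d - z i * d, ?_⟩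
        have : c * m = 1 - d * n := by linarith
        rw [this]
        ring
      have h4 := dvd_sub h3 h2
      rwa [sub_sub_sub_cancel_left] at h4
    refine ⟨x, ?_, ?_⟩
    · rw [PADT1_mem, MULT_mem]
      exact ⟨⟨fun i => ⟨Int.emod_nonneg _ hmn.ne', Int.emod_lt_of_pos _ hmn⟩,
        (key x y z h1 h2).mpr ⟨hy2, hz2⟩⟩, (keyc x y z h1 h2).mpr ⟨hy3, hz3⟩⟩
    · have hu : ∀ (N : ℤ) (s t : ℤ), N ∣ s - t → 0 ≤ t → t < N → s % N = t := by
        intro N s t h3 h4 h5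
        have h6 : s % N = t % N := Int.ModEq.symm (Int.modEq_iff_dvd.mpr h3)
        rw [h6, Int.emod_eq_of_lt h4 h5]
      rw [Prod.mk.injEq]
      constructor
      · funext i
        exact hu _ _ _ (h1 i) (hy i).1 (hy i).2
      · funext i
        exact hu _ _ _ (h2 i) (hz i).1 (hz i).2

theorem PADT1_one (τ t : Fin 6 → ℤ) (a b : Idx → ℤ) : (gt 1 1 τ t a b).card = 1 := by
  have h : gt 1 1 τ t a b = gg 1 t a b := by
    ext x
    rw [PADT1_mem]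
    exact ⟨fun h => h.1, fun h => ⟨h, fun l => by simp⟩⟩
  rw [h, PAD1_one]

theorem PADT1_prod (k : ℕ) (f : ℕ → ℕ) (τ t : Fin 6 → ℤ) (a b : Idx → ℤ) (s : Finset ℕ)
    (hs : ∀ p ∈ s, p.Prime) (hf : ∀ p ∈ s, f p ∣ p ^ k) :
    (gt (∏ p ∈ s, f p) (∏ p ∈ s, p ^ k) τ t a b).card =
      ∏ p ∈ s, (gt (f p) (p ^ k) τ t a b).card := by
  classical
  induction s using Finset.induction_on with
  | empty => rw [Finset.prod_empty, Finset.prod_empty, Finset.prod_empty, PADT1_one]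
  | insert q s hq ih =>
    have hqp : q.Prime := hs q (Finset.mem_insert_self _ _)
    have hs' : ∀ p ∈ s, p.Prime := fun p hp => hs p (Finset.mem_insert_of_mem hp)
    have hf' : ∀ p ∈ s, f p ∣ p ^ k := fun p hp => hf p (Finset.mem_insert_of_mem hp)
    rw [Finset.prod_insert hq, Finset.prod_insert hq, Finset.prod_insert hq, ← ih hs' hf']
    refine PADT1_mul _ _ _ _ τ t a b (pow_pos hqp.pos _)
      (Finset.prod_pos fun p hp => pow_pos (hs' p hp).pos _) (hf q (Finset.mem_insert_self _ _))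
      (Finset.prod_dvd_prod_of_dvd _ _ hf') (Nat.Coprime.prod_right fun p hp => ?_)
    exact Nat.Coprime.pow _ _ ((Nat.coprime_primes hqp (hs' p hp)).2
      (by rintro rfl; exact hq hp))

/-- the local bound -/
theorem PADT1_loc (hS : Stmt_SCL) (hH : Stmt_HENT) (N e k : ℕ) (τ : Fin 6 → ℤ) (a b : Idx → ℤ)
    (hN : 1 ≤ N) (he : 1 ≤ e) (hk : 2 * e + N ≤ k) (p : ℕ) [hp : Fact p.Prime]
    (h : PadicSol p a b ∧ ¬ SingP p e a b) (hL : LT N τ a b) :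
    ∃ m : Fin 6, (p ^ k) ^ 4 ≤ p ^ (4 * (2 * e + N)) *
      (gt (if p ≤ N then p ^ N else 1) (p ^ k) τ (PAD1_t m) a b).card := by
  classical
  have hpp : p.Prime := hp.out
  obtain ⟨M, hM, hM2⟩ : ∃ M : Fin 6 → ℤ_[p], PZ p a b M ∧
      (p ≤ N → ∀ l, ‖(τ l : ℤ_[p]) - M l‖ ≤ (p : ℝ) ^ (-(N : ℤ))) := by
    by_cases hpN : p ≤ N
    · obtain ⟨M, hM, hM2⟩ := hL p hpN
      exact ⟨M, hM, fun _ => hM2⟩
    · obtain ⟨M, hM⟩ := ((hS a b).2 p).1 h.1
      exact ⟨M, hM, fun h => absurd h hpN⟩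
  set g : ℕ := if p ≤ N then N else 1 with hg
  have hg1 : 1 ≤ g := by rw [hg]; split_ifs <;> omega
  have hgN : g ≤ N := by rw [hg]; split_ifs <;> omega
  have hcard := hH p e g k a b M he hg1 (by omega) hM h.2
  -- small norms
  have hp1 : (1 : ℝ) < p := by exact_mod_cast hpp.one_lt
  have hsm : ∀ x : Fin 6 → ℤ, (∀ l, ‖(x l : ℤ_[p]) - M l‖ ≤ (p : ℝ) ^ (-(g : ℤ))) →
      ∀ l, ‖(x l : ℤ_[p]) - M l‖ < 1 := by
    intro x hx l
    refine (hx l).trans_lt ?_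
    rw [zpow_neg, zpow_natCast]
    exact inv_lt_one_of_one_lt₀ (one_lt_pow₀ hp1 (by omega))
  have hun : ∀ x : Fin 6 → ℤ, (∀ l, ‖(x l : ℤ_[p]) - M l‖ ≤ (p : ℝ) ^ (-(g : ℤ))) →
      ∀ l, ‖M l‖ = 1 → ¬ (p : ℤ) ∣ x l := by
    intro x hx l hl hd
    have h1 : ‖(x l : ℤ_[p])‖ < 1 := (PadicInt.norm_int_lt_one_iff_dvd (x l)).2 hd
    have h2 := hsm x hx l
    have h3 : ‖M l‖ ≤ max ‖(x l : ℤ_[p])‖ ‖(x l : ℤ_[p]) - M l‖ := by
      have h4 : M l = (x l : ℤ_[p]) + -((x l : ℤ_[p]) - M l) := by ring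
      calc ‖M l‖ = ‖(x l : ℤ_[p]) + -((x l : ℤ_[p]) - M l)‖ := by rw [← h4]
        _ ≤ max ‖(x l : ℤ_[p])‖ ‖-((x l : ℤ_[p]) - M l)‖ := PadicInt.nonarchimedean _ _
        _ = _ := by rw [norm_neg]
    rw [hl] at h3
    exact absurd (lt_of_le_of_lt h3 (max_lt h1 h2)) (lt_irrefl _)
  have hnu : ∀ x : Fin 6 → ℤ, (∀ l, ‖(x l : ℤ_[p]) - M l‖ ≤ (p : ℝ) ^ (-(g : ℤ))) →
      ∀ l, ‖M l‖ < 1 → (p : ℤ) ∣ x l := by
    intro x hx l hl
    rw [← PadicInt.norm_int_lt_one_iff_dvd]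
    have h2 := hsm x hx l
    have h4 : (x l : ℤ_[p]) = ((x l : ℤ_[p]) - M l) + M l := by ring
    calc ‖(x l : ℤ_[p])‖ = ‖((x l : ℤ_[p]) - M l) + M l‖ := by rw [← h4]
      _ ≤ max ‖(x l : ℤ_[p]) - M l‖ ‖M l‖ := PadicInt.nonarchimedean _ _
      _ < 1 := max_lt h2 hl
  -- the choice of `m`
  obtain ⟨m, hm⟩ : ∃ m : Fin 6, ∀ x : Fin 6 → ℤ,
      (∀ l, ‖(x l : ℤ_[p]) - M l‖ ≤ (p : ℝ) ^ (-(g : ℤ))) →
      ¬ (p : ℤ) ∣ x 0 + (if m = 0 then 0 else x m) := by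
    by_cases h0 : ‖M 0‖ = 1
    · refine ⟨0, fun x hx => ?_⟩
      simpa using hun x hx 0 h0
    · obtain ⟨i, hi⟩ := hM.1
      have hi0 : i ≠ 0 := by rintro rfl; exact h0 hi
      have h0' : ‖M 0‖ < 1 := lt_of_le_of_ne (PadicInt.norm_le_one _) h0
      refine ⟨i, fun x hx => ?_⟩
      rw [if_neg hi0]
      intro hd
      exact hun x hx i hi ((dvd_add_right (hnu x hx 0 h0')).1 hd)
  refine ⟨m, ?_⟩
  have hsub : ((cs (p ^ k) (Fin 6)).filter fun x => ((p ^ k : ℕ) : ℤ) ∣ Q a x ∧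
      ((p ^ k : ℕ) : ℤ) ∣ Q b x ∧ ∀ l, ‖(x l : ℤ_[p]) - M l‖ ≤ (p : ℝ) ^ (-(g : ℤ))) ⊆
      gt (if p ≤ N then p ^ N else 1) (p ^ k) τ (PAD1_t m) a b := by
    intro x hx
    rw [Finset.mem_filter] at hx
    obtain ⟨hx0, hx1, hx2, hx3⟩ := hx
    rw [PADT1_mem]
    refine ⟨PAD1_sub hpp m a b (Finset.mem_filter.2 ⟨hx0, hx1, hx2, hm x hx3⟩), fun l => ?_⟩
    by_cases hpN : p ≤ N
    · rw [if_pos hpN]
      have hgN' : g = N := by rw [hg, if_pos hpN]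
      have h1 := hx3 l
      rw [hgN'] at h1
      have h2 := hM2 hpN l
      have h3 : ‖((x l - τ l : ℤ) : ℤ_[p])‖ ≤ (p : ℝ) ^ (-(N : ℤ)) := by
        have h4 : ((x l - τ l : ℤ) : ℤ_[p]) =
            ((x l : ℤ_[p]) - M l) + -((τ l : ℤ_[p]) - M l) := by push_cast; ring
        rw [h4]
        refine (PadicInt.nonarchimedean _ _).trans (max_le h1 ?_)
        rw [norm_neg]
        exact h2
      have h5 := PadicInt.norm_int_le_pow_iff_dvd.1 h3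
      exact_mod_cast h5
    · rw [if_neg hpN]
      simp
  have hle := hcard.trans (Finset.card_le_card hsub)
  calc (p ^ k) ^ 4 = p ^ (4 * (2 * e + g)) * p ^ (4 * (k - (2 * e + g))) := by
        rw [← pow_mul, ← pow_add]
        congr 1
        omega
    _ ≤ p ^ (4 * (2 * e + N)) *
        (gt (if p ≤ N then p ^ N else 1) (p ^ k) τ (PAD1_t m) a b).card :=
        Nat.mul_le_mul (Nat.pow_le_pow_right hpp.pos (by omega)) hle

theorem p_PADT1 (hS : Stmt_SCL) (hH : Stmt_HENT) (_hT : Stmt_MULTT) (_hM : Stmt_MULT)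
    (hG : Stmt_GRED) : Stmt_PADT1 := by
  classical
  intro N w₀ e k τ a b hN hNw he hk h hL
  set s := (range (w₀ + 1)).filter Nat.Prime with hs
  have hsp : ∀ p ∈ s, p.Prime := fun p hp => (Finset.mem_filter.1 hp).2
  have hsw : ∀ p ∈ s, p ≤ w₀ := fun p hp => by
    have := (Finset.mem_filter.1 hp).1
    rw [Finset.mem_range] at this
    omega
  set f : ℕ → ℕ := fun p => if p ≤ N then p ^ N else 1 with hf
  have hWw : Ww N = ∏ p ∈ s, f p := by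
    unfold Ww
    rw [hf, Finset.prod_ite, Finset.prod_const_one, mul_one]
    refine Finset.prod_congr ?_ fun _ _ => rfl
    ext p
    simp only [hs, Finset.mem_filter, Finset.mem_range]
    constructor
    · rintro ⟨h1, h2⟩
      exact ⟨⟨by omega, h2⟩, by omega⟩
    · rintro ⟨⟨_, h2⟩, h3⟩
      exact ⟨by omega, h2⟩
  have h1 : ∀ p : ℕ, ∃ m : Fin 6, p ∈ s → (p ^ k) ^ 4 ≤ p ^ (4 * (2 * e + N)) *
      (gt (f p) (p ^ k) τ (PAD1_t m) a b).card := by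
    intro p
    by_cases hp : p ∈ s
    · haveI : Fact p.Prime := ⟨hsp p hp⟩
      obtain ⟨m, hm⟩ := PADT1_loc hS hH N e k τ a b hN he hk p (h p (hsw p hp)) hL
      exact ⟨m, fun _ => hm⟩
    · exact ⟨0, fun h => absurd h hp⟩
  choose m hm using h1
  obtain ⟨t, ht, htm⟩ := PAD1_crt s hsp m
  refine ⟨t, ht, ?_⟩
  have hfd : ∀ p ∈ s, f p ∣ p ^ k := by
    intro p _
    simp only [hf]
    split_ifs
    · exact pow_dvd_pow p (by omega)
    · exact one_dvd _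
  rw [hWw, PADT1_prod k f τ t a b s hsp hfd, ← Finset.prod_pow, ← Finset.prod_mul_distrib]
  refine Finset.prod_le_prod' fun p hp => ?_
  have hpp := hsp p hp
  have h2 : gg (p ^ k) t a b = gg (p ^ k) (PAD1_t (m p)) a b := by
    refine hG (p ^ k) t (PAD1_t (m p)) a b a b (pow_pos hpp.pos _) (fun q => by simp)
      (fun q => by simp) fun q hq hqp i => ?_
    have : q = p := (Nat.prime_dvd_prime_iff_eq hq hpp).1 (hq.dvd_of_dvd_pow hqp)
    subst this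
    exact htm q hp i
  have h3 : gt (f p) (p ^ k) τ t a b = gt (f p) (p ^ k) τ (PAD1_t (m p)) a b := by
    unfold gt
    rw [h2]
  rw [h3]
  exact hm p hp

end Pool.HPQ
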