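import Pool.Agent.Work.MP_9fb703_hp.Interface

/-! # MP_9fb703: block RANK (helper62) -/

set_option autoImplicit false

namespace Pool.HPQ

open Finset

/-- the four by four minors -/
def RANK_D (x y n n' : Fin 6 → ℤ) (i j k l : Fin 6) : ℤ :=
  om x y i j * om n n' k l - om x y i k * om n n' j l + om x y i l * om n n' j k +
  om x y j k * om n n' i l - om x y j l * om n n' i k + om x y k l * om n n' i j

theorem RANK_two {B : ℝ} {a b c d : ℝ} (ha : |a| ≤ B) (hb : |b| ≤ B) {C : ℝ} (hc : |c| ≤ C)
    (hd : |d| ≤ C) (hB : 0 ≤ B) : |a * d - b * c| ≤ 2 * (B * C) := by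
  have h1 : |a * d| ≤ B * C := by
    rw [abs_mul]; exact mul_le_mul ha hd (abs_nonneg _) hB
  have h2 : |b * c| ≤ B * C := by
    rw [abs_mul]; exact mul_le_mul hb hc (abs_nonneg _) hB
  have := abs_sub (a * d) (b * c)
  linarith

theorem RANK_bound (B M : ℝ) (x y n n' : Fin 6 → ℤ) (hB : 1 ≤ B) (hM : 0 < M)
    (hx : ∀ i, |(x i : ℝ)| ≤ B) (hy : ∀ i, |(y i : ℝ)| ≤ B) (h : Near M x y n)
    (h' : Near M x y n') (i j k l : Fin 6) :
    |((RANK_D x y n n' i j k l : ℤ) : ℝ)| ≤ 24 * (B / M) ^ 2 := by
  obtain ⟨s, t, hs⟩ := h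
  obtain ⟨s', t', hs'⟩ := h'
  set e : Fin 6 → ℝ := fun j => s * x j - t * y j - n j with he
  set e' : Fin 6 → ℝ := fun j => s' * x j - t' * y j - n' j with he'
  have hX : ∀ i j, |(x i : ℝ) * y j - x j * y i| ≤ 2 * (B * B) := fun i j =>
    RANK_two (hx i) (hx j) (hy i) (hy j) (by linarith)
  have hE : ∀ i j, |e i * e' j - e j * e' i| ≤ 2 * (1 / M * (1 / M)) := fun i j =>
    RANK_two (hs i).le (hs j).le (hs' i).le (hs' j).le (by positivity)
  have hT : ∀ i j k l, |((x i : ℝ) * y j - x j * y i) * (e k * e' l - e l * e' k)| ≤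
      4 * (B / M) ^ 2 := by
    intro i j k l
    rw [abs_mul]
    refine (mul_le_mul (hX i j) (hE k l) (abs_nonneg _) (by positivity)).trans (le_of_eq ?_)
    field_simp
    norm_num
  have key : ((RANK_D x y n n' i j k l : ℤ) : ℝ) =
      ((x i : ℝ) * y j - x j * y i) * (e k * e' l - e l * e' k) -
      ((x i : ℝ) * y k - x k * y i) * (e j * e' l - e l * e' j) +
      ((x i : ℝ) * y l - x l * y i) * (e j * e' k - e k * e' j) +
      ((x j : ℝ) * y k - x k * y j) * (e i * e' l - e l * e' i) -
      ((x j : ℝ) * y l - x l * y j) * (e i * e' k - e k * e' i) +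
      ((x k : ℝ) * y l - x l * y k) * (e i * e' j - e j * e' i) := by
    simp only [RANK_D, om, he, he']
    push_cast
    ring
  rw [key]
  have h1 := abs_le.1 (hT i j k l)
  have h2 := abs_le.1 (hT i k j l)
  have h3 := abs_le.1 (hT i l j k)
  have h4 := abs_le.1 (hT j k i l)
  have h5 := abs_le.1 (hT j l i k)
  have h6 := abs_le.1 (hT k l i j)
  rw [abs_le]
  constructor <;> linarith [h1.1, h1.2, h2.1, h2.2, h3.1, h3.2, h4.1, h4.2, h5.1, h5.2, h6.1, h6.2]

theorem RANK_rel (x y n n' : Fin 6 → ℤ) (a b c d m : Fin 6) :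
    x a * RANK_D x y n n' b c d m - x b * RANK_D x y n n' a c d m +
      x c * RANK_D x y n n' a b d m - x d * RANK_D x y n n' a b c m +
      x m * RANK_D x y n n' a b c d = 0 := by
  simp only [RANK_D, om]; ring

theorem RANK_fifth : ∀ a b c d : Fin 6, ∃ m : Fin 6, m ≠ a ∧ m ≠ b ∧ m ≠ c ∧ m ≠ d := by
  decide

theorem p_RANK : Stmt_RANK := by
  intro B M K₀ x y n n' hB hM hK hx hy hgen hDe hIn hn hn'
  obtain ⟨q, hq⟩ : ∃ q, om x y 0 q ≠ 0 := by
    by_contra hcon
    push Not at hcon
    have : De x y = 0 := by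
      unfold De
      rw [← Nat.bot_eq_zero, Finset.sup_eq_bot_iff]
      intro q _
      rw [hcon q]; rfl
    omega
  obtain ⟨k, hk⟩ : ∃ k, om3 x y n 0 q k ≠ 0 := by
    by_contra hcon
    push Not at hcon
    refine hIn ⟨om x y 0 q, n 0 * y q - n q * y 0, n q * x 0 - n 0 * x q, hq, fun i => ?_⟩
    have := hcon i
    simp only [om3] at this
    simp only [om]
    linarith
  by_cases hD : ∀ l, RANK_D x y n n' 0 q k l = 0
  · refine ⟨om3 x y n 0 q k, om3 y n n' 0 q k, -om3 x n n' 0 q k, om3 x y n' 0 q k, hk,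
      fun l => ?_⟩
    have := hD l
    simp only [RANK_D, om] at this
    simp only [om3]
    linarith
  · exfalso
    push Not at hD
    obtain ⟨l, hl⟩ := hD
    obtain ⟨m, hm0, hmq, hmk, hml⟩ := RANK_fifth 0 q k l
    have h0q : (0 : Fin 6) ≠ q := by
      rintro rfl; exact hq (by simp [om])
    have h0k : (0 : Fin 6) ≠ k := by
      rintro rfl; exact hk (by simp only [om3]; ring)
    have hqk : q ≠ k := by
      rintro rfl; exact hk (by simp only [om3]; ring)
    have h0l : (0 : Fin 6) ≠ l := by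
      rintro rfl; exact hl (by simp only [RANK_D, om]; ring)
    have hql : q ≠ l := by
      rintro rfl; exact hl (by simp only [RANK_D, om]; ring)
    have hkl : k ≠ l := by
      rintro rfl; exact hl (by simp only [RANK_D, om]; ring)
    have hb : ∀ a b c d : Fin 6, |RANK_D x y n n' a b c d| ≤ (K₀ : ℤ) := by
      intro a b c d
      have h1 := (RANK_bound B M x y n n' hB hM hx hy hn hn' a b c d).trans hK
      exact_mod_cast h1
    refine hgen (fun i => if i = 0 then RANK_D x y n n' q k l m else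
      if i = q then -RANK_D x y n n' 0 k l m else
      if i = k then RANK_D x y n n' 0 q l m else
      if i = l then -RANK_D x y n n' 0 q k m else
      if i = m then RANK_D x y n n' 0 q k l else 0) ?_ ?_ ?_
    · intro h0
      have := congrFun h0 m
      simp only [hm0, hmq, hmk, hml, if_false, if_true, Pi.zero_apply] at this
      exact hl this
    · intro i
      split_ifs
      · exact hb _ _ _ _
      · rw [abs_neg]; exact hb _ _ _ _
      · exact hb _ _ _ _
      · rw [abs_neg]; exact hb _ _ _ _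
      · exact hb _ _ _ _
      · simp
    · have hrel := RANK_rel x y n n' 0 q k l m
      have hsum : ∀ f : Fin 6 → ℤ, (∀ i, i ≠ 0 → i ≠ q → i ≠ k → i ≠ l → i ≠ m → f i = 0) →
          ∑ i, f i = f 0 + f q + f k + f l + f m := by
        intro f hf
        have h1 : ∑ i, f i = ∑ i ∈ ({0, q, k, l, m} : Finset (Fin 6)), f i := by
          symm
          refine Finset.sum_subset (Finset.subset_univ _) fun i _ hi => ?_
          simp only [Finset.mem_insert, Finset.mem_singleton, not_or] at hi
          exact hf i hi.1 hi.2.1 hi.2.2.1 hi.2.2.2.1 hi.2.2.2.2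
        rw [h1, Finset.sum_insert, Finset.sum_insert, Finset.sum_insert, Finset.sum_insert,
          Finset.sum_singleton]
        · ring
        · simpa using hml.symm
        · simp [hkl, hmk.symm]
        · simp [hqk, hql, hmq.symm]
        · simp [h0q, h0k, h0l, hm0.symm]
      rw [hsum]
      · simp only [if_true, h0q.symm, h0k.symm, hqk.symm, h0l.symm, hql.symm, hkl.symm, hm0, hmq,
          hmk, hml, if_false]
        linarith
      · intro i h1 h2 h3 h4 h5
        simp [h1, h2, h3, h4, h5]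

end Pool.HPQ
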