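import Pool.Agent.Work.MP_9fb703_hp.Interface

set_option autoImplicit false

namespace Pool.HPQ

theorem ROW_near (R : ℕ) (hR : 0 < R) (v n : ℤ) :
    |v - R * round ((v : ℝ) / R)| ≤ |v - R * n| := by
  have hR' : (0 : ℝ) < R := by exact_mod_cast hR
  have h := round_le ((v : ℝ) / R) n
  have h1 : |((v - R * round ((v : ℝ) / R) : ℤ) : ℝ)| ≤ |((v - R * n : ℤ) : ℝ)| := by
    have e1 : ∀ m : ℤ, ((v - R * m : ℤ) : ℝ) = R * ((v : ℝ) / R - m) := by
      intro m
      push_cast
      field_simp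
    rw [e1, e1, abs_mul, abs_mul, abs_of_pos hR']
    exact mul_le_mul_of_nonneg_left h hR'.le
  exact_mod_cast h1

theorem p_ROW : Stmt_ROW := by
  intro R T x y hR s hs i j
  classical
  refine ⟨?_, ?_⟩
  · have h := (Finset.mem_filter.mp hs).2 i j
    obtain ⟨n, hn⟩ := h
    exact lt_of_le_of_lt (ROW_near R hR _ n) hn
  · unfold row
    rw [mul_comm (x i) (x j), mul_comm (y i) (y j)]

end Pool.HPQ
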