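import Pool.Agent.Work.MP_9fb703_hp.Interface

/-! # Block RSNG (helper34): the nearly singular pairs over the reals are few -/

set_option autoImplicit false

namespace Pool.HPQ

open Finset

/-- counting by fibres -/
theorem RSNG_fib {α β : Type*} [DecidableEq β] (S : Finset α) (f : α → β) (M N : ℝ) (hM : 0 ≤ M)
    (h1 : ((S.image f).card : ℝ) ≤ N)
    (h2 : ∀ b ∈ S.image f, ((S.filter fun a => f a = b).card : ℝ) ≤ M) :
    (S.card : ℝ) ≤ N * M := by
  have h3 : S.card = ∑ b ∈ S.image f, (S.filter fun a => f a = b).card :=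
    Finset.card_eq_sum_card_image f S
  rw [h3, Nat.cast_sum]
  calc ∑ b ∈ S.image f, ((S.filter fun a => f a = b).card : ℝ)
      ≤ ∑ b ∈ S.image f, M := Finset.sum_le_sum h2
    _ = (S.image f).card * M := by rw [Finset.sum_const, nsmul_eq_mul]
    _ ≤ N * M := mul_le_mul_of_nonneg_right h1 hM

theorem RSNG_int (c ρ : ℝ) (hρ : 0 ≤ ρ) :
    ((Finset.Icc ⌈c - ρ⌉ ⌊c + ρ⌋).card : ℝ) ≤ 2 * ρ + 1 := by
  rw [Int.card_Icc]
  have h1 : c - ρ ≤ ⌈c - ρ⌉ := Int.le_ceil _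
  have h2 : (⌊c + ρ⌋ : ℝ) ≤ c + ρ := Int.floor_le _
  have h3 : (((⌊c + ρ⌋ + 1 - ⌈c - ρ⌉).toNat : ℤ) : ℝ) ≤ 2 * ρ + 1 := by
    rw [Int.toNat_eq_max]
    rw [Int.cast_max]
    refine max_le ?_ ?_
    · push_cast
      linarith
    · push_cast
      linarith
  exact_mod_cast h3

/-- the index of the monomial `x_m x_i` -/
def RSNG_ix (m i : Fin 6) : Idx := if h : m ≤ i then ⟨(m, i), h⟩ else ⟨(i, m), le_of_not_ge h⟩

/-- `q` involves `m` -/
abbrev RSNG_inv (m : Fin 6) (q : Idx) : Prop := q.1.1 = m ∨ q.1.2 = m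

theorem RSNG_card : Fintype.card Idx = 21 := by decide

theorem RSNG_seven : ∀ i : Fin 6, ∑ q : Idx, ((if q.1.1 = i then 1 else 0) +
    (if q.1.2 = i then 1 else 0) : ℕ) = 7 := by decide

theorem RSNG_fifteen : ∀ m : Fin 6,
    ((Finset.univ : Finset Idx).filter fun q => ¬ RSNG_inv m q).card = 15 := by decide

theorem RSNG_exix (m : Fin 6) (q : Idx) (h : RSNG_inv m q) : ∃ i, q = RSNG_ix m i := by
  obtain ⟨⟨a, b⟩, hab⟩ := q
  rcases h with h | h
  · refine ⟨b, ?_⟩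
    simp only at h hab
    subst h
    simp [RSNG_ix, hab]
  · refine ⟨a, ?_⟩
    simp only at h hab
    subst h
    unfold RSNG_ix
    by_cases hba : b ≤ a
    · have : a = b := le_antisymm hab hba
      subst this
      simp
    · simp [hba]

theorem RSNG_ixne (m i : Fin 6) (q : Idx) (hi : i ≠ m) (h : RSNG_inv m q)
    (hq : q ≠ RSNG_ix m i) : q.1.1 ≠ i ∧ q.1.2 ≠ i := by
  obtain ⟨⟨a, b⟩, hab⟩ := q
  simp only at hab
  constructor
  · intro ha
    simp only at ha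
    subst ha
    rcases h with h | h
    · exact hi h
    · simp only at h
      subst h
      apply hq
      unfold RSNG_ix
      by_cases hba : b ≤ a
      · exact absurd (le_antisymm hab hba) hi
      · simp [hba]
  · intro hb
    simp only at hb
    subst hb
    rcases h with h | h
    · simp only at h
      subst h
      apply hq
      simp [RSNG_ix, hab]
    · exact hi h

theorem RSNG_ixinv (m i : Fin 6) : RSNG_inv m (RSNG_ix m i) := by
  unfold RSNG_ix
  split_ifs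
  · exact Or.inl rfl
  · exact Or.inr rfl

theorem RSNG_ixv (m i : Fin 6) (y : Fin 6 → ℝ) (hi : i ≠ m) :
    ((if (RSNG_ix m i).1.1 = i then y (RSNG_ix m i).1.2 else 0) +
      (if (RSNG_ix m i).1.2 = i then y (RSNG_ix m i).1.1 else 0)) = y m := by
  unfold RSNG_ix
  split_ifs with h1 h2 h3 h4 h5 <;> simp_all

/-- estimates for `Q` -/
theorem RSNG_Q (A δ : ℝ) (hA : 0 ≤ A) (a : Idx → ℝ) (ha : ∀ q, |a q| ≤ A) (x y : Fin 6 → ℝ)
    (hx : ∀ i, |x i| ≤ 1) (hy : ∀ i, |y i| ≤ 1) (hxy : ∀ i, |y i - x i| ≤ δ) (h0 : Q a x = 0) :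
    |Q a y| ≤ 42 * A * δ := by
  have h1 : Q a y = ∑ q : Idx, a q * (y q.1.1 * y q.1.2 - x q.1.1 * x q.1.2) := by
    have : Q a y = Q a y - Q a x := by rw [h0, sub_zero]
    rw [this]
    unfold Q
    rw [← Finset.sum_sub_distrib]
    exact Finset.sum_congr rfl fun q _ => by ring
  rw [h1]
  calc |∑ q : Idx, a q * (y q.1.1 * y q.1.2 - x q.1.1 * x q.1.2)|
      ≤ ∑ q : Idx, |a q * (y q.1.1 * y q.1.2 - x q.1.1 * x q.1.2)| :=
        Finset.abs_sum_le_sum_abs _ _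
    _ ≤ ∑ _q : Idx, A * (2 * δ) := by
        refine Finset.sum_le_sum fun q _ => ?_
        rw [abs_mul]
        refine mul_le_mul (ha q) ?_ (abs_nonneg _) hA
        have h2 : y q.1.1 * y q.1.2 - x q.1.1 * x q.1.2 =
            (y q.1.1 - x q.1.1) * y q.1.2 + x q.1.1 * (y q.1.2 - x q.1.2) := by ring
        rw [h2]
        refine (abs_add_le _ _).trans ?_
        rw [abs_mul, abs_mul]
        have h3 := hxy q.1.1
        have h4 := hxy q.1.2
        have h5 := hy q.1.2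
        have h6 := hx q.1.1
        have h7 : 0 ≤ δ := (abs_nonneg _).trans h3
        have h8 : |y q.1.1 - x q.1.1| * |y q.1.2| ≤ δ * 1 :=
          mul_le_mul h3 h5 (abs_nonneg _) h7
        have h9 : |x q.1.1| * |y q.1.2 - x q.1.2| ≤ 1 * δ :=
          mul_le_mul h6 h4 (abs_nonneg _) zero_le_one
        linarith
    _ = 42 * A * δ := by
        rw [Finset.sum_const, Finset.card_univ, RSNG_card, nsmul_eq_mul]
        push_cast
        ring

/-- estimates for `G` -/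
theorem RSNG_G (A η : ℝ) (hA : 0 ≤ A) (a : Idx → ℝ) (ha : ∀ q, |a q| ≤ A)
    (z : Fin 6 → ℝ) (hz : ∀ i, |z i| ≤ η) (i : Fin 6) : |G a z i| ≤ 7 * A * η := by
  have h7 : ∑ q : Idx, ((if q.1.1 = i then (1 : ℝ) else 0) + (if q.1.2 = i then 1 else 0)) = 7 := by
    have := RSNG_seven i
    exact_mod_cast this
  unfold G
  calc |∑ q : Idx, a q * ((if q.1.1 = i then z q.1.2 else 0) + (if q.1.2 = i then z q.1.1 else 0))|
      ≤ ∑ q : Idx, |a q * ((if q.1.1 = i then z q.1.2 else 0) +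
          (if q.1.2 = i then z q.1.1 else 0))| := Finset.abs_sum_le_sum_abs _ _
    _ ≤ ∑ q : Idx, (A * η) * ((if q.1.1 = i then (1 : ℝ) else 0) +
          (if q.1.2 = i then 1 else 0)) := by
        refine Finset.sum_le_sum fun q _ => ?_
        rw [abs_mul, mul_assoc]
        refine mul_le_mul (ha q) ?_ (abs_nonneg _) hA
        refine (abs_add_le _ _).trans ?_
        rw [mul_add]
        refine add_le_add ?_ ?_
        · split_ifs
          · simpa using hz _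
          · simp
        · split_ifs
          · simpa using hz _
          · simp
    _ = 7 * A * η := by
        rw [← Finset.mul_sum, h7]
        ring

theorem RSNG_Gsub (a : Idx → ℝ) (x y : Fin 6 → ℝ) (i : Fin 6) :
    G a y i - G a x i = G a (fun j => y j - x j) i := by
  unfold G
  rw [← Finset.sum_sub_distrib]
  refine Finset.sum_congr rfl fun q _ => ?_
  split_ifs <;> ring

theorem RSNG_GG (A δ : ℝ) (hA : 0 ≤ A) (hδ : 0 ≤ δ) (a b : Idx → ℝ) (ha : ∀ q, |a q| ≤ A)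
    (hb : ∀ q, |b q| ≤ A) (x y : Fin 6 → ℝ) (hx : ∀ i, |x i| ≤ 1) (hy : ∀ i, |y i| ≤ 1)
    (hxy : ∀ i, |y i - x i| ≤ δ) (i j : Fin 6) :
    |G a y i * G b y j - G a x i * G b x j| ≤ 98 * A ^ 2 * δ := by
  have h1 : G a y i * G b y j - G a x i * G b x j =
      (G a y i - G a x i) * G b y j + G a x i * (G b y j - G b x j) := by ring
  rw [h1, RSNG_Gsub, RSNG_Gsub]
  refine (abs_add_le _ _).trans ?_
  rw [abs_mul, abs_mul]
  have e1 := RSNG_G A δ hA a ha (fun j => y j - x j) hxy i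
  have e2 := RSNG_G A δ hA b hb (fun j => y j - x j) hxy j
  have e3 := RSNG_G A 1 hA b hb y hy j
  have e4 := RSNG_G A 1 hA a ha x hx i
  have h2 : |G a (fun j => y j - x j) i| * |G b y j| ≤ (7 * A * δ) * (7 * A * 1) :=
    mul_le_mul e1 e3 (abs_nonneg _) (by positivity)
  have h3 : |G a x i| * |G b (fun j => y j - x j) j| ≤ (7 * A * 1) * (7 * A * δ) :=
    mul_le_mul e4 e2 (abs_nonneg _) (by positivity)
  nlinarith

theorem RSNG_mn (A δ : ℝ) (hA : 0 ≤ A) (hδ : 0 ≤ δ) (a b : Idx → ℝ) (ha : ∀ q, |a q| ≤ A)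
    (hb : ∀ q, |b q| ≤ A) (x y : Fin 6 → ℝ) (hx : ∀ i, |x i| ≤ 1) (hy : ∀ i, |y i| ≤ 1)
    (hxy : ∀ i, |y i - x i| ≤ δ) (i j : Fin 6) (h : |mn a b x i j| ≤ δ * A ^ 2) :
    |mn a b y i j| ≤ 197 * δ * A ^ 2 := by
  have h1 := abs_le.mp (RSNG_GG A δ hA hδ a b ha hb x y hx hy hxy i j)
  have h2 := abs_le.mp (RSNG_GG A δ hA hδ a b ha hb x y hx hy hxy j i)
  unfold mn at h ⊢
  have h3 := abs_le.mp h
  rw [abs_le]
  constructor <;> nlinarith [h1.1, h1.2, h2.1, h2.2, h3.1, h3.2]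

/-- the net point of `(m, t)` -/
noncomputable def RSNG_y (q : ℕ) (m : Fin 6) (t : Fin 5 → ℤ) : Fin 6 → ℝ :=
  m.insertNth (α := fun _ => ℝ) 1 fun k => (t k : ℝ) / q

theorem RSNG_ym (q : ℕ) (m : Fin 6) (t : Fin 5 → ℤ) : RSNG_y q m t m = 1 := by
  simp [RSNG_y]

theorem RSNG_ys (q : ℕ) (m : Fin 6) (t : Fin 5 → ℤ) (k : Fin 5) :
    RSNG_y q m t (m.succAbove k) = (t k : ℝ) / q := by
  simp [RSNG_y]

theorem RSNG_yle (q : ℕ) (hq : 1 ≤ q) (m : Fin 6) (t : Fin 5 → ℤ)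
    (ht : t ∈ Fintype.piFinset fun _ : Fin 5 => Finset.Icc (-(q : ℤ)) q) (i : Fin 6) :
    |RSNG_y q m t i| ≤ 1 := by
  have hq0 : (0 : ℝ) < q := by exact_mod_cast hq
  by_cases hi : i = m
  · rw [hi, RSNG_ym]
    simp
  · obtain ⟨k, rfl⟩ := Fin.exists_succAbove_eq hi
    rw [RSNG_ys, abs_div, abs_of_pos hq0, div_le_one hq0]
    have := Finset.mem_Icc.mp (Fintype.mem_piFinset.mp ht k)
    rw [abs_le]
    constructor
    · exact_mod_cast this.1
    · exact_mod_cast this.2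

theorem RSNG_net (q : ℕ) (hq : 1 ≤ q) (A : ℕ) (a b : Idx → ℤ) (ha : a ∈ Box A) (hb : b ∈ Box A)
    (h : RSing (1 / q) A a b) :
    ∃ m : Fin 6, ∃ t ∈ Fintype.piFinset fun _ : Fin 5 => Finset.Icc (-(q : ℤ)) q,
      |Q (fun q => (a q : ℝ)) (RSNG_y q m t)| ≤ 42 * A * (1 / q) ∧
      |Q (fun q => (b q : ℝ)) (RSNG_y q m t)| ≤ 42 * A * (1 / q) ∧
      ∀ i j, |mn (fun q => (a q : ℝ)) (fun q => (b q : ℝ)) (RSNG_y q m t) i j| ≤
        197 * (1 / q) * (A : ℝ) ^ 2 := by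
  have hq0 : (0 : ℝ) < q := by exact_mod_cast hq
  obtain ⟨x, hx1, ⟨m, hm⟩, hxa, hxb, hmn⟩ := h
  -- normalise `x m = 1`
  obtain ⟨w, hw1, hwm, hwa, hwb, hwmn⟩ : ∃ w : Fin 6 → ℝ, (∀ i, |w i| ≤ 1) ∧ w m = 1 ∧
      Q (fun q => (a q : ℝ)) w = 0 ∧ Q (fun q => (b q : ℝ)) w = 0 ∧
      ∀ i j, |mn (fun q => (a q : ℝ)) (fun q => (b q : ℝ)) w i j| ≤ 1 / q * (A : ℝ) ^ 2 := by
    rcases (abs_eq (zero_le_one)).mp hm with h1 | h1
    · exact ⟨x, hx1, h1, hxa, hxb, hmn⟩
    · refine ⟨fun i => - x i, fun i => by rw [abs_neg]; exact hx1 i, by simp [h1], ?_, ?_, ?_⟩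
      · rw [← hxa]
        unfold Q
        exact Finset.sum_congr rfl fun q _ => by ring
      · rw [← hxb]
        unfold Q
        exact Finset.sum_congr rfl fun q _ => by ring
      · intro i j
        have hG : ∀ (c : Idx → ℝ) (i : Fin 6), G c (fun i => - x i) i = - G c x i := by
          intro c i
          unfold G
          rw [← Finset.sum_neg_distrib]
          refine Finset.sum_congr rfl fun q _ => ?_
          split_ifs <;> ring
        have : mn (fun q => (a q : ℝ)) (fun q => (b q : ℝ)) (fun i => - x i) i j =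
            mn (fun q => (a q : ℝ)) (fun q => (b q : ℝ)) x i j := by
          unfold mn
          rw [hG, hG, hG, hG]
          ring
        rw [this]
        exact hmn i j
  refine ⟨m, fun k => ⌊(q : ℝ) * w (m.succAbove k)⌋, ?_, ?_⟩
  · rw [Fintype.mem_piFinset]
    intro k
    have h1 := abs_le.mp (hw1 (m.succAbove k))
    rw [Finset.mem_Icc]
    constructor
    · rw [Int.le_floor]
      push_cast
      nlinarith [h1.1]
    · have h2 : (⌊(q : ℝ) * w (m.succAbove k)⌋ : ℝ) ≤ (q : ℝ) * w (m.succAbove k) :=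
        Int.floor_le _
      have h3 : (⌊(q : ℝ) * w (m.succAbove k)⌋ : ℝ) ≤ (q : ℝ) := by nlinarith [h1.2]
      exact_mod_cast h3
  · set t : Fin 5 → ℤ := fun k => ⌊(q : ℝ) * w (m.succAbove k)⌋ with ht
    have htm : t ∈ Fintype.piFinset fun _ : Fin 5 => Finset.Icc (-(q : ℤ)) q := by
      rw [Fintype.mem_piFinset]
      intro k
      have h1 := abs_le.mp (hw1 (m.succAbove k))
      rw [Finset.mem_Icc]
      constructor
      · rw [ht, Int.le_floor]
        push_cast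
        nlinarith [h1.1]
      · have h2 : (⌊(q : ℝ) * w (m.succAbove k)⌋ : ℝ) ≤ (q : ℝ) * w (m.succAbove k) :=
          Int.floor_le _
        have h3 : (⌊(q : ℝ) * w (m.succAbove k)⌋ : ℝ) ≤ (q : ℝ) := by nlinarith [h1.2]
        exact_mod_cast h3
    have hy1 := RSNG_yle q hq m t htm
    have hyw : ∀ i, |RSNG_y q m t i - w i| ≤ 1 / q := by
      intro i
      by_cases hi : i = m
      · rw [hi, RSNG_ym, hwm, sub_self, abs_zero]
        positivity
      · obtain ⟨k, rfl⟩ := Fin.exists_succAbove_eq hi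
        rw [RSNG_ys, ht]
        simp only
        have h2 : (⌊(q : ℝ) * w (m.succAbove k)⌋ : ℝ) ≤ (q : ℝ) * w (m.succAbove k) :=
          Int.floor_le _
        have h3 : (q : ℝ) * w (m.succAbove k) < ⌊(q : ℝ) * w (m.succAbove k)⌋ + 1 :=
          Int.lt_floor_add_one _
        have h4 : (⌊(q : ℝ) * w (m.succAbove k)⌋ : ℝ) / q - w (m.succAbove k) =
            (⌊(q : ℝ) * w (m.succAbove k)⌋ - q * w (m.succAbove k)) / q := by
          field_simp
        rw [h4, abs_div, abs_of_pos hq0]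
        refine div_le_div_of_nonneg_right ?_ hq0.le
        rw [abs_le]
        constructor <;> linarith
    have haA : ∀ q : Idx, |(fun q => (a q : ℝ)) q| ≤ (A : ℝ) := by
      intro q
      have := Finset.mem_Icc.mp (Fintype.mem_piFinset.mp ha q)
      simp only
      rw [abs_le]
      constructor
      · exact_mod_cast this.1
      · exact_mod_cast this.2
    have hbA : ∀ q : Idx, |(fun q => (b q : ℝ)) q| ≤ (A : ℝ) := by
      intro q
      have := Finset.mem_Icc.mp (Fintype.mem_piFinset.mp hb q)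
      simp only
      rw [abs_le]
      constructor
      · exact_mod_cast this.1
      · exact_mod_cast this.2
    have hA0 : (0 : ℝ) ≤ A := Nat.cast_nonneg A
    have hδ0 : (0 : ℝ) ≤ 1 / q := by positivity
    exact ⟨RSNG_Q A _ hA0 _ haA w _ hw1 hy1 hyw hwa, RSNG_Q A _ hA0 _ hbA w _ hw1 hy1 hyw hwb,
      fun i j => RSNG_mn A _ hA0 hδ0 _ _ haA hbA w _ hw1 hy1 hyw i j (hwmn i j)⟩

/-- the part of the coefficient vector without the variable `m` -/
def RSNG_f (m : Fin 6) (a : Idx → ℤ) : Idx → ℤ := fun q => if RSNG_inv m q then 0 else a q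

theorem RSNG_Gf (m i : Fin 6) (hi : i ≠ m) (a : Idx → ℤ) (y : Fin 6 → ℝ) (hy : y m = 1) :
    G (fun q => (a q : ℝ)) y i =
      (a (RSNG_ix m i) : ℝ) + G (fun q => ((RSNG_f m a) q : ℝ)) y i := by
  have h1 : G (fun q => (a q : ℝ)) y i - G (fun q => ((RSNG_f m a) q : ℝ)) y i =
      (a (RSNG_ix m i) : ℝ) := by
    unfold G
    rw [← Finset.sum_sub_distrib, Finset.sum_eq_single (RSNG_ix m i)]
    · rw [← sub_mul, RSNG_ixv m i y hi, hy]
      simp [RSNG_f, RSNG_ixinv m i]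
    · intro q _ hq
      by_cases h : RSNG_inv m q
      · obtain ⟨h2, h3⟩ := RSNG_ixne m i q hi h hq
        simp [h2, h3]
      · simp [RSNG_f, h]
    · intro h
      exact absurd (Finset.mem_univ _) h
  linarith

/-- equality of coefficient vectors from their parts -/
theorem RSNG_eq (m : Fin 6) (a a' : Idx → ℤ) (h1 : RSNG_f m a = RSNG_f m a')
    (h2 : ∀ k : Fin 5, a (RSNG_ix m (m.succAbove k)) = a' (RSNG_ix m (m.succAbove k)))
    (q : Idx) (hq : q ≠ RSNG_ix m m) : a q = a' q := by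
  by_cases h : RSNG_inv m q
  · obtain ⟨i, rfl⟩ := RSNG_exix m q h
    by_cases hi : i = m
    · subst hi
      exact absurd rfl hq
    · obtain ⟨k, rfl⟩ := Fin.exists_succAbove_eq hi
      exact h2 k
  · have := congrFun h1 q
    simpa [RSNG_f, h] using this

theorem RSNG_Qd (m : Fin 6) (a a' : Idx → ℤ) (h1 : RSNG_f m a = RSNG_f m a')
    (h2 : ∀ k : Fin 5, a (RSNG_ix m (m.succAbove k)) = a' (RSNG_ix m (m.succAbove k)))
    (y : Fin 6 → ℝ) (hy : y m = 1) :
    Q (fun q => (a q : ℝ)) y - Q (fun q => (a' q : ℝ)) y =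
      (a (RSNG_ix m m) : ℝ) - a' (RSNG_ix m m) := by
  unfold Q
  rw [← Finset.sum_sub_distrib, Finset.sum_eq_single (RSNG_ix m m)]
  · have h3 : (RSNG_ix m m).1.1 = m ∧ (RSNG_ix m m).1.2 = m := by
      simp [RSNG_ix]
    rw [h3.1, h3.2, hy]
    ring
  · intro q _ hq
    have h3 := RSNG_eq m a a' h1 h2 q hq
    simp only [h3]
    ring
  · intro h
    exact absurd (Finset.mem_univ _) h

theorem RSNG_cnt (hM : Stmt_MIN5) : ∃ C : ℝ, 1 ≤ C ∧ ∀ δ : ℝ, 0 < δ → δ ≤ 1 → ∃ A₁ : ℕ,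
    ∀ A : ℕ, A₁ ≤ A → ∀ (m : Fin 6) (y : Fin 6 → ℝ), y m = 1 → (∀ i, |y i| ≤ 1) →
    ∀ T : Finset ((Idx → ℤ) × (Idx → ℤ)), T ⊆ Box A ×ˢ Box A →
    (∀ z ∈ T, |Q (fun q => (z.1 q : ℝ)) y| ≤ 42 * A * δ ∧
      |Q (fun q => (z.2 q : ℝ)) y| ≤ 42 * A * δ ∧
      ∀ i j, |mn (fun q => (z.1 q : ℝ)) (fun q => (z.2 q : ℝ)) y i j| ≤ 197 * δ * (A : ℝ) ^ 2) →
    (T.card : ℝ) ≤ (2 * (A : ℝ) + 1) ^ 30 * (C * δ ^ 4 * (A : ℝ) ^ 10 * (169 * A * δ) ^ 2) := by
  classical
  obtain ⟨C, hC, hMC⟩ := hM 197 (by norm_num)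
  refine ⟨C, hC, fun δ hδ hδ1 => ?_⟩
  obtain ⟨A₁, hA₁⟩ := hMC δ hδ hδ1
  obtain ⟨A₂, hA₂⟩ := exists_nat_ge (1 / δ)
  refine ⟨max A₁ A₂, fun A hA m y hym hy T hT hTy => ?_⟩
  have hAδ : 1 ≤ A * δ := by
    have h1 : (A₂ : ℝ) ≤ A := by exact_mod_cast (le_max_right _ _).trans hA
    have h2 : 1 / δ ≤ A := hA₂.trans h1
    rwa [div_le_iff₀ hδ] at h2
  have hA0 : (0 : ℝ) ≤ A := Nat.cast_nonneg A
  have hbox : ∀ z ∈ T, (∀ q, |((z.1 q : ℤ) : ℝ)| ≤ A) ∧ ∀ q, |((z.2 q : ℤ) : ℝ)| ≤ A := by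
    intro z hz
    obtain ⟨h1, h2⟩ := Finset.mem_product.mp (hT hz)
    constructor
    · intro q
      have := Finset.mem_Icc.mp (Fintype.mem_piFinset.mp h1 q)
      rw [abs_le]
      constructor
      · exact_mod_cast this.1
      · exact_mod_cast this.2
    · intro q
      have := Finset.mem_Icc.mp (Fintype.mem_piFinset.mp h2 q)
      rw [abs_le]
      constructor
      · exact_mod_cast this.1
      · exact_mod_cast this.2
  refine RSNG_fib T (fun z => (RSNG_f m z.1, RSNG_f m z.2)) _ _ (by positivity) ?_ ?_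
  · -- the part without `m`
    set PF : Finset (Idx → ℤ) := Fintype.piFinset fun q =>
      if RSNG_inv m q then ({0} : Finset ℤ) else Finset.Icc (-(A : ℤ)) A with hPF
    have hsub : (T.image fun z => (RSNG_f m z.1, RSNG_f m z.2)) ⊆ PF ×ˢ PF := by
      intro w hw
      obtain ⟨z, hz, rfl⟩ := Finset.mem_image.mp hw
      obtain ⟨h1, h2⟩ := Finset.mem_product.mp (hT hz)
      have hmem : ∀ a ∈ Box A, RSNG_f m a ∈ PF := by
        intro a ha
        rw [hPF, Fintype.mem_piFinset]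
        intro q
        have := Fintype.mem_piFinset.mp ha q
        unfold RSNG_f
        by_cases h : RSNG_inv m q
        · simp only [h, if_true, Finset.mem_singleton]
        · simp only [h, if_false]
          exact this
      exact Finset.mem_product.mpr ⟨hmem _ h1, hmem _ h2⟩
    have hcard : PF.card = (2 * A + 1) ^ 15 := by
      rw [hPF, Fintype.card_piFinset]
      have h1 : ∀ q : Idx, (if RSNG_inv m q then ({0} : Finset ℤ) else
          Finset.Icc (-(A : ℤ)) A).card = if RSNG_inv m q then 1 else 2 * A + 1 := by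
        intro q
        split_ifs
        · simp
        · rw [Int.card_Icc]
          omega
      rw [Finset.prod_congr rfl fun q _ => h1 q, Finset.prod_ite]
      rw [Finset.prod_const_one, one_mul, Finset.prod_const]
      congr 1
      rw [← RSNG_fifteen m]
    have h2 := Finset.card_le_card hsub
    rw [Finset.card_product, hcard] at h2
    calc (((T.image fun z => (RSNG_f m z.1, RSNG_f m z.2)).card : ℕ) : ℝ)
        ≤ (((2 * A + 1) ^ 15 * (2 * A + 1) ^ 15 : ℕ) : ℝ) := by exact_mod_cast h2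
      _ = (2 * (A : ℝ) + 1) ^ 30 := by
          push_cast
          ring
  · intro w _
    set T1 := T.filter fun z => (RSNG_f m z.1, RSNG_f m z.2) = w with hT1
    have hT1m : ∀ z ∈ T1, z ∈ T ∧ RSNG_f m z.1 = w.1 ∧ RSNG_f m z.2 = w.2 := by
      intro z hz
      obtain ⟨h1, h2⟩ := Finset.mem_filter.mp hz
      exact ⟨h1, congrArg Prod.fst h2, congrArg Prod.snd h2⟩
    refine RSNG_fib T1 (fun z => (fun k : Fin 5 => z.1 (RSNG_ix m (m.succAbove k)),
      fun k : Fin 5 => z.2 (RSNG_ix m (m.succAbove k)))) _ _ (by positivity) ?_ ?_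
    · refine hA₁ A ((le_max_left _ _).trans hA)
        (fun k => G (fun q => ((w.1 q : ℤ) : ℝ)) y (m.succAbove k))
        (fun k => G (fun q => ((w.2 q : ℤ) : ℝ)) y (m.succAbove k)) _ ?_
      intro s hs
      obtain ⟨z, hz, rfl⟩ := Finset.mem_image.mp hs
      obtain ⟨hz1, hz2, hz3⟩ := hT1m z hz
      have e1 : ∀ k : Fin 5, ((z.1 (RSNG_ix m (m.succAbove k)) : ℤ) : ℝ) +
          G (fun q => ((w.1 q : ℤ) : ℝ)) y (m.succAbove k) =
          G (fun q => (z.1 q : ℝ)) y (m.succAbove k) := by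
        intro k
        rw [RSNG_Gf m (m.succAbove k) (Fin.succAbove_ne m k) z.1 y hym, hz2]
      have e2 : ∀ k : Fin 5, ((z.2 (RSNG_ix m (m.succAbove k)) : ℤ) : ℝ) +
          G (fun q => ((w.2 q : ℤ) : ℝ)) y (m.succAbove k) =
          G (fun q => (z.2 q : ℝ)) y (m.succAbove k) := by
        intro k
        rw [RSNG_Gf m (m.succAbove k) (Fin.succAbove_ne m k) z.2 y hym, hz3]
      refine ⟨fun i => ?_, fun i => ?_, fun i j => ?_⟩
      · simp only
        rw [e1 i]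
        have := RSNG_G A 1 hA0 (fun q => (z.1 q : ℝ)) (hbox z hz1).1 y hy (m.succAbove i)
        linarith
      · simp only
        rw [e2 i]
        have := RSNG_G A 1 hA0 (fun q => (z.2 q : ℝ)) (hbox z hz1).2 y hy (m.succAbove i)
        linarith
      · simp only
        rw [e1 i, e1 j, e2 i, e2 j]
        exact (hTy z hz1).2.2 (m.succAbove i) (m.succAbove j)
    · intro s hs
      obtain ⟨z₀, hz₀, hs₀⟩ := Finset.mem_image.mp hs
      obtain ⟨hz01, hz02, hz03⟩ := hT1m z₀ hz₀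
      set T2 := T1.filter fun z => (fun k : Fin 5 => z.1 (RSNG_ix m (m.succAbove k)),
        fun k : Fin 5 => z.2 (RSNG_ix m (m.succAbove k))) = s with hT2
      have hT2m : ∀ z ∈ T2, z ∈ T1 ∧
          (∀ k : Fin 5, z.1 (RSNG_ix m (m.succAbove k)) = s.1 k) ∧
          ∀ k : Fin 5, z.2 (RSNG_ix m (m.succAbove k)) = s.2 k := by
        intro z hz
        obtain ⟨h1, h2⟩ := Finset.mem_filter.mp hz
        exact ⟨h1, fun k => congrFun (congrArg Prod.fst h2) k,
          fun k => congrFun (congrArg Prod.snd h2) k⟩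
      have hs1 : ∀ k : Fin 5, z₀.1 (RSNG_ix m (m.succAbove k)) = s.1 k :=
        fun k => congrFun (congrArg Prod.fst hs₀) k
      have hs2 : ∀ k : Fin 5, z₀.2 (RSNG_ix m (m.succAbove k)) = s.2 k :=
        fun k => congrFun (congrArg Prod.snd hs₀) k
      have hcard : T2.card = (T2.image fun z => (z.1 (RSNG_ix m m), z.2 (RSNG_ix m m))).card := by
        rw [Finset.card_image_of_injOn]
        intro z hz z' hz' h
        obtain ⟨h1, h2, h3⟩ := hT2m z hz
        obtain ⟨h1', h2', h3'⟩ := hT2m z' hz'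
        obtain ⟨-, h4, h5⟩ := hT1m z h1
        obtain ⟨-, h4', h5'⟩ := hT1m z' h1'
        refine Prod.ext (funext fun q => ?_) (funext fun q => ?_)
        · by_cases hq : q = RSNG_ix m m
          · rw [hq]
            exact congrArg Prod.fst h
          · exact RSNG_eq m z.1 z'.1 (h4.trans h4'.symm) (fun k => (h2 k).trans (h2' k).symm) q hq
        · by_cases hq : q = RSNG_ix m m
          · rw [hq]
            exact congrArg Prod.snd h
          · exact RSNG_eq m z.2 z'.2 (h5.trans h5'.symm) (fun k => (h3 k).trans (h3' k).symm) q hq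
      rw [hcard]
      set ρ : ℝ := 84 * A * δ with hρ
      have hρ0 : 0 ≤ ρ := by positivity
      have hsub : (T2.image fun z => (z.1 (RSNG_ix m m), z.2 (RSNG_ix m m))) ⊆
          (Finset.Icc ⌈(z₀.1 (RSNG_ix m m) : ℝ) - ρ⌉ ⌊(z₀.1 (RSNG_ix m m) : ℝ) + ρ⌋) ×ˢ
          (Finset.Icc ⌈(z₀.2 (RSNG_ix m m) : ℝ) - ρ⌉ ⌊(z₀.2 (RSNG_ix m m) : ℝ) + ρ⌋) := by
        intro v hv
        obtain ⟨z, hz, rfl⟩ := Finset.mem_image.mp hv
        obtain ⟨h1, h2, h3⟩ := hT2m z hz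
        obtain ⟨h0, h4, h5⟩ := hT1m z h1
        have q1 := RSNG_Qd m z.1 z₀.1 (h4.trans hz02.symm) (fun k => (h2 k).trans (hs1 k).symm)
          y hym
        have q2 := RSNG_Qd m z.2 z₀.2 (h5.trans hz03.symm) (fun k => (h3 k).trans (hs2 k).symm)
          y hym
        have b1 := abs_le.mp (hTy z h0).1
        have b2 := abs_le.mp (hTy z h0).2.1
        have b3 := abs_le.mp (hTy z₀ hz01).1
        have b4 := abs_le.mp (hTy z₀ hz01).2.1
        rw [Finset.mem_product]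
        refine ⟨Finset.mem_Icc.mpr ⟨Int.ceil_le.mpr ?_, Int.le_floor.mpr ?_⟩,
          Finset.mem_Icc.mpr ⟨Int.ceil_le.mpr ?_, Int.le_floor.mpr ?_⟩⟩
        · simp only
          rw [hρ]
          linarith [b1.1, b3.2]
        · simp only
          rw [hρ]
          linarith [b1.2, b3.1]
        · simp only
          rw [hρ]
          linarith [b2.1, b4.2]
        · simp only
          rw [hρ]
          linarith [b2.2, b4.1]
      have hc := Finset.card_le_card hsub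
      rw [Finset.card_product] at hc
      have hi1 := RSNG_int (z₀.1 (RSNG_ix m m) : ℝ) ρ hρ0
      have hi2 := RSNG_int (z₀.2 (RSNG_ix m m) : ℝ) ρ hρ0
      have hle : 2 * ρ + 1 ≤ 169 * A * δ := by
        rw [hρ]
        linarith
      calc (((T2.image fun z => (z.1 (RSNG_ix m m), z.2 (RSNG_ix m m))).card : ℕ) : ℝ)
          ≤ ((Finset.Icc ⌈(z₀.1 (RSNG_ix m m) : ℝ) - ρ⌉ ⌊(z₀.1 (RSNG_ix m m) : ℝ) + ρ⌋).card : ℝ) *
            ((Finset.Icc ⌈(z₀.2 (RSNG_ix m m) : ℝ) - ρ⌉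
              ⌊(z₀.2 (RSNG_ix m m) : ℝ) + ρ⌋).card : ℝ) := by exact_mod_cast hc
        _ ≤ (169 * A * δ) * (169 * A * δ) :=
            mul_le_mul (hi1.trans hle) (hi2.trans hle) (Nat.cast_nonneg _) (by positivity)
        _ = (169 * A * δ) ^ 2 := by ring

theorem p_RSNG (hM : Stmt_MIN5) : Stmt_RSNG := by
  classical
  obtain ⟨C, hC, hcnt⟩ := RSNG_cnt hM
  intro ε hε
  set D : ℝ := 6 * 3 ^ 5 * 169 ^ 2 * C with hD
  have hD0 : 0 < D := by positivity
  obtain ⟨q₀, hq₀⟩ := exists_nat_ge (D / ε)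
  set q : ℕ := q₀ + 1 with hq
  have hq1 : 1 ≤ q := by omega
  have hqR : (1 : ℝ) ≤ q := by exact_mod_cast hq1
  have hq0 : (0 : ℝ) < q := by linarith
  have hDq : D / q ≤ ε := by
    rw [div_le_iff₀ hq0]
    have h1 : D / ε ≤ q := hq₀.trans (by rw [hq]; push_cast; linarith)
    rw [div_le_iff₀ hε] at h1
    linarith
  obtain ⟨A₁, hA₁⟩ := hcnt (1 / q) (by positivity) (by rw [div_le_one hq0]; exact hqR)
  refine ⟨1 / q, A₁, by positivity, by rw [div_le_one hq0]; exact hqR, fun A hA => ?_⟩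
  set NT : Finset (Fin 6 × (Fin 5 → ℤ)) :=
    Finset.univ ×ˢ (Fintype.piFinset fun _ : Fin 5 => Finset.Icc (-(q : ℤ)) q) with hNT
  set TT : Fin 6 × (Fin 5 → ℤ) → Finset ((Idx → ℤ) × (Idx → ℤ)) := fun s =>
    (Box A ×ˢ Box A).filter fun z =>
      |Q (fun q => (z.1 q : ℝ)) (RSNG_y q s.1 s.2)| ≤ 42 * A * (1 / q) ∧
      |Q (fun q => (z.2 q : ℝ)) (RSNG_y q s.1 s.2)| ≤ 42 * A * (1 / q) ∧
      ∀ i j, |mn (fun q => (z.1 q : ℝ)) (fun q => (z.2 q : ℝ)) (RSNG_y q s.1 s.2) i j| ≤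
        197 * (1 / q) * (A : ℝ) ^ 2 with hTT
  have hcov : ((Box A ×ˢ Box A).filter fun z => RSing (1 / q) A z.1 z.2) ⊆ NT.biUnion TT := by
    intro z hz
    obtain ⟨hz1, hz2⟩ := Finset.mem_filter.mp hz
    obtain ⟨h1, h2⟩ := Finset.mem_product.mp hz1
    obtain ⟨m, t, ht, h3⟩ := RSNG_net q hq1 A z.1 z.2 h1 h2 hz2
    rw [Finset.mem_biUnion]
    exact ⟨(m, t), Finset.mem_product.mpr ⟨Finset.mem_univ _, ht⟩,
      Finset.mem_filter.mpr ⟨hz1, h3⟩⟩
  have hNc : (NT.card : ℝ) ≤ 6 * (3 * q) ^ 5 := by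
    rw [hNT, Finset.card_product, Fintype.card_piFinset, Finset.card_univ, Fintype.card_fin]
    have h1 : ∀ _k : Fin 5, (Finset.Icc (-(q : ℤ)) q).card = 2 * q + 1 := by
      intro _
      rw [Int.card_Icc]
      omega
    rw [Finset.prod_congr rfl fun k _ => h1 k, Finset.prod_const, Finset.card_univ,
      Fintype.card_fin]
    push_cast
    have h2 : (2 * (q : ℝ) + 1) ^ 5 ≤ (3 * q) ^ 5 := pow_le_pow_left₀ (by positivity)
      (by linarith) 5
    linarith
  have hTc : ∀ s ∈ NT, ((TT s).card : ℝ) ≤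
      (2 * (A : ℝ) + 1) ^ 30 * (C * (1 / q) ^ 4 * (A : ℝ) ^ 10 * (169 * A * (1 / q)) ^ 2) := by
    intro s hs
    obtain ⟨-, hs2⟩ := Finset.mem_product.mp hs
    refine hA₁ A hA s.1 (RSNG_y q s.1 s.2) (RSNG_ym q s.1 s.2) (RSNG_yle q hq1 s.1 s.2 hs2)
      (TT s) (Finset.filter_subset _ _) ?_
    intro z hz
    exact (Finset.mem_filter.mp hz).2
  have hfin : (((Box A ×ˢ Box A).filter fun z => RSing (1 / q) A z.1 z.2).card : ℝ) ≤
      NT.card * ((2 * (A : ℝ) + 1) ^ 30 *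
        (C * (1 / q) ^ 4 * (A : ℝ) ^ 10 * (169 * A * (1 / q)) ^ 2)) := by
    have h1 := (Finset.card_le_card hcov).trans Finset.card_biUnion_le
    calc (((Box A ×ˢ Box A).filter fun z => RSing (1 / q) A z.1 z.2).card : ℝ)
        ≤ ((∑ s ∈ NT, (TT s).card : ℕ) : ℝ) := by exact_mod_cast h1
      _ = ∑ s ∈ NT, ((TT s).card : ℝ) := by push_cast; rfl
      _ ≤ ∑ _s ∈ NT, ((2 * (A : ℝ) + 1) ^ 30 *
        (C * (1 / q) ^ 4 * (A : ℝ) ^ 10 * (169 * A * (1 / q)) ^ 2)) := Finset.sum_le_sum hTc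
      _ = NT.card * ((2 * (A : ℝ) + 1) ^ 30 *
        (C * (1 / q) ^ 4 * (A : ℝ) ^ 10 * (169 * A * (1 / q)) ^ 2)) := by
          rw [Finset.sum_const, nsmul_eq_mul]
  refine hfin.trans ?_
  have hA0 : (0 : ℝ) ≤ A := Nat.cast_nonneg A
  have hpow : (A : ℝ) ^ 12 ≤ (2 * (A : ℝ) + 1) ^ 12 :=
    pow_le_pow_left₀ hA0 (by linarith) 12
  calc (NT.card : ℝ) * ((2 * (A : ℝ) + 1) ^ 30 *
        (C * (1 / q) ^ 4 * (A : ℝ) ^ 10 * (169 * A * (1 / q)) ^ 2))
      ≤ (6 * (3 * q) ^ 5) * ((2 * (A : ℝ) + 1) ^ 30 *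
        (C * (1 / q) ^ 4 * (A : ℝ) ^ 10 * (169 * A * (1 / q)) ^ 2)) :=
        mul_le_mul_of_nonneg_right hNc (by positivity)
    _ = D / q * ((2 * (A : ℝ) + 1) ^ 30 * (A : ℝ) ^ 12) := by
        rw [hD]
        field_simp
    _ ≤ ε * ((2 * (A : ℝ) + 1) ^ 30 * (2 * (A : ℝ) + 1) ^ 12) := by
        refine mul_le_mul hDq ?_ (by positivity) hε.le
        exact mul_le_mul_of_nonneg_left hpow (by positivity)
    _ = ε * (2 * (A : ℝ) + 1) ^ 42 := by ring

end Pool.HPQ
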