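import Pool.Agent.Work.MP_9fb703_hp.Interface

/-! # Block SIEV (helper53): points of a region in good classes -/

set_option autoImplicit false

namespace Pool.HPQ

open Finset

theorem SIEV_mem_cs (N : ℕ) {n : ℕ} (x : Fin n → ℤ) :
    x ∈ cs N (Fin n) ↔ ∀ l, 0 ≤ x l ∧ x l < N := by
  unfold cs
  simp [Fintype.mem_piFinset]

theorem SIEV_mod_mem (N : ℕ) (hN : 0 < N) {n : ℕ} (x : Fin n → ℤ) :
    (fun l => x l % (N : ℤ)) ∈ cs N (Fin n) := by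
  rw [SIEV_mem_cs]
  intro l
  exact ⟨Int.emod_nonneg _ (by positivity), Int.emod_lt_of_pos _ (by positivity)⟩

theorem SIEV_dt_mod (N : ℕ) (r x v : Fin 6 → ℤ) (h : ∀ l, (N : ℤ) ∣ x l - v l) :
    (N : ℤ) ∣ dt r x - dt r v := by
  unfold dt
  rw [← Finset.sum_sub_distrib]
  refine Finset.dvd_sum fun l _ => ?_
  rw [← mul_sub]
  exact Dvd.dvd.mul_left (h l) _

open Classical in
theorem SIEV_U (p : ℕ) (r : Fin 6 → ℤ) (hr : r 0 = 1) :
    ((cs p (Fin 6)).filter fun u => (p : ℤ) ∣ dt r u ∧ (p : ℤ) ∣ u 1).card ≤ p ^ 4 := by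
  have hc : (cs p (Fin 4)).card = p ^ 4 := by
    unfold cs
    simp [Fintype.card_piFinset]
  rw [← hc]
  refine Finset.card_le_card_of_injOn (fun u => ![u 2, u 3, u 4, u 5]) ?_ ?_
  · intro u hu
    simp only [coe_filter, Set.mem_ofPred_eq, SIEV_mem_cs] at hu
    simp only [mem_coe, SIEV_mem_cs]
    intro k
    fin_cases k
    · exact hu.1 2
    · exact hu.1 3
    · exact hu.1 4
    · exact hu.1 5
  · intro u hu u' hu' h
    simp only [coe_filter, Set.mem_ofPred_eq, SIEV_mem_cs] at hu hu'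
    obtain ⟨h1, h2, h3⟩ := hu
    obtain ⟨h1', h2', h3'⟩ := hu'
    have e2 : u 2 = u' 2 := congrFun h 0
    have e3 : u 3 = u' 3 := congrFun h 1
    have e4 : u 4 = u' 4 := congrFun h 2
    have e5 : u 5 = u' 5 := congrFun h 3
    have e1 : u 1 = u' 1 := by
      rw [Int.eq_zero_of_dvd_of_nonneg_of_lt (h1 1).1 (h1 1).2 h3,
        Int.eq_zero_of_dvd_of_nonneg_of_lt (h1' 1).1 (h1' 1).2 h3']
    have e0 : u 0 = u' 0 := by
      have h5 : (p : ℤ) ∣ dt r u - dt r u' := dvd_sub h2 h2'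
      have h6 : dt r u - dt r u' = u 0 - u' 0 := by
        unfold dt
        simp only [Fin.sum_univ_six, hr, e1, e2, e3, e4, e5]
        ring
      rw [h6] at h5
      have h7 := Int.emod_emod_of_dvd (u 0) (dvd_refl (p : ℤ))
      have h8 : u 0 % (p : ℤ) = u' 0 % (p : ℤ) := (Int.emod_emod_of_dvd _ (dvd_refl _)).symm.trans
        (by rw [Int.emod_emod_of_dvd _ (dvd_refl _)]; exact Int.emod_eq_emod_iff_emod_sub_eq_zero.2
              (Int.emod_eq_zero_of_dvd h5))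
      rwa [Int.emod_eq_of_lt (h1 0).1 (h1 0).2, Int.emod_eq_of_lt (h1' 0).1 (h1' 0).2] at h8
    funext l
    fin_cases l
    · exact e0
    · exact e1
    · exact e2
    · exact e3
    · exact e4
    · exact e5

/-- Chinese remainder theorem -/
theorem SIEV_crt (W p : ℕ) (h : Nat.Coprime W p) (v u : Fin 6 → ℤ) :
    ∃ z : Fin 6 → ℤ, ∀ x : Fin 6 → ℤ, (∀ l, (W : ℤ) ∣ x l - v l) → (∀ l, (p : ℤ) ∣ x l - u l) →
      ∀ l, ((W * p : ℕ) : ℤ) ∣ x l - z l := by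
  have hc : IsCoprime (W : ℤ) (p : ℤ) := Nat.isCoprime_iff_coprime.2 h
  obtain ⟨a, b, hab⟩ := hc
  refine ⟨fun l => v l + a * W * (u l - v l), fun x hx hx' l => ?_⟩
  push_cast
  refine IsCoprime.mul_dvd ⟨a, b, hab⟩ ?_ ?_
  · have e : x l - (v l + a * W * (u l - v l)) = (x l - v l) + W * (-(a * (u l - v l))) := by ring
    rw [e]
    exact dvd_add (hx l) (Dvd.intro _ rfl)
  · have e : x l - (v l + a * W * (u l - v l)) =
        (x l - u l) + p * (b * (u l - v l)) := by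
      have : a * W = 1 - b * p := by linarith
      rw [this]; ring
    rw [e]
    exact dvd_add (hx' l) (Dvd.intro _ rfl)

open Classical in
theorem SIEV_badp (hB : Stmt_BOXC) (W p : ℕ) (r : Fin 6 → ℤ) (hr : r 0 = 1) (hW : 0 < W)
    (hp : 0 < p) (hc : Nat.Coprime W p) (i j : Fin 6) (hij : i ≠ j) (ctr : Fin 6 → ℝ)
    (ψ : (Fin 6 → ℤ) → Fin 6 → ℝ) (ρ τ : ℝ) (hρ : ((W * p : ℕ) : ℝ) ≤ ρ)
    (hτ : ((W * p : ℕ) : ℝ) ≤ τ) (X : Finset (Fin 6 → ℤ))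
    (hψ : ∀ x x' : Fin 6 → ℤ, (∀ l, l ≠ i → l ≠ j → x l = x' l) → ψ x = ψ x')
    (hX : ∀ x : Fin 6 → ℤ, x ∈ X ↔ (∀ l, l ≠ i → l ≠ j → |x l - ctr l| ≤ ρ) ∧
      |x i - ψ x i| ≤ τ ∧ |x j - ψ x j| ≤ τ) (GS : Finset (Fin 6 → ℤ)) :
    ((X.filter fun x => (fun l => x l % (W : ℤ)) ∈ GS ∧ (p : ℤ) ∣ dt r x ∧
      (p : ℤ) ∣ x 1).card : ℝ) ≤
      (GS.card : ℝ) * (729 * ((ρ / W) ^ 4 * (τ / W) ^ 2)) * ((p : ℝ) ^ 2)⁻¹ := by
  have hz : ∀ q : (Fin 6 → ℤ) × (Fin 6 → ℤ), ∃ z : Fin 6 → ℤ, ∀ x : Fin 6 → ℤ,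
      (∀ l, (W : ℤ) ∣ x l - q.1 l) → (∀ l, (p : ℤ) ∣ x l - q.2 l) →
      ∀ l, ((W * p : ℕ) : ℤ) ∣ x l - z l := fun q => SIEV_crt W p hc q.1 q.2
  choose z hz using hz
  set U := (cs p (Fin 6)).filter fun u => (p : ℤ) ∣ dt r u ∧ (p : ℤ) ∣ u 1 with hU
  have hUc : U.card ≤ p ^ 4 := SIEV_U p r hr
  have hsub : (X.filter fun x => (fun l => x l % (W : ℤ)) ∈ GS ∧ (p : ℤ) ∣ dt r x ∧
      (p : ℤ) ∣ x 1) ⊆ (GS ×ˢ U).biUnion fun q =>
        X.filter fun x => ∀ l, ((W * p : ℕ) : ℤ) ∣ x l - z q l := by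
    intro x hx
    simp only [mem_filter] at hx
    obtain ⟨h1, h2, h3, h4⟩ := hx
    simp only [mem_biUnion, mem_product, mem_filter]
    refine ⟨((fun l => x l % (W : ℤ)), (fun l => x l % (p : ℤ))), ⟨h2, ?_⟩, h1, ?_⟩
    · rw [hU, mem_filter]
      have h5 : ∀ l, (p : ℤ) ∣ x l - (fun l => x l % (p : ℤ)) l := fun l => by
        simpa using Int.dvd_self_sub_emod
      refine ⟨SIEV_mod_mem p hp x, ?_, ?_⟩
      · have h6 := SIEV_dt_mod p r x _ h5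
        exact (dvd_sub_right h3).1 h6
      · exact (dvd_sub_right h4).1 (h5 1)
    · refine hz _ x (fun l => ?_) (fun l => ?_)
      · simpa using Int.dvd_self_sub_emod
      · simpa using Int.dvd_self_sub_emod
  have hN : 1 ≤ W * p := Nat.mul_pos hW hp
  have h1 : ∀ q ∈ GS ×ˢ U, ((X.filter fun x => ∀ l, ((W * p : ℕ) : ℤ) ∣ x l - z q l).card : ℝ) ≤
      729 * ((ρ / (W * p : ℕ)) ^ 4 * (τ / (W * p : ℕ)) ^ 2) := fun q _ =>
    (hB (W * p) i j ctr ψ ρ τ (z q) X hN hij hρ hτ hψ hX).2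
  have hWR : (0 : ℝ) < W := by exact_mod_cast hW
  have hpR : (0 : ℝ) < p := by exact_mod_cast hp
  have h2 : ((X.filter fun x => (fun l => x l % (W : ℤ)) ∈ GS ∧ (p : ℤ) ∣ dt r x ∧
      (p : ℤ) ∣ x 1).card : ℝ) ≤
      ∑ q ∈ GS ×ˢ U, ((X.filter fun x => ∀ l, ((W * p : ℕ) : ℤ) ∣ x l - z q l).card : ℝ) := by
    have := (Finset.card_le_card hsub).trans Finset.card_biUnion_le
    exact_mod_cast this
  have h3 := Finset.sum_le_sum h1
  rw [Finset.sum_const, nsmul_eq_mul, Finset.card_product] at h3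
  refine (h2.trans h3).trans ?_
  have hUR : (U.card : ℝ) ≤ (p : ℝ) ^ 4 := by exact_mod_cast hUc
  have hρ0 : 0 ≤ ρ := le_trans (by positivity) hρ
  have hτ0 : 0 ≤ τ := le_trans (by positivity) hτ
  have e1 : (ρ / (W * p : ℕ)) ^ 4 * (τ / (W * p : ℕ)) ^ 2 =
      (ρ / W) ^ 4 * (τ / W) ^ 2 * ((p : ℝ) ^ 6)⁻¹ := by
    push_cast
    field_simp
  rw [e1]
  push_cast
  calc (GS.card : ℝ) * U.card * (729 * ((ρ / W) ^ 4 * (τ / W) ^ 2 * ((p : ℝ) ^ 6)⁻¹))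
      ≤ (GS.card : ℝ) * (p : ℝ) ^ 4 * (729 * ((ρ / W) ^ 4 * (τ / W) ^ 2 * ((p : ℝ) ^ 6)⁻¹)) := by
        gcongr
    _ = (GS.card : ℝ) * (729 * ((ρ / W) ^ 4 * (τ / W) ^ 2)) * ((p : ℝ) ^ 2)⁻¹ := by
        field_simp

open Classical in
theorem p_SIEV (hB : Stmt_BOXC) (hP : Stmt_BIGP) (hG : Stmt_GENB) : Stmt_SIEV := by
  refine ⟨2916, fun w W P₀ K₀ ρ τ hw hW hpW hρ hτ => ?_⟩
  have hWR : (0 : ℝ) < W := by exact_mod_cast hW
  set c : ℝ := ρ ^ 4 * τ ^ 2 / (W : ℝ) ^ 6 with hc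
  have hc0 : 0 < c := by positivity
  set P1 : ℕ := max w ⌈324 * (2 + (P₀ : ℝ)) ^ 2 / c⌉₊ with hP1
  have hP1w : w ≤ P1 := le_max_left _ _
  have hP1c : 324 * (2 + (P₀ : ℝ)) ^ 2 / c ≤ P1 :=
    (Nat.le_ceil _).trans (Nat.cast_le.2 (le_max_right _ _))
  have hP1pos : 1 ≤ P1 := by omega
  refine ⟨⌈W * P1 / ρ⌉₊ + ⌈W * P1 / τ⌉₊ + ⌈972 * (2 * (K₀ : ℝ) + 1) ^ 6 / c⌉₊ + 1, ?_⟩
  intro B r GS i j ctr ψ X hBB hr hn1 hGS hGg hij hψ hX hXB
  have hB1 : 1 ≤ B := by omega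
  have hBR : (0 : ℝ) < B := by exact_mod_cast hB1
  have k1 : (W : ℝ) * P1 ≤ ρ * B := by
    have h1 : (W : ℝ) * P1 / ρ ≤ B := (Nat.le_ceil _).trans (by
      have : ⌈(W : ℝ) * P1 / ρ⌉₊ ≤ B := by omega
      exact_mod_cast this)
    rwa [div_le_iff₀ hρ, mul_comm (B : ℝ)] at h1
  have k2 : (W : ℝ) * P1 ≤ τ * B := by
    have h1 : (W : ℝ) * P1 / τ ≤ B := (Nat.le_ceil _).trans (by
      have : ⌈(W : ℝ) * P1 / τ⌉₊ ≤ B := by omega
      exact_mod_cast this)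
    rwa [div_le_iff₀ hτ, mul_comm (B : ℝ)] at h1
  have k3 : 972 * (2 * (K₀ : ℝ) + 1) ^ 6 ≤ c * B := by
    have h1 : 972 * (2 * (K₀ : ℝ) + 1) ^ 6 / c ≤ B := (Nat.le_ceil _).trans (by
      have : ⌈972 * (2 * (K₀ : ℝ) + 1) ^ 6 / c⌉₊ ≤ B := by omega
      exact_mod_cast this)
    rwa [div_le_iff₀ hc0, mul_comm (B : ℝ)] at h1
  rcases GS.eq_empty_or_nonempty with hGS0 | hGS0
  · subst hGS0
    simp
  have hGS1 : (1 : ℝ) ≤ GS.card := by exact_mod_cast hGS0.card_pos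
  -- the size of all classes
  set Lam : ℝ := (ρ * B / W) ^ 4 * (τ * B / W) ^ 2 with hLam
  have hLam1 : Lam = c * (B : ℝ) ^ 6 := by
    rw [hLam, hc]
    field_simp
  have hLam0 : 0 < Lam := by rw [hLam1]; positivity
  set Y := X.filter fun x => (fun l => x l % (W : ℤ)) ∈ GS with hY
  have hYc : (GS.card : ℝ) * Lam ≤ Y.card := by
    have h1 : Y.card = ∑ v ∈ GS, (Y.filter fun x => (fun l => x l % (W : ℤ)) = v).card :=
      Finset.card_eq_sum_card_fiberwise fun x hx => (mem_filter.1 hx).2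
    rw [h1]
    push_cast
    rw [← nsmul_eq_mul, ← Finset.sum_const]
    refine Finset.sum_le_sum fun v hv => ?_
    have hW1 : (W : ℝ) ≤ W * P1 := by
      have : (1 : ℝ) ≤ P1 := by exact_mod_cast hP1pos
      nlinarith
    have h2 := (hB W i j ctr ψ (ρ * B) (τ * B) v X hW hij (hW1.trans k1) (hW1.trans k2) hψ hX).1
    refine h2.trans ?_
    have h3 : (X.filter fun x => ∀ l, (W : ℤ) ∣ x l - v l) ⊆
        Y.filter fun x => (fun l => x l % (W : ℤ)) = v := by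
      intro x hx
      obtain ⟨h4, h5⟩ := mem_filter.1 hx
      have h6 : (fun l => x l % (W : ℤ)) = v := by
        funext l
        have h7 := (SIEV_mem_cs W v).1 (hGS hv) l
        have h8 : x l % (W : ℤ) = v l % (W : ℤ) :=
          Int.emod_eq_emod_iff_emod_sub_eq_zero.2 (Int.emod_eq_zero_of_dvd (h5 l))
        show x l % (W : ℤ) = v l
        rw [h8, Int.emod_eq_of_lt h7.1 h7.2]
      rw [mem_filter, hY, mem_filter]
      exact ⟨⟨h4, by rw [h6]; exact hv⟩, h6⟩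
    exact_mod_cast Finset.card_le_card h3
  -- the exceptional sets
  set I := (Finset.Ioc w P1).filter fun p => p.Prime ∧ Nat.Coprime W p with hI
  set Bad : ℕ → Finset (Fin 6 → ℤ) := fun p => X.filter fun x =>
    (fun l => x l % (W : ℤ)) ∈ GS ∧ (p : ℤ) ∣ dt r x ∧ (p : ℤ) ∣ x 1 with hBad
  set Big := (Fintype.piFinset fun _ : Fin 6 => Finset.Icc (-(B : ℤ)) B).filter fun x =>
      0 < dt r x ∧ ∃ p : ℕ, p.Prime ∧ P1 < p ∧ (p : ℤ) ∣ dt r x ∧ (p : ℤ) ∣ x 1 with hBig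
  set Gb := (Fintype.piFinset fun _ : Fin 6 => Finset.Icc (-(B : ℤ)) B).filter fun x =>
      ∃ l : Fin 6 → ℤ, l ≠ 0 ∧ (∀ i, |l i| ≤ (K₀ : ℤ)) ∧ ∑ i, l i * tw r x i = 0 with hGb
  set T := X.filter fun x => (fun l => x l % (W : ℤ)) ∈ GS ∧ IsCoprime (dt r x) (x 1) ∧
        ∀ l : Fin 6 → ℤ, l ≠ 0 → (∀ i, |l i| ≤ (K₀ : ℤ)) → ∑ i, l i * tw r x i ≠ 0 with hT
  have hcov : Y ⊆ T ∪ (I.biUnion Bad ∪ (Big ∪ Gb)) := by
    intro x hx
    obtain ⟨hx1, hx2⟩ := mem_filter.1 hx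
    obtain ⟨hx3, hx4⟩ := hXB x hx1
    have hx5 : x ∈ Fintype.piFinset fun _ : Fin 6 => Finset.Icc (-(B : ℤ)) B := by
      rw [Fintype.mem_piFinset]
      intro l
      rw [Finset.mem_Icc]
      exact abs_le.1 (hx3 l)
    by_cases hg : ∀ l : Fin 6 → ℤ, l ≠ 0 → (∀ i, |l i| ≤ (K₀ : ℤ)) → ∑ i, l i * tw r x i ≠ 0
    · by_cases hcop : IsCoprime (dt r x) (x 1)
      · exact mem_union_left _ (mem_filter.2 ⟨hx1, hx2, hcop, hg⟩)
      · rw [Int.isCoprime_iff_gcd_eq_one] at hcop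
        obtain ⟨p, hp, hpd⟩ := Nat.exists_prime_and_dvd hcop
        have hd1 : (p : ℤ) ∣ dt r x := (Int.natCast_dvd_natCast.2 hpd).trans (Int.gcd_dvd_left ..)
        have hd2 : (p : ℤ) ∣ x 1 := (Int.natCast_dvd_natCast.2 hpd).trans (Int.gcd_dvd_right ..)
        have hpW' : ¬ p ∣ W := by
          intro hdW
          have h1 := hGg _ hx2
          have hdW' : (p : ℤ) ∣ (W : ℤ) := Int.natCast_dvd_natCast.2 hdW
          have h2 : ∀ l, (p : ℤ) ∣ x l - (fun l => x l % (W : ℤ)) l := fun l =>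
            hdW'.trans (by simpa using Int.dvd_self_sub_emod)
          have h3 := (dvd_sub_right hd1).1 (SIEV_dt_mod p r x _ h2)
          have h4 := (dvd_sub_right hd2).1 (h2 1)
          have h5 : (p : ℤ) ∣ ((Int.gcd (Int.gcd (dt r fun l => x l % (W : ℤ))
              ((fun l => x l % (W : ℤ)) 1)) W : ℕ) : ℤ) :=
            Int.dvd_coe_gcd (Int.dvd_coe_gcd h3 h4) hdW'
          rw [h1] at h5
          exact hp.one_lt.ne' (Nat.dvd_one.1 (Int.natCast_dvd_natCast.1 h5))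
        have hcW : Nat.Coprime W p := ((Nat.Prime.coprime_iff_not_dvd hp).2 hpW').symm
        have hwp : w < p := by
          by_contra hle
          exact hpW' (hpW p hp (not_lt.1 hle))
        rcases Nat.lt_or_ge P1 p with h1 | h1
        · exact mem_union_right _ (mem_union_right _ (mem_union_left _
            (mem_filter.2 ⟨hx5, hx4, p, hp, h1, hd1, hd2⟩)))
        · refine mem_union_right _ (mem_union_left _ (mem_biUnion.2 ⟨p, ?_, ?_⟩))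
          · exact mem_filter.2 ⟨Finset.mem_Ioc.2 ⟨hwp, h1⟩, hp, hcW⟩
          · exact mem_filter.2 ⟨hx1, hx2, hd1, hd2⟩
    · push Not at hg
      obtain ⟨l, h1, h2, h3⟩ := hg
      exact mem_union_right _ (mem_union_right _ (mem_union_right _
        (mem_filter.2 ⟨hx5, l, h1, h2, h3⟩)))
  have hcard : (Y.card : ℝ) ≤ T.card + (∑ p ∈ I, ((Bad p).card : ℝ) + (Big.card + Gb.card)) := by
    have h1 : Y.card ≤ T.card + (∑ p ∈ I, (Bad p).card + (Big.card + Gb.card)) := by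
      refine (Finset.card_le_card hcov).trans ((Finset.card_union_le _ _).trans ?_)
      refine Nat.add_le_add_left ((Finset.card_union_le _ _).trans ?_) _
      exact Nat.add_le_add Finset.card_biUnion_le (Finset.card_union_le _ _)
    exact_mod_cast h1
  -- the small primes
  have hs1 : ∑ p ∈ I, ((Bad p).card : ℝ) ≤ 1 / 4 * (GS.card * Lam) := by
    have h1 : ∀ p ∈ I, ((Bad p).card : ℝ) ≤
        (GS.card : ℝ) * (729 * Lam) * ((p : ℝ) ^ 2)⁻¹ := by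
      intro p hp
      obtain ⟨h2, h3, h4⟩ := mem_filter.1 hp
      obtain ⟨h5, h6⟩ := Finset.mem_Ioc.1 h2
      have h7 : ((W * p : ℕ) : ℝ) ≤ W * P1 := by
        push_cast
        have : (p : ℝ) ≤ P1 := by exact_mod_cast h6
        gcongr
      exact SIEV_badp hB W p r hr hW h3.pos h4 i j hij ctr ψ (ρ * B) (τ * B) (h7.trans k1)
        (h7.trans k2) X hψ hX GS
    refine (Finset.sum_le_sum h1).trans ?_
    rw [← Finset.mul_sum]
    have h2 : ∑ p ∈ I, ((p : ℝ) ^ 2)⁻¹ ≤ ∑ p ∈ Finset.Ioc w P1, ((p : ℝ) ^ 2)⁻¹ :=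
      Finset.sum_le_sum_of_subset_of_nonneg (Finset.filter_subset _ _) fun _ _ _ => by positivity
    have h3 : ∑ p ∈ Finset.Ioc w P1, ((p : ℝ) ^ 2)⁻¹ ≤ (w : ℝ)⁻¹ - (P1 : ℝ)⁻¹ :=
      sum_Ioc_inv_sq_le_sub (by omega) hP1w
    have h4 : (w : ℝ)⁻¹ ≤ 1 / 2916 := by
      rw [inv_eq_one_div]
      have : (2916 : ℝ) ≤ w := by exact_mod_cast hw
      exact one_div_le_one_div_of_le (by norm_num) this
    have h5 : 0 ≤ (P1 : ℝ)⁻¹ := by positivity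
    have h6 : ∑ p ∈ I, ((p : ℝ) ^ 2)⁻¹ ≤ 1 / 2916 := by linarith
    calc (GS.card : ℝ) * (729 * Lam) * ∑ p ∈ I, ((p : ℝ) ^ 2)⁻¹
        ≤ (GS.card : ℝ) * (729 * Lam) * (1 / 2916) := by gcongr
      _ = 1 / 4 * (GS.card * Lam) := by ring
  -- the large primes
  have hs2 : (Big.card : ℝ) ≤ 1 / 4 * (GS.card * Lam) := by
    have h1 := hP r B P1 hr hB1 hP1pos
    have h2 : (n1 r : ℝ) ≤ P₀ := by exact_mod_cast hn1
    have hP1R : (0 : ℝ) < P1 := by exact_mod_cast hP1pos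
    have h3 : 324 * (2 + (P₀ : ℝ)) ^ 2 ≤ P1 * c := by rwa [div_le_iff₀ hc0] at hP1c
    calc (Big.card : ℝ) ≤ 81 * (2 + n1 r : ℝ) ^ 2 * (B : ℝ) ^ 6 / P1 := h1
      _ ≤ 81 * (2 + (P₀ : ℝ)) ^ 2 * (B : ℝ) ^ 6 / P1 := by gcongr
      _ ≤ 1 / 4 * (P1 * c) * (B : ℝ) ^ 6 / P1 := by
          have : 81 * (2 + (P₀ : ℝ)) ^ 2 ≤ 1 / 4 * (P1 * c) := by linarith
          gcongr
      _ = 1 / 4 * (1 * Lam) := by
          rw [hLam1]
          field_simp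
      _ ≤ 1 / 4 * (GS.card * Lam) := by gcongr
  -- linear relations
  have hs3 : (Gb.card : ℝ) ≤ 1 / 4 * (GS.card * Lam) := by
    have h1 : (Gb.card : ℝ) ≤ (2 * (K₀ : ℝ) + 1) ^ 6 * (2 * (B : ℝ) + 1) ^ 5 := by
      exact_mod_cast hG r B K₀ hr
    have hB2 : (1 : ℝ) ≤ B := by exact_mod_cast hB1
    calc (Gb.card : ℝ) ≤ (2 * (K₀ : ℝ) + 1) ^ 6 * (2 * (B : ℝ) + 1) ^ 5 := h1
      _ ≤ (2 * (K₀ : ℝ) + 1) ^ 6 * (3 * (B : ℝ)) ^ 5 := by
          have : 2 * (B : ℝ) + 1 ≤ 3 * B := by linarith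
          gcongr
      _ = 1 / 4 * (972 * (2 * (K₀ : ℝ) + 1) ^ 6) * (B : ℝ) ^ 5 := by ring
      _ ≤ 1 / 4 * (c * B) * (B : ℝ) ^ 5 := by gcongr
      _ = 1 / 4 * (1 * Lam) := by rw [hLam1]; ring
      _ ≤ 1 / 4 * (GS.card * Lam) := by gcongr
  have hfin : 1 / 4 * (GS.card : ℝ) * (ρ ^ 4 * τ ^ 2) * ((B : ℝ) / W) ^ 6 =
      1 / 4 * (GS.card * Lam) := by
    rw [hLam]
    field_simp
  rw [hfin]
  linarith

end Pool.HPQ
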