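import Pool.Agent.Work.MP_9fb703_hp.Interface

/-! # Block SM: the main sum -/

set_option autoImplicit false

namespace Pool.HPQ

open Finset

theorem sm_Kw_nonneg (R H W : ℕ) (k : ZMod R) : 0 ≤ Kw R H W k := by
  unfold Kw
  positivity

theorem sm_PP_nonneg (R T : ℕ) (x y : Fin 6 → ℤ) : 0 ≤ PP R T x y := by
  unfold PP
  positivity

theorem sm_om_le (x y : Fin 6 → ℤ) (q : Fin 6) : |(om x y 0 q : ℝ)| ≤ De x y := by
  have h : (om x y 0 q).natAbs ≤ De x y := by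
    unfold De
    exact Finset.le_sup (f := fun q => (om x y 0 q).natAbs) (Finset.mem_univ q)
  have h2 : ((om x y 0 q).natAbs : ℝ) ≤ De x y := by exact_mod_cast h
  rw [Nat.cast_natAbs, Int.cast_abs] at h2
  exact h2

theorem sm_De_le (x y : Fin 6 → ℤ) (B : ℝ) (hB : 0 ≤ B) (hx : ∀ i, |(x i : ℝ)| ≤ B)
    (hy : ∀ i, |(y i : ℝ)| ≤ B) : De x y ≤ ⌊2 * B ^ 2⌋₊ := by
  unfold De
  apply Finset.sup_le
  intro q _
  apply Nat.le_floor
  rw [Nat.cast_natAbs, Int.cast_abs]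
  unfold om
  push_cast
  calc |(x 0 : ℝ) * y q - x q * y 0| ≤ |(x 0 : ℝ) * y q| + |(x q : ℝ) * y 0| := abs_sub _ _
    _ = |(x 0 : ℝ)| * |(y q : ℝ)| + |(x q : ℝ)| * |(y 0 : ℝ)| := by rw [abs_mul, abs_mul]
    _ ≤ B * B + B * B := by
        gcongr
        · exact hx 0
        · exact hy q
        · exact hx q
        · exact hy 0
    _ = 2 * B ^ 2 := by ring

/-- What the condition `16 B² ≤ M D` gives. -/
theorem sm_basic (x y : Fin 6 → ℤ) (B M : ℝ) (hM : 1 ≤ M) (hMB : M ≤ B)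
    (hx : ∀ i, |(x i : ℝ)| ≤ B) (hy : ∀ i, |(y i : ℝ)| ≤ B)
    (h16 : 16 * B ^ 2 ≤ M * Dd x y) : 1 ≤ ct x y ∧ 0 < Dd x y ∧ 16 * B * ct x y ≤ De x y ∧
      (ct x y : ℝ) ≤ B ∧ Dd x y * ct x y = De x y := by
  have hB : 0 < B := by linarith
  have hDd0 : 0 < Dd x y := by
    by_contra hcon
    push Not at hcon
    have : M * Dd x y ≤ 0 := mul_nonpos_of_nonneg_of_nonpos (by linarith) hcon
    have : 0 < B ^ 2 := by positivity
    linarith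
  have hct : ct x y ≠ 0 := by
    intro h
    unfold Dd at hDd0
    rw [h] at hDd0
    simp at hDd0
  have hct1 : 1 ≤ ct x y := Nat.one_le_iff_ne_zero.mpr hct
  have hct0 : (0 : ℝ) < ct x y := by exact_mod_cast hct1
  have he : Dd x y * ct x y = De x y := by
    unfold Dd
    field_simp
  have h16' : 16 * B ≤ Dd x y := by
    have h1 : M * Dd x y ≤ B * Dd x y := mul_le_mul_of_nonneg_right hMB hDd0.le
    have h2 : B * (16 * B) ≤ B * Dd x y := by linarith [h1, h16, (by ring : B * (16 * B) = 16 * B ^ 2)]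
    exact le_of_mul_le_mul_left h2 hB
  have h3 : 16 * B * ct x y ≤ De x y := by
    rw [← he]
    exact mul_le_mul_of_nonneg_right h16' hct0.le
  refine ⟨hct1, hDd0, h3, ?_, he⟩
  have h4 : (De x y : ℝ) ≤ 2 * B ^ 2 :=
    (Nat.cast_le.mpr (sm_De_le x y B hB.le hx hy)).trans (Nat.floor_le (by positivity))
  have h5 : (16 * B) * ct x y ≤ (16 * B) * (B / 8) := by
    calc (16 * B) * ct x y ≤ 2 * B ^ 2 := h3.trans h4
      _ = (16 * B) * (B / 8) := by ring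
  have h6 := le_of_mul_le_mul_left h5 (by positivity)
  linarith

theorem sm_PS (h2 : Stmt_P32) (h3 : Stmt_KB) (R T H W m₀ G₀ K₀ : ℕ) [NeZero R] (B c M : ℝ)
    (hc0 : 0 < c) (hc1 : c ≤ 1) (hM : 1 ≤ M) (hMB : M ≤ B) (hTM : (T : ℝ) * M = R)
    (hRH : R = 2 * m₀ * H) (hH : 0 < H) (hWR : W ∣ R) (hHW : 2 * H * W ≤ R)
    (hG : ∀ g, 1 ≤ g → g ≤ G₀ → g ∣ W) (x y : Fin 6 → ℤ) (hx : Fam c B K₀ x)
    (hy : Fam c B K₀ y) (hDe : 0 < De x y) (hBal : Bal R T x y)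
    (h16 : 16 * B ^ 2 ≤ M * Dd x y) :
    PS R T H W x y ≤ PP R T x y *
      ((if G₀ < ct x y then 1 else 0) + 4 * m₀ / (c * M * De x y)) := by
  have hB : 0 < B := by linarith
  have hM0 : 0 < M := by linarith
  have hR0 : 0 < R := Nat.pos_of_ne_zero (NeZero.ne R)
  have hR0' : (0 : ℝ) < R := by exact_mod_cast hR0
  have hH' : (0 : ℝ) < H := by exact_mod_cast hH
  have hDe' : (0 : ℝ) < De x y := by exact_mod_cast hDe
  obtain ⟨hct, hDd, -, -, hDg⟩ := sm_basic x y B M hM hMB hx.bd hy.bd h16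
  have hct' : (0 : ℝ) < ct x y := by exact_mod_cast hct
  have hterm : ∀ s ∈ Sol R T x y, 1 - Kw R H W ((s.2 : ℤ) : ZMod R) ≤
      (if G₀ < ct x y then 1 else 0) + 4 * m₀ / (c * M * De x y) := by
    intro s hs
    split_ifs with hif
    · have := sm_Kw_nonneg R H W ((s.2 : ℤ) : ZMod R)
      have : (0 : ℝ) ≤ 4 * m₀ / (c * M * De x y) := by positivity
      linarith
    · rw [zero_add]
      obtain ⟨m, d, e1, e2⟩ := h2 R T B c M x y hc0 hc1 (by linarith) hM0 hR0 hTM hx.bd hy.bd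
        hx.lo hy.lo hx.cop hy.cop hDe hBal (by nlinarith [sq_pos_of_pos hB]) s hs
      have e3 := h3 R H W (ct x y) s.2 m d hH (by omega) (hG _ hct (by omega)) hWR hHW e1
      refine e3.trans ?_
      calc |(m : ℝ)| / (ct x y * H) ≤ (2 * T / (c * Dd x y)) / (ct x y * H) := by gcongr
        _ = 2 * T / (c * De x y * H) := by rw [← hDg]; field_simp
        _ = 4 * m₀ / (c * M * De x y) := by
            rw [div_eq_div_iff (by positivity) (by positivity)]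
            have e4 : (R : ℝ) = 2 * m₀ * H := by exact_mod_cast hRH
            have e5 : (T : ℝ) * M = 2 * m₀ * H := by rw [hTM, e4]
            calc 2 * (T : ℝ) * (c * M * De x y) = 2 * c * De x y * (T * M) := by ring
              _ = 2 * c * De x y * (2 * m₀ * H) := by rw [e5]
              _ = 4 * m₀ * (c * De x y * H) := by ring
  unfold PS PP
  rw [div_mul_eq_mul_div]
  apply div_le_div_of_nonneg_right _ (by positivity)
  rw [← nsmul_eq_mul, ← Finset.sum_const]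
  exact Finset.sum_le_sum hterm

theorem sm_term (h1 : Stmt_P31) (h2 : Stmt_P32) (h3 : Stmt_KB) (R T H W m₀ G₀ K₀ : ℕ) [NeZero R]
    (B c M : ℝ) (hc0 : 0 < c) (hc1 : c ≤ 1) (hM : 1 ≤ M) (hMB : M ≤ B)
    (hTM : (T : ℝ) * M = R) (hT : 2 * B ^ 4 ≤ T)
    (hRH : R = 2 * m₀ * H) (hH : 0 < H) (hWR : W ∣ R) (hHW : 2 * H * W ≤ R)
    (hG : ∀ g, 1 ≤ g → g ≤ G₀ → g ∣ W) (x y : Fin 6 → ℤ) (hx : Fam c B K₀ x)
    (hy : Fam c B K₀ y) (hDe : 0 < De x y) (hBal : Bal R T x y)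
    (h16 : 16 * B ^ 2 ≤ M * Dd x y) :
    PP R T x y * PS R T H W x y ≤ 57600 * (ct x y : ℝ) ^ 2 / (c ^ 4 * M ^ 4 * B ^ 4 * De x y ^ 2) *
      ((if G₀ < ct x y then 1 else 0) + 4 * m₀ / (c * M * De x y)) := by
  have hB : 0 < B := by linarith
  have hM0 : 0 < M := by linarith
  have hR0 : 0 < R := Nat.pos_of_ne_zero (NeZero.ne R)
  have hDe' : (0 : ℝ) < De x y := by exact_mod_cast hDe
  obtain ⟨hct, hDd, -, -, hDg⟩ := sm_basic x y B M hM hMB hx.bd hy.bd h16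
  have hct' : (0 : ℝ) < ct x y := by exact_mod_cast hct
  have hP := h1 R T B c M x y hc0 hc1 (by linarith) hM0 hR0 hTM hT hx.bd hy.bd
        hx.lo hy.lo hx.cop hy.cop hDe hBal
  have hS := sm_PS h2 h3 R T H W m₀ G₀ K₀ B c M hc0 hc1 hM hMB hTM hRH hH hWR hHW hG x y hx hy
    hDe hBal h16
  have hP0 := sm_PP_nonneg R T x y
  set θ : ℝ := (if G₀ < ct x y then 1 else 0) + 4 * m₀ / (c * M * De x y) with hθ
  have hθ0 : 0 ≤ θ := by
    rw [hθ]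
    have : (0 : ℝ) ≤ 4 * m₀ / (c * M * De x y) := by positivity
    split_ifs <;> linarith
  have hP2 : PP R T x y ≤ 240 / (c ^ 2 * M ^ 2 * B ^ 2 * Dd x y) := by
    refine hP.trans ?_
    apply div_le_div_of_nonneg_right _ (by positivity)
    have e1 : 16 * B ^ 2 / (M * Dd x y) ≤ 1 := by
      rw [div_le_one (by positivity)]
      exact h16
    have e2 : 0 ≤ 16 * B ^ 2 / (M * Dd x y) := by positivity
    nlinarith
  calc PP R T x y * PS R T H W x y ≤ PP R T x y * (PP R T x y * θ) :=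
        mul_le_mul_of_nonneg_left hS hP0
    _ = PP R T x y ^ 2 * θ := by ring
    _ ≤ (240 / (c ^ 2 * M ^ 2 * B ^ 2 * Dd x y)) ^ 2 * θ := by gcongr
    _ = 57600 * (ct x y : ℝ) ^ 2 / (c ^ 4 * M ^ 4 * B ^ 4 * De x y ^ 2) * θ := by
        rw [← hDg]
        field_simp
        ring

theorem sm_fib (h4 : Stmt_CNT) (K₀ : ℕ) (B c M : ℝ) (hc0 : 0 < c) (hM : 1 ≤ M)
    (hMB : M ≤ B) (x : Fin 6 → ℤ) (hx : Fam c B K₀ x) (g i : ℕ) (hg : 1 ≤ g)
    (S : Finset (Fin 6 → ℤ))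
    (hS : ∀ y ∈ S, Fam c B K₀ y ∧ 0 < De x y ∧ 16 * B ^ 2 ≤ M * Dd x y ∧ ct x y = g ∧
      Nat.log 2 (De x y) = i) :
    (S.card : ℝ) ≤ 23328 * 32 ^ i / (c ^ 5 * B ^ 4 * (g : ℝ) ^ 5) := by
  have hB : 0 < B := by linarith
  have hg' : (0 : ℝ) < g := by exact_mod_cast hg
  rcases S.eq_empty_or_nonempty with he | ⟨y, hy⟩
  · rw [he]
    simp only [Finset.card_empty, Nat.cast_zero]
    positivity
  obtain ⟨hy1, hy2, hy3, hy4, hy5⟩ := hS y hy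
  obtain ⟨-, -, hb3, hb4, -⟩ := sm_basic x y B M hM hMB hx.bd hy1.bd hy3
  rw [hy4] at hb3 hb4
  have hx0 : (0 : ℝ) < x 0 := lt_of_lt_of_le (by positivity) hx.lo
  have hx0B : (x 0 : ℝ) ≤ B := (le_abs_self _).trans (hx.bd 0)
  have hlog : ∀ z ∈ S, (De x z : ℝ) ≤ 2 ^ (i + 1) := by
    intro z hz
    obtain ⟨-, -, -, -, hz5⟩ := hS z hz
    have := Nat.lt_pow_succ_log_self (b := 2) (by norm_num) (De x z)
    rw [hz5] at this
    exact_mod_cast this.le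
  have hρ : (g : ℝ) ≤ 2 ^ (i + 1) / x 0 := by
    rw [le_div_iff₀ hx0]
    refine le_trans ?_ (hlog y hy)
    refine le_trans ?_ hb3
    have : (g : ℝ) * x 0 ≤ g * B := mul_le_mul_of_nonneg_left hx0B hg'.le
    nlinarith [mul_pos hg' hB]
  have hc := h4 B (2 ^ (i + 1) / x 0) g x S hg hb4 hρ hx.cop (by exact_mod_cast hx0) (by
    intro z hz
    obtain ⟨hz1, -, -, hz4, -⟩ := hS z hz
    refine ⟨hz4, hz1.bd 0, fun q => ?_⟩
    rw [div_mul_cancel₀ _ hx0.ne']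
    exact (sm_om_le x z q).trans (hlog z hz))
  refine hc.trans ?_
  have e1 : (2 : ℝ) ^ (i + 1) / x 0 ≤ 2 ^ (i + 1) / (c * B) := by
    apply div_le_div_of_nonneg_left (by positivity) (by positivity) hx.lo
  calc 729 * B * (2 ^ (i + 1) / (x 0 : ℝ)) ^ 5 / (g : ℝ) ^ 5
      ≤ 729 * B * (2 ^ (i + 1) / (c * B)) ^ 5 / (g : ℝ) ^ 5 := by gcongr
    _ = 23328 * 32 ^ i / (c ^ 5 * B ^ 4 * (g : ℝ) ^ 5) := by
        have e2 : (32 : ℝ) ^ i = (2 ^ i) ^ 5 := by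
          rw [← pow_mul, mul_comm, pow_mul]
          norm_num
        rw [e2, pow_succ]
        field_simp
        ring

theorem sm_tail (G₀ G : ℕ) (hG₀ : 1 ≤ G₀) :
    ∑ g ∈ Icc 1 G, (if G₀ < g then (1 : ℝ) else 0) / (g : ℝ) ^ 3 ≤ 1 / G₀ := by
  have h1 : ∀ g ∈ Icc 1 G, (if G₀ < g then (1 : ℝ) else 0) / (g : ℝ) ^ 3 ≤
      if g ∈ Ioc G₀ (max G₀ G) then ((g : ℝ) ^ 2)⁻¹ else 0 := by
    intro g hg
    rw [Finset.mem_Icc] at hg
    have hg0 : (1 : ℝ) ≤ g := by exact_mod_cast hg.1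
    by_cases h : G₀ < g
    · rw [if_pos h, if_pos (by rw [Finset.mem_Ioc]; exact ⟨h, le_max_of_le_right hg.2⟩),
        ← one_div]
      apply one_div_le_one_div_of_le (by positivity)
      exact pow_le_pow_right₀ hg0 (by norm_num)
    · rw [if_neg h, if_neg (by rw [Finset.mem_Ioc]; exact fun h' => h h'.1)]
      simp
  calc _ ≤ ∑ g ∈ Icc 1 G, if g ∈ Ioc G₀ (max G₀ G) then ((g : ℝ) ^ 2)⁻¹ else 0 :=
        Finset.sum_le_sum h1
    _ ≤ ∑ g ∈ Ioc G₀ (max G₀ G), ((g : ℝ) ^ 2)⁻¹ := by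
        rw [← Finset.sum_filter]
        apply Finset.sum_le_sum_of_subset_of_nonneg
        · intro g hg
          exact (Finset.mem_filter.mp hg).2
        · intro g _ _
          positivity
    _ ≤ (G₀ : ℝ)⁻¹ - ((max G₀ G : ℕ) : ℝ)⁻¹ :=
        sum_Ioc_inv_sq_le_sub (by omega) (le_max_left _ _)
    _ ≤ 1 / G₀ := by
        rw [one_div]
        have : (0 : ℝ) ≤ ((max G₀ G : ℕ) : ℝ)⁻¹ := by positivity
        linarith

theorem sm_cube (G : ℕ) : ∑ g ∈ Icc 1 G, 1 / (g : ℝ) ^ 3 ≤ 2 := by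
  have h1 : ∀ g ∈ Icc 1 G, 1 / (g : ℝ) ^ 3 ≤
      (if 1 < g then (1 : ℝ) else 0) / (g : ℝ) ^ 3 + if g = 1 then 1 else 0 := by
    intro g hg
    rw [Finset.mem_Icc] at hg
    by_cases h : g = 1
    · rw [h]
      norm_num
    · rw [if_pos (by omega), if_neg h]
      simp
  calc _ ≤ ∑ g ∈ Icc 1 G, ((if 1 < g then (1 : ℝ) else 0) / (g : ℝ) ^ 3 +
        if g = 1 then 1 else 0) := Finset.sum_le_sum h1
    _ = ∑ g ∈ Icc 1 G, (if 1 < g then (1 : ℝ) else 0) / (g : ℝ) ^ 3 +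
        ∑ g ∈ Icc 1 G, (if g = 1 then (1 : ℝ) else 0) := Finset.sum_add_distrib
    _ ≤ 1 / ((1 : ℕ) : ℝ) + 1 := by
        apply add_le_add (sm_tail 1 G le_rfl)
        rw [Finset.sum_ite_eq']
        split_ifs <;> norm_num
    _ = 2 := by norm_num

theorem sm_geo (B : ℝ) (hB : 1 ≤ B) :
    ∑ i ∈ range (Nat.log 2 ⌊2 * B ^ 2⌋₊ + 1), (8 : ℝ) ^ i ≤ 10 * B ^ 6 ∧
    ∑ i ∈ range (Nat.log 2 ⌊2 * B ^ 2⌋₊ + 1), (4 : ℝ) ^ i ≤ 6 * B ^ 4 := by
  set L := Nat.log 2 ⌊2 * B ^ 2⌋₊ with hL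
  have hfl : ⌊2 * B ^ 2⌋₊ ≠ 0 := by
    have : 1 ≤ ⌊2 * B ^ 2⌋₊ := by
      apply Nat.le_floor
      push_cast
      nlinarith
    omega
  have h2 : (2 : ℝ) ^ L ≤ 2 * B ^ 2 := by
    have h3 : 2 ^ L ≤ ⌊2 * B ^ 2⌋₊ := Nat.pow_log_le_self 2 hfl
    have h4 : ((2 ^ L : ℕ) : ℝ) ≤ (⌊2 * B ^ 2⌋₊ : ℝ) := by exact_mod_cast h3
    push_cast at h4
    exact h4.trans (Nat.floor_le (by positivity))
  have h20 : (0 : ℝ) ≤ 2 ^ L := by positivity
  constructor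
  · have e := geom_sum_mul (8 : ℝ) (L + 1)
    have e8 : (8 : ℝ) ^ (L + 1) = 8 * (2 ^ L) ^ 3 := by
      rw [pow_succ, ← pow_mul, mul_comm L 3, pow_mul]
      norm_num
      ring
    have e3 : ((2 : ℝ) ^ L) ^ 3 ≤ (2 * B ^ 2) ^ 3 := pow_le_pow_left₀ h20 h2 3
    have e4 : (2 * B ^ 2) ^ 3 = 8 * B ^ 6 := by ring
    rw [e8] at e
    have : 0 < B ^ 6 := by positivity
    linarith
  · have e := geom_sum_mul (4 : ℝ) (L + 1)
    have e8 : (4 : ℝ) ^ (L + 1) = 4 * (2 ^ L) ^ 2 := by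
      rw [pow_succ, ← pow_mul, mul_comm L 2, pow_mul]
      norm_num
      ring
    have e3 : ((2 : ℝ) ^ L) ^ 2 ≤ (2 * B ^ 2) ^ 2 := pow_le_pow_left₀ h20 h2 2
    have e4 : (2 * B ^ 2) ^ 2 = 4 * B ^ 4 := by ring
    rw [e8] at e
    have : 0 < B ^ 4 := by positivity
    linarith

theorem sm_x (h1 : Stmt_P31) (h2 : Stmt_P32) (h3 : Stmt_KB) (h4 : Stmt_CNT)
    (R T H W m₀ G₀ K₀ : ℕ) [NeZero R]
    (B c M : ℝ) (hc0 : 0 < c) (hc1 : c ≤ 1) (hM : 1 ≤ M) (hMB : M ≤ B)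
    (hTM : (T : ℝ) * M = R) (hT : 2 * B ^ 4 ≤ T)
    (hRH : R = 2 * m₀ * H) (hH : 0 < H) (hWR : W ∣ R) (hHW : 2 * H * W ≤ R) (hG₀ : 1 ≤ G₀)
    (hG : ∀ g, 1 ≤ g → g ≤ G₀ → g ∣ W) (x : Fin 6 → ℤ) (hx : Fam c B K₀ x)
    (Y : Finset (Fin 6 → ℤ)) (hY : ∀ y ∈ Y, Fam c B K₀ y ∧ 0 < De x y ∧ Bal R T x y ∧
      16 * B ^ 2 ≤ M * Dd x y) :
    ∑ y ∈ Y, PP R T x y * PS R T H W x y ≤
      57600 * 23328 / (c ^ 9 * M ^ 4 * B ^ 8) *
        (10 * B ^ 6 * (1 / G₀) + 4 * m₀ / (c * M) * (6 * B ^ 4 * 2)) := by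
  classical
  have hB : 0 < B := by linarith
  have hM0 : 0 < M := by linarith
  obtain ⟨I, hI⟩ : ∃ I : ℕ, I = Nat.log 2 ⌊2 * B ^ 2⌋₊ + 1 := ⟨_, rfl⟩
  obtain ⟨F, hF⟩ : ∃ F : ℕ × ℕ → ℝ, ∀ p, F p =
      57600 * (p.1 : ℝ) ^ 2 / (c ^ 4 * M ^ 4 * B ^ 4 * ((2 : ℝ) ^ p.2) ^ 2) *
      ((if G₀ < p.1 then 1 else 0) + 4 * m₀ / (c * M * (2 : ℝ) ^ p.2)) := ⟨_, fun p => rfl⟩
  have hF0 : ∀ p, 0 ≤ F p := by
    intro p
    rw [hF]
    have : (0 : ℝ) ≤ if G₀ < p.1 then 1 else 0 := by split_ifs <;> norm_num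
    positivity
  have hmaps : ∀ y ∈ Y, (ct x y, Nat.log 2 (De x y)) ∈ (Icc 1 ⌊B⌋₊) ×ˢ range I := by
    intro y hy
    obtain ⟨hy1, hy2, hy3, hy4⟩ := hY y hy
    obtain ⟨b1, -, -, b4, -⟩ := sm_basic x y B M hM hMB hx.bd hy1.bd hy4
    rw [Finset.mem_product, Finset.mem_Icc, Finset.mem_range]
    refine ⟨⟨b1, Nat.le_floor b4⟩, ?_⟩
    rw [hI]
    show Nat.log 2 (De x y) < Nat.log 2 ⌊2 * B ^ 2⌋₊ + 1
    exact Nat.lt_succ_of_le (Nat.log_mono_right (sm_De_le x y B hB.le hx.bd hy1.bd))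
  have hstep : ∀ y ∈ Y, PP R T x y * PS R T H W x y ≤ F (ct x y, Nat.log 2 (De x y)) := by
    intro y hy
    obtain ⟨hy1, hy2, hy3, hy4⟩ := hY y hy
    refine (sm_term h1 h2 h3 R T H W m₀ G₀ K₀ B c M hc0 hc1 hM hMB hTM hT hRH hH hWR hHW hG x y hx
      hy1 hy2 hy3 hy4).trans ?_
    rw [hF]
    have e1 : (2 : ℝ) ^ Nat.log 2 (De x y) ≤ De x y := by
      have : 2 ^ Nat.log 2 (De x y) ≤ De x y := Nat.pow_log_le_self 2 hy2.ne'
      exact_mod_cast this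
    have e0 : (0 : ℝ) < 2 ^ Nat.log 2 (De x y) := by positivity
    have e2 : (0 : ℝ) ≤ if G₀ < ct x y then 1 else 0 := by split_ifs <;> norm_num
    show _ ≤ 57600 * (ct x y : ℝ) ^ 2 /
      (c ^ 4 * M ^ 4 * B ^ 4 * ((2 : ℝ) ^ Nat.log 2 (De x y)) ^ 2) *
      ((if G₀ < ct x y then 1 else 0) + 4 * m₀ / (c * M * (2 : ℝ) ^ Nat.log 2 (De x y)))
    gcongr
  calc ∑ y ∈ Y, PP R T x y * PS R T H W x y ≤ ∑ y ∈ Y, F (ct x y, Nat.log 2 (De x y)) :=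
        Finset.sum_le_sum hstep
    _ = ∑ p ∈ (Icc 1 ⌊B⌋₊) ×ˢ range I, ∑ y ∈ Y with (ct x y, Nat.log 2 (De x y)) = p,
          F (ct x y, Nat.log 2 (De x y)) := (Finset.sum_fiberwise_of_maps_to hmaps _).symm
    _ = ∑ p ∈ (Icc 1 ⌊B⌋₊) ×ˢ range I,
          ((Y.filter fun y => (ct x y, Nat.log 2 (De x y)) = p).card : ℝ) * F p := by
        apply Finset.sum_congr rfl
        intro p _
        rw [Finset.sum_congr rfl (g := fun _ => F p), Finset.sum_const, nsmul_eq_mul]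
        intro y hy
        rw [(Finset.mem_filter.mp hy).2]
    _ ≤ ∑ p ∈ (Icc 1 ⌊B⌋₊) ×ˢ range I, 57600 * 23328 / (c ^ 9 * M ^ 4 * B ^ 8) *
          ((if G₀ < p.1 then (1 : ℝ) else 0) / (p.1 : ℝ) ^ 3 * 8 ^ p.2 +
            4 * m₀ / (c * M) * (1 / (p.1 : ℝ) ^ 3 * 4 ^ p.2)) := by
        apply Finset.sum_le_sum
        intro p hp
        rw [Finset.mem_product, Finset.mem_Icc] at hp
        have hp1 : (0 : ℝ) < p.1 := by exact_mod_cast hp.1.1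
        have e1 := sm_fib h4 K₀ B c M hc0 hM hMB x hx p.1 p.2 hp.1.1
          (Y.filter fun y => (ct x y, Nat.log 2 (De x y)) = p) (by
            intro y hy
            rw [Finset.mem_filter] at hy
            obtain ⟨hy1, hy2, hy3, hy4⟩ := hY y hy.1
            refine ⟨hy1, hy2, hy4, ?_, ?_⟩
            · rw [← hy.2]
            · rw [← hy.2])
        calc _ ≤ 23328 * 32 ^ p.2 / (c ^ 5 * B ^ 4 * (p.1 : ℝ) ^ 5) * F p :=
              mul_le_mul_of_nonneg_right e1 (hF0 p)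
          _ = _ := by
            rw [hF]
            have e2 : (32 : ℝ) ^ p.2 = (2 ^ p.2) ^ 5 := by
              rw [← pow_mul, mul_comm, pow_mul]
              norm_num
            have e3 : (8 : ℝ) ^ p.2 = (2 ^ p.2) ^ 3 := by
              rw [← pow_mul, mul_comm, pow_mul]
              norm_num
            have e4 : (4 : ℝ) ^ p.2 = (2 ^ p.2) ^ 2 := by
              rw [← pow_mul, mul_comm, pow_mul]
              norm_num
            rw [e2, e3, e4]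
            have e5 : (0 : ℝ) < 2 ^ p.2 := by positivity
            generalize (2 : ℝ) ^ p.2 = u at e5 ⊢
            generalize (if G₀ < p.1 then (1 : ℝ) else 0) = v
            field_simp
    _ = 57600 * 23328 / (c ^ 9 * M ^ 4 * B ^ 8) *
          ((∑ g ∈ Icc 1 ⌊B⌋₊, (if G₀ < g then (1 : ℝ) else 0) / (g : ℝ) ^ 3) *
              ∑ i ∈ range I, (8 : ℝ) ^ i +
            4 * m₀ / (c * M) * ((∑ g ∈ Icc 1 ⌊B⌋₊, 1 / (g : ℝ) ^ 3) *
              ∑ i ∈ range I, (4 : ℝ) ^ i)) := by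
        rw [Finset.sum_mul_sum, Finset.sum_mul_sum, ← Finset.sum_product', ← Finset.sum_product',
          ← Finset.mul_sum, Finset.sum_add_distrib, ← Finset.mul_sum]
    _ ≤ _ := by
        obtain ⟨g1, g2⟩ := sm_geo B (by linarith)
        rw [← hI] at g1 g2
        have t1 := sm_tail G₀ ⌊B⌋₊ hG₀
        have t2 := sm_cube ⌊B⌋₊
        have s1 : (0 : ℝ) ≤ ∑ i ∈ range I, (8 : ℝ) ^ i := Finset.sum_nonneg fun _ _ => by positivity
        have s2 : (0 : ℝ) ≤ ∑ i ∈ range I, (4 : ℝ) ^ i := Finset.sum_nonneg fun _ _ => by positivity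
        have u1 : (∑ g ∈ Icc 1 ⌊B⌋₊, (if G₀ < g then (1 : ℝ) else 0) / (g : ℝ) ^ 3) *
              ∑ i ∈ range I, (8 : ℝ) ^ i ≤ (1 / G₀) * (10 * B ^ 6) :=
          mul_le_mul t1 g1 s1 (by positivity)
        have u2 : (∑ g ∈ Icc 1 ⌊B⌋₊, 1 / (g : ℝ) ^ 3) * ∑ i ∈ range I, (4 : ℝ) ^ i ≤
            2 * (6 * B ^ 4) := mul_le_mul t2 g2 s2 (by norm_num)
        apply mul_le_mul_of_nonneg_left _ (by positivity)
        apply add_le_add
        · rw [mul_comm (10 * B ^ 6)]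
          exact u1
        · apply mul_le_mul_of_nonneg_left _ (by positivity)
          rw [mul_comm (6 * B ^ 4)]
          exact u2

theorem sm_cardX (K₀ : ℕ) (B c : ℝ) (hB : 1 ≤ B) (X : Finset (Fin 6 → ℤ))
    (hX : ∀ x ∈ X, Fam c B K₀ x) : (X.card : ℝ) ≤ 729 * B ^ 6 := by
  have hsub : X ⊆ Fintype.piFinset fun _ : Fin 6 => Finset.Icc (-(⌊B⌋₊ : ℤ)) (⌊B⌋₊ : ℤ) := by
    intro x hx
    rw [Fintype.mem_piFinset]
    intro i
    have h := (hX x hx).bd i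
    rw [Finset.mem_Icc, ← abs_le]
    have h2 : (x i).natAbs ≤ ⌊B⌋₊ := by
      apply Nat.le_floor
      rw [Nat.cast_natAbs, Int.cast_abs]
      exact h
    rw [Int.abs_eq_natAbs]
    exact_mod_cast h2
  have h1 := Finset.card_le_card hsub
  rw [Fintype.card_piFinset] at h1
  simp only [Int.card_Icc, Finset.prod_const, Finset.card_univ, Fintype.card_fin] at h1
  have h2 : ((⌊B⌋₊ : ℤ) + 1 - -(⌊B⌋₊ : ℤ)).toNat = 2 * ⌊B⌋₊ + 1 := by omega
  rw [h2] at h1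
  have h3 : (⌊B⌋₊ : ℝ) ≤ B := Nat.floor_le (by linarith)
  calc (X.card : ℝ) ≤ ((2 * ⌊B⌋₊ + 1) ^ 6 : ℕ) := by exact_mod_cast h1
    _ = (2 * (⌊B⌋₊ : ℝ) + 1) ^ 6 := by push_cast; ring
    _ ≤ (3 * B) ^ 6 := by
        apply pow_le_pow_left₀ (by positivity)
        linarith
    _ = 729 * B ^ 6 := by ring

theorem p_SM (h1 : Stmt_P31) (h2 : Stmt_P32) (h3 : Stmt_KB) (h4 : Stmt_CNT) : Stmt_SM := by
  classical
  refine ⟨729 * 48 * (57600 * 23328), by norm_num, ?_⟩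
  intro R T H W m₀ K₀ G₀ _ B c M X hc0 hc1 hM hMB hTM hT hRH hH hW hWR hHW hG₀ hG hX
  have hB : 0 < B := by linarith
  have hM0 : 0 < M := by linarith
  have hG₀' : (0 : ℝ) < G₀ := by exact_mod_cast hG₀
  rw [Finset.sum_filter, Finset.sum_product]
  refine (Finset.sum_le_sum (g := fun _ => 57600 * 23328 / (c ^ 9 * M ^ 4 * B ^ 8) *
        (10 * B ^ 6 * (1 / (G₀ : ℝ)) + 4 * m₀ / (c * M) * (6 * B ^ 4 * 2))) ?_).trans ?_
  · intro x hx
    rw [← Finset.sum_filter]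
    apply sm_x h1 h2 h3 h4 R T H W m₀ G₀ K₀ B c M hc0 hc1 hM hMB hTM hT hRH hH hWR hHW hG₀ hG x
      (hX x hx)
    intro y hy
    rw [Finset.mem_filter] at hy
    exact ⟨hX y hy.1, hy.2.1, hy.2.2.1, hy.2.2.2⟩
  rw [Finset.sum_const, nsmul_eq_mul]
  have hXc := sm_cardX K₀ B c (by linarith) X hX
  calc (X.card : ℝ) * (57600 * 23328 / (c ^ 9 * M ^ 4 * B ^ 8) *
        (10 * B ^ 6 * (1 / G₀) + 4 * m₀ / (c * M) * (6 * B ^ 4 * 2)))
      ≤ 729 * B ^ 6 * (57600 * 23328 / (c ^ 9 * M ^ 4 * B ^ 8) *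
        (10 * B ^ 6 * (1 / G₀) + 4 * m₀ / (c * M) * (6 * B ^ 4 * 2))) := by gcongr
    _ = 729 * (57600 * 23328) / c ^ 10 * (B / M) ^ 4 *
        (10 * c * (1 / G₀) + 48 * (m₀ / (M * B ^ 2))) := by
        field_simp
        ring
    _ ≤ 729 * (57600 * 23328) / c ^ 10 * (B / M) ^ 4 *
        (48 * (1 / G₀) + 48 * (m₀ / (M * B ^ 2))) := by
        apply mul_le_mul_of_nonneg_left _ (by positivity)
        have : (0 : ℝ) < 1 / G₀ := by positivity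
        nlinarith
    _ = 729 * 48 * (57600 * 23328) / c ^ 10 * (B / M) ^ 4 * (1 / G₀ + m₀ / (M * B ^ 2)) := by
        ring

end Pool.HPQ
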