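import Pool.Agent.Work.MP_9fb703_hp.Interface

/-! # Block SNGP: singular pairs modulo a prime power -/

set_option autoImplicit false

namespace Pool.HPQ

open Finset

namespace SNGP

lemma mem_cs {N : ℕ} {ι : Type} [Fintype ι] [DecidableEq ι] {x : ι → ℤ} :
    x ∈ cs N ι ↔ ∀ i, 0 ≤ x i ∧ x i < N := by
  simp [cs, Fintype.mem_piFinset]

lemma card_cs (N : ℕ) (ι : Type) [Fintype ι] [DecidableEq ι] :
    (cs N ι).card = N ^ Fintype.card ι := by
  simp [cs, Fintype.card_piFinset]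

lemma eq_of_dvd {q s t : ℤ} (hs : 0 ≤ s ∧ s < q) (ht : 0 ≤ t ∧ t < q) (h : q ∣ s - t) : s = t := by
  have h1 : s % q = t % q :=
    Int.emod_eq_emod_iff_emod_sub_eq_zero.2 (Int.emod_eq_zero_of_dvd h)
  rwa [Int.emod_eq_of_lt hs.1 hs.2, Int.emod_eq_of_lt ht.1 ht.2] at h1

/-- Vanishing minors modulo `p ^ e`. -/
def Pr (p e : ℕ) (z : (Fin 5 → ℤ) × (Fin 5 → ℤ)) : Prop :=
  ∀ i j, ((p ^ e : ℕ) : ℤ) ∣ z.1 i * z.2 j - z.1 j * z.2 i

open Classical in
/-- Pairs of vectors modulo `p ^ e` with vanishing minors. -/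
noncomputable def Ps (p e : ℕ) : Finset ((Fin 5 → ℤ) × (Fin 5 → ℤ)) :=
  (cs (p ^ e) (Fin 5) ×ˢ cs (p ^ e) (Fin 5)).filter (Pr p e)

lemma mem_Ps {p e : ℕ} {z : (Fin 5 → ℤ) × (Fin 5 → ℤ)} :
    z ∈ Ps p e ↔ (∀ i, 0 ≤ z.1 i ∧ z.1 i < (p ^ e : ℕ)) ∧ (∀ i, 0 ≤ z.2 i ∧ z.2 i < (p ^ e : ℕ)) ∧
      Pr p e z := by
  simp only [Ps, mem_filter, mem_product, mem_cs, and_assoc]

open Classical in
lemma prim (p e : ℕ) (hp : p.Prime) :
    ((Ps p e).filter fun z => ∃ i, ¬ (p : ℤ) ∣ z.1 i).card ≤ (p ^ e) ^ 6 := by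
  let ix : (Fin 5 → ℤ) → Fin 5 := fun u => if h : ∃ i, ¬ (p : ℤ) ∣ u i then h.choose else 0
  have hix : ∀ u : Fin 5 → ℤ, (∃ i, ¬ (p : ℤ) ∣ u i) → ¬ (p : ℤ) ∣ u (ix u) := by
    intro u h
    simp only [ix, dif_pos h]
    exact h.choose_spec
  have h1 : ((Ps p e).filter fun z => ∃ i, ¬ (p : ℤ) ∣ z.1 i).card ≤
      ((cs (p ^ e) (Fin 5)) ×ˢ (Finset.Ico (0 : ℤ) (p ^ e : ℕ))).card := by
    apply Finset.card_le_card_of_injOn (fun z => (z.1, z.2 (ix z.1)))
    · intro z hz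
      have hz' := mem_Ps.1 (mem_filter.1 (mem_coe.1 hz)).1
      simp only [mem_coe, mem_product, mem_cs, mem_Ico]
      exact ⟨hz'.1, hz'.2.1 _⟩
    · rintro ⟨u, v⟩ hz ⟨u', v'⟩ hz' h
      simp only [Prod.mk.injEq] at h
      obtain ⟨rfl, h⟩ := h
      have hz1 := mem_filter.1 (mem_coe.1 hz)
      have hz2 := mem_filter.1 (mem_coe.1 hz')
      obtain ⟨-, hv, hP⟩ := mem_Ps.1 hz1.1
      obtain ⟨-, hv', hP'⟩ := mem_Ps.1 hz2.1
      have hu := hix u hz1.2
      simp only [Prod.mk.injEq, true_and]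
      funext j
      apply eq_of_dvd (hv j) (hv' j)
      have e1 := hP (ix u) j
      have e2 := hP' (ix u) j
      simp only at e1 e2
      rw [← h] at e2
      have e3 : ((p ^ e : ℕ) : ℤ) ∣ u (ix u) * (v j - v' j) := by
        have := dvd_sub e1 e2
        have e4 : u (ix u) * v j - u j * v (ix u) - (u (ix u) * v' j - u j * v (ix u)) =
          u (ix u) * (v j - v' j) := by ring
        rwa [e4] at this
      have hc : IsCoprime ((p ^ e : ℕ) : ℤ) (u (ix u)) := by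
        push_cast
        apply IsCoprime.pow_left
        exact (Nat.prime_iff_prime_int.1 hp).irreducible.coprime_iff_not_dvd.2 hu
      exact hc.dvd_of_dvd_mul_left e3
  refine h1.trans ?_
  rw [card_product, card_cs, Int.card_Ico]
  simp only [Fintype.card_fin, sub_zero, Int.toNat_natCast]
  exact le_of_eq (by ring)

open Classical in
lemma step (p e : ℕ) (hp : p.Prime) :
    ((Ps p (e + 1)).filter fun z => ¬ ∃ i, ¬ (p : ℤ) ∣ z.1 i).card ≤ (Ps p e).card * p ^ 5 := by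
  have hp0 : (0 : ℤ) < p := by exact_mod_cast hp.pos
  have hpe : (0 : ℤ) < ((p ^ e : ℕ) : ℤ) := by exact_mod_cast pow_pos hp.pos e
  have h1 : ((Ps p (e + 1)).filter fun z => ¬ ∃ i, ¬ (p : ℤ) ∣ z.1 i).card ≤
      ((Ps p e) ×ˢ (cs p (Fin 5))).card := by
    apply Finset.card_le_card_of_injOn (fun z => ((fun i => z.1 i / (p : ℤ),
      fun i => z.2 i % ((p ^ e : ℕ) : ℤ)), fun i => z.2 i / ((p ^ e : ℕ) : ℤ)))
    · rintro ⟨u, v⟩ hz
      obtain ⟨hz1, hz2⟩ := mem_filter.1 (mem_coe.1 hz)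
      obtain ⟨hu, hv, hP⟩ := mem_Ps.1 hz1
      push Not at hz2
      simp only at hu hv hz2
      simp only [mem_coe, mem_product, mem_cs, mem_Ps]
      refine ⟨⟨fun i => ⟨Int.ediv_nonneg (hu i).1 hp0.le, ?_⟩,
        fun i => ⟨Int.emod_nonneg _ hpe.ne', Int.emod_lt_of_pos _ hpe⟩, ?_⟩,
        fun i => ⟨Int.ediv_nonneg (hv i).1 hpe.le, ?_⟩⟩
      · apply Int.ediv_lt_of_lt_mul hp0
        have := (hu i).2
        calc u i < ((p ^ (e + 1) : ℕ) : ℤ) := this
          _ = _ := by push_cast; ring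
      · intro i j
        simp only
        obtain ⟨a, ha⟩ := hz2 i
        obtain ⟨b, hb⟩ := hz2 j
        obtain ⟨c, hc⟩ := hP i j
        simp only [ha, hb] at hc
        rw [ha, hb, Int.mul_ediv_cancel_left _ hp0.ne', Int.mul_ediv_cancel_left _ hp0.ne']
        have e1 : a * v j - b * v i = ((p ^ e : ℕ) : ℤ) * c := by
          have : (p : ℤ) * (a * v j - b * v i) = p * (((p ^ e : ℕ) : ℤ) * c) := by
            have e2 : ((p ^ (e + 1) : ℕ) : ℤ) = p * ((p ^ e : ℕ) : ℤ) := by push_cast; ring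
            rw [e2] at hc
            linarith
          exact mul_left_cancel₀ hp0.ne' this
        have e3 := Int.emod_add_mul_ediv (v j) ((p ^ e : ℕ) : ℤ)
        have e4 := Int.emod_add_mul_ediv (v i) ((p ^ e : ℕ) : ℤ)
        refine ⟨c - a * (v j / ((p ^ e : ℕ) : ℤ)) + b * (v i / ((p ^ e : ℕ) : ℤ)), ?_⟩
        linear_combination e1 + a * e3 - b * e4
      · apply Int.ediv_lt_of_lt_mul hpe
        calc v i < ((p ^ (e + 1) : ℕ) : ℤ) := (hv i).2
          _ = _ := by push_cast; ring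
    · rintro ⟨u, v⟩ hz ⟨u', v'⟩ hz' h
      obtain ⟨-, hz2⟩ := mem_filter.1 (mem_coe.1 hz)
      obtain ⟨-, hz2'⟩ := mem_filter.1 (mem_coe.1 hz')
      push Not at hz2 hz2'
      simp only at hz2 hz2'
      simp only [Prod.mk.injEq] at h
      obtain ⟨⟨h1, h2⟩, h3⟩ := h
      simp only [Prod.mk.injEq]
      constructor
      · funext i
        have e1 := congrFun h1 i
        rw [← Int.mul_ediv_cancel' (hz2 i), ← Int.mul_ediv_cancel' (hz2' i), e1]
      · funext i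
        have e1 := congrFun h2 i
        have e2 := congrFun h3 i
        rw [← Int.emod_add_mul_ediv (v i) ((p ^ e : ℕ) : ℤ),
          ← Int.emod_add_mul_ediv (v' i) ((p ^ e : ℕ) : ℤ), e1, e2]
  refine h1.trans ?_
  rw [card_product, card_cs]
  simp

lemma pairs (p e : ℕ) (hp : p.Prime) : (Ps p e).card ≤ 2 * (p ^ e) ^ 6 := by
  classical
  induction e with
  | zero =>
    have h1 : (Ps p 0).card ≤ (cs (p ^ 0) (Fin 5) ×ˢ cs (p ^ 0) (Fin 5)).card :=
      card_le_card (filter_subset _ _)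
    rw [card_product, card_cs] at h1
    simpa using h1.trans (by simp)
  | succ e ih =>
    have h1 := Finset.card_filter_add_card_filter_not (s := Ps p (e + 1))
      (fun z => ∃ i, ¬ (p : ℤ) ∣ z.1 i)
    have h2 := prim p (e + 1) hp
    have h3 := step p e hp
    have h4 : (Ps p e).card * p ^ 5 ≤ 2 * (p ^ e) ^ 6 * p ^ 5 := Nat.mul_le_mul_right _ ih
    have h5 : 2 * (p ^ e) ^ 6 * p ^ 5 ≤ (p ^ (e + 1)) ^ 6 := by
      have : (p ^ (e + 1)) ^ 6 = p * ((p ^ e) ^ 6 * p ^ 5) := by ring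
      rw [this, mul_assoc]
      exact Nat.mul_le_mul_right _ hp.two_le
    omega

/-! ### The forms -/

lemma Q_smul (a : Idx → ℤ) (c : ℤ) (x : Fin 6 → ℤ) :
    Q a (fun i => c * x i) = c ^ 2 * Q a x := by
  unfold Q
  rw [Finset.mul_sum]
  exact Finset.sum_congr rfl fun q _ => by ring

lemma G_smul (a : Idx → ℤ) (c : ℤ) (x : Fin 6 → ℤ) (i : Fin 6) :
    G a (fun i => c * x i) i = c * G a x i := by
  unfold G
  rw [Finset.mul_sum]
  exact Finset.sum_congr rfl fun q _ => by split_ifs <;> ring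

lemma Q_congr (n : ℤ) (a : Idx → ℤ) (y y' : Fin 6 → ℤ) (h : ∀ i, n ∣ y i - y' i) :
    n ∣ Q a y - Q a y' := by
  unfold Q
  rw [← Finset.sum_sub_distrib]
  apply Finset.dvd_sum
  intro q _
  obtain ⟨s, hs⟩ := h q.1.1
  obtain ⟨t, ht⟩ := h q.1.2
  refine ⟨a q * (y q.1.1 * t + s * y' q.1.2), ?_⟩
  linear_combination a q * y q.1.1 * ht + a q * y' q.1.2 * hs

lemma G_congr (n : ℤ) (a : Idx → ℤ) (y y' : Fin 6 → ℤ) (h : ∀ i, n ∣ y i - y' i) (i : Fin 6) :
    n ∣ G a y i - G a y' i := by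
  unfold G
  rw [← Finset.sum_sub_distrib]
  apply Finset.dvd_sum
  intro q _
  rw [← mul_sub]
  apply Dvd.dvd.mul_left
  have h1 := h q.1.1
  have h2 := h q.1.2
  split_ifs
  · have : y q.1.2 + y q.1.1 - (y' q.1.2 + y' q.1.1) = (y q.1.2 - y' q.1.2) + (y q.1.1 - y' q.1.1) := by
      ring
    rw [this]
    exact dvd_add h2 h1
  · simpa using h2
  · simpa using h1
  · simp

lemma mn_congr (n : ℤ) (a b : Idx → ℤ) (y y' : Fin 6 → ℤ) (h : ∀ i, n ∣ y i - y' i)
    (i j : Fin 6) : n ∣ mn a b y i j - mn a b y' i j := by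
  unfold mn
  obtain ⟨s, hs⟩ := G_congr n a y y' h i
  obtain ⟨t, ht⟩ := G_congr n b y y' h j
  obtain ⟨s', hs'⟩ := G_congr n a y y' h j
  obtain ⟨t', ht'⟩ := G_congr n b y y' h i
  refine ⟨s * G b y j + G a y' i * t - s' * G b y i - G a y' j * t', ?_⟩
  linear_combination hs * G b y j + G a y' i * ht - hs' * G b y i - G a y' j * ht'

lemma mn_smul (a b : Idx → ℤ) (c : ℤ) (x : Fin 6 → ℤ) (i j : Fin 6) :
    mn a b (fun i => c * x i) i j = c ^ 2 * mn a b x i j := by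
  unfold mn
  rw [G_smul, G_smul, G_smul, G_smul]
  ring

/-- The coefficients outside the row `m`. -/
abbrev Rest (m : Fin 6) := {q : Idx // q.1.1 ≠ m ∧ q.1.2 ≠ m}

lemma card_rest (m : Fin 6) : Fintype.card (Rest m) = 15 := by
  fin_cases m <;> rfl

/-- A vector of coefficients supported on the row `m` and its values. -/
lemma row_zero (q : ℤ) (m : Fin 6) (x : Fin 6 → ℤ) (hx : x m = 1) (d : Idx → ℤ)
    (hd : ∀ r : Idx, r.1.1 ≠ m → r.1.2 ≠ m → d r = 0) (hQ : q ∣ Q d x)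
    (hG : ∀ i, i ≠ m → q ∣ G d x i) : ∀ r, q ∣ d r := by
  have key : ∀ i, i ≠ m → q ∣ d ⟨(min m i, max m i), min_le_max⟩ := by
    intro i hi
    have e1 : G d x i = d ⟨(min m i, max m i), min_le_max⟩ := by
      unfold G
      rw [Finset.sum_eq_single (⟨(min m i, max m i), min_le_max⟩ : Idx)]
      · rcases lt_or_gt_of_ne hi with h | h
        · simp [min_eq_right h.le, max_eq_left h.le, hx, Ne.symm hi]
        · simp [min_eq_left h.le, max_eq_right h.le, hx, Ne.symm hi]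
      · rintro ⟨⟨s, t⟩, hst⟩ - hne
        by_cases h1 : s = m
        · subst h1
          have ht : t ≠ i := by
            rintro rfl
            apply hne
            simp only [Subtype.mk.injEq, Prod.mk.injEq]
            exact ⟨(min_eq_left hst).symm, (max_eq_right hst).symm⟩
          simp [Ne.symm hi, ht]
        · by_cases h2 : t = m
          · subst h2
            have hs : s ≠ i := by
              rintro rfl
              apply hne
              simp only [Subtype.mk.injEq, Prod.mk.injEq]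
              exact ⟨(min_eq_right hst).symm, (max_eq_left hst).symm⟩
            simp [Ne.symm hi, hs]
          · rw [hd _ h1 h2, zero_mul]
      · simp
    rw [← e1]
    exact hG i hi
  have key2 : ∀ r : Idx, (r.1.1, r.1.2) ≠ (m, m) → q ∣ d r := by
    rintro ⟨⟨s, t⟩, hst⟩ hne
    by_cases h1 : s = m
    · subst h1
      have ht : t ≠ s := by
        rintro rfl
        exact hne rfl
      have := key t ht
      have e2 : (⟨(min s t, max s t), min_le_max⟩ : Idx) = ⟨(s, t), hst⟩ := by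
        simp only [Subtype.mk.injEq, Prod.mk.injEq]
        exact ⟨min_eq_left hst, max_eq_right hst⟩
      rwa [e2] at this
    · by_cases h2 : t = m
      · subst h2
        have := key s h1
        have e2 : (⟨(min t s, max t s), min_le_max⟩ : Idx) = ⟨(s, t), hst⟩ := by
          simp only [Subtype.mk.injEq, Prod.mk.injEq]
          exact ⟨min_eq_right hst, max_eq_left hst⟩
        rwa [e2] at this
      · rw [hd _ h1 h2]
        exact dvd_zero _
  intro r
  by_cases hr : (r.1.1, r.1.2) = (m, m)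
  · have hr' : r = ⟨(m, m), le_refl m⟩ := by
      apply Subtype.ext
      exact hr
    subst hr'
    have e3 : Q d x - d ⟨(m, m), le_refl m⟩ =
        ∑ r ∈ univ.erase (⟨(m, m), le_refl m⟩ : Idx), d r * (x r.1.1 * x r.1.2) := by
      unfold Q
      rw [← Finset.add_sum_erase univ _ (mem_univ (⟨(m, m), le_refl m⟩ : Idx))]
      simp [hx]
    have e4 : q ∣ Q d x - d ⟨(m, m), le_refl m⟩ := by
      rw [e3]
      apply Finset.dvd_sum
      intro r hr
      apply Dvd.dvd.mul_right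
      apply key2
      intro h
      apply (mem_erase.1 hr).1
      apply Subtype.ext
      exact h
    have e5 := dvd_sub hQ e4
    simpa using e5
  · exact key2 r hr

lemma Q_sub (a b : Idx → ℤ) (x : Fin 6 → ℤ) : Q (fun r => a r - b r) x = Q a x - Q b x := by
  unfold Q
  rw [← Finset.sum_sub_distrib]
  exact Finset.sum_congr rfl fun q _ => by ring

lemma G_sub (a b : Idx → ℤ) (x : Fin 6 → ℤ) (i : Fin 6) :
    G (fun r => a r - b r) x i = G a x i - G b x i := by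
  unfold G
  rw [← Finset.sum_sub_distrib]
  exact Finset.sum_congr rfl fun q _ => by ring

open Classical in
lemma fiber (p e : ℕ) (hp : p.Prime) (m : Fin 6) (x : Fin 6 → ℤ) (hx : x m = 1) :
    ((cs (p ^ e) Idx ×ˢ cs (p ^ e) Idx).filter fun z => ((p ^ e : ℕ) : ℤ) ∣ Q z.1 x ∧
      ((p ^ e : ℕ) : ℤ) ∣ Q z.2 x ∧ ∀ i j, ((p ^ e : ℕ) : ℤ) ∣ mn z.1 z.2 x i j).card ≤
      (Ps p e).card * ((p ^ e) ^ 15 * (p ^ e) ^ 15) := by
  have hq : (0 : ℤ) < ((p ^ e : ℕ) : ℤ) := by exact_mod_cast pow_pos hp.pos e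
  have h1 : ((cs (p ^ e) Idx ×ˢ cs (p ^ e) Idx).filter fun z => ((p ^ e : ℕ) : ℤ) ∣ Q z.1 x ∧
      ((p ^ e : ℕ) : ℤ) ∣ Q z.2 x ∧ ∀ i j, ((p ^ e : ℕ) : ℤ) ∣ mn z.1 z.2 x i j).card ≤
      (Ps p e ×ˢ (cs (p ^ e) (Rest m) ×ˢ cs (p ^ e) (Rest m))).card := by
    apply Finset.card_le_card_of_injOn (fun z =>
      ((fun i => G z.1 x (m.succAbove i) % ((p ^ e : ℕ) : ℤ),
        fun i => G z.2 x (m.succAbove i) % ((p ^ e : ℕ) : ℤ)),
        (fun r => z.1 r.1, fun r => z.2 r.1)))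
    · rintro ⟨a, b⟩ hz
      obtain ⟨hz1, -, -, hz4⟩ := mem_filter.1 (mem_coe.1 hz)
      rw [mem_product, mem_cs, mem_cs] at hz1
      simp only [mem_coe, mem_product, mem_cs, mem_Ps]
      refine ⟨⟨fun i => ⟨Int.emod_nonneg _ hq.ne', Int.emod_lt_of_pos _ hq⟩,
        fun i => ⟨Int.emod_nonneg _ hq.ne', Int.emod_lt_of_pos _ hq⟩, ?_⟩,
        fun r => hz1.1 r.1, fun r => hz1.2 r.1⟩
      intro i j
      simp only
      have h2 := hz4 (m.succAbove i) (m.succAbove j)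
      unfold mn at h2
      simp only at h2
      obtain ⟨c, hc⟩ := h2
      have e1 := Int.emod_add_mul_ediv (G a x (m.succAbove i)) ((p ^ e : ℕ) : ℤ)
      have e2 := Int.emod_add_mul_ediv (G b x (m.succAbove j)) ((p ^ e : ℕ) : ℤ)
      have e3 := Int.emod_add_mul_ediv (G a x (m.succAbove j)) ((p ^ e : ℕ) : ℤ)
      have e4 := Int.emod_add_mul_ediv (G b x (m.succAbove i)) ((p ^ e : ℕ) : ℤ)
      generalize G a x (m.succAbove i) / ((p ^ e : ℕ) : ℤ) = k1 at e1
      generalize G b x (m.succAbove j) / ((p ^ e : ℕ) : ℤ) = k2 at e2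
      generalize G a x (m.succAbove j) / ((p ^ e : ℕ) : ℤ) = k3 at e3
      generalize G b x (m.succAbove i) / ((p ^ e : ℕ) : ℤ) = k4 at e4
      generalize G a x (m.succAbove i) % ((p ^ e : ℕ) : ℤ) = g1 at e1 ⊢
      generalize G b x (m.succAbove j) % ((p ^ e : ℕ) : ℤ) = g2 at e2 ⊢
      generalize G a x (m.succAbove j) % ((p ^ e : ℕ) : ℤ) = g3 at e3 ⊢
      generalize G b x (m.succAbove i) % ((p ^ e : ℕ) : ℤ) = g4 at e4 ⊢
      rw [← e1, ← e2, ← e3, ← e4] at hc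
      refine ⟨c - k1 * g2 - g1 * k2 - k1 * k2 * ((p ^ e : ℕ) : ℤ) + k3 * g4 + g3 * k4 +
        k3 * k4 * ((p ^ e : ℕ) : ℤ), ?_⟩
      linear_combination hc
    · rintro ⟨a, b⟩ hz ⟨a', b'⟩ hz' h
      obtain ⟨hz1, hz2, hz3, -⟩ := mem_filter.1 (mem_coe.1 hz)
      obtain ⟨hz1', hz2', hz3', -⟩ := mem_filter.1 (mem_coe.1 hz')
      rw [mem_product, mem_cs, mem_cs] at hz1 hz1'
      simp only at hz1 hz1' hz2 hz2' hz3 hz3'
      simp only [Prod.mk.injEq] at h
      obtain ⟨⟨h1, h2⟩, h3, h4⟩ := h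
      have main : ∀ (a a' : Idx → ℤ), (∀ i, 0 ≤ a i ∧ a i < ((p ^ e : ℕ) : ℤ)) →
          (∀ i, 0 ≤ a' i ∧ a' i < ((p ^ e : ℕ) : ℤ)) → ((p ^ e : ℕ) : ℤ) ∣ Q a x →
          ((p ^ e : ℕ) : ℤ) ∣ Q a' x →
          ((fun i : Fin 5 => G a x (m.succAbove i) % ((p ^ e : ℕ) : ℤ)) =
            fun i => G a' x (m.succAbove i) % ((p ^ e : ℕ) : ℤ)) →
          ((fun r : Rest m => a r.1) = fun r => a' r.1) → a = a' := by
        intro a a' ha ha' hQ hQ' hG hR
        have hd : ∀ r, ((p ^ e : ℕ) : ℤ) ∣ (fun r => a r - a' r) r := by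
          apply row_zero _ m x hx
          · intro r hr1 hr2
            have := congrFun hR ⟨r, hr1, hr2⟩
            simp only at this
            simp [this]
          · rw [Q_sub]
            exact dvd_sub hQ hQ'
          · intro i hi
            rw [G_sub]
            obtain ⟨k, rfl⟩ := Fin.exists_succAbove_eq hi
            have := congrFun hG k
            exact Int.dvd_of_emod_eq_zero (Int.emod_eq_emod_iff_emod_sub_eq_zero.1 this)
        funext r
        exact eq_of_dvd (ha r) (ha' r) (hd r)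
      simp only [Prod.mk.injEq]
      exact ⟨main a a' hz1.1 hz1'.1 hz2 hz2' h1 h3, main b b' hz1.2 hz1'.2 hz3 hz3' h2 h4⟩
  refine h1.trans ?_
  rw [card_product, card_product, card_cs, card_rest]

open Classical in
lemma points (q : ℕ) (m : Fin 6) :
    ((cs q (Fin 6)).filter fun x => x m = 1).card ≤ q ^ 5 := by
  have h1 : ((cs q (Fin 6)).filter fun x => x m = 1).card ≤ (cs q (Fin 5)).card := by
    apply Finset.card_le_card_of_injOn (fun x i => x (m.succAbove i))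
    · intro x hx
      have := mem_cs.1 (mem_filter.1 (mem_coe.1 hx)).1
      rw [mem_coe, mem_cs]
      exact fun i => this _
    · intro x hx y hy h
      have hx' := (mem_filter.1 (mem_coe.1 hx)).2
      have hy' := (mem_filter.1 (mem_coe.1 hy)).2
      funext i
      by_cases hi : i = m
      · rw [hi, hx', hy']
      · obtain ⟨k, rfl⟩ := Fin.exists_succAbove_eq hi
        exact congrFun h k
  refine h1.trans ?_
  rw [card_cs]
  simp

end SNGP

open SNGP in
/-- Block SNGP. -/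
theorem p_SNGP : Stmt_SNGP := by
  classical
  intro p e hp he
  have hq2 : 2 ≤ p ^ e := by
    calc 2 ≤ p := hp.two_le
      _ = p ^ 1 := (pow_one p).symm
      _ ≤ p ^ e := Nat.pow_le_pow_right hp.pos he
  have hq : (0 : ℤ) < ((p ^ e : ℕ) : ℤ) := by exact_mod_cast (by omega : 0 < p ^ e)
  set Fz : (Fin 6 → ℤ) → Finset ((Idx → ℤ) × (Idx → ℤ)) := fun x =>
    (cs (p ^ e) Idx ×ˢ cs (p ^ e) Idx).filter fun z => ((p ^ e : ℕ) : ℤ) ∣ Q z.1 x ∧
      ((p ^ e : ℕ) : ℤ) ∣ Q z.2 x ∧ ∀ i j, ((p ^ e : ℕ) : ℤ) ∣ mn z.1 z.2 x i j with hFz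
  have hsub : ((cs (p ^ e) Idx ×ˢ cs (p ^ e) Idx).filter fun z => SingP p e z.1 z.2) ⊆
      (univ : Finset (Fin 6)).biUnion fun m =>
        ((cs (p ^ e) (Fin 6)).filter fun x => x m = 1).biUnion Fz := by
    intro z hz
    obtain ⟨hz1, x, ⟨m, hm⟩, hQa, hQb, hmn⟩ := mem_filter.1 hz
    have hc : IsCoprime (x m) ((p ^ e : ℕ) : ℤ) := by
      push_cast
      apply IsCoprime.pow_right
      exact ((Nat.prime_iff_prime_int.1 hp).irreducible.coprime_iff_not_dvd.2 hm).symm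
    obtain ⟨c, d, hcd⟩ := hc
    set y : Fin 6 → ℤ := fun i => (c * x i) % ((p ^ e : ℕ) : ℤ) with hy
    have hyx : ∀ i, ((p ^ e : ℕ) : ℤ) ∣ c * x i - y i := by
      intro i
      refine ⟨c * x i / ((p ^ e : ℕ) : ℤ), ?_⟩
      have := Int.emod_add_mul_ediv (c * x i) ((p ^ e : ℕ) : ℤ)
      simp only [hy]
      linarith
    have hym : y m = 1 := by
      have h1 : 0 ≤ y m ∧ y m < ((p ^ e : ℕ) : ℤ) :=
        ⟨Int.emod_nonneg _ hq.ne', Int.emod_lt_of_pos _ hq⟩
      apply eq_of_dvd h1 ⟨by norm_num, by exact_mod_cast (by omega : 1 < p ^ e)⟩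
      obtain ⟨k, hk⟩ := hyx m
      exact ⟨-k - d, by linear_combination -hk + hcd⟩
    rw [mem_biUnion]
    refine ⟨m, mem_univ _, ?_⟩
    rw [mem_biUnion]
    refine ⟨y, ?_, ?_⟩
    · rw [mem_filter, mem_cs]
      exact ⟨fun i => ⟨Int.emod_nonneg _ hq.ne', Int.emod_lt_of_pos _ hq⟩, hym⟩
    · rw [hFz, mem_filter]
      refine ⟨hz1, ?_, ?_, ?_⟩
      · have h1 := Q_congr _ z.1 (fun i => c * x i) y hyx
        rw [Q_smul] at h1
        exact (dvd_sub_right (Dvd.dvd.mul_left hQa _)).1 h1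
      · have h1 := Q_congr _ z.2 (fun i => c * x i) y hyx
        rw [Q_smul] at h1
        exact (dvd_sub_right (Dvd.dvd.mul_left hQb _)).1 h1
      · intro i j
        have h1 := mn_congr _ z.1 z.2 (fun i => c * x i) y hyx i j
        rw [mn_smul] at h1
        exact (dvd_sub_right (Dvd.dvd.mul_left (hmn i j) _)).1 h1
  have hcard : ((cs (p ^ e) Idx ×ˢ cs (p ^ e) Idx).filter fun z => SingP p e z.1 z.2).card ≤
      6 * ((p ^ e) ^ 5 * (2 * (p ^ e) ^ 6 * ((p ^ e) ^ 15 * (p ^ e) ^ 15))) := by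
    refine (card_le_card hsub).trans (card_biUnion_le.trans ?_)
    have h2 : ∀ m ∈ (univ : Finset (Fin 6)),
        (((cs (p ^ e) (Fin 6)).filter fun x => x m = 1).biUnion Fz).card ≤
        (p ^ e) ^ 5 * (2 * (p ^ e) ^ 6 * ((p ^ e) ^ 15 * (p ^ e) ^ 15)) := by
      intro m _
      refine card_biUnion_le.trans ?_
      have h3 : ∀ x ∈ (cs (p ^ e) (Fin 6)).filter fun x => x m = 1, (Fz x).card ≤
          2 * (p ^ e) ^ 6 * ((p ^ e) ^ 15 * (p ^ e) ^ 15) := by
        intro x hx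
        refine (fiber p e hp m x (mem_filter.1 hx).2).trans ?_
        exact Nat.mul_le_mul_right _ (pairs p e hp)
      refine (Finset.sum_le_card_nsmul _ _ _ h3).trans ?_
      rw [smul_eq_mul]
      exact Nat.mul_le_mul_right _ (points _ m)
    refine (Finset.sum_le_card_nsmul _ _ _ h2).trans ?_
    simp
  have hfin : (((cs (p ^ e) Idx ×ˢ cs (p ^ e) Idx).filter fun z => SingP p e z.1 z.2).card : ℝ) ≤
      6 * ((((p : ℝ) ^ e) ^ 5) * (2 * ((p : ℝ) ^ e) ^ 6 * (((p : ℝ) ^ e) ^ 15 *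
        ((p : ℝ) ^ e) ^ 15))) := by
    exact_mod_cast hcard
  refine hfin.trans (le_of_eq ?_)
  have hpos : (0 : ℝ) < (p : ℝ) ^ e := by
    have : (0 : ℝ) < p := by exact_mod_cast hp.pos
    positivity
  field_simp
  ring

end Pool.HPQ
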