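import Pool.Agent.Work.MP_9fb703_hp.Interface

/-! Block SS (helper85): the sum over the balanced pairs with small `D`. -/

set_option autoImplicit false

namespace Pool.HPQ

open Finset

theorem SS_sn_pos (z : Fin 6 → ℤ) (hz : z ≠ 0) : 1 ≤ sn z := by
  obtain ⟨i, hi⟩ : ∃ i, z i ≠ 0 := by
    by_contra h
    push Not at h
    exact hz (funext h)
  have h1 : (z i).natAbs ≤ sn z := Finset.le_sup (f := fun i => (z i).natAbs) (mem_univ i)
  have h2 : 0 < (z i).natAbs := Int.natAbs_pos.2 hi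
  omega

theorem SS_sn_le (x : Fin 6 → ℤ) (B : ℝ) (hB : 0 ≤ B) (h : ∀ i, |(x i : ℝ)| ≤ B) :
    (sn x : ℝ) ≤ B := by
  have : sn x ≤ ⌊B⌋₊ := by
    refine Finset.sup_le fun i _ => Nat.le_floor ?_
    rw [Nat.cast_natAbs, Int.cast_abs]
    exact h i
  exact (Nat.cast_le.2 this).trans (Nat.floor_le hB)

open Classical in
theorem p_SS (hSML : Stmt_SML) (hSZ7 : Stmt_SZ7) : Stmt_SS := by
  obtain ⟨C1, hC1, hS⟩ := hSML
  obtain ⟨C7, hC7, hZ⟩ := hSZ7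
  have hC10 : 0 < C1 := by linarith
  have hC70 : 0 < C7 := by linarith
  refine ⟨C1 ^ 3 * C7 ^ 2, ?_, ?_⟩
  · have h1 : 1 ≤ C1 ^ 3 := one_le_pow₀ hC1
    have h2 : 1 ≤ C7 ^ 2 := one_le_pow₀ hC7
    nlinarith
  intro R T K₀ K₁ B c M X hc0 hc1 hB hM hR hTM hBT hK1 hK0 hX
  have hB0 : (0 : ℝ) ≤ B := by linarith
  have hB0' : (0 : ℝ) < B := by linarith
  have hK10 : (0 : ℝ) < K₁ := by linarith
  set F := (X ×ˢ X).filter (fun p => 0 < De p.1 p.2 ∧ Bal R T p.1 p.2 ∧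
        M * Dd p.1 p.2 < 16 * B ^ 2) with hF
  -- choose the vectors
  have key : ∀ p : (Fin 6 → ℤ) × (Fin 6 → ℤ), ∃ z : (Fin 6 → ℤ) × (Fin 6 → ℤ), p ∈ F →
      z.1 ≠ 0 ∧ z.2 ≠ 0 ∧ In2 z.1 z.2 p.1 ∧ In2 z.1 z.2 p.2 ∧
      (∀ S : Finset (Fin 6 → ℤ), (∀ n ∈ S, (sn n : ℝ) ≤ B ∧ In2 z.1 z.2 n) →
        (S.card : ℝ) * (sn z.1 * sn z.2) ≤ C1 * B ^ 2) ∧
      PP R T p.1 p.2 ^ 2 * (M ^ 8 * K₁ * (sn z.1 * sn z.2) ^ 5) ≤ C1 * B ^ 4 / c ^ 9 := by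
    intro p
    by_cases hp : p ∈ F
    · rw [hF, mem_filter, mem_product] at hp
      obtain ⟨⟨h1, h2⟩, h3, h4, h5⟩ := hp
      obtain ⟨z₁, z₂, a1, a2, -, -, a5, a6, a7, a8⟩ :=
        hS R T K₀ K₁ B c M p.1 p.2 hc0 hc1 hB hM hR hTM hBT hK1 hK0 (hX _ h1) (hX _ h2) h3 h4 h5
      exact ⟨(z₁, z₂), fun _ => ⟨a1, a2, a5, a6, a7, a8⟩⟩
    · exact ⟨0, fun h => absurd h hp⟩
  choose z hz using key
  set w : (Fin 6 → ℤ) × (Fin 6 → ℤ) → ℝ := fun t => 1 / ((sn t.1 : ℝ) * sn t.2) ^ 5 with hw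
  set K : ℝ := C1 * B ^ 4 / c ^ 9 / (M ^ 8 * K₁) with hK
  have hKpos : 0 < K := by positivity
  have hsn : ∀ p ∈ F, (1 : ℝ) ≤ sn (z p).1 ∧ (1 : ℝ) ≤ sn (z p).2 := by
    intro p hp
    obtain ⟨a1, a2, -⟩ := hz p hp
    exact ⟨by exact_mod_cast SS_sn_pos _ a1, by exact_mod_cast SS_sn_pos _ a2⟩
  have step1 : ∀ p ∈ F, PP R T p.1 p.2 ^ 2 ≤ K * w (z p) := by
    intro p hp
    obtain ⟨-, -, -, -, -, h6⟩ := hz p hp
    obtain ⟨s1, s2⟩ := hsn p hp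
    have hpos : 0 < ((sn (z p).1 : ℝ) * sn (z p).2) ^ 5 := by positivity
    have hMK : 0 < M ^ 8 * K₁ := by positivity
    rw [hK, hw]
    simp only
    rw [mul_one_div, div_div, le_div_iff₀ (by positivity)]
    exact h6
  have step2 : ∑ p ∈ F, PP R T p.1 p.2 ^ 2 ≤ K * ∑ p ∈ F, w (z p) := by
    rw [Finset.mul_sum]
    exact Finset.sum_le_sum step1
  have step3 : ∑ p ∈ F, w (z p) ≤
      ∑ t ∈ F.image z, (C1 * B ^ 2) ^ 2 * ((1 / (sn t.1 : ℝ) ^ 7) * (1 / (sn t.2 : ℝ) ^ 7)) := by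
    rw [Finset.sum_comp w z]
    refine Finset.sum_le_sum fun t ht => ?_
    obtain ⟨p, hp, rfl⟩ := Finset.mem_image.1 ht
    obtain ⟨s1, s2⟩ := hsn p hp
    obtain ⟨-, -, -, -, h5, -⟩ := hz p hp
    set S := X.filter (fun x => In2 (z p).1 (z p).2 x) with hSdef
    have hScard : (S.card : ℝ) * (sn (z p).1 * sn (z p).2) ≤ C1 * B ^ 2 := by
      refine h5 S fun n hn => ?_
      rw [hSdef, mem_filter] at hn
      exact ⟨SS_sn_le n B hB0 (hX n hn.1).bd, hn.2⟩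
    have hfib : (F.filter fun a => z a = z p).card ≤ S.card ^ 2 := by
      have hsub : (F.filter fun a => z a = z p) ⊆ S ×ˢ S := by
        intro q hq
        rw [mem_filter] at hq
        obtain ⟨hqF, hqz⟩ := hq
        obtain ⟨-, -, b3, b4, -⟩ := hz q hqF
        rw [hF, mem_filter, mem_product] at hqF
        rw [hqz] at b3 b4
        rw [mem_product, hSdef, mem_filter, mem_filter]
        exact ⟨⟨hqF.1.1, b3⟩, ⟨hqF.1.2, b4⟩⟩
      calc _ ≤ (S ×ˢ S).card := Finset.card_le_card hsub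
        _ = S.card ^ 2 := by rw [card_product, sq]
    have hfib' : ((F.filter fun a => z a = z p).card : ℝ) ≤ (S.card : ℝ) ^ 2 := by
      exact_mod_cast hfib
    rw [nsmul_eq_mul]
    have hss : 0 < (sn (z p).1 : ℝ) * sn (z p).2 := by positivity
    have hw0 : 0 ≤ w (z p) := by rw [hw]; positivity
    calc ((F.filter fun a => z a = z p).card : ℝ) * w (z p)
        ≤ (S.card : ℝ) ^ 2 * w (z p) := mul_le_mul_of_nonneg_right hfib' hw0
      _ ≤ (C1 * B ^ 2 / ((sn (z p).1 : ℝ) * sn (z p).2)) ^ 2 * w (z p) := by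
          refine mul_le_mul_of_nonneg_right ?_ hw0
          refine pow_le_pow_left₀ (by positivity) ?_ 2
          rw [le_div_iff₀ hss]
          exact hScard
      _ = (C1 * B ^ 2) ^ 2 * ((1 / (sn (z p).1 : ℝ) ^ 7) * (1 / (sn (z p).2 : ℝ) ^ 7)) := by
          rw [hw]
          simp only
          have e1 : (sn (z p).1 : ℝ) ≠ 0 := by positivity
          have e2 : (sn (z p).2 : ℝ) ≠ 0 := by positivity
          field_simp
  have step4 : ∑ t ∈ F.image z, (C1 * B ^ 2) ^ 2 *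
      ((1 / (sn t.1 : ℝ) ^ 7) * (1 / (sn t.2 : ℝ) ^ 7)) ≤ (C1 * B ^ 2) ^ 2 * C7 ^ 2 := by
    rw [← Finset.mul_sum]
    refine mul_le_mul_of_nonneg_left ?_ (by positivity)
    have hsub : F.image z ⊆ ((F.image z).image Prod.fst) ×ˢ ((F.image z).image Prod.snd) := by
      intro t ht
      rw [mem_product]
      exact ⟨mem_image_of_mem _ ht, mem_image_of_mem _ ht⟩
    have hne1 : ∀ u ∈ (F.image z).image Prod.fst, u ≠ 0 := by
      intro u hu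
      obtain ⟨t, ht, rfl⟩ := mem_image.1 hu
      obtain ⟨p, hp, rfl⟩ := mem_image.1 ht
      exact (hz p hp).1
    have hne2 : ∀ u ∈ (F.image z).image Prod.snd, u ≠ 0 := by
      intro u hu
      obtain ⟨t, ht, rfl⟩ := mem_image.1 hu
      obtain ⟨p, hp, rfl⟩ := mem_image.1 ht
      exact (hz p hp).2.1
    calc ∑ t ∈ F.image z, ((1 / (sn t.1 : ℝ) ^ 7) * (1 / (sn t.2 : ℝ) ^ 7))
        ≤ ∑ t ∈ ((F.image z).image Prod.fst) ×ˢ ((F.image z).image Prod.snd),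
            ((1 / (sn t.1 : ℝ) ^ 7) * (1 / (sn t.2 : ℝ) ^ 7)) :=
          Finset.sum_le_sum_of_subset_of_nonneg hsub fun t _ _ => by positivity
      _ = (∑ u ∈ (F.image z).image Prod.fst, 1 / (sn u : ℝ) ^ 7) *
            ∑ v ∈ (F.image z).image Prod.snd, 1 / (sn v : ℝ) ^ 7 := by
          rw [Finset.sum_mul_sum, Finset.sum_product]
      _ ≤ C7 * C7 := mul_le_mul (hZ _ hne1) (hZ _ hne2)
          (Finset.sum_nonneg fun _ _ => by positivity) hC70.le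
      _ = C7 ^ 2 := by ring
  calc ∑ p ∈ F, PP R T p.1 p.2 ^ 2 ≤ K * ∑ p ∈ F, w (z p) := step2
    _ ≤ K * ((C1 * B ^ 2) ^ 2 * C7 ^ 2) :=
        mul_le_mul_of_nonneg_left (step3.trans step4) hKpos.le
    _ = C1 ^ 3 * C7 ^ 2 / c ^ 9 * (B / M) ^ 8 / K₁ := by
        rw [hK]
        field_simp

end Pool.HPQ
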