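import Pool.Agent.Work.MP_9fb703_hp.Interface

/-! # Block SU: the sum over the unbalanced pairs (helper96) -/

set_option autoImplicit false

namespace Pool.HPQ

open Finset

theorem SU_sn_le {B : ℝ} (hB : 0 ≤ B) {x : Fin 6 → ℤ} (h : ∀ i, |(x i : ℝ)| ≤ B) :
    (sn x : ℝ) ≤ B := by
  have h1 : sn x ≤ ⌊B⌋₊ := by
    unfold sn
    refine Finset.sup_le fun i _ => ?_
    refine Nat.le_floor ?_
    rw [Nat.cast_natAbs]
    push_cast
    exact h i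
  exact (Nat.cast_le.2 h1).trans (Nat.floor_le hB)

theorem SU_natAbs_le (x : Fin 6 → ℤ) (i : Fin 6) : (x i).natAbs ≤ sn x :=
  Finset.le_sup (f := fun i => (x i).natAbs) (Finset.mem_univ i)

theorem SU_sn_pos {x : Fin 6 → ℤ} (h : x ≠ 0) : 1 ≤ sn x := by
  by_contra hcon
  apply h
  funext i
  have h1 := SU_natAbs_le x i
  have h2 : (x i).natAbs = 0 := by omega
  exact Int.natAbs_eq_zero.1 h2

theorem p_SU (h1 : Stmt_UNB) (h2 : Stmt_SZ6) : Stmt_SU := by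
  classical
  obtain ⟨C, hC, hU⟩ := h1
  obtain ⟨C', hC', hZ⟩ := h2
  have hC0 : 0 < C := by linarith
  have hC'0 : 0 < C' := by linarith
  refine ⟨C ^ 6 * C' ^ 3, ?_, ?_⟩
  · have e1 : (1 : ℝ) ≤ C ^ 6 := one_le_pow₀ hC
    have e2 : (1 : ℝ) ≤ C' ^ 3 := one_le_pow₀ hC'
    nlinarith
  intro R T K₀ B c M X hc hc1 hB hM hR hTM hT hK hX
  have hB0 : 0 < B := by linarith
  have hM0 : 0 < M := by linarith
  -- the candidates
  set Zs : Finset (Fin 6 → ℤ) := (Fintype.piFinset fun _ : Fin 6 =>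
    Finset.Icc (-(⌊C * B⌋₊ : ℤ)) (⌊C * B⌋₊ : ℤ)).filter (fun z => z ≠ 0) with hZs
  have hZmem : ∀ z : Fin 6 → ℤ, z ≠ 0 → (sn z : ℝ) ≤ C * B → z ∈ Zs := by
    intro z hz hs
    rw [hZs, Finset.mem_filter, Fintype.mem_piFinset]
    refine ⟨fun i => ?_, hz⟩
    have e1 : sn z ≤ ⌊C * B⌋₊ := Nat.le_floor hs
    have e2 : (z i).natAbs ≤ ⌊C * B⌋₊ := (SU_natAbs_le z i).trans e1
    rw [Finset.mem_Icc]
    omega
  have hZmem' : ∀ z ∈ Zs, z ≠ 0 ∧ (sn z : ℝ) ≤ C * B := by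
    intro z hz
    rw [hZs, Finset.mem_filter, Fintype.mem_piFinset] at hz
    refine ⟨hz.2, SU_sn_le (by positivity) fun i => ?_⟩
    have e1 := Finset.mem_Icc.1 (hz.1 i)
    have e2 : |z i| ≤ (⌊C * B⌋₊ : ℤ) := abs_le.2 e1
    have e3 : |((z i : ℤ) : ℝ)| ≤ (⌊C * B⌋₊ : ℝ) := by exact_mod_cast e2
    exact e3.trans (Nat.floor_le (by positivity))
  set w : (Fin 6 → ℤ) × (Fin 6 → ℤ) × (Fin 6 → ℤ) → ℝ :=
    fun z => (sn z.1 : ℝ) * sn z.2.1 * sn z.2.2 with hw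
  set D := (X ×ˢ X).filter (fun p => 0 < De p.1 p.2 ∧ ¬ Bal R T p.1 p.2) with hD
  have hch : ∀ p : (Fin 6 → ℤ) × (Fin 6 → ℤ), ∃ z : (Fin 6 → ℤ) × (Fin 6 → ℤ) × (Fin 6 → ℤ),
      p ∈ D → z ∈ Zs ×ˢ Zs ×ˢ Zs ∧ In3 z.1 z.2.1 z.2.2 p.1 ∧ In3 z.1 z.2.1 z.2.2 p.2 ∧
      (∀ S : Finset (Fin 6 → ℤ), (∀ n ∈ S, (sn n : ℝ) ≤ B ∧ In3 z.1 z.2.1 z.2.2 n) →
        (S.card : ℝ) * w z ≤ C * B ^ 3) ∧
      PP R T p.1 p.2 * (M ^ 4 * w z ^ 2) ≤ C / c ^ 4 := by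
    intro p
    by_cases hp : p ∈ D
    · rw [hD, Finset.mem_filter, Finset.mem_product] at hp
      obtain ⟨z₁, z₂, z₃, a1, a2, a3, b1, b2, b3, i1, i2, hS, hPP⟩ := hU R T K₀ B c M p.1 p.2 hc hc1
        hB hM hR hTM hT hK (hX p.1 hp.1.1) (hX p.2 hp.1.2) hp.2.1 hp.2.2
      refine ⟨(z₁, z₂, z₃), fun _ => ⟨?_, i1, i2, hS, hPP⟩⟩
      rw [Finset.mem_product, Finset.mem_product]
      exact ⟨hZmem z₁ a1 b1, hZmem z₂ a2 b2, hZmem z₃ a3 b3⟩
    · exact ⟨(0, 0, 0), fun h => absurd h hp⟩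
  choose ζ hζ using hch
  have hPP0 : ∀ p : (Fin 6 → ℤ) × (Fin 6 → ℤ), 0 ≤ PP R T p.1 p.2 := by
    intro p
    unfold PP
    positivity
  have hwpos : ∀ z ∈ Zs ×ˢ Zs ×ˢ Zs, 0 < w z := by
    intro z hz
    rw [Finset.mem_product, Finset.mem_product] at hz
    have e1 : (0 : ℝ) < sn z.1 := by exact_mod_cast SU_sn_pos (hZmem' _ hz.1).1
    have e2 : (0 : ℝ) < sn z.2.1 := by exact_mod_cast SU_sn_pos (hZmem' _ hz.2.1).1
    have e3 : (0 : ℝ) < sn z.2.2 := by exact_mod_cast SU_sn_pos (hZmem' _ hz.2.2).1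
    simp only [hw]
    positivity
  rw [← Finset.sum_fiberwise_of_maps_to (g := ζ) (t := Zs ×ˢ Zs ×ˢ Zs)
    (fun p hp => (hζ p hp).1)]
  have key : ∀ z ∈ Zs ×ˢ Zs ×ˢ Zs, ∑ p ∈ D.filter (fun p => ζ p = z), PP R T p.1 p.2 ^ 2 ≤
      C ^ 4 * B ^ 6 / (c ^ 8 * M ^ 8) * (1 / w z ^ 6) := by
    intro z hz
    have hw0 := hwpos z hz
    rcases (D.filter (fun p => ζ p = z)).eq_empty_or_nonempty with he | ⟨p₀, hp₀⟩
    · rw [he, Finset.sum_empty]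
      positivity
    · have hp₀' := Finset.mem_filter.1 hp₀
      have hS := (hζ p₀ hp₀'.1).2.2.2.1
      rw [hp₀'.2] at hS
      set S := X.filter (fun n => In3 z.1 z.2.1 z.2.2 n) with hSdef
      have hScard : (S.card : ℝ) * w z ≤ C * B ^ 3 := by
        refine hS S fun n hn => ?_
        have hn' := Finset.mem_filter.1 hn
        exact ⟨SU_sn_le hB0.le (hX n hn'.1).bd, hn'.2⟩
      have hcard : (D.filter (fun p => ζ p = z)).card ≤ S.card * S.card := by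
        rw [← Finset.card_product]
        refine Finset.card_le_card fun p hp => ?_
        have hp' := Finset.mem_filter.1 hp
        have hpX := Finset.mem_product.1 (Finset.mem_filter.1 hp'.1).1
        have hz1 := (hζ p hp'.1).2.1
        have hz2 := (hζ p hp'.1).2.2.1
        rw [hp'.2] at hz1 hz2
        rw [Finset.mem_product]
        exact ⟨Finset.mem_filter.2 ⟨hpX.1, hz1⟩, Finset.mem_filter.2 ⟨hpX.2, hz2⟩⟩
      have hterm : ∀ p ∈ D.filter (fun p => ζ p = z), PP R T p.1 p.2 ^ 2 ≤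
          (C / c ^ 4 / (M ^ 4 * w z ^ 2)) ^ 2 := by
        intro p hp
        have hp' := Finset.mem_filter.1 hp
        have e1 := (hζ p hp'.1).2.2.2.2
        rw [hp'.2] at e1
        refine pow_le_pow_left₀ (hPP0 p) ?_ 2
        rw [le_div_iff₀ (by positivity)]
        exact e1
      have hS2 : (S.card : ℝ) ≤ C * B ^ 3 / w z := by
        rw [le_div_iff₀ hw0]
        exact hScard
      calc ∑ p ∈ D.filter (fun p => ζ p = z), PP R T p.1 p.2 ^ 2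
          ≤ ∑ _p ∈ D.filter (fun p => ζ p = z), (C / c ^ 4 / (M ^ 4 * w z ^ 2)) ^ 2 :=
            Finset.sum_le_sum hterm
        _ = ((D.filter (fun p => ζ p = z)).card : ℝ) * (C / c ^ 4 / (M ^ 4 * w z ^ 2)) ^ 2 := by
            rw [Finset.sum_const, nsmul_eq_mul]
        _ ≤ ((C * B ^ 3 / w z) * (C * B ^ 3 / w z)) * (C / c ^ 4 / (M ^ 4 * w z ^ 2)) ^ 2 := by
            refine mul_le_mul_of_nonneg_right ?_ (by positivity)
            have e2 : ((D.filter (fun p => ζ p = z)).card : ℝ) ≤ (S.card : ℝ) * S.card := by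
              exact_mod_cast hcard
            exact e2.trans (mul_le_mul hS2 hS2 (by positivity) (by positivity))
        _ = C ^ 4 * B ^ 6 / (c ^ 8 * M ^ 8) * (1 / w z ^ 6) := by
            field_simp
  refine (Finset.sum_le_sum key).trans ?_
  rw [← Finset.mul_sum]
  have hsum : ∑ z ∈ Zs ×ˢ Zs ×ˢ Zs, 1 / w z ^ 6 = (∑ z ∈ Zs, 1 / (sn z : ℝ) ^ 6) ^ 3 := by
    rw [Finset.sum_product]
    have e1 : ∀ x ∈ Zs, ∑ y ∈ Zs ×ˢ Zs, 1 / w (x, y) ^ 6 =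
        1 / (sn x : ℝ) ^ 6 * (∑ z ∈ Zs, 1 / (sn z : ℝ) ^ 6) ^ 2 := by
      intro x _
      rw [Finset.sum_product, sq, Finset.sum_mul_sum, Finset.mul_sum]
      refine Finset.sum_congr rfl fun y _ => ?_
      rw [Finset.mul_sum]
      refine Finset.sum_congr rfl fun t _ => ?_
      simp only [hw]
      rw [one_div_mul_one_div, one_div_mul_one_div]
      congr 1
      ring
    rw [Finset.sum_congr rfl e1, ← Finset.sum_mul]
    ring
  rw [hsum]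
  have hCB : 1 ≤ C * B := by nlinarith
  have hs6 : ∑ z ∈ Zs, 1 / (sn z : ℝ) ^ 6 ≤ C' * √(C * B) := hZ (C * B) Zs hCB hZmem'
  have hs0 : 0 ≤ ∑ z ∈ Zs, 1 / (sn z : ℝ) ^ 6 := Finset.sum_nonneg fun z _ => by positivity
  have hsqB : √B * √B = B := Real.mul_self_sqrt hB0.le
  have hsqB0 : 0 < √B := Real.sqrt_pos.2 hB0
  have hsqC : √C ≤ C := by
    rw [Real.sqrt_le_left hC0.le]
    nlinarith
  have hsqC' : √C * √C = C := Real.mul_self_sqrt hC0.le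
  have h3 : (∑ z ∈ Zs, 1 / (sn z : ℝ) ^ 6) ^ 3 ≤ C' ^ 3 * (C ^ 2 * (B * √B)) := by
    calc (∑ z ∈ Zs, 1 / (sn z : ℝ) ^ 6) ^ 3 ≤ (C' * √(C * B)) ^ 3 := pow_le_pow_left₀ hs0 hs6 3
      _ = C' ^ 3 * ((√C * √C * √C) * (√B * √B * √B)) := by
          rw [Real.sqrt_mul hC0.le]
          ring
      _ = C' ^ 3 * ((C * √C) * (B * √B)) := by rw [hsqC', hsqB]
      _ ≤ C' ^ 3 * (C ^ 2 * (B * √B)) := by
          refine mul_le_mul_of_nonneg_left ?_ (by positivity)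
          refine mul_le_mul_of_nonneg_right ?_ (by positivity)
          nlinarith
  calc C ^ 4 * B ^ 6 / (c ^ 8 * M ^ 8) * (∑ z ∈ Zs, 1 / (sn z : ℝ) ^ 6) ^ 3
      ≤ C ^ 4 * B ^ 6 / (c ^ 8 * M ^ 8) * (C' ^ 3 * (C ^ 2 * (B * √B))) :=
        mul_le_mul_of_nonneg_left h3 (by positivity)
    _ = C ^ 6 * C' ^ 3 / c ^ 8 * (B / M) ^ 8 / √B := by
        have e : B ^ 6 * (B * √B) = B ^ 8 / √B := by
          rw [eq_div_iff hsqB0.ne']
          calc B ^ 6 * (B * √B) * √B = B ^ 7 * (√B * √B) := by ring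
            _ = B ^ 8 := by rw [hsqB]; ring
        calc C ^ 4 * B ^ 6 / (c ^ 8 * M ^ 8) * (C' ^ 3 * (C ^ 2 * (B * √B)))
            = C ^ 6 * C' ^ 3 / (c ^ 8 * M ^ 8) * (B ^ 6 * (B * √B)) := by ring
          _ = C ^ 6 * C' ^ 3 / (c ^ 8 * M ^ 8) * (B ^ 8 / √B) := by rw [e]
          _ = C ^ 6 * C' ^ 3 / c ^ 8 * (B / M) ^ 8 / √B := by
              rw [div_pow]
              field_simp

end Pool.HPQ
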