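import Pool.Agent.Work.MP_9fb703_hp.B_SZ7

/-! # Block SZ6: an almost convergent sum -/

set_option autoImplicit false

namespace Pool.HPQ

open Finset

theorem sz6_sq (n : ℕ) : n ^ 2 ≤ 2 * 2 ^ n := by
  induction n with
  | zero => norm_num
  | succ n ih =>
    rcases Nat.lt_or_ge n 3 with h | h
    · interval_cases n <;> norm_num
    · rw [pow_succ 2 n]
      nlinarith

theorem p_SZ6 : Stmt_SZ6 := by
  refine ⟨8192, by norm_num, ?_⟩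
  intro Y Z hY hZ
  have hfl : ⌊Y⌋₊ ≠ 0 := by
    have : 1 ≤ ⌊Y⌋₊ := Nat.le_floor (by exact_mod_cast hY)
    omega
  have h := sz_all 6 (Nat.log 2 ⌊Y⌋₊ + 1) Z (fun z hz => (hZ z hz).1) (by
    intro z hz
    exact Nat.lt_succ_of_le (Nat.log_mono_right (Nat.le_floor (hZ z hz).2)))
  refine h.trans ?_
  have e : ∀ i ∈ range (Nat.log 2 ⌊Y⌋₊ + 1),
      4096 * 64 ^ i / ((2 : ℝ) ^ i) ^ 6 = 4096 := by
    intro i _
    rw [← pow_mul, mul_comm i 6, pow_mul, mul_div_assoc, ← div_pow]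
    norm_num
  rw [Finset.sum_congr rfl e, Finset.sum_const, Finset.card_range, nsmul_eq_mul]
  have h2 : 2 ^ Nat.log 2 ⌊Y⌋₊ ≤ ⌊Y⌋₊ := Nat.pow_log_le_self 2 hfl
  have h3 : ((2 ^ Nat.log 2 ⌊Y⌋₊ : ℕ) : ℝ) ≤ Y :=
    (Nat.cast_le.mpr h2).trans (Nat.floor_le (by linarith))
  have h4 := sz6_sq (Nat.log 2 ⌊Y⌋₊ + 1)
  have h5 : ((Nat.log 2 ⌊Y⌋₊ + 1 : ℕ) : ℝ) ^ 2 ≤ 4 * Y := by
    have h6 : (((Nat.log 2 ⌊Y⌋₊ + 1) ^ 2 : ℕ) : ℝ) ≤ ((2 * 2 ^ (Nat.log 2 ⌊Y⌋₊ + 1) : ℕ) : ℝ) := by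
      exact_mod_cast h4
    push_cast at h6 h3 ⊢
    rw [pow_succ 2 (Nat.log 2 ⌊Y⌋₊)] at h6
    linarith
  have h7 : ((Nat.log 2 ⌊Y⌋₊ + 1 : ℕ) : ℝ) ≤ 2 * √Y := by
    apply le_of_sq_le_sq _ (by positivity)
    rw [mul_pow, Real.sq_sqrt (by linarith)]
    linarith
  linarith

end Pool.HPQ
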