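import Pool.Agent.Work.MP_9fb703_hp.Interface

/-! # Block SZ7: a convergent sum -/

set_option autoImplicit false

namespace Pool.HPQ

open Finset

theorem sz_card (i : ℕ) (S : Finset (Fin 6 → ℤ)) (hS : ∀ z ∈ S, Nat.log 2 (sn z) = i) :
    (S.card : ℝ) ≤ 4096 * 64 ^ i := by
  have hsub : S ⊆ Fintype.piFinset fun _ : Fin 6 =>
      Finset.Icc (-((2 ^ (i + 1) - 1 : ℕ) : ℤ)) ((2 ^ (i + 1) - 1 : ℕ) : ℤ) := by
    intro z hz
    rw [Fintype.mem_piFinset]
    intro k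
    have h1 : (z k).natAbs ≤ sn z := by
      unfold sn
      exact Finset.le_sup (f := fun q => (z q).natAbs) (Finset.mem_univ k)
    have h2 := Nat.lt_pow_succ_log_self (b := 2) (by norm_num) (sn z)
    rw [hS z hz] at h2
    rw [Finset.mem_Icc]
    constructor <;> omega
  have h1 := Finset.card_le_card hsub
  rw [Fintype.card_piFinset] at h1
  simp only [Int.card_Icc, Finset.prod_const, Finset.card_univ, Fintype.card_fin] at h1
  have h2 : (((2 ^ (i + 1) - 1 : ℕ) : ℤ) + 1 - -((2 ^ (i + 1) - 1 : ℕ) : ℤ)).toNat ≤ 4 * 2 ^ i := by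
    have : 2 ^ (i + 1) = 2 * 2 ^ i := by rw [pow_succ]; ring
    have hp : 0 < 2 ^ i := by positivity
    rw [this]
    omega
  calc (S.card : ℝ) ≤ (((4 * 2 ^ i) ^ 6 : ℕ) : ℝ) := by
        exact_mod_cast h1.trans (Nat.pow_le_pow_left h2 6)
    _ = 4096 * 64 ^ i := by
        push_cast
        rw [mul_pow, ← pow_mul, mul_comm i 6, pow_mul]
        norm_num

theorem sz_pos (z : Fin 6 → ℤ) (hz : z ≠ 0) : sn z ≠ 0 := by
  intro h
  apply hz
  funext k
  have h1 : (z k).natAbs ≤ sn z := by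
    unfold sn
    exact Finset.le_sup (f := fun q => (z q).natAbs) (Finset.mem_univ k)
  show z k = 0
  omega

/-- The sum over a dyadic shell. -/
theorem sz_shell (i k : ℕ) (S : Finset (Fin 6 → ℤ))
    (hS : ∀ z ∈ S, z ≠ 0 ∧ Nat.log 2 (sn z) = i) :
    ∑ z ∈ S, 1 / (sn z : ℝ) ^ k ≤ 4096 * 64 ^ i / (2 ^ i) ^ k := by
  have h1 : ∀ z ∈ S, 1 / (sn z : ℝ) ^ k ≤ 1 / (2 ^ i) ^ k := by
    intro z hz
    have h2 : 2 ^ Nat.log 2 (sn z) ≤ sn z := Nat.pow_log_le_self 2 (sz_pos z (hS z hz).1)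
    rw [(hS z hz).2] at h2
    have h3 : (2 : ℝ) ^ i ≤ sn z := by exact_mod_cast h2
    apply one_div_le_one_div_of_le (by positivity)
    exact pow_le_pow_left₀ (by positivity) h3 k
  refine (Finset.sum_le_sum h1).trans ?_
  rw [Finset.sum_const, nsmul_eq_mul, mul_one_div]
  apply div_le_div_of_nonneg_right _ (by positivity)
  exact sz_card i S fun z hz => (hS z hz).2

theorem sz_all (k I : ℕ) (Z : Finset (Fin 6 → ℤ)) (hZ : ∀ z ∈ Z, z ≠ 0)
    (hI : ∀ z ∈ Z, Nat.log 2 (sn z) < I) :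
    ∑ z ∈ Z, 1 / (sn z : ℝ) ^ k ≤ ∑ i ∈ range I, 4096 * 64 ^ i / ((2 : ℝ) ^ i) ^ k := by
  classical
  rw [← Finset.sum_fiberwise_of_maps_to (s := Z) (t := range I) (g := fun z => Nat.log 2 (sn z))
    (fun z hz => Finset.mem_range.mpr (hI z hz))]
  apply Finset.sum_le_sum
  intro i _
  apply sz_shell
  intro z hz
  rw [Finset.mem_filter] at hz
  exact ⟨hZ z hz.1, hz.2⟩

theorem p_SZ7 : Stmt_SZ7 := by
  refine ⟨8192, by norm_num, ?_⟩
  intro Z hZ
  have h := sz_all 7 (Z.sup (fun z => Nat.log 2 (sn z)) + 1) Z hZ (by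
    intro z hz
    have := Finset.le_sup (f := fun z => Nat.log 2 (sn z)) hz
    omega)
  refine h.trans ?_
  have e : ∀ i ∈ range (Z.sup (fun z => Nat.log 2 (sn z)) + 1),
      4096 * 64 ^ i / ((2 : ℝ) ^ i) ^ 7 = 4096 * (1 / 2) ^ i := by
    intro i _
    rw [← pow_mul, mul_comm i 7, pow_mul, mul_div_assoc, ← div_pow]
    norm_num
  rw [Finset.sum_congr rfl e, ← Finset.mul_sum]
  have h2 : ∑ i ∈ range (Z.sup (fun z => Nat.log 2 (sn z)) + 1), ((1 : ℝ) / 2) ^ i ≤ 2 := by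
    have := geom_sum_mul ((1 : ℝ) / 2) (Z.sup (fun z => Nat.log 2 (sn z)) + 1)
    have h3 : (0 : ℝ) ≤ (1 / 2) ^ (Z.sup (fun z => Nat.log 2 (sn z)) + 1) := by positivity
    linarith
  linarith

end Pool.HPQ
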