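import Pool.Agent.Work.MP_9fb703_hp.Interface

/-! # TWI: the sum over the twisted family (helper78) -/

set_option autoImplicit false

namespace Pool.HPQ

open Finset

private theorem twi_PP (R T : ℕ) (x y : Fin 6 → ℤ) : 0 ≤ PP R T x y := by
  unfold PP
  positivity

/-- the matrix of the twist -/
private def tm (r : Fin 6 → ℤ) (i l : Fin 6) : ℤ := if i = 0 then r l else if l = i then 1 else 0

private theorem tw_eq (r x : Fin 6 → ℤ) (i : Fin 6) : tw r x i = ∑ l, tm r i l * x l := by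
  unfold tw tm dt
  by_cases h : i = 0
  · simp [h]
  · simp [h]

private theorem tm_sum (r : Fin 6 → ℤ) (h0 : r 0 = 1) (i : Fin 6) :
    ∑ l, |tm r i l| ≤ (n1 r : ℤ) := by
  unfold tm n1
  by_cases h : i = 0
  · simp [h]
  · simp only [h, if_false]
    have h1 : ∑ l : Fin 6, |if l = i then (1 : ℤ) else 0| = 1 := by
      rw [Finset.sum_eq_single i]
      · simp
      · intro b _ hb
        simp [hb]
      · simp
    rw [h1]
    have h2 : (1 : ℤ) = ((r 0).natAbs : ℤ) := by simp [h0]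
    rw [h2]
    exact_mod_cast Finset.single_le_sum (f := fun i => (r i).natAbs) (fun _ _ => Nat.zero_le _)
      (Finset.mem_univ (0 : Fin 6))

private theorem n1_pos (r : Fin 6 → ℤ) (h0 : r 0 = 1) : 1 ≤ n1 r := by
  have h2 : 1 = (r 0).natAbs := by simp [h0]
  rw [h2]
  unfold n1
  exact Finset.single_le_sum (f := fun i => (r i).natAbs) (fun _ _ => Nat.zero_le _)
      (Finset.mem_univ (0 : Fin 6))

private theorem tw_inj (r : Fin 6 → ℤ) (h0 : r 0 = 1) : Function.Injective (tw r) := by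
  intro x y h
  have h1 : ∀ i, i ≠ 0 → x i = y i := by
    intro i hi
    have := congrFun h i
    simpa [tw, hi] using this
  funext i
  by_cases hi : i = 0
  · subst hi
    have h2 := congrFun h 0
    simp only [tw, if_true] at h2
    unfold dt at h2
    have e : ∀ v : Fin 6 → ℤ, ∑ i, r i * v i = r 0 * v 0 + ∑ i : Fin 5, r i.succ * v i.succ :=
      fun v => Fin.sum_univ_succ _
    rw [e, e, h0] at h2
    have h3 : ∑ i : Fin 5, r i.succ * x i.succ = ∑ i : Fin 5, r i.succ * y i.succ :=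
      Finset.sum_congr rfl fun i _ => by rw [h1 i.succ (Fin.succ_ne_zero i)]
    linarith
  · exact h1 i hi

/-- the solutions for the twisted points -/
private theorem Sol_tw (R T : ℕ) (r x y : Fin 6 → ℤ) (h0 : r 0 = 1) :
    Sol R T x y ⊆ Sol R (n1 r ^ 2 * T) (tw r x) (tw r y) := by
  classical
  intro s hs
  unfold Sol at hs ⊢
  rw [Finset.mem_filter] at hs ⊢
  refine ⟨hs.1, fun i j => ?_⟩
  choose n hn using hs.2
  have hT : 1 ≤ (T : ℤ) := by
    have h1 := (abs_nonneg _).trans_lt (hn 0 0)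
    omega
  refine ⟨∑ l, ∑ l', tm r i l * tm r j l' * n l l', ?_⟩
  have hexp : s.1 * (tw r x i * tw r x j) - s.2 * (tw r y i * tw r y j) -
      R * (∑ l, ∑ l', tm r i l * tm r j l' * n l l') =
      ∑ l, ∑ l', tm r i l * tm r j l' *
        (s.1 * (x l * x l') - s.2 * (y l * y l') - R * n l l') := by
    rw [tw_eq, tw_eq, tw_eq, tw_eq, Finset.sum_mul_sum, Finset.sum_mul_sum, Finset.mul_sum,
      Finset.mul_sum, Finset.mul_sum, ← Finset.sum_sub_distrib, ← Finset.sum_sub_distrib]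
    refine Finset.sum_congr rfl fun l _ => ?_
    rw [Finset.mul_sum, Finset.mul_sum, Finset.mul_sum, ← Finset.sum_sub_distrib,
      ← Finset.sum_sub_distrib]
    refine Finset.sum_congr rfl fun l' _ => ?_
    ring
  rw [hexp]
  have hb : |∑ l, ∑ l', tm r i l * tm r j l' *
        (s.1 * (x l * x l') - s.2 * (y l * y l') - R * n l l')| ≤
      (∑ l, |tm r i l|) * (∑ l', |tm r j l'|) * ((T : ℤ) - 1) := by
    calc |∑ l, ∑ l', tm r i l * tm r j l' *
        (s.1 * (x l * x l') - s.2 * (y l * y l') - R * n l l')| ≤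
        ∑ l, |∑ l', tm r i l * tm r j l' *
        (s.1 * (x l * x l') - s.2 * (y l * y l') - R * n l l')| := Finset.abs_sum_le_sum_abs _ _
      _ ≤ ∑ l, ∑ l', |tm r i l * tm r j l' *
        (s.1 * (x l * x l') - s.2 * (y l * y l') - R * n l l')| :=
          Finset.sum_le_sum fun l _ => Finset.abs_sum_le_sum_abs _ _
      _ ≤ ∑ l, ∑ l', |tm r i l| * |tm r j l'| * ((T : ℤ) - 1) := by
          refine Finset.sum_le_sum fun l _ => Finset.sum_le_sum fun l' _ => ?_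
          rw [abs_mul, abs_mul]
          refine mul_le_mul_of_nonneg_left ?_ (by positivity)
          have := hn l l'
          omega
      _ = (∑ l, |tm r i l|) * (∑ l', |tm r j l'|) * ((T : ℤ) - 1) := by
          rw [Finset.sum_mul_sum, Finset.sum_mul]
          refine Finset.sum_congr rfl fun l _ => ?_
          rw [Finset.sum_mul]
  have hn1 : (1 : ℤ) ≤ n1 r := by exact_mod_cast n1_pos r h0
  have h1 : (∑ l, |tm r i l|) * (∑ l', |tm r j l'|) ≤ (n1 r : ℤ) * n1 r :=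
    mul_le_mul (tm_sum r h0 i) (tm_sum r h0 j) (Finset.sum_nonneg fun _ _ => abs_nonneg _)
      (by positivity)
  have h2 : (∑ l, |tm r i l|) * (∑ l', |tm r j l'|) * ((T : ℤ) - 1) ≤
      (n1 r : ℤ) * n1 r * ((T : ℤ) - 1) := mul_le_mul_of_nonneg_right h1 (by omega)
  have h3 : (1 : ℤ) ≤ n1 r * n1 r := by nlinarith
  push_cast
  nlinarith

theorem p_TWI (hGEOM : Stmt_GEOM) (hFW2 : Stmt_FW2) : Stmt_TWI := by
  classical
  obtain ⟨C, hC, hG⟩ := hGEOM
  refine ⟨C, hC, ?_⟩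
  intro R T H W m₀ K₀ G₀ A B _ K₁ c r hr hc hc1 hA hAB hRT hR hH hW hWR hHW hG₀ hg hA' hBT hK₁
    hK₁' hK₀
  have hn1 : 1 ≤ n1 r := n1_pos r hr
  have hn1' : (1 : ℝ) ≤ (n1 r : ℝ) := by exact_mod_cast hn1
  have hn0 : (0 : ℝ) < (n1 r : ℝ) := by linarith
  have hA0 : (0 : ℝ) < A := by exact_mod_cast hA
  have hAB' : 2 * (A : ℝ) ≤ B := by exact_mod_cast hAB
  have hB0 : (0 : ℝ) < B := by linarith
  have hRpos : 0 < R := Nat.pos_of_ne_zero (NeZero.ne R)
  have hKw := (hFW2 R H W hH hW hWR hHW).1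
  -- the image family
  have hinj := tw_inj r hr
  have hXX : ∀ x ∈ (XX r c B K₀).image (tw r), Fam (c / n1 r) (n1 r * B) K₀ x := by
    intro z hz
    rw [Finset.mem_image] at hz
    obtain ⟨x, hx, rfl⟩ := hz
    unfold XX at hx
    rw [Finset.mem_filter, Fintype.mem_piFinset] at hx
    obtain ⟨hx1, hx2, hx3, hx4⟩ := hx
    refine ⟨?_, ?_, ?_, hx4⟩
    · intro i
      have h1 : |tw r x i| ≤ (n1 r : ℤ) * B := by
        rw [tw_eq]
        calc |∑ l, tm r i l * x l| ≤ ∑ l, |tm r i l * x l| := Finset.abs_sum_le_sum_abs _ _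
          _ ≤ ∑ l, |tm r i l| * (B : ℤ) := by
              refine Finset.sum_le_sum fun l _ => ?_
              rw [abs_mul]
              refine mul_le_mul_of_nonneg_left ?_ (abs_nonneg _)
              exact abs_le.2 (Finset.mem_Icc.1 (hx1 l))
          _ = (∑ l, |tm r i l|) * (B : ℤ) := by rw [Finset.sum_mul]
          _ ≤ (n1 r : ℤ) * B := mul_le_mul_of_nonneg_right (tm_sum r hr i) (by positivity)
      have h2 : ((|tw r x i| : ℤ) : ℝ) ≤ (((n1 r : ℤ) * B : ℤ) : ℝ) := by exact_mod_cast h1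
      push_cast at h2
      exact h2
    · have h1 : c / n1 r * (n1 r * B) = c * B := by field_simp
      rw [h1]
      have h2 : tw r x 0 = dt r x := by simp [tw]
      rw [h2]
      exact hx2
    · have h2 : tw r x 0 = dt r x := by simp [tw]
      have h3 : tw r x 1 = x 1 := by simp [tw]
      rw [h2, h3]
      exact hx3
  have hmain := hG R (n1 r ^ 2 * T) H W m₀ K₀ G₀ K₁ (n1 r * B) (c / n1 r)
    (2 * A / (n1 r : ℝ) ^ 2) ((XX r c B K₀).image (tw r)) (by positivity)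
    (by
      rw [div_le_one hn0]
      linarith)
    (by
      have h1 : 16 / (c / (n1 r : ℝ)) = 16 * n1 r / c := by field_simp
      rw [h1, div_le_div_iff₀ hc (by positivity)]
      rw [div_le_iff₀ hc] at hA'
      nlinarith)
    (by
      rw [div_le_iff₀ (by positivity)]
      have h2 : (1 : ℝ) ≤ n1 r * (n1 r : ℝ) ^ 2 := by
        have : (1 : ℝ) ≤ (n1 r : ℝ) ^ 3 := one_le_pow₀ hn1'
        nlinarith
      nlinarith)
    (by
      push_cast
      have h1 : (R : ℝ) = 2 * A * T := by exact_mod_cast hRT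
      rw [h1]
      field_simp)
    (by
      push_cast
      have h1 : (2 : ℝ) * (n1 r * B) ^ 4 ≤ T := by exact_mod_cast hBT
      have h2 : (1 : ℝ) ≤ (n1 r : ℝ) ^ 2 := one_le_pow₀ hn1'
      have h3 : (0 : ℝ) ≤ T := Nat.cast_nonneg _
      nlinarith)
    hR hH hW hWR hHW hG₀ hg hK₁
    (by
      refine le_trans (le_of_eq ?_) hK₁'
      field_simp)
    (by
      refine le_trans (le_of_eq ?_) hK₀
      congr 2
      field_simp)
    hXX
  -- comparison of the sums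
  have hPP : ∀ x y, PP R T x y ≤ PP R (n1 r ^ 2 * T) (tw r x) (tw r y) := by
    intro x y
    unfold PP
    refine div_le_div_of_nonneg_right ?_ (by positivity)
    exact_mod_cast Finset.card_le_card (Sol_tw R T r x y hr)
  have hPS0 : ∀ x y, 0 ≤ PS R T H W x y := by
    intro x y
    unfold PS
    refine div_nonneg (Finset.sum_nonneg fun s _ => ?_) (by positivity)
    have := (hKw ((s.2 : ℤ) : ZMod R)).2
    linarith
  have hPS : ∀ x y, PS R T H W x y ≤ PS R (n1 r ^ 2 * T) H W (tw r x) (tw r y) := by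
    intro x y
    unfold PS
    refine div_le_div_of_nonneg_right ?_ (by positivity)
    refine Finset.sum_le_sum_of_subset_of_nonneg (Sol_tw R T r x y hr) fun s _ _ => ?_
    have := (hKw ((s.2 : ℤ) : ZMod R)).2
    linarith
  have hle : ∑ x ∈ XX r c B K₀, ∑ y ∈ XX r c B K₀, PP R T x y * PS R T H W x y ≤
      ∑ x ∈ (XX r c B K₀).image (tw r), ∑ y ∈ (XX r c B K₀).image (tw r),
        PP R (n1 r ^ 2 * T) x y * PS R (n1 r ^ 2 * T) H W x y := by
    rw [Finset.sum_image fun a _ b _ h => hinj h]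
    refine Finset.sum_le_sum fun x _ => ?_
    rw [Finset.sum_image fun a _ b _ h => hinj h]
    refine Finset.sum_le_sum fun y _ => ?_
    exact mul_le_mul (hPP x y) (hPS x y) (hPS0 x y) (twi_PP _ _ _ _)
  refine (hle.trans hmain).trans ?_
  -- the constants
  have k1 : (n1 r : ℝ) * B / (2 * A / (n1 r : ℝ) ^ 2) = (n1 r : ℝ) ^ 3 / 2 * (B / A) := by
    field_simp
  have k2 : C / (c / (n1 r : ℝ)) ^ 10 = C * ((n1 r : ℝ) / c) ^ 10 := by
    field_simp
  rw [k1, k2, mul_assoc (C * ((n1 r : ℝ) / c) ^ 10) ((n1 r : ℝ) ^ 24)]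
  refine mul_le_mul_of_nonneg_left ?_ (by positivity)
  have hBA : 0 < (B : ℝ) / A := by positivity
  have hpow : ∀ j : ℕ, j ≤ 24 → (n1 r : ℝ) ^ j ≤ (n1 r : ℝ) ^ 24 := fun j hj =>
    pow_le_pow_right₀ hn1' hj
  have hm₀ : (0 : ℝ) ≤ m₀ := Nat.cast_nonneg _
  have hG₀' : (0 : ℝ) ≤ 1 / G₀ := by positivity
  have p1 : ((n1 r : ℝ) ^ 3 / 2 * (B / A)) ^ 2 ≤ (n1 r : ℝ) ^ 24 * ((B : ℝ) / A) ^ 2 := by
    have h1 : ((n1 r : ℝ) ^ 3 / 2 * (B / A)) ^ 2 = (n1 r : ℝ) ^ 6 / 4 * ((B : ℝ) / A) ^ 2 := by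
      ring
    rw [h1]
    refine mul_le_mul_of_nonneg_right ?_ (by positivity)
    have := hpow 6 (by norm_num)
    have h2 : 0 < (n1 r : ℝ) ^ 6 := by positivity
    linarith
  have p2 : ((n1 r : ℝ) ^ 3 / 2 * (B / A)) ^ 4 ≤ (n1 r : ℝ) ^ 24 * ((B : ℝ) / A) ^ 4 := by
    have h1 : ((n1 r : ℝ) ^ 3 / 2 * (B / A)) ^ 4 = (n1 r : ℝ) ^ 12 / 16 * ((B : ℝ) / A) ^ 4 := by
      ring
    rw [h1]
    refine mul_le_mul_of_nonneg_right ?_ (by positivity)
    have := hpow 12 (by norm_num)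
    have h2 : 0 < (n1 r : ℝ) ^ 12 := by positivity
    linarith
  have p3 : ((n1 r : ℝ) ^ 3 / 2 * (B / A)) ^ 8 ≤ (n1 r : ℝ) ^ 24 * ((B : ℝ) / A) ^ 8 := by
    have h1 : ((n1 r : ℝ) ^ 3 / 2 * (B / A)) ^ 8 = (n1 r : ℝ) ^ 24 / 256 * ((B : ℝ) / A) ^ 8 := by
      ring
    rw [h1]
    refine mul_le_mul_of_nonneg_right ?_ (by positivity)
    have h2 : 0 < (n1 r : ℝ) ^ 24 := by positivity
    linarith
  have p4 : 1 / (G₀ : ℝ) + m₀ / (2 * A / (n1 r : ℝ) ^ 2 * (n1 r * B) ^ 2) ≤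
      1 / G₀ + m₀ / (A * (B : ℝ) ^ 2) := by
    have h1 : 2 * A / (n1 r : ℝ) ^ 2 * (n1 r * B) ^ 2 = 2 * (A * (B : ℝ) ^ 2) := by
      field_simp
    rw [h1]
    have h2 : (m₀ : ℝ) / (2 * (A * (B : ℝ) ^ 2)) ≤ m₀ / (A * (B : ℝ) ^ 2) := by
      refine div_le_div_of_nonneg_left hm₀ (by positivity) ?_
      have : 0 < A * (B : ℝ) ^ 2 := by positivity
      linarith
    linarith
  have p5 : √(B : ℝ) ≤ √((n1 r : ℝ) * B) := by
    refine Real.sqrt_le_sqrt ?_
    nlinarith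
  have hsB : 0 < √(B : ℝ) := Real.sqrt_pos.2 hB0
  have q0 : (0 : ℝ) ≤ 1 / G₀ + m₀ / (2 * A / (n1 r : ℝ) ^ 2 * (n1 r * B) ^ 2) := by positivity
  have q2 : ((n1 r : ℝ) ^ 3 / 2 * (B / A)) ^ 4 *
      (1 / G₀ + m₀ / (2 * A / (n1 r : ℝ) ^ 2 * (n1 r * B) ^ 2)) ≤
      (n1 r : ℝ) ^ 24 * (((B : ℝ) / A) ^ 4 * (1 / G₀ + m₀ / (A * (B : ℝ) ^ 2))) := by
    rw [← mul_assoc]
    exact mul_le_mul p2 p4 q0 (by positivity)
  have q3 : ((n1 r : ℝ) ^ 3 / 2 * (B / A)) ^ 8 / K₁ ≤ (n1 r : ℝ) ^ 24 * (((B : ℝ) / A) ^ 8 / K₁) :=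
    (div_le_div_of_nonneg_right p3 (by linarith)).trans (le_of_eq (mul_div_assoc _ _ _))
  have q4 : ((n1 r : ℝ) ^ 3 / 2 * (B / A)) ^ 8 / √((n1 r : ℝ) * B) ≤
      (n1 r : ℝ) ^ 24 * (((B : ℝ) / A) ^ 8 / √B) :=
    (div_le_div₀ (by positivity) p3 hsB p5).trans (le_of_eq (mul_div_assoc _ _ _))
  rw [mul_add, mul_add, mul_add]
  linarith

end Pool.HPQ
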