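import Pool.Agent.Work.MP_9fb703_hp.Interface

/-! # UNB: unbalanced pairs (MP_9fb703, note 2846, block by helper74) -/

set_option autoImplicit false

namespace Pool.HPQ

open Finset

theorem UNB_enc {β : Type*} (P : Finset β) : ∃ e : β → ℕ, (∀ b ∈ P, e b < P.card) ∧
    ∀ b ∈ P, ∀ b' ∈ P, e b = e b' → b = b' := by
  classical
  refine ⟨fun b => if h : b ∈ P then (P.equivFin ⟨b, h⟩ : ℕ) else 0, ?_, ?_⟩
  · intro b hb
    simp only [hb, dif_pos]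
    exact (P.equivFin ⟨b, hb⟩).isLt
  · intro b hb b' hb' h
    simp only [hb, hb', dif_pos] at h
    have h1 := P.equivFin.injective (Fin.ext h)
    exact congrArg Subtype.val h1

theorem UNB_space (V : Finset ℤ) (V₀ δ : ℝ) (hδ : 0 < δ) (hV0 : 0 ≤ V₀)
    (hV : ∀ v ∈ V, |(v : ℝ)| ≤ V₀)
    (hs : ∀ v ∈ V, ∀ v' ∈ V, v ≠ v' → δ ≤ |(v : ℝ) - v'|) :
    (V.card : ℝ) ≤ 2 * V₀ / δ + 1 := by
  have key : ∀ v ∈ V, ∀ v' ∈ V, v' < v →
      ⌊((v' : ℝ) + V₀) / δ⌋₊ < ⌊((v : ℝ) + V₀) / δ⌋₊ := by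
    intro v hv v' hv' hlt
    have h1 := hs v hv v' hv' (ne_of_gt hlt)
    have h2 : (v' : ℝ) < v := by exact_mod_cast hlt
    rw [abs_of_pos (by linarith)] at h1
    have h3 := abs_le.1 (hV v' hv')
    have h4 : 0 ≤ ((v' : ℝ) + V₀) / δ := div_nonneg (by linarith) hδ.le
    have h5 : ((v' : ℝ) + V₀) / δ + 1 ≤ ((v : ℝ) + V₀) / δ := by
      rw [← sub_nonneg]
      have : ((v : ℝ) + V₀) / δ - (((v' : ℝ) + V₀) / δ + 1) = ((v : ℝ) - v' - δ) / δ := by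
        field_simp
        ring
      rw [this]
      exact div_nonneg (by linarith) hδ.le
    have h6 := Nat.floor_add_one h4
    have h7 := Nat.floor_mono h5
    omega
  have hinj : Set.InjOn (fun v : ℤ => ⌊((v : ℝ) + V₀) / δ⌋₊) (V : Set ℤ) := by
    intro v hv v' hv' h
    rcases lt_trichotomy v v' with h1 | h1 | h1
    · exact absurd h (key v' hv' v hv h1).ne
    · exact h1
    · exact absurd h (key v hv v' hv' h1).ne'
  have h1 : V.card ≤ (range (⌊2 * V₀ / δ⌋₊ + 1)).card := by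
    refine Finset.card_le_card_of_injOn _ ?_ hinj
    intro v hv
    simp only [Finset.coe_range, Set.mem_Iio]
    rw [Nat.lt_succ_iff]
    refine Nat.floor_mono ?_
    refine div_le_div_of_nonneg_right ?_ hδ.le
    have := abs_le.1 (hV v hv)
    linarith
  rw [card_range] at h1
  have h2 : (⌊2 * V₀ / δ⌋₊ : ℝ) ≤ 2 * V₀ / δ := Nat.floor_le (by positivity)
  have h3 : (V.card : ℝ) ≤ (⌊2 * V₀ / δ⌋₊ : ℝ) + 1 := by exact_mod_cast h1
  linarith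

theorem UNB_sn_le (n : Fin 6 → ℤ) (X : ℝ) (h : ∀ i, |(n i : ℝ)| ≤ X) : (sn n : ℝ) ≤ X := by
  obtain ⟨i, -, hi⟩ := Finset.exists_mem_eq_sup (univ : Finset (Fin 6)) ⟨0, mem_univ _⟩
    (fun i => (n i).natAbs)
  unfold sn
  rw [hi]
  refine le_trans (le_of_eq ?_) (h i)
  rw [Nat.cast_natAbs, Int.cast_abs]

theorem UNB_sn_pos (n : Fin 6 → ℤ) (h : n ≠ 0) : 1 ≤ sn n := by
  obtain ⟨i, hi⟩ := Function.ne_iff.1 h
  have h1 : (n i).natAbs ≤ sn n := Finset.le_sup (f := fun i => (n i).natAbs) (mem_univ i)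
  have h2 : (n i).natAbs ≠ 0 := Int.natAbs_ne_zero.2 hi
  omega

theorem UNB_De_le (x y : Fin 6 → ℤ) (q : Fin 6) : |(om x y 0 q : ℝ)| ≤ De x y := by
  have h1 : (om x y 0 q).natAbs ≤ De x y :=
    Finset.le_sup (f := fun q => (om x y 0 q).natAbs) (mem_univ q)
  have h2 : (((om x y 0 q).natAbs : ℕ) : ℝ) = |(om x y 0 q : ℝ)| := by
    rw [Nat.cast_natAbs, Int.cast_abs]
  rw [← h2]
  exact_mod_cast h1

theorem UNB_De_ex (x y : Fin 6 → ℤ) : ∃ q, (De x y : ℝ) = |(om x y 0 q : ℝ)| := by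
  obtain ⟨i, -, hi⟩ := Finset.exists_mem_eq_sup (univ : Finset (Fin 6)) ⟨0, mem_univ _⟩
    (fun q => (om x y 0 q).natAbs)
  refine ⟨i, ?_⟩
  unfold De
  rw [hi, Nat.cast_natAbs, Int.cast_abs]

theorem UNB_in2 (x y n : Fin 6 → ℤ) (h : 0 < De x y) (h0 : ∀ i j k, om3 x y n i j k = 0) :
    In2 x y n := by
  obtain ⟨q, hq⟩ := UNB_De_ex x y
  have h1 : om x y 0 q ≠ 0 := by
    intro h2
    rw [h2] at hq
    simp at hq
    omega
  refine ⟨om x y 0 q, -(y 0 * n q - y q * n 0), x 0 * n q - x q * n 0, h1, fun i => ?_⟩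
  have h3 := h0 0 q i
  unfold om3 at h3
  unfold om
  linear_combination h3

theorem UNB_om_le (x w : Fin 6 → ℤ) (B c : ℝ) (hB : 1 ≤ B) (hx : ∀ i, |(x i : ℝ)| ≤ B)
    (hx0 : c * B ≤ (x 0 : ℝ)) (i j : Fin 6) :
    c * |(om x w i j : ℝ)| ≤ 2 * De x w := by
  have h1 : (x 0 : ℝ) * (om x w i j : ℝ) = x i * (om x w 0 j : ℝ) - x j * (om x w 0 i : ℝ) := by
    unfold om
    push_cast
    ring
  have h2 : |(x 0 : ℝ)| * |(om x w i j : ℝ)| ≤ B * De x w + B * De x w := by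
    rw [← abs_mul, h1]
    refine (abs_sub _ _).trans ?_
    rw [abs_mul, abs_mul]
    exact add_le_add (mul_le_mul (hx i) (UNB_De_le x w j) (abs_nonneg _) (by linarith))
      (mul_le_mul (hx j) (UNB_De_le x w i) (abs_nonneg _) (by linarith))
  have h3 : c * B * |(om x w i j : ℝ)| ≤ |(x 0 : ℝ)| * |(om x w i j : ℝ)| :=
    mul_le_mul_of_nonneg_right (hx0.trans (le_abs_self _)) (abs_nonneg _)
  have h4 : B * (c * |(om x w i j : ℝ)|) ≤ B * (2 * De x w) := by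
    calc B * (c * |(om x w i j : ℝ)|) = c * B * |(om x w i j : ℝ)| := by ring
      _ ≤ _ := h3.trans h2
      _ = B * (2 * De x w) := by ring
  exact le_of_mul_le_mul_left h4 (by linarith)

theorem UNB_comb (z₁ z₂ z₃ x y n m : Fin 6 → ℤ) (hx : In3 z₁ z₂ z₃ x) (hy : In3 z₁ z₂ z₃ y)
    (hn : In3 z₁ z₂ z₃ n) (hm : In3 x y n m) : In3 z₁ z₂ z₃ m := by
  obtain ⟨c₁, a₁, b₁, d₁, h₁, e₁⟩ := hx
  obtain ⟨c₂, a₂, b₂, d₂, h₂, e₂⟩ := hy
  obtain ⟨c₃, a₃, b₃, d₃, h₃, e₃⟩ := hn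
  obtain ⟨c, a, b, d, h, e⟩ := hm
  refine ⟨c * c₁ * c₂ * c₃, a * c₂ * c₃ * a₁ + b * c₁ * c₃ * a₂ + d * c₁ * c₂ * a₃,
    a * c₂ * c₃ * b₁ + b * c₁ * c₃ * b₂ + d * c₁ * c₂ * b₃,
    a * c₂ * c₃ * d₁ + b * c₁ * c₃ * d₂ + d * c₁ * c₂ * d₃,
    mul_ne_zero (mul_ne_zero (mul_ne_zero h h₁) h₂) h₃, fun i => ?_⟩
  linear_combination c₁ * c₂ * c₃ * e i + a * c₂ * c₃ * e₁ i + b * c₁ * c₃ * e₂ i +
    d * c₁ * c₂ * e₃ i

theorem UNB_sub3 (x y n m m' : Fin 6 → ℤ) (h : In3 x y n m) (h' : In3 x y n m') :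
    In3 x y n (fun l => m l - m' l) := by
  obtain ⟨c, a, b, d, hc, e⟩ := h
  obtain ⟨c', a', b', d', hc', e'⟩ := h'
  refine ⟨c * c', c' * a - c * a', c' * b - c * b', c' * d - c * d', mul_ne_zero hc hc',
    fun i => ?_⟩
  linear_combination c' * e i - c * e' i

theorem UNB_near (R T : ℕ) (M : ℝ) (x y : Fin 6 → ℤ) (hROW : Stmt_ROW) (hR : 0 < R) (hM : 0 < M)
    (hTM : (T : ℝ) * M = R) (s : ℤ × ℤ) (hs : s ∈ Sol R T x y) (i : Fin 6) :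
    Near M x y (row R x y i s) := by
  have hR0 : (0 : ℝ) < R := by exact_mod_cast hR
  refine ⟨s.1 * x i / R, s.2 * y i / R, fun j => ?_⟩
  have h1 := (hROW R T x y hR s hs i j).1
  have h2 : |((s.1 * (x i * x j) - s.2 * (y i * y j) - R * row R x y i s j : ℤ) : ℝ)| < T := by
    exact_mod_cast h1
  have h3 : (s.1 * x i / R * x j - s.2 * y i / R * y j - row R x y i s j : ℝ) =
      ((s.1 * (x i * x j) - s.2 * (y i * y j) - R * row R x y i s j : ℤ) : ℝ) / R := by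
    push_cast
    field_simp
  rw [h3, abs_div, abs_of_pos hR0, div_lt_div_iff₀ hR0 hM, one_mul, ← hTM]
  exact mul_lt_mul_of_pos_right h2 hM

theorem UNB_red (M B : ℝ) (x y n : Fin 6 → ℤ) (hB : 1 ≤ B) (hM : 16 ≤ M)
    (hx : ∀ i, |(x i : ℝ)| ≤ B) (hy : ∀ i, |(y i : ℝ)| ≤ B) (hn : Near M x y n) :
    ∃ p q : ℤ, (sn (fun j => n j - p * x j + q * y j) : ℝ) ≤ 3 * B := by
  obtain ⟨s, t, h⟩ := hn
  refine ⟨round s, round t, UNB_sn_le _ _ fun j => ?_⟩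
  have h1 : ((n j - round s * x j + round t * y j : ℤ) : ℝ) =
      (s - round s) * x j - (t - round t) * y j - (s * x j - t * y j - n j) := by
    push_cast
    ring
  have h2 : |(s - round s) * (x j : ℝ)| ≤ 1 / 2 * B := by
    rw [abs_mul]
    exact mul_le_mul (abs_sub_round s) (hx j) (abs_nonneg _) (by norm_num)
  have h3 : |(t - round t) * (y j : ℝ)| ≤ 1 / 2 * B := by
    rw [abs_mul]
    exact mul_le_mul (abs_sub_round t) (hy j) (abs_nonneg _) (by norm_num)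
  have h4 : |s * x j - t * y j - n j| ≤ 1 := by
    refine (h j).le.trans ?_
    rw [div_le_one (by linarith)]
    linarith
  rw [h1]
  rw [abs_le] at h2 h3 h4 ⊢
  constructor <;> linarith

theorem UNB_phi (M B c : ℝ) (x y w n : Fin 6 → ℤ) (a g : ℤ) (hc : 0 < c) (hB : 1 ≤ B)
    (hM : 0 < M) (hx : ∀ i, |(x i : ℝ)| ≤ B) (hx0 : c * B ≤ (x 0 : ℝ))
    (hy : ∀ i, y i = a * x i + g * w i) (hn : Near M x y n) (i j k : Fin 6) :
    |(om3 x w n i j k : ℝ)| ≤ 6 * De x w / (c * M) := by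
  obtain ⟨s, t, h⟩ := hn
  have h1 : (om3 x w n i j k : ℝ) = -((om x w i j : ℝ) * (s * x k - t * y k - n k) -
      (om x w i k : ℝ) * (s * x j - t * y j - n j) +
      (om x w j k : ℝ) * (s * x i - t * y i - n i)) := by
    rw [hy i, hy j, hy k]
    unfold om3 om
    push_cast
    ring
  have h2 : ∀ l l' m, |(om x w l l' : ℝ) * (s * x m - t * y m - n m)| ≤
      2 * De x w / c * (1 / M) := by
    intro l l' m
    rw [abs_mul]
    refine mul_le_mul ?_ (h m).le (abs_nonneg _) (by positivity)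
    rw [le_div_iff₀ hc, mul_comm]
    exact UNB_om_le x w B c hB hx hx0 l l'
  have h3 : 6 * (De x w : ℝ) / (c * M) = 3 * (2 * De x w / c * (1 / M)) := by
    field_simp
    ring
  rw [h1, h3, abs_neg]
  have h4 := abs_le.1 (h2 i j k)
  have h5 := abs_le.1 (h2 i k j)
  have h6 := abs_le.1 (h2 j k i)
  rw [abs_le]
  constructor <;> linarith [h4.1, h4.2, h5.1, h5.2, h6.1, h6.2]

theorem UNB_max (x w n : Fin 6 → ℤ) : ∃ J₁ J₂ J₃ : Fin 6, ∀ i j k,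
    |om3 x w n i j k| ≤ |om3 x w n J₁ J₂ J₃| := by
  obtain ⟨J, -, hJ⟩ := Finset.exists_max_image (univ : Finset (Fin 6 × Fin 6 × Fin 6))
    (fun J => |om3 x w n J.1 J.2.1 J.2.2|) ⟨(0, 0, 0), mem_univ _⟩
  exact ⟨J.1, J.2.1, J.2.2, fun i j k => hJ (i, j, k) (mem_univ _)⟩

theorem UNB_dom (x y w n m : Fin 6 → ℤ) (a g : ℤ) (hy : ∀ i, y i = a * x i + g * w i)
    (J₁ J₂ J₃ : Fin 6) (hJ : ∀ i j k, |om3 x w n i j k| ≤ |om3 x w n J₁ J₂ J₃|)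
    (hm : In3 x y n m) (i j k : Fin 6) : |om3 x w m i j k| ≤ |om3 x w m J₁ J₂ J₃| := by
  obtain ⟨c, α, β, d, hc, e⟩ := hm
  have h1 : ∀ i j k, c * om3 x w m i j k = d * om3 x w n i j k := by
    intro i j k
    have h1 := e i
    have h2 := e j
    have h3 := e k
    rw [hy i] at h1
    rw [hy j] at h2
    rw [hy k] at h3
    unfold om3
    linear_combination (x j * w k - x k * w j) * h1 - (x i * w k - x k * w i) * h2 +
      (x i * w j - x j * w i) * h3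
  have h2 : |c| * |om3 x w m i j k| ≤ |c| * |om3 x w m J₁ J₂ J₃| := by
    rw [← abs_mul, ← abs_mul, h1, h1, abs_mul, abs_mul]
    exact mul_le_mul_of_nonneg_left (hJ i j k) (abs_nonneg _)
  exact le_of_mul_le_mul_left h2 (abs_pos.2 hc)

theorem UNB_cls (x y w : Fin 6 → ℤ) (a : ℤ) (g : ℕ) (hg : 0 < g)
    (hy : ∀ i, y i = a * x i + g * w i)
    (φ : (Fin 6 → ℤ) → ℤ) (ℳ : Finset (Fin 6 → ℤ))
    (hsame : ∀ m ∈ ℳ, ∀ m' ∈ ℳ, φ m = φ m' →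
      ∃ α β : ℤ, ∀ i, m i - m' i = α * x i + β * w i) :
    ∃ (P : Finset (ℤ × ℤ)) (f : (Fin 6 → ℤ) → ℤ × ℤ), P.card ≤ (ℳ.image φ).card * g ∧
      (∀ m ∈ ℳ, f m ∈ P) ∧
      ∀ m ∈ ℳ, ∀ m' ∈ ℳ, f m = f m' → ∃ p q : ℤ, ∀ j, m j - m' j = p * x j - q * y j := by
  classical
  have hrep : ∀ v : ℤ, ∃ r : Fin 6 → ℤ, v ∈ ℳ.image φ → r ∈ ℳ ∧ φ r = v := by
    intro v
    by_cases h : v ∈ ℳ.image φ
    · obtain ⟨r, hr, hv⟩ := mem_image.1 h
      exact ⟨r, fun _ => ⟨hr, hv⟩⟩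
    · exact ⟨0, fun h' => absurd h' h⟩
  choose rep hrep using hrep
  have hβ : ∀ m : Fin 6 → ℤ, ∃ β : ℤ, m ∈ ℳ → ∃ α : ℤ, ∀ i,
      m i - rep (φ m) i = α * x i + β * w i := by
    intro m
    by_cases h : m ∈ ℳ
    · obtain ⟨h1, h2⟩ := hrep (φ m) (mem_image_of_mem φ h)
      obtain ⟨α, β, h3⟩ := hsame m h _ h1 h2.symm
      exact ⟨β, fun _ => ⟨α, h3⟩⟩
    · exact ⟨0, fun h' => absurd h' h⟩
  choose β hβ using hβ
  have hg' : (0 : ℤ) < g := by exact_mod_cast hg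
  refine ⟨ℳ.image φ ×ˢ Finset.Ico (0 : ℤ) g, fun m => (φ m, β m % g), ?_, ?_, ?_⟩
  · rw [card_product]
    simp
  · intro m hm
    rw [mem_product]
    refine ⟨mem_image_of_mem φ hm, ?_⟩
    rw [mem_Ico]
    exact ⟨Int.emod_nonneg _ hg'.ne', Int.emod_lt_of_pos _ hg'⟩
  · intro m hm m' hm' h
    have h1 : φ m = φ m' := congrArg Prod.fst h
    have h2 : β m % g = β m' % g := congrArg Prod.snd h
    obtain ⟨e, he⟩ := (show β m ≡ β m' [ZMOD g] from h2).dvd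
    obtain ⟨α, hα⟩ := hβ m hm
    obtain ⟨α', hα'⟩ := hβ m' hm'
    refine ⟨α - α' + e * a, e, fun j => ?_⟩
    have h3 := hα j
    have h4 := hα' j
    rw [← h1] at h4
    linear_combination h3 - h4 - w j * he + e * hy j

theorem UNB_num (S Nc C₃ D B c M Pi T : ℝ) (hc : 0 < c) (hB : 1 ≤ B) (hM : 16 ≤ M)
    (hPi : 1 ≤ Pi) (hT : 0 < T) (hD : 0 < D) (hD2 : D ≤ 2 * B ^ 2)
    (hN : Nc ≤ (18 * C₃ * D / (c * M * Pi)) ^ 2)
    (hS : S ≤ Nc * (1 + 16 * B ^ 2 / (M * D)) * (60 * T ^ 2 / (c ^ 2 * B ^ 2 * D))) :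
    S / (T * M) ^ 2 * (M ^ 4 * Pi ^ 2) ≤ 58320 * C₃ ^ 2 / c ^ 4 := by
  have hM0 : 0 < M := by linarith
  have hB0 : 0 < B := by linarith
  have hP0 : 0 < Pi := by linarith
  have h1 : S ≤ (18 * C₃ * D / (c * M * Pi)) ^ 2 * (1 + 16 * B ^ 2 / (M * D)) *
      (60 * T ^ 2 / (c ^ 2 * B ^ 2 * D)) := by
    refine hS.trans ?_
    refine mul_le_mul_of_nonneg_right (mul_le_mul_of_nonneg_right hN ?_) ?_ <;> positivity
  have h2 : S / (T * M) ^ 2 * (M ^ 4 * Pi ^ 2) ≤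
      (18 * C₃ * D / (c * M * Pi)) ^ 2 * (1 + 16 * B ^ 2 / (M * D)) *
      (60 * T ^ 2 / (c ^ 2 * B ^ 2 * D)) / (T * M) ^ 2 * (M ^ 4 * Pi ^ 2) := by
    refine mul_le_mul_of_nonneg_right (div_le_div_of_nonneg_right h1 ?_) ?_ <;> positivity
  have h3 : (18 * C₃ * D / (c * M * Pi)) ^ 2 * (1 + 16 * B ^ 2 / (M * D)) *
      (60 * T ^ 2 / (c ^ 2 * B ^ 2 * D)) / (T * M) ^ 2 * (M ^ 4 * Pi ^ 2) =
      19440 * C₃ ^ 2 / c ^ 4 * ((D + 16 * B ^ 2 / M) / B ^ 2) := by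
    field_simp
    ring
  have h4 : (D + 16 * B ^ 2 / M) / B ^ 2 ≤ 3 := by
    rw [div_le_iff₀ (by positivity)]
    have : 16 * B ^ 2 / M ≤ B ^ 2 := by
      rw [div_le_iff₀ hM0]
      nlinarith [sq_nonneg B]
    linarith
  rw [h3] at h2
  refine h2.trans ?_
  calc 19440 * C₃ ^ 2 / c ^ 4 * ((D + 16 * B ^ 2 / M) / B ^ 2)
      ≤ 19440 * C₃ ^ 2 / c ^ 4 * 3 := mul_le_mul_of_nonneg_left h4 (by positivity)
    _ = 58320 * C₃ ^ 2 / c ^ 4 := by ring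

theorem p_UNB (hFIB : Stmt_FIB) (hCONT : Stmt_CONT) (hROW : Stmt_ROW) (hRANK : Stmt_RANK)
    (hGEO3 : Stmt_GEO3) : Stmt_UNB := by
  classical
  obtain ⟨C₃, hC₃, hG⟩ := hGEO3
  refine ⟨58320 * C₃ ^ 2, by nlinarith, ?_⟩
  intro R T K₀ B c M x y hc hc1 hB hM hR hTM hT hK hx hy hDe hnb
  have hM0 : 0 < M := by linarith
  have hR0 : (0 : ℝ) < R := by exact_mod_cast hR
  have hB4 : 1 ≤ B ^ 4 := one_le_pow₀ hB
  have hT0 : (0 : ℝ) < T := by linarith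
  have hC0 : 0 < C₃ := by linarith
  have hnear : ∀ s ∈ Sol R T x y, ∀ i, Near M x y (row R x y i s) := fun s hs i =>
    UNB_near R T M x y hROW hR hM0 hTM s hs i
  obtain ⟨s₀, hs₀, i₀, hi₀⟩ : ∃ s ∈ Sol R T x y, ∃ i : Fin 6, ¬ In2 x y (row R x y i s) := by
    by_contra hcon
    push Not at hcon
    exact hnb fun s hs => ⟨hcon s hs 0, hcon s hs 1⟩
  obtain ⟨n, hn⟩ : ∃ n, n = row R x y i₀ s₀ := ⟨_, rfl⟩
  rw [← hn] at hi₀
  have hnn : Near M x y n := hn ▸ hnear s₀ hs₀ i₀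
  obtain ⟨p, q, hpq⟩ := UNB_red M B x y n hB hM hx.bd hy.bd hnn
  obtain ⟨n₁, hn₁⟩ : ∃ n₁ : Fin 6 → ℤ, n₁ = fun j => n j - p * x j + q * y j := ⟨_, rfl⟩
  rw [← hn₁] at hpq
  have hn₁j : ∀ j, n₁ j = n j - p * x j + q * y j := fun j => by rw [hn₁]
  have hnot : ¬ In2 x y n₁ := by
    rintro ⟨e, α, β, he, h⟩
    exact hi₀ ⟨e, α + e * p, β - e * q, he, fun i => by
      linear_combination h i - e * hn₁j i⟩
  obtain ⟨hg, a, w, hyw, -, hDD, hDw, hsat⟩ := hCONT x y hx.cop hDe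
  have hrow3 : ∀ s ∈ Sol R T x y, ∀ i, In3 x y n₁ (row R x y i s) := by
    intro s hs i
    obtain ⟨e, α, β, γ, he, h⟩ := hRANK B M K₀ x y n (row R x y i s) hB hM0 hK hx.bd hy.bd
      hx.gen hDe hi₀ hnn (hnear s hs i)
    exact ⟨e, α + γ * p, β - γ * q, γ, he, fun j => by
      linear_combination h j - γ * hn₁j j⟩
  have hx3 : (sn x : ℝ) ≤ 3 * B := (UNB_sn_le x B hx.bd).trans (by linarith)
  have hy3 : (sn y : ℝ) ≤ 3 * B := (UNB_sn_le y B hy.bd).trans (by linarith)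
  have hom3 : ∃ i j k, om3 x y n₁ i j k ≠ 0 := by
    by_contra hcon
    push Not at hcon
    exact hnot (UNB_in2 x y n₁ hDe hcon)
  obtain ⟨z₁, z₂, z₃, hz₁, hz₂, hz₃, hs₁, hs₂, hs₃, hzx, hzy, hzn, hcount, hlow⟩ :=
    hG B x y n₁ hB hx3 hy3 hpq hom3
  have hn₁3 : In3 x y n₁ n₁ := ⟨1, 0, 0, 1, one_ne_zero, fun i => by ring⟩
  have hn3 : In3 x y n₁ n := ⟨1, p, -q, 1, one_ne_zero, fun i => by
    linear_combination -hn₁j i⟩
  have hw3 : In3 x y n₁ w := ⟨ct x y, -a, 1, 0, by exact_mod_cast hg.ne', fun i => by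
    linear_combination -hyw i⟩
  have hzw : In3 z₁ z₂ z₃ w := UNB_comb z₁ z₂ z₃ x y n₁ w hzx hzy hzn hw3
  have homg : ∀ m i j k, om3 x y m i j k = ct x y * om3 x w m i j k := by
    intro m i j k
    unfold om3
    rw [hyw i, hyw j, hyw k]
    ring
  obtain ⟨J₁, J₂, J₃, hJ⟩ := UNB_max x w n₁
  have hdom : ∀ m, In3 x y n₁ m → ∀ i j k, |om3 x w m i j k| ≤ |om3 x w m J₁ J₂ J₃| :=
    fun m hm => UNB_dom x y w n₁ m a (ct x y) hyw J₁ J₂ J₃ hJ hm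
  obtain ⟨Pi, hPi⟩ : ∃ Pi : ℝ, Pi = sn z₁ * sn z₂ * sn z₃ := ⟨_, rfl⟩
  have hPi1 : 1 ≤ Pi := by
    have h1 : 1 ≤ sn z₁ * sn z₂ * sn z₃ :=
      Nat.mul_pos (Nat.mul_pos (UNB_sn_pos z₁ hz₁) (UNB_sn_pos z₂ hz₂)) (UNB_sn_pos z₃ hz₃)
    rw [hPi]
    exact_mod_cast h1
  have hPi0 : 0 < Pi := by linarith
  have hlow' : ∀ m, In3 x y n₁ m → om3 x w m J₁ J₂ J₃ ≠ 0 →
      Pi ≤ C₃ * |(om3 x w m J₁ J₂ J₃ : ℝ)| := by
    intro m hm h
    obtain ⟨i, j, k, hijk⟩ := hlow x w m hzx hzw (UNB_comb z₁ z₂ z₃ x y n₁ m hzx hzy hzn hm)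
      ⟨_, _, _, h⟩
    rw [hPi]
    refine hijk.trans (mul_le_mul_of_nonneg_left ?_ hC0.le)
    exact_mod_cast hdom m hm i j k
  have hφn : om3 x w n J₁ J₂ J₃ ≠ 0 := by
    intro h
    have h1 : om3 x w n₁ J₁ J₂ J₃ = 0 := by
      rw [← h]
      unfold om3
      rw [hn₁j J₁, hn₁j J₂, hn₁j J₃, hyw J₁, hyw J₂, hyw J₃]
      ring
    refine hnot (UNB_in2 x y n₁ hDe fun i j k => ?_)
    have h2 := hdom n₁ hn₁3 i j k
    rw [h1, abs_zero] at h2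
    rw [homg, abs_nonpos_iff.1 h2, mul_zero]
  obtain ⟨V₀, hV₀⟩ : ∃ V₀ : ℝ, V₀ = 6 * De x w / (c * M) := ⟨_, rfl⟩
  have hb : ∀ m, Near M x y m → |(om3 x w m J₁ J₂ J₃ : ℝ)| ≤ V₀ := fun m hm => by
    rw [hV₀]
    exact UNB_phi M B c x y w m a (ct x y) hc hB hM0 hx.bd hx.lo hyw hm J₁ J₂ J₃
  have hV0 : 0 ≤ V₀ := (abs_nonneg _).trans (hb n hnn)
  have hPV : Pi ≤ C₃ * V₀ := (hlow' n hn3 hφn).trans (mul_le_mul_of_nonneg_left (hb n hnn) hC0.le)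
  obtain ⟨ℳ, hℳ⟩ : ∃ ℳ : Finset (Fin 6 → ℤ), ℳ = (Sol R T x y).image (row R x y 0) ∪
    (Sol R T x y).image (row R x y 1) := ⟨_, rfl⟩
  have hM0' : ∀ s ∈ Sol R T x y, row R x y 0 s ∈ ℳ := fun s hs => by
    rw [hℳ]
    exact mem_union_left _ (mem_image_of_mem _ hs)
  have hM1' : ∀ s ∈ Sol R T x y, row R x y 1 s ∈ ℳ := fun s hs => by
    rw [hℳ]
    exact mem_union_right _ (mem_image_of_mem _ hs)
  have hMr : ∀ m ∈ ℳ, ∃ s ∈ Sol R T x y, ∃ i, m = row R x y i s := by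
    intro m hm
    rw [hℳ, mem_union, mem_image, mem_image] at hm
    rcases hm with ⟨s, hs, h⟩ | ⟨s, hs, h⟩
    · exact ⟨s, hs, 0, h.symm⟩
    · exact ⟨s, hs, 1, h.symm⟩
  have hM3 : ∀ m ∈ ℳ, In3 x y n₁ m := by
    intro m hm
    obtain ⟨s, hs, i, rfl⟩ := hMr m hm
    exact hrow3 s hs i
  have hMn : ∀ m ∈ ℳ, Near M x y m := by
    intro m hm
    obtain ⟨s, hs, i, rfl⟩ := hMr m hm
    exact hnear s hs i
  have hsub : ∀ m m' : Fin 6 → ℤ, om3 x w (fun l => m l - m' l) J₁ J₂ J₃ =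
      om3 x w m J₁ J₂ J₃ - om3 x w m' J₁ J₂ J₃ := by
    intro m m'
    unfold om3
    ring
  obtain ⟨P, f, hP, hfP, hff⟩ := UNB_cls x y w a (ct x y) hg hyw
    (fun m => om3 x w m J₁ J₂ J₃) ℳ (by
      intro m hm m' hm' h
      have h3 := UNB_sub3 x y n₁ m m' (hM3 m hm) (hM3 m' hm')
      refine hsat (fun l => m l - m' l) (UNB_in2 x y _ hDe fun i j k => ?_)
      have h4 := hdom _ h3 i j k
      rw [hsub, h, sub_self, abs_zero] at h4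
      rw [homg, abs_nonpos_iff.1 h4, mul_zero])
  have hVc := UNB_space (ℳ.image fun m => om3 x w m J₁ J₂ J₃) V₀ (Pi / C₃) (by positivity) hV0
    (by
      intro v hv
      obtain ⟨m, hm, rfl⟩ := mem_image.1 hv
      exact hb m (hMn m hm))
    (by
      intro v hv v' hv' hne
      obtain ⟨m, hm, rfl⟩ := mem_image.1 hv
      obtain ⟨m', hm', rfl⟩ := mem_image.1 hv'
      rw [div_le_iff₀ hC0]
      have h3 := UNB_sub3 x y n₁ m m' (hM3 m hm) (hM3 m' hm')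
      have h4 := hlow' _ h3 (by
        rw [hsub]
        exact sub_ne_zero.2 hne)
      rw [hsub] at h4
      push_cast at h4
      linarith)
  obtain ⟨e, he1, he2⟩ := UNB_enc (P ×ˢ P)
  have hcard := hFIB R T B c M x y hc hc1 hB hM0 hR hTM hT hx.bd hy.bd hx.lo hy.lo hx.cop hy.cop
    hDe (P ×ˢ P).card (fun s => e (f (row R x y 0 s), f (row R x y 1 s)))
    (fun s hs => he1 _ (mem_product.2 ⟨hfP _ (hM0' s hs), hfP _ (hM1' s hs)⟩))
    (fun s hs s' hs' h => by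
      have h1 := he2 _ (mem_product.2 ⟨hfP _ (hM0' s hs), hfP _ (hM1' s hs)⟩) _
        (mem_product.2 ⟨hfP _ (hM0' s' hs'), hfP _ (hM1' s' hs')⟩) h
      rw [Prod.mk.injEq] at h1
      exact ⟨hff _ (hM0' s hs) _ (hM0' s' hs') h1.1, hff _ (hM1' s hs) _ (hM1' s' hs') h1.2⟩)
  refine ⟨z₁, z₂, z₃, hz₁, hz₂, hz₃, ?_, ?_, ?_, hzx, hzy, ?_, ?_⟩
  · exact hs₁.trans (mul_le_mul_of_nonneg_right (by nlinarith) (by linarith))
  · exact hs₂.trans (mul_le_mul_of_nonneg_right (by nlinarith) (by linarith))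
  · exact hs₃.trans (mul_le_mul_of_nonneg_right (by nlinarith) (by linarith))
  · intro S hS
    exact (hcount S hS).trans (mul_le_mul_of_nonneg_right (by nlinarith) (by positivity))
  · rw [← hPi]
    unfold PP
    rw [← hTM]
    have hD0 : (0 : ℝ) < De x y := by exact_mod_cast hDe
    have hD2 : (De x y : ℝ) ≤ 2 * B ^ 2 := by
      obtain ⟨q, hq⟩ := UNB_De_ex x y
      rw [hq]
      unfold om
      push_cast
      refine (abs_sub _ _).trans ?_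
      rw [abs_mul, abs_mul]
      have h1 := mul_le_mul (hx.bd 0) (hy.bd q) (abs_nonneg _) (by linarith)
      have h2 := mul_le_mul (hx.bd q) (hy.bd 0) (abs_nonneg _) (by linarith)
      nlinarith
    refine UNB_num _ _ C₃ (De x y) B c M Pi T hc hB hM hPi1 hT0 hD0 hD2 ?_ hcard
    have h1 : (((P ×ˢ P).card : ℕ) : ℝ) = (P.card : ℝ) ^ 2 := by
      rw [card_product]
      push_cast
      ring
    rw [h1]
    refine pow_le_pow_left₀ (by positivity) ?_ 2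
    have h2 : (P.card : ℝ) ≤ ((ℳ.image fun m => om3 x w m J₁ J₂ J₃).card : ℝ) * ct x y := by
      exact_mod_cast hP
    have h3 : ((ℳ.image fun m => om3 x w m J₁ J₂ J₃).card : ℝ) ≤ 3 * V₀ * C₃ / Pi := by
      refine hVc.trans ?_
      have h4 : 2 * V₀ / (Pi / C₃) = 2 * V₀ * C₃ / Pi := by
        field_simp
      have h5 : 1 ≤ V₀ * C₃ / Pi := by
        rw [le_div_iff₀ hPi0]
        linarith
      have h6 : 3 * V₀ * C₃ / Pi = 2 * V₀ * C₃ / Pi + V₀ * C₃ / Pi := by ring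
      rw [h4, h6]
      linarith
    have hg0 : (0 : ℝ) < ct x y := by exact_mod_cast hg
    have hDr : (De x y : ℝ) = ct x y * De x w := by exact_mod_cast hDD
    refine h2.trans ((mul_le_mul_of_nonneg_right h3 hg0.le).trans (le_of_eq ?_))
    rw [hV₀, hDr]
    field_simp
    ring

end Pool.HPQ
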