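import Pool.Agent.Work.MP_9fb703_hp.Interface

/-! # Block VAR: the second moment (note 2846, 1.2) -/

set_option autoImplicit false

namespace Pool.HPQ

open Finset

/-- the frequency of the coefficient `q` -/
noncomputable def VAR_c (R : ℕ) (x y : Fin 6 → ℤ) (k k' : ZMod R) (q : Idx) : ZMod R :=
  k * ((x q.1.1 : ZMod R) * (x q.1.2 : ZMod R)) - k' * ((y q.1.1 : ZMod R) * (y q.1.2 : ZMod R))

/-- the product of the transforms -/
noncomputable def VAR_L (R T : ℕ) (x y : Fin 6 → ℤ) (k k' : ZMod R) : ℝ :=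
  ∏ q, Lam R T (VAR_c R x y k k' q)

theorem VAR_psi_sum {ι : Type*} (R : ℕ) [NeZero R] (s : Finset ι) (f : ι → ZMod R) :
    (ZMod.stdAddChar (∑ i ∈ s, f i) : ℂ) = ∏ i ∈ s, (ZMod.stdAddChar (f i) : ℂ) := by
  classical
  induction s using Finset.induction_on with
  | empty => simp
  | insert i s hi ih =>
    rw [Finset.sum_insert hi, Finset.prod_insert hi, AddChar.map_add_eq_mul, ih]

theorem VAR_sumA (h1 : Stmt_FW1) (R T : ℕ) [NeZero R] (hT : 0 < T) (hTR : T ≤ R)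
    (x y : Fin 6 → ℤ) (k k' : ZMod R) :
    ∑ a : Idx → ZMod R, ((∏ q, Fw R T (a q) : ℝ) : ℂ) *
      (ZMod.stdAddChar (k * Q a (rd R x) - k' * Q a (rd R y)) : ℂ) =
      (VAR_L R T x y k k' : ℂ) := by
  have e1 : ∀ a : Idx → ZMod R, ((∏ q, Fw R T (a q) : ℝ) : ℂ) *
      (ZMod.stdAddChar (k * Q a (rd R x) - k' * Q a (rd R y)) : ℂ) =
      ∏ q, ((Fw R T (a q) : ℂ) * ZMod.stdAddChar (VAR_c R x y k k' q * a q)) := by
    intro a
    have e2 : k * Q a (rd R x) - k' * Q a (rd R y) = ∑ q, VAR_c R x y k k' q * a q := by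
      unfold Q VAR_c rd
      rw [Finset.mul_sum, Finset.mul_sum, ← Finset.sum_sub_distrib]
      apply Finset.sum_congr rfl
      intro q _
      ring
    rw [e2, VAR_psi_sum, Finset.prod_mul_distrib]
    push_cast
    rfl
  simp_rw [e1]
  have e3 := Finset.prod_univ_sum (t := fun _ : Idx => (univ : Finset (ZMod R)))
    (f := fun q n => ((Fw R T n : ℂ) * ZMod.stdAddChar (VAR_c R x y k k' q * n)))
  rw [Fintype.piFinset_univ] at e3
  rw [← e3]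
  unfold VAR_L
  push_cast
  apply Finset.prod_congr rfl
  intro q _
  exact (h1 R T _ hT hTR).1

theorem VAR_comm4 {α β γ : Type*} (s : Finset α) (t : Finset β) (P : Finset γ)
    (F : α → β → γ → γ → ℂ) :
    ∑ a ∈ s, ∑ b ∈ t, ∑ p ∈ P, ∑ p' ∈ P, F a b p p' =
      ∑ p ∈ P, ∑ p' ∈ P, ∑ a ∈ s, ∑ b ∈ t, F a b p p' := by
  calc ∑ a ∈ s, ∑ b ∈ t, ∑ p ∈ P, ∑ p' ∈ P, F a b p p'
      = ∑ a ∈ s, ∑ p ∈ P, ∑ b ∈ t, ∑ p' ∈ P, F a b p p' := by
        apply Finset.sum_congr rfl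
        intro a _
        rw [Finset.sum_comm]
    _ = ∑ p ∈ P, ∑ a ∈ s, ∑ b ∈ t, ∑ p' ∈ P, F a b p p' := by rw [Finset.sum_comm]
    _ = ∑ p ∈ P, ∑ a ∈ s, ∑ p' ∈ P, ∑ b ∈ t, F a b p p' := by
        apply Finset.sum_congr rfl
        intro p _
        apply Finset.sum_congr rfl
        intro a _
        rw [Finset.sum_comm]
    _ = ∑ p ∈ P, ∑ p' ∈ P, ∑ a ∈ s, ∑ b ∈ t, F a b p p' := by
        apply Finset.sum_congr rfl
        intro p _
        rw [Finset.sum_comm]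

/-- the phase -/
noncomputable def VAR_E (R : ℕ) (a b : Idx → ZMod R) (p : (Fin 6 → ℤ) × (ZMod R × ZMod R)) :
    ZMod R := p.2.1 * Q a (rd R p.1) + p.2.2 * Q b (rd R p.1)

/-- the weight -/
noncomputable def VAR_w (R H W : ℕ) (κ : ZMod R × ZMod R) : ℝ :=
  1 - Kw R H W κ.1 * Kw R H W κ.2

open Classical in
theorem VAR_Z (h2 : Stmt_FW2) (R H W : ℕ) [NeZero R] (hH : 0 < H) (hW : 0 < W) (hWR : W ∣ R)
    (hHW : 2 * H * W ≤ R) (X : Finset (Fin 6 → ℤ)) (a b : Idx → ZMod R) :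
    ((NN R X a b - NL R H W X a b : ℝ) : ℂ) = (1 / (R : ℂ)) ^ 2 *
      ∑ p ∈ X ×ˢ (univ : Finset (ZMod R × ZMod R)),
        (VAR_w R H W p.2 : ℂ) * ZMod.stdAddChar (VAR_E R a b p) := by
  have hR : (R : ℂ) ≠ 0 := by exact_mod_cast NeZero.ne R
  have hone : ∀ m : ZMod R, (1 / (R : ℂ)) * ∑ k : ZMod R, (ZMod.stdAddChar (k * m) : ℂ) =
      if m = 0 then 1 else 0 := by
    intro m
    rw [AddChar.sum_mulShift m (ZMod.isPrimitive_stdAddChar R), ZMod.card]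
    split_ifs
    · field_simp
    · simp
  unfold NN NL
  rw [← Finset.sum_sub_distrib]
  push_cast
  rw [Finset.sum_product, Finset.mul_sum]
  apply Finset.sum_congr rfl
  intro x _
  rw [Fintype.sum_prod_type]
  set A := Q a (rd R x) with hA
  set B := Q b (rd R x) with hB
  have e1 : ((if A = 0 ∧ B = 0 then (1 : ℝ) else 0 : ℝ) : ℂ) =
      ((1 / (R : ℂ)) * ∑ k : ZMod R, (ZMod.stdAddChar (k * A) : ℂ)) *
        ((1 / (R : ℂ)) * ∑ l : ZMod R, (ZMod.stdAddChar (l * B) : ℂ)) := by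
    rw [hone, hone]
    by_cases h3 : A = 0 <;> by_cases h4 : B = 0 <;> simp [h3, h4]
  have e2 := (h2 R H W hH hW hWR hHW).2
  have e3 : (1 / (R : ℂ)) ^ 2 * ∑ k : ZMod R, ∑ l : ZMod R,
      ((VAR_w R H W (k, l) : ℝ) : ℂ) * (ZMod.stdAddChar (VAR_E R a b (x, k, l)) : ℂ) =
      ((1 / (R : ℂ)) * ∑ k : ZMod R, (ZMod.stdAddChar (k * A) : ℂ)) *
        ((1 / (R : ℂ)) * ∑ l : ZMod R, (ZMod.stdAddChar (l * B) : ℂ)) -
      ((1 / (R : ℂ)) * ∑ k : ZMod R, (Kw R H W k : ℂ) * (ZMod.stdAddChar (k * A) : ℂ)) *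
        ((1 / (R : ℂ)) * ∑ l : ZMod R, (Kw R H W l : ℂ) * (ZMod.stdAddChar (l * B) : ℂ)) := by
    have e4 : ((1 / (R : ℂ)) * ∑ k : ZMod R, (ZMod.stdAddChar (k * A) : ℂ)) *
        ((1 / (R : ℂ)) * ∑ l : ZMod R, (ZMod.stdAddChar (l * B) : ℂ)) =
        (1 / (R : ℂ)) ^ 2 * ∑ k : ZMod R, ∑ l : ZMod R,
          (ZMod.stdAddChar (k * A) : ℂ) * (ZMod.stdAddChar (l * B) : ℂ) := by
      rw [← Finset.sum_mul_sum]
      ring
    have e5 : ((1 / (R : ℂ)) * ∑ k : ZMod R, (Kw R H W k : ℂ) * (ZMod.stdAddChar (k * A) : ℂ)) *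
        ((1 / (R : ℂ)) * ∑ l : ZMod R, (Kw R H W l : ℂ) * (ZMod.stdAddChar (l * B) : ℂ)) =
        (1 / (R : ℂ)) ^ 2 * ∑ k : ZMod R, ∑ l : ZMod R,
          ((Kw R H W k : ℂ) * (ZMod.stdAddChar (k * A) : ℂ)) *
            ((Kw R H W l : ℂ) * (ZMod.stdAddChar (l * B) : ℂ)) := by
      rw [← Finset.sum_mul_sum]
      ring
    rw [e4, e5, ← mul_sub, ← Finset.sum_sub_distrib]
    congr 1
    apply Finset.sum_congr rfl
    intro k _
    rw [← Finset.sum_sub_distrib]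
    apply Finset.sum_congr rfl
    intro l _
    unfold VAR_E VAR_w
    rw [AddChar.map_add_eq_mul]
    push_cast
    ring
  rw [e3, ← e1, ← e2, ← e2]

theorem VAR_sq (h2 : Stmt_FW2) (R H W : ℕ) [NeZero R] (hH : 0 < H) (hW : 0 < W) (hWR : W ∣ R)
    (hHW : 2 * H * W ≤ R) (X : Finset (Fin 6 → ℤ)) (a b : Idx → ZMod R) :
    (((NN R X a b - NL R H W X a b) ^ 2 : ℝ) : ℂ) = (1 / (R : ℂ)) ^ 4 *
      ∑ p ∈ X ×ˢ (univ : Finset (ZMod R × ZMod R)),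
        ∑ p' ∈ X ×ˢ (univ : Finset (ZMod R × ZMod R)),
        ((VAR_w R H W p.2 : ℂ) * (VAR_w R H W p'.2 : ℂ)) *
          ZMod.stdAddChar (VAR_E R a b p - VAR_E R a b p') := by
  have e1 := VAR_Z h2 R H W hH hW hWR hHW X a b
  set z : ℝ := NN R X a b - NL R H W X a b with hz
  have e2 : ((z ^ 2 : ℝ) : ℂ) = (z : ℂ) * (starRingEnd ℂ) (z : ℂ) := by
    rw [Complex.conj_ofReal]
    push_cast
    ring
  rw [e2, e1, map_mul, map_sum]
  have e3 : (starRingEnd ℂ) ((1 / (R : ℂ)) ^ 2) = (1 / (R : ℂ)) ^ 2 := by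
    simp
  rw [e3]
  have e4 : ∀ p ∈ X ×ˢ (univ : Finset (ZMod R × ZMod R)),
      (starRingEnd ℂ) ((VAR_w R H W p.2 : ℂ) * ZMod.stdAddChar (VAR_E R a b p)) =
      (VAR_w R H W p.2 : ℂ) * ZMod.stdAddChar (-VAR_E R a b p) := by
    intro p _
    rw [map_mul, Complex.conj_ofReal, AddChar.map_neg_eq_conj]
  rw [Finset.sum_congr rfl e4]
  have e5 : ∀ u v : ℂ, (1 / (R : ℂ)) ^ 2 * u * ((1 / (R : ℂ)) ^ 2 * v) =
      (1 / (R : ℂ)) ^ 4 * (u * v) := by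
    intro u v
    ring
  rw [e5, Finset.sum_mul_sum]
  congr 1
  apply Finset.sum_congr rfl
  intro p _
  apply Finset.sum_congr rfl
  intro p' _
  rw [sub_eq_add_neg, AddChar.map_add_eq_mul]
  ring

theorem VAR_main_eq (h1 : Stmt_FW1) (h2 : Stmt_FW2) (R T H W : ℕ) [NeZero R] (hT : 0 < T)
    (hTR : T ≤ R) (hH : 0 < H) (hW : 0 < W) (hWR : W ∣ R) (hHW : 2 * H * W ≤ R)
    (X : Finset (Fin 6 → ℤ)) :
    ∑ a : Idx → ZMod R, ∑ b : Idx → ZMod R, (∏ q, Fw R T (a q)) * (∏ q, Fw R T (b q)) *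
        (NN R X a b - NL R H W X a b) ^ 2 =
      (1 / (R : ℝ)) ^ 4 * ∑ p ∈ X ×ˢ (univ : Finset (ZMod R × ZMod R)),
        ∑ p' ∈ X ×ˢ (univ : Finset (ZMod R × ZMod R)),
        (VAR_w R H W p.2 * VAR_w R H W p'.2) *
          (VAR_L R T p.1 p'.1 p.2.1 p'.2.1 * VAR_L R T p.1 p'.1 p.2.2 p'.2.2) := by
  apply Complex.ofReal_injective
  set P : Finset ((Fin 6 → ℤ) × (ZMod R × ZMod R)) :=
    X ×ˢ (univ : Finset (ZMod R × ZMod R)) with hP
  set F : (Idx → ZMod R) → (Idx → ZMod R) → (Fin 6 → ℤ) × (ZMod R × ZMod R) →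
      (Fin 6 → ℤ) × (ZMod R × ZMod R) → ℂ := fun a b p p' =>
    ((1 / (R : ℂ)) ^ 4 * ((VAR_w R H W p.2 : ℂ) * (VAR_w R H W p'.2 : ℂ))) *
      ((((∏ q, Fw R T (a q) : ℝ) : ℂ) *
        (ZMod.stdAddChar (p.2.1 * Q a (rd R p.1) - p'.2.1 * Q a (rd R p'.1)) : ℂ)) *
      (((∏ q, Fw R T (b q) : ℝ) : ℂ) *
        (ZMod.stdAddChar (p.2.2 * Q b (rd R p.1) - p'.2.2 * Q b (rd R p'.1)) : ℂ))) with hF
  have key : ∀ a b : Idx → ZMod R, (((∏ q, Fw R T (a q)) * (∏ q, Fw R T (b q)) *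
        (NN R X a b - NL R H W X a b) ^ 2 : ℝ) : ℂ) = ∑ p ∈ P, ∑ p' ∈ P, F a b p p' := by
    intro a b
    rw [Complex.ofReal_mul, VAR_sq h2 R H W hH hW hWR hHW X a b, Complex.ofReal_mul,
      Finset.mul_sum, Finset.mul_sum]
    apply Finset.sum_congr rfl
    intro p _
    rw [Finset.mul_sum, Finset.mul_sum]
    apply Finset.sum_congr rfl
    intro p' _
    rw [hF]
    simp only
    have e1 : VAR_E R a b p - VAR_E R a b p' =
        (p.2.1 * Q a (rd R p.1) - p'.2.1 * Q a (rd R p'.1)) +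
          (p.2.2 * Q b (rd R p.1) - p'.2.2 * Q b (rd R p'.1)) := by
      unfold VAR_E
      ring
    rw [e1, AddChar.map_add_eq_mul]
    ring
  rw [Complex.ofReal_sum]
  have e1 : ∀ a ∈ (univ : Finset (Idx → ZMod R)),
      ((∑ b : Idx → ZMod R, (∏ q, Fw R T (a q)) * (∏ q, Fw R T (b q)) *
        (NN R X a b - NL R H W X a b) ^ 2 : ℝ) : ℂ) =
      ∑ b ∈ (univ : Finset (Idx → ZMod R)), ∑ p ∈ P, ∑ p' ∈ P, F a b p p' := by
    intro a _
    rw [Complex.ofReal_sum]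
    apply Finset.sum_congr rfl
    intro b _
    exact key a b
  rw [Finset.sum_congr rfl e1, VAR_comm4, Complex.ofReal_mul, Complex.ofReal_sum, Finset.mul_sum]
  apply Finset.sum_congr rfl
  intro p _
  rw [Complex.ofReal_sum, Finset.mul_sum]
  apply Finset.sum_congr rfl
  intro p' _
  rw [hF]
  simp only
  have e2 : ∀ a ∈ (univ : Finset (Idx → ZMod R)), ∑ b ∈ (univ : Finset (Idx → ZMod R)),
      ((1 / (R : ℂ)) ^ 4 * ((VAR_w R H W p.2 : ℂ) * (VAR_w R H W p'.2 : ℂ))) *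
      ((((∏ q, Fw R T (a q) : ℝ) : ℂ) *
        (ZMod.stdAddChar (p.2.1 * Q a (rd R p.1) - p'.2.1 * Q a (rd R p'.1)) : ℂ)) *
      (((∏ q, Fw R T (b q) : ℝ) : ℂ) *
        (ZMod.stdAddChar (p.2.2 * Q b (rd R p.1) - p'.2.2 * Q b (rd R p'.1)) : ℂ))) =
      ((1 / (R : ℂ)) ^ 4 * ((VAR_w R H W p.2 : ℂ) * (VAR_w R H W p'.2 : ℂ))) *
      ((((∏ q, Fw R T (a q) : ℝ) : ℂ) *
        (ZMod.stdAddChar (p.2.1 * Q a (rd R p.1) - p'.2.1 * Q a (rd R p'.1)) : ℂ)) *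
        (VAR_L R T p.1 p'.1 p.2.2 p'.2.2 : ℂ)) := by
    intro a _
    rw [← Finset.mul_sum, ← Finset.mul_sum, VAR_sumA h1 R T hT hTR]
  rw [Finset.sum_congr rfl e2, ← Finset.mul_sum, ← Finset.sum_mul, VAR_sumA h1 R T hT hTR]
  push_cast
  ring

theorem VAR_L_nonneg (h1 : Stmt_FW1) (R T : ℕ) [NeZero R] (hT : 0 < T) (hTR : T ≤ R)
    (x y : Fin 6 → ℤ) (k k' : ZMod R) : 0 ≤ VAR_L R T x y k k' :=
  Finset.prod_nonneg fun q _ => (h1 R T _ hT hTR).2.1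

theorem VAR_L_le (h1 : Stmt_FW1) (R T : ℕ) [NeZero R] (hT : 0 < T) (hTR : T ≤ R)
    (x y : Fin 6 → ℤ) (k k' : ZMod R) : VAR_L R T x y k k' ≤ 1 :=
  Finset.prod_le_one (fun q _ => (h1 R T _ hT hTR).2.1) fun q _ => (h1 R T _ hT hTR).2.2.1

/-- representatives -/
def VAR_rep (R : ℕ) (κ : ZMod R × ZMod R) : ℤ × ℤ := ((κ.1.val : ℤ), (κ.2.val : ℤ))

theorem VAR_rep_inj (R : ℕ) [NeZero R] : Function.Injective (VAR_rep R) := by
  intro κ μ h
  unfold VAR_rep at h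
  rw [Prod.mk.injEq] at h
  have h3 : κ.1.val = μ.1.val := by exact_mod_cast h.1
  have h4 : κ.2.val = μ.2.val := by exact_mod_cast h.2
  exact Prod.ext (ZMod.val_injective R h3) (ZMod.val_injective R h4)

open Classical in
theorem VAR_mem (h1 : Stmt_FW1) (R T : ℕ) [NeZero R] (hT : 0 < T) (hTR : T ≤ R)
    (x y : Fin 6 → ℤ) (κ : ZMod R × ZMod R) (h : VAR_L R T x y κ.1 κ.2 ≠ 0) :
    VAR_rep R κ ∈ Sol R T x y := by
  have hR : 0 < R := Nat.pos_of_ne_zero (NeZero.ne R)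
  unfold Sol
  rw [Finset.mem_filter, Finset.mem_product, Finset.mem_Ico, Finset.mem_Ico]
  refine ⟨⟨⟨?_, ?_⟩, ?_, ?_⟩, ?_⟩
  · unfold VAR_rep
    exact Int.natCast_nonneg _
  · have h3 := ZMod.val_lt κ.1
    change ((κ.1.val : ℤ)) < (R : ℤ)
    exact_mod_cast h3
  · unfold VAR_rep
    exact Int.natCast_nonneg _
  · have h3 := ZMod.val_lt κ.2
    change ((κ.2.val : ℤ)) < (R : ℤ)
    exact_mod_cast h3
  · have h3 : ∀ q : Idx, ∃ n : ℤ, |(VAR_rep R κ).1 * (x q.1.1 * x q.1.2) -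
        (VAR_rep R κ).2 * (y q.1.1 * y q.1.2) - R * n| < T := by
      intro q
      unfold VAR_L at h
      have h4 : Lam R T (VAR_c R x y κ.1 κ.2 q) ≠ 0 := Finset.prod_ne_zero_iff.1 h q (mem_univ q)
      obtain ⟨z, hz, hzT⟩ := (h1 R T _ hT hTR).2.2.2 h4
      have h5 : (((VAR_rep R κ).1 * (x q.1.1 * x q.1.2) -
        (VAR_rep R κ).2 * (y q.1.1 * y q.1.2) - z : ℤ) : ZMod R) = 0 := by
        unfold VAR_rep
        push_cast
        rw [ZMod.natCast_zmod_val, ZMod.natCast_zmod_val, hz]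
        unfold VAR_c
        ring
      rw [ZMod.intCast_zmod_eq_zero_iff_dvd] at h5
      obtain ⟨n, hn⟩ := h5
      refine ⟨n, ?_⟩
      have h6 : (VAR_rep R κ).1 * (x q.1.1 * x q.1.2) -
        (VAR_rep R κ).2 * (y q.1.1 * y q.1.2) - R * n = z := by linarith
      rw [h6]
      exact hzT
    intro i j
    rcases le_total i j with hij | hij
    · exact h3 ⟨(i, j), hij⟩
    · obtain ⟨n, hn⟩ := h3 ⟨(j, i), hij⟩
      refine ⟨n, ?_⟩
      simp only at hn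
      rw [mul_comm (x i), mul_comm (y i)]
      exact hn

theorem VAR_sol (h1 : Stmt_FW1) (R T : ℕ) [NeZero R] (hT : 0 < T) (hTR : T ≤ R)
    (x y : Fin 6 → ℤ) (h : ZMod R → ℝ) (hh : ∀ k, 0 ≤ h k) :
    ∑ k : ZMod R, ∑ k' : ZMod R, h k' * VAR_L R T x y k k' ≤
      ∑ s ∈ Sol R T x y, h ((s.2 : ℤ) : ZMod R) := by
  classical
  have e1 : ∑ k : ZMod R, ∑ k' : ZMod R, h k' * VAR_L R T x y k k' =
      ∑ κ : ZMod R × ZMod R, h κ.2 * VAR_L R T x y κ.1 κ.2 :=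
    (Fintype.sum_prod_type (fun κ : ZMod R × ZMod R => h κ.2 * VAR_L R T x y κ.1 κ.2)).symm
  rw [e1]
  have e2 : ∑ κ : ZMod R × ZMod R, h κ.2 * VAR_L R T x y κ.1 κ.2 =
      ∑ κ ∈ univ.filter (fun κ => VAR_rep R κ ∈ Sol R T x y), h κ.2 * VAR_L R T x y κ.1 κ.2 := by
    symm
    apply Finset.sum_subset (Finset.filter_subset _ _)
    intro κ _ hκ
    by_contra hne
    apply hκ
    rw [Finset.mem_filter]
    refine ⟨mem_univ _, VAR_mem h1 R T hT hTR x y κ ?_⟩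
    intro h0
    apply hne
    rw [h0, mul_zero]
  rw [e2]
  have e3 : ∑ κ ∈ univ.filter (fun κ => VAR_rep R κ ∈ Sol R T x y),
      h κ.2 * VAR_L R T x y κ.1 κ.2 ≤
      ∑ κ ∈ univ.filter (fun κ => VAR_rep R κ ∈ Sol R T x y),
        h (((VAR_rep R κ).2 : ℤ) : ZMod R) := by
    apply Finset.sum_le_sum
    intro κ _
    have h3 : (((VAR_rep R κ).2 : ℤ) : ZMod R) = κ.2 := by
      unfold VAR_rep
      push_cast
      rw [ZMod.natCast_zmod_val]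
    rw [h3]
    exact mul_le_of_le_one_right (hh _) (VAR_L_le h1 R T hT hTR x y _ _)
  refine e3.trans ?_
  rw [← Finset.sum_image (f := fun s : ℤ × ℤ => h ((s.2 : ℤ) : ZMod R)) (g := VAR_rep R)
    (fun κ _ μ _ hκμ => VAR_rep_inj R hκμ)]
  apply Finset.sum_le_sum_of_subset_of_nonneg
  · intro s hs
    rw [Finset.mem_image] at hs
    obtain ⟨κ, hκ, rfl⟩ := hs
    exact (Finset.mem_filter.1 hκ).2
  · intro s _ _
    exact hh _

theorem VAR_fac {α β : Type*} [Fintype α] [Fintype β] (f : α → α → ℝ) (g : β → β → ℝ) :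
    ∑ κ : α × β, ∑ μ : α × β, f κ.1 μ.1 * g κ.2 μ.2 =
      (∑ k, ∑ k', f k k') * (∑ l, ∑ l', g l l') := by
  rw [Finset.sum_mul_sum, Fintype.sum_prod_type]
  apply Finset.sum_congr rfl
  intro k _
  apply Finset.sum_congr rfl
  intro l _
  rw [Finset.sum_mul_sum, Fintype.sum_prod_type]

theorem VAR_xy (h1 : Stmt_FW1) (h2 : Stmt_FW2) (R T H W : ℕ) [NeZero R] (hT : 0 < T)
    (hTR : T ≤ R) (hH : 0 < H) (hW : 0 < W) (hWR : W ∣ R) (hHW : 2 * H * W ≤ R)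
    (x y : Fin 6 → ℤ) :
    ∑ κ : ZMod R × ZMod R, ∑ μ : ZMod R × ZMod R, (VAR_w R H W κ * VAR_w R H W μ) *
      (VAR_L R T x y κ.1 μ.1 * VAR_L R T x y κ.2 μ.2) ≤
      2 * (((Sol R T x y).card : ℝ) *
        ∑ s ∈ Sol R T x y, (1 - Kw R H W ((s.2 : ℤ) : ZMod R))) := by
  have hK := (h2 R H W hH hW hWR hHW).1
  have hL0 := VAR_L_nonneg h1 R T hT hTR x y
  have hs1 := VAR_sol h1 R T hT hTR x y (fun k => 1 - Kw R H W k)
    (fun k => by have := (hK k).2; linarith)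
  have hs2 := VAR_sol h1 R T hT hTR x y (fun _ => 1) (fun _ => by norm_num)
  simp only [one_mul, Finset.sum_const, nsmul_eq_mul, mul_one] at hs2
  have hn1 : 0 ≤ ∑ k : ZMod R, ∑ k' : ZMod R, (1 - Kw R H W k') * VAR_L R T x y k k' := by
    apply Finset.sum_nonneg
    intro k _
    apply Finset.sum_nonneg
    intro k' _
    exact mul_nonneg (by have := (hK k').2; linarith) (hL0 k k')
  have hn2 : 0 ≤ ∑ k : ZMod R, ∑ k' : ZMod R, VAR_L R T x y k k' := by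
    apply Finset.sum_nonneg
    intro k _
    apply Finset.sum_nonneg
    intro k' _
    exact hL0 k k'
  have e1 : ∑ κ : ZMod R × ZMod R, ∑ μ : ZMod R × ZMod R, (VAR_w R H W κ * VAR_w R H W μ) *
      (VAR_L R T x y κ.1 μ.1 * VAR_L R T x y κ.2 μ.2) ≤
      ∑ κ : ZMod R × ZMod R, ∑ μ : ZMod R × ZMod R,
        (((1 - Kw R H W μ.1) * VAR_L R T x y κ.1 μ.1) * VAR_L R T x y κ.2 μ.2 +
          VAR_L R T x y κ.1 μ.1 * ((1 - Kw R H W μ.2) * VAR_L R T x y κ.2 μ.2)) := by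
    apply Finset.sum_le_sum
    intro κ _
    apply Finset.sum_le_sum
    intro μ _
    have w1 : 0 ≤ VAR_w R H W κ ∧ VAR_w R H W κ ≤ 1 := by
      unfold VAR_w
      have a1 := hK κ.1
      have a2 := hK κ.2
      constructor
      · nlinarith [mul_le_one₀ a1.2 a2.1 a2.2]
      · nlinarith [mul_nonneg a1.1 a2.1]
    have w2 : 0 ≤ VAR_w R H W μ ∧ VAR_w R H W μ ≤ (1 - Kw R H W μ.1) + (1 - Kw R H W μ.2) := by
      unfold VAR_w
      have a1 := hK μ.1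
      have a2 := hK μ.2
      constructor
      · nlinarith [mul_le_one₀ a1.2 a2.1 a2.2]
      · nlinarith [mul_nonneg (sub_nonneg.2 a1.2) (sub_nonneg.2 a2.2)]
    have w3 : VAR_w R H W κ * VAR_w R H W μ ≤ (1 - Kw R H W μ.1) + (1 - Kw R H W μ.2) := by
      calc VAR_w R H W κ * VAR_w R H W μ ≤ 1 * VAR_w R H W μ :=
            mul_le_mul_of_nonneg_right w1.2 w2.1
        _ ≤ _ := by rw [one_mul]; exact w2.2
    have w4 := mul_le_mul_of_nonneg_right w3 (mul_nonneg (hL0 κ.1 μ.1) (hL0 κ.2 μ.2))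
    refine w4.trans (le_of_eq ?_)
    ring
  refine e1.trans ?_
  have e2 : ∑ κ : ZMod R × ZMod R, ∑ μ : ZMod R × ZMod R,
        (((1 - Kw R H W μ.1) * VAR_L R T x y κ.1 μ.1) * VAR_L R T x y κ.2 μ.2 +
          VAR_L R T x y κ.1 μ.1 * ((1 - Kw R H W μ.2) * VAR_L R T x y κ.2 μ.2)) =
      (∑ k : ZMod R, ∑ k' : ZMod R, (1 - Kw R H W k') * VAR_L R T x y k k') *
        (∑ k : ZMod R, ∑ k' : ZMod R, VAR_L R T x y k k') +
      (∑ k : ZMod R, ∑ k' : ZMod R, VAR_L R T x y k k') *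
        (∑ k : ZMod R, ∑ k' : ZMod R, (1 - Kw R H W k') * VAR_L R T x y k k') := by
    rw [← VAR_fac (fun k k' => (1 - Kw R H W k') * VAR_L R T x y k k')
      (fun k k' => VAR_L R T x y k k'),
      ← VAR_fac (fun k k' => VAR_L R T x y k k')
      (fun k k' => (1 - Kw R H W k') * VAR_L R T x y k k'), ← Finset.sum_add_distrib]
    apply Finset.sum_congr rfl
    intro κ _
    rw [← Finset.sum_add_distrib]
  rw [e2]
  have e3 : (∑ k : ZMod R, ∑ k' : ZMod R, VAR_L R T x y k k') *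
      (∑ k : ZMod R, ∑ k' : ZMod R, (1 - Kw R H W k') * VAR_L R T x y k k') ≤
      ((Sol R T x y).card : ℝ) * ∑ s ∈ Sol R T x y, (1 - Kw R H W ((s.2 : ℤ) : ZMod R)) :=
    mul_le_mul hs2 hs1 hn1 (Nat.cast_nonneg _)
  linarith

theorem p_VAR (h1 : Stmt_FW1) (h2 : Stmt_FW2) : Stmt_VAR := by
  intro R T H W _ hT hTR hH hW hWR hHW X
  rw [VAR_main_eq h1 h2 R T H W hT hTR hH hW hWR hHW X, Finset.sum_product]
  have hR : (0 : ℝ) < R := by exact_mod_cast Nat.pos_of_ne_zero (NeZero.ne R)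
  have e1 : ∑ x ∈ X, ∑ κ : ZMod R × ZMod R,
      ∑ p' ∈ X ×ˢ (univ : Finset (ZMod R × ZMod R)),
        (VAR_w R H W (x, κ).2 * VAR_w R H W p'.2) *
          (VAR_L R T (x, κ).1 p'.1 (x, κ).2.1 p'.2.1 * VAR_L R T (x, κ).1 p'.1 (x, κ).2.2 p'.2.2) =
      ∑ x ∈ X, ∑ y ∈ X, ∑ κ : ZMod R × ZMod R, ∑ μ : ZMod R × ZMod R,
        (VAR_w R H W κ * VAR_w R H W μ) *
          (VAR_L R T x y κ.1 μ.1 * VAR_L R T x y κ.2 μ.2) := by
    apply Finset.sum_congr rfl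
    intro x _
    rw [Finset.sum_comm (s := X) (t := (univ : Finset (ZMod R × ZMod R)))]
    apply Finset.sum_congr rfl
    intro κ _
    rw [Finset.sum_product]
  rw [e1, Finset.mul_sum, Finset.mul_sum]
  apply Finset.sum_le_sum
  intro x _
  rw [Finset.mul_sum, Finset.mul_sum]
  apply Finset.sum_le_sum
  intro y _
  have e2 := VAR_xy h1 h2 R T H W hT hTR hH hW hWR hHW x y
  have e3 := mul_le_mul_of_nonneg_left e2 (by positivity : (0 : ℝ) ≤ (1 / (R : ℝ)) ^ 4)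
  refine e3.trans (le_of_eq ?_)
  unfold PP PS
  field_simp

end Pool.HPQ
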