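import Pool.Agent.Work.MP_9fb703_hp.InterfaceW
import Pool.Agent.Work.MP_9fb703_hp.B_EXP
import Pool.Agent.Work.MP_9fb703_hp.B_FLB1
import Pool.Agent.Work.MP_9fb703_hp.B_FLB2
import Pool.Agent.Work.MP_9fb703_hp.B_FW1
import Pool.Agent.Work.MP_9fb703_hp.B_FW2
import Pool.Agent.Work.MP_9fb703_hp.B_VAR
import Pool.Agent.Work.MP_9fb703_hp.B_CHEB
import Pool.Agent.Work.MP_9fb703_hp.B_KB
import Pool.Agent.Work.MP_9fb703_hp.B_LAT2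
import Pool.Agent.Work.MP_9fb703_hp.B_ROW
import Pool.Agent.Work.MP_9fb703_hp.B_FIB
import Pool.Agent.Work.MP_9fb703_hp.B_CONT
import Pool.Agent.Work.MP_9fb703_hp.B_P31
import Pool.Agent.Work.MP_9fb703_hp.B_P32
import Pool.Agent.Work.MP_9fb703_hp.B_DIAG
import Pool.Agent.Work.MP_9fb703_hp.B_RANK
import Pool.Agent.Work.MP_9fb703_hp.B_GEO2
import Pool.Agent.Work.MP_9fb703_hp.B_GEO3
import Pool.Agent.Work.MP_9fb703_hp.B_UNB
import Pool.Agent.Work.MP_9fb703_hp.B_SML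
import Pool.Agent.Work.MP_9fb703_hp.B_SZ7
import Pool.Agent.Work.MP_9fb703_hp.B_SZ6
import Pool.Agent.Work.MP_9fb703_hp.B_SU
import Pool.Agent.Work.MP_9fb703_hp.B_SS
import Pool.Agent.Work.MP_9fb703_hp.B_CNT
import Pool.Agent.Work.MP_9fb703_hp.B_SM
import Pool.Agent.Work.MP_9fb703_hp.B_GEOM
import Pool.Agent.Work.MP_9fb703_hp.B_TWI
import Pool.Agent.Work.MP_9fb703_hp.B_SNGP
import Pool.Agent.Work.MP_9fb703_hp.B_SIG2
import Pool.Agent.Work.MP_9fb703_hp.B_MULT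
import Pool.Agent.Work.MP_9fb703_hp.B_GRED
import Pool.Agent.Work.MP_9fb703_hp.B_BOXM
import Pool.Agent.Work.MP_9fb703_hp.B_MIN5
import Pool.Agent.Work.MP_9fb703_hp.B_RSNG
import Pool.Agent.Work.MP_9fb703_hp.B_IFT
import Pool.Agent.Work.MP_9fb703_hp.B_BOXC
import Pool.Agent.Work.MP_9fb703_hp.B_BIGP
import Pool.Agent.Work.MP_9fb703_hp.B_GENB
import Pool.Agent.Work.MP_9fb703_hp.B_SIEV
import Pool.Agent.Work.MP_9fb703_hp.B_SCL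
import Pool.Agent.Work.MP_9fb703_hp.B_HENT
import Pool.Agent.Work.MP_9fb703_hp.B_MULTT
import Pool.Agent.Work.MP_9fb703_hp.B_GREDT
import Pool.Agent.Work.MP_9fb703_hp.B_PADT1
import Pool.Agent.Work.MP_9fb703_hp.B_PADT
import Pool.Agent.Work.MP_9fb703_hp.B_LOWT
import Pool.Agent.Work.MP_9fb703_hp.B_FINS

/-! # Assembly (MP_9fb703, helper66) -/

set_option autoImplicit false

namespace Pool.HPQ

theorem a_VAR : Stmt_VAR := p_VAR p_FW1 p_FW2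
theorem a_CHEB : Stmt_CHEB := p_CHEB a_VAR (p_FLB1 p_EXP)
theorem a_FIB : Stmt_FIB := p_FIB p_LAT2 p_ROW
theorem a_P31 : Stmt_P31 := p_P31 a_FIB p_CONT p_ROW
theorem a_P32 : Stmt_P32 := p_P32 p_CONT p_ROW
theorem a_DIAG : Stmt_DIAG := p_DIAG p_ROW
theorem a_UNB : Stmt_UNB := p_UNB a_FIB p_CONT p_ROW p_RANK p_GEO3
theorem a_SML : Stmt_SML := p_SML a_P31 p_CONT p_GEO2
theorem a_SU : Stmt_SU := p_SU a_UNB p_SZ6
theorem a_SS : Stmt_SS := p_SS a_SML p_SZ7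
theorem a_SM : Stmt_SM := p_SM a_P31 a_P32 p_KB p_CNT
theorem a_GEOM : Stmt_GEOM := p_GEOM a_DIAG a_SU a_SS a_SM
theorem a_TWI : Stmt_TWI := p_TWI a_GEOM p_FW2
theorem a_PADT1 : Stmt_PADT1 := p_PADT1 p_SCL p_HENT p_MULTT p_MULT p_GRED
theorem a_PADT : Stmt_PADT := p_PADT a_PADT1 p_SNGP p_SIG2 p_MULTT (p_GREDT p_GRED) p_BOXM
theorem a_RSNG : Stmt_RSNG := p_RSNG p_MIN5
theorem a_SIEV : Stmt_SIEV := p_SIEV p_BOXC p_BIGP p_GENB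
theorem a_LOWT : Stmt_LOWT := p_LOWT p_IFT a_SIEV
theorem mainS : Stmt_MAINS :=
  p_FINS a_VAR (p_FLB1 p_EXP) a_TWI p_FW2 a_PADT a_RSNG a_LOWT (p_FLB2 p_EXP)

end Pool.HPQ
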