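import Mathlib
import Pool.Agent.Work.MP_9fb703_hp.Explicit
import Pool.Agent.Work.MP_9fb703_hp.FinalHP

/-!
# MP_9fb703: weak approximation for almost all intersections of two quadrics in P^5 over Q

A quadratic form in six variables is given by its 21 coefficients, indexed by the pairs
`(i, j)` in `Fin 6 × Fin 6` with `i ≤ j`.  For every `N ≥ 1` and every `ε > 0` there is `c > 0`
such that for every large `L` and, given `L`, for every large `A` the following holds for all pairs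
of forms with integer coefficients in `[-A, A]` but at most `ε (2A+1)^42`: for every nonzero real
zero `y` and all primitive `p`-adic zeros `M_p` there are at least `c L^2` primitive integral zeros
`x` with all coordinates at most `L A` in absolute value, such that a positive multiple of `x` is
within `‖y‖ / N` of `y` and such that `x` is congruent to `M_p` modulo `p ^ N` for every prime
`p ≤ N`.
-/

set_option autoImplicit false

namespace Pool.Agent.Results.MP_9fb703_nt.AlmostAll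

open Pool.HPQ

open Classical in
theorem result :
    ∀ (ε : ℝ) (N : ℕ), 0 < ε → 1 ≤ N → ∃ (c : ℝ) (L₀ : ℕ), 0 < c ∧
      ∀ L : ℕ, L₀ ≤ L → ∃ A₀ : ℕ, ∀ A : ℕ, A₀ ≤ A →
      ((((Fintype.piFinset fun _ : {q : Fin 6 × Fin 6 // q.1 ≤ q.2} =>
            Finset.Icc (-(A : ℤ)) (A : ℤ)) ×ˢ
          (Fintype.piFinset fun _ : {q : Fin 6 × Fin 6 // q.1 ≤ q.2} =>
            Finset.Icc (-(A : ℤ)) (A : ℤ))).filter fun z =>
          ¬ ∀ (y : Fin 6 → ℝ) (M : (p : ℕ) → [Fact p.Prime] → Fin 6 → ℤ_[p]),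
            (y ≠ 0 ∧ ∑ q, (z.1 q : ℝ) * (y q.1.1 * y q.1.2) = 0 ∧
              ∑ q, (z.2 q : ℝ) * (y q.1.1 * y q.1.2) = 0) →
            (∀ (p : ℕ) [Fact p.Prime], (∃ i, ‖M p i‖ = 1) ∧
              ∑ q, (z.1 q : ℤ_[p]) * (M p q.1.1 * M p q.1.2) = 0 ∧
              ∑ q, (z.2 q : ℤ_[p]) * (M p q.1.1 * M p q.1.2) = 0) →
            ∃ S : Finset (Fin 6 → ℤ), c * (L : ℝ) ^ 2 ≤ (S.card : ℝ) ∧ ∀ x ∈ S,
              ∑ q, z.1 q * (x q.1.1 * x q.1.2) = 0 ∧
              ∑ q, z.2 q * (x q.1.1 * x q.1.2) = 0 ∧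
              (∀ i, |x i| ≤ (L * A : ℤ)) ∧ (∀ d : ℤ, (∀ i, d ∣ x i) → IsUnit d) ∧
              (∃ μ : ℝ, 0 < μ ∧ ∀ i, |μ * x i - y i| ≤ 1 / N * ‖y‖) ∧
              ∀ (p : ℕ) [Fact p.Prime], p ≤ N → ∀ i,
                ‖(x i : ℤ_[p]) - M p i‖ ≤ (p : ℝ) ^ (-(N : ℤ))).card : ℝ) ≤
        ε * (2 * (A : ℝ) + 1) ^ 42 := by
  intro ε N hε hN
  obtain ⟨c, L₀, hc, h⟩ := mainS ε N hε hN
  refine ⟨c, L₀, hc, fun L hL => ?_⟩
  obtain ⟨A₀, h⟩ := h L hL
  refine ⟨A₀, fun A hA => le_trans (Nat.cast_le.mpr (Finset.card_le_card ?_)) (h A hA)⟩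
  intro z hz
  rw [Finset.mem_filter] at hz ⊢
  exact ⟨hz.1, EXPL_not N L A c z.1 z.2 hz.2⟩

end Pool.Agent.Results.MP_9fb703_nt.AlmostAll
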