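import Pool.Agent.Work.MP_9fb703_hp.Interface

/-! # Block LOWR: the lower bound of the number of local points (helper97) -/

set_option autoImplicit false

namespace Pool.HPQ

open Finset

lemma LOWR_Q_smul (α : Idx → ℝ) (k : ℝ) (x : Fin 6 → ℝ) :
    Q α (fun i => k * x i) = k ^ 2 * Q α x := by
  unfold Q
  rw [Finset.mul_sum]
  exact Finset.sum_congr rfl fun q _ => by ring

lemma LOWR_Q_coef (α : Idx → ℝ) (k : ℝ) (x : Fin 6 → ℝ) :
    Q (fun q => k * α q) x = k * Q α x := by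
  unfold Q
  rw [Finset.mul_sum]
  exact Finset.sum_congr rfl fun q _ => by ring

lemma LOWR_G_smul (α : Idx → ℝ) (k : ℝ) (x : Fin 6 → ℝ) (i : Fin 6) :
    G α (fun i => k * x i) i = k * G α x i := by
  unfold G
  rw [Finset.mul_sum]
  refine Finset.sum_congr rfl fun q _ => ?_
  split_ifs <;> ring

lemma LOWR_G_coef (α : Idx → ℝ) (k : ℝ) (x : Fin 6 → ℝ) (i : Fin 6) :
    G (fun q => k * α q) x i = k * G α x i := by
  unfold G
  rw [Finset.mul_sum]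
  exact Finset.sum_congr rfl fun q _ => by ring

lemma LOWR_mn (α β : Idx → ℝ) (k k' : ℝ) (x : Fin 6 → ℝ) (i j : Fin 6) :
    mn (fun q => k * α q) (fun q => k * β q) (fun l => k' * x l) i j =
      (k * k') ^ 2 * mn α β x i j := by
  unfold mn
  rw [LOWR_G_smul, LOWR_G_smul, LOWR_G_smul, LOWR_G_smul, LOWR_G_coef, LOWR_G_coef, LOWR_G_coef,
    LOWR_G_coef]
  ring

lemma LOWR_mn_self (α β : Idx → ℝ) (x : Fin 6 → ℝ) (i : Fin 6) : mn α β x i i = 0 := by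
  unfold mn; ring

lemma LOWR_Q_cast (a : Idx → ℤ) (x : Fin 6 → ℤ) :
    ((Q a x : ℤ) : ℝ) = Q (fun q => (a q : ℝ)) (fun i => (x i : ℝ)) := by
  unfold Q; push_cast; rfl

/-- The real version of `dt`. -/
noncomputable def LOWR_d (r : Fin 6 → ℤ) (z : Fin 6 → ℝ) : ℝ := ∑ i, (r i : ℝ) * z i

lemma LOWR_d_cast (r x : Fin 6 → ℤ) : ((dt r x : ℤ) : ℝ) = LOWR_d r (fun i => (x i : ℝ)) := by
  unfold dt LOWR_d; push_cast; rfl

lemma LOWR_d_smul (r : Fin 6 → ℤ) (k : ℝ) (z : Fin 6 → ℝ) :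
    LOWR_d r (fun i => k * z i) = k * LOWR_d r z := by
  unfold LOWR_d
  rw [Finset.mul_sum]
  exact Finset.sum_congr rfl fun q _ => by ring

lemma LOWR_d_sub (r : Fin 6 → ℤ) (u z : Fin 6 → ℝ) (e : ℝ) (h : ∀ l, |u l - z l| ≤ e) :
    LOWR_d r z - (n1 r : ℝ) * e ≤ LOWR_d r u := by
  have h1 : LOWR_d r z - LOWR_d r u = ∑ i, (r i : ℝ) * (z i - u i) := by
    unfold LOWR_d
    rw [← Finset.sum_sub_distrib]
    exact Finset.sum_congr rfl fun q _ => by ring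
  have h2 : ∑ i, (r i : ℝ) * (z i - u i) ≤ ∑ i, ((r i).natAbs : ℝ) * e := by
    refine Finset.sum_le_sum fun i _ => ?_
    refine (le_abs_self _).trans ?_
    rw [abs_mul]
    have h3 : |((r i : ℤ) : ℝ)| = ((r i).natAbs : ℝ) := by
      rw [Nat.cast_natAbs]; push_cast; rfl
    rw [h3]
    refine mul_le_mul_of_nonneg_left ?_ (Nat.cast_nonneg _)
    rw [abs_sub_comm]; exact h i
  have h4 : ∑ i, ((r i).natAbs : ℝ) * e = (n1 r : ℝ) * e := by
    unfold n1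
    rw [← Finset.sum_mul]; push_cast; rfl
  linarith

lemma LOWR_rv_d (P₀ : ℕ) (t : Fin 6 → ℤ) (s : Fin 6) (hs : s ≠ 0) (z : Fin 6 → ℝ) :
    LOWR_d (rv P₀ t s) z = LOWR_d t z + P₀ * z s := by
  unfold LOWR_d rv
  have h1 : ∀ i : Fin 6, (((t i + if s ≠ 0 ∧ i = s then (P₀ : ℤ) else 0 : ℤ)) : ℝ) * z i =
      (t i : ℝ) * z i + if i = s then (P₀ : ℝ) * z i else 0 := by
    intro i
    by_cases h : i = s
    · simp [hs, h]; ring
    · simp [h]
  rw [Finset.sum_congr rfl fun i _ => h1 i, Finset.sum_add_distrib]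
  simp

lemma LOWR_rv_zero (P₀ : ℕ) (t : Fin 6 → ℤ) : rv P₀ t 0 = t := by
  unfold rv; funext i; simp

lemma LOWR_rv_at_zero (P₀ : ℕ) (t : Fin 6 → ℤ) (ht : Adm P₀ t) (s : Fin 6) : rv P₀ t s 0 = 1 := by
  unfold rv
  have : ¬ (s ≠ 0 ∧ (0 : Fin 6) = s) := fun h => h.1 h.2.symm
  rw [if_neg this, ht.1]; ring

lemma LOWR_n1 (P₀ : ℕ) (hP : 0 < P₀) (t : Fin 6 → ℤ) (ht : Adm P₀ t) (s : Fin 6) :
    n1 (rv P₀ t s) ≤ 7 * P₀ := by
  have h1 : ∀ i, (rv P₀ t s i).natAbs ≤ (t i).natAbs + if i = s then P₀ else 0 := by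
    intro i
    unfold rv
    have h0 := (ht.2 i).1
    by_cases h : s ≠ 0 ∧ i = s
    · rw [if_pos h, if_pos h.2]; omega
    · rw [if_neg h]; simp
  have h2 : n1 (rv P₀ t s) ≤ ∑ i, ((t i).natAbs + if i = s then P₀ else 0) :=
    Finset.sum_le_sum fun i _ => h1 i
  rw [Finset.sum_add_distrib] at h2
  simp only [Finset.sum_ite_eq', mem_univ, if_true] at h2
  have h3 : ∀ i, (t i).natAbs ≤ P₀ := fun i => by
    have := ht.2 i
    omega
  have h4 : ∑ i, (t i).natAbs ≤ 1 + 5 * P₀ := by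
    rw [Fin.sum_univ_six]
    have e0 : (t 0).natAbs = 1 := by rw [ht.1]; rfl
    have := h3 1
    have := h3 2
    have := h3 3
    have := h3 4
    have := h3 5
    omega
  omega

lemma LOWR_s (P₀ : ℕ) (hP : 0 < P₀) (t : Fin 6 → ℤ) (ht : Adm P₀ t) (x : Fin 6 → ℝ) (l0 : Fin 6)
    (h : |x l0| = 1) : ∃ s, 1 / 11 ≤ |LOWR_d (rv P₀ t s) x| := by
  by_contra hc
  push Not at hc
  have h0 := hc 0
  rw [LOWR_rv_zero] at h0
  have hP1 : (1 : ℝ) ≤ P₀ := by exact_mod_cast hP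
  have h1 : ∀ s : Fin 6, s ≠ 0 → |(P₀ : ℝ) * x s| < 2 / 11 := by
    intro s hs
    have h2 := hc s
    rw [LOWR_rv_d P₀ t s hs] at h2
    rw [abs_lt] at h0 h2 ⊢
    constructor <;> linarith
  have h3 : ∀ s : Fin 6, s ≠ 0 → |(t s : ℝ) * x s| < 2 / 11 := by
    intro s hs
    refine lt_of_le_of_lt ?_ (h1 s hs)
    rw [abs_mul, abs_mul]
    refine mul_le_mul_of_nonneg_right ?_ (abs_nonneg _)
    have h4 := ht.2 s
    have h5 : (0 : ℝ) ≤ (t s : ℝ) := by exact_mod_cast h4.1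
    have h6 : (t s : ℝ) ≤ P₀ := by exact_mod_cast h4.2
    rw [abs_of_nonneg h5, abs_of_nonneg (by positivity)]
    exact h6
  by_cases hl : l0 = 0
  · rw [hl] at h
    have h4 : x 0 = LOWR_d t x - (t 1 * x 1 + t 2 * x 2 + t 3 * x 3 + t 4 * x 4 + t 5 * x 5) := by
      unfold LOWR_d
      rw [Fin.sum_univ_six, ht.1]
      push_cast
      ring
    have e1 := abs_lt.1 (h3 1 (by decide))
    have e2 := abs_lt.1 (h3 2 (by decide))
    have e3 := abs_lt.1 (h3 3 (by decide))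
    have e4 := abs_lt.1 (h3 4 (by decide))
    have e5 := abs_lt.1 (h3 5 (by decide))
    have e0 := abs_lt.1 h0
    have : |x 0| < 1 := by
      rw [h4, abs_lt]
      constructor <;> linarith [e1.1, e1.2, e2.1, e2.2, e3.1, e3.2, e4.1, e4.2, e5.1, e5.2]
    linarith
  · have h4 := h1 l0 hl
    rw [abs_mul, h, abs_of_nonneg (by positivity : (0 : ℝ) ≤ (P₀ : ℝ))] at h4
    linarith

/-- The difference of the values of a form at two nearby points of the unit cube. -/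
lemma LOWR_Q_diff (α : Idx → ℝ) (hα : ∀ q, |α q| ≤ 1) (x y : Fin 6 → ℝ) (τ : ℝ)
    (hx : ∀ l, |x l| ≤ 1) (hy : ∀ l, |y l| ≤ 1) (h : ∀ l, |x l - y l| ≤ τ) :
    |Q α x - Q α y| ≤ 42 * τ := by
  have hcard : (Fintype.card Idx : ℝ) = 21 := by
    have : Fintype.card Idx = 21 := by decide
    rw [this]; norm_num
  unfold Q
  rw [← Finset.sum_sub_distrib]
  refine (Finset.abs_sum_le_sum_abs _ _).trans ?_
  have h1 : ∀ q : Idx, |α q * (x q.1.1 * x q.1.2) - α q * (y q.1.1 * y q.1.2)| ≤ 2 * τ := by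
    intro q
    have e : α q * (x q.1.1 * x q.1.2) - α q * (y q.1.1 * y q.1.2) =
        α q * (x q.1.1 * (x q.1.2 - y q.1.2) + y q.1.2 * (x q.1.1 - y q.1.1)) := by ring
    rw [e, abs_mul]
    have h2 : |x q.1.1 * (x q.1.2 - y q.1.2) + y q.1.2 * (x q.1.1 - y q.1.1)| ≤ 2 * τ := by
      refine (abs_add_le _ _).trans ?_
      rw [abs_mul, abs_mul]
      have a1 := mul_le_mul (hx q.1.1) (h q.1.2) (abs_nonneg _) zero_le_one
      have a2 := mul_le_mul (hy q.1.2) (h q.1.1) (abs_nonneg _) zero_le_one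
      linarith
    have h3 := mul_le_mul (hα q) h2 (abs_nonneg _) zero_le_one
    linarith
  refine (Finset.sum_le_sum fun q _ => h1 q).trans ?_
  rw [Finset.sum_const, nsmul_eq_mul, Finset.card_univ, hcard]
  linarith

lemma LOWR_mod (a : Idx → ℤ) (W : ℤ) (x : Fin 6 → ℤ) (h : W ∣ Q a (fun l => x l % W)) :
    W ∣ Q a x := by
  have h1 : Q a x ≡ Q a (fun l => x l % W) [ZMOD W] := by
    unfold Q
    refine Int.ModEq.sum fun q _ => ?_
    refine Int.ModEq.mul_left _ ?_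
    exact Int.ModEq.mul (Int.mod_modEq _ _).symm (Int.mod_modEq _ _).symm
  exact (Int.modEq_zero_iff_dvd).1 (h1.trans ((Int.modEq_zero_iff_dvd).2 h))

theorem p_LOWR (hI : Stmt_IFT) (hS : Stmt_SIEV) : Stmt_LOWR := by
  classical
  intro P₀ δ hP hδ hδ1
  obtain ⟨w₁, hS⟩ := hS
  have hPr : (1 : ℝ) ≤ P₀ := by exact_mod_cast hP
  set η : ℝ := 1 / (616 * P₀) with hη
  have hηpos : 0 < η := by rw [hη]; positivity
  have hηP : 7 * (P₀ : ℝ) * η = 1 / 88 := by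
    rw [hη]; field_simp; norm_num
  have hη1 : η ≤ 1 / 616 := by
    rw [hη]
    exact div_le_div_of_nonneg_left (by norm_num) (by norm_num) (by linarith)
  obtain ⟨ρ, hρ, hρη, hI⟩ := hI (δ / 4) η (by positivity) hηpos
  refine ⟨1 / 44, ρ ^ 4 * η ^ 2 / 4, w₁, by norm_num, by norm_num, by positivity, ?_⟩
  intro w h lam K₀ hw hh hh1 hlam
  set W : ℕ := Ww w with hW
  have hWpos : 0 < W := by
    rw [hW]
    unfold Ww
    exact Finset.prod_pos fun p hp => pow_pos ((mem_filter.1 hp).2).pos _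
  have hWp : ∀ p : ℕ, p.Prime → p ≤ w → p ∣ W := by
    intro p hp hpw
    rw [hW]
    unfold Ww
    have h2 := hp.two_le
    refine dvd_trans (dvd_pow_self p (by omega : w ≠ 0))
      (Finset.dvd_prod_of_mem (fun p => p ^ w) ?_)
    rw [mem_filter, mem_range]
    exact ⟨by omega, hp⟩
  obtain ⟨B₁, hB⟩ := hS w W (7 * P₀) K₀ ρ (η * h) hw hWpos hWp hρ (by positivity)
  refine ⟨max B₁ 1, ?_⟩
  intro A hA a ha b hb hreal hsing t ht
  have hA1 : 1 ≤ A := le_trans (le_max_right _ _) hA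
  have hAB : B₁ ≤ A := le_trans (le_max_left _ _) hA
  have hApos : (0 : ℝ) < A := by exact_mod_cast hA1
  obtain ⟨B, hBdef⟩ : ∃ B : ℕ, B = lam * A := ⟨_, rfl⟩
  have hBpos : 0 < B := by rw [hBdef]; exact Nat.mul_pos hlam hA1
  have hBr : (0 : ℝ) < B := by exact_mod_cast hBpos
  have hB1 : B₁ ≤ B := by rw [hBdef]; exact hAB.trans (Nat.le_mul_of_pos_left A hlam)
  -- the real zero, sup norm 1
  obtain ⟨x0, hx0, hx0a, hx0b⟩ := hreal
  obtain ⟨l0, hl0⟩ : ∃ l0, ∀ l, |x0 l| ≤ |x0 l0| := by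
    obtain ⟨l0, _, h⟩ := Finset.exists_max_image univ (fun l => |x0 l|) univ_nonempty
    exact ⟨l0, fun l => h l (mem_univ _)⟩
  have hne : 0 < |x0 l0| := by
    by_contra hc
    apply hx0
    funext l
    have h1 := hl0 l
    have h2 : |x0 l| ≤ 0 := by linarith
    exact abs_nonpos_iff.1 h2
  obtain ⟨k, hk⟩ : ∃ k : ℝ, k = 1 / |x0 l0| := ⟨_, rfl⟩
  have hkpos : 0 < k := by rw [hk]; positivity
  obtain ⟨x1, hx1⟩ : ∃ x1 : Fin 6 → ℝ, x1 = fun l => k * x0 l := ⟨_, rfl⟩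
  have hx1l0 : |x1 l0| = 1 := by
    rw [hx1]; simp only
    rw [abs_mul, abs_of_pos hkpos, hk]
    field_simp
  have hx1l : ∀ l, |x1 l| ≤ 1 := by
    intro l
    rw [← hx1l0, hx1]; simp only
    rw [abs_mul, abs_mul]
    exact mul_le_mul_of_nonneg_left (hl0 l) (abs_nonneg _)
  have hQa1 : Q (fun q => (a q : ℝ)) x1 = 0 := by rw [hx1, LOWR_Q_smul, hx0a, mul_zero]
  have hQb1 : Q (fun q => (b q : ℝ)) x1 = 0 := by rw [hx1, LOWR_Q_smul, hx0b, mul_zero]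
  obtain ⟨i, j, hij⟩ : ∃ i j, δ * (A : ℝ) ^ 2 <
      |mn (fun q => (a q : ℝ)) (fun q => (b q : ℝ)) x1 i j| := by
    by_contra hc
    push Not at hc
    exact hsing ⟨x1, hx1l, ⟨l0, hx1l0⟩, hQa1, hQb1, hc⟩
  have hijne : i ≠ j := by
    rintro rfl
    rw [LOWR_mn_self, abs_zero] at hij
    have : 0 < δ * (A : ℝ) ^ 2 := by positivity
    linarith
  obtain ⟨s, hs⟩ := LOWR_s P₀ hP t ht x1 l0 hx1l0
  refine ⟨s, ?_⟩
  obtain ⟨r, hr⟩ : ∃ r, r = rv P₀ t s := ⟨_, rfl⟩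
  rw [← hr] at hs ⊢
  have hr0 : r 0 = 1 := by rw [hr]; exact LOWR_rv_at_zero P₀ t ht s
  have hrn : n1 r ≤ 7 * P₀ := by rw [hr]; exact LOWR_n1 P₀ hP t ht s
  obtain ⟨σ, hσ, hσd⟩ : ∃ σ : ℝ, |σ| = 1 / 2 ∧ 1 / 22 ≤ LOWR_d r (fun l => σ * x1 l) := by
    rcases le_total 0 (LOWR_d r x1) with h1 | h1
    · refine ⟨1 / 2, abs_of_pos (by norm_num), ?_⟩
      rw [LOWR_d_smul]
      rw [abs_of_nonneg h1] at hs
      linarith
    · refine ⟨-(1 / 2), by rw [abs_neg]; exact abs_of_pos (by norm_num), ?_⟩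
      rw [LOWR_d_smul]
      rw [abs_of_nonpos h1] at hs
      linarith
  obtain ⟨z, hz⟩ : ∃ z : Fin 6 → ℝ, z = fun l => σ * x1 l := ⟨_, rfl⟩
  rw [← hz] at hσd
  have hz1 : ∀ l, |z l| ≤ 1 / 2 := by
    intro l
    rw [hz]; simp only
    rw [abs_mul, hσ]
    have := hx1l l
    linarith
  obtain ⟨α, hα⟩ : ∃ α : Idx → ℝ, α = fun q => (A : ℝ)⁻¹ * (a q : ℝ) := ⟨_, rfl⟩
  obtain ⟨β, hβ⟩ : ∃ β : Idx → ℝ, β = fun q => (A : ℝ)⁻¹ * (b q : ℝ) := ⟨_, rfl⟩
  have hbox : ∀ c ∈ Box A, ∀ q, |(A : ℝ)⁻¹ * ((c : Idx → ℤ) q : ℝ)| ≤ 1 := by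
    intro c hc q
    unfold Box at hc
    rw [Fintype.mem_piFinset] at hc
    have h1 := mem_Icc.1 (hc q)
    have h2 : |(c q : ℝ)| ≤ A := by
      rw [abs_le]
      exact ⟨by exact_mod_cast h1.1, by exact_mod_cast h1.2⟩
    rw [abs_mul, abs_of_pos (by positivity : (0 : ℝ) < (A : ℝ)⁻¹), inv_mul_le_iff₀ hApos, mul_one]
    exact h2
  have hα1 : ∀ q, |α q| ≤ 1 := by rw [hα]; exact hbox a ha
  have hβ1 : ∀ q, |β q| ≤ 1 := by rw [hβ]; exact hbox b hb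
  have hza : Q α z = 0 := by rw [hα, hz, LOWR_Q_coef, LOWR_Q_smul, hQa1]; ring
  have hzb : Q β z = 0 := by rw [hβ, hz, LOWR_Q_coef, LOWR_Q_smul, hQb1]; ring
  have hmn : δ / 4 ≤ |mn α β z i j| := by
    rw [hα, hβ, hz, LOWR_mn, abs_mul]
    have e : |((A : ℝ)⁻¹ * σ) ^ 2| = 1 / (4 * (A : ℝ) ^ 2) := by
      rw [abs_pow, abs_mul, hσ, abs_of_pos (by positivity : (0 : ℝ) < (A : ℝ)⁻¹)]
      field_simp
      norm_num
    rw [e, div_mul_eq_mul_div, one_mul, div_le_div_iff₀ (by norm_num) (by positivity)]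
    nlinarith [hij]
  have hI' := hI α β z i j hα1 hβ1 (fun l => (hz1 l).trans (by norm_num)) hza hzb hmn
  choose! Y hY using hI'
  -- the region
  obtain ⟨u, hu⟩ : ∃ u : (Fin 6 → ℤ) → Fin 6 → ℝ,
      u = fun x l => if l = i ∨ l = j then 0 else (x l : ℝ) / B := ⟨_, rfl⟩
  obtain ⟨ψ, hψ⟩ : ∃ ψ : (Fin 6 → ℤ) → Fin 6 → ℝ, ψ = fun x l => B * Y (u x) l := ⟨_, rfl⟩
  obtain ⟨ctr, hctr⟩ : ∃ ctr : Fin 6 → ℝ, ctr = fun l => B * z l := ⟨_, rfl⟩
  have hdep : ∀ x x' : Fin 6 → ℤ, (∀ l, l ≠ i → l ≠ j → x l = x' l) → ψ x = ψ x' := by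
    intro x x' hxx
    have h1 : u x = u x' := by
      rw [hu]; funext l; simp only
      by_cases hl : l = i ∨ l = j
      · rw [if_pos hl, if_pos hl]
      · rw [if_neg hl, if_neg hl]
        rw [not_or] at hl
        rw [hxx l hl.1 hl.2]
    rw [hψ]; simp only [h1]
  have hhη : η * h ≤ η := by nlinarith
  -- properties of the points of the region
  have key : ∀ x : Fin 6 → ℤ, ((∀ l, l ≠ i → l ≠ j → |(x l : ℝ) - ctr l| ≤ ρ * B) ∧
      |(x i : ℝ) - ψ x i| ≤ η * h * B ∧ |(x j : ℝ) - ψ x j| ≤ η * h * B) →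
      (∀ l, |x l| ≤ (B : ℤ)) ∧ (1 / 44 : ℝ) * B ≤ (dt r x : ℝ) ∧
      |((Q a x : ℤ) : ℝ)| ≤ h * A * (B : ℝ) ^ 2 ∧ |((Q b x : ℤ) : ℝ)| ≤ h * A * (B : ℝ) ^ 2 := by
    rintro x ⟨hfree, hi, hj⟩
    have hfree' : ∀ l, l ≠ i → l ≠ j → |(x l : ℝ) / B - z l| ≤ ρ := by
      intro l h1 h2
      have h3 := hfree l h1 h2
      rw [hctr] at h3
      have e : (x l : ℝ) / B - z l = ((x l : ℝ) - B * z l) / B := by field_simp
      rw [e, abs_div, abs_of_pos hBr, div_le_iff₀ hBr]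
      exact h3
    have hux : ∀ l, l ≠ i → l ≠ j → u x l = (x l : ℝ) / B := by
      intro l h1 h2
      rw [hu]; simp only
      rw [if_neg (by rw [not_or]; exact ⟨h1, h2⟩)]
    obtain ⟨hY1, hY2, hY3, hY4, hY5⟩ := hY (u x) (fun l h1 h2 => by
      rw [hux l h1 h2]; exact hfree' l h1 h2)
    obtain ⟨y, hy⟩ : ∃ y, y = Y (u x) := ⟨_, rfl⟩
    rw [← hy] at hY1 hY2 hY3 hY4 hY5
    obtain ⟨v, hv⟩ : ∃ v : Fin 6 → ℝ, v = fun l => (x l : ℝ) / B := ⟨_, rfl⟩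
    have hxv : (fun l => (x l : ℝ)) = fun l => (B : ℝ) * v l := by
      funext l; rw [hv]; field_simp
    have hvy : ∀ l, |v l - y l| ≤ η * h := by
      intro l
      have hdiv : ∀ m, |(x m : ℝ) - ψ x m| ≤ η * h * B → |v m - y m| ≤ η * h := by
        intro m hm
        rw [hψ] at hm
        simp only at hm
        rw [← hy] at hm
        have e : v m - y m = ((x m : ℝ) - B * y m) / B := by rw [hv]; field_simp
        rw [e, abs_div, abs_of_pos hBr, div_le_iff₀ hBr]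
        exact hm
      by_cases h1 : l = i
      · rw [h1]; exact hdiv i hi
      by_cases h2 : l = j
      · rw [h2]; exact hdiv j hj
      · rw [hY1 l h1 h2, hux l h1 h2, hv]
        simp only [sub_self, abs_zero]
        positivity
    have hyz : ∀ l, |y l - z l| ≤ η := by
      intro l
      by_cases h1 : l = i
      · rw [h1]; exact hY2
      by_cases h2 : l = j
      · rw [h2]; exact hY3
      · rw [hY1 l h1 h2, hux l h1 h2]
        exact (hfree' l h1 h2).trans hρη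
    have hvz : ∀ l, |v l - z l| ≤ 2 * η := by
      intro l
      have e : v l - z l = (v l - y l) + (y l - z l) := by ring
      rw [e]
      refine (abs_add_le _ _).trans ?_
      have h1 := hvy l
      have h2 := hyz l
      linarith
    have hv1 : ∀ l, |v l| ≤ 1 := by
      intro l
      have e : v l = (v l - z l) + z l := by ring
      rw [e]
      refine (abs_add_le _ _).trans ?_
      have h1 := hvz l
      have h2 := hz1 l
      linarith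
    have hy1 : ∀ l, |y l| ≤ 1 := by
      intro l
      have e : y l = (y l - z l) + z l := by ring
      rw [e]
      refine (abs_add_le _ _).trans ?_
      have h1 := hyz l
      have h2 := hz1 l
      linarith
    have hQ : ∀ (c : Idx → ℤ) (γ : Idx → ℝ), γ = (fun q => (A : ℝ)⁻¹ * (c q : ℝ)) →
        (∀ q, |γ q| ≤ 1) → Q γ y = 0 → |((Q c x : ℤ) : ℝ)| ≤ h * A * (B : ℝ) ^ 2 := by
      intro c γ hγ hγ1 hγy
      have h1 := LOWR_Q_diff γ hγ1 v y (η * h) hv1 hy1 hvy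
      rw [hγy, sub_zero] at h1
      have h2 : Q (fun q => (c q : ℝ)) v = A * Q γ v := by
        rw [hγ, LOWR_Q_coef]
        field_simp
      rw [LOWR_Q_cast, hxv, LOWR_Q_smul, h2, abs_mul, abs_mul, abs_of_pos hApos,
        abs_of_pos (by positivity : (0 : ℝ) < (B : ℝ) ^ 2)]
      have h3 : |Q γ v| ≤ h := by nlinarith
      have h4 : (B : ℝ) ^ 2 * (A * |Q γ v|) ≤ (B : ℝ) ^ 2 * (A * h) :=
        mul_le_mul_of_nonneg_left (mul_le_mul_of_nonneg_left h3 hApos.le) (by positivity)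
      refine h4.trans (le_of_eq (by ring))
    refine ⟨?_, ?_, hQ a α hα hα1 hY4, hQ b β hβ hβ1 hY5⟩
    · intro l
      have h1 := hv1 l
      rw [hv] at h1
      simp only at h1
      rw [abs_div, abs_of_pos hBr, div_le_one hBr] at h1
      exact_mod_cast h1
    · have h1 := LOWR_d_sub r v z (2 * η) hvz
      have h2 : (n1 r : ℝ) * (2 * η) ≤ 1 / 44 := by
        have h3 : (n1 r : ℝ) ≤ 7 * P₀ := by exact_mod_cast hrn
        have h4 := mul_le_mul_of_nonneg_right h3 (by positivity : (0 : ℝ) ≤ 2 * η)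
        linarith
      rw [LOWR_d_cast, hxv, LOWR_d_smul, mul_comm]
      exact mul_le_mul_of_nonneg_left (by linarith) hBr.le
  obtain ⟨X, hX⟩ : ∃ X : Finset (Fin 6 → ℤ), X =
      (Fintype.piFinset fun _ : Fin 6 => Icc (-(B : ℤ)) B).filter (fun x =>
        (∀ l, l ≠ i → l ≠ j → |(x l : ℝ) - ctr l| ≤ ρ * B) ∧
        |(x i : ℝ) - ψ x i| ≤ η * h * B ∧ |(x j : ℝ) - ψ x j| ≤ η * h * B) := ⟨_, rfl⟩
  have hXiff : ∀ x : Fin 6 → ℤ, x ∈ X ↔ (∀ l, l ≠ i → l ≠ j → |(x l : ℝ) - ctr l| ≤ ρ * B) ∧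
      |(x i : ℝ) - ψ x i| ≤ η * h * B ∧ |(x j : ℝ) - ψ x j| ≤ η * h * B := by
    intro x
    rw [hX, mem_filter]
    refine ⟨fun hx => hx.2, fun hx => ⟨?_, hx⟩⟩
    rw [Fintype.mem_piFinset]
    intro l
    have h1 := (key x hx).1 l
    rw [mem_Icc]
    exact ⟨(abs_le.1 h1).1, (abs_le.1 h1).2⟩
  have hGS : gg W r a b ⊆ cs W (Fin 6) := by
    unfold gg
    exact filter_subset _ _
  have hGS2 : ∀ v ∈ gg W r a b, Int.gcd (Int.gcd (dt r v) (v 1)) W = 1 := by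
    intro v hv
    unfold gg at hv
    exact (mem_filter.1 hv).2.2.2
  have hmain := hB B r (gg W r a b) i j ctr ψ X hB1 hr0 hrn hGS hGS2 hijne hdep hXiff (by
    intro x hx
    have h1 := key x ((hXiff x).1 hx)
    refine ⟨h1.1, ?_⟩
    have h2 : (0 : ℝ) < (dt r x : ℝ) := lt_of_lt_of_le (by positivity) h1.2.1
    exact_mod_cast h2)
  have hBc : (B : ℝ) = (lam : ℝ) * A := by rw [hBdef]; push_cast; ring
  have hlhs : ρ ^ 4 * η ^ 2 / 4 * h ^ 2 * ((gg W r a b).card : ℝ) * ((lam * A : ℝ) / W) ^ 6 =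
      1 / 4 * ((gg W r a b).card : ℝ) * (ρ ^ 4 * (η * h) ^ 2) * ((B : ℝ) / W) ^ 6 := by
    rw [hBc]; ring
  rw [hlhs]
  refine hmain.trans ?_
  rw [← hBdef, ← hBc]
  refine Nat.cast_le.2 (card_le_card fun x hx => ?_)
  rw [mem_filter] at hx
  obtain ⟨hxX, hxG, hcop, hgen⟩ := hx
  have h1 := key x ((hXiff x).1 hxX)
  rw [mem_filter]
  refine ⟨?_, ?_, ?_, h1.2.2.1, h1.2.2.2⟩
  · unfold XX
    rw [mem_filter, Fintype.mem_piFinset]
    refine ⟨fun l => ?_, h1.2.1, hcop, hgen⟩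
    have h2 := h1.1 l
    rw [mem_Icc]
    exact ⟨(abs_le.1 h2).1, (abs_le.1 h2).2⟩
  · unfold gg at hxG
    exact LOWR_mod a W x (mem_filter.1 hxG).2.1
  · unfold gg at hxG
    exact LOWR_mod b W x (mem_filter.1 hxG).2.2.1

end Pool.HPQ
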