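import Pool.Agent.Work.MP_9fb703_hp.InterfaceW

/-! # Block SCL (helper28) -/

set_option autoImplicit false

namespace Pool.HPQ

open Finset

theorem SCL_Q {K : Type*} [Field K] (a : Idx → K) (x : Fin 6 → K) (c : K)
    (h : Q a x = 0) : Q a (fun j => x j / c) = 0 := by
  have e : Q a (fun j => x j / c) = Q a x / c ^ 2 := by
    unfold Q
    rw [Finset.sum_div]
    refine Finset.sum_congr rfl (fun q _ => ?_)
    ring
  rw [e, h, zero_div]

theorem SCL_cast {p : ℕ} [Fact p.Prime] (a : Idx → ℤ) (M : Fin 6 → ℤ_[p]) :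
    ((Q (fun q => (a q : ℤ_[p])) M : ℤ_[p]) : ℚ_[p]) =
      Q (fun q => (a q : ℚ_[p])) (fun j => (M j : ℚ_[p])) := by
  unfold Q
  push_cast
  rfl

theorem p_SCL : Stmt_SCL := by
  intro a b
  constructor
  · constructor
    · rintro ⟨x, hx, ha, hb⟩
      obtain ⟨i, hi⟩ := Finite.exists_max (fun j => |x j|)
      have h0 : 0 < |x i| := by
        obtain ⟨j, hj⟩ := Function.ne_iff.mp hx
        exact lt_of_lt_of_le (abs_pos.mpr hj) (hi j)
      refine ⟨fun j => x j / |x i|, ?_, ⟨i, ?_⟩, SCL_Q _ _ _ ha, SCL_Q _ _ _ hb⟩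
      · intro j
        rw [abs_div, abs_abs]
        exact div_le_one_of_le₀ (hi j) h0.le
      · simp only
        rw [abs_div, abs_abs]
        exact div_self h0.ne'
    · rintro ⟨z, _, ⟨i, hi⟩, ha, hb⟩
      refine ⟨z, ?_, ha, hb⟩
      intro hz
      rw [hz] at hi
      simp at hi
  · intro p _
    constructor
    · rintro ⟨x, hx, ha, hb⟩
      obtain ⟨i, hi⟩ := Finite.exists_max (fun j => ‖x j‖)
      have h0 : 0 < ‖x i‖ := by
        obtain ⟨j, hj⟩ := Function.ne_iff.mp hx
        exact lt_of_lt_of_le (norm_pos_iff.mpr hj) (hi j)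
      have h1 : ∀ j, ‖x j / x i‖ ≤ 1 := by
        intro j
        rw [norm_div]
        exact div_le_one_of_le₀ (hi j) h0.le
      refine ⟨fun j => ⟨x j / x i, h1 j⟩, ⟨i, ?_⟩, ?_, ?_⟩
      · change ‖x i / x i‖ = 1
        rw [norm_div]
        exact div_self h0.ne'
      · have := SCL_cast (p := p) a (fun j => ⟨x j / x i, h1 j⟩)
        have e := SCL_Q (fun q => (a q : ℚ_[p])) x (x i) ha
        rw [show (Q (fun q => (a q : ℚ_[p])) (fun j => (((⟨x j / x i, h1 j⟩ : ℤ_[p])) : ℚ_[p]))) = 0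
          from e] at this
        exact Subtype.ext this
      · have := SCL_cast (p := p) b (fun j => ⟨x j / x i, h1 j⟩)
        have e := SCL_Q (fun q => (b q : ℚ_[p])) x (x i) hb
        rw [show (Q (fun q => (b q : ℚ_[p])) (fun j => (((⟨x j / x i, h1 j⟩ : ℤ_[p])) : ℚ_[p]))) = 0
          from e] at this
        exact Subtype.ext this
    · rintro ⟨M, ⟨i, hi⟩, ha, hb⟩
      refine ⟨fun j => (M j : ℚ_[p]), ?_, ?_, ?_⟩
      · intro hz
        have h1 : (M i : ℚ_[p]) = 0 := congrFun hz i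
        have h2 : M i = 0 := Subtype.ext h1
        rw [h2] at hi
        simp at hi
      · rw [← SCL_cast, ha]
        simp
      · rw [← SCL_cast, hb]
        simp

end Pool.HPQ
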