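import Pool.Agent.Work.MP_9fb703_hp.Interface

/-! # Block SML: balanced pairs with small `D` (helper65) -/

set_option autoImplicit false

namespace Pool.HPQ

open Finset

theorem SML_natAbs (n : ℤ) : ((n.natAbs : ℕ) : ℝ) = |(n : ℝ)| := by
  rw [Nat.cast_natAbs, Int.cast_abs]

theorem SML_sn {x : Fin 6 → ℤ} {B : ℝ} (h : ∀ i, |(x i : ℝ)| ≤ B) : (sn x : ℝ) ≤ B := by
  obtain ⟨i, -, hi⟩ := Finset.exists_mem_eq_sup (univ : Finset (Fin 6)) ⟨0, mem_univ _⟩
    (fun i => (x i).natAbs)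
  unfold sn
  rw [hi, SML_natAbs]
  exact h i

theorem SML_De_le (x y : Fin 6 → ℤ) (q : Fin 6) : |(om x y 0 q : ℝ)| ≤ De x y := by
  rw [← SML_natAbs]
  have h : (om x y 0 q).natAbs ≤ De x y :=
    Finset.le_sup (f := fun q => (om x y 0 q).natAbs) (mem_univ q)
  exact_mod_cast h

theorem SML_De_pos {x y : Fin 6 → ℤ} (h : 0 < De x y) : ∃ q, om x y 0 q ≠ 0 := by
  obtain ⟨q, -, hq⟩ := Finset.exists_mem_eq_sup (univ : Finset (Fin 6)) ⟨0, mem_univ _⟩
    (fun q => (om x y 0 q).natAbs)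
  refine ⟨q, fun h0 => ?_⟩
  unfold De at h
  rw [hq] at h
  simp [h0] at h

/-- entries of `x ∧ w` -/
theorem SML_om {B c : ℝ} (hc : 0 < c) (hB : 1 ≤ B) {x : Fin 6 → ℤ} (hb : ∀ i, |(x i : ℝ)| ≤ B)
    (hlo : c * B ≤ (x 0 : ℝ)) (w : Fin 6 → ℤ) (i j : Fin 6) :
    |(om x w i j : ℝ)| ≤ 2 * De x w / c := by
  have hB0 : 0 < B := by linarith
  have h1 : (x 0 : ℝ) * om x w i j = x i * om x w 0 j - x j * om x w 0 i := by
    simp only [om]; push_cast; ring
  have h2 : |(x 0 : ℝ) * om x w i j| ≤ B * De x w + B * De x w := by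
    rw [h1]
    refine (abs_sub _ _).trans ?_
    rw [abs_mul, abs_mul]
    exact add_le_add (mul_le_mul (hb i) (SML_De_le x w j) (abs_nonneg _) hB0.le)
      (mul_le_mul (hb j) (SML_De_le x w i) (abs_nonneg _) hB0.le)
  rw [abs_mul] at h2
  have h3 : c * B ≤ |(x 0 : ℝ)| := hlo.trans (le_abs_self _)
  have h4 : c * B * |(om x w i j : ℝ)| ≤ 2 * B * De x w := by
    calc c * B * |(om x w i j : ℝ)| ≤ |(x 0 : ℝ)| * |(om x w i j : ℝ)| :=
          mul_le_mul_of_nonneg_right h3 (abs_nonneg _)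
      _ ≤ 2 * B * De x w := by linarith
  rw [le_div_iff₀ hc]
  have h5 : B * (|(om x w i j : ℝ)| * c) ≤ B * (2 * De x w) := by
    calc B * (|(om x w i j : ℝ)| * c) = c * B * |(om x w i j : ℝ)| := by ring
      _ ≤ 2 * B * De x w := h4
      _ = B * (2 * De x w) := by ring
  exact le_of_mul_le_mul_left h5 hB0

/-- small minors are excluded by genericity -/
theorem SML_gen {c B : ℝ} {K₀ : ℕ} {x : Fin 6 → ℤ} (hx : Fam c B K₀ x) (w : Fin 6 → ℤ)
    (h0 : 0 < De x w) (hK : ∀ i j, |om x w i j| ≤ (K₀ : ℤ)) : False := by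
  obtain ⟨q, hq⟩ := SML_De_pos h0
  have hq0 : q ≠ 0 := by
    rintro rfl
    exact hq (by simp [om])
  obtain ⟨m, hm0, hmq⟩ := (by decide : ∀ q : Fin 6, ∃ m : Fin 6, m ≠ 0 ∧ m ≠ q) q
  refine hx.gen (fun i => (if i = m then om x w 0 q else 0) + (if i = 0 then om x w q m else 0) +
    (if i = q then om x w m 0 else 0)) ?_ ?_ ?_
  · intro h
    have h1 := congrFun h m
    simp only [if_true, if_neg hm0, if_neg hmq, add_zero, Pi.zero_apply] at h1
    exact hq h1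
  · intro i
    by_cases h1 : i = m
    · subst h1
      simp only [if_true, if_neg hm0, if_neg hmq, add_zero]
      exact hK _ _
    · by_cases h2 : i = 0
      · subst h2
        simp only [if_true, if_neg h1, if_neg (Ne.symm hq0), add_zero, zero_add]
        exact hK _ _
      · by_cases h3 : i = q
        · subst h3
          simp only [if_true, if_neg h1, if_neg h2, zero_add]
          exact hK _ _
        · simp [h1, h2, h3]
  · simp only [add_mul, ite_mul, zero_mul, Finset.sum_add_distrib, Finset.sum_ite_eq',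
      Finset.mem_univ, if_true]
    simp only [om]
    ring

theorem p_SML (h1 : Stmt_P31) (h2 : Stmt_CONT) (h3 : Stmt_GEO2) : Stmt_SML := by
  obtain ⟨C, hC1, hC⟩ := h3
  have hC0 : 0 < C := by linarith
  have hC5 : C ≤ C ^ 5 := by
    calc C = C ^ 1 := (pow_one C).symm
      _ ≤ C ^ 5 := pow_le_pow_right₀ hC1 (by norm_num)
  have hCC : C ≤ 61440 ^ 2 * 32 * C ^ 5 := by
    calc C ≤ C ^ 5 := hC5
      _ = 1 * C ^ 5 := (one_mul _).symm
      _ ≤ 61440 ^ 2 * 32 * C ^ 5 := mul_le_mul_of_nonneg_right (by norm_num) (by positivity)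
  refine ⟨61440 ^ 2 * 32 * C ^ 5, hC1.trans hCC, ?_⟩
  intro R T K₀ K₁ B c M x y hc hc1 hB hM hR hTM hT hK₁ hK₀ hx hy hDe hBal hD
  have hB0 : 0 < B := by linarith
  have hsx : (sn x : ℝ) ≤ 3 * B := (SML_sn hx.bd).trans (by linarith)
  have hsy : (sn y : ℝ) ≤ 3 * B := (SML_sn hy.bd).trans (by linarith)
  obtain ⟨q, hq⟩ := SML_De_pos hDe
  obtain ⟨z₁, z₂, hz1, hz2, hs1, hs2, hxz, hyz, hS, hmin⟩ := hC B x y hB hsx hsy ⟨0, q, hq⟩
  refine ⟨z₁, z₂, hz1, hz2, hs1.trans (mul_le_mul_of_nonneg_right hCC hB0.le),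
    hs2.trans (mul_le_mul_of_nonneg_right hCC hB0.le), hxz, hyz, fun S hS' =>
    (hS S hS').trans (mul_le_mul_of_nonneg_right hCC (by positivity)), ?_⟩
  obtain ⟨hg, a, w, hyw, homw, hDw, hDw0, -⟩ := h2 x y hx.cop hDe
  have hgR : (0 : ℝ) < ct x y := by exact_mod_cast hg
  -- `D` is the size of `x ∧ w`
  have hDd : Dd x y = De x w := by
    unfold Dd
    rw [hDw]
    push_cast
    field_simp
  have hD0 : (0 : ℝ) < De x w := by exact_mod_cast hDw0
  have hom : ∀ i j, |(om x w i j : ℝ)| ≤ 2 * De x w / c := SML_om hc hB hx.bd hx.lo w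
  -- (A)
  have hA : K₁ ≤ De x w := by
    by_contra hlt
    push Not at hlt
    refine SML_gen hx w hDw0 fun i j => ?_
    have h4 : |(om x w i j : ℝ)| ≤ K₀ := by
      refine (hom i j).trans (le_trans ?_ hK₀)
      exact div_le_div_of_nonneg_right (by linarith) hc.le
    exact_mod_cast h4
  -- (B)
  have hwz : In2 z₁ z₂ w := by
    obtain ⟨c₁, a₁, b₁, hc₁, e₁⟩ := hxz
    obtain ⟨c₂, a₂, b₂, hc₂, e₂⟩ := hyz
    refine ⟨c₁ * c₂ * ct x y, c₁ * a₂ - a * c₂ * a₁, c₁ * b₂ - a * c₂ * b₁,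
      mul_ne_zero (mul_ne_zero hc₁ hc₂) (by exact_mod_cast hg.ne'), fun i => ?_⟩
    have e3 := hyw i
    have e4 := e₁ i
    have e5 := e₂ i
    calc c₁ * c₂ * (ct x y : ℤ) * w i = c₁ * (c₂ * (a * x i + ct x y * w i)) -
          a * c₂ * (c₁ * x i) := by ring
      _ = c₁ * (a₂ * z₁ i + b₂ * z₂ i) - a * c₂ * (a₁ * z₁ i + b₁ * z₂ i) := by
          rw [← e3, e4, e5]
      _ = _ := by ring
  obtain ⟨q', hq'⟩ := SML_De_pos hDw0
  obtain ⟨i, j, hij⟩ := hmin x w hxz hwz ⟨0, q', hq'⟩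
  have hBs : (sn z₁ : ℝ) * sn z₂ ≤ 2 * C * De x w / c := by
    refine hij.trans ?_
    calc C * |(om x w i j : ℝ)| ≤ C * (2 * De x w / c) :=
          mul_le_mul_of_nonneg_left (hom i j) hC0.le
      _ = 2 * C * De x w / c := by ring
  -- (C)
  have hP := h1 R T B c M x y hc hc1 hB hM hR hTM hT hx.bd hy.bd hx.lo hy.lo hx.cop hy.cop hDe hBal
  rw [hDd] at hP hD
  have hPP0 : 0 ≤ PP R T x y := by unfold PP; positivity
  obtain ⟨D, hDdef⟩ : ∃ D : ℝ, D = (De x w : ℝ) := ⟨_, rfl⟩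
  rw [← hDdef] at hP hD hBs hA hD0
  have hMD : 0 < M * D := mul_pos hM hD0
  have hu : 1 ≤ 16 * B ^ 2 / (M * D) := by
    rw [le_div_iff₀ hMD]; linarith
  have hP2 : PP R T x y ≤ 61440 * B ^ 2 / (c ^ 2 * M ^ 4 * D ^ 3) := by
    refine hP.trans ?_
    have h4 : (1 + 16 * B ^ 2 / (M * D)) ^ 2 ≤ (2 * (16 * B ^ 2 / (M * D))) ^ 2 :=
      pow_le_pow_left₀ (by positivity) (by linarith) 2
    calc 60 * (1 + 16 * B ^ 2 / (M * D)) ^ 2 / (c ^ 2 * M ^ 2 * B ^ 2 * D)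
        ≤ 60 * (2 * (16 * B ^ 2 / (M * D))) ^ 2 / (c ^ 2 * M ^ 2 * B ^ 2 * D) :=
          div_le_div_of_nonneg_right (mul_le_mul_of_nonneg_left h4 (by norm_num)) (by positivity)
      _ = 61440 * B ^ 2 / (c ^ 2 * M ^ 4 * D ^ 3) := by
          field_simp
          ring
  have hs0 : 0 ≤ (sn z₁ : ℝ) * sn z₂ := by positivity
  have hK0 : 0 ≤ K₁ := by linarith
  calc PP R T x y ^ 2 * (M ^ 8 * K₁ * ((sn z₁ : ℝ) * sn z₂) ^ 5)
      ≤ (61440 * B ^ 2 / (c ^ 2 * M ^ 4 * D ^ 3)) ^ 2 * (M ^ 8 * D * (2 * C * D / c) ^ 5) := by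
        refine mul_le_mul (pow_le_pow_left₀ hPP0 hP2 2) ?_ (by positivity) (by positivity)
        refine mul_le_mul (mul_le_mul_of_nonneg_left hA (by positivity))
          (pow_le_pow_left₀ hs0 hBs 5) (by positivity) (by positivity)
    _ = 61440 ^ 2 * 32 * C ^ 5 * B ^ 4 / c ^ 9 := by
        field_simp
        ring

end Pool.HPQ
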