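import Mathlib

/-! # Hasse principle for almost all intersections of two quadrics in P^5: definitions
(MP_9fb703, note 2846, helper66) -/

set_option autoImplicit false

namespace Pool.HPQ

open Finset

/-! ## Quadratic forms -/

/-- The 21 coefficients of a quadratic form in six variables. -/
abbrev Idx := {q : Fin 6 × Fin 6 // q.1 ≤ q.2}

/-- The quadratic form `Q_a`. -/
def Q {R : Type*} [CommRing R] (a : Idx → R) (x : Fin 6 → R) : R :=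
  ∑ q : Idx, a q * (x q.1.1 * x q.1.2)

/-- The partial derivatives of `Q_a`. -/
def G {R : Type*} [CommRing R] (a : Idx → R) (x : Fin 6 → R) (i : Fin 6) : R :=
  ∑ q : Idx, a q * ((if q.1.1 = i then x q.1.2 else 0) + (if q.1.2 = i then x q.1.1 else 0))

/-- The two by two minors of the Jacobian matrix of `(Q_a, Q_b)`. -/
def mn {R : Type*} [CommRing R] (a b : Idx → R) (x : Fin 6 → R) (i j : Fin 6) : R :=
  G a x i * G b x j - G a x j * G b x i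

/-- Coefficient vectors with entries in `[-A, A]`. -/
noncomputable def Box (A : ℕ) : Finset (Idx → ℤ) := Fintype.piFinset fun _ => Finset.Icc (-(A : ℤ)) A

/-- A nonzero real solution. -/
def RealSol (a b : Idx → ℤ) : Prop :=
  ∃ x : Fin 6 → ℝ, x ≠ 0 ∧ Q (fun q => (a q : ℝ)) x = 0 ∧ Q (fun q => (b q : ℝ)) x = 0

/-- A nonzero `p`-adic solution. -/
def PadicSol (p : ℕ) [Fact p.Prime] (a b : Idx → ℤ) : Prop :=
  ∃ x : Fin 6 → ℚ_[p], x ≠ 0 ∧ Q (fun q => (a q : ℚ_[p])) x = 0 ∧ Q (fun q => (b q : ℚ_[p])) x = 0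

/-- A nonzero integral solution. -/
def IntSol (a b : Idx → ℤ) : Prop :=
  ∃ x : Fin 6 → ℤ, x ≠ 0 ∧ Q a x = 0 ∧ Q b x = 0

/-! ## Weights on `ℤ / R` -/

/-- Fejer weight. -/
noncomputable def Fw (R T : ℕ) [NeZero R] (n : ZMod R) : ℝ :=
  ‖∑ j ∈ range T, (ZMod.stdAddChar ((j : ZMod R) * n) : ℂ)‖ ^ 2 / ((R : ℝ) * T)

open Classical in
/-- The transform of the Fejer weight. -/
noncomputable def Lam (R T : ℕ) (c : ZMod R) : ℝ :=
  (((range T ×ˢ range T).filter fun q => ((q.2 : ℕ) : ZMod R) - ((q.1 : ℕ) : ZMod R) = c).card : ℝ) / T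

open Classical in
/-- Sum of the tents of width `H` around the multiples of `R / W`. -/
noncomputable def Kw (R H W : ℕ) (k : ZMod R) : ℝ :=
  (((range H ×ˢ range H ×ˢ range W).filter fun q =>
    ((q.1 : ℕ) : ZMod R) - ((q.2.1 : ℕ) : ZMod R) + ((q.2.2 * (R / W) : ℕ) : ZMod R) = k).card : ℝ) / H

open Classical in
/-- The local weight. -/
noncomputable def fl (R H W : ℕ) [NeZero R] (m : ZMod R) : ℝ :=
  if ((R / W : ℕ) : ZMod R) * m = 0 then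
    (W : ℝ) * ‖∑ i ∈ range H, (ZMod.stdAddChar ((i : ZMod R) * m) : ℂ)‖ ^ 2 / ((R : ℝ) * H)
  else 0

/-- Reduction modulo `R`. -/
def rd (R : ℕ) {ι : Type*} (x : ι → ℤ) : ι → ZMod R := fun i => (x i : ZMod R)

open Classical in
/-- The number of `x` in `X` with `Q_a(x) = Q_b(x) = 0` modulo `R`. -/
noncomputable def NN (R : ℕ) (X : Finset (Fin 6 → ℤ)) (a b : Idx → ZMod R) : ℝ :=
  ∑ x ∈ X, if Q a (rd R x) = 0 ∧ Q b (rd R x) = 0 then 1 else 0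

/-- Its local model. -/
noncomputable def NL (R H W : ℕ) [NeZero R] (X : Finset (Fin 6 → ℤ)) (a b : Idx → ZMod R) : ℝ :=
  ∑ x ∈ X, fl R H W (Q a (rd R x)) * fl R H W (Q b (rd R x))

/-! ## Pairs of points -/

open Classical in
/-- Pairs `(k, k')` in `[0, R)` with `k x_i x_j - k' y_i y_j` within `T` of a multiple of `R`. -/
noncomputable def Sol (R T : ℕ) (x y : Fin 6 → ℤ) : Finset (ℤ × ℤ) :=
  (Finset.Ico (0 : ℤ) R ×ˢ Finset.Ico (0 : ℤ) R).filter fun s =>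
    ∀ i j : Fin 6, ∃ n : ℤ, |s.1 * (x i * x j) - s.2 * (y i * y j) - R * n| < T

/-- Rows of nearest integers. -/
noncomputable def row (R : ℕ) (x y : Fin 6 → ℤ) (i : Fin 6) (s : ℤ × ℤ) : Fin 6 → ℤ :=
  fun j => round (((s.1 * (x i * x j) - s.2 * (y i * y j) : ℤ) : ℝ) / R)

/-- `P(x, y)`. -/
noncomputable def PP (R T : ℕ) (x y : Fin 6 → ℤ) : ℝ := ((Sol R T x y).card : ℝ) / (R : ℝ) ^ 2

/-- `P#(x, y)`. -/
noncomputable def PS (R T H W : ℕ) (x y : Fin 6 → ℤ) : ℝ :=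
  (∑ s ∈ Sol R T x y, (1 - Kw R H W ((s.2 : ℤ) : ZMod R))) / (R : ℝ) ^ 2

/-- The family of points. -/
structure Fam (c B : ℝ) (K₀ : ℕ) (x : Fin 6 → ℤ) : Prop where
  bd : ∀ i, |(x i : ℝ)| ≤ B
  lo : c * B ≤ (x 0 : ℝ)
  cop : IsCoprime (x 0) (x 1)
  gen : ∀ l : Fin 6 → ℤ, l ≠ 0 → (∀ i, |l i| ≤ (K₀ : ℤ)) → ∑ i, l i * x i ≠ 0

/-- Minors of two vectors. -/
def om (x y : Fin 6 → ℤ) (i j : Fin 6) : ℤ := x i * y j - x j * y i

/-- Minors of three vectors. -/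
def om3 (x y z : Fin 6 → ℤ) (i j k : Fin 6) : ℤ :=
  x i * (y j * z k - y k * z j) - x j * (y i * z k - y k * z i) + x k * (y i * z j - y j * z i)

/-- Largest minor with the coordinate `0`. -/
def De (x y : Fin 6 → ℤ) : ℕ := univ.sup fun q => (om x y 0 q).natAbs

/-- The content of `x ∧ y`. -/
def ct (x y : Fin 6 → ℤ) : ℕ := univ.gcd fun q : Fin 6 × Fin 6 => (om x y q.1 q.2).natAbs

/-- `D = Δ₀ / g`. -/
noncomputable def Dd (x y : Fin 6 → ℤ) : ℝ := (De x y : ℝ) / ct x y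

/-- Sup norm of an integer vector. -/
def sn (x : Fin 6 → ℤ) : ℕ := univ.sup fun i => (x i).natAbs

/-- `n` is a rational combination of `x` and `y`. -/
def In2 (x y n : Fin 6 → ℤ) : Prop :=
  ∃ c a b : ℤ, c ≠ 0 ∧ ∀ i, c * n i = a * x i + b * y i

/-- `m` is a rational combination of `x`, `y` and `n`. -/
def In3 (x y n m : Fin 6 → ℤ) : Prop :=
  ∃ c a b d : ℤ, c ≠ 0 ∧ ∀ i, c * m i = a * x i + b * y i + d * n i

/-- `n` is within `1 / M` of a real combination of `x` and `y`. -/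
def Near (M : ℝ) (x y n : Fin 6 → ℤ) : Prop :=
  ∃ s t : ℝ, ∀ j, |s * x j - t * y j - n j| < 1 / M

/-- Balanced pairs. -/
def Bal (R T : ℕ) (x y : Fin 6 → ℤ) : Prop :=
  ∀ s ∈ Sol R T x y, In2 x y (row R x y 0 s) ∧ In2 x y (row R x y 1 s)

/-! ## The twisted family -/

/-- `r · x`. -/
def dt (r x : Fin 6 → ℤ) : ℤ := ∑ i, r i * x i

/-- The twist `(r · x, x₁, ..., x₅)`. -/
def tw (r x : Fin 6 → ℤ) : Fin 6 → ℤ := fun i => if i = 0 then dt r x else x i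

/-- `|r|₁`. -/
def n1 (r : Fin 6 → ℤ) : ℕ := ∑ i, (r i).natAbs

open Classical in
/-- The set of points used for the pair of forms. -/
noncomputable def XX (r : Fin 6 → ℤ) (c : ℝ) (B K₀ : ℕ) : Finset (Fin 6 → ℤ) :=
  (Fintype.piFinset fun _ => Finset.Icc (-(B : ℤ)) B).filter fun x =>
    c * B ≤ (dt r x : ℝ) ∧ IsCoprime (dt r x) (x 1) ∧
      ∀ l : Fin 6 → ℤ, l ≠ 0 → (∀ i, |l i| ≤ (K₀ : ℤ)) → ∑ i, l i * tw r x i ≠ 0

/-- The vectors `r = t + P₀ e_s` (`r = t` for `s = 0`). -/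
def rv (P₀ : ℕ) (t : Fin 6 → ℤ) (s : Fin 6) : Fin 6 → ℤ :=
  fun i => t i + if s ≠ 0 ∧ i = s then (P₀ : ℤ) else 0

/-- Admissible vectors `t`. -/
def Adm (P₀ : ℕ) (t : Fin 6 → ℤ) : Prop := t 0 = 1 ∧ ∀ i, 0 ≤ t i ∧ t i ≤ P₀

/-! ## Local solutions -/

/-- Residues. -/
noncomputable def cs (N : ℕ) (ι : Type) [Fintype ι] [DecidableEq ι] : Finset (ι → ℤ) :=
  Fintype.piFinset fun _ => Finset.Ico (0 : ℤ) N

open Classical in
/-- Good solutions modulo `N`. -/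
noncomputable def gg (N : ℕ) (r : Fin 6 → ℤ) (a b : Idx → ℤ) : Finset (Fin 6 → ℤ) :=
  (cs N (Fin 6)).filter fun x =>
    (N : ℤ) ∣ Q a x ∧ (N : ℤ) ∣ Q b x ∧ Int.gcd (Int.gcd (dt r x) (x 1)) N = 1

/-- `p`-adically singular pairs. -/
def SingP (p e : ℕ) (a b : Idx → ℤ) : Prop :=
  ∃ x : Fin 6 → ℤ, (∃ i, ¬ (p : ℤ) ∣ x i) ∧ ((p ^ e : ℕ) : ℤ) ∣ Q a x ∧ ((p ^ e : ℕ) : ℤ) ∣ Q b x ∧
    ∀ i j, ((p ^ e : ℕ) : ℤ) ∣ mn a b x i j

/-- Pairs that are nearly singular over the reals. -/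
def RSing (δ : ℝ) (A : ℕ) (a b : Idx → ℤ) : Prop :=
  ∃ x : Fin 6 → ℝ, (∀ i, |x i| ≤ 1) ∧ (∃ i, |x i| = 1) ∧
    Q (fun q => (a q : ℝ)) x = 0 ∧ Q (fun q => (b q : ℝ)) x = 0 ∧
    ∀ i j, |mn (fun q => (a q : ℝ)) (fun q => (b q : ℝ)) x i j| ≤ δ * (A : ℝ) ^ 2

/-- The modulus `W = ∏_{p ≤ w} p ^ w`. -/
def Ww (w : ℕ) : ℕ := ∏ p ∈ (range (w + 1)).filter Nat.Prime, p ^ w

end Pool.HPQ
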