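import Pool.Agent.Work.MP_9fb703_hp.Defs

/-! # Hasse principle for almost all intersections of two quadrics in P^5: the blocks
(MP_9fb703, note 2846, helper66)

Block `X` lives in `B_X.lean` (import this file, namespace `Pool.HPQ`) and proves
`theorem p_X : Stmt_X` or `theorem p_X (h1 : Stmt_Y) ... : Stmt_X` with the statements of the
column `uses` as hypotheses, in that order. -/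

set_option autoImplicit false

namespace Pool.HPQ

open Finset

/-! ## Part 1: weights -/

/-- EXP: a geometric sum of phases within half a turn. -/
def Stmt_EXP : Prop :=
  ∀ (T : ℕ) (θ : ℝ), |θ| * T ≤ 1 / 2 →
    2 * (T : ℝ) / Real.pi ≤ ‖∑ j ∈ range T, Complex.exp (2 * Real.pi * Complex.I * (j * θ))‖

/-- FLB1: the Fejer weight on `[-A, A]`. -/
def Stmt_FLB1 : Prop :=
  ∀ (R T A : ℕ) [NeZero R] (n : ℤ), 0 < A → R = 2 * A * T → |n| ≤ (A : ℤ) →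
    2 / (Real.pi ^ 2 * A) ≤ Fw R T (n : ZMod R)

/-- FLB2: the local weight near zero. -/
def Stmt_FLB2 : Prop :=
  ∀ (R H W m₀ : ℕ) [NeZero R] (n : ℤ), 0 < m₀ → 0 < W → R = 2 * m₀ * H → W ∣ R → (W : ℤ) ∣ n →
    |n| ≤ (m₀ : ℤ) → 2 * W / (Real.pi ^ 2 * m₀) ≤ fl R H W (n : ZMod R)

/-- FW1: transform of the Fejer weight. -/
def Stmt_FW1 : Prop :=
  ∀ (R T : ℕ) [NeZero R] (c : ZMod R), 0 < T → T ≤ R →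
    (∑ n : ZMod R, (Fw R T n : ℂ) * ZMod.stdAddChar (c * n) = (Lam R T c : ℂ)) ∧
    0 ≤ Lam R T c ∧ Lam R T c ≤ 1 ∧
    (Lam R T c ≠ 0 → ∃ z : ℤ, (z : ZMod R) = c ∧ |z| < (T : ℤ))

/-- FW2: the local weight and its transform. -/
def Stmt_FW2 : Prop :=
  ∀ (R H W : ℕ) [NeZero R], 0 < H → 0 < W → W ∣ R → 2 * H * W ≤ R →
    (∀ k : ZMod R, 0 ≤ Kw R H W k ∧ Kw R H W k ≤ 1) ∧
    ∀ m : ZMod R, (fl R H W m : ℂ) =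
      (1 / (R : ℂ)) * ∑ k : ZMod R, (Kw R H W k : ℂ) * ZMod.stdAddChar (k * m)

/-- VAR: the second moment. -/
def Stmt_VAR : Prop :=
  ∀ (R T H W : ℕ) [NeZero R], 0 < T → T ≤ R → 0 < H → 0 < W → W ∣ R → 2 * H * W ≤ R →
    ∀ X : Finset (Fin 6 → ℤ),
    ∑ a : Idx → ZMod R, ∑ b : Idx → ZMod R, (∏ q, Fw R T (a q)) * (∏ q, Fw R T (b q)) *
        (NN R X a b - NL R H W X a b) ^ 2 ≤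
      2 * ∑ x ∈ X, ∑ y ∈ X, PP R T x y * PS R T H W x y

open Classical in
/-- CHEB: the number of pairs without a zero in `X` but with a large local model. -/
def Stmt_CHEB : Prop :=
  ∀ (R T H W A : ℕ) [NeZero R], 0 < A → R = 2 * A * T → 2 ≤ T → 0 < H → 0 < W → W ∣ R →
    2 * H * W ≤ R → ∀ (X : Finset (Fin 6 → ℤ)) (L : ℝ), 0 ≤ L →
    ((((Box A) ×ˢ (Box A)).filter fun p => NN R X (rd R p.1) (rd R p.2) = 0 ∧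
        L ≤ NL R H W X (rd R p.1) (rd R p.2)).card : ℝ) * L ^ 2 ≤
      (Real.pi ^ 2 * A / 2) ^ 42 * (2 * ∑ x ∈ X, ∑ y ∈ X, PP R T x y * PS R T H W x y)

/-- KB: lower bound for `K` near the multiples of `R / W`. -/
def Stmt_KB : Prop :=
  ∀ (R H W g : ℕ) [NeZero R] (k m d : ℤ), 0 < H → 0 < g → g ∣ W → W ∣ R → 2 * H * W ≤ R →
    g * k = m - R * d → 1 - Kw R H W (k : ZMod R) ≤ |(m : ℝ)| / (g * H)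

/-! ## Part 2: pairs of points -/

/-- LAT2: lattice points in a parallelogram. -/
def Stmt_LAT2 : Prop :=
  ∀ (u₁ v₁ u₂ v₂ : ℤ) (τ : ℝ), u₁ * v₂ - u₂ * v₁ ≠ 0 → |((u₁ * v₂ - u₂ * v₁ : ℤ) : ℝ)| ≤ τ →
    |(v₁ : ℝ)| ≤ τ → |(v₂ : ℝ)| ≤ τ → ∀ S : Finset (ℤ × ℤ),
    (∀ p ∈ S, |((u₁ * p.1 - v₁ * p.2 : ℤ) : ℝ)| < τ ∧ |((u₂ * p.1 - v₂ * p.2 : ℤ) : ℝ)| < τ) →
    (S.card : ℝ) ≤ 15 * τ ^ 2 / |((u₁ * v₂ - u₂ * v₁ : ℤ) : ℝ)|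

/-- ROW: the rows are good approximations and the matrix of the rows is symmetric. -/
def Stmt_ROW : Prop :=
  ∀ (R T : ℕ) (x y : Fin 6 → ℤ), 0 < R → ∀ s ∈ Sol R T x y, ∀ i j : Fin 6,
    |s.1 * (x i * x j) - s.2 * (y i * y j) - R * row R x y i s j| < (T : ℤ) ∧
      row R x y i s j = row R x y j s i

/-- FIB: the number of solutions in terms of the number of classes of rows. -/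
def Stmt_FIB : Prop :=
  ∀ (R T : ℕ) (B c M : ℝ) (x y : Fin 6 → ℤ), 0 < c → c ≤ 1 → 1 ≤ B → 0 < M → 0 < R →
    (T : ℝ) * M = R → 2 * B ^ 4 ≤ T →
    (∀ i, |(x i : ℝ)| ≤ B) → (∀ i, |(y i : ℝ)| ≤ B) → c * B ≤ (x 0 : ℝ) → c * B ≤ (y 0 : ℝ) →
    IsCoprime (x 0) (x 1) → IsCoprime (y 0) (y 1) → 0 < De x y →
    ∀ (Nc : ℕ) (cl : ℤ × ℤ → ℕ), (∀ s ∈ Sol R T x y, cl s < Nc) →
    (∀ s ∈ Sol R T x y, ∀ s' ∈ Sol R T x y, cl s = cl s' →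
      (∃ p q : ℤ, ∀ j, row R x y 0 s j - row R x y 0 s' j = p * x j - q * y j) ∧
      (∃ p q : ℤ, ∀ j, row R x y 1 s j - row R x y 1 s' j = p * x j - q * y j)) →
    ((Sol R T x y).card : ℝ) ≤
      Nc * (1 + 16 * B ^ 2 / (M * De x y)) * (60 * T ^ 2 / (c ^ 2 * B ^ 2 * De x y))

/-- CONT: the structure of `ℤ x + ℤ y` in its saturation. -/
def Stmt_CONT : Prop :=
  ∀ x y : Fin 6 → ℤ, IsCoprime (x 0) (x 1) → 0 < De x y →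
    0 < ct x y ∧ ∃ (a : ℤ) (w : Fin 6 → ℤ),
      (∀ i, y i = a * x i + ct x y * w i) ∧
      (∀ i j, om x y i j = ct x y * om x w i j) ∧
      (De x y = ct x y * De x w) ∧ 0 < De x w ∧
      (∀ n, In2 x y n → ∃ α β : ℤ, ∀ i, n i = α * x i + β * w i)

/-- P31: balanced pairs. -/
def Stmt_P31 : Prop :=
  ∀ (R T : ℕ) (B c M : ℝ) (x y : Fin 6 → ℤ), 0 < c → c ≤ 1 → 1 ≤ B → 0 < M → 0 < R →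
    (T : ℝ) * M = R → 2 * B ^ 4 ≤ T →
    (∀ i, |(x i : ℝ)| ≤ B) → (∀ i, |(y i : ℝ)| ≤ B) → c * B ≤ (x 0 : ℝ) → c * B ≤ (y 0 : ℝ) →
    IsCoprime (x 0) (x 1) → IsCoprime (y 0) (y 1) → 0 < De x y → Bal R T x y →
    PP R T x y ≤ 60 * (1 + 16 * B ^ 2 / (M * Dd x y)) ^ 2 / (c ^ 2 * M ^ 2 * B ^ 2 * Dd x y)

/-- P32: balanced pairs with large `D`. -/
def Stmt_P32 : Prop :=
  ∀ (R T : ℕ) (B c M : ℝ) (x y : Fin 6 → ℤ), 0 < c → c ≤ 1 → 1 ≤ B → 0 < M → 0 < R →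
    (T : ℝ) * M = R →
    (∀ i, |(x i : ℝ)| ≤ B) → (∀ i, |(y i : ℝ)| ≤ B) → c * B ≤ (x 0 : ℝ) → c * B ≤ (y 0 : ℝ) →
    IsCoprime (x 0) (x 1) → IsCoprime (y 0) (y 1) → 0 < De x y → Bal R T x y →
    4 * B ^ 2 < M * Dd x y →
    ∀ s ∈ Sol R T x y, ∃ m d : ℤ, ct x y * s.2 = m - R * d ∧ |(m : ℝ)| ≤ 2 * T / (c * Dd x y)

/-- DIAG: the diagonal. -/
def Stmt_DIAG : Prop :=
  ∀ (R T K₀ : ℕ) (B c M : ℝ) (x : Fin 6 → ℤ), 0 < c → c ≤ 1 → 1 ≤ B → 0 < R →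
    (T : ℝ) * M = R → 2 * B ^ 4 ≤ T → 2 / c ≤ M → 2 * B / M ≤ K₀ → Fam c B K₀ x →
    PP R T x x ≤ 3 / (c ^ 2 * M * B ^ 2)

/-- RANK: at most three dimensions. -/
def Stmt_RANK : Prop :=
  ∀ (B M : ℝ) (K₀ : ℕ) (x y n n' : Fin 6 → ℤ), 1 ≤ B → 0 < M → 24 * (B / M) ^ 2 ≤ K₀ →
    (∀ i, |(x i : ℝ)| ≤ B) → (∀ i, |(y i : ℝ)| ≤ B) →
    (∀ l : Fin 6 → ℤ, l ≠ 0 → (∀ i, |l i| ≤ (K₀ : ℤ)) → ∑ i, l i * x i ≠ 0) →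
    0 < De x y → ¬ In2 x y n → Near M x y n → Near M x y n' → In3 x y n n'

/-- GEO2: rank two. -/
def Stmt_GEO2 : Prop :=
  ∃ C : ℝ, 1 ≤ C ∧ ∀ (B : ℝ) (u v : Fin 6 → ℤ), 1 ≤ B → (sn u : ℝ) ≤ 3 * B →
    (sn v : ℝ) ≤ 3 * B → (∃ i j, om u v i j ≠ 0) →
    ∃ z₁ z₂ : Fin 6 → ℤ, z₁ ≠ 0 ∧ z₂ ≠ 0 ∧ (sn z₁ : ℝ) ≤ C * B ∧ (sn z₂ : ℝ) ≤ C * B ∧
      In2 z₁ z₂ u ∧ In2 z₁ z₂ v ∧
      (∀ S : Finset (Fin 6 → ℤ), (∀ n ∈ S, (sn n : ℝ) ≤ B ∧ In2 z₁ z₂ n) →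
        (S.card : ℝ) * (sn z₁ * sn z₂) ≤ C * B ^ 2) ∧
      (∀ p q : Fin 6 → ℤ, In2 z₁ z₂ p → In2 z₁ z₂ q → (∃ i j, om p q i j ≠ 0) →
        ∃ i j, ((sn z₁ : ℝ) * sn z₂) ≤ C * |(om p q i j : ℝ)|)

/-- GEO3: rank three. -/
def Stmt_GEO3 : Prop :=
  ∃ C : ℝ, 1 ≤ C ∧ ∀ (B : ℝ) (u v m : Fin 6 → ℤ), 1 ≤ B → (sn u : ℝ) ≤ 3 * B →
    (sn v : ℝ) ≤ 3 * B → (sn m : ℝ) ≤ 3 * B → (∃ i j k, om3 u v m i j k ≠ 0) →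
    ∃ z₁ z₂ z₃ : Fin 6 → ℤ, z₁ ≠ 0 ∧ z₂ ≠ 0 ∧ z₃ ≠ 0 ∧ (sn z₁ : ℝ) ≤ C * B ∧
      (sn z₂ : ℝ) ≤ C * B ∧ (sn z₃ : ℝ) ≤ C * B ∧
      In3 z₁ z₂ z₃ u ∧ In3 z₁ z₂ z₃ v ∧ In3 z₁ z₂ z₃ m ∧
      (∀ S : Finset (Fin 6 → ℤ), (∀ n ∈ S, (sn n : ℝ) ≤ B ∧ In3 z₁ z₂ z₃ n) →
        (S.card : ℝ) * (sn z₁ * sn z₂ * sn z₃) ≤ C * B ^ 3) ∧
      (∀ p q r : Fin 6 → ℤ, In3 z₁ z₂ z₃ p → In3 z₁ z₂ z₃ q → In3 z₁ z₂ z₃ r →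
        (∃ i j k, om3 p q r i j k ≠ 0) →
        ∃ i j k, ((sn z₁ : ℝ) * sn z₂ * sn z₃) ≤ C * |(om3 p q r i j k : ℝ)|)

/-- UNB: unbalanced pairs. -/
def Stmt_UNB : Prop :=
  ∃ C : ℝ, 1 ≤ C ∧ ∀ (R T K₀ : ℕ) (B c M : ℝ) (x y : Fin 6 → ℤ), 0 < c → c ≤ 1 → 1 ≤ B →
    16 ≤ M → 0 < R → (T : ℝ) * M = R → 2 * B ^ 4 ≤ T → 24 * (B / M) ^ 2 ≤ K₀ →
    Fam c B K₀ x → Fam c B K₀ y → 0 < De x y → ¬ Bal R T x y →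
    ∃ z₁ z₂ z₃ : Fin 6 → ℤ, z₁ ≠ 0 ∧ z₂ ≠ 0 ∧ z₃ ≠ 0 ∧ (sn z₁ : ℝ) ≤ C * B ∧
      (sn z₂ : ℝ) ≤ C * B ∧ (sn z₃ : ℝ) ≤ C * B ∧ In3 z₁ z₂ z₃ x ∧ In3 z₁ z₂ z₃ y ∧
      (∀ S : Finset (Fin 6 → ℤ), (∀ n ∈ S, (sn n : ℝ) ≤ B ∧ In3 z₁ z₂ z₃ n) →
        (S.card : ℝ) * (sn z₁ * sn z₂ * sn z₃) ≤ C * B ^ 3) ∧
      PP R T x y * (M ^ 4 * (sn z₁ * sn z₂ * sn z₃) ^ 2) ≤ C / c ^ 4

/-- SML: balanced pairs with small `D`. -/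
def Stmt_SML : Prop :=
  ∃ C : ℝ, 1 ≤ C ∧ ∀ (R T K₀ : ℕ) (K₁ B c M : ℝ) (x y : Fin 6 → ℤ), 0 < c → c ≤ 1 → 1 ≤ B →
    0 < M → 0 < R → (T : ℝ) * M = R → 2 * B ^ 4 ≤ T → 1 ≤ K₁ → 2 * K₁ / c ≤ K₀ →
    Fam c B K₀ x → Fam c B K₀ y → 0 < De x y → Bal R T x y → M * Dd x y < 16 * B ^ 2 →
    ∃ z₁ z₂ : Fin 6 → ℤ, z₁ ≠ 0 ∧ z₂ ≠ 0 ∧ (sn z₁ : ℝ) ≤ C * B ∧ (sn z₂ : ℝ) ≤ C * B ∧
      In2 z₁ z₂ x ∧ In2 z₁ z₂ y ∧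
      (∀ S : Finset (Fin 6 → ℤ), (∀ n ∈ S, (sn n : ℝ) ≤ B ∧ In2 z₁ z₂ n) →
        (S.card : ℝ) * (sn z₁ * sn z₂) ≤ C * B ^ 2) ∧
      PP R T x y ^ 2 * (M ^ 8 * K₁ * (sn z₁ * sn z₂) ^ 5) ≤ C * B ^ 4 / c ^ 9

/-- SZ7: a convergent sum. -/
def Stmt_SZ7 : Prop :=
  ∃ C : ℝ, 1 ≤ C ∧ ∀ Z : Finset (Fin 6 → ℤ), (∀ z ∈ Z, z ≠ 0) → ∑ z ∈ Z, 1 / (sn z : ℝ) ^ 7 ≤ C

/-- SZ6: an almost convergent sum. -/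
def Stmt_SZ6 : Prop :=
  ∃ C : ℝ, 1 ≤ C ∧ ∀ (Y : ℝ) (Z : Finset (Fin 6 → ℤ)), 1 ≤ Y → (∀ z ∈ Z, z ≠ 0 ∧ (sn z : ℝ) ≤ Y) →
    ∑ z ∈ Z, 1 / (sn z : ℝ) ^ 6 ≤ C * √Y

open Classical in
/-- SU: the sum over the unbalanced pairs. -/
def Stmt_SU : Prop :=
  ∃ C : ℝ, 1 ≤ C ∧ ∀ (R T K₀ : ℕ) (B c M : ℝ) (X : Finset (Fin 6 → ℤ)), 0 < c → c ≤ 1 → 1 ≤ B →
    16 ≤ M → 0 < R → (T : ℝ) * M = R → 2 * B ^ 4 ≤ T → 24 * (B / M) ^ 2 ≤ K₀ →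
    (∀ x ∈ X, Fam c B K₀ x) →
    ∑ p ∈ (X ×ˢ X).filter (fun p => 0 < De p.1 p.2 ∧ ¬ Bal R T p.1 p.2), PP R T p.1 p.2 ^ 2 ≤
      C / c ^ 8 * (B / M) ^ 8 / √B

open Classical in
/-- SS: the sum over the balanced pairs with small `D`. -/
def Stmt_SS : Prop :=
  ∃ C : ℝ, 1 ≤ C ∧ ∀ (R T K₀ : ℕ) (K₁ B c M : ℝ) (X : Finset (Fin 6 → ℤ)), 0 < c → c ≤ 1 →
    1 ≤ B → 0 < M → 0 < R → (T : ℝ) * M = R → 2 * B ^ 4 ≤ T → 1 ≤ K₁ → 2 * K₁ / c ≤ K₀ →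
    (∀ x ∈ X, Fam c B K₀ x) →
    ∑ p ∈ (X ×ˢ X).filter (fun p => 0 < De p.1 p.2 ∧ Bal R T p.1 p.2 ∧
        M * Dd p.1 p.2 < 16 * B ^ 2), PP R T p.1 p.2 ^ 2 ≤
      C / c ^ 9 * (B / M) ^ 8 / K₁

/-- CNT: the number of `y` with given content and given size of the minors. -/
def Stmt_CNT : Prop :=
  ∀ (B ρ : ℝ) (g : ℕ) (x : Fin 6 → ℤ) (S : Finset (Fin 6 → ℤ)), 1 ≤ g → (g : ℝ) ≤ B →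
    (g : ℝ) ≤ ρ → IsCoprime (x 0) (x 1) → 0 < x 0 →
    (∀ y ∈ S, ct x y = g ∧ |(y 0 : ℝ)| ≤ B ∧ ∀ q, |(om x y 0 q : ℝ)| ≤ ρ * x 0) →
    (S.card : ℝ) ≤ 729 * B * ρ ^ 5 / (g : ℝ) ^ 5

open Classical in
/-- SM: the main sum. -/
def Stmt_SM : Prop :=
  ∃ C : ℝ, 1 ≤ C ∧ ∀ (R T H W m₀ K₀ G₀ : ℕ) [NeZero R] (B c M : ℝ) (X : Finset (Fin 6 → ℤ)),
    0 < c → c ≤ 1 → 1 ≤ M → M ≤ B → (T : ℝ) * M = R → 2 * B ^ 4 ≤ T → R = 2 * m₀ * H →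
    0 < H → 0 < W → W ∣ R → 2 * H * W ≤ R → 1 ≤ G₀ → (∀ g, 1 ≤ g → g ≤ G₀ → g ∣ W) →
    (∀ x ∈ X, Fam c B K₀ x) →
    ∑ p ∈ (X ×ˢ X).filter (fun p => 0 < De p.1 p.2 ∧ Bal R T p.1 p.2 ∧
        16 * B ^ 2 ≤ M * Dd p.1 p.2), PP R T p.1 p.2 * PS R T H W p.1 p.2 ≤
      C / c ^ 10 * (B / M) ^ 4 * (1 / G₀ + m₀ / (M * B ^ 2))

/-- GEOM: the sum over all pairs. -/
def Stmt_GEOM : Prop :=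
  ∃ C : ℝ, 1 ≤ C ∧ ∀ (R T H W m₀ K₀ G₀ : ℕ) [NeZero R] (K₁ B c M : ℝ)
    (X : Finset (Fin 6 → ℤ)),
    0 < c → c ≤ 1 → 16 / c ≤ M → M ≤ B → (T : ℝ) * M = R → 2 * B ^ 4 ≤ T → R = 2 * m₀ * H →
    0 < H → 0 < W → W ∣ R → 2 * H * W ≤ R → 1 ≤ G₀ → (∀ g, 1 ≤ g → g ≤ G₀ → g ∣ W) →
    1 ≤ K₁ → 2 * K₁ / c ≤ K₀ → 24 * (B / M) ^ 2 ≤ K₀ → (∀ x ∈ X, Fam c B K₀ x) →
    ∑ x ∈ X, ∑ y ∈ X, PP R T x y * PS R T H W x y ≤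
      C / c ^ 10 * ((B / M) ^ 2 + (B / M) ^ 4 * (1 / G₀ + m₀ / (M * B ^ 2)) +
        (B / M) ^ 8 / K₁ + (B / M) ^ 8 / √B)

/-- TWI: the sum over the twisted family. -/
def Stmt_TWI : Prop :=
  ∃ C : ℝ, 1 ≤ C ∧ ∀ (R T H W m₀ K₀ G₀ A B : ℕ) [NeZero R] (K₁ c : ℝ) (r : Fin 6 → ℤ),
    r 0 = 1 → 0 < c → c ≤ 1 → 0 < A → 2 * A ≤ B → R = 2 * A * T → R = 2 * m₀ * H →
    0 < H → 0 < W → W ∣ R → 2 * H * W ≤ R → 1 ≤ G₀ → (∀ g, 1 ≤ g → g ≤ G₀ → g ∣ W) →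
    8 * (n1 r : ℝ) ^ 3 / c ≤ A → 2 * (n1 r * B) ^ 4 ≤ T →
    1 ≤ K₁ → 2 * K₁ * n1 r / c ≤ K₀ → 24 * ((n1 r : ℝ) ^ 3 * B / (2 * A)) ^ 2 ≤ K₀ →
    ∑ x ∈ XX r c B K₀, ∑ y ∈ XX r c B K₀, PP R T x y * PS R T H W x y ≤
      C * ((n1 r : ℝ) / c) ^ 10 * (n1 r : ℝ) ^ 24 *
        (((B : ℝ) / A) ^ 2 + ((B : ℝ) / A) ^ 4 * (1 / G₀ + m₀ / (A * (B : ℝ) ^ 2)) +
        ((B : ℝ) / A) ^ 8 / K₁ + ((B : ℝ) / A) ^ 8 / √B)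

/-! ## Part 3: the finite places -/

open Classical in
/-- SNGP: singular pairs modulo a prime power. -/
def Stmt_SNGP : Prop :=
  ∀ (p e : ℕ), p.Prime → 1 ≤ e →
    (((cs (p ^ e) Idx ×ˢ cs (p ^ e) Idx).filter fun z => SingP p e z.1 z.2).card : ℝ) ≤
      12 / (p : ℝ) ^ e * ((p : ℝ) ^ e) ^ 42

open Classical in
/-- HENS: solutions modulo high powers of `p`. -/
def Stmt_HENS : Prop :=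
  ∀ (p e k : ℕ) [Fact p.Prime] (a b : Idx → ℤ), 1 ≤ e → 2 * e ≤ k → PadicSol p a b →
    ¬ SingP p e a b → ∃ m : Fin 6, p ^ (4 * (k - 2 * e)) ≤
      ((cs (p ^ k) (Fin 6)).filter fun x => ((p ^ k : ℕ) : ℤ) ∣ Q a x ∧ ((p ^ k : ℕ) : ℤ) ∣ Q b x ∧
        ¬ (p : ℤ) ∣ x 0 + (if m = 0 then 0 else x m)).card

open Classical in
/-- SIG2: few pairs have few solutions modulo `N`, if `N` has no small prime factor. -/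
def Stmt_SIG2 : Prop :=
  ∀ (w₀ N : ℕ) (r : Fin 6 → ℤ), 1 ≤ w₀ → 1 ≤ N → (∀ p, p.Prime → p ∣ N → w₀ < p) → r 0 = 1 →
    (((cs N Idx ×ˢ cs N Idx).filter fun z => 2 * (gg N r z.1 z.2).card < N ^ 4).card : ℝ) ≤
      16 / w₀ * (N : ℝ) ^ 42

/-- MULT: multiplicativity. -/
def Stmt_MULT : Prop :=
  ∀ (m n : ℕ) (r : Fin 6 → ℤ) (a b : Idx → ℤ), 0 < m → 0 < n → m.Coprime n →
    (gg (m * n) r a b).card = (gg m r a b).card * (gg n r a b).card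

/-- GRED: `gg` depends on the forms modulo `N` and on `r` modulo the primes dividing `N`. -/
def Stmt_GRED : Prop :=
  ∀ (N : ℕ) (r r' : Fin 6 → ℤ) (a b a' b' : Idx → ℤ), 0 < N →
    (∀ q, (N : ℤ) ∣ a q - a' q) → (∀ q, (N : ℤ) ∣ b q - b' q) →
    (∀ p : ℕ, p.Prime → p ∣ N → ∀ i, (p : ℤ) ∣ r i - r' i) → gg N r a b = gg N r' a' b'

/-- PAD1: the small primes. -/
def Stmt_PAD1 : Prop :=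
  ∀ (w₀ e k : ℕ) (a b : Idx → ℤ), 1 ≤ e → 2 * e ≤ k →
    (∀ (p : ℕ) [Fact p.Prime], p ≤ w₀ → PadicSol p a b ∧ ¬ SingP p e a b) →
    ∃ t : Fin 6 → ℤ, Adm (∏ p ∈ (range (w₀ + 1)).filter Nat.Prime, p) t ∧
      (∏ p ∈ (range (w₀ + 1)).filter Nat.Prime, p ^ k) ^ 4 ≤
        (∏ p ∈ (range (w₀ + 1)).filter Nat.Prime, p ^ (8 * e)) *
        (gg (∏ p ∈ (range (w₀ + 1)).filter Nat.Prime, p ^ k) t a b).card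

open Classical in
/-- BOXM: pairs in the box in given residue classes. -/
def Stmt_BOXM : Prop :=
  ∀ (N A : ℕ) (S : Finset ((Idx → ℤ) × (Idx → ℤ))), 1 ≤ N → 42 * N ≤ A →
    S ⊆ cs N Idx ×ˢ cs N Idx →
    (((Box A ×ˢ Box A).filter fun z =>
        ((fun q => z.1 q % (N : ℤ)), (fun q => z.2 q % (N : ℤ))) ∈ S).card : ℝ) * (N : ℝ) ^ 42 ≤
      3 * S.card * (2 * (A : ℝ) + 1) ^ 42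

open Classical in
/-- PADIC: the finite places. -/
def Stmt_PADIC : Prop :=
  ∀ ε : ℝ, 0 < ε → ∃ (P₀ : ℕ) (κ : ℝ) (w₁ : ℕ), 0 < P₀ ∧ 0 < κ ∧ ∀ w, w₁ ≤ w → ∃ A₁ : ℕ,
    ∀ A, A₁ ≤ A → ∃ t : (Idx → ℤ) → (Idx → ℤ) → (Fin 6 → ℤ), (∀ a b, Adm P₀ (t a b)) ∧
      (((Box A ×ˢ Box A).filter fun z => (∀ (p : ℕ) [Fact p.Prime], PadicSol p z.1 z.2) ∧
        ∃ s : Fin 6, ((gg (Ww w) (rv P₀ (t z.1 z.2) s) z.1 z.2).card : ℝ) <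
          κ * (Ww w : ℝ) ^ 4).card : ℝ) ≤ ε * (2 * (A : ℝ) + 1) ^ 42

/-! ## Part 4: the real place and the lower bound of the local model -/

/-- MIN5: pairs of shifted integer vectors in dimension five with small minors. -/
def Stmt_MIN5 : Prop :=
  ∀ κ : ℝ, 1 ≤ κ → ∃ C : ℝ, 1 ≤ C ∧ ∀ δ : ℝ, 0 < δ → δ ≤ 1 → ∃ A₁ : ℕ, ∀ A : ℕ, A₁ ≤ A →
    ∀ (θ θ' : Fin 5 → ℝ) (S : Finset ((Fin 5 → ℤ) × (Fin 5 → ℤ))),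
    (∀ z ∈ S, (∀ i, |z.1 i + θ i| ≤ 7 * A) ∧ (∀ i, |z.2 i + θ' i| ≤ 7 * A) ∧
      ∀ i j, |(z.1 i + θ i) * (z.2 j + θ' j) - (z.1 j + θ j) * (z.2 i + θ' i)| ≤
        κ * δ * (A : ℝ) ^ 2) →
    (S.card : ℝ) ≤ C * δ ^ 4 * (A : ℝ) ^ 10

open Classical in
/-- RSNG: the nearly singular pairs over the reals are few. -/
def Stmt_RSNG : Prop :=
  ∀ ε : ℝ, 0 < ε → ∃ (δ : ℝ) (A₁ : ℕ), 0 < δ ∧ δ ≤ 1 ∧ ∀ A, A₁ ≤ A →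
    (((Box A ×ˢ Box A).filter fun z => RSing δ A z.1 z.2).card : ℝ) ≤
      ε * (2 * (A : ℝ) + 1) ^ 42

/-- IFT: real zeros near a nonsingular zero. -/
def Stmt_IFT : Prop :=
  ∀ δ η : ℝ, 0 < δ → 0 < η → ∃ ρ : ℝ, 0 < ρ ∧ ρ ≤ η ∧ ∀ (α β : Idx → ℝ) (z : Fin 6 → ℝ)
    (i j : Fin 6), (∀ q, |α q| ≤ 1) → (∀ q, |β q| ≤ 1) → (∀ l, |z l| ≤ 1) →
    Q α z = 0 → Q β z = 0 → δ ≤ |mn α β z i j| →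
    ∀ x : Fin 6 → ℝ, (∀ l, l ≠ i → l ≠ j → |x l - z l| ≤ ρ) →
    ∃ y : Fin 6 → ℝ, (∀ l, l ≠ i → l ≠ j → y l = x l) ∧ |y i - z i| ≤ η ∧ |y j - z j| ≤ η ∧
      Q α y = 0 ∧ Q β y = 0

open Classical in
/-- BOXC: integer points in a region fibred over a cube, in a residue class. -/
def Stmt_BOXC : Prop :=
  ∀ (N : ℕ) (i j : Fin 6) (ctr : Fin 6 → ℝ) (ψ : (Fin 6 → ℤ) → Fin 6 → ℝ) (ρ τ : ℝ)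
    (v : Fin 6 → ℤ) (X : Finset (Fin 6 → ℤ)), 1 ≤ N → i ≠ j → (N : ℝ) ≤ ρ → (N : ℝ) ≤ τ →
    (∀ x x' : Fin 6 → ℤ, (∀ l, l ≠ i → l ≠ j → x l = x' l) → ψ x = ψ x') →
    (∀ x : Fin 6 → ℤ, x ∈ X ↔ (∀ l, l ≠ i → l ≠ j → |x l - ctr l| ≤ ρ) ∧
      |x i - ψ x i| ≤ τ ∧ |x j - ψ x j| ≤ τ) →
    (ρ / N) ^ 4 * (τ / N) ^ 2 ≤ ((X.filter fun x => ∀ l, (N : ℤ) ∣ x l - v l).card : ℝ) ∧
      ((X.filter fun x => ∀ l, (N : ℤ) ∣ x l - v l).card : ℝ) ≤ 729 * ((ρ / N) ^ 4 * (τ / N) ^ 2)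

open Classical in
/-- BIGP: few points have a large prime dividing `r · x` and `x₁`. -/
def Stmt_BIGP : Prop :=
  ∀ (r : Fin 6 → ℤ) (B P₁ : ℕ), r 0 = 1 → 1 ≤ B → 1 ≤ P₁ →
    (((Fintype.piFinset fun _ : Fin 6 => Finset.Icc (-(B : ℤ)) B).filter fun x =>
      0 < dt r x ∧ ∃ p : ℕ, p.Prime ∧ P₁ < p ∧ (p : ℤ) ∣ dt r x ∧ (p : ℤ) ∣ x 1).card : ℝ) ≤
      81 * (2 + n1 r : ℝ) ^ 2 * (B : ℝ) ^ 6 / P₁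

open Classical in
/-- GENB: few points satisfy a small linear relation. -/
def Stmt_GENB : Prop :=
  ∀ (r : Fin 6 → ℤ) (B K₀ : ℕ), r 0 = 1 →
    ((Fintype.piFinset fun _ : Fin 6 => Finset.Icc (-(B : ℤ)) B).filter fun x =>
      ∃ l : Fin 6 → ℤ, l ≠ 0 ∧ (∀ i, |l i| ≤ (K₀ : ℤ)) ∧ ∑ i, l i * tw r x i = 0).card ≤
      (2 * K₀ + 1) ^ 6 * (2 * B + 1) ^ 5

open Classical in
/-- SIEV: points of a region in the good classes modulo `W` with coprime `r · x`, `x₁` and no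
small linear relation. -/
def Stmt_SIEV : Prop :=
  ∃ w₁ : ℕ, ∀ (w W : ℕ) (P₀ K₀ : ℕ) (ρ τ : ℝ), w₁ ≤ w → 0 < W → (∀ p, p.Prime → p ≤ w → p ∣ W) →
    0 < ρ → 0 < τ → ∃ B₁ : ℕ, ∀ (B : ℕ) (r : Fin 6 → ℤ) (GS : Finset (Fin 6 → ℤ))
    (i j : Fin 6) (ctr : Fin 6 → ℝ) (ψ : (Fin 6 → ℤ) → Fin 6 → ℝ) (X : Finset (Fin 6 → ℤ)),
    B₁ ≤ B → r 0 = 1 → n1 r ≤ P₀ → GS ⊆ cs W (Fin 6) →
    (∀ v ∈ GS, Int.gcd (Int.gcd (dt r v) (v 1)) W = 1) → i ≠ j →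
    (∀ x x' : Fin 6 → ℤ, (∀ l, l ≠ i → l ≠ j → x l = x' l) → ψ x = ψ x') →
    (∀ x : Fin 6 → ℤ, x ∈ X ↔ (∀ l, l ≠ i → l ≠ j → |x l - ctr l| ≤ ρ * B) ∧
      |x i - ψ x i| ≤ τ * B ∧ |x j - ψ x j| ≤ τ * B) →
    (∀ x ∈ X, (∀ l, |x l| ≤ (B : ℤ)) ∧ 0 < dt r x) →
    1 / 4 * (GS.card : ℝ) * (ρ ^ 4 * τ ^ 2) * ((B : ℝ) / W) ^ 6 ≤
      ((X.filter fun x => (fun l => x l % (W : ℤ)) ∈ GS ∧ IsCoprime (dt r x) (x 1) ∧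
        ∀ l : Fin 6 → ℤ, l ≠ 0 → (∀ i, |l i| ≤ (K₀ : ℤ)) → ∑ i, l i * tw r x i ≠ 0).card : ℝ)

open Classical in
/-- LOWR: the lower bound of the number of local points. -/
def Stmt_LOWR : Prop :=
  ∀ (P₀ : ℕ) (δ : ℝ), 0 < P₀ → 0 < δ → δ ≤ 1 → ∃ (c κ : ℝ) (w₁ : ℕ), 0 < c ∧ c ≤ 1 ∧ 0 < κ ∧
    ∀ (w : ℕ) (h : ℝ) (lam K₀ : ℕ), w₁ ≤ w → 0 < h → h ≤ 1 → 0 < lam → ∃ A₁ : ℕ, ∀ A, A₁ ≤ A →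
    ∀ a ∈ Box A, ∀ b ∈ Box A, RealSol a b → ¬ RSing δ A a b → ∀ t, Adm P₀ t →
    ∃ s : Fin 6, κ * h ^ 2 * ((gg (Ww w) (rv P₀ t s) a b).card : ℝ) * ((lam * A : ℝ) / Ww w) ^ 6 ≤
      (((XX (rv P₀ t s) c (lam * A) K₀).filter fun x => ((Ww w : ℕ) : ℤ) ∣ Q a x ∧
        ((Ww w : ℕ) : ℤ) ∣ Q b x ∧ |((Q a x : ℤ) : ℝ)| ≤ h * A * (lam * A : ℝ) ^ 2 ∧
        |((Q b x : ℤ) : ℝ)| ≤ h * A * (lam * A : ℝ) ^ 2).card : ℝ)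

/-! ## Part 5: the end -/

open Classical in
/-- MAIN: almost all pairs of quadratic forms in six variables satisfy the Hasse principle. -/
def Stmt_MAIN : Prop :=
  ∀ ε : ℝ, 0 < ε → ∃ A₀ : ℕ, ∀ A, A₀ ≤ A →
    (((Box A ×ˢ Box A).filter fun z => RealSol z.1 z.2 ∧
      (∀ (p : ℕ) [Fact p.Prime], PadicSol p z.1 z.2) ∧ ¬ IntSol z.1 z.2).card : ℝ) ≤
      ε * (2 * (A : ℝ) + 1) ^ 42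

end Pool.HPQ
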