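import Pool.Agent.Work.MP_9fb703_hp.Interface

/-! # Weak approximation for almost all intersections of two quadrics in P^5: the blocks
(MP_9fb703, note 2846 and its addendum, helper66)

The same theorem with approximation: for every `N`, for 100 per cent of the pairs of forms, every
adelic point can be approximated by a rational point with precision `1 / N` at the real place and
`p ^ (-N)` at the primes `p ≤ N`.  Block `X` lives in `B_X.lean` (import this file, namespace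
`Pool.HPQ`) and proves `theorem p_X (h1 : Stmt_Y) ... : Stmt_X`. -/

set_option autoImplicit false

namespace Pool.HPQ

open Finset

/-- A primitive `p`-adic zero of the two forms. -/
def PZ (p : ℕ) [Fact p.Prime] (a b : Idx → ℤ) (M : Fin 6 → ℤ_[p]) : Prop :=
  (∃ i, ‖M i‖ = 1) ∧ Q (fun q => (a q : ℤ_[p])) M = 0 ∧ Q (fun q => (b q : ℤ_[p])) M = 0

/-- A normalized real zero of the two forms. -/
def RZ (a b : Idx → ℤ) (z : Fin 6 → ℝ) : Prop :=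
  (∀ i, |z i| ≤ 1) ∧ (∃ i, |z i| = 1) ∧ Q (fun q => (a q : ℝ)) z = 0 ∧ Q (fun q => (b q : ℝ)) z = 0

/-- `τ` is `p`-adically close to a zero for every `p ≤ N`. -/
def LT (N : ℕ) (τ : Fin 6 → ℤ) (a b : Idx → ℤ) : Prop :=
  ∀ (p : ℕ) [Fact p.Prime], p ≤ N → ∃ M : Fin 6 → ℤ_[p], PZ p a b M ∧
    ∀ l, ‖(τ l : ℤ_[p]) - M l‖ ≤ (p : ℝ) ^ (-(N : ℤ))

open Classical in
/-- Good solutions modulo `m` in the class of `τ` modulo `n`. -/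
noncomputable def gt (n m : ℕ) (τ : Fin 6 → ℤ) (r : Fin 6 → ℤ) (a b : Idx → ℤ) :
    Finset (Fin 6 → ℤ) :=
  (gg m r a b).filter fun x => ∀ l, (n : ℤ) ∣ x l - τ l

/-- Every adelic zero is approximated by an integral zero with precision `1 / N` at the real place
and `p ^ (-N)` at the primes `p ≤ N`. -/
def WA (N : ℕ) (a b : Idx → ℤ) : Prop :=
  ∀ z : Fin 6 → ℝ, RZ a b z →
    ∀ M : (p : ℕ) → [Fact p.Prime] → Fin 6 → ℤ_[p], (∀ (p : ℕ) [Fact p.Prime], PZ p a b (M p)) →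
    ∃ x : Fin 6 → ℤ, x ≠ 0 ∧ Q a x = 0 ∧ Q b x = 0 ∧
      (∃ μ : ℝ, ∀ i, |μ * x i - z i| ≤ 1 / N) ∧
      ∀ (p : ℕ) [Fact p.Prime], p ≤ N → ∀ i, ‖(x i : ℤ_[p]) - M p i‖ ≤ (p : ℝ) ^ (-(N : ℤ))

/-- SCL: scaling of zeros. -/
def Stmt_SCL : Prop :=
  ∀ a b : Idx → ℤ, (RealSol a b ↔ ∃ z, RZ a b z) ∧
    ∀ (p : ℕ) [Fact p.Prime], PadicSol p a b ↔ ∃ M, PZ p a b M

open Classical in
/-- HENT: solutions modulo high powers of `p` near a zero. -/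
def Stmt_HENT : Prop :=
  ∀ (p e f k : ℕ) [Fact p.Prime] (a b : Idx → ℤ) (M : Fin 6 → ℤ_[p]), 1 ≤ e → 1 ≤ f →
    2 * e + f ≤ k → PZ p a b M → ¬ SingP p e a b → p ^ (4 * (k - (2 * e + f))) ≤
      ((cs (p ^ k) (Fin 6)).filter fun x => ((p ^ k : ℕ) : ℤ) ∣ Q a x ∧ ((p ^ k : ℕ) : ℤ) ∣ Q b x ∧
        ∀ l, ‖(x l : ℤ_[p]) - M l‖ ≤ (p : ℝ) ^ (-(f : ℤ))).card

/-- MULTT: multiplicativity in a class. -/
def Stmt_MULTT : Prop :=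
  ∀ (n m m' : ℕ) (τ r : Fin 6 → ℤ) (a b : Idx → ℤ), 0 < m → 0 < m' → n ∣ m → m.Coprime m' →
    (gt n (m * m') τ r a b).card = (gt n m τ r a b).card * (gg m' r a b).card

/-- GREDT: `gt` depends on the forms modulo `m` and on `r` modulo the primes dividing `m`. -/
def Stmt_GREDT : Prop :=
  ∀ (n m : ℕ) (τ r r' : Fin 6 → ℤ) (a b a' b' : Idx → ℤ), 0 < m →
    (∀ q, (m : ℤ) ∣ a q - a' q) → (∀ q, (m : ℤ) ∣ b q - b' q) →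
    (∀ p : ℕ, p.Prime → p ∣ m → ∀ i, (p : ℤ) ∣ r i - r' i) → gt n m τ r a b = gt n m τ r' a' b'

/-- PADT1: the small primes. -/
def Stmt_PADT1 : Prop :=
  ∀ (N w₀ e k : ℕ) (τ : Fin 6 → ℤ) (a b : Idx → ℤ), 1 ≤ N → N ≤ w₀ → 1 ≤ e → 2 * e + N ≤ k →
    (∀ (p : ℕ) [Fact p.Prime], p ≤ w₀ → PadicSol p a b ∧ ¬ SingP p e a b) → LT N τ a b →
    ∃ t : Fin 6 → ℤ, Adm (∏ p ∈ (range (w₀ + 1)).filter Nat.Prime, p) t ∧
      (∏ p ∈ (range (w₀ + 1)).filter Nat.Prime, p ^ k) ^ 4 ≤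
        (∏ p ∈ (range (w₀ + 1)).filter Nat.Prime, p ^ (4 * (2 * e + N))) *
        (gt (Ww N) (∏ p ∈ (range (w₀ + 1)).filter Nat.Prime, p ^ k) τ t a b).card

open Classical in
/-- PADT: the finite places. -/
def Stmt_PADT : Prop :=
  ∀ (ε : ℝ) (N : ℕ), 0 < ε → 1 ≤ N → ∃ (P₀ : ℕ) (κ : ℝ) (w₁ : ℕ), 0 < P₀ ∧ 0 < κ ∧ N ≤ w₁ ∧
    ∀ w, w₁ ≤ w → ∃ A₁ : ℕ, ∀ A, A₁ ≤ A →
    ∃ t : (Fin 6 → ℤ) → (Idx → ℤ) → (Idx → ℤ) → (Fin 6 → ℤ), (∀ τ a b, Adm P₀ (t τ a b)) ∧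
      (((Box A ×ˢ Box A).filter fun z => (∀ (p : ℕ) [Fact p.Prime], PadicSol p z.1 z.2) ∧
        ∃ τ ∈ cs (Ww N) (Fin 6), LT N τ z.1 z.2 ∧
        ∃ s : Fin 6, ((gt (Ww N) (Ww w) τ (rv P₀ (t τ z.1 z.2) s) z.1 z.2).card : ℝ) <
          κ * (Ww w : ℝ) ^ 4).card : ℝ) ≤ ε * (2 * (A : ℝ) + 1) ^ 42

open Classical in
/-- LOWT: the lower bound of the number of local points near a given real zero and in a given
class. -/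
def Stmt_LOWT : Prop :=
  ∀ (P₀ N : ℕ) (δ : ℝ), 0 < P₀ → 1 ≤ N → 0 < δ → δ ≤ 1 → ∃ (c κ : ℝ) (w₁ : ℕ), 0 < c ∧ c ≤ 1 ∧
    0 < κ ∧ N ≤ w₁ ∧
    ∀ (w : ℕ) (h : ℝ) (lam K₀ : ℕ), w₁ ≤ w → 0 < h → h ≤ 1 → 0 < lam → ∃ A₁ : ℕ, ∀ A, A₁ ≤ A →
    ∀ a ∈ Box A, ∀ b ∈ Box A, ¬ RSing δ A a b → ∀ z, RZ a b z → ∀ t, Adm P₀ t →
    ∃ (s : Fin 6) (σ : ℝ), (σ = 1 ∨ σ = -1) ∧ ∀ τ : Fin 6 → ℤ,
      κ * h ^ 2 * ((gt (Ww N) (Ww w) τ (rv P₀ t s) a b).card : ℝ) * ((lam * A : ℝ) / Ww w) ^ 6 ≤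
      (((XX (rv P₀ t s) c (lam * A) K₀).filter fun x => ((Ww w : ℕ) : ℤ) ∣ Q a x ∧
        ((Ww w : ℕ) : ℤ) ∣ Q b x ∧ |((Q a x : ℤ) : ℝ)| ≤ h * A * (lam * A : ℝ) ^ 2 ∧
        |((Q b x : ℤ) : ℝ)| ≤ h * A * (lam * A : ℝ) ^ 2 ∧ (∀ l, ((Ww N : ℕ) : ℤ) ∣ x l - τ l) ∧
        ∀ l, |2 * x l / (lam * A : ℝ) - σ * z l| ≤ 1 / (4 * N)).card : ℝ)

open Classical in
/-- MAINW: almost all pairs of quadratic forms in six variables satisfy the Hasse principle and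
weak approximation with any given precision. -/
def Stmt_MAINW : Prop :=
  ∀ (ε : ℝ) (N : ℕ), 0 < ε → 1 ≤ N → ∃ A₀ : ℕ, ∀ A, A₀ ≤ A →
    (((Box A ×ˢ Box A).filter fun z => (RealSol z.1 z.2 ∧
      (∀ (p : ℕ) [Fact p.Prime], PadicSol p z.1 z.2)) ∧ ¬ WA N z.1 z.2).card : ℝ) ≤
      ε * (2 * (A : ℝ) + 1) ^ 42

end Pool.HPQ
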